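import Pool.Agent.PFT.StmtsCAP
import Pool.Agent.PFlow.E.KAP
import Pool.Agent.PFlow.E.CUTM

/-!
# CHI: properties of the cut-offs at the other ends
-/

open MeasureTheory Filter Topology
open scoped ContDiff ENNReal

namespace Pool.Agent.PFT

open Pool.Agent.PenroseSph Pool.Agent.PFlow

namespace CHIAux

open PFlow.CUTM

theorem kin_smooth {N : ℝ} (hN : 0 < N) (p : E3) : ContDiff ℝ ∞ (fun x : E3 => kin N (x - p)) :=
  (KAP.2.2.2.2.2.2 N hN).comp (contDiff_id.sub contDiff_const)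

theorem chiN_smooth (Q : Finset E3) {N : ℝ} (hN : 0 < N) : ContDiff ℝ ∞ (chiN Q N) := by
  unfold chiN
  exact contDiff_prod fun p _ => kin_smooth hN p

theorem chiN_mem (Q : Finset E3) (N : ℝ) (x : E3) : 0 ≤ chiN Q N x ∧ chiN Q N x ≤ 1 :=
  ⟨Finset.prod_nonneg fun p _ => kin_nonneg KAP N (x - p),
    Finset.prod_le_one (fun p _ => kin_nonneg KAP N (x - p)) fun p _ => kin_le_one KAP N (x - p)⟩

theorem chiN_one {Q : Finset E3} {N : ℝ} (hN : 0 < N) {x : E3}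
    (h : ∀ p ∈ Q, 1 / (16 * N) ≤ ‖x - p‖) : chiN Q N x = 1 :=
  Finset.prod_eq_one fun p hp => kin_one KAP hN (h p hp)

theorem chiN_single {Q : Finset E3} {N : ℝ} (hN : 0 < N) {p : E3} (hp : p ∈ Q) {x : E3}
    (h : ∀ q ∈ Q, q ≠ p → 1 / (16 * N) ≤ ‖x - q‖) : chiN Q N x = kin N (x - p) := by
  unfold chiN
  exact Finset.prod_eq_single_of_mem p hp fun q hq hqp => kin_one KAP hN (h q hq hqp)

theorem sum_single {Q : Finset E3} {N : ℝ} (hN : 0 < N) {p : E3} (hp : p ∈ Q) {x : E3}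
    (h : ∀ q ∈ Q, q ≠ p → 1 / (16 * N) ≤ ‖x - q‖) :
    ∑ q ∈ Q, (1 - kin N (x - q)) = 1 - kin N (x - p) := by
  refine Finset.sum_eq_single_of_mem p hp fun q hq hqp => ?_
  rw [kin_one KAP hN (h q hq hqp), sub_self]

/-- The distance to the other points. -/
theorem far {P : Finset E3} {N : ℝ} (hS : SepN P N) {p q x : E3} (hp : p ∈ P) (hq : q ∈ P)
    (hpq : q ≠ p) (hx : ‖x - p‖ < 1 / (2 * N)) : 1 / (2 * N) ≤ ‖x - q‖ := by
  have h1 := hS.2 q hq p hp hpq
  have h2 : ‖q - p‖ ≤ ‖x - p‖ + ‖x - q‖ := by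
    have : q - p = (x - p) - (x - q) := by abel
    rw [this]; exact norm_sub_le _ _
  have h3 : 1 / N = 1 / (2 * N) + 1 / (2 * N) := by
    have : (0 : ℝ) < N := lt_of_lt_of_le one_pos hS.1
    field_simp; norm_num
  linarith

end CHIAux

open CHIAux in
theorem CHI : Stmt_CHI := by
  intro P N hS
  have hN : (0 : ℝ) < N := lt_of_lt_of_le one_pos hS.1
  have hN2 : (0 : ℝ) < N / 2 := by positivity
  have e16 : 1 / (16 * (N / 2)) = 1 / (8 * N) := by
    congr 1; ring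
  have le1 : 1 / (16 * N) ≤ 1 / (2 * N) := by
    apply one_div_le_one_div_of_le <;> linarith
  have le2 : 1 / (8 * N) ≤ 1 / (2 * N) := by
    apply one_div_le_one_div_of_le <;> linarith
  refine ⟨chiN_smooth _ hN, chiN_smooth _ hN2, ?_, ?_, ?_, ?_, ?_⟩
  · exact ContDiff.sum fun p _ => contDiff_const.sub (kin_smooth hN p)
  · exact fun x => ⟨chiN_mem _ _ x, chiN_mem _ _ x⟩
  · intro x hx
    have hx' : ∀ p ∈ P.erase 0, 1 / (16 * N) ≤ ‖x - p‖ := fun p hp =>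
      hx p (Finset.mem_of_mem_erase hp) (Finset.ne_of_mem_erase hp)
    refine ⟨chiN_one hN hx', Finset.sum_eq_zero fun p hp => ?_⟩
    rw [PFlow.CUTM.kin_one KAP hN (hx' p hp), sub_self]
  · intro x hx
    refine chiN_one hN2 fun p hp => ?_
    rw [e16]
    exact hx p (Finset.mem_of_mem_erase hp) (Finset.ne_of_mem_erase hp)
  · intro p hp hp0 x hx
    have hp' : p ∈ P.erase 0 := Finset.mem_erase.2 ⟨hp0, hp⟩
    have hf : ∀ q ∈ P.erase 0, q ≠ p → 1 / (2 * N) ≤ ‖x - q‖ := fun q hq hqp =>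
      far hS hp (Finset.mem_of_mem_erase hq) hqp hx
    refine ⟨chiN_single hN hp' fun q hq hqp => le1.trans (hf q hq hqp),
      sum_single hN hp' fun q hq hqp => le1.trans (hf q hq hqp), ?_⟩
    refine chiN_single hN2 hp' fun q hq hqp => ?_
    rw [e16]
    exact le2.trans (hf q hq hqp)

end Pool.Agent.PFT
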