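import Pool.Agent.PFT.StmtsE

/-!
# The cost of the caps tends to zero
-/

set_option autoImplicit false

namespace Pool.Agent.PFT

/-- The cost of the caps tends to zero. -/
theorem t_CCO : Stmt_CCO := by
  intro ε C s J τ N₀ hε hε2 hC hJ hτ
  set p : ℝ := ε / (1 + ε) with hp
  have hp0 : 0 < p := by positivity
  have hp3 : p ≤ 1 / 3 := by
    rw [hp, div_le_div_iff₀ (by positivity) (by norm_num)]
    linarith
  set A : ℝ := Real.exp (s / (2 - ε)) with hA
  have hA0 : 0 < A := Real.exp_pos _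
  set K : ℝ := (J * Real.exp s) ^ (1 / (1 + ε)) with hK
  have hK0 : 0 ≤ K := Real.rpow_nonneg (mul_nonneg hJ (Real.exp_pos s).le) _
  set Q : ℝ := C * A * (K * C ^ p) with hQ
  have hCp : 0 ≤ C ^ p := Real.rpow_nonneg hC.le _
  have hQ0 : 0 ≤ Q := by positivity
  refine ⟨max (max N₀ 1) (Q / τ), le_trans (le_max_left _ _) (le_max_left _ _),
    le_trans (le_max_right _ _) (le_max_left _ _), ?_⟩
  have h1 : 1 ≤ max (max N₀ 1) (Q / τ) := le_trans (le_max_right _ _) (le_max_left _ _)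
  have h2 : Q / τ ≤ max (max N₀ 1) (Q / τ) := le_max_right _ _
  generalize max (max N₀ 1) (Q / τ) = N at h1 h2
  have hN : 0 < N := by linarith
  have hN3 : (1 : ℝ) ≤ N ^ 3 := one_le_pow₀ h1
  have e1 : (N ^ 3) ^ p ≤ N := by
    have a1 : (N ^ 3) ^ p ≤ (N ^ 3) ^ (1 / 3 : ℝ) := Real.rpow_le_rpow_of_exponent_le hN3 hp3
    have a2 : (N ^ 3) ^ (1 / 3 : ℝ) = N := by
      have := Real.pow_rpow_inv_natCast hN.le (n := 3) (by norm_num)
      rw [one_div]
      exact_mod_cast this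
    rw [a2] at a1
    exact a1
  rw [Real.mul_rpow hC.le (by positivity)]
  have e2 : C / N ^ 2 * A * (K * (C ^ p * (N ^ 3) ^ p)) = Q * (N ^ 3) ^ p / N ^ 2 := by
    rw [hQ]; ring
  rw [e2, div_le_iff₀ (by positivity)]
  have e3 : Q ≤ τ * N := by
    rw [div_le_iff₀ hτ] at h2
    linarith
  calc Q * (N ^ 3) ^ p ≤ Q * N := mul_le_mul_of_nonneg_left e1 hQ0
    _ ≤ τ * N * N := mul_le_mul_of_nonneg_right e3 hN.le
    _ = τ * N ^ 2 := by ring

end Pool.Agent.PFT
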