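import Pool.Agent.PFT.StmtsCAP
import Pool.Agent.PFlow.E.SHELL

/-!
# The capped data have the same ends at infinity and at the origin
-/

open MeasureTheory Filter Topology
open scoped ContDiff ENNReal

namespace Pool.Agent.PFT

open Pool.Agent.PenroseSph Pool.Agent.PFlow
open Pool.Agent.PFlow.EShell (pd_congr comp_congr)

namespace CENAux

theorem decay_congr {C R R' : ℝ} {g h g' h' : TensorField} (D : DecayFrom C R g h) (hR : R ≤ R')
    (hg : ∀ x : E3, R' ≤ ‖x‖ → g' =ᶠ[𝓝 x] g) (hh : ∀ x : E3, R' ≤ ‖x‖ → h' =ᶠ[𝓝 x] h) :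
    DecayFrom C R' g' h' := by
  intro x hx i j
  obtain ⟨d1, d2, d3, d4, d5⟩ := D x (hR.trans hx) i j
  have eg := comp_congr (hg x hx) i j
  have eh := comp_congr (hh x hx) i j
  have eg0 : g' x = g x := (hg x hx).self_of_nhds
  have eh0 : h' x = h x := (hh x hx).self_of_nhds
  refine ⟨?_, ?_, ?_, ?_, ?_⟩
  · rw [eg0]; exact d1
  · intro k
    rw [pd_congr eg k]
    exact d2 k
  · intro k l
    have e2 : pd l (fun y => g' y i j) =ᶠ[𝓝 x] pd l (fun y => g y i j) :=
      eg.eventuallyEq_nhds.mono fun y hy => pd_congr hy l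
    rw [pd_congr e2 k]
    exact d3 k l
  · rw [eh0]; exact d4
  · intro k
    rw [pd_congr eh k]
    exact d5 k

theorem cap_eq (hCHI : Stmt_CHI) {P : Finset E3} {N : ℝ} (hs : SepN P N) (g k : TensorField)
    {x : E3} (hx : ∀ p ∈ P, p ≠ 0 → 1 / (8 * N) ≤ ‖x - p‖) :
    capG (P.erase 0) N g x = g x ∧ capK (P.erase 0) N k x = k x := by
  obtain ⟨-, -, -, -, h5, h6, -⟩ := hCHI P N hs
  have hN : 0 < N := lt_of_lt_of_le one_pos hs.1
  have hx' : ∀ p ∈ P, p ≠ 0 → 1 / (16 * N) ≤ ‖x - p‖ := by
    intro p hp hp0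
    refine le_trans ?_ (hx p hp hp0)
    apply one_div_le_one_div_of_le (by positivity)
    linarith
  obtain ⟨a, b⟩ := h5 x hx'
  constructor
  · unfold capG
    rw [a, b, one_smul, zero_mul, zero_smul, add_zero]
  · unfold capK
    rw [h6 x hx, one_smul]

theorem norm_inv (y : E3) (hy : y ≠ 0) : ‖inversion y‖ = 1 / ‖y‖ := by
  have h : ‖y‖ ≠ 0 := norm_ne_zero_iff.2 hy
  unfold inversion
  rw [norm_smul, _root_.norm_inv, norm_pow, norm_norm]
  field_simp

theorem shift_zero (g : TensorField) : shift 0 g = g := by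
  funext x
  unfold shift
  rw [add_zero]

end CENAux

open CENAux

theorem CEN (hCHI : Stmt_CHI) : Stmt_CEN := by
  intro P N g k h0 hE hs
  have hN : 0 < N := lt_of_lt_of_le one_pos hs.1
  have h8 : 1 / (8 * N) ≤ 1 := by
    rw [div_le_one (by positivity)]
    linarith [hs.1]
  constructor
  · obtain ⟨C, R, D⟩ := hE.infinity
    obtain ⟨M, hM⟩ : ∃ M : ℝ, ∀ p ∈ P, ‖p‖ ≤ M :=
      ⟨∑ p ∈ P, ‖p‖, fun p hp => Finset.single_le_sum (f := fun p => ‖p‖)
        (fun q _ => norm_nonneg q) hp⟩
    have key : ∀ x : E3, max R (M + 2) ≤ ‖x‖ → ∀ᶠ y in 𝓝 x,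
        ∀ p ∈ P, p ≠ 0 → 1 / (8 * N) ≤ ‖y - p‖ := by
      intro x hx
      have h1 : M + 1 < ‖x‖ := by
        have := (le_max_right R (M + 2)).trans hx
        linarith
      filter_upwards [(isOpen_lt continuous_const continuous_norm).mem_nhds h1] with y hy p hp _
      have hy' : M + 1 < ‖y‖ := hy
      have h2 := norm_sub_norm_le y p
      have h3 := hM p hp
      linarith
    refine ⟨C, max R (M + 2), decay_congr D (le_max_left _ _) ?_ ?_⟩
    · intro x hx
      exact (key x hx).mono fun y hy => (cap_eq hCHI hs g k hy).1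
    · intro x hx
      exact (key x hx).mono fun y hy => (cap_eq hCHI hs g k hy).2
  · obtain ⟨C, R, D⟩ := hE.points 0 h0
    rw [shift_zero, shift_zero] at D
    have key : ∀ x : E3, max R (4 * N) ≤ ‖x‖ → ∀ᶠ y in 𝓝 x,
        ∀ p ∈ P, p ≠ 0 → 1 / (8 * N) ≤ ‖inversion y - p‖ := by
      intro x hx
      have h1 : 2 * N < ‖x‖ := by
        have := (le_max_right R (4 * N)).trans hx
        linarith
      filter_upwards [(isOpen_lt continuous_const continuous_norm).mem_nhds h1] with y hy p hp hp0
      have hy' : 2 * N < ‖y‖ := hy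
      have hy0 : y ≠ 0 := by
        rintro rfl
        rw [norm_zero] at hy'
        linarith
      have h2 : ‖inversion y‖ ≤ 1 / (2 * N) := by
        rw [norm_inv y hy0]
        exact one_div_le_one_div_of_le (by positivity) hy'.le
      have h3 : 1 / N < ‖p‖ := by
        have := hs.2 p hp 0 h0 hp0
        rwa [sub_zero] at this
      have h4 := norm_sub_norm_le p (inversion y)
      rw [norm_sub_rev] at h4
      have h5 : 1 / N = 2 * (1 / (2 * N)) := by field_simp
      have h6 : 1 / (8 * N) ≤ 1 / (2 * N) :=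
        one_div_le_one_div_of_le (by positivity) (by linarith)
      linarith
    refine ⟨C, max R (4 * N), decay_congr D (le_max_left _ _) ?_ ?_⟩
    · intro x hx
      refine (key x hx).mono fun y hy => ?_
      show (inversionJac y).transpose * capG (P.erase 0) N g (inversion y) * inversionJac y
        = (inversionJac y).transpose * g (inversion y) * inversionJac y
      rw [(cap_eq hCHI hs g k hy).1]
    · intro x hx
      refine (key x hx).mono fun y hy => ?_
      show (inversionJac y).transpose * capK (P.erase 0) N k (inversion y) * inversionJac y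
        = (inversionJac y).transpose * k (inversion y) * inversionJac y
      rw [(cap_eq hCHI hs g k hy).2]

end Pool.Agent.PFT
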