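import Pool.Agent.PFT.StmtsCAP
import Pool.Agent.PFlow.E.KAP

/-!
# Block CAP, module CNE: the capped data satisfy the same bounds
-/

open MeasureTheory Filter Topology
open scoped ContDiff ENNReal

namespace Pool.Agent.PFT

open Pool.Agent.PenroseSph Pool.Agent.PFlow

namespace CNEAux

theorem pd_add {f h : E3 → ℝ} {x : E3} (i : Fin 3) (hf : DifferentiableAt ℝ f x)
    (hh : DifferentiableAt ℝ h x) : pd i (fun y => f y + h y) x = pd i f x + pd i h x := by
  unfold pd
  rw [fderiv_fun_add hf hh]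
  rfl

theorem pd_mul {f h : E3 → ℝ} {x : E3} (i : Fin 3) (hf : DifferentiableAt ℝ f x)
    (hh : DifferentiableAt ℝ h x) :
    pd i (fun y => f y * h y) x = f x * pd i h x + h x * pd i f x := by
  unfold pd
  rw [fderiv_fun_mul hf hh]
  rfl

theorem pd_congr {f h : E3 → ℝ} {x : E3} (i : Fin 3) (e : f =ᶠ[𝓝 x] h) :
    pd i f x = pd i h x := by
  unfold pd
  rw [e.fderiv_eq]

theorem pd_smooth {f : E3 → ℝ} {x : E3} (h : ContDiffAt ℝ ∞ f x) (i : Fin 3) :
    ContDiffAt ℝ ∞ (pd i f) x := by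
  unfold pd
  exact (h.fderiv_right (m := ∞) (by simp)).clm_apply contDiffAt_const

theorem diff {f : E3 → ℝ} {x : E3} (h : ContDiffAt ℝ ∞ f x) : DifferentiableAt ℝ f x :=
  h.differentiableAt (by simp)

theorem ev_diff {f : E3 → ℝ} {x : E3} (h : ContDiffAt ℝ ∞ f x) :
    ∀ᶠ y in 𝓝 x, DifferentiableAt ℝ f y := by
  have h1 : ContDiffAt ℝ 1 f x := h.of_le (by simp)
  filter_upwards [h1.eventually (by simp)] with y hy
  exact hy.differentiableAt (by simp)

theorem pd2_mul {f h : E3 → ℝ} {x : E3} (hf : ContDiffAt ℝ ∞ f x) (hh : ContDiffAt ℝ ∞ h x)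
    (i j : Fin 3) : pd i (pd j (fun y => f y * h y)) x =
      f x * pd i (pd j h) x + h x * pd i (pd j f) x + pd i f x * pd j h x +
        pd i h x * pd j f x := by
  have e : pd i (pd j (fun y => f y * h y)) x =
      pd i (fun y => f y * pd j h y + h y * pd j f y) x := by
    apply pd_congr
    filter_upwards [ev_diff hf, ev_diff hh] with y h1 h2
    exact pd_mul j h1 h2
  rw [e, pd_add (f := fun y => f y * pd j h y) (h := fun y => h y * pd j f y) i
      ((diff hf).mul (diff (pd_smooth hh j))) ((diff hh).mul (diff (pd_smooth hf j))),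
    pd_mul i (diff hf) (diff (pd_smooth hh j)), pd_mul i (diff hh) (diff (pd_smooth hf j))]
  ring

theorem pd_add_const (f : E3 → ℝ) (K : ℝ) (i : Fin 3) :
    pd i (fun y => f y + K) = pd i f := by
  funext x
  unfold pd
  rw [fderiv_add_const]

theorem pd_shift (F : E3 → ℝ) (p : E3) (k : Fin 3) :
    pd k (fun y => F (y - p)) = fun x => pd k F (x - p) := by
  funext x
  unfold pd
  rw [fderiv_comp_sub]

/-- the cut-off `kin R` and its derivatives -/
theorem kin_bounds : ∃ D : ℝ, 0 < D ∧ ∀ R : ℝ, 0 < R → ∀ p : E3,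
    ContDiff ℝ ∞ (fun y => kin R (y - p)) ∧ (∀ x, 0 ≤ kin R (x - p) ∧ kin R (x - p) ≤ 1) ∧
    ∀ x, (∀ k, |pd k (fun y => kin R (y - p)) x| ≤ 32 * D * R) ∧
      (∀ k m, |pd k (pd m (fun y => kin R (y - p))) x| ≤ 1024 * D * R ^ 2) := by
  obtain ⟨_, h01, _, _, ⟨D, hD, hb⟩, hsm, hkin⟩ := KAP
  refine ⟨D, hD, fun R hR p => ?_⟩
  have hl : 0 < 1 / (32 * R) := by positivity
  have e : kin R = fun y => -kap (‖y‖ / (1 / (32 * R))) + 1 := by
    funext y
    unfold kin
    rw [div_div_eq_mul_div, div_one, mul_comm ‖y‖]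
    ring
  have hk : ContDiff ℝ ∞ (fun y : E3 => kap (‖y‖ / (1 / (32 * R)))) := hsm _ hl
  have pdneg : ∀ (f : E3 → ℝ) (k : Fin 3), pd k (fun y => -f y) = fun y => -pd k f y := by
    intro f k
    funext y
    unfold pd
    rw [fderiv_fun_neg]
    rfl
  have e1 : ∀ k, pd k (kin R) = fun y => -pd k (fun y => kap (‖y‖ / (1 / (32 * R)))) y := by
    intro k
    rw [e, pd_add_const, pdneg]
  refine ⟨(hkin R hR).comp (contDiff_id.sub contDiff_const), fun x => ?_, fun x => ⟨?_, ?_⟩⟩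
  · have := h01 (32 * R * ‖x - p‖)
    unfold kin
    constructor <;> linarith [this.1, this.2]
  · intro k
    rw [pd_shift, e1]
    show |-pd k (fun y => kap (‖y‖ / (1 / (32 * R)))) (x - p)| ≤ 32 * D * R
    rw [abs_neg]
    refine ((hb _ hl (x - p)).1 k).trans (le_of_eq ?_)
    field_simp
  · intro k m
    rw [pd_shift, pd_shift, e1, pdneg]
    show |-pd k (pd m (fun y => kap (‖y‖ / (1 / (32 * R))))) (x - p)| ≤ 1024 * D * R ^ 2
    rw [abs_neg]
    refine ((hb _ hl (x - p)).2 k m).trans (le_of_eq ?_)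
    field_simp
    ring

theorem ev_cap (N t : ℝ) (B : Bil) (v : Cov) :
    ev (t • B + ((1 - t) * N ^ 4) • (1 : Bil)) v v = t * ev B v v + (1 - t) * N ^ 4 * ∑ i, v i ^ 2 := by
  simp only [ev, Fin.sum_univ_three, Matrix.add_apply, Matrix.smul_apply, smul_eq_mul,
    Matrix.one_apply]
  simp only [Fin.isValue, Fin.reduceEq, if_true, if_false]
  ring

theorem ev_nonneg {B : Bil} (hB : B.PosDef) (v : Cov) : 0 ≤ ev B v v := by
  have h := hB.posSemidef.dotProduct_mulVec_nonneg v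
  simp only [star_trivial, dotProduct, Matrix.mulVec, Fin.sum_univ_three] at h
  simp only [ev, Fin.sum_univ_three]
  linarith

/-- polarisation -/
theorem entry_le {B : Bil} {M : ℝ} (hB : B.PosDef) (hM : ∀ v : Cov, ev B v v ≤ M * ∑ i, v i ^ 2)
    (i j : Fin 3) : |B i j| ≤ M := by
  have hs : ∀ i j, B i j = B j i := fun i j => by
    have := hB.isHermitian.apply j i
    simpa using this
  have key : ∀ v : Cov, 0 ≤ ev B v v ∧ ev B v v ≤ M * ∑ i, v i ^ 2 := fun v => ⟨ev_nonneg hB v, hM v⟩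
  have a0 := key ![1, 0, 0]
  have a1 := key ![0, 1, 0]
  have a2 := key ![0, 0, 1]
  have b01 := key ![1, 1, 0]
  have b02 := key ![1, 0, 1]
  have b12 := key ![0, 1, 1]
  have c01 := key ![1, -1, 0]
  have c02 := key ![1, 0, -1]
  have c12 := key ![0, 1, -1]
  simp only [ev, Fin.sum_univ_three, Matrix.cons_val_zero, Matrix.cons_val_one,
    Matrix.cons_val] at a0 a1 a2 b01 b02 b12 c01 c02 c12
  have s01 := hs 0 1
  have s02 := hs 0 2
  have s12 := hs 1 2
  rw [abs_le]
  fin_cases i <;> fin_cases j <;> simp only [Fin.zero_eta, Fin.mk_one, Fin.reduceFinMk] <;>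
    constructor <;> linarith [a0.1, a0.2, a1.1, a1.2, a2.1, a2.2, b01.1, b02.1, b12.1, c01.1, c02.1,
      c12.1]

end CNEAux

open CNEAux in
/-- **CNE.** -/
theorem CNE : Stmt_CNE := by
  intro C hC
  obtain ⟨D, hD, hcut⟩ := kin_bounds
  refine ⟨C + 80 * D * (C + 1) + 32 ^ 4 + 1, by positivity, ?_⟩
  intro N p x g k hN hs1 hs2 hpos hg hk hNE
  set s := ‖x - p‖ with hsdef
  have hN0 : 0 < N := by linarith
  have hs : 0 < s := lt_of_lt_of_le (by positivity) hs1
  have hNs : N * s ≤ 1 / 4 := by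
    rw [le_div_iff₀ (by positivity)] at hs2
    linarith
  have hNs2 : 1 / 32 ≤ N * s := by
    rw [div_le_iff₀ (by positivity)] at hs1
    linarith
  obtain ⟨csm, c01, cb⟩ := hcut N hN0 p
  obtain ⟨dsm, d01, db⟩ := hcut (N / 2) (by positivity) p
  obtain ⟨c0, c1⟩ := c01 x
  obtain ⟨d0, d1⟩ := d01 x
  obtain ⟨cb1, cb2⟩ := cb x
  obtain ⟨db1, _⟩ := db x
  -- the cut-offs in terms of s
  have hNle : N ≤ 1 / (4 * s) := by
    rw [le_div_iff₀ (by positivity)]
    linarith
  have hN2 : N ^ 2 ≤ 1 / (16 * s ^ 2) := by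
    rw [le_div_iff₀ (by positivity)]
    nlinarith [mul_pos hN0 hs]
  have hN4 : N ^ 4 ≤ 1 / s ^ 4 := by
    rw [le_div_iff₀ (by positivity)]
    have : (N * s) ^ 4 ≤ 1 := pow_le_one₀ (by positivity) (by linarith)
    calc N ^ 4 * s ^ 4 = (N * s) ^ 4 := by ring
      _ ≤ 1 := this
  have hN4' : 1 ≤ 32 ^ 4 * (N ^ 4 * s ^ 4) := by
    have : (1 : ℝ) ≤ (32 * (N * s)) ^ 4 := one_le_pow₀ (by linarith)
    calc (1 : ℝ) ≤ (32 * (N * s)) ^ 4 := this
      _ = 32 ^ 4 * (N ^ 4 * s ^ 4) := by ring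
  have cb1' : ∀ l, |pd l (fun y => kin N (y - p)) x| ≤ 8 * D / s := by
    intro l
    refine (cb1 l).trans ?_
    rw [le_div_iff₀ hs]
    nlinarith
  have cb2' : ∀ l n, |pd n (pd l (fun y => kin N (y - p))) x| ≤ 64 * D / s ^ 2 := by
    intro l n
    refine (cb2 n l).trans ?_
    rw [le_div_iff₀ (by positivity)]
    have : (N * s) ^ 2 ≤ 1 / 16 := by nlinarith [mul_pos hN0 hs]
    nlinarith
  have db1' : ∀ l, |pd l (fun y => kin (N / 2) (y - p)) x| ≤ 4 * D / s := by
    intro l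
    refine (db1 l).trans ?_
    rw [le_div_iff₀ hs]
    nlinarith
  have hent : ∀ i j, |g x i j| ≤ C / s ^ 4 := entry_le hpos hNE.up
  have hDC : 0 < D * (C + 1) := by positivity
  -- the entries of the capped metric
  have hF : ∀ i j, (fun y => cap1 N p g y i j) =
      fun y => kin N (y - p) * (g y i j + -(N ^ 4 * (1 : Bil) i j)) + N ^ 4 * (1 : Bil) i j := by
    intro i j
    funext y
    simp only [cap1, Matrix.add_apply, Matrix.smul_apply, smul_eq_mul]
    ring
  have hH : ∀ i j, |g x i j + -(N ^ 4 * (1 : Bil) i j)| ≤ (C + 1) / s ^ 4 := by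
    intro i j
    have h1 : |N ^ 4 * (1 : Bil) i j| ≤ 1 / s ^ 4 := by
      rw [abs_mul, abs_of_nonneg (by positivity : (0 : ℝ) ≤ N ^ 4)]
      have h2 : |(1 : Bil) i j| ≤ 1 := by
        rw [Matrix.one_apply]
        split_ifs <;> simp
      calc N ^ 4 * |(1 : Bil) i j| ≤ N ^ 4 * 1 := by gcongr
        _ ≤ 1 / s ^ 4 := by linarith
    calc |g x i j + -(N ^ 4 * (1 : Bil) i j)| ≤ |g x i j| + |-(N ^ 4 * (1 : Bil) i j)| := abs_add_le _ _
      _ ≤ C / s ^ 4 + 1 / s ^ 4 := by rw [abs_neg]; gcongr; exact hent i j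
      _ = (C + 1) / s ^ 4 := by ring
  have hGsm : ∀ i j, ContDiffAt ℝ ∞ (fun y => g y i j + -(N ^ 4 * (1 : Bil) i j)) x := fun i j =>
    (hg i j).add contDiffAt_const
  have hcsm : ContDiffAt ℝ ∞ (fun y => kin N (y - p)) x := csm.contDiffAt
  have hdsm : ContDiffAt ℝ ∞ (fun y => kin (N / 2) (y - p)) x := dsm.contDiffAt
  refine ⟨?_, ?_, ?_, ?_, ?_, ?_⟩
  · intro v
    have h1 := hNE.low v
    have h2 : 0 ≤ ∑ i, v i ^ 2 := Finset.sum_nonneg fun i _ => sq_nonneg _
    have h3 := ev_nonneg hpos v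
    show ∑ i, v i ^ 2 ≤ _ * s ^ 4 * ev (kin N (x - p) • g x + ((1 - kin N (x - p)) * N ^ 4) • (1 : Bil)) v v
    rw [ev_cap]
    set t := kin N (x - p)
    set S := ∑ i, v i ^ 2
    set e := ev (g x) v v
    have h4 : t * S ≤ t * (C * s ^ 4 * e) := mul_le_mul_of_nonneg_left h1 c0
    have h5 : (1 - t) * S ≤ (1 - t) * (32 ^ 4 * (N ^ 4 * s ^ 4) * S) := by
      apply mul_le_mul_of_nonneg_left _ (by linarith)
      nlinarith
    have h6 : 0 ≤ t * (s ^ 4 * e) := by positivity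
    have h7 : 0 ≤ (1 - t) * (N ^ 4 * s ^ 4 * S) := by
      have : 0 ≤ 1 - t := by linarith
      positivity
    have h8 : (0 : ℝ) ≤ 80 * D * (C + 1) := by positivity
    calc S = t * S + (1 - t) * S := by ring
      _ ≤ C * (t * (s ^ 4 * e)) + 32 ^ 4 * ((1 - t) * (N ^ 4 * s ^ 4 * S)) := by linarith
      _ ≤ (C + 80 * D * (C + 1) + 32 ^ 4 + 1) * (t * (s ^ 4 * e)) +
          (C + 80 * D * (C + 1) + 32 ^ 4 + 1) * ((1 - t) * (N ^ 4 * s ^ 4 * S)) := by
            gcongr <;> linarith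
      _ = (C + 80 * D * (C + 1) + 32 ^ 4 + 1) * s ^ 4 * (t * e + (1 - t) * N ^ 4 * S) := by ring
  · intro v
    have h1 := hNE.up v
    have h2 : 0 ≤ ∑ i, v i ^ 2 := Finset.sum_nonneg fun i _ => sq_nonneg _
    show ev (kin N (x - p) • g x + ((1 - kin N (x - p)) * N ^ 4) • (1 : Bil)) v v ≤ _
    rw [ev_cap]
    set t := kin N (x - p)
    set S := ∑ i, v i ^ 2
    set e := ev (g x) v v
    have h4 : t * e ≤ t * (C / s ^ 4 * S) := mul_le_mul_of_nonneg_left h1 c0
    have h5 : (1 - t) * N ^ 4 * S ≤ (1 - t) * (1 / s ^ 4) * S := by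
      have : 0 ≤ 1 - t := by linarith
      gcongr
    have h6 : 0 ≤ 1 / s ^ 4 * S := by positivity
    have h8 : (0 : ℝ) ≤ 80 * D * (C + 1) := by positivity
    calc t * e + (1 - t) * N ^ 4 * S ≤ t * (C / s ^ 4 * S) + (1 - t) * (1 / s ^ 4) * S := by linarith
      _ = (t * C + (1 - t)) * (1 / s ^ 4 * S) := by ring
      _ ≤ (C + 80 * D * (C + 1) + 32 ^ 4 + 1) * (1 / s ^ 4 * S) := by
          apply mul_le_mul_of_nonneg_right _ h6
          nlinarith
      _ = (C + 80 * D * (C + 1) + 32 ^ 4 + 1) / s ^ 4 * S := by ring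
  · intro i j l
    rw [hF i j, pd_add_const, pd_mul l (diff hcsm) (diff (hGsm i j)), pd_add_const]
    have h1 := hNE.d1 i j l
    have h2 := hH i j
    have h3 := cb1' l
    calc |kin N (x - p) * pd l (fun y => g y i j) x +
          (g x i j + -(N ^ 4 * (1 : Bil) i j)) * pd l (fun y => kin N (y - p)) x|
        ≤ |kin N (x - p) * pd l (fun y => g y i j) x| +
          |(g x i j + -(N ^ 4 * (1 : Bil) i j)) * pd l (fun y => kin N (y - p)) x| := abs_add_le _ _
      _ ≤ 1 * (C / s ^ 5) + (C + 1) / s ^ 4 * (8 * D / s) := by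
          rw [abs_mul, abs_mul, abs_of_nonneg c0]
          gcongr
      _ = (C + 8 * D * (C + 1)) / s ^ 5 := by field_simp
      _ ≤ (C + 80 * D * (C + 1) + 32 ^ 4 + 1) / s ^ 5 := by
          gcongr ?_ / _
          nlinarith
  · intro i j l n
    rw [hF i j, pd_add_const, pd2_mul hcsm (hGsm i j), pd_add_const, pd_add_const]
    have h1 := hNE.d1 i j l
    have h1' := hNE.d1 i j n
    have h1'' := hNE.d2 i j l n
    have h2 := hH i j
    have h3 := cb1' l
    have h3' := cb1' n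
    have h3'' := cb2' l n
    set a1 := kin N (x - p) * pd n (pd l (fun y => g y i j)) x with ha1
    set a2 := (g x i j + -(N ^ 4 * (1 : Bil) i j)) * pd n (pd l (fun y => kin N (y - p))) x with ha2
    set a3 := pd n (fun y => kin N (y - p)) x * pd l (fun y => g y i j) x with ha3
    set a4 := pd n (fun y => g y i j) x * pd l (fun y => kin N (y - p)) x with ha4
    have b1 : |a1| ≤ 1 * (C / s ^ 6) := by
      rw [ha1, abs_mul, abs_of_nonneg c0]
      gcongr
    have b2 : |a2| ≤ (C + 1) / s ^ 4 * (64 * D / s ^ 2) := by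
      rw [ha2, abs_mul]
      gcongr
    have b3 : |a3| ≤ (8 * D / s) * (C / s ^ 5) := by
      rw [ha3, abs_mul]
      gcongr
    have b4 : |a4| ≤ (C / s ^ 5) * (8 * D / s) := by
      rw [ha4, abs_mul]
      gcongr
    calc |a1 + a2 + a3 + a4| ≤ |a1| + |a2| + |a3| + |a4| := by
          refine (abs_add_le _ _).trans ?_
          gcongr
          refine (abs_add_le _ _).trans ?_
          gcongr
          exact abs_add_le _ _
      _ ≤ 1 * (C / s ^ 6) + (C + 1) / s ^ 4 * (64 * D / s ^ 2) + (8 * D / s) * (C / s ^ 5) +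
          (C / s ^ 5) * (8 * D / s) := by linarith
      _ = (C + 64 * D * (C + 1) + 16 * D * C) / s ^ 6 := by
          field_simp
          ring
      _ ≤ (C + 80 * D * (C + 1) + 32 ^ 4 + 1) / s ^ 6 := by
          gcongr ?_ / _
          nlinarith
  · intro i j
    have h1 := hNE.k0 i j
    show |(kin (N / 2) (x - p) • k x) i j| ≤ _
    rw [Matrix.smul_apply, smul_eq_mul, abs_mul, abs_of_nonneg d0]
    calc kin (N / 2) (x - p) * |k x i j| ≤ 1 * (C / s ^ 2) := by gcongr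
      _ = C / s ^ 2 := one_mul _
      _ ≤ (C + 80 * D * (C + 1) + 32 ^ 4 + 1) / s ^ 2 := by
          gcongr ?_ / _
          nlinarith
  · intro i j l
    have hKF : (fun y => cut1 N p k y i j) = fun y => kin (N / 2) (y - p) * k y i j := by
      funext y
      simp only [cut1, Matrix.smul_apply, smul_eq_mul]
    rw [hKF, pd_mul l (diff hdsm) (diff (hk i j))]
    have h1 := hNE.k0 i j
    have h2 := hNE.k1 i j l
    have h3 := db1' l
    calc |kin (N / 2) (x - p) * pd l (fun y => k y i j) x +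
          k x i j * pd l (fun y => kin (N / 2) (y - p)) x|
        ≤ |kin (N / 2) (x - p) * pd l (fun y => k y i j) x| +
          |k x i j * pd l (fun y => kin (N / 2) (y - p)) x| := abs_add_le _ _
      _ ≤ 1 * (C / s ^ 3) + C / s ^ 2 * (4 * D / s) := by
          rw [abs_mul, abs_mul, abs_of_nonneg d0]
          gcongr
      _ = (C + 4 * D * C) / s ^ 3 := by field_simp
      _ ≤ (C + 80 * D * (C + 1) + 32 ^ 4 + 1) / s ^ 3 := by
          gcongr ?_ / _
          nlinarith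

end Pool.Agent.PFT
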