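import Pool.Agent.PFT.PERG
import Pool.Agent.PFlow.E.WGTA
import Pool.Agent.PFlow.E.UPH
import Pool.Agent.PFlow.E.HSM2

/-!
# CUT: the cut of a function near an end

On the annulus `t/2 ≤ |x - p| ≤ 2t` the metric is uniformly equivalent to the constant metric
`t⁻⁴ δ`; the inequality is the Poincaré inequality in `L¹` for smooth functions, and then for
functions of class `W^{1,1}` by approximation.
-/

open MeasureTheory Filter Topology
open scoped ContDiff ENNReal

namespace Pool.Agent.PFT

open Pool.Agent.PenroseSph Pool.Agent.PFlow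

namespace CUTm

/-- The closed annulus about `p`. -/
def an (p : E3) (a b : ℝ) : Set E3 := {x : E3 | a ≤ ‖x - p‖ ∧ ‖x - p‖ ≤ b}

theorem an_compact (p : E3) (a b : ℝ) : IsCompact (an p a b) := by
  apply Metric.isCompact_of_isClosed_isBounded
  · have h1 : IsClosed {x : E3 | a ≤ ‖x - p‖} := isClosed_le continuous_const (by fun_prop)
    have h2 : IsClosed {x : E3 | ‖x - p‖ ≤ b} := isClosed_le (by fun_prop) continuous_const
    exact h1.inter h2
  · refine (Metric.isBounded_closedBall (x := p) (r := b)).subset ?_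
    intro x hx
    rw [Metric.mem_closedBall, dist_eq_norm]
    exact hx.2

theorem an_meas (p : E3) (a b : ℝ) : MeasurableSet (an p a b) :=
  (an_compact p a b).isClosed.measurableSet

theorem integral_an (p : E3) (a b : ℝ) (F : E3 → ℝ) :
    ∫ x in an p a b, F x = ∫ y in cAnn a b, F (y + p) := by
  have hm : MeasurableSet (cAnn a b) := UphM.measurableSet_cAnn a b
  rw [← integral_indicator (an_meas p a b), ← integral_indicator hm,
    ← integral_add_right_eq_self ((an p a b).indicator F) p]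
  congr 1
  funext y
  have h1 : y + p ∈ an p a b ↔ y ∈ cAnn a b := by
    simp only [an, cAnn, Set.mem_setOf_eq, add_sub_cancel_right]
  by_cases h : y ∈ cAnn a b
  · rw [Set.indicator_of_mem h, Set.indicator_of_mem (h1.2 h)]
  · rw [Set.indicator_of_notMem h, Set.indicator_of_notMem (fun h2 => h (h1.1 h2))]

theorem norm_fderiv_le (f : E3 → ℝ) (x : E3) : ‖fderiv ℝ f x‖ ≤ ∑ i, |pd i f x| := by
  have hc : 0 ≤ ∑ i, |pd i f x| := Finset.sum_nonneg fun _ _ => abs_nonneg _
  refine ContinuousLinearMap.opNorm_le_bound _ hc fun v => ?_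
  have h2 : fderiv ℝ f x v = ∑ k, v k * pd k f x := by
    conv_lhs => rw [← (EuclideanSpace.basisFun (Fin 3) ℝ).sum_repr v]
    rw [map_sum]
    refine Finset.sum_congr rfl fun k _ => ?_
    rw [map_smul, EuclideanSpace.basisFun_repr, EuclideanSpace.basisFun_apply, smul_eq_mul]
    rfl
  rw [h2, Real.norm_eq_abs]
  have h3 : ∀ k : Fin 3, |v k * pd k f x| ≤ |pd k f x| * ‖v‖ := by
    intro k
    rw [abs_mul, mul_comm]
    exact mul_le_mul_of_nonneg_left (PiLp.norm_apply_le v k) (abs_nonneg _)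
  calc |∑ k, v k * pd k f x| ≤ ∑ k : Fin 3, |v k * pd k f x| := Finset.abs_sum_le_sum_abs _ _
    _ ≤ ∑ k : Fin 3, |pd k f x| * ‖v‖ := Finset.sum_le_sum fun k _ => h3 k
    _ = (∑ k : Fin 3, |pd k f x|) * ‖v‖ := by rw [Finset.sum_mul]

/-! ### The Poincaré inequality for functions of class `W^{1,1}` -/

theorem poi_w (hPOI1 : Stmt_POI1) : ∃ C : ℝ, 0 < C ∧ ∀ (p : E3) (t : ℝ) (w : E3 → ℝ)
    (G : E3 → Cov), 0 < t → L1Approx (an p (t / 2) (2 * t)) w G →
    ∃ c : ℝ, ∫ x in an p t (2 * t), |w x - c|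
      ≤ C * t * ∫ x in an p (t / 2) (2 * t), ∑ i, |G x i| := by
  obtain ⟨C, hC, hP⟩ := hPOI1 1 2 one_pos one_lt_two
  refine ⟨C, hC, fun p t w G ht hw => ?_⟩
  set A : Set E3 := cAnn t (2 * t) with hA
  set B : Set E3 := cAnn (t / 2) (2 * t) with hB
  have hAm : MeasurableSet A := UphM.measurableSet_cAnn _ _
  have hAB : A ⊆ B := fun x hx => ⟨by linarith [hx.1], hx.2⟩
  have hAfin : volume A < ⊤ := lt_top_iff_ne_top.2 (UphM.vol_cAnn (by linarith)).1
  obtain ⟨V, hV⟩ : ∃ V : ℝ, V = volume.real A := ⟨_, rfl⟩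
  have hV0 : 0 ≤ V := by rw [hV]; exact measureReal_nonneg
  have hmemK : ∀ y ∈ B, y + p ∈ an p (t / 2) (2 * t) := by
    intro y hy
    simp only [an, Set.mem_setOf_eq, add_sub_cancel_right]
    exact hy
  have hAK : IsCompact A := by
    apply Metric.isCompact_of_isClosed_isBounded
    · have h1 : IsClosed {x : E3 | t ≤ ‖x‖} := isClosed_le continuous_const continuous_norm
      have h2 : IsClosed {x : E3 | ‖x‖ ≤ 2 * t} := isClosed_le continuous_norm continuous_const
      exact h1.inter h2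
    · refine (Metric.isBounded_closedBall (x := (0 : E3)) (r := 2 * t)).subset ?_
      intro x hx
      rw [Metric.mem_closedBall, dist_zero_right]
      exact hx.2
  have hWc : ContinuousOn (fun y => w (y + p)) A := by
    refine hw.cont.comp (by fun_prop) fun y hy => hmemK y (hAB hy)
  have hWi : IntegrableOn (fun y => w (y + p)) A := hWc.integrableOn_compact hAK
  obtain ⟨c, hc⟩ : ∃ c : ℝ, c = ⨍ y in A, w (y + p) := ⟨_, rfl⟩
  refine ⟨c, ?_⟩
  obtain ⟨I, hI⟩ : ∃ I : ℝ, I = ∫ x in an p (t / 2) (2 * t), ∑ i, |G x i| := ⟨_, rfl⟩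
  have key : ∀ η : ℝ, 0 < η → ∫ x in an p t (2 * t), |w x - c| ≤
      C * t * I + (2 * V + 3 * (C * t)) * η := by
    intro η hη
    obtain ⟨v, hvs, hvu, hv1⟩ := hw.approx
    have hev : ∀ᶠ n in atTop, (∀ x ∈ an p (t / 2) (2 * t), dist (w x) (v n x) < η) ∧
        ∀ i, (∫ x in an p (t / 2) (2 * t), |pd i (v n) x - G x i|) < η := by
      refine ((Metric.tendstoUniformlyOn_iff.mp hvu) η hη).and ?_
      exact eventually_all.mpr fun i => (hv1 i).eventually (gt_mem_nhds hη)
    obtain ⟨n, hn1, hn2⟩ := hev.exists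
    set f : E3 → ℝ := fun y => v n (y + p) with hf
    have hfs : ContDiff ℝ ∞ f := (hvs n).comp (by fun_prop)
    have hfi : IntegrableOn f A := hfs.continuous.continuousOn.integrableOn_compact hAK
    obtain ⟨e, he⟩ : ∃ e : ℝ, e = ⨍ y in A, f y := ⟨_, rfl⟩
    have hP1 := hP t f ht fun x _ => (hfs.of_le (by simp)).contDiffAt
    rw [one_mul, ← hA, ← hB, ← he] at hP1
    -- the gradient
    have hpc : ∀ i, IntegrableOn (fun x => pd i (v n) x) (an p (t / 2) (2 * t)) := by
      intro i
      have h1 : Continuous (fun x => pd i (v n) x) :=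
        ((hvs n).continuous_fderiv (by simp)).clm_apply continuous_const
      exact h1.continuousOn.integrableOn_compact (an_compact _ _ _)
    have hGi : ∀ i, IntegrableOn (fun x => G x i) (an p (t / 2) (2 * t)) := hw.int
    have hfd : ∫ y in B, ‖fderiv ℝ f y‖ = ∫ x in an p (t / 2) (2 * t), ‖fderiv ℝ (v n) x‖ := by
      rw [integral_an]
      refine setIntegral_congr_fun (UphM.measurableSet_cAnn _ _) fun y _ => ?_
      simp only [hf]
      rw [fderiv_comp_add_right]
    have hA1 : IntegrableOn (fun x => ∑ i, |G x i|) (an p (t / 2) (2 * t)) :=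
      integrable_finsetSum _ fun i _ => (hGi i).abs
    have hA2 : ∀ i, IntegrableOn (fun x => |pd i (v n) x - G x i|) (an p (t / 2) (2 * t)) :=
      fun i => ((hpc i).sub (hGi i)).abs
    have hA3 : IntegrableOn (fun x => ∑ i, |pd i (v n) x - G x i|) (an p (t / 2) (2 * t)) :=
      integrable_finsetSum _ fun i _ => hA2 i
    have hI2 : ∫ x in an p (t / 2) (2 * t), ‖fderiv ℝ (v n) x‖ ≤ I + 3 * η := by
      have h1 : ∫ x in an p (t / 2) (2 * t), ‖fderiv ℝ (v n) x‖ ≤
          ∫ x in an p (t / 2) (2 * t),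
            ((∑ i, |G x i|) + ∑ i, |pd i (v n) x - G x i|) := by
        refine integral_mono_of_nonneg (ae_of_all _ fun x => norm_nonneg _) ?_
          (ae_of_all _ fun x => ?_)
        · exact hA1.add hA3
        · refine (norm_fderiv_le _ _).trans ?_
          show ∑ i, |pd i (v n) x| ≤ (∑ i, |G x i|) + ∑ i, |pd i (v n) x - G x i|
          rw [← Finset.sum_add_distrib]
          refine Finset.sum_le_sum fun i _ => ?_
          have h2 : pd i (v n) x = G x i + (pd i (v n) x - G x i) := by ring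
          calc |pd i (v n) x| = |G x i + (pd i (v n) x - G x i)| := by rw [← h2]
            _ ≤ |G x i| + |pd i (v n) x - G x i| := abs_add_le _ _
      refine h1.trans ?_
      rw [integral_add hA1 hA3, integral_finsetSum _ fun i _ => hA2 i, ← hI]
      have h3 : ∑ i : Fin 3, ∫ x in an p (t / 2) (2 * t), |pd i (v n) x - G x i| ≤
          ∑ _i : Fin 3, η := Finset.sum_le_sum fun i _ => (hn2 i).le
      have h4 : ∑ _i : Fin 3, η = 3 * η := by
        rw [Finset.sum_const, Finset.card_univ, Fintype.card_fin, nsmul_eq_mul]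
        push_cast
        ring
      linarith
    -- the means
    have hd : ∀ y ∈ A, |w (y + p) - f y| ≤ η := by
      intro y hy
      have h1 := hn1 _ (hmemK y (hAB hy))
      rw [Real.dist_eq] at h1
      exact h1.le
    have hce : |e - c| ≤ η := by
      rw [he, hc, setAverage_eq, setAverage_eq, ← smul_sub, ← integral_sub hfi hWi, ← hV,
        smul_eq_mul, abs_mul, abs_of_nonneg (inv_nonneg.2 hV0)]
      have h1 : |∫ y in A, (f y - w (y + p))| ≤ η * V := by
        rw [← Real.norm_eq_abs, hV]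
        refine norm_setIntegral_le_of_norm_le_const hAfin fun y hy => ?_
        rw [Real.norm_eq_abs, abs_sub_comm]
        exact hd y hy
      calc V⁻¹ * |∫ y in A, (f y - w (y + p))| ≤ V⁻¹ * (η * V) :=
            mul_le_mul_of_nonneg_left h1 (inv_nonneg.2 hV0)
        _ = (V⁻¹ * V) * η := by ring
        _ ≤ 1 * η := mul_le_mul_of_nonneg_right (inv_mul_le_one) hη.le
        _ = η := one_mul _
    have h5 : ∫ x in an p t (2 * t), |w x - c| ≤ ∫ y in A, (|f y - e| + 2 * η) := by
      rw [integral_an]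
      refine integral_mono_of_nonneg (ae_of_all _ fun x => abs_nonneg _) ?_
        ((ae_restrict_iff' hAm).mpr (ae_of_all _ fun y hy => ?_))
      · have h6 : IntegrableOn (fun y => |f y - e| + 2 * η) A := by
          have : Continuous (fun y => |f y - e| + 2 * η) :=
            ((hfs.continuous.sub continuous_const).abs).add continuous_const
          exact this.continuousOn.integrableOn_compact hAK
        exact h6
      · have h6 : w (y + p) - c = (w (y + p) - f y) + (f y - e) + (e - c) := by ring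
        have h7 := hd y hy
        show |w (y + p) - c| ≤ |f y - e| + 2 * η
        rw [h6]
        refine (abs_add_le _ _).trans ?_
        have h8 := abs_add_le (w (y + p) - f y) (f y - e)
        linarith
    have h6 : ∫ y in A, (|f y - e| + 2 * η) = (∫ y in A, |f y - e|) + 2 * V * η := by
      have h7 : IntegrableOn (fun y => |f y - e|) A := by
        have : Continuous (fun y => |f y - e|) := (hfs.continuous.sub continuous_const).abs
        exact this.continuousOn.integrableOn_compact hAK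
      rw [integral_add h7 (integrableOn_const hAfin.ne), setIntegral_const, ← hV, smul_eq_mul]
      ring
    rw [hfd] at hP1
    have h9 : C * t * ∫ x in an p (t / 2) (2 * t), ‖fderiv ℝ (v n) x‖ ≤ C * t * (I + 3 * η) :=
      mul_le_mul_of_nonneg_left hI2 (by positivity)
    linarith
  by_contra hcon
  push Not at hcon
  rw [← hI] at hcon
  obtain ⟨d, hd⟩ : ∃ d : ℝ, d = (∫ x in an p t (2 * t), |w x - c|) - C * t * I := ⟨_, rfl⟩
  have hd0 : 0 < d := by rw [hd]; linarith
  have hM : 0 < 2 * V + 3 * (C * t) := by positivity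
  have h1 := key (d / (2 * (2 * V + 3 * (C * t)))) (by positivity)
  have h2 : (2 * V + 3 * (C * t)) * (d / (2 * (2 * V + 3 * (C * t)))) = d / 2 := by
    field_simp
  rw [h2] at h1
  linarith

/-! ### The pointwise bounds -/

theorem ev_smul (c : ℝ) (B : Bil) (v w : Cov) : ev (c • B) v w = c * ev B v w := by
  unfold ev
  rw [Finset.mul_sum]
  refine Finset.sum_congr rfl fun i _ => ?_
  rw [Finset.mul_sum]
  refine Finset.sum_congr rfl fun j _ => ?_
  rw [Matrix.smul_apply, smul_eq_mul]
  ring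

theorem pt_bounds {g : TensorField} {x : E3} {C k : ℝ} (hC : 0 < C) (hk : 0 < k)
    (hg : (g x).PosDef) (h : ∀ v : Cov, (∑ i, v i ^ 2) ≤ C * k * ev (g x) v v ∧
      ev (g x) v v ≤ C / k * ∑ i, v i ^ 2) (q : Cov) :
    len g x q * volDen g x ≤ 2 * C ^ 2 / k * ∑ i, |q i| ∧
      ∑ i, |q i| ≤ 2 * C ^ 2 * k * (len g x q * volDen g x) := by
  have hsym : (g x).transpose = g x := by
    have := hg.isHermitian
    rwa [Matrix.IsHermitian, Matrix.conjTranspose_eq_transpose_of_trivial] at this
  have hdet : 0 < (g x).det := hg.det_pos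
  obtain ⟨d1, d2⟩ := UphM.det_bd (G := k • g x) (C := C) (by rw [Matrix.transpose_smul, hsym]) hC
    (fun v => by
      obtain ⟨h1, h2⟩ := h v
      rw [ev_smul]
      constructor
      · linarith
      · have h3 : k * ev (g x) v v ≤ k * (C / k * ∑ i, v i ^ 2) :=
          mul_le_mul_of_nonneg_left h2 hk.le
        have h4 : k * (C / k * ∑ i, v i ^ 2) = C * ∑ i, v i ^ 2 := by
          field_simp
        linarith)
  have hdk : (k • g x).det = k ^ 3 * (g x).det := by
    rw [Matrix.det_smul, Fintype.card_fin]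
  rw [hdk] at d1 d2
  -- the squared length
  set E := ev (g x)⁻¹ q q with hE
  have hE0 : 0 ≤ E := EWGT.ev_nonneg hg.inv q
  have hup : E ≤ 3 * (C * k) * vsq q :=
    (le_abs_self _).trans (MCT.ev_le (by positivity)
      (HSM2.inv_bound (g x) (C * k) (by positivity) (fun v => (h v).1) hdet.ne'.isUnit) q)
  have hlo : ∑ i, q i ^ 2 ≤ C / k * E :=
    EWGT.inv_ell hg (by positivity) (fun v => (h v).2) q
  set N := ∑ i, |q i| with hN
  have hN0 : 0 ≤ N := Finset.sum_nonneg fun _ _ => abs_nonneg _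
  have hN1 : vsq q ≤ N ^ 2 := by
    rw [hN]
    unfold vsq
    simp only [Fin.sum_univ_three]
    nlinarith [sq_abs (q 0), sq_abs (q 1), sq_abs (q 2), abs_nonneg (q 0), abs_nonneg (q 1),
      abs_nonneg (q 2), mul_nonneg (abs_nonneg (q 0)) (abs_nonneg (q 1)),
      mul_nonneg (abs_nonneg (q 0)) (abs_nonneg (q 2)),
      mul_nonneg (abs_nonneg (q 1)) (abs_nonneg (q 2))]
  have hN2 : N ^ 2 ≤ 3 * ∑ i, q i ^ 2 := by
    rw [hN]
    simp only [Fin.sum_univ_three]
    nlinarith [sq_abs (q 0), sq_abs (q 1), sq_abs (q 2), sq_nonneg (|q 0| - |q 1|),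
      sq_nonneg (|q 0| - |q 2|), sq_nonneg (|q 1| - |q 2|)]
  have hL0 : 0 ≤ len g x q * volDen g x :=
    mul_nonneg (Real.sqrt_nonneg _) (Real.sqrt_nonneg _)
  have hL2 : (len g x q * volDen g x) ^ 2 = E * (g x).det := by
    unfold len volDen
    rw [mul_pow, Real.sq_sqrt hE0, Real.sq_sqrt hdet.le]
  constructor
  · refine le_of_sq_le_sq ?_ (by positivity)
    rw [hL2]
    have e1 : (g x).det ≤ C ^ 3 / k ^ 3 := by
      rw [le_div_iff₀ (by positivity)]
      linarith
    calc E * (g x).det ≤ (3 * (C * k) * N ^ 2) * (C ^ 3 / k ^ 3) := by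
          refine mul_le_mul (hup.trans (mul_le_mul_of_nonneg_left hN1 (by positivity))) e1
            hdet.le (by positivity)
      _ = 3 * (C ^ 4 / k ^ 2 * N ^ 2) := by
          field_simp
      _ ≤ 4 * (C ^ 4 / k ^ 2 * N ^ 2) := by
          have : 0 ≤ C ^ 4 / k ^ 2 * N ^ 2 := by positivity
          linarith
      _ = (2 * C ^ 2 / k * N) ^ 2 := by
          field_simp
          ring
  · refine le_of_sq_le_sq ?_ (by positivity)
    have e1 : E ≤ E * (C ^ 3 * (k ^ 3 * (g x).det)) := by
      calc E = E * 1 := (mul_one _).symm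
        _ ≤ _ := mul_le_mul_of_nonneg_left d1 hE0
    calc N ^ 2 ≤ 3 * (C / k * E) := by linarith
      _ ≤ 3 * (C / k * (E * (C ^ 3 * (k ^ 3 * (g x).det)))) := by
          have : C / k * E ≤ C / k * (E * (C ^ 3 * (k ^ 3 * (g x).det))) :=
            mul_le_mul_of_nonneg_left e1 (by positivity)
          linarith
      _ = 3 * (C ^ 4 * k ^ 2 * (E * (g x).det)) := by
          field_simp
      _ ≤ 4 * (C ^ 4 * k ^ 2 * (E * (g x).det)) := by
          have : 0 ≤ C ^ 4 * k ^ 2 * (E * (g x).det) := by positivity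
          linarith
      _ = (2 * C ^ 2 * k * (len g x q * volDen g x)) ^ 2 := by
          rw [← hL2]
          ring

end CUTm

open CUTm in
theorem t_CUT (hPOI1 : Stmt_POI1) : Stmt_CUT := by
  obtain ⟨C₁, hC₁, hpoi⟩ := poi_w hPOI1
  intro g p s₁ D hs₁ hD hg hell
  obtain ⟨C, sE, hC, hsE, hE⟩ := hell
  refine ⟨192 * C ^ 4 * D * C₁ + 1, min sE (s₁ / 2), by positivity, by positivity, ?_⟩
  intro t w G ξ ht hts hw hξ hξD
  have htE : 2 * t ≤ sE := hts.trans (min_le_left _ _)
  have ht1 : 2 * t ≤ s₁ / 2 := hts.trans (min_le_right _ _)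
  set K : Set E3 := an p (t / 2) (2 * t) with hK
  have hKc : IsCompact K := an_compact _ _ _
  have hKm : MeasurableSet K := an_meas _ _ _
  have hAm : MeasurableSet (an p t (2 * t)) := an_meas _ _ _
  have hAK : an p t (2 * t) ⊆ K := fun x hx => ⟨by linarith [hx.1], hx.2⟩
  have hKU : K ⊆ {x : E3 | 0 < ‖x - p‖ ∧ ‖x - p‖ < s₁} := fun x hx =>
    ⟨by linarith [hx.1], by linarith [hx.2]⟩
  obtain ⟨c, hc⟩ := hpoi p t w G ht hw
  refine ⟨c, ?_⟩
  have hci : ∀ i j, ContinuousOn (fun x => (g x)⁻¹ i j) K := fun i j =>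
    (MCT.smooth_inv hg i j).continuousOn.mono hKU
  have hcv : ContinuousOn (volDen g) K := by
    unfold volDen
    exact ((MCT.smooth_det hg.smooth).continuousOn.mono hKU).sqrt
  have hL0 : ∀ x (q : Cov), 0 ≤ len g x q * volDen g x := fun x q =>
    mul_nonneg (Real.sqrt_nonneg _) (Real.sqrt_nonneg _)
  -- the bounds on the annulus
  have hpt : ∀ x ∈ K, ∀ q : Cov, len g x q * volDen g x ≤
      2 * C ^ 2 / ‖x - p‖ ^ 4 * ∑ i, |q i| ∧
      ∑ i, |q i| ≤ 2 * C ^ 2 * ‖x - p‖ ^ 4 * (len g x q * volDen g x) := by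
    intro x hx q
    have h0 : 0 < ‖x - p‖ := (hKU hx).1
    exact pt_bounds hC (by positivity) (hg.posDef x (hKU hx))
      (fun v => hE x h0 (hx.2.trans htE) v) q
  have hGi : ∀ i, IntegrableOn (fun x => G x i) K := hw.int
  have hNi : IntegrableOn (fun x => ∑ i, |G x i|) K :=
    integrable_finsetSum _ fun i _ => (hGi i).abs
  -- the integrand of the right-hand side is integrable
  have hI : IntegrableOn (fun x => len g x (G x) * volDen g x) K := by
    refine Integrable.mono' (g := fun x => 2 * C ^ 2 / (t / 2) ^ 4 * ∑ i, |G x i|)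
      (hNi.const_mul _) (PERGm.len_aesm hKc hci hcv fun i => (hGi i).aestronglyMeasurable) ?_
    refine (ae_restrict_iff' hKm).mpr (ae_of_all _ fun x hx => ?_)
    rw [Real.norm_of_nonneg (hL0 _ _)]
    refine (hpt x hx (G x)).1.trans ?_
    refine mul_le_mul_of_nonneg_right ?_ (Finset.sum_nonneg fun _ _ => abs_nonneg _)
    refine div_le_div_of_nonneg_left (by positivity) (by positivity) ?_
    exact pow_le_pow_left₀ (by positivity) hx.1 4
  have hIn : 0 ≤ ∫ x in K, len g x (G x) * volDen g x := integral_nonneg fun x => hL0 _ _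
  have hR : ∫ x in K, ∑ i, |G x i| ≤ 32 * C ^ 2 * t ^ 4 * ∫ x in K, len g x (G x) * volDen g x := by
    rw [← integral_const_mul]
    refine setIntegral_mono_on hNi (hI.const_mul _) hKm fun x hx => ?_
    refine (hpt x hx (G x)).2.trans ?_
    refine mul_le_mul_of_nonneg_right ?_ (hL0 _ _)
    have h1 : ‖x - p‖ ^ 4 ≤ (2 * t) ^ 4 := pow_le_pow_left₀ (norm_nonneg _) hx.2 4
    calc 2 * C ^ 2 * ‖x - p‖ ^ 4 ≤ 2 * C ^ 2 * (2 * t) ^ 4 :=
          mul_le_mul_of_nonneg_left h1 (by positivity)
      _ = 32 * C ^ 2 * t ^ 4 := by ring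
  have hLft : ∫ x in an p t (2 * t), |w x - c| * (len g x (grad ξ x) * volDen g x) ≤
      6 * C ^ 2 * D / t ^ 5 * ∫ x in an p t (2 * t), |w x - c| := by
    rw [← integral_const_mul]
    refine integral_mono_of_nonneg
      (ae_of_all _ fun x => mul_nonneg (abs_nonneg _) (hL0 _ _)) ?_
      ((ae_restrict_iff' hAm).mpr (ae_of_all _ fun x hx => ?_))
    · refine Integrable.const_mul ?_ _
      have h1 : ContinuousOn (fun x => |w x - c|) (an p t (2 * t)) :=
        ((hw.cont.mono hAK).sub continuousOn_const).abs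
      exact h1.integrableOn_compact (an_compact _ _ _)
    · show |w x - c| * (len g x (grad ξ x) * volDen g x) ≤ 6 * C ^ 2 * D / t ^ 5 * |w x - c|
      rw [mul_comm]
      refine mul_le_mul_of_nonneg_right ?_ (abs_nonneg _)
      refine (hpt x (hAK hx) (grad ξ x)).1.trans ?_
      have h1 : ∑ i, |grad ξ x i| ≤ 3 * (D / t) := by
        have h2 : ∑ i, |grad ξ x i| ≤ ∑ _i : Fin 3, D / t :=
          Finset.sum_le_sum fun i _ => hξD x i
        have h3 : ∑ _i : Fin 3, D / t = 3 * (D / t) := by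
          rw [Finset.sum_const, Finset.card_univ, Fintype.card_fin, nsmul_eq_mul]
          push_cast
          ring
        linarith
      have h4 : 2 * C ^ 2 / ‖x - p‖ ^ 4 ≤ 2 * C ^ 2 / t ^ 4 := by
        refine div_le_div_of_nonneg_left (by positivity) (by positivity) ?_
        exact pow_le_pow_left₀ ht.le hx.1 4
      calc 2 * C ^ 2 / ‖x - p‖ ^ 4 * ∑ i, |grad ξ x i| ≤ 2 * C ^ 2 / t ^ 4 * (3 * (D / t)) :=
            mul_le_mul h4 h1 (Finset.sum_nonneg fun _ _ => abs_nonneg _) (by positivity)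
        _ = 6 * C ^ 2 * D / t ^ 5 := by
            field_simp
            ring
  obtain ⟨J, hJ⟩ : ∃ J : ℝ, J = ∫ x in K, len g x (G x) * volDen g x := ⟨_, rfl⟩
  rw [← hJ] at hR hIn
  show ∫ x in an p t (2 * t), |w x - c| * (len g x (grad ξ x) * volDen g x) ≤
    (192 * C ^ 4 * D * C₁ + 1) * ∫ x in K, len g x (G x) * volDen g x
  rw [← hJ]
  have h1 : ∫ x in an p t (2 * t), |w x - c| ≤ C₁ * t * (32 * C ^ 2 * t ^ 4 * J) :=
    hc.trans (mul_le_mul_of_nonneg_left hR (by positivity))
  calc ∫ x in an p t (2 * t), |w x - c| * (len g x (grad ξ x) * volDen g x)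
      ≤ 6 * C ^ 2 * D / t ^ 5 * (C₁ * t * (32 * C ^ 2 * t ^ 4 * J)) :=
        hLft.trans (mul_le_mul_of_nonneg_left h1 (by positivity))
    _ = 192 * C ^ 4 * D * C₁ * J := by
        field_simp
        ring
    _ ≤ (192 * C ^ 4 * D * C₁ + 1) * J := by linarith

end Pool.Agent.PFT
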