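import Pool.Agent.PFT.StmtsCAP

open MeasureTheory Filter Topology
open scoped ContDiff ENNReal

namespace Pool.Agent.PFT

open Pool.Agent.PenroseSph Pool.Agent.PFlow

namespace CVOAux

lemma kin_nonneg (N : ℝ) (x : E3) : 0 ≤ kin N x := by
  unfold kin kap
  linarith [Real.smoothTransition.le_one (2 - 32 * N * ‖x‖)]

lemma kin_le_one (N : ℝ) (x : E3) : kin N x ≤ 1 := by
  unfold kin kap
  linarith [Real.smoothTransition.nonneg (2 - 32 * N * ‖x‖)]

lemma kin_zero {N : ℝ} {x : E3} (hx : 32 * N * ‖x‖ ≤ 1) : kin N x = 0 := by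
  unfold kin kap
  rw [Real.smoothTransition.one_of_one_le (by linarith), sub_self]

lemma det3_le (A : Bil) {K : ℝ} (hA : ∀ i j, |A i j| ≤ K) : A.det ≤ 6 * K ^ 3 := by
  have hK : 0 ≤ K := (abs_nonneg _).trans (hA 0 0)
  have h3 : ∀ a b c : ℝ, |a| ≤ K → |b| ≤ K → |c| ≤ K → |a * b * c| ≤ K ^ 3 := by
    intro a b c ha hb hc
    rw [abs_mul, abs_mul]
    calc |a| * |b| * |c| ≤ K * K * K := by gcongr
      _ = K ^ 3 := by ring
  rw [Matrix.det_fin_three]
  have e1 := abs_le.1 (h3 _ _ _ (hA 0 0) (hA 1 1) (hA 2 2))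
  have e2 := abs_le.1 (h3 _ _ _ (hA 0 0) (hA 1 2) (hA 2 1))
  have e3 := abs_le.1 (h3 _ _ _ (hA 0 1) (hA 1 0) (hA 2 2))
  have e4 := abs_le.1 (h3 _ _ _ (hA 0 1) (hA 1 2) (hA 2 0))
  have e5 := abs_le.1 (h3 _ _ _ (hA 0 2) (hA 1 0) (hA 2 1))
  have e6 := abs_le.1 (h3 _ _ _ (hA 0 2) (hA 1 1) (hA 2 0))
  linarith [e1.1, e1.2, e2.1, e2.2, e3.1, e3.2, e4.1, e4.2, e5.1, e5.2, e6.1, e6.2]

lemma entry_le {B : Bil} (hB : B.PosDef) {D : ℝ}
    (hD : ∀ v : Cov, ev B v v ≤ D * ∑ i, v i ^ 2) (i j : Fin 3) : |B i j| ≤ D := by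
  have hsym : ∀ a b, B a b = B b a := by
    intro a b
    have h := hB.isHermitian.apply b a
    simpa using h
  have hev : ∀ v w : Cov, ev B v w = ∑ a, ∑ b, B a b * v a * w b := fun _ _ => rfl
  have hpos : ∀ v : Cov, 0 ≤ ev B v v := by
    intro v
    have h := hB.posSemidef.dotProduct_mulVec_nonneg v
    have e : ev B v v = star v ⬝ᵥ B.mulVec v := by
      rw [hev]
      simp only [dotProduct, Matrix.mulVec, Pi.star_apply, star_trivial, Finset.mul_sum]
      refine Finset.sum_congr rfl fun a _ => Finset.sum_congr rfl fun b _ => ?_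
      ring
    rw [e]; exact h
  have hdiag : ∀ a, 0 ≤ B a a ∧ B a a ≤ D := by
    intro a
    have e : ev B (Pi.single a 1) (Pi.single a 1) = B a a := by
      rw [hev]
      simp [Pi.single_apply]
    have h1 := hpos (Pi.single a 1)
    have h2 := hD (Pi.single a 1)
    rw [e] at h1 h2
    refine ⟨h1, ?_⟩
    have e2 : ∑ c, (Pi.single a (1 : ℝ) : Cov) c ^ 2 = 1 := by
      simp [Pi.single_apply]
    rw [e2] at h2
    linarith
  by_cases hij : i = j
  · subst hij
    rw [abs_of_nonneg (hdiag i).1]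
    exact (hdiag i).2
  · have key : ∀ t : ℝ, ev B (Pi.single i 1 + t • Pi.single j 1) (Pi.single i 1 + t • Pi.single j 1)
        = B i i + 2 * t * B i j + t ^ 2 * B j j := by
      intro t
      rw [hev]
      have hji := hsym j i
      fin_cases i <;> fin_cases j <;> simp [Fin.sum_univ_three] at hij hji ⊢ <;>
        (rw [hji]; ring)
    have h1 := hpos (Pi.single i 1 + (1 : ℝ) • Pi.single j 1)
    have h2 := hpos (Pi.single i 1 + (-1 : ℝ) • Pi.single j 1)
    rw [key] at h1 h2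
    have := hdiag i
    have := hdiag j
    rw [abs_le]
    constructor <;> linarith [(hdiag i).1, (hdiag i).2, (hdiag j).1, (hdiag j).2]

end CVOAux

open CVOAux in
theorem CVO : Stmt_CVO := by
  intro C hC
  set K : ℝ := C * 32 ^ 4 + 1 with hK
  have hK1 : 1 ≤ K := by rw [hK]; nlinarith
  set V : ℝ := volume.real (Metric.ball (0 : E3) 1) with hV
  have hV0 : 0 ≤ V := measureReal_nonneg
  refine ⟨6 * K ^ 3 * V + 1, by positivity, ?_⟩
  intro N p g k hN hg
  have hN0 : 0 < N := by linarith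
  have hden : ∀ x ∈ Metric.closedBall p (1 / (4 * N)),
      ‖volDen (cap1 N p g) x‖ ≤ 6 * K ^ 3 * N ^ 6 := by
    intro x hx
    have hxs : ‖x - p‖ ≤ 1 / (4 * N) := by simpa [dist_eq_norm] using hx
    have hent : ∀ i j, |cap1 N p g x i j| ≤ K * N ^ 4 := by
      intro i j
      have h1 : |(1 : Bil) i j| ≤ 1 := by
        rw [Matrix.one_apply]
        split_ifs <;> simp
      have e : cap1 N p g x i j = kin N (x - p) * g x i j
          + ((1 - kin N (x - p)) * N ^ 4) * (1 : Bil) i j := by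
        simp [cap1, Matrix.add_apply, Matrix.smul_apply]
      have k0 := kin_nonneg N (x - p)
      have k1 := kin_le_one N (x - p)
      have hN4 : 0 ≤ N ^ 4 := by positivity
      have hsec : |((1 - kin N (x - p)) * N ^ 4) * (1 : Bil) i j| ≤ N ^ 4 := by
        rw [abs_mul, abs_of_nonneg (mul_nonneg (by linarith) hN4)]
        calc (1 - kin N (x - p)) * N ^ 4 * |(1 : Bil) i j| ≤ 1 * N ^ 4 * 1 := by
              gcongr
              linarith
          _ = N ^ 4 := by ring
      have hfst : |kin N (x - p) * g x i j| ≤ C * 32 ^ 4 * N ^ 4 := by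
        by_cases hs : 32 * N * ‖x - p‖ ≤ 1
        · rw [kin_zero hs, zero_mul, abs_zero]
          positivity
        · push Not at hs
          have hs0 : 0 < ‖x - p‖ := by
            by_contra h
            have h0 : ‖x - p‖ = 0 := le_antisymm (not_lt.1 h) (norm_nonneg _)
            rw [h0] at hs
            linarith
          obtain ⟨hpd, hne⟩ := hg x hs0 hxs
          have hent := entry_le hpd hne.up i j
          rw [abs_mul, abs_of_nonneg k0]
          have h4 : C / ‖x - p‖ ^ 4 ≤ C * 32 ^ 4 * N ^ 4 := by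
            rw [div_le_iff₀ (by positivity)]
            have h5 : 1 ≤ (32 * N * ‖x - p‖) ^ 4 := one_le_pow₀ hs.le
            have h6 : C * 32 ^ 4 * N ^ 4 * ‖x - p‖ ^ 4 = C * (32 * N * ‖x - p‖) ^ 4 := by ring
            rw [h6]
            nlinarith
          calc kin N (x - p) * |g x i j| ≤ 1 * (C / ‖x - p‖ ^ 4) := by
                gcongr
            _ ≤ C * 32 ^ 4 * N ^ 4 := by linarith
      rw [e]
      calc |kin N (x - p) * g x i j + ((1 - kin N (x - p)) * N ^ 4) * (1 : Bil) i j|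
          ≤ |kin N (x - p) * g x i j| + |((1 - kin N (x - p)) * N ^ 4) * (1 : Bil) i j| :=
            abs_add_le _ _
        _ ≤ C * 32 ^ 4 * N ^ 4 + N ^ 4 := add_le_add hfst hsec
        _ = K * N ^ 4 := by rw [hK]; ring
    have hdet := det3_le (cap1 N p g x) hent
    unfold volDen
    rw [Real.norm_of_nonneg (Real.sqrt_nonneg _)]
    rw [Real.sqrt_le_left (by positivity)]
    refine hdet.trans ?_
    have hK3 : 1 ≤ K ^ 3 := one_le_pow₀ hK1
    have hN12 : 0 ≤ N ^ 12 := by positivity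
    calc 6 * (K * N ^ 4) ^ 3 = 6 * K ^ 3 * N ^ 12 := by ring
      _ ≤ (6 * K ^ 3) * (6 * K ^ 3) * N ^ 12 := by
          have : 6 * K ^ 3 ≤ (6 * K ^ 3) * (6 * K ^ 3) := by nlinarith
          gcongr
      _ = (6 * K ^ 3 * N ^ 6) ^ 2 := by ring
  have hvol : volume.real (Metric.closedBall p (1 / (4 * N))) = (1 / (4 * N)) ^ 3 * V := by
    rw [Measure.real, Measure.addHaar_closedBall _ _ (by positivity), ENNReal.toReal_mul,
      ENNReal.toReal_ofReal (by positivity)]
    simp [hV, Measure.real]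
  have hfin : volume (Metric.closedBall p (1 / (4 * N))) < ⊤ := measure_closedBall_lt_top
  have hmain := norm_setIntegral_le_of_norm_le_const hfin hden
  rw [Real.norm_eq_abs] at hmain
  refine ((le_abs_self _).trans hmain).trans ?_
  have hN3 : 0 ≤ N ^ 3 := by positivity
  have e2 : 6 * K ^ 3 * N ^ 6 * ((1 / (4 * N)) ^ 3 * V) = 6 * K ^ 3 * V / 64 * N ^ 3 := by
    field_simp
    ring
  rw [hvol, e2]
  have : 0 ≤ 6 * K ^ 3 * V := by positivity
  nlinarith

end Pool.Agent.PFT
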