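import Pool.Agent.PFT.StmtsF

open MeasureTheory Filter Topology
open scoped ContDiff ENNReal

namespace Pool.Agent.PFT

open Pool.Agent.PenroseSph Pool.Agent.PFlow

/-- The ellipticity at the ends. -/
theorem t_ELL (hNEP : Stmt_NEP) : Stmt_ELL := by
  intro P g k hS p hp
  obtain ⟨C, N₀, hC, hsep, h⟩ := hNEP P g k hS
  have hN₀ : 0 < N₀ := lt_of_lt_of_le one_pos hsep.1
  refine ⟨C, 1 / (4 * N₀), hC, by positivity, ?_⟩
  intro x hx0 hx v
  obtain ⟨_, hne⟩ := h p hp x hx0 hx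
  exact ⟨hne.low v, hne.up v⟩

end Pool.Agent.PFT
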