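import Pool.Agent.PFT.StmtsF

/-!
# The flow from every end, by translation
-/

open MeasureTheory Filter Topology
open scoped ContDiff ENNReal

namespace Pool.Agent.PFT

open Pool.Agent.PenroseSph Pool.Agent.PFlow

namespace EPSP

/-- the translation as a measurable equivalence -/
lemma preimage_tr (K : Set E3) (p : E3) :
    (fun x : E3 => x - p) ⁻¹' ((fun x : E3 => x - p) '' K) = K := by
  apply Set.preimage_image_eq
  intro a b h
  simpa using h

lemma mp (p : E3) : MeasurePreserving (fun x : E3 => x - p) volume volume := by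
  have := measurePreserving_add_right (volume : Measure E3) (-p)
  simpa [sub_eq_add_neg] using this

lemma emb (p : E3) : MeasurableEmbedding (fun x : E3 => x - p) :=
  (MeasurableEquiv.subRight p).measurableEmbedding

lemma int_tr (K : Set E3) (p : E3) (f : E3 → ℝ) :
    ∫ x in K, f (x - p) = ∫ y in (fun x : E3 => x - p) '' K, f y := by
  have h := (mp p).setIntegral_preimage_emb (emb p) f ((fun x : E3 => x - p) '' K)
  rw [preimage_tr] at h
  exact h

lemma intOn_tr (K : Set E3) (p : E3) (f : E3 → ℝ)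
    (h : IntegrableOn f ((fun x : E3 => x - p) '' K)) :
    IntegrableOn (fun x => f (x - p)) K := by
  have h1 := ((mp p).integrableOn_comp_preimage (emb p) (f := f)
    (s := (fun x : E3 => x - p) '' K)).2 h
  rw [preimage_tr] at h1
  exact h1

lemma pd_tr (i : Fin 3) (f : E3 → ℝ) (p x : E3) :
    pd i (fun y => f (y - p)) x = pd i f (x - p) := by
  unfold pd
  rw [fderiv_comp_sub]

lemma approx_tr (K : Set E3) (p : E3) (w : E3 → ℝ) (G : E3 → Cov)
    (h : L1Approx ((fun x : E3 => x - p) '' K) w G) :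
    L1Approx K (fun x => w (x - p)) (fun x => G (x - p)) := by
  obtain ⟨v, hv, hu, hl⟩ := h.approx
  refine ⟨?_, fun i => intOn_tr K p (fun x => G x i) (h.int i), fun n x => v n (x - p), ?_, ?_, ?_⟩
  · exact h.cont.comp (by fun_prop) (fun x hx => ⟨x, hx, rfl⟩)
  · intro n
    exact (hv n).comp (by fun_prop)
  · intro s hs
    filter_upwards [hu s hs] with n hn x hx
    exact hn (x - p) ⟨x, hx, rfl⟩
  · intro i
    have h1 := hl i
    refine h1.congr (fun n => ?_)
    rw [← int_tr K p (fun x => |pd i (v n) x - G x i|)]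
    simp only [pd_tr]

end EPSP

open EPSP

theorem t_EPSP (hEPST : Stmt_EPST) (hTRN : Stmt_TRN) (hTRM : Stmt_TRM) : Stmt_EPSP := by
  intro P g k m p hp hSE hsur hpl hfar hm
  obtain ⟨hSE', hsur', hpl'⟩ := hTRN P g k p hSE
  obtain ⟨hm', hfar'⟩ := hTRM P g k p hSE
  have h0 : (0 : E3) ∈ trans P p := by
    unfold trans
    rw [Finset.mem_map]
    exact ⟨p, hp, by simp⟩
  have hmem : ∀ q ∈ P, q - p ∈ trans P p := by
    intro q hq
    unfold trans
    rw [Finset.mem_map]
    exact ⟨q, hq, by simp⟩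
  have hmem' : ∀ q' ∈ trans P p, ∃ q ∈ P, q' = q - p := by
    intro q' hq'
    unfold trans at hq'
    rw [Finset.mem_map] at hq'
    obtain ⟨q, hq, he⟩ := hq'
    exact ⟨q, hq, by rw [← he]; simp⟩
  obtain ⟨ρ, r₀, hρ, hr₀, h2, h3, hfl⟩ := hEPST (trans P p) (shift p g) (shift p k) m h0 hSE'
    (hsur' hsur) (hpl' hpl) (hfar' hfar) (hm' m hm)
  refine ⟨ρ, r₀, hρ, hr₀, ?_, ?_, ?_⟩
  · intro q hq hqp
    exact h2 (q - p) (hmem q hq) (sub_ne_zero.2 hqp)
  · intro q hq
    exact h3 (q - p) (hmem q hq)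
  · intro r ε τ δ hr hε hε2 hτ hδ
    obtain ⟨lm, J, w, G, hlm, hJ, hmass, hJlm, hF⟩ := hfl r ε τ δ hr hε hε2 hτ hδ
    refine ⟨lm, J, fun x => w (x - p), fun x => G (x - p), hlm, hJ, hmass, hJlm, ?_⟩
    have hcomp : ∀ K : Set E3, IsCompact K → IsCompact ((fun x : E3 => x - p) '' K) := by
      intro K hK
      exact hK.image (by fun_prop)
    have hcond : ∀ K : Set E3,
        (∀ x ∈ K, ρ / 2 ≤ ‖x - p‖ ∧ ‖x - p‖ ≤ 2 * r ∧ ∀ q ∈ P, q ≠ p → δ ≤ ‖x - q‖) →
        ∀ y ∈ (fun x : E3 => x - p) '' K, ρ / 2 ≤ ‖y‖ ∧ ‖y‖ ≤ 2 * r ∧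
          ∀ q ∈ trans P p, q ≠ 0 → δ ≤ ‖y - q‖ := by
      rintro K hK y ⟨x, hx, rfl⟩
      obtain ⟨h4, h5, h6⟩ := hK x hx
      refine ⟨h4, h5, ?_⟩
      intro q' hq' hq0
      obtain ⟨q, hq, rfl⟩ := hmem' q' hq'
      have h7 := h6 q hq (sub_ne_zero.1 hq0)
      have h8 : x - p - (q - p) = x - q := by abel
      simpa [h8] using h7
    constructor
    · intro K hK hx
      exact approx_tr K p w G (hF.approx _ (hcomp K hK) (hcond K hx))
    · intro x h4 h5
      exact hF.inner (x - p) h4 h5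
    · intro x h4 h5
      exact hF.outer (x - p) h4 h5
    · intro K hK hx s₀ s₁ hs0 hs01 hs1
      have hb := hF.bound _ (hcomp K hK) (hcond K hx) s₀ s₁ hs0 hs01 hs1
      have e1 : (∫ x in K, volDen g x) = ∫ y in (fun x : E3 => x - p) '' K, volDen (shift p g) y := by
        rw [← int_tr K p (fun y => volDen (shift p g) y)]
        simp [volDen, shift]
      have e2 : (∫ x in K ∩ {x | s₀ ≤ w (x - p) ∧ w (x - p) ≤ s₁}, len g x (G (x - p)) * volDen g x)
          = ∫ y in (fun x : E3 => x - p) '' K ∩ {y | s₀ ≤ w y ∧ w y ≤ s₁},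
            len (shift p g) y (G y) * volDen (shift p g) y := by
        have hset : (fun x : E3 => x - p) '' (K ∩ {x | s₀ ≤ w (x - p) ∧ w (x - p) ≤ s₁})
            = (fun x : E3 => x - p) '' K ∩ {y | s₀ ≤ w y ∧ w y ≤ s₁} := by
          ext y
          constructor
          · rintro ⟨x, ⟨hx1, hx2⟩, rfl⟩
            exact ⟨⟨x, hx1, rfl⟩, hx2⟩
          · rintro ⟨⟨x, hx1, rfl⟩, hx2⟩
            exact ⟨x, ⟨hx1, hx2⟩, rfl⟩
        rw [← hset, ← int_tr _ p (fun y => len (shift p g) y (G y) * volDen (shift p g) y)]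
        simp [len, volDen, shift]
      rw [e1, e2]
      exact hb

end Pool.Agent.PFT
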