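import Pool.Agent.PFT.StmtsE

/-!
# EPST: the flow from the end at the origin   (helper91, follows `PFlow/E/EPS.lean`)
-/

open MeasureTheory Filter Topology
open scoped ContDiff ENNReal

namespace Pool.Agent.PFT

open Pool.Agent.PenroseSph Pool.Agent.PFlow

namespace EPSTm

lemma exists_theta (a c τ : ℝ) (hτ : 0 < τ) : ∃ θ : ℝ, 0 < θ ∧ θ < 1 ∧
    θ ^ (-a) * c ≤ c + τ := by
  have h1 : ContinuousAt (fun θ : ℝ => θ ^ (-a) * c) 1 :=
    (Real.continuousAt_rpow_const 1 (-a) (Or.inl one_ne_zero)).mul continuousAt_const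
  have h2 : ∀ᶠ θ in 𝓝 (1 : ℝ), θ ^ (-a) * c < c + τ := by
    refine h1.eventually (gt_mem_nhds ?_)
    simp only [Real.one_rpow, one_mul]
    linarith
  have h3 : ∀ᶠ θ in 𝓝[<] (1 : ℝ), θ ^ (-a) * c < c + τ := h2.filter_mono nhdsWithin_le_nhds
  have h4 : ∀ᶠ θ in 𝓝[<] (1 : ℝ), 0 < θ :=
    (lt_mem_nhds (zero_lt_one (α := ℝ))).filter_mono nhdsWithin_le_nhds
  obtain ⟨θ, ⟨h5, h6⟩, h7⟩ := ((h3.and h4).and self_mem_nhdsWithin).exists
  exact ⟨θ, h6, h7, h5.le⟩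

/-- Far away from the points of `P` the two metrics agree. -/
lemma far {P : Finset E3} {g g₁ k k₁ : TensorField} {δ r₀ : ℝ} (hPr : ∀ p ∈ P, ‖p‖ < r₀)
    (hsame : ∀ x : E3, (∀ p ∈ P, p ≠ 0 → δ / 2 < ‖x - p‖) → g₁ x = g x ∧ k₁ x = k x)
    {x : E3} (hx : r₀ + δ / 2 < ‖x‖) : g₁ x = g x ∧ k₁ x = k x := by
  refine hsame x fun p hp _ => ?_
  have h1 := hPr p hp
  have h2 : ‖x‖ - ‖p‖ ≤ ‖x - p‖ := norm_sub_norm_le x p
  linarith

lemma pd_congr {f f' : E3 → ℝ} {x : E3} (h : f =ᶠ[𝓝 x] f') (i : Fin 3) :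
    pd i f x = pd i f' x := by
  unfold pd
  rw [h.fderiv_eq]

/-- The mass integrals agree. -/
lemma mass_congr {P : Finset E3} {g g₁ k k₁ : TensorField} {δ r₀ l : ℝ}
    (hPr : ∀ p ∈ P, ‖p‖ < r₀)
    (hsame : ∀ x : E3, (∀ p ∈ P, p ≠ 0 → δ / 2 < ‖x - p‖) → g₁ x = g x ∧ k₁ x = k x)
    (hl0 : 0 < l) (hl : r₀ + δ / 2 < l) : massIntegral g₁ l = massIntegral g l := by
  unfold massIntegral
  congr 1
  refine integral_congr_ae (ae_of_all _ fun z => ?_)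
  have hz : ‖(z : E3)‖ = 1 := by
    have := z.2
    rwa [mem_sphere_zero_iff_norm] at this
  have hn : ‖l • (z : E3)‖ = l := by
    rw [norm_smul, hz, mul_one, Real.norm_of_nonneg hl0.le]
  have hev : ∀ᶠ y : E3 in 𝓝 (l • (z : E3)), g₁ y = g y := by
    have h1 : ∀ᶠ y : E3 in 𝓝 (l • (z : E3)), r₀ + δ / 2 < ‖y‖ := by
      refine (continuous_norm.tendsto _).eventually (lt_mem_nhds ?_)
      rw [hn]
      exact hl
    filter_upwards [h1] with y hy
    exact (far hPr hsame hy).1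
  have hpd : ∀ i a b : Fin 3, pd i (fun y => g₁ y a b) (l • (z : E3)) =
      pd i (fun y => g y a b) (l • (z : E3)) := by
    intro i a b
    refine pd_congr ?_ i
    filter_upwards [hev] with y hy
    rw [hy]
  simp only [hpd]

/-- The means of `|k|` agree. -/
lemma th_congr {P : Finset E3} {g g₁ k k₁ : TensorField} {δ r₀ l : ℝ}
    (hPr : ∀ p ∈ P, ‖p‖ < r₀)
    (hsame : ∀ x : E3, (∀ p ∈ P, p ≠ 0 → δ / 2 < ‖x - p‖) → g₁ x = g x ∧ k₁ x = k x)
    (hl : r₀ + δ / 2 < l / 2) :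
    ∫ x in cAnn (l / 2) l, msz (k₁ x) / l = ∫ x in cAnn (l / 2) l, msz (k x) / l := by
  have hm : MeasurableSet (cAnn (l / 2) l) :=
    (measurableSet_le measurable_const measurable_norm).inter
      (measurableSet_le measurable_norm measurable_const)
  refine setIntegral_congr_fun hm fun x hx => ?_
  have h1 : r₀ + δ / 2 < ‖x‖ := lt_of_lt_of_le hl hx.1
  simp only [(far hPr hsame h1).2]

end EPSTm

open EPSTm in
theorem t_EPST (hEXT : Stmt_EXT) (hMSIT : Stmt_MSIT) (hHOLK : Stmt_HOLK) (hH2L : Stmt_H2L)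
    (hWGTE : Stmt_WGTE) (hMSII : Stmt_MSII) (hBETA : Stmt_BETA) (hSETW : Stmt_SETW) :
    Stmt_EPST := by
  intro P g k m h0 hSE hsur hpl hth hm
  obtain ⟨ρ, r₀, hρ, hr₀, hPρ, hPr, hex⟩ := hEXT P g k h0 hSE hsur hpl
  refine ⟨ρ, r₀, hρ, hr₀, hPρ, hPr, ?_⟩
  intro r ε τ δ hr hε hε2 hτ hδ
  obtain ⟨μ, hμ⟩ : ∃ μ, μ = min τ 1 := ⟨_, rfl⟩
  have hμ0 : 0 < μ := by rw [hμ]; exact lt_min hτ one_pos
  have hμ1 : μ ≤ 1 := by rw [hμ]; exact min_le_right _ _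
  have hμτ : μ ≤ τ := by rw [hμ]; exact min_le_left _ _
  obtain ⟨Q, B, l₀, g₁, k₁, hQε, hB, hl₀4, hsame, hex⟩ :=
    hex ε (μ / 2) δ hε hε2 (by positivity) hδ
  obtain ⟨B3, hB3, hW⟩ := hWGTE Q B
  obtain ⟨B1, hB1, hI⟩ := hMSIT Q B B3
  obtain ⟨β, hβ⟩ := hBETA
  obtain ⟨θ, hθ0, hθ1, hθ⟩ := exists_theta (2 * (2 - ε)) (4 * Real.pi * (2 - ε) ^ 2) (τ / 2)
    (by linarith)
  obtain ⟨B2, hB2, hII⟩ := hMSII Q B B3 θ β hθ0 hθ1 hβ
  -- the length of the window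
  obtain ⟨L, hL1, hL⟩ : ∃ L : ℝ, 1 ≤ L ∧ B2 * Real.exp (-(L / ε)) ≤ τ / 4 := by
    have h1 : Tendsto (fun L : ℝ => B2 * Real.exp (-(L / ε))) atTop (𝓝 (B2 * 0)) := by
      refine Tendsto.const_mul B2 (Real.tendsto_exp_neg_atTop_nhds_zero.comp ?_)
      exact tendsto_id.atTop_div_const hε
    rw [mul_zero] at h1
    obtain ⟨L, h2, h3⟩ := ((h1.eventually (gt_mem_nhds (by linarith : (0 : ℝ) < τ / 4))).and
      (eventually_ge_atTop (1 : ℝ))).exists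
    exact ⟨L, h3, h2.le⟩
  -- the radius
  obtain ⟨l, hl0, hlbig, hl1, hl2⟩ : ∃ l : ℝ, l₀ ≤ l ∧
      2 * r + 2 * (r₀ + δ / 2) + ρ + 1 ≤ l ∧ B2 * (1 / l) ≤ τ / 4 ∧
      B1 * (l ^ (-(1 / 2 : ℝ)) + ∫ x in cAnn (l / 2) l, msz (k x) / l)
        + 8 * Real.pi * B3 * |massIntegral g l - m| ≤ μ / 8 := by
    have t1 : Tendsto (fun l : ℝ => B2 * (1 / l)) atTop (𝓝 (B2 * 0)) := by
      refine Tendsto.const_mul B2 (tendsto_inv_atTop_zero.congr fun x => ?_)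
      rw [one_div]
    have t2 : Tendsto (fun l : ℝ => l ^ (-(1 / 2 : ℝ))) atTop (𝓝 0) :=
      tendsto_rpow_neg_atTop (by norm_num)
    have t3 : Tendsto (fun l : ℝ => |massIntegral g l - m|) atTop (𝓝 |m - m|) :=
      (hm.sub_const m).abs
    have t4 := ((t2.add hth).const_mul B1).add (t3.const_mul (8 * Real.pi * B3))
    rw [mul_zero] at t1
    simp only [sub_self, abs_zero, mul_zero, add_zero] at t4
    obtain ⟨l, ⟨e1, e2⟩, e3, e4⟩ :=
      (((t1.eventually (gt_mem_nhds (by linarith : (0 : ℝ) < τ / 4))).and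
      (t4.eventually (gt_mem_nhds (by linarith : (0 : ℝ) < μ / 8)))).and
      ((eventually_ge_atTop l₀).and
        (eventually_ge_atTop (2 * r + 2 * (r₀ + δ / 2) + ρ + 1)))).exists
    exact ⟨l, e3, e4, e1.le, e2.le⟩
  have hl4 : 4 ≤ l := hl₀4.trans hl0
  have hr1 : 1 ≤ r := hr₀.trans hr
  -- the small parameter
  obtain ⟨τ', hτ', hτ'1, hτ'2⟩ : ∃ τ' : ℝ, 0 < τ' ∧ τ' ≤ μ / 8 ∧ B1 * τ' ≤ μ / 8 := by
    refine ⟨min (μ / 8) (μ / (8 * B1)), lt_min (by positivity) (by positivity),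
      min_le_left _ _, ?_⟩
    have e1 : B1 * (μ / (8 * B1)) = μ / 8 := by field_simp
    rw [← e1]
    exact mul_le_mul_of_nonneg_left (min_le_right _ _) hB1.le
  obtain ⟨D, se, hDg, hDh, hDl, hS, hA, hcut, hNd, her, hsM, hRρ, hlev⟩ :=
    hex l τ' L hl0 hτ' hL1
  obtain ⟨lm, hlm⟩ := hW D hS hA se hcut
  have i1 := hI D hS hA se lm hcut hlm
  have i2 := hII D hS hA se lm L hcut hlm hL1 hsM
  have i3 := hHOLK Q B β hβ D hS hA
  obtain ⟨J, hJ⟩ : ∃ J, J = jInf Q.eps β D.Om D.vol (D.w Q) (D.X Q) (D.s2 Q) := ⟨_, rfl⟩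
  rw [← hJ] at i2 i3
  rw [hQε] at i1 i2 i3
  have hmass : massIntegral D.g D.l = massIntegral g l := by
    rw [hDg, hDl]
    exact mass_congr hPr hsame (by linarith) (by linarith)
  have hthD : D.th = ∫ x in cAnn (l / 2) l, msz (k x) / l := by
    unfold Dat.th
    rw [hDh, hDl]
    exact th_congr hPr hsame (by linarith)
  rw [hmass, hthD, hDl] at i1
  -- the radius `R`
  have hRl : l ≤ D.R := by
    have h1 := hS.R_ge'
    have h2 := hS.kap_pos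
    have h3 := hS.kap_le
    rw [hDl, div_le_iff₀ h2] at h1
    by_contra hcon
    rw [not_le] at hcon
    have h4 : 0 < D.R ∨ D.R ≤ 0 := lt_or_ge 0 D.R
    rcases h4 with h4 | h4
    · nlinarith
    · nlinarith
  have hR : 0 < D.R := by linarith
  -- the first inequality
  have hlm0 := hlm.nonneg
  have e3 : B1 * D.er Q se ≤ μ / 8 :=
    (mul_le_mul_of_nonneg_left her hB1.le).trans hτ'2
  have e4 : 8 * Real.pi * massIntegral g l * lm
      ≤ 8 * Real.pi * m * lm + 8 * Real.pi * B3 * |massIntegral g l - m| := by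
    have a1 : (massIntegral g l - m) * lm ≤ |massIntegral g l - m| * B3 :=
      mul_le_mul (le_abs_self _) hlm.le hlm0 (abs_nonneg _)
    have a2 := mul_le_mul_of_nonneg_left a1 (by positivity : (0 : ℝ) ≤ 8 * Real.pi)
    linarith
  have j1 : 4 * Real.pi * (2 - ε) ≤ 8 * Real.pi * m * lm + μ := by
    have : B1 * (l ^ (-(1 / 2 : ℝ)) + (∫ x in cAnn (l / 2) l, msz (k x) / l)
        + D.er Q se) = B1 * (l ^ (-(1 / 2 : ℝ)) + ∫ x in cAnn (l / 2) l, msz (k x) / l)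
        + B1 * D.er Q se := by ring
    linarith
  have hlmpos : 0 < lm := by
    rcases hlm0.lt_or_eq with h5 | h5
    · exact h5
    · exfalso
      rw [← h5, mul_zero, zero_add] at j1
      have := Real.pi_gt_three
      nlinarith
  obtain ⟨-, -, -, hH2, -, -, hwm, -, -, -, -, -, -, -, -, hsb0, -, hsbe, hs2, -, -, -⟩ :=
    hSETW Q D hS
  rw [hQε] at hsbe
  -- the compact sets
  have hKO : ∀ K : Set E3,
      (∀ x ∈ K, ρ / 2 ≤ ‖x‖ ∧ ‖x‖ ≤ 2 * r ∧ ∀ p ∈ P, p ≠ 0 → δ ≤ ‖x - p‖) → K ⊆ D.Om := by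
    intro K hK x hx
    obtain ⟨a1, a2, -⟩ := hK x hx
    exact ⟨lt_of_lt_of_le hRρ a1, by linarith⟩
  have hgx : ∀ K : Set E3,
      (∀ x ∈ K, ρ / 2 ≤ ‖x‖ ∧ ‖x‖ ≤ 2 * r ∧ ∀ p ∈ P, p ≠ 0 → δ ≤ ‖x - p‖) →
      ∀ x ∈ K, D.g' x = g x := by
    intro K hK x hx
    obtain ⟨a1, a2, a3⟩ := hK x hx
    have b1 : 1 / (16 * D.R) < ‖x‖ := by
      have : 1 / (16 * D.R) ≤ 1 / D.R := one_div_le_one_div_of_le hR (by linarith)
      linarith
    rw [hS.modified.same x b1 (by rw [hDl]; linarith), hDg]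
    exact (hsame x fun p hp hp0 => by
      have := a3 p hp hp0
      linarith).1
  refine ⟨lm, J, D.w Q, D.Gw Q, hlmpos, i3.1, by linarith, ?_, ?_⟩
  · have e5 : B2 * (1 / D.l + Real.exp (-(L / ε)))
        = B2 * (1 / l) + B2 * Real.exp (-(L / ε)) := by
      rw [hDl]
      ring
    linarith
  · refine ⟨?_, ?_, ?_, ?_⟩
    · intro K hK hKx
      exact hH2L D.Om K (D.w Q) (D.Gw Q) (D.Mw Q) hH2 hK (hKO K hKx)
    · intro x hx1 hx2
      have hxO : x ∈ D.Om := ⟨lt_of_lt_of_le hRρ hx1, by linarith⟩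
      have := (hlev x hxO).1 hx2
      rwa [hQε] at this
    · intro x hx1 hx2
      have hxO : x ∈ D.Om := by
        refine ⟨?_, by linarith⟩
        have h1 : 1 / D.R ≤ 1 / l := one_div_le_one_div_of_le (by linarith) hRl
        have h2 : 1 / l ≤ 1 / 4 := one_div_le_one_div_of_le (by norm_num) hl4
        linarith
      exact (hlev x hxO).2 (hr.trans hx1)
    · intro K hK hKx s₀ s₁ hs0 hs01 hs1
      have hmain := i3.2 K hK (hKO K hKx) s₀ s₁ (by linarith) hs01 (by linarith)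
      have hKm : MeasurableSet K := hK.isClosed.measurableSet
      have hTm : MeasurableSet (K ∩ {x | s₀ ≤ D.w Q x ∧ D.w Q x ≤ s₁}) :=
        hKm.inter ((measurableSet_le measurable_const hwm).inter
          (measurableSet_le hwm measurable_const))
      have c1 : ∫ x in K ∩ {x | s₀ ≤ D.w Q x ∧ D.w Q x ≤ s₁},
          len g x (D.Gw Q x) * volDen g x =
          ∫ x in K ∩ {x | s₀ ≤ D.w Q x ∧ D.w Q x ≤ s₁}, D.X Q x * D.vol x := by
        refine setIntegral_congr_fun hTm fun x hx => ?_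
        have hxg := hgx K hKx x hx.1
        simp only [Dat.X, Dat.vol, len, volDen, hxg]
      have c2 : ∫ x in K, volDen g x = ∫ x in K, D.vol x := by
        refine setIntegral_congr_fun hKm fun x hx => ?_
        have hxg := hgx K hKx x hx
        simp only [Dat.vol, volDen, hxg]
      rw [c1, c2]
      exact hmain

end Pool.Agent.PFT
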