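import Pool.Agent.PFT.StmtsE
import Pool.Agent.PFlow.E.EXI1

/-!
# EXT: existence of the setup for the capped data
-/

set_option autoImplicit false

open MeasureTheory Filter Topology
open scoped ContDiff ENNReal

namespace Pool.Agent.PFT

open Pool.Agent.PenroseSph Pool.Agent.PFlow

namespace EXTAux

theorem cont_vol {g : TensorField} (hg : MetricOn Set.univ g) : Continuous (volDen g) := by
  have h : ∀ i j, Continuous fun x => g x i j := fun i j =>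
    continuousOn_univ.mp (hg.smooth i j).continuousOn
  unfold volDen
  refine Real.continuous_sqrt.comp ?_
  simp only [Matrix.det_fin_three]
  fun_prop

theorem isCompact_cAnn (a b : ℝ) : IsCompact (cAnn a b) := by
  have h : cAnn a b = Metric.closedBall (0 : E3) b ∩ {x : E3 | a ≤ ‖x‖} := by
    ext x
    simp only [cAnn, Set.mem_ofPred_eq, Set.mem_inter_iff, mem_closedBall_zero_iff]
    tauto
  rw [h]
  exact (isCompact_closedBall 0 b).inter_right (isClosed_le continuous_const continuous_norm)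

theorem eEta_nonneg (η : ℝ) (g k : TensorField) (x : E3) : 0 ≤ eEta η g k x := by
  unfold eEta len
  positivity

/-- The union of the caps. -/
def caps (P : Finset E3) (N : ℝ) : Set E3 :=
  ⋃ p ∈ P.erase 0, Metric.closedBall p (1 / (4 * N))

theorem mem_caps {P : Finset E3} {N : ℝ} {x : E3} :
    x ∈ caps P N ↔ ∃ p ∈ P, p ≠ 0 ∧ ‖x - p‖ ≤ 1 / (4 * N) := by
  unfold caps
  simp only [Set.mem_iUnion, Metric.mem_closedBall, dist_eq_norm, Finset.mem_erase, exists_prop]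
  constructor
  · rintro ⟨p, ⟨h1, h2⟩, h3⟩
    exact ⟨p, h2, h1, h3⟩
  · rintro ⟨p, h2, h1, h3⟩
    exact ⟨p, ⟨h1, h2⟩, h3⟩

theorem caps_compact (P : Finset E3) (N : ℝ) : IsCompact (caps P N) :=
  (P.erase 0).isCompact_biUnion fun p _ => isCompact_closedBall p _

theorem caps_volume {P : Finset E3} {N V : ℝ} {f : E3 → ℝ} (hN : 0 < N)
    (hsep : ∀ p ∈ P, ∀ q ∈ P, p ≠ q → 1 / N < ‖p - q‖) (hf : Continuous f)
    (hV : ∀ p ∈ P, p ≠ 0 → ∫ x in Metric.closedBall p (1 / (4 * N)), f x ≤ V) :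
    ∫ x in caps P N, f x ≤ ((P.erase 0).card : ℝ) * V := by
  unfold caps
  rw [integral_biUnion_finset _ (fun p _ => Metric.isClosed_closedBall.measurableSet) _
    (fun p _ => hf.continuousOn.integrableOn_compact (isCompact_closedBall p _))]
  · refine (Finset.sum_le_card_nsmul _ _ V fun p hp =>
      hV p (Finset.mem_of_mem_erase hp) (Finset.ne_of_mem_erase hp)).trans ?_
    rw [nsmul_eq_mul]
  · intro p hp q hq hpq
    have hp' : p ∈ P := Finset.mem_of_mem_erase (Finset.mem_coe.1 hp)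
    have hq' : q ∈ P := Finset.mem_of_mem_erase (Finset.mem_coe.1 hq)
    refine Metric.closedBall_disjoint_closedBall ?_
    rw [dist_eq_norm]
    refine lt_of_le_of_lt ?_ (hsep p hp' q hq' hpq)
    have : 1 / N = 1 / (4 * N) + 1 / (4 * N) + (1 / (4 * N) + 1 / (4 * N)) := by
      field_simp; norm_num
    have : 0 < 1 / (4 * N) := by positivity
    linarith

/-- The second part of the defect is small for small `η`, uniformly in `R`. -/
theorem eta_small (hEETA : Stmt_EETA) {g k : TensorField} (hg : MetricOn {0}ᶜ g)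
    (hk : TensorOn {0}ᶜ k) {r₀ l q τ : ℝ} (hr₀ : 0 < r₀) (hq : 1 ≤ q) (hτ : 0 < τ)
    (hkin : ∀ (R : ℝ) (x : E3), 0 ≤ kin R x ∧ kin R x ≤ 1) :
    ∃ η : ℝ, 0 < η ∧ ∀ R : ℝ, ∫ x in cAnn r₀ l, (kin R x * eEta η g k x) ^ q ≤ τ := by
  obtain ⟨h1, h2⟩ := hEETA g k hg hk
  obtain ⟨η, hη, -, hI⟩ := h2 r₀ l q τ hr₀ hq hτ
  refine ⟨η, hη, fun R => le_trans ?_ hI⟩
  have hc : ContinuousOn (eEta η g k) (cAnn r₀ l) := (h1 η hη).1.mono fun x hx => by
    intro h0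
    rw [Set.mem_singleton_iff] at h0
    subst h0
    have := hx.1
    rw [norm_zero] at this
    linarith
  have hc' : ContinuousOn (fun x => eEta η g k x ^ q) (cAnn r₀ l) :=
    hc.rpow_const fun x _ => Or.inr (by linarith)
  have hi := hc'.integrableOn_compact (μ := volume) (isCompact_cAnn r₀ l)
  refine integral_mono_of_nonneg ?_ hi ?_
  · exact Eventually.of_forall fun x =>
      Real.rpow_nonneg (mul_nonneg (hkin R x).1 (eEta_nonneg η g k x)) _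
  · refine Eventually.of_forall fun x => ?_
    exact Real.rpow_le_rpow (mul_nonneg (hkin R x).1 (eEta_nonneg η g k x))
      (mul_le_of_le_one_left (eEta_nonneg η g k x) (hkin R x).2) (by linarith)

theorem kin_mem (R : ℝ) (x : E3) : 0 ≤ kin R x ∧ kin R x ≤ 1 := by
  unfold kin kap
  have h1 := Real.smoothTransition.nonneg (2 - 32 * R * ‖x‖)
  have h2 := Real.smoothTransition.le_one (2 - 32 * R * ‖x‖)
  constructor <;> linarith

/-- The radii. -/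
theorem radii (P : Finset E3) : ∃ ρ₁ r₁ : ℝ, 0 < ρ₁ ∧ ρ₁ ≤ 1 ∧ 1 ≤ r₁ ∧
    (∀ p ∈ P, p ≠ 0 → 2 * ρ₁ < ‖p‖) ∧ (∀ p ∈ P, ‖p‖ + 1 < r₁) := by
  obtain ⟨ρ, hρ, hρ1⟩ : ∃ ρ : ℝ, 0 < ρ ∧ ∀ p ∈ P.erase 0, ρ < ‖p‖ := by
    rcases (P.erase 0).eq_empty_or_nonempty with h | h
    · exact ⟨1, one_pos, fun p hp => by rw [h] at hp; exact absurd hp (Finset.notMem_empty p)⟩
    · obtain ⟨p, hp, hmin⟩ := Finset.exists_min_image (P.erase 0) (fun p => ‖p‖) h
      have hp0 : 0 < ‖p‖ := norm_pos_iff.2 (Finset.ne_of_mem_erase hp)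
      exact ⟨‖p‖ / 2, by positivity, fun q hq => by linarith [hmin q hq]⟩
  refine ⟨min (ρ / 2) 1, 2 + ∑ p ∈ P, ‖p‖, lt_min (by positivity) one_pos, min_le_right _ _, ?_,
    ?_, ?_⟩
  · have : 0 ≤ ∑ p ∈ P, ‖p‖ := Finset.sum_nonneg fun p _ => norm_nonneg p
    linarith
  · intro p hp hp0
    have h1 := hρ1 p (Finset.mem_erase.2 ⟨hp0, hp⟩)
    have h2 := min_le_left (ρ / 2) 1
    linarith
  · intro p hp
    have : ‖p‖ ≤ ∑ q ∈ P, ‖q‖ :=
      Finset.single_le_sum (f := fun q : E3 => ‖q‖) (fun q _ => norm_nonneg q) hp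
    linarith

theorem ar1 {R : ℝ} (hR : 64 ≤ R) : 8 ≤ R * R := by nlinarith

theorem ar2 {a b c : ℝ} (hb : 0 ≤ b) (hc : 0 ≤ c) : a * (b * c) ≤ (b * a + b) * c := by
  nlinarith [mul_nonneg hb hc]

theorem ar3 {ε s x γ : ℝ} (hε : ε ≤ 1 / 2) (hs : s ≤ x) (hx : 0 ≤ x) (hγ : 0 < γ) :
    s ≤ (2 - ε) * x + γ := by nlinarith

theorem ar4 {ρ l : ℝ} (hl : 1 ≤ l * ρ) : 1 ≤ ρ * (4 * l) := by
  nlinarith

theorem ar5 {ε x y : ℝ} (hε : 0 < ε) (h : x ≤ y) : -ε * y ≤ -ε * x := by nlinarith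

end EXTAux

open EXTAux in
/-- **EXT.** -/
theorem t_EXT (hCAP : Stmt_CAP) (hMODD : Stmt_MODD) (hLOCUT : Stmt_LOCUT) (hGAM : Stmt_GAM)
    (hULB : Stmt_ULB) (hUBAR : Stmt_UBAR) (hUSAM : Stmt_USAM) (hJUU : Stmt_JUU)
    (hNDS : Stmt_NDS) (hCCO : Stmt_CCO) (hLOC : Stmt_LOC) (hABS : Stmt_ABS)
    (hMODM : Stmt_MODM) (hEETA : Stmt_EETA) (hP : Stmt_P) (hAFD : Stmt_AFD)
    (hBETA : Stmt_BETA) : Stmt_EXT := by
  intro P g k h0P hE hsur hps
  obtain ⟨β, hβ⟩ := hBETA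
  obtain ⟨C₁, Nc, hC₁, hNc1, hsepc, hcap⟩ := hCAP P g k h0P hE hsur hps
  obtain ⟨ρ₁, r₁, hρ₁, hρ₁1, hr₁1, hPρ, hPr⟩ := radii P
  -- the depth `N₀`
  obtain ⟨N₀, hN₀c, hN₀ρ⟩ : ∃ N₀ : ℝ, Nc ≤ N₀ ∧ 1 / (4 * N₀) < ρ₁ := by
    refine ⟨max Nc (1 / ρ₁), le_max_left _ _, ?_⟩
    have h1 : 1 / ρ₁ ≤ max Nc (1 / ρ₁) := le_max_right _ _
    have h2 : 0 < max Nc (1 / ρ₁) := lt_of_lt_of_le (by positivity) h1
    rw [div_lt_iff₀ (by positivity)]
    rw [div_le_iff₀ hρ₁] at h1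
    linarith
  have hN₀1 : 1 ≤ N₀ := hNc1.trans hN₀c
  have hN₀0 : 0 < N₀ := by linarith
  obtain ⟨g₀, k₀, e₀, hC0⟩ := hcap N₀ hN₀c
  have hrad : ∀ N : ℝ, N₀ ≤ N → ∀ p ∈ P, p ≠ 0 → ρ₁ + 1 / (4 * N) < ‖p‖ ∧
      ‖p‖ + 1 / (4 * N) < r₁ := by
    intro N hN p hp hp0
    have h1 : 1 / (4 * N) ≤ 1 / (4 * N₀) := one_div_le_one_div_of_le (by positivity) (by linarith)
    have h2 := hPρ p hp hp0
    have h3 := hPr p hp
    constructor <;> linarith
  have hsupp : ∀ (N : ℝ) (g' k' : TensorField) (e' : E3 → ℝ), N₀ ≤ N →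
      Capped P g k C₁ N g' k' e' → ∀ x : E3, r₁ ≤ ‖x‖ → e' x = 0 := by
    intro N g' k' e' hN hC x hx
    refine hC.defect_supp x fun p hp hp0 => ?_
    have h1 := (hrad N hN p hp hp0).2
    have h2 : ‖x‖ ≤ ‖x - p‖ + ‖p‖ := by
      have := norm_add_le (x - p) p
      rwa [sub_add_cancel] at this
    linarith
  obtain ⟨C₂, l₀₀, hC₂, hl₀₀, hmod0⟩ := hMODD g₀ k₀ e₀ r₁ hC0.two hC0.plane hC0.defect_cont
    hC0.defect_nonneg hr₁1 (hsupp N₀ g₀ k₀ e₀ le_rfl hC0) hC0.energy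
  obtain ⟨ρ, r, hρ0, hρρ, hrr, hU⟩ := hLOCUT C₂ ρ₁ r₁ hC₂ hρ₁ hρ₁1 hr₁1
  refine ⟨ρ, r, hρ0, by linarith, fun p hp hp0 => by linarith [hPρ p hp hp0],
    fun p hp => by linarith [hPr p hp], ?_⟩
  intro ε τ δ hε hε2 hτ hδ
  obtain ⟨RU, hRU⟩ := hU ε hε hε2
  -- the lower bound
  obtain ⟨cU, N₁, R₁, r₂, hcU, hN₁, hR₁, hulb⟩ := hULB P g k h0P hE ε C₂ ρ₁ r₁ hε hε2 hC₂ hρ₁
    hρ₁1 (fun p hp hp0 => by linarith [hPρ p hp hp0]) (fun p hp => by linarith [hPr p hp]) hr₁1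
  obtain ⟨c₀, hc₀, hc₀U⟩ : ∃ c₀ : ℝ, 0 < c₀ ∧ c₀ ≤ cU := ⟨cU, hcU, le_rfl⟩
  obtain ⟨γ, hγ, hgam⟩ := hGAM ε C₂ r₁ c₀ hε hε2 hC₂ hr₁1 hc₀
  obtain ⟨J, hJ, hjuu⟩ := hJUU ε γ β hε hε2 hγ hβ
  obtain ⟨s, hs⟩ : ∃ s : ℝ, s = -ε * Real.log c₀ := ⟨_, rfl⟩
  obtain ⟨C₃, hC₃⟩ : ∃ C₃ : ℝ, C₃ = C₁ * ((P.erase 0).card : ℝ) + C₁ := ⟨_, rfl⟩
  have hC₃1 : C₁ ≤ C₃ := by
    rw [hC₃]
    have : 0 ≤ C₁ * ((P.erase 0).card : ℝ) := by positivity
    linarith
  have hC₃0 : 0 < C₃ := lt_of_lt_of_le hC₁ hC₃1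
  obtain ⟨N, hN, hN1, hcost⟩ := hCCO ε C₃ s J (min τ (1 / 2)) (max N₀ (max N₁ (1 / δ))) hε hε2
    hC₃0 hJ.le (lt_min hτ (by norm_num))
  have hNN₀ : N₀ ≤ N := (le_max_left _ _).trans hN
  have hNN₁ : N₁ ≤ N := (le_max_left _ _).trans ((le_max_right _ _).trans hN)
  have hNδ : 1 / δ ≤ N := (le_max_right _ _).trans ((le_max_right _ _).trans hN)
  have hN0 : 0 < N := by linarith
  have hNδ' : 1 / (8 * N) ≤ δ / 2 := by
    rw [div_le_iff₀ hδ] at hNδ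
    rw [div_le_iff₀ (by positivity)]
    linarith
  have hsep : ∀ p ∈ P, ∀ q ∈ P, p ≠ q → 1 / N < ‖p - q‖ := fun p hp q hq hpq =>
    (one_div_le_one_div_of_le (by linarith) (hN₀c.trans hNN₀)).trans_lt (hsepc p hp q hq hpq)
  -- the capped data
  obtain ⟨g₁, k₁, e₁, hCN⟩ := hcap N (hN₀c.trans hNN₀)
  have hbarU : ∀ l R η : ℝ, l₀₀ ≤ l → 4 * l ≤ R → 0 < η → ∀ x : E3, 1 / (8 * R) ≤ ‖x‖ →
      (‖x‖ ≤ ρ₁ ∨ r₁ ≤ ‖x‖) → BarAt ε C₂ (modG l R g₁) (modH η l R g₁ k₁) x :=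
    fun l R η h1 h2 h3 x h4 h5 => hUBAR P g k C₁ C₂ l₀₀ N₀ N ρ₁ r₁ g₀ k₀ g₁ k₁ e₀ e₁ hC0 hCN hN₀1
      hNN₀ (hrad N₀ le_rfl) hmod0 l R η ε h1 h2 h3 hε (by linarith) x h4 h5
  have hsam := hUSAM P g k C₁ N g₁ k₁ e₁ h0P hE hCN hN1
  obtain ⟨Cm, lm, hCm, hlm, hmod⟩ := hMODD g₁ k₁ e₁ r₁ hCN.two hCN.plane hCN.defect_cont
    hCN.defect_nonneg hr₁1 (hsupp N g₁ k₁ e₁ hNN₀ hCN) hCN.energy
  obtain ⟨CA, hCA, hD1, -, -, hE2⟩ := hAFD g₁ k₁ hCN.two
  obtain ⟨C, hC⟩ : ∃ C, C = max CA Cm := ⟨_, rfl⟩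
  have hCCA : CA ≤ C := by rw [hC]; exact le_max_left _ _
  have hCCm : Cm ≤ C := by rw [hC]; exact le_max_right _ _
  have hCp : 0 < C := lt_of_lt_of_le hCA hCCA
  obtain ⟨c, CL, γ', κ, lL, hc0, hc1, hCL, -, hκ0, hκ1, hlL, hloc⟩ := hLOC ε C hε hε2 hCp
  obtain ⟨B, l₁, hB, hl₁, habs⟩ := hABS ⟨ε, C, c, CL, γ, κ⟩
  obtain ⟨l₀, hl₀⟩ : ∃ l₀ : ℝ, 4 ≤ l₀ ∧ lm ≤ l₀ ∧ l₀₀ ≤ l₀ ∧ lL ≤ l₀ ∧ l₁ ≤ l₀ ∧ r₁ ≤ l₀ ∧
      2 * r₂ + 1 ≤ l₀ ∧ 1 / ρ₁ ≤ l₀ ∧ Real.exp s ≤ l₀ := by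
    have hev : ∀ a : ℝ, ∀ᶠ l : ℝ in atTop, a ≤ l := fun a => eventually_ge_atTop a
    exact ((hev 4).and ((hev lm).and ((hev l₀₀).and ((hev lL).and ((hev l₁).and ((hev r₁).and
      ((hev (2 * r₂ + 1)).and ((hev (1 / ρ₁)).and (hev (Real.exp s)))))))))).exists
  obtain ⟨hl04, hl0m, hl00, hl0L, hl01, hl0r, hl0r2, hl0ρ, hl0s⟩ := hl₀
  refine ⟨⟨ε, C, c, CL, γ, κ⟩, B, l₀, g₁, k₁, rfl, hB, hl04, ?_, ?_⟩
  · intro x hx
    refine ⟨hCN.same x fun p hp hp0 => ?_, hCN.sameK x fun p hp hp0 => ?_⟩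
    · refine lt_of_le_of_lt ?_ (hx p hp hp0)
      exact (one_div_le_one_div_of_le (by positivity) (by linarith)).trans hNδ'
    · exact lt_of_le_of_lt hNδ' (hx p hp hp0)
  intro l τ' L hl hτ' hL
  have hl4 : 4 ≤ l := hl04.trans hl
  have hl0 : 0 < l := by linarith
  obtain ⟨RL, hRL16, hRL⟩ := hloc l (hl0L.trans hl)
  obtain ⟨RG, hRG16, hRG⟩ := hgam l (hl0r.trans hl)
  obtain ⟨B', hB', hnds⟩ := hNDS ⟨ε, C, c, CL, γ, κ⟩ B β g₁ l hβ
  -- the small number for the second part of the defect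
  obtain ⟨t, ht⟩ : ∃ t, t = min τ' (1 / 2) := ⟨_, rfl⟩
  have ht0 : 0 < t := by rw [ht]; exact lt_min hτ' (by norm_num)
  have htτ : t ≤ τ' := by rw [ht]; exact min_le_left _ _
  have ht1 : t ≤ 1 / 2 := by rw [ht]; exact min_le_right _ _
  have hq1 : 1 ≤ (1 + ε) / ε := by
    rw [le_div_iff₀ hε]
    linarith
  have hτ'0 : 0 < (t / B') ^ ((1 + ε) / ε) := Real.rpow_pos_of_pos (div_pos ht0 hB') _
  obtain ⟨η, hη, hηI⟩ := eta_small hEETA hCN.two.metric hCN.two.tensor (r₀ := κ / l) (l := l)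
    (div_pos hκ0 hl0) hq1 hτ'0 kin_mem
  -- the choice of `R`
  have hsM := EXI1aux.sME_tendsto (ε := ε) (γ := γ) (by linarith)
  have hlam := EXI1aux.lam_pos hε hε2
  have e8 := (EXI1aux.err_tendsto hsM hlam (s2E ε γ l / (2 - ε)) (s2E ε γ l)).eventually_le_const
    ht0
  have e6 := hsM.eventually_gt_atTop (s2E ε γ l + L + 1)
  have e7 := hsM.eventually_ge_atTop (s2E ε γ l + 1 + 2 * γ + 2)
  obtain ⟨R, h1, h2, h3, h4, h5, h6, h7, h8, h9, h10, h11⟩ := ((eventually_ge_atTop RL).and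
    ((eventually_ge_atTop RU).and ((eventually_ge_atTop (kE ε γ ^ 4 * l)).and
    ((eventually_ge_atTop (2 * l / κ)).and ((eventually_gt_atTop (2 / ρ)).and
    (e6.and (e7.and (e8.and ((eventually_ge_atTop RG).and ((eventually_ge_atTop R₁).and
      (eventually_gt_atTop (1 / ρ₁)))))))))))).exists
  have hR16 : 16 * l ≤ R := hRL16.trans h1
  have hR0 : 0 < R := by linarith
  have hR4 : 4 * l ≤ R := by linarith
  have hM := hmod l R η (hl0m.trans hl) hR4 hη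
  have hM' := hMODM g₁ k₁ Cm C l R _ _ _ hl0 hR0 hCCm hM
  have hη0 : 0 < R ^ (-pe ε - 1) := Real.rpow_pos_of_pos hR0 _
  obtain ⟨u, G, M, hS⟩ := hP ε (1 / R) R (R ^ (-pe ε - 1)) (modG l R g₁) (modH η l R g₁ k₁) hε
    (by linarith) (by positivity) (by
      rw [mul_one_div, div_le_iff₀ hR0]
      exact ar1 (by linarith)) hη0 hM'.metric hM'.tensor (by
      intro x hx
      exact ⟨hM'.flat x (by linarith), hM'.supp x (by linarith)⟩)
  have hbar : ∀ x : E3, 1 / (8 * R) ≤ ‖x‖ → |barB ε (modG l R g₁) (modH η l R g₁ k₁) x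
      - bE ε ‖x‖| ≤ C / (1 + ‖x‖ ^ 2) := hM'.barrier ε hε (by linarith)
  have hbar2 := hbarU l R η (hl00.trans hl) hR4 hη
  have hL1 : Located ε c CL γ' κ l R u :=
    hRL R h1 _ _ _ u G M hη0 le_rfl hM'.metric hbar hS
  have hfin := hRU R h2 _ _ _ u G M hη0 le_rfl hM'.metric hbar2 hS hL1.pos
  have hlow : ∀ x ∈ Ann (1 / R) R, ‖x‖ ≤ r₁ → c₀ ≤ u x := fun x hx hxr =>
    hc₀U.trans (hulb N R hNN₁ h10 _ _ _ u G M hη0 le_rfl hM'.metric
      (hsam l R η r₂ (by linarith) hR4 hη (by linarith))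
      (fun y hy1 hy2 => hbar2 y hy1 (Or.inl hy2)) hS x hx hxr)
  obtain ⟨hg1, hg2, hg3⟩ := hRG R h9 _ _ _ u G M hη0 le_rfl hM'.metric (fun y hy => by
    refine hbar2 y ?_ (Or.inr hy)
    refine le_trans ?_ (hr₁1.trans hy)
    rw [div_le_one (by positivity)]
    linarith) hS hlow
  have hL' : Located ε c CL γ κ l R u :=
    { pos := hL1.pos
      outer := hg1
      outer_low := hg2
      inner := hL1.inner
      inner_half := hL1.inner_half
      low := hL1.low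
      low' := hL1.low'
      mid := hg3 }
  obtain ⟨e, he⟩ : ∃ e : E3 → ℝ, e = fun x => e₁ x + kin (R / 2) x * eEta η g₁ k₁ x := ⟨_, rfl⟩
  rw [← he] at hM'
  have hSet : Setup ⟨ε, C, c, CL, γ, κ⟩
      ⟨l, R, R ^ (-pe ε - 1), g₁, k₁, modG l R g₁, modH η l R g₁ k₁, e, u, G, M⟩ :=
    { eps_pos := hε
      eps_le := hε2
      C_pos := hCp
      c_pos := hc0
      c_le := hc1
      C2_pos := hCL
      gam_pos := hγ
      kap_pos := hκ0
      kap_le := hκ1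
      l_ge := hl4
      R_ge := h3
      R_ge' := h4
      metric0 := hCN.two.metric
      tensor0 := hCN.two.tensor
      hdecay := by
        intro x hx i j
        refine ((hD1 x hx i j).2.2.2.1).trans ?_
        exact div_le_div_of_nonneg_right hCCA (by positivity)
      ell2 := by
        intro y hy v
        obtain ⟨a1, a2⟩ := hE2 y hy v
        have h0 : 0 ≤ ∑ i, v i ^ 2 := Finset.sum_nonneg fun i _ => sq_nonneg _
        have hev : 0 ≤ ev (inverted g₁ y) v v := by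
          by_contra hcon
          push Not at hcon
          have : CA * ev (inverted g₁ y) v v < 0 := mul_neg_of_pos_of_neg hCA hcon
          linarith
        exact ⟨a1.trans (mul_le_mul_of_nonneg_right hCCA hev),
          a2.trans (mul_le_mul_of_nonneg_right hCCA h0)⟩
      modified := hM'
      sol := hS
      located := hL' }
  have hA : AbsOf ⟨ε, C, c, CL, γ, κ⟩
      ⟨l, R, R ^ (-pe ε - 1), g₁, k₁, modG l R g₁, modH η l R g₁ k₁, e, u, G, M⟩ B :=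
    habs _ hSet (hl01.trans hl)
  -- the caps
  have hTmem : ∀ x ∈ caps P N, ρ₁ < ‖x‖ ∧ ‖x‖ < r₁ := by
    intro x hx
    obtain ⟨p, hp, hp0, hxp⟩ := mem_caps.1 hx
    obtain ⟨a1, a2⟩ := hrad N hNN₀ p hp hp0
    have b1 : ‖x‖ ≤ ‖x - p‖ + ‖p‖ := by
      have := norm_add_le (x - p) p
      rwa [sub_add_cancel] at this
    have b2 : ‖p‖ ≤ ‖x‖ + ‖x - p‖ := by
      have := norm_sub_le x (x - p)
      rwa [sub_sub_cancel] at this
    constructor <;> linarith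
  have hρR : 1 / R < ρ₁ := by
    rw [div_lt_iff₀ hR0]
    rw [div_lt_iff₀ hρ₁] at h11
    linarith
  have hTann : ∀ x ∈ caps P N, x ∈ Ann (1 / R) R := fun x hx =>
    ⟨hρR.trans (hTmem x hx).1, (hTmem x hx).2.trans_le (by linarith)⟩
  have hE0 : C₁ / N ^ 2 ≤ C₃ / N ^ 2 := div_le_div_of_nonneg_right hC₃1 (by positivity)
  have hvol : ∫ x in caps P N, volDen (modG l R g₁) x ≤ C₃ * N ^ 3 := by
    refine (caps_volume hN0 hsep (cont_vol hM'.metric) (V := C₁ * N ^ 3) ?_).trans ?_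
    · intro p hp hp0
      have : ∫ x in Metric.closedBall p (1 / (4 * N)), volDen (modG l R g₁) x
          = ∫ x in Metric.closedBall p (1 / (4 * N)), volDen g₁ x := by
        refine setIntegral_congr_fun Metric.isClosed_closedBall.measurableSet fun x hx => ?_
        have hx' : x ∈ caps P N := mem_caps.2 ⟨p, hp, hp0, by rw [← dist_eq_norm]; exact hx⟩
        obtain ⟨a1, a2⟩ := hTmem x hx'
        have : modG l R g₁ x = g₁ x := by
          refine hM'.same x ?_ (by linarith)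
          refine lt_trans ?_ (hρR.trans a1)
          exact one_div_lt_one_div_of_lt hR0 (by linarith)
        simp only [volDen, this]
      rw [this]
      exact hCN.volume p hp hp0
    · rw [hC₃]
      exact ar2 hC₁.le (by positivity)
  have hs2 : s ≤ s2E ε γ l := by
    unfold s2E
    have h1 : s ≤ Real.log l := by
      rw [Real.le_log_iff_exp_le hl0]
      exact hl0s.trans hl
    have h2 : Real.log l ≤ Real.log (4 * l) := Real.log_le_log hl0 (by linarith)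
    have h3 : 0 ≤ Real.log (4 * l) := Real.log_nonneg (by linarith)
    exact ar3 hε2 (h1.trans h2) h3 hγ
  have hsb : 0 < sbE ε c l := by
    unfold sbE
    have := Real.rpow_pos_of_pos (show 0 < 4 * l by positivity) (-pe ε)
    positivity
  have hNd := hnds _ hSet hA rfl rfl (caps P N) e₁ (fun x => kin (R / 2) x * eEta η g₁ k₁ x)
    (C₃ / N ^ 2) (C₃ * N ^ 3) s J (fun x => by rw [he]) hCN.defect_cont (by
      have h1 : (fun x => kin (R / 2) x * eEta η g₁ k₁ x) = fun x => e x - e₁ x := by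
        funext x; rw [he]; ring
      rw [h1]
      exact hM'.defect_cont.sub hCN.defect_cont)
    (fun x => ⟨hCN.defect_nonneg x, mul_nonneg (kin_mem _ x).1 (eEta_nonneg η g₁ k₁ x),
      (hCN.defect_le x).trans hE0⟩)
    (fun x hx => hCN.defect_supp x fun p hp hp0 => by
      by_contra hcon
      push Not at hcon
      exact hx (mem_caps.2 ⟨p, hp, hp0, hcon.le⟩))
    (caps_compact P N) hTann (fun x hx => by
      have hu := hlow x (hTann x hx) (hTmem x hx).2.le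
      constructor
      · by_contra hcon
        push Not at hcon
        have h1 : wOf ε u x ≤ sbE ε c l := by
          have : wOf ε u x < sbE ε c l / 2 := hcon
          linarith
        have h2 := hL'.low x (hTann x hx) h1
        have h3 : 1 / (4 * l) ≤ ρ₁ := by
          have h4 : 1 / ρ₁ ≤ l := hl0ρ.trans hl
          rw [div_le_iff₀ hρ₁] at h4
          rw [div_le_iff₀ (by positivity)]
          exact ar4 h4
        linarith [(hTmem x hx).1]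
      · show -ε * Real.log (u x) ≤ s
        rw [hs]
        exact ar5 hε (Real.log_le_log hc₀ hu))
    hs2 hJ.le (by positivity) hvol (hjuu _ _ B rfl rfl hSet hA).2
  have hNt : Dat.Nd ⟨l, R, R ^ (-pe ε - 1), g₁, k₁, modG l R g₁, modH η l R g₁ k₁, e, u, G, M⟩
      ⟨ε, C, c, CL, γ, κ⟩ ≤ min τ (1 / 2) + t := by
    refine hNd.trans (add_le_add hcost ?_)
    have hi0 : 0 ≤ ∫ x in cAnn (κ / l) l, (kin (R / 2) x * eEta η g₁ k₁ x) ^ ((1 + ε) / ε) :=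
      integral_nonneg fun x => Real.rpow_nonneg (mul_nonneg (kin_mem _ x).1
        (eEta_nonneg η g₁ k₁ x)) _
    have h9 : (∫ x in cAnn (κ / l) l, (kin (R / 2) x * eEta η g₁ k₁ x) ^ ((1 + ε) / ε))
        ^ (ε / (1 + ε)) ≤ ((t / B') ^ ((1 + ε) / ε)) ^ (ε / (1 + ε)) :=
      Real.rpow_le_rpow hi0 (hηI (R / 2)) (by positivity)
    have h10 : ((t / B') ^ ((1 + ε) / ε)) ^ (ε / (1 + ε)) = t / B' := by
      rw [← Real.rpow_mul (by positivity)]
      have : (1 + ε) / ε * (ε / (1 + ε)) = 1 := by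
        have : 1 + ε ≠ 0 := by positivity
        field_simp
      rw [this, Real.rpow_one]
    rw [h10] at h9
    calc B' * (∫ x in cAnn (κ / l) l, (kin (R / 2) x * eEta η g₁ k₁ x) ^ ((1 + ε) / ε))
          ^ (ε / (1 + ε))
        ≤ B' * (t / B') := mul_le_mul_of_nonneg_left h9 hB'.le
      _ = t := by field_simp
  have her : Dat.er ⟨l, R, R ^ (-pe ε - 1), g₁, k₁, modG l R g₁, modH η l R g₁ k₁, e, u, G, M⟩
      ⟨ε, C, c, CL, γ, κ⟩ (sME ε γ R - 2) ≤ t := h8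
  have hm1 : min τ (1 / 2) ≤ τ := min_le_left _ _
  have hm2 : min τ (1 / 2 : ℝ) ≤ 1 / 2 := min_le_right _ _
  refine ⟨⟨l, R, R ^ (-pe ε - 1), g₁, k₁, modG l R g₁, modH η l R g₁ k₁, e, u, G, M⟩,
    sME ε γ R - 2, rfl, rfl, rfl, hSet, hA, ⟨?_, ?_, her.trans (by linarith),
    hNt.trans (by linarith)⟩, hNt.trans (by linarith), her.trans htτ, h6, ?_, hfin⟩
  · show s2E ε γ l + 1 + 2 * γ ≤ sME ε γ R - 2
    linarith
  · show sME ε γ R - 2 + 1 < sME ε γ R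
    linarith
  · show 1 / R < ρ / 2
    rw [div_lt_iff₀ hR0]
    rw [div_lt_iff₀ hρ0] at h5
    linarith

end Pool.Agent.PFT
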