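import Pool.Agent.PFT.StmtsE

/-!
# H2L: functions of class `H²` are of class `W^{1,1}` on compact sets
-/

open MeasureTheory Filter Topology
open scoped ContDiff ENNReal

namespace Pool.Agent.PFT

open Pool.Agent.PenroseSph Pool.Agent.PFlow

namespace H2L

theorem pd_contDiff {f : E3 → ℝ} (hf : ContDiff ℝ ∞ f) (i : Fin 3) : ContDiff ℝ ∞ (pd i f) := by
  have h4 : ContDiff ℝ ∞ (fderiv ℝ f) := hf.fderiv_right (m := ∞) (by simp)
  exact h4.clm_apply contDiff_const

theorem fin_restrict {K : Set E3} (hK : IsCompact K) : IsFiniteMeasure (volume.restrict K) :=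
  ⟨by rw [Measure.restrict_apply_univ]; exact hK.measure_lt_top⟩

theorem memLp_cont {K : Set E3} (hK : IsCompact K) {f : E3 → ℝ} (hf : Continuous f) :
    MemLp f 2 (volume.restrict K) := by
  have := fin_restrict hK
  obtain ⟨C, hC⟩ := hK.exists_bound_of_continuousOn hf.continuousOn
  refine MemLp.of_bound hf.aestronglyMeasurable C ?_
  rw [ae_restrict_iff' hK.measurableSet]
  exact Eventually.of_forall fun x hx => hC x hx

/-- `L²` convergence to zero implies `L¹` convergence to zero for a finite measure. -/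
theorem tendsto_L1 {μ : Measure E3} [IsFiniteMeasure μ] {f : ℕ → E3 → ℝ}
    (hf : ∀ n, MemLp (f n) 2 μ) (h : Tendsto (fun n => ∫ x, f n x ^ 2 ∂μ) atTop (𝓝 0)) :
    Tendsto (fun n => ∫ x, |f n x| ∂μ) atTop (𝓝 0) := by
  have h0 : ∀ n, 0 ≤ ∫ x, |f n x| ∂μ := fun n => integral_nonneg fun x => abs_nonneg _
  rw [Metric.tendsto_atTop] at h ⊢
  intro δ hδ
  set V : ℝ := μ.real Set.univ with hV
  have hV0 : 0 ≤ V := measureReal_nonneg
  set t : ℝ := δ / (V + 1) with ht
  have ht0 : 0 < t := by positivity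
  obtain ⟨N, hN⟩ := h (δ * t / 2) (by positivity)
  refine ⟨N, fun n hn => ?_⟩
  have h1 := hN n hn
  rw [Real.dist_eq, sub_zero] at h1 ⊢
  have h2 : ∫ x, f n x ^ 2 ∂μ < δ * t / 2 := lt_of_le_of_lt (le_abs_self _) h1
  rw [abs_of_nonneg (h0 n)]
  have i1 : Integrable (fun x => |f n x|) μ := ((hf n).integrable (by norm_num)).abs
  have i2 : Integrable (fun x => f n x ^ 2) μ := (hf n).integrable_sq
  have i3 : Integrable (fun _ : E3 => t / 2) μ := integrable_const _
  have h3 : ∫ x, |f n x| ∂μ ≤ ∫ x, (t / 2 + 1 / (2 * t) * f n x ^ 2) ∂μ := by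
    refine integral_mono i1 (i3.add (i2.const_mul _)) fun x => ?_
    show |f n x| ≤ t / 2 + 1 / (2 * t) * f n x ^ 2
    have e : t / 2 + 1 / (2 * t) * f n x ^ 2 - |f n x| = (t - |f n x|) ^ 2 / (2 * t) := by
      rw [← sq_abs (f n x)]
      field_simp
      ring
    have : 0 ≤ (t - |f n x|) ^ 2 / (2 * t) := by positivity
    linarith
  have h4 : ∫ x, (t / 2 + 1 / (2 * t) * f n x ^ 2) ∂μ
      = t / 2 * V + 1 / (2 * t) * ∫ x, f n x ^ 2 ∂μ := by
    rw [integral_add i3 (i2.const_mul _), integral_const, integral_const_mul, smul_eq_mul, hV]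
    ring
  have h5 : t / 2 * V < δ / 2 := by
    have : t * (V + 1) = δ := by
      rw [ht]
      field_simp
    nlinarith
  have h6 : 1 / (2 * t) * ∫ x, f n x ^ 2 ∂μ ≤ δ / 4 := by
    have : 1 / (2 * t) * ∫ x, f n x ^ 2 ∂μ ≤ 1 / (2 * t) * (δ * t / 2) :=
      mul_le_mul_of_nonneg_left h2.le (by positivity)
    have e : 1 / (2 * t) * (δ * t / 2) = δ / 4 := by
      field_simp
      ring
    linarith
  linarith

end H2L

open H2L in
theorem t_H2L : Stmt_H2L := by
  intro U K w G M H hK hKU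
  have := fin_restrict hK
  refine ⟨H.cont.mono hKU, fun i => ?_, ?_⟩
  · exact (H.memG K hK hKU i).integrable (by norm_num)
  · obtain ⟨v, hv, hu, hG, -⟩ := H.approx K hK hKU
    refine ⟨v, hv, hu, fun i => ?_⟩
    refine tendsto_L1 (f := fun n x => pd i (v n) x - G x i) (fun n => ?_) (hG i)
    exact (memLp_cont hK (pd_contDiff (hv n) i).continuous).sub (H.memG K hK hKU i)

end Pool.Agent.PFT
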