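import Pool.Agent.PFT.StmtsCAP
import Pool.Agent.PFlow.E.BARB
import Pool.Agent.PFlow.E.AFD

/-!
# Module JCO: jets of the composition with the inversion
-/

open MeasureTheory Filter Topology
open scoped ContDiff ENNReal

namespace Pool.Agent.PFT

open Pool.Agent.PenroseSph Pool.Agent.PFlow

namespace JCOAux

open Pool.Agent.PFlow.BARBm Pool.Agent.PFlow.AFDaux

theorem smooth_inversion {x : E3} (hx : x ≠ 0) : ContDiffAt ℝ ∞ inversion x := by
  unfold inversion
  exact (contDiffOn_normSq_inv.contDiffAt (isOpen_compl_zero.mem_nhds hx)).smul contDiffAt_id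

theorem smooth_coord {x : E3} (hx : x ≠ 0) (c : Fin 3) :
    ContDiffAt ℝ ∞ (fun y => inversion y c) x :=
  PenroseConvex.COVC.coord_contDiffAt (smooth_inversion hx) c

theorem pdc {f h : E3 → ℝ} {x : E3} (i : Fin 3) (e : f =ᶠ[𝓝 x] h) : pd i f x = pd i h x := by
  unfold pd
  rw [e.fderiv_eq]

theorem pdm {f h : E3 → ℝ} {x : E3} (i : Fin 3) (hf : DifferentiableAt ℝ f x)
    (hh : DifferentiableAt ℝ h x) :
    pd i (fun y => f y * h y) x = f x * pd i h x + h x * pd i f x := by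
  unfold pd
  rw [fderiv_fun_mul hf hh]
  rfl

theorem pds {f : Fin 3 → E3 → ℝ} {x : E3} (i : Fin 3) (hf : ∀ c, DifferentiableAt ℝ (f c) x) :
    pd i (fun y => ∑ c, f c y) x = ∑ c, pd i (f c) x := by
  unfold pd
  rw [fderiv_fun_sum fun c _ => hf c, ContinuousLinearMap.sum_apply]

theorem pd_smooth {f : E3 → ℝ} {x : E3} (h : ContDiffAt ℝ ∞ f x) (i : Fin 3) :
    ContDiffAt ℝ ∞ (pd i f) x := by
  unfold pd
  exact (h.fderiv_right (m := ∞) (by simp)).clm_apply contDiffAt_const

theorem diff {f : E3 → ℝ} {x : E3} (h : ContDiffAt ℝ ∞ f x) : DifferentiableAt ℝ f x :=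
  h.differentiableAt (by simp)

theorem ev_diff {f : E3 → ℝ} {x : E3} (h : ContDiffAt ℝ ∞ f x) :
    ∀ᶠ y in 𝓝 x, DifferentiableAt ℝ f y := by
  have h1 : ContDiffAt ℝ 1 f x := h.of_le (by simp)
  filter_upwards [h1.eventually (by simp)] with y hy
  exact hy.differentiableAt (by simp)

/-- the chain rule -/
theorem chain1 {F : E3 → ℝ} {x : E3} (hx : x ≠ 0) (hF : DifferentiableAt ℝ F (inversion x))
    (k : Fin 3) : pd k (fun y => F (inversion y)) x =
      ∑ c, pd c F (inversion x) * pd k (fun y => inversion y c) x := by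
  rw [PenroseConvex.COVC.pd_comp hF (diff_inversion hx) k]
  rfl

theorem ev_chain1 {F : E3 → ℝ} {x : E3} (hx : x ≠ 0) (hF : ContDiffAt ℝ ∞ F (inversion x))
    (k : Fin 3) : pd k (fun y => F (inversion y)) =ᶠ[𝓝 x]
      fun y => ∑ c, pd c F (inversion y) * pd k (fun z => inversion z c) y := by
  have h1 : ∀ᶠ y in 𝓝 x, DifferentiableAt ℝ F (inversion y) :=
    (smooth_inversion hx).continuousAt.eventually (ev_diff hF)
  filter_upwards [h1, isOpen_compl_singleton.mem_nhds hx] with y h2 h3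
  exact chain1 h3 h2 k

theorem smooth_comp {F : E3 → ℝ} {x : E3} (hx : x ≠ 0) (hF : ContDiffAt ℝ ∞ F (inversion x)) :
    ContDiffAt ℝ ∞ (fun y => F (inversion y)) x := hF.comp x (smooth_inversion hx)

/-- the chain rule for second derivatives -/
theorem chain2 {F : E3 → ℝ} {x : E3} (hx : x ≠ 0) (hF : ContDiffAt ℝ ∞ F (inversion x))
    (k l : Fin 3) : pd k (pd l (fun y => F (inversion y))) x =
      ∑ c, (pd c F (inversion x) * pd k (pd l (fun y => inversion y c)) x +
        pd l (fun y => inversion y c) x *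
          ∑ d, pd d (pd c F) (inversion x) * pd k (fun y => inversion y d) x) := by
  have h1 : ∀ c, DifferentiableAt ℝ (fun y => pd c F (inversion y)) x := fun c =>
    diff (smooth_comp hx (pd_smooth hF c))
  have h2 : ∀ c, DifferentiableAt ℝ (pd l (fun y => inversion y c)) x := fun c =>
    diff (pd_smooth (smooth_coord hx c) l)
  rw [pdc k (ev_chain1 hx hF l), pds (f := fun c y => pd c F (inversion y) *
    pd l (fun z => inversion z c) y) k fun c => (h1 c).fun_mul (h2 c)]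
  refine Finset.sum_congr rfl fun c _ => ?_
  rw [pdm k (h1 c) (h2 c), chain1 hx (diff (pd_smooth hF c)) k]

theorem sum_le {f : Fin 3 → ℝ} {c : ℝ} (h : ∀ i, |f i| ≤ c) : |∑ i, f i| ≤ 3 * c := by
  refine (Finset.abs_sum_le_sum_abs _ _).trans ?_
  refine (Finset.sum_le_sum fun i _ => h i).trans ?_
  simp

theorem mulb {C C' s : ℝ} (hs : 0 < s) {a b : ℤ} {u v : ℝ} (hu : |u| ≤ C * s ^ a)
    (hv : |v| ≤ C' * s ^ b) : |u * v| ≤ C * C' * s ^ (a + b) := by
  rw [abs_mul, zpow_add₀ hs.ne']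
  calc |u| * |v| ≤ (C * s ^ a) * (C' * s ^ b) :=
        mul_le_mul hu hv (abs_nonneg _) ((abs_nonneg _).trans hu)
    _ = C * C' * (s ^ a * s ^ b) := by ring

end JCOAux

open JCOAux in
theorem JCO (hJIN : Stmt_JIN) : Stmt_JCO := by
  intro C a
  obtain ⟨K, hK0, hK⟩ := hJIN
  refine ⟨|C| + 3 * (|C| * K) + 9 * (|C| * K * K) + 1, by positivity, ?_⟩
  intro F x hx hF h0 h1
  have hs : 0 < ‖x‖ := norm_pos_iff.2 hx
  have hI := (hK x hx).2
  have hCa : C ≤ |C| := le_abs_self C
  have hC0 : 0 ≤ |C| := abs_nonneg C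
  have hCK : 0 ≤ |C| * K := mul_nonneg hC0 hK0.le
  have hCKK : 0 ≤ |C| * K * K := mul_nonneg hCK hK0.le
  have h0' : |F (inversion x)| ≤ |C| * ‖x‖ ^ a :=
    h0.trans (mul_le_mul_of_nonneg_right hCa (zpow_pos hs _).le)
  have h1' : ∀ k, |pd k F (inversion x)| ≤ |C| * ‖x‖ ^ (a + 1) := fun k =>
    (h1 k).trans (mul_le_mul_of_nonneg_right hCa (zpow_pos hs _).le)
  have J1 : Jet1 (|C| + 3 * (|C| * K) + 9 * (|C| * K * K) + 1) ‖x‖ a
      (fun y => F (inversion y)) x := by
    refine ⟨smooth_comp hx hF, ?_, ?_⟩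
    · exact h0'.trans (mul_le_mul_of_nonneg_right (by linarith) (zpow_pos hs _).le)
    · intro k
      show |pd k (fun y => F (inversion y)) x| ≤ _
      rw [chain1 hx (diff hF) k]
      have h3 : ∀ c, |pd c F (inversion x) * pd k (fun y => inversion y c) x| ≤
          |C| * K * ‖x‖ ^ (a - 1) := by
        intro c
        have h4 := mulb hs (h1' c) ((hI c).b1 k)
        have e : a + 1 + (-1 - 1) = a - 1 := by ring
        rwa [e] at h4
      refine (sum_le h3).trans ?_
      rw [← mul_assoc]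
      exact mul_le_mul_of_nonneg_right (by linarith) (zpow_pos hs _).le
  refine ⟨J1, fun h2 => ⟨J1.smooth, J1.b0, J1.b1, ?_⟩⟩
  intro k l
  have h2' : ∀ k l, |pd k (pd l F) (inversion x)| ≤ |C| * ‖x‖ ^ (a + 2) := fun k l =>
    (h2 k l).trans (mul_le_mul_of_nonneg_right hCa (zpow_pos hs _).le)
  show |pd k (pd l (fun y => F (inversion y))) x| ≤ _
  rw [chain2 hx hF k l]
  have h3 : ∀ c, |pd c F (inversion x) * pd k (pd l (fun y => inversion y c)) x +
      pd l (fun y => inversion y c) x *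
        ∑ d, pd d (pd c F) (inversion x) * pd k (fun y => inversion y d) x| ≤
      |C| * K * ‖x‖ ^ (a - 2) + 3 * (|C| * K * K) * ‖x‖ ^ (a - 2) := by
    intro c
    refine (abs_add_le _ _).trans (add_le_add ?_ ?_)
    · have h4 := mulb hs (h1' c) ((hI c).b2 k l)
      have e : a + 1 + (-1 - 2) = a - 2 := by ring
      rwa [e] at h4
    · have h5 : ∀ d, |pd d (pd c F) (inversion x) * pd k (fun y => inversion y d) x| ≤
          |C| * K * ‖x‖ ^ a := by
        intro d
        have h6 := mulb hs (h2' d c) ((hI d).b1 k)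
        have e : a + 2 + (-1 - 1) = a := by ring
        rwa [e] at h6
      have h7 := sum_le h5
      rw [← mul_assoc] at h7
      have h8 := mulb hs ((hI c).b1 l) h7
      have e : (-1 : ℤ) - 1 + a = a - 2 := by ring
      rw [e] at h8
      calc _ ≤ K * (3 * (|C| * K)) * ‖x‖ ^ (a - 2) := h8
        _ = 3 * (|C| * K * K) * ‖x‖ ^ (a - 2) := by ring
  refine (sum_le h3).trans ?_
  have e : 3 * (|C| * K * ‖x‖ ^ (a - 2) + 3 * (|C| * K * K) * ‖x‖ ^ (a - 2)) =
      (3 * (|C| * K) + 9 * (|C| * K * K)) * ‖x‖ ^ (a - 2) := by ring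
  rw [e]
  exact mul_le_mul_of_nonneg_right (by linarith) (zpow_pos hs _).le

end Pool.Agent.PFT
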