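import Pool.Agent.PFT.StmtsCAP

/-!
# Block CAP, module JET: the algebra of jets
-/

open MeasureTheory Filter Topology
open scoped ContDiff ENNReal

namespace Pool.Agent.PFT

open Pool.Agent.PenroseSph Pool.Agent.PFlow

namespace JETAux

theorem pd_add {f h : E3 → ℝ} {x : E3} (i : Fin 3) (hf : DifferentiableAt ℝ f x)
    (hh : DifferentiableAt ℝ h x) : pd i (fun y => f y + h y) x = pd i f x + pd i h x := by
  unfold pd
  rw [fderiv_fun_add hf hh]
  rfl

theorem pd_mul {f h : E3 → ℝ} {x : E3} (i : Fin 3) (hf : DifferentiableAt ℝ f x)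
    (hh : DifferentiableAt ℝ h x) :
    pd i (fun y => f y * h y) x = f x * pd i h x + h x * pd i f x := by
  unfold pd
  rw [fderiv_fun_mul hf hh]
  rfl

theorem pd_congr {f h : E3 → ℝ} {x : E3} (i : Fin 3) (e : f =ᶠ[𝓝 x] h) :
    pd i f x = pd i h x := by
  unfold pd
  rw [e.fderiv_eq]

theorem pd_smooth {f : E3 → ℝ} {x : E3} (h : ContDiffAt ℝ ∞ f x) (i : Fin 3) :
    ContDiffAt ℝ ∞ (pd i f) x := by
  unfold pd
  exact (h.fderiv_right (m := ∞) (by simp)).clm_apply contDiffAt_const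

theorem diff {f : E3 → ℝ} {x : E3} (h : ContDiffAt ℝ ∞ f x) : DifferentiableAt ℝ f x :=
  h.differentiableAt (by simp)

theorem ev_diff {f : E3 → ℝ} {x : E3} (h : ContDiffAt ℝ ∞ f x) :
    ∀ᶠ y in 𝓝 x, DifferentiableAt ℝ f y := by
  have h1 : ContDiffAt ℝ 1 f x := h.of_le (by simp)
  filter_upwards [h1.eventually (by simp)] with y hy
  exact hy.differentiableAt (by simp)

theorem pd2_add {f h : E3 → ℝ} {x : E3} (hf : ContDiffAt ℝ ∞ f x) (hh : ContDiffAt ℝ ∞ h x)
    (i j : Fin 3) : pd i (pd j (fun y => f y + h y)) x = pd i (pd j f) x + pd i (pd j h) x := by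
  rw [← pd_add i (diff (pd_smooth hf j)) (diff (pd_smooth hh j))]
  apply pd_congr
  filter_upwards [ev_diff hf, ev_diff hh] with y h1 h2
  exact pd_add j h1 h2

theorem pd2_mul {f h : E3 → ℝ} {x : E3} (hf : ContDiffAt ℝ ∞ f x) (hh : ContDiffAt ℝ ∞ h x)
    (i j : Fin 3) : pd i (pd j (fun y => f y * h y)) x =
      f x * pd i (pd j h) x + h x * pd i (pd j f) x + pd i f x * pd j h x +
        pd i h x * pd j f x := by
  have e : pd i (pd j (fun y => f y * h y)) x =
      pd i (fun y => f y * pd j h y + h y * pd j f y) x := by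
    apply pd_congr
    filter_upwards [ev_diff hf, ev_diff hh] with y h1 h2
    exact pd_mul j h1 h2
  rw [e, pd_add (f := fun y => f y * pd j h y) (h := fun y => h y * pd j f y) i
      ((diff hf).mul (diff (pd_smooth hh j))) ((diff hh).mul (diff (pd_smooth hf j))),
    pd_mul i (diff hf) (diff (pd_smooth hh j)), pd_mul i (diff hh) (diff (pd_smooth hf j))]
  ring

theorem cnn {C s : ℝ} (hs : 0 < s) {a : ℤ} {t : ℝ} (h : |t| ≤ C * s ^ a) : 0 ≤ C := by
  have h1 : 0 < s ^ a := zpow_pos hs a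
  have h2 : 0 ≤ C * s ^ a := (abs_nonneg t).trans h
  by_contra h3
  push Not at h3
  nlinarith

/-- the product of two bounds -/
theorem mulb {C C' s : ℝ} (hs : 0 < s) {a b : ℤ} {u v : ℝ} (hu : |u| ≤ C * s ^ a)
    (hv : |v| ≤ C' * s ^ b) : |u * v| ≤ C * C' * s ^ (a + b) := by
  rw [abs_mul, zpow_add₀ hs.ne']
  calc |u| * |v| ≤ (C * s ^ a) * (C' * s ^ b) :=
        mul_le_mul hu hv (abs_nonneg _) ((abs_nonneg _).trans hu)
    _ = C * C' * (s ^ a * s ^ b) := by ring

theorem jet1_mul {s : ℝ} {x : E3} (hs : 0 < s) {C C' : ℝ} {a b : ℤ} {f f' : E3 → ℝ}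
    (h : Jet1 C s a f x) (h' : Jet1 C' s b f' x) :
    Jet1 (4 * C * C') s (a + b) (fun y => f y * f' y) x := by
  have hC := cnn hs h.b0
  have hC' := cnn hs h'.b0
  have hCC : 0 ≤ C * C' := mul_nonneg hC hC'
  refine ⟨h.smooth.mul h'.smooth, ?_, ?_⟩
  · have h1 := mulb hs h.b0 h'.b0
    have h2 : 0 ≤ C * C' * s ^ (a + b) := mul_nonneg hCC (zpow_pos hs _).le
    calc |f x * f' x| ≤ C * C' * s ^ (a + b) := h1
      _ ≤ 4 * C * C' * s ^ (a + b) := by nlinarith
  · intro k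
    show |pd k (fun y => f y * f' y) x| ≤ _
    rw [pd_mul k (diff h.smooth) (diff h'.smooth)]
    have h1 := mulb hs h.b0 (h'.b1 k)
    have h2 := mulb hs h'.b0 (h.b1 k)
    have e1 : a + (b - 1) = a + b - 1 := by ring
    have e2 : b + (a - 1) = a + b - 1 := by ring
    rw [e1] at h1
    rw [e2] at h2
    have h3 : 0 ≤ C * C' * s ^ (a + b - 1) := mul_nonneg hCC (zpow_pos hs _).le
    have h4 := abs_add_le (f x * pd k f' x) (f' x * pd k f x)
    nlinarith

theorem jet1_of_jet2 {s : ℝ} {x : E3} {C : ℝ} {a : ℤ} {f : E3 → ℝ}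
    (h : Jet2 C s a f x) : Jet1 C s a f x := ⟨h.smooth, h.b0, h.b1⟩

theorem jet2_mul {s : ℝ} {x : E3} (hs : 0 < s) {C C' : ℝ} {a b : ℤ} {f f' : E3 → ℝ}
    (h : Jet2 C s a f x) (h' : Jet2 C' s b f' x) :
    Jet2 (4 * C * C') s (a + b) (fun y => f y * f' y) x := by
  have hC := cnn hs h.b0
  have hC' := cnn hs h'.b0
  have hCC : 0 ≤ C * C' := mul_nonneg hC hC'
  have h1 := jet1_mul hs (jet1_of_jet2 h) (jet1_of_jet2 h')
  refine ⟨h1.smooth, h1.b0, h1.b1, ?_⟩
  intro k l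
  rw [pd2_mul h.smooth h'.smooth]
  have a1 := mulb hs h.b0 (h'.b2 k l)
  have a2 := mulb hs h'.b0 (h.b2 k l)
  have a3 := mulb hs (h.b1 k) (h'.b1 l)
  have a4 := mulb hs (h'.b1 k) (h.b1 l)
  have e1 : a + (b - 2) = a + b - 2 := by ring
  have e2 : b + (a - 2) = a + b - 2 := by ring
  have e3 : a - 1 + (b - 1) = a + b - 2 := by ring
  have e4 : b - 1 + (a - 1) = a + b - 2 := by ring
  rw [e1] at a1
  rw [e2] at a2
  rw [e3] at a3
  rw [e4] at a4
  have b1 := abs_add_le (f x * pd k (pd l f') x + f' x * pd k (pd l f) x + pd k f x * pd l f' x)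
    (pd k f' x * pd l f x)
  have b2 := abs_add_le (f x * pd k (pd l f') x + f' x * pd k (pd l f) x) (pd k f x * pd l f' x)
  have b3 := abs_add_le (f x * pd k (pd l f') x) (f' x * pd k (pd l f) x)
  have e5 : C' * C * s ^ (a + b - 2) = C * C' * s ^ (a + b - 2) := by ring
  rw [e5] at a2 a4
  have e6 : 4 * C * C' * s ^ (a + b - 2) = 4 * (C * C' * s ^ (a + b - 2)) := by ring
  rw [e6]
  linarith

theorem jet1_add {s : ℝ} {x : E3} {C C' : ℝ} {a : ℤ} {f f' : E3 → ℝ}
    (h : Jet1 C s a f x) (h' : Jet1 C' s a f' x) :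
    Jet1 (C + C') s a (fun y => f y + f' y) x := by
  refine ⟨h.smooth.add h'.smooth, ?_, ?_⟩
  · have h1 := abs_add_le (f x) (f' x)
    have h2 := h.b0
    have h3 := h'.b0
    show |f x + f' x| ≤ _
    rw [add_mul]
    linarith
  · intro k
    rw [pd_add k (diff h.smooth) (diff h'.smooth), add_mul]
    have h1 := abs_add_le (pd k f x) (pd k f' x)
    have h2 := h.b1 k
    have h3 := h'.b1 k
    linarith

theorem jet2_add {s : ℝ} {x : E3} {C C' : ℝ} {a : ℤ} {f f' : E3 → ℝ}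
    (h : Jet2 C s a f x) (h' : Jet2 C' s a f' x) :
    Jet2 (C + C') s a (fun y => f y + f' y) x := by
  have h1 := jet1_add (jet1_of_jet2 h) (jet1_of_jet2 h')
  refine ⟨h1.smooth, h1.b0, h1.b1, ?_⟩
  intro k l
  rw [pd2_add h.smooth h'.smooth, add_mul]
  have h1 := abs_add_le (pd k (pd l f) x) (pd k (pd l f') x)
  have h2 := h.b2 k l
  have h3 := h'.b2 k l
  linarith

theorem sum3 (f : Fin 3 → E3 → ℝ) : (fun y => ∑ i, f i y) = fun y => (f 0 y + f 1 y) + f 2 y := by
  funext y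
  rw [Fin.sum_univ_three]

end JETAux

theorem JET : Stmt_JET := by
  intro s x hs
  refine ⟨fun C C' a b f f' h h' => JETAux.jet1_mul hs h h',
    fun C C' a b f f' h h' => JETAux.jet2_mul hs h h',
    fun C C' a f f' h h' => JETAux.jet1_add h h',
    fun C C' a f f' h h' => JETAux.jet2_add h h', ?_, ?_,
    fun C a f h => JETAux.jet1_of_jet2 h⟩
  · intro C a f h
    rw [JETAux.sum3 f]
    have h1 := JETAux.jet1_add (JETAux.jet1_add (h 0) (h 1)) (h 2)
    have e : C + C + C = 3 * C := by ring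
    rw [e] at h1
    exact h1
  · intro C a f h
    rw [JETAux.sum3 f]
    have h1 := JETAux.jet2_add (JETAux.jet2_add (h 0) (h 1)) (h 2)
    have e : C + C + C = 3 * C := by ring
    rw [e] at h1
    exact h1

end Pool.Agent.PFT
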