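import Pool.Agent.PFT.StmtsE
import Pool.Agent.PFlow.E.UPH

/-!
# Module JUU: the upper bound for the flux depends on `ε` and `γ` only
-/

open MeasureTheory Filter Topology
open scoped ContDiff ENNReal

namespace Pool.Agent.PFT

open Pool.Agent.PenroseSph Pool.Agent.PFlow

namespace JUU

/-- The window constant of the abstract facts may be replaced. -/
theorem abs_window {ε : ℝ} {Ω : Set E3} {vol w X Φ D S : E3 → ℝ} {sb s₂ sM B₁ B₁' B₂ : ℝ}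
    (hA : Abs ε Ω vol w X Φ D S sb s₂ sM B₁ B₂)
    (h : ∀ s, s₂ ≤ s → s + 1 ≤ sM →
      ∫ x in Ω ∩ {x | s < w x ∧ w x < s + 1}, X x ^ 3 * vol x ≤ B₁') :
    Abs ε Ω vol w X Φ D S sb s₂ sM B₁' B₂ where
  measOmega := hA.measOmega
  vol_nonneg := hA.vol_nonneg
  X_nonneg := hA.X_nonneg
  D_nonneg := hA.D_nonneg
  meas_w := hA.meas_w
  int_vol := hA.int_vol
  int_X := hA.int_X
  meas_X := hA.meas_X
  int_Phi := hA.int_Phi
  int_D := hA.int_D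
  int_S := hA.int_S
  mi := hA.mi
  xid := hA.xid
  window := h
  inner := hA.inner
  willmore := hA.willmore
  flux := hA.flux

/-- The volume density of the modified metric is one in the flat region. -/
theorem vol_one {Q : Par} {D : Dat} (hD : Setup Q D) {x : E3} (hx : 2 * D.l ≤ ‖x‖) :
    D.vol x = 1 := by
  show Real.sqrt (D.g' x).det = 1
  rw [hD.modified.flat x hx, Matrix.det_one, Real.sqrt_one]

end JUU

open JUU in
theorem t_JUU (hXWOU : Stmt_XWOU) (hSETW : Stmt_SETW) (hJUP : Stmt_JUP) (hFLXA : Stmt_FLXA) :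
    Stmt_JUU := by
  intro ε γ β he he2 hg hβ
  obtain ⟨B₀, hB₀, hwin⟩ := hXWOU ε γ he he2 hg
  obtain ⟨CJ, hCJ, hJ⟩ := hJUP ε β he he2 hβ
  set K := kE ε γ with hK
  set v₁ := volume.real (Metric.ball (0 : E3) 1) with hv₁
  set V₀ := v₁ * K ^ 3 with hV₀
  set J₁ := CJ * (4 ^ (-(2 - ε)) * Real.exp (-γ)) * B₀ ^ ((1 + ε) / 3) * V₀ ^ ((2 - ε) / 3)
    with hJ₁
  have hK0 : 0 < K := mul_pos (by norm_num) (Real.exp_pos _)
  have hv0 : 0 ≤ v₁ := measureReal_nonneg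
  have hV0 : 0 ≤ V₀ := by positivity
  have hJ0 : 0 ≤ J₁ := by positivity
  refine ⟨J₁ + 1, by positivity, ?_⟩
  intro Q D B hQe hQg hD hA
  have hA' : Abs Q.eps D.Om D.vol (D.w Q) (D.X Q) (D.Phi Q) (D.Di Q) (D.Su Q) (D.sb Q) (D.s2 Q)
      (D.sM Q) B₀ (B * D.l ^ (-(2 * pe Q.eps + 1))) :=
    abs_window hA fun s h1 h2 => hwin Q D hQe hQg hD s h1 h2
  obtain ⟨-, -, -, -, -, -, -, -, -, -, hs2, -, -, hKl, -, hsb0, hsb1, -, hs21, hsM, -, hlK⟩ :=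
    hSETW Q D hD
  have hgam := hD.gam_pos
  have hl4 : 4 ≤ D.l := hD.l_ge
  have hl0 : 0 < D.l := by linarith
  have hKlv : D.Kl Q = K * D.l := by
    show kE Q.eps Q.gam * D.l = K * D.l
    rw [hQe, hQg]
  have hs2v : D.s2 Q = s2E ε γ D.l := by
    show s2E Q.eps Q.gam D.l = s2E ε γ D.l
    rw [hQe, hQg]
  have hsbs : D.sb Q < D.s2 Q := by linarith
  constructor
  · exact (hFLXA Q.eps β (hQe ▸ he) (hQe ▸ he2) hβ D.Om D.vol (D.w Q) (D.X Q) (D.Phi Q) (D.Di Q)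
      (D.Su Q) (D.sb Q) (D.s2 Q) (D.sM Q) B₀ _ hA' hsb0 hsbs (by linarith)).1
  -- the volume of the window
  set A : Set E3 := cAnn (2 * D.l) (D.Kl Q) with hAdef
  have hAm : MeasurableSet A := UphM.measurableSet_cAnn _ _
  have hfin := UphM.vol_cAnn (a := 2 * D.l) (b := D.Kl Q) (by rw [hKlv]; positivity)
  have ic : IntegrableOn (fun _ : E3 => (1 : ℝ)) A := integrableOn_const hfin.1
  have hvA : ∀ x ∈ A, D.vol x = 1 := fun x hx => vol_one hD hx.1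
  have ivA : IntegrableOn D.vol A := ic.congr_fun (fun x hx => (hvA x hx).symm) hAm
  have hVA : ∫ x in A, D.vol x ≤ V₀ * D.l ^ 3 := by
    calc ∫ x in A, D.vol x = ∫ _x in A, (1 : ℝ) :=
          setIntegral_congr_fun hAm fun x hx => hvA x hx
      _ = volume.real A := by rw [setIntegral_const, smul_eq_mul, mul_one]
      _ ≤ v₁ * (D.Kl Q) ^ 3 := hfin.2
      _ = V₀ * D.l ^ 3 := by rw [hKlv, hV₀]; ring
  have hV' : ∫ x in D.Om ∩ {x | D.s2 Q < D.w Q x ∧ D.w Q x < D.s2 Q + 1}, D.vol x ≤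
      V₀ * D.l ^ 3 := by
    refine le_trans ?_ hVA
    refine setIntegral_mono_set ivA (Eventually.of_forall fun x => hA.vol_nonneg x)
      (Eventually.of_forall fun x hx => ?_)
    have h1 : 4 * D.l ≤ ‖x‖ := hs2 x hx.1 hx.2.1.le
    exact ⟨by linarith, hKl x hx.1 hx.2.2⟩
  have h1 := hJ D.Om D.vol (D.w Q) (D.X Q) (D.Phi Q) (D.Di Q) (D.Su Q) (D.sb Q) (D.s2 Q)
    (D.sM Q) B₀ (B * D.l ^ (-(2 * pe Q.eps + 1))) (V₀ * D.l ^ 3) (hQe ▸ hA') hsb0 hsbs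
    (by linarith) hV'
  rw [hQe]
  refine (h1.trans (le_of_eq ?_)).trans (by linarith : J₁ ≤ J₁ + 1)
  have h2 : (V₀ * D.l ^ 3) ^ ((2 - ε) / 3) = V₀ ^ ((2 - ε) / 3) * D.l ^ (2 - ε) := by
    rw [Real.mul_rpow hV0 (by positivity)]
    congr 1
    rw [← Real.rpow_natCast, ← Real.rpow_mul hl0.le]
    congr 1
    push_cast
    ring
  have h3 : D.l ^ (-(2 - ε)) * D.l ^ (2 - ε) = 1 := by
    rw [← Real.rpow_add hl0]
    simp
  rw [hs2v, UphM.exp_neg_s2 hl0, h2, hJ₁]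
  calc CJ * (4 ^ (-(2 - ε)) * Real.exp (-γ) * D.l ^ (-(2 - ε))) * B₀ ^ ((1 + ε) / 3) *
        (V₀ ^ ((2 - ε) / 3) * D.l ^ (2 - ε))
      = CJ * (4 ^ (-(2 - ε)) * Real.exp (-γ)) * B₀ ^ ((1 + ε) / 3) * V₀ ^ ((2 - ε) / 3) *
        (D.l ^ (-(2 - ε)) * D.l ^ (2 - ε)) := by ring
    _ = CJ * (4 ^ (-(2 - ε)) * Real.exp (-γ)) * B₀ ^ ((1 + ε) / 3) * V₀ ^ ((2 - ε) / 3) := by
        rw [h3, mul_one]

end Pool.Agent.PFT
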