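import Pool.Agent.PFT.StmtsA

/-!
# LAC: smooth functions of functions of class `W^{1,1}`
-/

open MeasureTheory Filter Topology
open scoped ContDiff ENNReal

namespace Pool.Agent.PFT

open Pool.Agent.PenroseSph Pool.Agent.PFlow

namespace LAC

/-- The composition with a continuous function respects the uniform convergence on compact sets. -/
theorem unif {m : ℕ} {K : Set E3} (hK : IsCompact K) {w : Fin m → E3 → ℝ}
    {v : Fin m → ℕ → E3 → ℝ}
    (hw : ∀ i, ContinuousOn (w i) K) (hv : ∀ i, TendstoUniformlyOn (v i) (w i) atTop K)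
    {H : (Fin m → ℝ) × E3 → ℝ} (hH : Continuous H) :
    TendstoUniformlyOn (fun n x => H (fun i => v i n x, x)) (fun x => H (fun i => w i x, x))
      atTop K := by
  have hqc : ContinuousOn (fun x => ((fun i => w i x, x) : (Fin m → ℝ) × E3)) K :=
    (continuousOn_pi.2 hw).prodMk continuousOn_id
  have hC := hK.image_of_continuousOn hqc
  have hC' := hC.cthickening (r := 1)
  have hU := hC'.uniformContinuousOn_of_continuous hH.continuousOn
  rw [Metric.tendstoUniformlyOn_iff]
  intro ε hε
  obtain ⟨δ, hδ, hδ'⟩ := Metric.uniformContinuousOn_iff.1 hU ε hε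
  have hδ1 : 0 < min δ 1 := lt_min hδ one_pos
  have hev : ∀ᶠ n in atTop, ∀ i, ∀ x ∈ K, dist (w i x) (v i n x) < min δ 1 := by
    rw [eventually_all]
    intro i
    exact (Metric.tendstoUniformlyOn_iff.1 (hv i)) _ hδ1
  filter_upwards [hev] with n hn x hx
  have hd : dist ((fun i => w i x, x) : (Fin m → ℝ) × E3) (fun i => v i n x, x) < min δ 1 := by
    rw [Prod.dist_eq]
    simp only [dist_self]
    refine max_lt ?_ hδ1
    exact (dist_pi_lt_iff hδ1).2 fun i => hn i x hx
  apply hδ'
  · exact Metric.self_subset_cthickening _ (Set.mem_image_of_mem _ hx)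
  · refine Metric.mem_cthickening_of_dist_le _ _ _ _ (Set.mem_image_of_mem _ hx) ?_
    rw [dist_comm]
    exact (hd.trans_le (min_le_right _ _)).le
  · exact hd.trans_le (min_le_left _ _)

/-- The chain rule. -/
theorem pdcomp {m : ℕ} {Θ : (Fin m → ℝ) × E3 → ℝ} (hΘ : ContDiff ℝ ∞ Θ) {v : Fin m → E3 → ℝ}
    (hv : ∀ i, ContDiff ℝ ∞ (v i)) (l : Fin 3) (x : E3) :
    pd l (fun y => Θ (fun i => v i y, y)) x
      = (∑ i, fderiv ℝ Θ (fun i => v i x, x) (Pi.single i 1, 0) * pd l (v i) x)
        + fderiv ℝ Θ (fun i => v i x, x) (0, EuclideanSpace.single l 1) := by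
  have h1 : ∀ i, HasFDerivAt (v i) (fderiv ℝ (v i) x) x := fun i =>
    ((hv i).differentiable (by simp) x).hasFDerivAt
  have h2 : HasFDerivAt (fun y => fun i => v i y)
      (ContinuousLinearMap.pi fun i => fderiv ℝ (v i) x) x := hasFDerivAt_pi.2 h1
  have h3 : HasFDerivAt (fun y : E3 => ((fun i => v i y, y) : (Fin m → ℝ) × E3))
      ((ContinuousLinearMap.pi fun i => fderiv ℝ (v i) x).prod (ContinuousLinearMap.id ℝ E3)) x :=
    h2.prodMk (hasFDerivAt_id x)
  have h4 : HasFDerivAt Θ (fderiv ℝ Θ (fun i => v i x, x)) (fun i => v i x, x) :=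
    (hΘ.differentiable (by simp) _).hasFDerivAt
  have h5 := HasFDerivAt.comp (g := Θ) (f := fun y : E3 => ((fun i => v i y, y) : (Fin m → ℝ) × E3))
    x h4 h3
  have h6 : fderiv ℝ (fun y => Θ (fun i => v i y, y)) x
      = (fderiv ℝ Θ (fun i => v i x, x)).comp
        ((ContinuousLinearMap.pi fun i => fderiv ℝ (v i) x).prod
          (ContinuousLinearMap.id ℝ E3)) := h5.fderiv
  have dec : ((fun i => fderiv ℝ (v i) x (EuclideanSpace.single l 1),
      EuclideanSpace.single l 1) : (Fin m → ℝ) × E3)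
      = (∑ i, (fderiv ℝ (v i) x (EuclideanSpace.single l 1))
          • ((Pi.single i 1, 0) : (Fin m → ℝ) × E3)) + (0, EuclideanSpace.single l 1) := by
    refine Prod.ext ?_ ?_
    · funext j
      simp [Prod.fst_sum, Finset.sum_apply, Pi.single_apply]
    · simp [Prod.snd_sum]
  have h7 : ((fderiv ℝ Θ (fun i => v i x, x)).comp
        ((ContinuousLinearMap.pi fun i => fderiv ℝ (v i) x).prod
          (ContinuousLinearMap.id ℝ E3))) (EuclideanSpace.single l 1)
      = fderiv ℝ Θ (fun i => v i x, x) (fun i => fderiv ℝ (v i) x (EuclideanSpace.single l 1),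
      EuclideanSpace.single l 1) := rfl
  unfold pd
  rw [h6, h7, dec, map_add, map_sum]
  congr 1
  refine Finset.sum_congr rfl fun i _ => ?_
  rw [map_smul, smul_eq_mul, mul_comm]

theorem pd_cont {f : E3 → ℝ} (hf : ContDiff ℝ ∞ f) (l : Fin 3) : Continuous (pd l f) :=
  (hf.continuous_fderiv (by simp)).clm_apply continuous_const

/-- The pointwise bound. -/
theorem ptw {m : ℕ} (a a' p g C : Fin m → ℝ) (b b' η : ℝ) (hη : η ≤ 1)
    (ha : ∀ i, |a i - a' i| ≤ η) (hC : ∀ i, |a' i| ≤ C i) (hb : |b - b'| ≤ η) :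
    |(∑ i, a i * p i + b) - (∑ i, a' i * g i + b')|
      ≤ (∑ i, ((C i + 1) * |p i - g i| + η * |g i|)) + η := by
  have e : (∑ i, a i * p i + b) - (∑ i, a' i * g i + b')
      = (∑ i, (a i * (p i - g i) + (a i - a' i) * g i)) + (b - b') := by
    have : ∑ i, (a i * (p i - g i) + (a i - a' i) * g i) = ∑ i, a i * p i - ∑ i, a' i * g i := by
      rw [← Finset.sum_sub_distrib]
      exact Finset.sum_congr rfl fun i _ => by ring
    rw [this]
    ring
  rw [e]
  refine (abs_add_le _ _).trans (add_le_add ?_ hb)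
  refine (Finset.abs_sum_le_sum_abs _ _).trans (Finset.sum_le_sum fun i _ => ?_)
  refine (abs_add_le _ _).trans (add_le_add ?_ ?_)
  · rw [abs_mul]
    refine mul_le_mul_of_nonneg_right ?_ (abs_nonneg _)
    have : |a i| ≤ |a' i| + |a i - a' i| := by
      have := abs_add_le (a' i) (a i - a' i)
      rwa [add_sub_cancel] at this
    linarith [hC i, ha i]
  · rw [abs_mul]
    exact mul_le_mul_of_nonneg_right (ha i) (abs_nonneg _)

end LAC

open LAC in
theorem t_LAC : Stmt_LAC := by
  intro m K w G Θ hK hΘ h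
  choose v hvs hvu hvi using fun i => (h i).approx
  have hd : Continuous (fderiv ℝ Θ) := hΘ.continuous_fderiv (by simp)
  have hw := fun i => (h i).cont
  have hAc : ∀ i : Fin m, Continuous (fun z => fderiv ℝ Θ z (Pi.single i 1, 0)) := fun i =>
    hd.clm_apply continuous_const
  have hBc : ∀ l : Fin 3, Continuous (fun z => fderiv ℝ Θ z (0, EuclideanSpace.single l 1)) :=
    fun l => hd.clm_apply continuous_const
  have hqc : ContinuousOn (fun x => ((fun i => w i x, x) : (Fin m → ℝ) × E3)) K :=
    (continuousOn_pi.2 hw).prodMk continuousOn_id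
  have hAK : ∀ i : Fin m, ContinuousOn
      (fun x => fderiv ℝ Θ (fun i => w i x, x) (Pi.single i 1, 0)) K := fun i =>
    (hAc i).comp_continuousOn hqc
  have hBK : ∀ l : Fin 3, ContinuousOn
      (fun x => fderiv ℝ Θ (fun i => w i x, x) (0, EuclideanSpace.single l 1)) K := fun l =>
    (hBc l).comp_continuousOn hqc
  have hint : ∀ l, IntegrableOn (fun x => (∑ i, fderiv ℝ Θ (fun i => w i x, x)
      (Pi.single i 1, 0) * G i x l)
        + fderiv ℝ Θ (fun i => w i x, x) (0, EuclideanSpace.single l 1)) K := by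
    intro l
    refine Integrable.add ?_ ((hBK l).integrableOn_compact hK)
    exact integrable_finset_sum _ fun i _ => ((h i).int l).continuousOn_mul (hAK i) hK
  have hFs : ∀ n, ContDiff ℝ ∞ (fun x => Θ (fun i => v i n x, x)) := fun n =>
    hΘ.comp ((contDiff_pi.2 fun i => hvs i n).prodMk contDiff_id)
  refine ⟨hΘ.continuous.comp_continuousOn hqc, hint, fun n x => Θ (fun i => v i n x, x), hFs,
    unif hK hw hvu hΘ.continuous, ?_⟩
  intro l
  choose C hC using fun i => hK.exists_bound_of_continuousOn (hAK i)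
  set S : ℝ := (∑ i, ∫ x in K, |G i x l|) + (volume : Measure E3).real K with hS
  have hS0 : 0 ≤ S := by
    have h1 : 0 ≤ ∑ i, ∫ x in K, |G i x l| :=
      Finset.sum_nonneg fun i _ => integral_nonneg fun x => abs_nonneg _
    have h2 : 0 ≤ (volume : Measure E3).real K := measureReal_nonneg
    linarith
  have hI : Tendsto (fun n => ∑ i, (C i + 1) * ∫ x in K, |pd l (v i n) x - G i x l|) atTop
      (𝓝 0) := by
    have : Tendsto (fun n => ∑ i, (C i + 1) * ∫ x in K, |pd l (v i n) x - G i x l|) atTop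
        (𝓝 (∑ i : Fin m, (C i + 1) * 0)) :=
      tendsto_finsetSum _ fun i _ => (hvi i l).const_mul (C i + 1)
    simpa using this
  have hfin : volume K ≠ ⊤ := hK.measure_lt_top.ne
  have hGi : ∀ i, IntegrableOn (fun x => |G i x l|) K := fun i => ((h i).int l).abs
  have hpG : ∀ i n, IntegrableOn (fun x => |pd l (v i n) x - G i x l|) K := fun i n =>
    (((pd_cont (hvs i n) l).continuousOn.integrableOn_compact hK).sub ((h i).int l)).abs
  rw [Metric.tendsto_nhds]
  intro ε hε
  set η : ℝ := min 1 (ε / (2 * (S + 1))) with hη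
  have hη0 : 0 < η := lt_min one_pos (by positivity)
  have hη1 : η ≤ 1 := min_le_left _ _
  have hηS : η * S < ε / 2 := by
    have h1 : η * S ≤ ε / (2 * (S + 1)) * S :=
      mul_le_mul_of_nonneg_right (min_le_right _ _) hS0
    have h2 : ε / (2 * (S + 1)) * S < ε / 2 := by
      rw [div_mul_eq_mul_div, div_lt_div_iff₀ (by positivity) (by norm_num)]
      nlinarith
    linarith
  have e1 : ∀ᶠ n in atTop, ∀ i, ∀ x ∈ K,
      |fderiv ℝ Θ (fun i => v i n x, x) (Pi.single i 1, 0)
        - fderiv ℝ Θ (fun i => w i x, x) (Pi.single i 1, 0)| ≤ η := by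
    rw [eventually_all]
    intro i
    filter_upwards [Metric.tendstoUniformlyOn_iff.1 (unif hK hw hvu (hAc i)) η hη0] with n hn x hx
    have := hn x hx
    rw [dist_comm, Real.dist_eq] at this
    exact this.le
  have e2 : ∀ᶠ n in atTop, ∀ x ∈ K,
      |fderiv ℝ Θ (fun i => v i n x, x) (0, EuclideanSpace.single l 1)
        - fderiv ℝ Θ (fun i => w i x, x) (0, EuclideanSpace.single l 1)| ≤ η := by
    filter_upwards [Metric.tendstoUniformlyOn_iff.1 (unif hK hw hvu (hBc l)) η hη0] with n hn x hx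
    have := hn x hx
    rw [dist_comm, Real.dist_eq] at this
    exact this.le
  have e3 : ∀ᶠ n in atTop, (∑ i, (C i + 1) * ∫ x in K, |pd l (v i n) x - G i x l|) < ε / 2 :=
    hI.eventually (gt_mem_nhds (half_pos hε))
  filter_upwards [e1, e2, e3] with n h1 h2 h3
  have hnn : 0 ≤ ∫ x in K, |pd l (fun x => Θ (fun i => v i n x, x)) x
      - ((∑ i, fderiv ℝ Θ (fun i => w i x, x) (Pi.single i 1, 0) * G i x l)
        + fderiv ℝ Θ (fun i => w i x, x) (0, EuclideanSpace.single l 1))| :=
    integral_nonneg fun x => abs_nonneg _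
  rw [Real.dist_eq, sub_zero, abs_of_nonneg hnn]
  have hbI : IntegrableOn (fun x => (∑ i, ((C i + 1) * |pd l (v i n) x - G i x l|
      + η * |G i x l|)) + η) K := by
    refine Integrable.add (integrable_finset_sum _ fun i _ => ?_) (integrableOn_const hfin)
    exact ((hpG i n).const_mul _).add ((hGi i).const_mul _)
  have key : ∫ x in K, |pd l (fun x => Θ (fun i => v i n x, x)) x
      - ((∑ i, fderiv ℝ Θ (fun i => w i x, x) (Pi.single i 1, 0) * G i x l)
        + fderiv ℝ Θ (fun i => w i x, x) (0, EuclideanSpace.single l 1))|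
      ≤ ∫ x in K, ((∑ i, ((C i + 1) * |pd l (v i n) x - G i x l| + η * |G i x l|)) + η) := by
    refine setIntegral_mono_on ?_ hbI hK.measurableSet ?_
    · exact (((pd_cont (hFs n) l).continuousOn.integrableOn_compact hK).sub (hint l)).abs
    · intro x hx
      rw [pdcomp hΘ (fun i => hvs i n) l x]
      exact ptw _ _ _ _ C _ _ η hη1 (fun i => h1 i x hx)
        (fun i => by simpa [Real.norm_eq_abs] using hC i x hx) (h2 x hx)
  have hval : ∫ x in K, ((∑ i, ((C i + 1) * |pd l (v i n) x - G i x l| + η * |G i x l|)) + η)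
      = (∑ i, (C i + 1) * ∫ x in K, |pd l (v i n) x - G i x l|) + η * S := by
    have hadd : ∀ i ∈ (Finset.univ : Finset (Fin m)), Integrable (fun x =>
        (C i + 1) * |pd l (v i n) x - G i x l| + η * |G i x l|) (volume.restrict K) := fun i _ =>
      ((hpG i n).const_mul _).add ((hGi i).const_mul _)
    rw [integral_add (integrable_finset_sum _ hadd) (integrableOn_const hfin),
      integral_finset_sum _ hadd]
    have : ∀ i, ∫ x in K, ((C i + 1) * |pd l (v i n) x - G i x l| + η * |G i x l|)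
        = (C i + 1) * (∫ x in K, |pd l (v i n) x - G i x l|) + η * ∫ x in K, |G i x l| := by
      intro i
      rw [integral_add ((hpG i n).const_mul _) ((hGi i).const_mul _), integral_const_mul,
        integral_const_mul]
    rw [Finset.sum_congr rfl fun i _ => this i, Finset.sum_add_distrib, ← Finset.mul_sum,
      setIntegral_const, smul_eq_mul, hS]
    ring
  rw [hval] at key
  linarith

end Pool.Agent.PFT
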