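import Pool.Agent.PFlow.E.RADN
import Pool.Agent.PFlow.M_AP

/-!
# Ball step and connectedness: a Harnack type bound on compact subsets (HAR)

For a connected open set `U`, a lower bound of a solution `u` (or of `1 - u`) on one ball gives a lower bound on
every compact subset of `U`, with a constant which does not depend on the solution.
-/

open MeasureTheory Filter Topology
open scoped ContDiff

set_option autoImplicit false

namespace Pool.Agent.PFT

open Pool.Agent.PenroseSph Pool.Agent.PFlow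

/-- HAR: a Harnack type bound. -/
def Stmt_HAR : Prop :=
  ∀ (ε : ℝ) (H : E3 → ℝ) (U : Set E3) (g : TensorField), 0 < ε → ε ≤ 1 → ContinuousOn H U →
    IsOpen U → IsPreconnected U → MetricOn U g →
    ∀ (z₀ : E3) (r₀ : ℝ) (K : Set E3), 0 < r₀ → Metric.closedBall z₀ r₀ ⊆ U → IsCompact K →
      K ⊆ U → ∃ (K' : Set E3) (c : ℝ), IsCompact K' ∧ K' ⊆ U ∧ 0 < c ∧
        ∀ (a b η : ℝ) (g' h' : TensorField) (u : E3 → ℝ) (G : E3 → Cov) (M : E3 → Bil),
          Solution ε a b η g' h' u G M →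
          (∀ x ∈ K', ∀ᶠ y in 𝓝 x, g' y = g y) → (∀ x ∈ K', ∀ i j, |h' x i j| ≤ H x) →
          ∀ c₀ : ℝ, 0 ≤ c₀ →
            ((K' ⊆ {x : E3 | a / 2 ≤ ‖x‖ ∧ ‖x‖ ≤ b} →
              (∀ x ∈ Metric.closedBall z₀ r₀, c₀ ≤ u x) → ∀ x ∈ K, c * c₀ ≤ u x) ∧
            (K' ⊆ {x : E3 | a ≤ ‖x‖ ∧ ‖x‖ ≤ 2 * b} →
              (∀ x ∈ Metric.closedBall z₀ r₀, u x ≤ 1 - c₀) → ∀ x ∈ K, u x ≤ 1 - c * c₀))

namespace HARAux

/-- the Gaussian bump -/
noncomputable def gb (A : ℝ) (z x : E3) : ℝ := Real.exp (-(A * ‖x - z‖ ^ 2))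

lemma nsq_eq (z x : E3) : ‖x - z‖ ^ 2 = ∑ i, (x i - z i) ^ 2 := by
  rw [EuclideanSpace.norm_sq_eq]
  simp

lemma gb_contDiff (A : ℝ) (z : E3) : ContDiff ℝ ∞ (gb A z) := by
  unfold gb
  exact Real.contDiff_exp.comp ((contDiff_const.mul ((contDiff_id.sub contDiff_const).norm_sq ℝ)).neg)

lemma pd_gb (A : ℝ) (z x : E3) (i : Fin 3) : pd i (gb A z) x = -2 * A * (x i - z i) * gb A z x := by
  have h1 : HasFDerivAt (fun y : E3 => ‖y - z‖ ^ 2)
      (2 • (innerSL ℝ (x - z)) ∘L ContinuousLinearMap.id ℝ E3) x :=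
    HasFDerivAt.norm_sq ((hasFDerivAt_id x).sub_const z)
  have h2 := ((h1.const_mul A).neg).exp
  have h3 : HasFDerivAt (gb A z) _ x := h2
  unfold pd
  rw [h3.fderiv]
  simp only [gb]
  simp [EuclideanSpace.inner_single_right]
  ring

lemma pd_pd_gb (A : ℝ) (z x : E3) (i j : Fin 3) :
    pd i (pd j (gb A z)) x
      = (4 * A ^ 2 * (x i - z i) * (x j - z j) - 2 * A * (if i = j then 1 else 0)) * gb A z x := by
  have h0 : pd j (gb A z) = fun x => -2 * A * (x j - z j) * gb A z x := by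
    funext x
    exact pd_gb A z x j
  have hd : DifferentiableAt ℝ (gb A z) x := (gb_contDiff A z).differentiable (by simp) x
  have h1 : HasFDerivAt (fun x : E3 => x j - z j) (EuclideanSpace.proj j : E3 →L[ℝ] ℝ) x :=
    ((EuclideanSpace.proj j : E3 →L[ℝ] ℝ).hasFDerivAt).sub_const (z j)
  have h2 := (h1.const_mul (-2 * A)).mul hd.hasFDerivAt
  rw [h0]
  unfold pd
  rw [show (fun x : E3 => -2 * A * (x j - z j) * gb A z x)
    = (fun x : E3 => -2 * A * (x j - z j)) * gb A z from rfl, h2.fderiv]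
  have h3 := pd_gb A z x i
  unfold pd at h3
  rw [add_apply, smul_apply, smul_apply, smul_apply, h3]
  have h4 : (EuclideanSpace.proj j : E3 →L[ℝ] ℝ) (EuclideanSpace.single i (1 : ℝ))
      = if i = j then 1 else 0 := by
    simp only [EuclideanSpace.proj, PiLp.proj_apply, PiLp.single_apply]
    by_cases hij : i = j
    · simp [hij]
    · have hji : ¬ j = i := fun h => hij h.symm
      simp [hij, hji]
  rw [h4]
  simp only [smul_eq_mul]
  ring

/-- the vector `x - z` as a covector -/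
def vv (z x : E3) : Cov := fun i => x i - z i

/-- the matrix `δ_ij - Γ^k_ij v_k` -/
noncomputable def SS (g : TensorField) (z x : E3) : Bil :=
  Matrix.of fun i j => (if i = j then 1 else 0) - ∑ k, christoffel g k i j x * vv z x k

lemma vv_ne {z x : E3} (h : x ≠ z) : vv z x ≠ 0 := by
  intro h0
  apply h
  ext i
  have := congrFun h0 i
  simp only [vv, Pi.zero_apply] at this
  linarith

lemma bnn_smul' (g : TensorField) (x : E3) {c : ℝ} (hc : c ≠ 0) (p : Cov) (B : Bil) :
    bnn g x (fun i => c * p i) B = bnn g x p B := by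
  rcases lt_or_gt_of_ne hc with h | h
  · exact RADN.bnn_smul g x h p B
  · have h1 : nrm g x (fun i => c * p i) = nrm g x p := by
      funext i
      unfold nrm
      rw [RADN.raise_smul, RADN.len_smul, abs_of_pos h]
      by_cases hl : len g x p = 0
      · rw [hl]
        simp
      · field_simp
    unfold bnn
    rw [h1]

lemma beps_smul' (ε : ℝ) (g : TensorField) (x : E3) {c : ℝ} (hc : c ≠ 0) (p : Cov) (B : Bil) :
    beps ε g x (fun i => c * p i) B = beps ε g x p B := by
  unfold beps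
  rw [bnn_smul' g x hc]

/-- the operator on the function `k gb + c` -/
lemma opN_gb (ε A k c : ℝ) (g h : TensorField) (z x : E3) (hg : (g x).PosDef) (hxz : x ≠ z)
    (hA : 0 < A) (hk : k ≠ 0) :
    grad (fun y => k * gb A z y + c) x ≠ 0 ∧
    opN ε g h (fun y => k * gb A z y + c) x = (-2 * A * k * gb A z x) *
      (-2 * A * (ε * len g x (vv z x) ^ 2) + beps ε g x (vv z x) (SS g z x))
      + |(-2 * A * k * gb A z x)| * (len g x (vv z x) * beps ε g x (vv z x) (h x)) := by
  have hgb : 0 < gb A z x := Real.exp_pos _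
  have hdf : ∀ y, DifferentiableAt ℝ (gb A z) y := fun y =>
    (gb_contDiff A z).differentiable (by simp) y
  have hs : (-2 * A * k * gb A z x) ≠ 0 := by
    have : (-2 * A * k * gb A z x) = -(2 * A * gb A z x) * k := by ring
    rw [this]
    exact mul_ne_zero (neg_ne_zero.mpr (by positivity)) hk
  have hpd : ∀ i y, pd i (fun y => k * gb A z y + c) y = k * pd i (gb A z) y := by
    intro i y
    unfold pd
    rw [fderiv_add_const, fderiv_const_mul (hdf y)]
    simp
  have hgrad : grad (fun y => k * gb A z y + c) x = fun i => (-2 * A * k * gb A z x) * vv z x i := by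
    funext i
    unfold grad
    rw [hpd, pd_gb]
    simp only [vv]
    ring
  have hhess : ∀ i j, hess2 (fun y => k * gb A z y + c) x i j
      = k * ((4 * A ^ 2 * (x i - z i) * (x j - z j) - 2 * A * (if i = j then 1 else 0)) * gb A z x) := by
    intro i j
    unfold hess2
    rw [Matrix.of_apply]
    have h1 : pd j (fun y => k * gb A z y + c) = fun y => k * pd j (gb A z) y := by
      funext y
      exact hpd j y
    rw [h1, ← pd_pd_gb]
    have h2 : DifferentiableAt ℝ (pd j (gb A z)) x := by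
      have h3 : pd j (gb A z) = fun x => -2 * A * (x j - z j) * gb A z x := by
        funext x
        exact pd_gb A z x j
      rw [h3]
      have h4 : DifferentiableAt ℝ (fun x : E3 => x j - z j) x :=
        (((EuclideanSpace.proj j : E3 →L[ℝ] ℝ).hasFDerivAt).sub_const (z j)).differentiableAt
      exact (h4.const_mul _).mul (hdf x)
    have h6 : fderiv ℝ (fun y => k * pd j (gb A z) y) x = k • fderiv ℝ (pd j (gb A z)) x :=
      fderiv_const_mul h2 k
    change fderiv ℝ (fun y => k * pd j (gb A z) y) x (EuclideanSpace.single i 1)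
      = k * fderiv ℝ (pd j (gb A z)) x (EuclideanSpace.single i 1)
    rw [h6]
    simp
  have hcH : cHess g x (grad (fun y => k * gb A z y + c) x) (hess2 (fun y => k * gb A z y + c) x)
      = Matrix.of fun i j => (2 * A * (2 * A * k * gb A z x)) *
          (Matrix.of fun i j => vv z x i * vv z x j) i j
        + (-2 * A * k * gb A z x) * SS g z x i j := by
    ext i j
    unfold cHess SS
    rw [Matrix.of_apply, Matrix.of_apply, Matrix.of_apply, Matrix.of_apply, hhess, hgrad]
    have h5 : ∑ k', christoffel g k' i j x * ((-2 * A * k * gb A z x) * vv z x k')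
        = (-2 * A * k * gb A z x) * ∑ k', christoffel g k' i j x * vv z x k' := by
      rw [Finset.mul_sum]
      refine Finset.sum_congr rfl fun k' _ => ?_
      ring
    rw [h5]
    simp only [vv]
    ring
  constructor
  · rw [hgrad]
    intro h0
    apply vv_ne hxz
    funext i
    have := congrFun h0 i
    simp only [Pi.zero_apply] at this
    exact (mul_eq_zero.mp this).resolve_left hs
  · unfold opN
    rw [hcH, hgrad, beps_smul' ε g x hs, beps_smul' ε g x hs, RADN.beps_lin, RADN.len_smul,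
      RADN.beps_self ε hg (vv_ne hxz)]
    ring

/-- the size of the coefficients -/
noncomputable def NN (g : TensorField) (x : E3) (p : Cov) : ℝ :=
  (∑ i, ∑ j, |(g x)⁻¹ i j|) + ∑ i, ∑ j, |nrm g x p i * nrm g x p j|

lemma NN_nonneg (g : TensorField) (x : E3) (p : Cov) : 0 ≤ NN g x p := by
  unfold NN
  exact add_nonneg (Finset.sum_nonneg fun i _ => Finset.sum_nonneg fun j _ => abs_nonneg _)
    (Finset.sum_nonneg fun i _ => Finset.sum_nonneg fun j _ => abs_nonneg _)

lemma beps_bound {ε H : ℝ} (hε : 0 ≤ ε) (hε1 : ε ≤ 1) (g : TensorField) (x : E3) (p : Cov) (B : Bil)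
    (hB : ∀ i j, |B i j| ≤ H) : |beps ε g x p B| ≤ NN g x p * H := by
  have h1 : |trg g x B| ≤ (∑ i, ∑ j, |(g x)⁻¹ i j|) * H := by
    unfold trg
    rw [Finset.sum_mul]
    refine (Finset.abs_sum_le_sum_abs _ _).trans (Finset.sum_le_sum fun i _ => ?_)
    rw [Finset.sum_mul]
    refine (Finset.abs_sum_le_sum_abs _ _).trans (Finset.sum_le_sum fun j _ => ?_)
    rw [abs_mul]
    exact mul_le_mul_of_nonneg_left (hB i j) (abs_nonneg _)
  have h2 : |bnn g x p B| ≤ (∑ i, ∑ j, |nrm g x p i * nrm g x p j|) * H := by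
    unfold bnn ev
    rw [Finset.sum_mul]
    refine (Finset.abs_sum_le_sum_abs _ _).trans (Finset.sum_le_sum fun i _ => ?_)
    rw [Finset.sum_mul]
    refine (Finset.abs_sum_le_sum_abs _ _).trans (Finset.sum_le_sum fun j _ => ?_)
    rw [mul_assoc, abs_mul, mul_comm]
    exact mul_le_mul_of_nonneg_left (hB i j) (abs_nonneg _)
  unfold beps NN
  have h3 : |(1 - ε) * bnn g x p B| ≤ |bnn g x p B| := by
    rw [abs_mul, abs_of_nonneg (by linarith)]
    exact mul_le_of_le_one_left (abs_nonneg _) (by linarith)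
  have h4 := abs_sub (trg g x B) ((1 - ε) * bnn g x p B)
  rw [add_mul]
  linarith

lemma coef {U : Set E3} {g : TensorField} (hU : IsOpen U) (hg : MetricOn U g) {K : Set E3} {z : E3}
    (hK : IsCompact K) (hKU : K ⊆ U) (hz : z ∉ K) :
    ∃ m C : ℝ, 0 < m ∧ 0 ≤ C ∧ ∀ x ∈ K, m ≤ len g x (vv z x) ^ 2 ∧
      (∀ ε : ℝ, 0 ≤ ε → ε ≤ 1 → |beps ε g x (vv z x) (SS g z x)| ≤ C) ∧
      (∀ (ε H : ℝ) (B : Bil), 0 ≤ ε → ε ≤ 1 → 0 ≤ H → (∀ i j, |B i j| ≤ H) →
        |len g x (vv z x) * beps ε g x (vv z x) B| ≤ C * H) := by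
  have cinv : ∀ i j, ContinuousOn (fun x => (g x)⁻¹ i j) K := fun i j => (MAP.contOn_inv hg i j).mono hKU
  have cchr : ∀ k i j, ContinuousOn (fun x => christoffel g k i j x) K := fun k i j =>
    (MAP.contOn_chr hU hg k i j).mono hKU
  have cv : ∀ i, ContinuousOn (fun x => vv z x i) K := by
    intro i
    unfold vv
    exact (((EuclideanSpace.proj i : E3 →L[ℝ] ℝ).continuous).sub continuous_const).continuousOn
  have cev : ContinuousOn (fun x => ev (g x)⁻¹ (vv z x) (vv z x)) K := by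
    unfold ev
    exact continuousOn_finsetSum _ fun i _ => continuousOn_finsetSum _ fun j _ =>
      ((cinv i j).mul (cv i)).mul (cv j)
  have hpos : ∀ x ∈ K, 0 < ev (g x)⁻¹ (vv z x) (vv z x) := by
    intro x hx
    exact RADN.ev_pos (RADN.inv_posDef (hg.posDef x (hKU hx))) (vv_ne fun h => hz (h ▸ hx))
  have clen : ContinuousOn (fun x => len g x (vv z x)) K := by
    unfold len
    exact cev.sqrt
  have hlen : ∀ x ∈ K, 0 < len g x (vv z x) := fun x hx => Real.sqrt_pos.mpr (hpos x hx)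
  have craise : ∀ i, ContinuousOn (fun x => raise g x (vv z x) i) K := by
    intro i
    unfold raise
    exact continuousOn_finsetSum _ fun j _ => (cinv i j).mul (cv j)
  have cnrm : ∀ i, ContinuousOn (fun x => nrm g x (vv z x) i) K := by
    intro i
    unfold nrm
    exact (craise i).div clen fun x hx => (hlen x hx).ne'
  have cN : ContinuousOn (fun x => NN g x (vv z x)) K := by
    unfold NN
    exact (continuousOn_finsetSum _ fun i _ => continuousOn_finsetSum _ fun j _ => (cinv i j).abs).add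
      (continuousOn_finsetSum _ fun i _ => continuousOn_finsetSum _ fun j _ =>
        ((cnrm i).mul (cnrm j)).abs)
  have cS : ContinuousOn (fun x => ∑ i, ∑ j, |SS g z x i j|) K := by
    unfold SS
    simp only [Matrix.of_apply]
    exact continuousOn_finsetSum _ fun i _ => continuousOn_finsetSum _ fun j _ =>
      (continuousOn_const.sub (continuousOn_finsetSum _ fun k _ => (cchr k i j).mul (cv k))).abs
  obtain ⟨CN, hCN⟩ := hK.exists_bound_of_continuousOn cN
  obtain ⟨CL, hCL⟩ := hK.exists_bound_of_continuousOn clen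
  obtain ⟨CS, hCS⟩ := hK.exists_bound_of_continuousOn cS
  obtain ⟨m, hm, hmK⟩ : ∃ m : ℝ, 0 < m ∧ ∀ x ∈ K, m ≤ len g x (vv z x) ^ 2 := by
    rcases K.eq_empty_or_nonempty with h | h
    · exact ⟨1, one_pos, fun x hx => by rw [h] at hx; exact absurd hx (Set.notMem_empty x)⟩
    · obtain ⟨x₀, hx₀, hmin⟩ := hK.exists_isMinOn h (clen.pow 2)
      exact ⟨len g x₀ (vv z x₀) ^ 2, pow_pos (hlen x₀ hx₀) 2, fun x hx => hmin hx⟩
  refine ⟨m, max (|CN| * |CS|) (|CL| * |CN|), hm, le_max_of_le_left (by positivity), fun x hx => ⟨hmK x hx, ?_, ?_⟩⟩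
  · intro ε hε hε1
    have h1 : ∀ i j, |SS g z x i j| ≤ |CS| := by
      intro i j
      have h2 : |SS g z x i j| ≤ ∑ i, ∑ j, |SS g z x i j| :=
        (Finset.single_le_sum (f := fun j => |SS g z x i j|) (fun j _ => abs_nonneg _) (Finset.mem_univ j)).trans
          (Finset.single_le_sum (f := fun i => ∑ j, |SS g z x i j|)
            (fun i _ => Finset.sum_nonneg fun j _ => abs_nonneg _) (Finset.mem_univ i))
      have h3 := hCS x hx
      rw [Real.norm_eq_abs] at h3
      exact h2.trans ((le_abs_self _).trans (h3.trans (le_abs_self _)))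
    have h4 := beps_bound hε hε1 g x (vv z x) (SS g z x) h1
    have h5 : NN g x (vv z x) ≤ |CN| := by
      have := hCN x hx
      rw [Real.norm_eq_abs] at this
      exact (le_abs_self _).trans (this.trans (le_abs_self _))
    exact (h4.trans (mul_le_mul_of_nonneg_right h5 (abs_nonneg _))).trans (le_max_left _ _)
  · intro ε H B hε hε1 hH hB
    have h4 := beps_bound hε hε1 g x (vv z x) B hB
    have h5 : NN g x (vv z x) ≤ |CN| := by
      have := hCN x hx
      rw [Real.norm_eq_abs] at this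
      exact (le_abs_self _).trans (this.trans (le_abs_self _))
    have h6 : len g x (vv z x) ≤ |CL| := by
      have := hCL x hx
      rw [Real.norm_eq_abs] at this
      exact (le_abs_self _).trans (this.trans (le_abs_self _))
    rw [abs_mul, abs_of_pos (hlen x hx)]
    calc len g x (vv z x) * |beps ε g x (vv z x) B| ≤ |CL| * (|CN| * H) := by
          refine mul_le_mul h6 (h4.trans (mul_le_mul_of_nonneg_right h5 hH)) (abs_nonneg _) (abs_nonneg _)
      _ = |CL| * |CN| * H := by ring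
      _ ≤ max (|CN| * |CS|) (|CL| * |CN|) * H := mul_le_mul_of_nonneg_right (le_max_right _ _) hH

lemma christoffel_congr {g g' : TensorField} {x : E3} (h : ∀ᶠ y in 𝓝 x, g' y = g y) (k i j : Fin 3) :
    christoffel g' k i j x = christoffel g k i j x := by
  have hpd : ∀ a b c : Fin 3, pd a (fun y => g' y b c) x = pd a (fun y => g y b c) x := by
    intro a b c
    unfold pd
    have h1 : (fun y => g' y b c) =ᶠ[𝓝 x] (fun y => g y b c) := by
      filter_upwards [h] with y hy
      rw [hy]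
    rw [h1.fderiv_eq]
  unfold christoffel
  rw [h.self_of_nhds]
  simp only [hpd]

lemma opN_congr {ε : ℝ} {g g' h : TensorField} {x : E3} (hh : ∀ᶠ y in 𝓝 x, g' y = g y) (f : E3 → ℝ) :
    opN ε g' h f x = opN ε g h f x := by
  have h0 : g' x = g x := hh.self_of_nhds
  have h1 : ∀ p M, cHess g' x p M = cHess g x p M := by
    intro p M
    unfold cHess
    simp only [christoffel_congr hh]
  have h2 : ∀ p, len g' x p = len g x p := by
    intro p
    unfold len
    rw [h0]
  have h3 : ∀ p B, beps ε g' x p B = beps ε g x p B := by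
    intro p B
    unfold beps trg bnn nrm raise
    simp only [h2, h0]
  unfold opN
  rw [h1, h2, h3, h3]

/-- the closed annulus about `z` -/
def an (z : E3) (r₁ r₂ : ℝ) : Set E3 := {x : E3 | r₁ ≤ ‖x - z‖ ∧ ‖x - z‖ ≤ r₂}

lemma an_compact (z : E3) (r₁ r₂ : ℝ) : IsCompact (an z r₁ r₂) := by
  have h1 : IsClosed (an z r₁ r₂) := by
    have hc : Continuous fun x : E3 => ‖x - z‖ := (continuous_id.sub continuous_const).norm
    exact (isClosed_le continuous_const hc).inter (isClosed_le hc continuous_const)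
  refine (isCompact_closedBall z r₂).of_isClosed_subset h1 fun x hx => ?_
  rw [Metric.mem_closedBall, dist_eq_norm]
  exact hx.2

lemma an_frontier {z : E3} {r₁ r₂ : ℝ} {x : E3} (hx : x ∈ frontier (an z r₁ r₂)) :
    ‖x - z‖ = r₁ ∨ ‖x - z‖ = r₂ := by
  have hc : Continuous fun x : E3 => ‖x - z‖ := (continuous_id.sub continuous_const).norm
  have hcl : x ∈ an z r₁ r₂ := (an_compact z r₁ r₂).isClosed.frontier_subset hx
  by_contra hcon
  push Not at hcon
  have h1 : r₁ < ‖x - z‖ := lt_of_le_of_ne hcl.1 (Ne.symm hcon.1)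
  have h2 : ‖x - z‖ < r₂ := lt_of_le_of_ne hcl.2 hcon.2
  have h3 : x ∈ interior (an z r₁ r₂) := by
    rw [mem_interior]
    refine ⟨{y : E3 | r₁ < ‖y - z‖ ∧ ‖y - z‖ < r₂}, fun y hy => ⟨hy.1.le, hy.2.le⟩, ?_, ⟨h1, h2⟩⟩
    exact (isOpen_lt continuous_const hc).inter (isOpen_lt hc continuous_const)
  exact hx.2 h3

lemma key {ε H : ℝ} {U : Set E3} {g : TensorField} (hε : 0 < ε) (hε1 : ε ≤ 1) (hH : 0 ≤ H)
    (hU : IsOpen U) (hg : MetricOn U g) {z : E3} {r₁ r₂ : ℝ} (h1 : 0 < r₁)
    (hb : Metric.closedBall z r₂ ⊆ U) :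
    ∃ A : ℝ, 0 < A ∧ ∀ (g' h' : TensorField) (x : E3), x ∈ an z r₁ r₂ → (∀ᶠ y in 𝓝 x, g' y = g y) →
      (∀ i j, |h' x i j| ≤ H) → ∀ k c : ℝ, k ≠ 0 → grad (fun y => k * gb A z y + c) x ≠ 0 ∧
        (0 < k → 0 < opN ε g' h' (fun y => k * gb A z y + c) x) ∧
        (k < 0 → opN ε g' h' (fun y => k * gb A z y + c) x < 0) := by
  have hKU : an z r₁ r₂ ⊆ U := fun x hx => hb (by
    rw [Metric.mem_closedBall, dist_eq_norm]
    exact hx.2)
  have hz : z ∉ an z r₁ r₂ := by
    intro h
    have := h.1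
    rw [sub_self, norm_zero] at this
    linarith
  obtain ⟨m, C, hm, hC, hc⟩ := coef hU hg (an_compact z r₁ r₂) hKU hz
  refine ⟨(C + C * H + 1) / (2 * ε * m), by positivity, ?_⟩
  intro g' h' x hx hgg hh k c hk
  set A := (C + C * H + 1) / (2 * ε * m) with hA
  have hA0 : 0 < A := by positivity
  have hAm : 2 * A * (ε * m) = C + C * H + 1 := by
    rw [hA]
    field_simp
  have hxz : x ≠ z := fun h => hz (h ▸ hx)
  obtain ⟨ha, hb'⟩ := opN_gb ε A k c g h' z x (hg.posDef x (hKU hx)) hxz hA0 hk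
  obtain ⟨hc1, hc2, hc3⟩ := hc x hx
  have hc2' := abs_le.mp (hc2 ε hε.le hε1)
  have hc3' := abs_le.mp (hc3 ε H (h' x) hε.le hε1 hH hh)
  have hgb : 0 < gb A z x := Real.exp_pos _
  have hlm : 2 * A * (ε * m) ≤ 2 * A * (ε * len g x (vv z x) ^ 2) :=
    mul_le_mul_of_nonneg_left (mul_le_mul_of_nonneg_left hc1 hε.le) (by positivity)
  refine ⟨ha, fun hk0 => ?_, fun hk0 => ?_⟩
  · rw [opN_congr hgg, hb']
    have hs : -2 * A * k * gb A z x < 0 := by
      have : 0 < 2 * A * k * gb A z x := by positivity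
      linarith
    rw [abs_of_neg hs]
    have : (-2 * A * k * gb A z x) *
        (-2 * A * (ε * len g x (vv z x) ^ 2) + beps ε g x (vv z x) (SS g z x))
        + -(-2 * A * k * gb A z x) * (len g x (vv z x) * beps ε g x (vv z x) (h' x))
        = -(-2 * A * k * gb A z x) * (2 * A * (ε * len g x (vv z x) ^ 2)
          - beps ε g x (vv z x) (SS g z x) + len g x (vv z x) * beps ε g x (vv z x) (h' x)) := by
      ring
    rw [this]
    refine mul_pos (by linarith) ?_
    linarith [hc2'.2, hc3'.1]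
  · rw [opN_congr hgg, hb']
    have hs : 0 < -2 * A * k * gb A z x := by
      have : 0 < 2 * A * (-k) * gb A z x := by
        have : 0 < -k := by linarith
        positivity
      linarith
    rw [abs_of_pos hs, ← mul_add]
    refine mul_neg_of_pos_of_neg hs ?_
    linarith [hc2'.2, hc3'.2]

/-- the admissible functions: `u` or `1 - u`, with the data under control on `K'` -/
def Adm (ε : ℝ) (H : E3 → ℝ) (g : TensorField) (K' : Set E3) (v : E3 → ℝ) : Prop :=
  ∃ (a b η : ℝ) (g' h' : TensorField) (u : E3 → ℝ) (G : E3 → Cov) (M : E3 → Bil),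
    Solution ε a b η g' h' u G M ∧ (∀ x ∈ K', ∀ᶠ y in 𝓝 x, g' y = g y) ∧
    (∀ x ∈ K', ∀ i j, |h' x i j| ≤ H x) ∧
    ((v = u ∧ K' ⊆ {x : E3 | a / 2 ≤ ‖x‖ ∧ ‖x‖ ≤ b}) ∨
      (v = (fun x => 1 - u x) ∧ K' ⊆ {x : E3 | a ≤ ‖x‖ ∧ ‖x‖ ≤ 2 * b}))

lemma Adm.nonneg {ε : ℝ} {H : E3 → ℝ} {g : TensorField} {K' : Set E3} {v : E3 → ℝ} (h : Adm ε H g K' v) (x : E3) :
    0 ≤ v x := by
  obtain ⟨a, b, η, g', h', u, G, M, hS, -, -, h | h⟩ := h
  · rw [h.1]
    exact hS.nonneg x
  · rw [h.1]
    have := hS.le_one x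
    simp only
    linarith

lemma Adm.mono {ε : ℝ} {H : E3 → ℝ} {g : TensorField} {K' K'' : Set E3} {v : E3 → ℝ} (h : Adm ε H g K' v)
    (hK : K'' ⊆ K') : Adm ε H g K'' v := by
  obtain ⟨a, b, η, g', h', u, G, M, hS, h1, h2, h | h⟩ := h
  · exact ⟨a, b, η, g', h', u, G, M, hS, fun x hx => h1 x (hK hx), fun x hx => h2 x (hK hx),
      Or.inl ⟨h.1, hK.trans h.2⟩⟩
  · exact ⟨a, b, η, g', h', u, G, M, hS, fun x hx => h1 x (hK hx), fun x hx => h2 x (hK hx),
      Or.inr ⟨h.1, hK.trans h.2⟩⟩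

/-- the ball step -/
lemma bst {ε : ℝ} {H : E3 → ℝ} {U : Set E3} {g : TensorField} (hε : 0 < ε) (hε1 : ε ≤ 1)
    (hH : ContinuousOn H U)
    (hU : IsOpen U) (hg : MetricOn U g) {z : E3} {r₁ r₂ : ℝ} (h1 : 0 < r₁) (h12 : r₁ < r₂)
    (hb : Metric.closedBall z r₂ ⊆ U) :
    ∃ θ : ℝ, 0 < θ ∧ θ ≤ 1 ∧ ∀ (K' : Set E3) (v : E3 → ℝ), an z r₁ r₂ ⊆ K' → Adm ε H g K' v →
      ∀ c₀ : ℝ, 0 ≤ c₀ → (∀ x ∈ Metric.closedBall z r₁, c₀ ≤ v x) →
        ∀ x ∈ Metric.closedBall z ((r₁ + r₂) / 2), θ * c₀ ≤ v x := by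
  obtain ⟨H₀, hH₀⟩ := (an_compact z r₁ r₂).exists_bound_of_continuousOn (hH.mono fun x hx => hb (by
    rw [Metric.mem_closedBall, dist_eq_norm]
    exact hx.2))
  have hHm : ∀ x ∈ an z r₁ r₂, H x ≤ |H₀| := fun x hx =>
    (le_abs_self _).trans (((Real.norm_eq_abs _).symm.le.trans (hH₀ x hx)).trans (le_abs_self _))
  obtain ⟨A, hA, hkey⟩ := key hε hε1 (abs_nonneg H₀) hU hg h1 hb
  set E : ℝ → ℝ := fun r => Real.exp (-(A * r ^ 2)) with hE
  have hanti : ∀ r s : ℝ, 0 ≤ r → r < s → E s < E r := by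
    intro r s hr hrs
    simp only [hE]
    apply Real.exp_lt_exp.mpr
    have : r ^ 2 < s ^ 2 := by nlinarith
    nlinarith
  have hanti' : ∀ r s : ℝ, 0 ≤ r → r ≤ s → E s ≤ E r := by
    intro r s hr hrs
    rcases hrs.eq_or_lt with h | h
    · rw [h]
    · exact (hanti r s hr h).le
  have hd : 0 < E r₁ - E r₂ := by linarith [hanti r₁ r₂ h1.le h12]
  have hn : 0 < E ((r₁ + r₂) / 2) - E r₂ := by
    linarith [hanti ((r₁ + r₂) / 2) r₂ (by linarith) (by linarith)]
  refine ⟨(E ((r₁ + r₂) / 2) - E r₂) / (E r₁ - E r₂), div_pos hn hd, ?_, ?_⟩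
  · rw [div_le_one hd]
    linarith [hanti r₁ ((r₁ + r₂) / 2) h1.le (by linarith)]
  · intro K' v hK' hv c₀ hc₀ hin x hx
    rw [Metric.mem_closedBall, dist_eq_norm] at hx
    rcases hc₀.eq_or_lt with h0 | h0
    · rw [← h0, mul_zero]
      exact hv.nonneg x
    by_cases hxr : ‖x - z‖ ≤ r₁
    · have h2 := hin x (by rwa [Metric.mem_closedBall, dist_eq_norm])
      refine le_trans ?_ h2
      refine mul_le_of_le_one_left hc₀ ?_
      rw [div_le_one hd]
      linarith [hanti r₁ ((r₁ + r₂) / 2) h1.le (by linarith)]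
    push Not at hxr
    have hxK : x ∈ an z r₁ r₂ := ⟨hxr.le, by linarith⟩
    set k : ℝ := c₀ / (E r₁ - E r₂) with hk
    have hk0 : 0 < k := div_pos h0 hd
    -- the comparison
    have hcmp : k * gb A z x + -(k * E r₂) ≤ v x := by
      have hfr : ∀ y ∈ frontier (an z r₁ r₂), k * gb A z y + -(k * E r₂) ≤ v y := by
        intro y hy
        rcases an_frontier hy with h | h
        · have h2 := hin y (by rw [Metric.mem_closedBall, dist_eq_norm, h])
          have h3 : gb A z y = E r₁ := by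
            simp only [gb, hE, h]
          rw [h3]
          refine le_trans (le_of_eq ?_) h2
          rw [hk]
          field_simp
          ring
        · have h3 : gb A z y = E r₂ := by
            simp only [gb, hE, h]
          rw [h3]
          have := hv.nonneg y
          linarith
      obtain ⟨a, b, η, g', h', u, G, M, hS, hg', hh', h | h⟩ := hv
      · have := hS.sub (an z r₁ r₂) (an_compact z r₁ r₂) (hK'.trans h.2)
          (fun y => k * gb A z y + -(k * E r₂))
          (fun y _ => ((contDiff_const.mul (gb_contDiff A z)).add contDiff_const).contDiffAt.of_le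
            (by norm_cast))
          (fun y hy => ⟨(hkey g' h' y hy (hg' y (hK' hy)) (fun i j => (hh' y (hK' hy) i j).trans (hHm y hy)) k _ hk0.ne').1,
            (hkey g' h' y hy (hg' y (hK' hy)) (fun i j => (hh' y (hK' hy) i j).trans (hHm y hy)) k _ hk0.ne').2.1 hk0⟩)
          (by
            intro y hy
            have := hfr y hy
            rw [h.1] at this
            exact this) x hxK
        rw [h.1]
        exact this
      · have hkn : -k < 0 := by linarith
        have := hS.super (an z r₁ r₂) (an_compact z r₁ r₂) (hK'.trans h.2)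
          (fun y => -k * gb A z y + (1 + k * E r₂))
          (fun y _ => ((contDiff_const.mul (gb_contDiff A z)).add contDiff_const).contDiffAt.of_le
            (by norm_cast))
          (fun y hy => ⟨(hkey g' h' y hy (hg' y (hK' hy)) (fun i j => (hh' y (hK' hy) i j).trans (hHm y hy)) (-k) _ hkn.ne).1,
            (hkey g' h' y hy (hg' y (hK' hy)) (fun i j => (hh' y (hK' hy) i j).trans (hHm y hy)) (-k) _ hkn.ne).2.2 hkn⟩)
          (by
            intro y hy
            have := hfr y hy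
            rw [h.1] at this
            simp only at this ⊢
            linarith) x hxK
        rw [h.1]
        simp only at this ⊢
        linarith
    refine le_trans ?_ hcmp
    have h4 : E ((r₁ + r₂) / 2) ≤ gb A z x := by
      have := hanti' ‖x - z‖ ((r₁ + r₂) / 2) (norm_nonneg _) hx
      simpa only [gb, hE] using this
    have h5 : (E ((r₁ + r₂) / 2) - E r₂) / (E r₁ - E r₂) * c₀ = k * E ((r₁ + r₂) / 2) + -(k * E r₂) := by
      rw [hk]
      field_simp
      ring
    rw [h5]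
    have := mul_le_mul_of_nonneg_left h4 hk0.le
    linarith

/-- the chain argument -/
lemma chain {ε : ℝ} {H : E3 → ℝ} {U : Set E3} {g : TensorField} (hε : 0 < ε) (hε1 : ε ≤ 1)
    (hH : ContinuousOn H U)
    (hU : IsOpen U) (hconn : IsPreconnected U) (hg : MetricOn U g) {z₀ : E3} {r₀ : ℝ} {K : Set E3}
    (hr₀ : 0 < r₀) (hb₀ : Metric.closedBall z₀ r₀ ⊆ U) (hK : IsCompact K) (hKU : K ⊆ U) :
    ∃ (K' : Set E3) (c : ℝ), IsCompact K' ∧ K' ⊆ U ∧ 0 < c ∧
      ∀ v : E3 → ℝ, Adm ε H g K' v → ∀ c₀ : ℝ, 0 ≤ c₀ →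
        (∀ x ∈ Metric.closedBall z₀ r₀, c₀ ≤ v x) → ∀ x ∈ K, c * c₀ ≤ v x := by
  -- the good centres
  set Good : E3 → Prop := fun z => ∃ (r : ℝ) (K' : Set E3) (c : ℝ), 0 < r ∧ IsCompact K' ∧ K' ⊆ U ∧
    0 < c ∧ ∀ v : E3 → ℝ, Adm ε H g K' v → ∀ c₀ : ℝ, 0 ≤ c₀ →
      (∀ x ∈ Metric.closedBall z₀ r₀, c₀ ≤ v x) → ∀ x ∈ Metric.closedBall z r, c * c₀ ≤ v x
    with hGood
  have hz₀ : Good z₀ := ⟨r₀, ∅, 1, hr₀, isCompact_empty, Set.empty_subset _, one_pos,
    fun v _ c₀ _ hin x hx => by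
      rw [one_mul]
      exact hin x hx⟩
  have hz₀U : z₀ ∈ U := hb₀ (Metric.mem_closedBall_self hr₀.le)
  have hopen : IsOpen {z | Good z} := by
    rw [Metric.isOpen_iff]
    rintro z ⟨r, K', c, hr, hK', hKU', hc, h⟩
    refine ⟨r / 2, by linarith, fun z' hz' => ?_⟩
    refine ⟨r / 2, K', c, by linarith, hK', hKU', hc, fun v hv c₀ hc₀ hin x hx => ?_⟩
    refine h v hv c₀ hc₀ hin x ?_
    rw [Metric.mem_ball] at hz'
    rw [Metric.mem_closedBall] at hx ⊢
    linarith [dist_triangle x z' z]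
  have hclosed : closure {z | Good z} ∩ U ⊆ {z | Good z} := by
    rintro z ⟨hzc, hzU⟩
    obtain ⟨ρ, hρ, hρU⟩ := Metric.isOpen_iff.mp hU z hzU
    set r₂ : ℝ := ρ / 2 with hr₂
    have hr₂0 : 0 < r₂ := by rw [hr₂]; linarith
    obtain ⟨z', ⟨r, K', c, hr, hK', hKU', hc, h⟩, hzz'⟩ := Metric.mem_closure_iff.mp hzc (r₂ / 4) (by linarith)
    set r₁ : ℝ := min r (r₂ / 4) with hr₁
    have hr₁0 : 0 < r₁ := lt_min hr (by linarith)
    have hr₁2 : r₁ ≤ r₂ / 4 := min_le_right _ _
    have hbU : Metric.closedBall z' r₂ ⊆ U := by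
      intro x hx
      apply hρU
      rw [Metric.mem_closedBall] at hx
      rw [Metric.mem_ball]
      have := dist_triangle x z' z
      rw [dist_comm] at hzz'
      rw [hr₂] at hx hzz'
      linarith
    obtain ⟨θ, hθ, hθ1, hB⟩ := bst hε hε1 hH hU hg hr₁0 (by linarith : r₁ < r₂) hbU
    have hanU : an z' r₁ r₂ ⊆ U := fun x hx => hbU (by
      rw [Metric.mem_closedBall, dist_eq_norm]
      exact hx.2)
    refine ⟨r₂ / 4, K' ∪ an z' r₁ r₂, θ * c, by linarith, hK'.union (an_compact _ _ _),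
      Set.union_subset hKU' hanU, mul_pos hθ hc, fun v hv c₀ hc₀ hin x hx => ?_⟩
    have h2 := hB (K' ∪ an z' r₁ r₂) v Set.subset_union_right hv (c * c₀) (mul_nonneg hc.le hc₀)
      (fun y hy => h v (hv.mono Set.subset_union_left) c₀ hc₀ hin y (by
        rw [Metric.mem_closedBall] at hy ⊢
        exact hy.trans (min_le_left _ _))) x (by
        rw [Metric.mem_closedBall] at hx ⊢
        have := dist_triangle x z z'
        linarith)
    rw [mul_assoc]
    exact h2
  have hall : U ⊆ {z | Good z} :=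
    hconn.subset_of_closure_inter_subset hopen ⟨z₀, hz₀U, hz₀⟩ hclosed
  -- compactness
  choose! r K' c hr hK' hKU' hc h using fun z (hz : z ∈ U) => hall hz
  obtain ⟨t, htK, hcov⟩ := hK.elim_nhds_subcover (fun z => Metric.ball z (r z))
    (fun z hz => Metric.ball_mem_nhds z (hr z (hKU hz)))
  by_cases ht : t.Nonempty
  · refine ⟨⋃ z ∈ t, K' z, t.inf' ht c, t.isCompact_biUnion fun z hz => hK' z (hKU (htK z hz)),
      Set.iUnion₂_subset fun z hz => hKU' z (hKU (htK z hz)), ?_, ?_⟩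
    · rw [Finset.lt_inf'_iff]
      exact fun z hz => hc z (hKU (htK z hz))
    · intro v hv c₀ hc₀ hin x hx
      obtain ⟨z, hz, hxz⟩ := Set.mem_iUnion₂.mp (hcov hx)
      have h2 := h z (hKU (htK z hz)) v (hv.mono (Set.subset_biUnion_of_mem (u := K') hz)) c₀ hc₀ hin x
        (Metric.ball_subset_closedBall hxz)
      exact (mul_le_mul_of_nonneg_right (Finset.inf'_le c hz) hc₀).trans h2
  · rw [Finset.not_nonempty_iff_eq_empty] at ht
    refine ⟨∅, 1, isCompact_empty, Set.empty_subset _, one_pos, fun v hv c₀ hc₀ hin x hx => ?_⟩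
    have := hcov hx
    rw [ht] at this
    simp at this

end HARAux

open HARAux in
/-- HAR: a Harnack type bound on compact subsets. -/
theorem HAR : Stmt_HAR := by
  intro ε H U g hε hε1 hH hU hconn hg z₀ r₀ K hr₀ hb₀ hK hKU
  obtain ⟨K', c, h1, h2, h3, h4⟩ := chain hε hε1 hH hU hconn hg hr₀ hb₀ hK hKU
  refine ⟨K', c, h1, h2, h3, ?_⟩
  intro a b η g' h' u G M hS hg' hh' c₀ hc₀
  constructor
  · intro hK' hin
    exact h4 u ⟨a, b, η, g', h', u, G, M, hS, hg', hh', Or.inl ⟨rfl, hK'⟩⟩ c₀ hc₀ hin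
  · intro hK' hin x hx
    have := h4 (fun x => 1 - u x) ⟨a, b, η, g', h', u, G, M, hS, hg', hh', Or.inr ⟨rfl, hK'⟩⟩ c₀ hc₀
      (fun y hy => by
        have := hin y hy
        linarith) x hx
    linarith

/-- CONC: the complement of a countable set is connected and open if the set is finite. -/
theorem CONC (P : Set E3) (hP : P.Finite) : IsOpen Pᶜ ∧ IsPreconnected Pᶜ := by
  refine ⟨hP.isClosed.isOpen_compl, ?_⟩
  have h1 : 1 < Module.rank ℝ E3 := by
    rw [← Module.finrank_eq_rank, finrank_euclideanSpace]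
    norm_num
  exact (hP.countable.isPathConnected_compl_of_one_lt_rank h1).isConnected.isPreconnected

end Pool.Agent.PFT
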