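import Pool.Agent.PFT.StmtsL
import Pool.Agent.PFT.Har
import Pool.Agent.PFlow.E.PHI
import Pool.Agent.PFlow.E.RADN
import Pool.Agent.PFlow.E.BARR
import Pool.Agent.PFlow.E.LOCU

/-!
# LOCUT: location of the level sets, uniformly in `ε`, barriers near zero and far out only
-/

open MeasureTheory Filter Topology
open scoped ContDiff ENNReal

namespace Pool.Agent.PFT

open Pool.Agent.PenroseSph Pool.Agent.PFlow

/-- LOCUT with the hypothesis that `h` is a smooth tensor field (it gives `0 < u`). -/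
def Stmt_LOCUTh : Prop :=
  ∀ C ρ₁ r₁ : ℝ, 0 < C → 0 < ρ₁ → ρ₁ ≤ 1 → 1 ≤ r₁ → ∃ ρ r : ℝ, 0 < ρ ∧ ρ < ρ₁ ∧ r₁ < r ∧
    ∀ ε : ℝ, 0 < ε → ε ≤ 1 / 2 → ∃ R₀ : ℝ, ∀ R : ℝ, R₀ ≤ R →
      ∀ (η : ℝ) (g h : TensorField) (u : E3 → ℝ) (G : E3 → Cov) (M : E3 → Bil),
        0 < η → η ≤ R ^ (-pe ε - 1) → MetricOn Set.univ g → TensorOn Set.univ h →
        (∀ x : E3, 1 / (8 * R) ≤ ‖x‖ → (‖x‖ ≤ ρ₁ ∨ r₁ ≤ ‖x‖) → BarAt ε C g h x) →
        Solution ε (1 / R) R η g h u G M →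
        ∀ x ∈ Ann (1 / R) R, (‖x‖ ≤ ρ → wOf ε u x < ε) ∧ (r ≤ ‖x‖ → 1 < wOf ε u x)

/-- LOCUT with the hypothesis `0 < u` in the annulus. -/
def Stmt_LOCUTp : Prop :=
  ∀ C ρ₁ r₁ : ℝ, 0 < C → 0 < ρ₁ → ρ₁ ≤ 1 → 1 ≤ r₁ → ∃ ρ r : ℝ, 0 < ρ ∧ ρ < ρ₁ ∧ r₁ < r ∧
    ∀ ε : ℝ, 0 < ε → ε ≤ 1 / 2 → ∃ R₀ : ℝ, 16 / ρ ≤ R₀ ∧ ∀ R : ℝ, R₀ ≤ R →
      ∀ (η : ℝ) (g h : TensorField) (u : E3 → ℝ) (G : E3 → Cov) (M : E3 → Bil),
        0 < η → η ≤ R ^ (-pe ε - 1) → MetricOn Set.univ g →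
        (∀ x : E3, 1 / (8 * R) ≤ ‖x‖ → (‖x‖ ≤ ρ₁ ∨ r₁ ≤ ‖x‖) → BarAt ε C g h x) →
        Solution ε (1 / R) R η g h u G M →
        (∀ x : E3, 1 / (2 * R) ≤ ‖x‖ → ‖x‖ ≤ ρ → 1 / 2 < u x) ∧
        ((∀ x ∈ Ann (1 / R) R, 0 < u x) →
        ∀ x ∈ Ann (1 / R) R, (‖x‖ ≤ ρ → wOf ε u x < ε) ∧ (r ≤ ‖x‖ → 1 < wOf ε u x))

namespace LOCUTAux

open Pool.Agent.PFlow.LOCU

theorem barr : Stmt_BARR := BARR RADN PHI

/-- Comparison with the lower barrier on `1/(2R) ≤ |x| ≤ ρ₁`. -/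
theorem lower {ε C R η ρ₁ : ℝ} {g h : TensorField}
    {u : E3 → ℝ} {G : E3 → Cov} {M : E3 → Bil} (hC : 0 < C) (hε : 0 < ε) (hε2 : ε ≤ 1 / 2)
    (hR : 2 ≤ R) (hη1 : η < 1) (hρ : 1 / (2 * R) < ρ₁) (hρ1 : ρ₁ ≤ 1) (hg : MetricOn Set.univ g)
    (hbar : ∀ x : E3, 1 / (8 * R) ≤ ‖x‖ → ‖x‖ ≤ ρ₁ → |barB ε g h x - bE ε ‖x‖| ≤ C / (1 + ‖x‖ ^ 2))
    (hsol : Solution ε (1 / R) R η g h u G M) {x : E3} (hx : x ∈ cAnn (1 / (2 * R)) ρ₁) :
    (1 - η) * (phiB ε 1 (C + 1) ‖x‖ - phiB ε 1 (C + 1) ρ₁)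
      ≤ u x * (phiB ε 1 (C + 1) (1 / (2 * R)) - phiB ε 1 (C + 1) ρ₁) := by
  have hR0 : 0 < R := by linarith
  have ha0 : 0 < 1 / (2 * R) := by positivity
  have hρ0 : 0 < ρ₁ := ha0.trans hρ
  have hanti := strictAnti PHI hε hε2 (by linarith : 0 ≤ C + 1) (Or.inl rfl)
  have hD : 0 < phiB ε 1 (C + 1) (1 / (2 * R)) - phiB ε 1 (C + 1) ρ₁ := by
    have := hanti (Set.mem_Ioi.2 ha0) (Set.mem_Ioi.2 hρ0) hρ
    linarith
  set D := phiB ε 1 (C + 1) (1 / (2 * R)) - phiB ε 1 (C + 1) ρ₁ with hDdef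
  set k := (1 - η) / D with hk
  have hkpos : 0 < k := div_pos (by linarith) hD
  have hmain := hsol.sub (cAnn (1 / (2 * R)) ρ₁) (isCompact_cAnn _ _)
    (fun y hy => ⟨by have := hy.1; rw [show 1 / R / 2 = 1 / (2 * R) by field_simp]; exact this,
      by have := hy.2; linarith⟩)
    (fun y => k * (phiB ε 1 (C + 1) ‖y‖ - phiB ε 1 (C + 1) ρ₁))
  have hpt : ∀ y ∈ cAnn (1 / (2 * R)) ρ₁, ContDiffAt ℝ 2 (fun y : E3 => phiB ε 1 (C + 1) ‖y‖) y ∧
      grad (fun y : E3 => phiB ε 1 (C + 1) ‖y‖) y ≠ 0 ∧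
      0 < opN ε g h (fun y : E3 => k * (phiB ε 1 (C + 1) ‖y‖ - phiB ε 1 (C + 1) ρ₁)) y := by
    intro y hy
    have hy0 : y ≠ 0 := by
      intro h0
      have := hy.1
      rw [h0, norm_zero] at this
      linarith
    have hb : 1 / (8 * R) ≤ ‖y‖ := by
      refine le_trans ?_ hy.1
      apply one_div_le_one_div_of_le (by positivity)
      linarith
    obtain ⟨h1, h2, h3, -⟩ := barr ε C g h y hε hε2 hC.le hy0 (hg.posDef y (Set.mem_univ y))
      (hbar y hb hy.2) 1 (Or.inl rfl)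
    exact ⟨h1, h2, h3 rfl k _ hkpos⟩
  have h4 := hmain (fun y hy => contDiffAt_const.mul ((hpt y hy).1.sub contDiffAt_const)) ?_ ?_ x hx
  · rw [hk, div_mul_eq_mul_div, div_le_iff₀ hD] at h4
    exact h4
  · intro y hy
    refine ⟨?_, (hpt y hy).2.2⟩
    have hd : DifferentiableAt ℝ (fun y : E3 => phiB ε 1 (C + 1) ‖y‖) y :=
      (hpt y hy).1.differentiableAt (by norm_num)
    have hg2 := grad_affine k (-(k * phiB ε 1 (C + 1) ρ₁)) hd
    have heq : (fun y : E3 => k * (phiB ε 1 (C + 1) ‖y‖ - phiB ε 1 (C + 1) ρ₁))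
        = fun y : E3 => k * phiB ε 1 (C + 1) ‖y‖ + -(k * phiB ε 1 (C + 1) ρ₁) := by
      funext y; ring
    rw [heq, hg2]
    exact smul_ne_zero hkpos.ne' (hpt y hy).2.1
  · intro y hy
    rcases frontier_cAnn hy with h5 | h5
    · show k * (phiB ε 1 (C + 1) ‖y‖ - phiB ε 1 (C + 1) ρ₁) ≤ u y
      rw [h5, ← hDdef, hk, div_mul_cancel₀ _ hD.ne']
      apply hsol.inner
      rw [h5]
      exact (by field_simp : 1 / (2 * R) = 1 / R / 2).le
    · show k * (phiB ε 1 (C + 1) ‖y‖ - phiB ε 1 (C + 1) ρ₁) ≤ u y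
      rw [h5, sub_self, mul_zero]
      exact hsol.nonneg y

/-- Comparison with the upper barrier on `r₁ ≤ |x| ≤ 2R`. -/
theorem upper {ε C R η r₁ : ℝ} {g h : TensorField}
    {u : E3 → ℝ} {G : E3 → Cov} {M : E3 → Bil} (hC : 0 < C) (hε : 0 < ε) (hε2 : ε ≤ 1 / 2)
    (hR : 2 ≤ R) (hη : 0 < η) (hr₁ : 1 ≤ r₁) (hg : MetricOn Set.univ g)
    (hbar : ∀ x : E3, r₁ ≤ ‖x‖ → |barB ε g h x - bE ε ‖x‖| ≤ C / (1 + ‖x‖ ^ 2))
    (hsol : Solution ε (1 / R) R η g h u G M) (hpos1 : 0 < phiB ε (-1) (C + 1) r₁)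
    (hpos2 : 0 < phiB ε (-1) (C + 1) (2 * R)) {x : E3} (hx : x ∈ cAnn r₁ (2 * R)) :
    u x ≤ phiB ε (-1) (C + 1) ‖x‖ / phiB ε (-1) (C + 1) r₁ + η := by
  have hR0 : 0 < R := by linarith
  set k := 1 / phiB ε (-1) (C + 1) r₁ with hk
  have hkpos : 0 < k := div_pos one_pos hpos1
  have hmain := hsol.super (cAnn r₁ (2 * R)) (isCompact_cAnn _ _)
    (fun y hy => ⟨by
      have h1 : 1 / R ≤ 1 := by rw [div_le_one hR0]; linarith
      have := hy.1
      linarith, hy.2⟩)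
    (fun y => k * phiB ε (-1) (C + 1) ‖y‖ + η)
  have hpt : ∀ y ∈ cAnn r₁ (2 * R),
      ContDiffAt ℝ 2 (fun y : E3 => phiB ε (-1) (C + 1) ‖y‖) y ∧
      grad (fun y : E3 => phiB ε (-1) (C + 1) ‖y‖) y ≠ 0 ∧
      opN ε g h (fun y : E3 => k * phiB ε (-1) (C + 1) ‖y‖ + η) y < 0 := by
    intro y hy
    have hy0 : y ≠ 0 := by
      intro h0
      have := hy.1
      rw [h0, norm_zero] at this
      linarith
    obtain ⟨h1, h2, -, h3⟩ := barr ε C g h y hε hε2 hC.le hy0 (hg.posDef y (Set.mem_univ y))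
      (hbar y hy.1) (-1) (Or.inr rfl)
    exact ⟨h1, h2, h3 rfl k _ hkpos⟩
  have h4 := hmain (fun y hy => (contDiffAt_const.mul (hpt y hy).1).add contDiffAt_const) ?_ ?_ x hx
  · rw [hk, div_mul_eq_mul_div, one_mul] at h4
    exact h4
  · intro y hy
    refine ⟨?_, (hpt y hy).2.2⟩
    have hd : DifferentiableAt ℝ (fun y : E3 => phiB ε (-1) (C + 1) ‖y‖) y :=
      (hpt y hy).1.differentiableAt (by norm_num)
    rw [grad_affine k η hd]
    exact smul_ne_zero hkpos.ne' (hpt y hy).2.1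
  · intro y hy
    rcases frontier_cAnn hy with h5 | h5
    · show u y ≤ k * phiB ε (-1) (C + 1) ‖y‖ + η
      rw [h5, hk, div_mul_cancel₀ _ hpos1.ne']
      have := hsol.le_one y
      linarith
    · show u y ≤ k * phiB ε (-1) (C + 1) ‖y‖ + η
      have h6 : 0 < k * phiB ε (-1) (C + 1) ‖y‖ := by
        rw [h5]; exact mul_pos hkpos hpos2
      have := hsol.outer y h5.ge
      linarith

end LOCUTAux

open LOCUTAux Pool.Agent.PFlow.LOCU in
/-- The location of the levels when `u` is positive. -/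
theorem t_LOCUTp : Stmt_LOCUTp := by
  intro C ρ₁ r₁ hC hρ0 hρ1 hr₁
  have hπ := Real.pi_pos
  set Q := Real.exp ((C + 1) * Real.pi) with hQ
  have hQ0 : 0 < Q := Real.exp_pos _
  have hQ1 : 1 ≤ Q := Real.one_le_exp (by positivity)
  have he1 : 1 < Real.exp 1 := by
    have := Real.add_one_lt_exp (one_ne_zero)
    linarith
  have he3 : Real.exp 1 < 3 := Real.exp_one_lt_three
  have he0 : 0 < Real.exp 1 := Real.exp_pos _
  refine ⟨ρ₁ / (8 * Q), r₁ * (8 * (Real.exp 1 * Q)), by positivity, ?_, ?_, ?_⟩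
  · rw [div_lt_iff₀ (by positivity)]
    nlinarith
  · have h1 : 1 < 8 * (Real.exp 1 * Q) := by nlinarith
    nlinarith
  intro ε hε hε2
  refine ⟨max (16 / (ρ₁ / (8 * Q))) 8, le_max_left _ _, ?_⟩
  intro R hR' η g h u G M hη hηR hg hbar hsol
  have hR : 8 ≤ R := (le_max_right _ _).trans hR'
  have hR0 : 0 < R := by linarith
  have hRρ : 16 / (ρ₁ / (8 * Q)) ≤ R := (le_max_left _ _).trans hR'
  have haρ : 1 / (2 * R) ≤ ρ₁ / 8 := by
    have h1 : 16 ≤ R * (ρ₁ / (8 * Q)) := by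
      rwa [div_le_iff₀ (by positivity)] at hRρ
    have h2 : R * (ρ₁ / (8 * Q)) ≤ R * (ρ₁ / 8) := by
      gcongr
      linarith
    rw [div_le_iff₀ (by positivity)]
    nlinarith
  set p := pe ε with hp
  have hpdef : p = 2 / ε - 1 := rfl
  have hinv : 2 ≤ 1 / ε := by
    rw [le_div_iff₀ hε]; linarith
  have hp3 : 3 ≤ p := by
    rw [hpdef, show 2 / ε = 2 * (1 / ε) by ring]; linarith
  have hp0 : 0 < p := by linarith
  have hεp : 1 / ε ≤ p := by
    rw [hpdef, show 2 / ε = 2 * (1 / ε) by ring]; linarith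
  -- the exponential
  set E := Real.exp ((C + 1) * Real.pi / (2 * ε)) with hE
  have hE0 : 0 < E := Real.exp_pos _
  have hEneg : Real.exp (-((C + 1) * Real.pi / (2 * ε))) = E⁻¹ := by
    rw [Real.exp_neg]
  have hE2 : E ^ 2 ≤ Q ^ p := by
    rw [hE, ← Real.exp_nat_mul, hQ, ← Real.exp_mul]
    apply Real.exp_le_exp.2
    have : ((2 : ℕ) : ℝ) * ((C + 1) * Real.pi / (2 * ε)) = (C + 1) * Real.pi * (1 / ε) := by
      push_cast; field_simp
    rw [this]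
    exact mul_le_mul_of_nonneg_left hεp (by positivity)
  -- bounds for powers
  have hep : Real.exp (-p) = (Real.exp 1) ^ (-p) := by
    rw [← Real.exp_mul, one_mul]
  have h8p : (8 : ℝ) ^ (-p) ≤ Real.exp (-p) := by
    rw [hep]
    exact Real.rpow_le_rpow_of_nonpos he0 (by linarith) (by linarith)
  have hη8 : η ≤ Real.exp (-p) / 8 := by
    refine hηR.trans ?_
    have h1 : R ^ (-p - 1) ≤ (8 : ℝ) ^ (-p - 1) :=
      Real.rpow_le_rpow_of_nonpos (by norm_num) hR (by linarith)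
    have h2 : (8 : ℝ) ^ (-p - 1) = 8 ^ (-p) / 8 := by
      rw [Real.rpow_sub (by norm_num), Real.rpow_one]
    rw [h2] at h1
    refine h1.trans ?_
    gcongr
  have hexpp : Real.exp (-p) ≤ 1 := Real.exp_le_one_iff.2 (by linarith)
  have hη1 : η ≤ 1 / 8 := by linarith
  have h4p : (4 : ℝ) ^ (-p) ≤ 1 / 64 := by
    have h1 : (4 : ℝ) ^ (-p) ≤ (4 : ℝ) ^ (-(3 : ℝ)) :=
      Real.rpow_le_rpow_of_exponent_le (by norm_num) (by linarith)
    refine h1.trans ?_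
    rw [Real.rpow_neg (by norm_num), show (3 : ℝ) = ((3 : ℕ) : ℝ) by norm_num,
      Real.rpow_natCast]
    norm_num
  have hC1 : 0 ≤ C + 1 := by linarith
  -- the barrier integrals
  obtain ⟨-, -, -, hPp1, hPp2⟩ := PHI ε (C + 1) 1 hε hε2 hC1 (Or.inl rfl)
  obtain ⟨-, -, -, hPm1, hPm2⟩ := PHI ε (C + 1) (-1) hε hε2 hC1 (Or.inr rfl)
  have hantip := strictAnti PHI hε hε2 hC1 (Or.inl rfl)
  rw [hEneg] at hPp1 hPp2 hPm1 hPm2
  have hposm : ∀ r, 1 ≤ r → 0 < phiB ε (-1) (C + 1) r := by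
    intro r hr
    refine lt_of_lt_of_le ?_ (hPm1 r hr).1
    have : 0 < r := by linarith
    positivity
  have h2p : (0 : ℝ) < 2 ^ (-p) := by positivity
  have ha0 : 0 < 1 / (2 * R) := by positivity
  have hρ₁p : 0 < ρ₁ ^ p := by positivity
  have hhalf : (1 / (2 * R)) ^ p ≤ ρ₁ ^ p / 2 := by
    have h1 : (1 / (2 * R)) ^ p ≤ (ρ₁ * (1 / 8)) ^ p :=
      Real.rpow_le_rpow ha0.le (by linarith) hp0.le
    have h2 : (1 / 8 : ℝ) ^ p ≤ (1 / 8 : ℝ) ^ (1 : ℝ) :=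
      Real.rpow_le_rpow_of_exponent_ge (by norm_num) (by norm_num) (by linarith)
    rw [Real.rpow_one] at h2
    rw [Real.mul_rpow hρ0.le (by norm_num)] at h1
    nlinarith
  have hlowu : ∀ x : E3, 1 / (2 * R) ≤ ‖x‖ → ‖x‖ ≤ ρ₁ / (8 * Q) → 1 / 2 < u x := by
    intro x hxa hxρ
    have hρle : ρ₁ / (8 * Q) ≤ ρ₁ := by
      apply div_le_self hρ0.le
      linarith
    have hxpos : 0 < ‖x‖ := lt_of_lt_of_le ha0 hxa
    have hxρ₁ : ‖x‖ ≤ ρ₁ := hxρ.trans hρle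
    have haρ' : 1 / (2 * R) < ρ₁ := by linarith
    have hlow := lower hC hε hε2 (by linarith) (by linarith : η < 1) haρ' hρ1 hg
      (fun y hy1 hy2 => hbar y hy1 (Or.inl hy2)) hsol (x := x) ⟨hxa, hxρ₁⟩
    set A := phiB ε 1 (C + 1) (1 / (2 * R)) with hA
    set B := phiB ε 1 (C + 1) ρ₁ with hB
    set X := phiB ε 1 (C + 1) ‖x‖ with hX
    have hAB : B < A := hantip (Set.mem_Ioi.2 ha0) (Set.mem_Ioi.2 hρ0) haρ'
    -- numerator
    have hnum : A - X ≤ E * ‖x‖ ^ p / p := by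
      refine (hPp2 _ _ ha0.le hxa (hxρ₁.trans hρ1)).2.trans ?_
      have : 0 ≤ (1 / (2 * R)) ^ p := by positivity
      gcongr
      linarith
    -- denominator
    have hden : 2 ^ (-p) * E⁻¹ * (ρ₁ ^ p / 2) / p ≤ A - B := by
      have h1 := (hPp2 _ _ ha0.le haρ'.le hρ1).1
      have h4 : 2 ^ (-p) * E⁻¹ * (ρ₁ ^ p / 2) / p
          ≤ 2 ^ (-p) * E⁻¹ * (ρ₁ ^ p - (1 / (2 * R)) ^ p) / p := by
        gcongr
        linarith
      linarith
    -- quotient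
    have hq : A - X ≤ 1 / 4 * (A - B) := by
      have h1 : E * ‖x‖ ^ p / p ≤ 1 / 4 * (2 ^ (-p) * E⁻¹ * (ρ₁ ^ p / 2) / p) := by
        have h2 : ‖x‖ ^ p ≤ (ρ₁ * (1 / (8 * Q))) ^ p :=
          Real.rpow_le_rpow hxpos.le (by rw [mul_one_div]; exact hxρ) hp0.le
        have h3 : (ρ₁ * (1 / (8 * Q))) ^ p = ρ₁ ^ p * (2 ^ (-p) * 4 ^ (-p) * (Q ^ p)⁻¹) := by
          rw [show 1 / (8 * Q) = (2 : ℝ)⁻¹ * 4⁻¹ * Q⁻¹ by field_simp; norm_num,
            Real.mul_rpow hρ0.le (by positivity),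
            Real.mul_rpow (by positivity) (by positivity),
            Real.mul_rpow (by positivity) (by positivity),
            Real.inv_rpow (by positivity), Real.inv_rpow (by positivity),
            Real.inv_rpow hQ0.le, Real.rpow_neg (by norm_num), Real.rpow_neg (by norm_num)]
        have hQp : 0 < Q ^ p := by positivity
        have h4 : (Q ^ p)⁻¹ ≤ (E ^ 2)⁻¹ := inv_anti₀ (by positivity) hE2
        have h5 : E * ‖x‖ ^ p ≤ E * (ρ₁ ^ p * (2 ^ (-p) * (1 / 64) * (E ^ 2)⁻¹)) := by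
          rw [h3] at h2
          gcongr
          refine h2.trans ?_
          gcongr
        have h6 : E * (ρ₁ ^ p * (2 ^ (-p) * (1 / 64) * (E ^ 2)⁻¹))
            = 1 / 64 * (ρ₁ ^ p * (2 ^ (-p) * E⁻¹)) := by
          field_simp
        rw [h6] at h5
        have h7 : 1 / 4 * (2 ^ (-p) * E⁻¹ * (ρ₁ ^ p / 2) / p)
            = 1 / 8 * (ρ₁ ^ p * (2 ^ (-p) * E⁻¹)) / p := by
          ring
        rw [h7]
        have h8 : 0 < ρ₁ ^ p * (2 ^ (-p) * E⁻¹) := by positivity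
        exact div_le_div_of_nonneg_right (by linarith) hp0.le
      have h2 : 1 / 4 * (2 ^ (-p) * E⁻¹ * (ρ₁ ^ p / 2) / p) ≤ 1 / 4 * (A - B) := by
        gcongr
      linarith
    have h1 : 3 / 4 * (A - B) ≤ X - B := by linarith
    have h2 : 7 / 8 * (3 / 4 * (A - B)) ≤ (1 - η) * (X - B) := by
      apply mul_le_mul (by linarith) h1 (by nlinarith) (by linarith)
    have h3 : 21 / 32 * (A - B) ≤ u x * (A - B) := by linarith
    have h4 : 21 / 32 ≤ u x := le_of_mul_le_mul_right h3 (by linarith)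
    linarith
  refine ⟨hlowu, ?_⟩
  intro hupos x hx
  have hxpos : 0 < ‖x‖ := lt_trans (by positivity) hx.1
  constructor
  · intro hxρ
    have hxa : 1 / (2 * R) ≤ ‖x‖ := by
      refine le_trans ?_ hx.1.le
      apply one_div_le_one_div_of_le hR0; linarith
    have h1 := hlowu x hxa hxρ
    have h2 : -1 < Real.log (u x) := by
      rw [Real.lt_log_iff_exp_lt (hupos x hx)]
      refine lt_of_le_of_lt ?_ h1
      rw [Real.exp_neg, inv_le_comm₀ he0 (by norm_num)]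
      have := Real.exp_one_gt_d9
      norm_num
      linarith
    show -ε * Real.log (u x) < ε
    nlinarith
  · intro hxr
    have hge : 1 ≤ 8 * (Real.exp 1 * Q) := by nlinarith
    have hr0 : 0 < r₁ := by linarith
    have hxr1 : r₁ ≤ ‖x‖ := by
      refine le_trans ?_ hxr
      nlinarith
    have hx1 : 1 ≤ ‖x‖ := hr₁.trans hxr1
    have hup := upper hC hε hε2 (by linarith) hη hr₁ hg
      (fun y hy => hbar y (by
        have : 1 / (8 * R) ≤ 1 := by rw [div_le_one (by positivity)]; linarith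
        linarith) (Or.inr hy)) hsol (hposm r₁ hr₁)
      (hposm _ (by linarith)) (x := x) ⟨hxr1, by linarith [hx.2]⟩
    have hpR : 0 < phiB ε (-1) (C + 1) r₁ := hposm r₁ hr₁
    have hden : 2 ^ (-p) * E⁻¹ * r₁ ^ (-p) / p ≤ phiB ε (-1) (C + 1) r₁ := (hPm1 r₁ hr₁).1
    have hnum : phiB ε (-1) (C + 1) ‖x‖ ≤ E * ‖x‖ ^ (-p) / p := (hPm1 ‖x‖ hx1).2
    have hnum2 : E * ‖x‖ ^ (-p) / p
        ≤ Real.exp (-p) / 8 * (2 ^ (-p) * E⁻¹ * r₁ ^ (-p) / p) := by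
      have h2 : ‖x‖ ^ (-p) ≤ (r₁ * (8 * (Real.exp 1 * Q))) ^ (-p) :=
        Real.rpow_le_rpow_of_nonpos (by positivity) hxr (by linarith)
      have h3 : (r₁ * (8 * (Real.exp 1 * Q))) ^ (-p)
          = r₁ ^ (-p) * (2 ^ (-p) * 4 ^ (-p) * (Real.exp (-p) * (Q ^ p)⁻¹)) := by
        rw [show 8 * (Real.exp 1 * Q) = 2 * 4 * (Real.exp 1 * Q) by ring,
          Real.mul_rpow (by positivity) (by positivity),
          Real.mul_rpow (by positivity) (by positivity),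
          Real.mul_rpow (by positivity) (by positivity),
          Real.mul_rpow (by positivity) (by positivity), ← hep, Real.rpow_neg hQ0.le]
      have hQp : 0 < Q ^ p := by positivity
      have hrp : 0 < r₁ ^ (-p) := by positivity
      have h4 : (Q ^ p)⁻¹ ≤ (E ^ 2)⁻¹ := inv_anti₀ (by positivity) hE2
      have hexp0 := Real.exp_pos (-p)
      have h5 : E * ‖x‖ ^ (-p)
          ≤ E * (r₁ ^ (-p) * (2 ^ (-p) * (1 / 64) * (Real.exp (-p) * (E ^ 2)⁻¹))) := by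
        rw [h3] at h2
        gcongr
        refine h2.trans ?_
        gcongr
      have h6 : E * (r₁ ^ (-p) * (2 ^ (-p) * (1 / 64) * (Real.exp (-p) * (E ^ 2)⁻¹)))
          = 1 / 64 * (r₁ ^ (-p) * (Real.exp (-p) * (2 ^ (-p) * E⁻¹))) := by
        field_simp
      rw [h6] at h5
      have h7 : Real.exp (-p) / 8 * (2 ^ (-p) * E⁻¹ * r₁ ^ (-p) / p)
          = 1 / 8 * (r₁ ^ (-p) * (Real.exp (-p) * (2 ^ (-p) * E⁻¹))) / p := by
        ring
      rw [h7]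
      have h8 : 0 < r₁ ^ (-p) * (Real.exp (-p) * (2 ^ (-p) * E⁻¹)) := by positivity
      exact div_le_div_of_nonneg_right (by linarith) hp0.le
    have hratio : phiB ε (-1) (C + 1) ‖x‖ / phiB ε (-1) (C + 1) r₁ ≤ Real.exp (-p) / 8 := by
      rw [div_le_iff₀ hpR]
      refine hnum.trans (hnum2.trans ?_)
      have hexp0 := Real.exp_pos (-p)
      gcongr
    have hexp0 := Real.exp_pos (-p)
    have hux : u x < Real.exp (-p) := by linarith
    have h1 : Real.log (u x) < -p := by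
      rw [Real.log_lt_iff_lt_exp (hupos x hx)]
      exact hux
    have h2 : Real.log (u x) < -(1 / ε) := by linarith
    show 1 < -ε * Real.log (u x)
    have h3 : ε * Real.log (u x) < ε * -(1 / ε) := mul_lt_mul_of_pos_left h2 hε
    have h4 : ε * -(1 / ε) = -1 := by field_simp
    linarith

namespace LOCUTAux

/-- Open annuli are open. -/
theorem isOpen_Ann (a b : ℝ) : IsOpen (Ann a b) := by
  have : Ann a b = {x : E3 | a < ‖x‖} ∩ {x : E3 | ‖x‖ < b} := by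
    ext x; simp [Ann]
  rw [this]
  exact (isOpen_lt continuous_const continuous_norm).inter
    (isOpen_lt continuous_norm continuous_const)

/-- Open annuli are connected. -/
theorem isPreconnected_Ann {a b : ℝ} (ha : 0 < a) : IsPreconnected (Ann a b) := by
  have h1 : 1 < Module.rank ℝ E3 := by
    rw [← Module.finrank_eq_rank, finrank_euclideanSpace]
    norm_num
  have h2 : IsPreconnected (Metric.sphere (0 : E3) 1) := isPreconnected_sphere h1 _ _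
  have h3 := (isPreconnected_Ioo (a := a) (b := b)).prod h2
  have h4 : Ann a b = (fun q : ℝ × E3 => q.1 • q.2) '' (Set.Ioo a b ×ˢ Metric.sphere (0 : E3) 1) := by
    ext x
    constructor
    · intro hx
      have hx0 : 0 < ‖x‖ := ha.trans hx.1
      refine ⟨(‖x‖, ‖x‖⁻¹ • x), ⟨⟨hx.1, hx.2⟩, ?_⟩, ?_⟩
      · simp only [mem_sphere_iff_norm, sub_zero, norm_smul, norm_inv, norm_norm]
        field_simp
      · show ‖x‖ • ‖x‖⁻¹ • x = x
        rw [smul_smul, mul_inv_cancel₀ hx0.ne', one_smul]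
    · rintro ⟨⟨t, v⟩, ⟨ht, hv⟩, rfl⟩
      have hv1 : ‖v‖ = 1 := by simpa using hv
      have ht0 : 0 < t := ha.trans ht.1
      show a < ‖t • v‖ ∧ ‖t • v‖ < b
      rw [norm_smul, hv1, mul_one, Real.norm_of_nonneg ht0.le]
      exact ⟨ht.1, ht.2⟩
  rw [h4]
  exact h3.image _ (continuous_fst.smul continuous_snd).continuousOn

end LOCUTAux

open LOCUTAux in
/-- LOCUT for smooth tensor fields `h`. -/
theorem t_LOCUTh : Stmt_LOCUTh := by
  intro C ρ₁ r₁ hC hρ0 hρ1 hr₁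
  obtain ⟨ρ, r, h1, h2, h3, H⟩ := t_LOCUTp C ρ₁ r₁ hC hρ0 hρ1 hr₁
  refine ⟨ρ, r, h1, h2, h3, ?_⟩
  intro ε hε hε2
  obtain ⟨R₀, hR₀, H'⟩ := H ε hε hε2
  refine ⟨max R₀ 2, ?_⟩
  intro R hR' η g h u G M hη hηR hg hh hbar hsol
  have hR : R₀ ≤ R := (le_max_left _ _).trans hR'
  have hR2 : 2 ≤ R := (le_max_right _ _).trans hR'
  have hR0 : 0 < R := by linarith
  obtain ⟨hlow, Hfin⟩ := H' R hR η g h u G M hη hηR hg hbar hsol
  apply Hfin
  have haρ : 1 / (2 * R) ≤ ρ / 2 := by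
    have h5 : 16 ≤ R * ρ := by
      have := hR₀.trans hR
      rwa [div_le_iff₀ h1] at this
    rw [div_le_iff₀ (by positivity)]
    nlinarith
  intro x hx
  -- Harnack from a small ball
  have hU : IsOpen (Ann (1 / (2 * R)) R) := isOpen_Ann _ _
  have hUc : IsPreconnected (Ann (1 / (2 * R)) R) := isPreconnected_Ann (by positivity)
  have hgU : MetricOn (Ann (1 / (2 * R)) R) g :=
    ⟨fun i j => (hg.smooth i j).mono (Set.subset_univ _), fun y _ => hg.posDef y (Set.mem_univ y)⟩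
  have hH : ContinuousOn (fun y => ∑ i, ∑ j, |h y i j|) (Ann (1 / (2 * R)) R) := by
    refine continuousOn_finsetSum _ fun i _ => continuousOn_finsetSum _ fun j _ => ?_
    exact ((hh.smooth i j).continuousOn.mono (Set.subset_univ _)).abs
  obtain ⟨z₀, hz₀⟩ : ∃ z₀ : E3, ‖z₀‖ = 3 * ρ / 4 := by
    refine ⟨(3 * ρ / 4) • EuclideanSpace.single 0 1, ?_⟩
    rw [norm_smul, PiLp.norm_single, norm_one, mul_one, Real.norm_of_nonneg (by positivity)]
  have hball : ∀ y ∈ Metric.closedBall z₀ (ρ / 8), 1 / (2 * R) < ‖y‖ ∧ ‖y‖ ≤ ρ := by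
    intro y hy
    rw [mem_closedBall_iff_norm] at hy
    have h5 := norm_sub_norm_le y z₀
    have h6 := norm_sub_norm_le z₀ y
    rw [norm_sub_rev] at h6
    constructor
    · linarith
    · linarith
  have hρR : ρ < R := by linarith
  obtain ⟨K', c, -, hK'U, hc, HH⟩ := HAR ε (fun y => ∑ i, ∑ j, |h y i j|) (Ann (1 / (2 * R)) R) g hε
    (by linarith) hH hU hUc hgU z₀ (ρ / 8) {x} (by positivity)
    (fun y hy => ⟨(hball y hy).1, (hball y hy).2.trans_lt hρR⟩) isCompact_singleton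
    (by
      rw [Set.singleton_subset_iff]
      refine ⟨lt_of_le_of_lt ?_ hx.1, hx.2⟩
      apply one_div_le_one_div_of_le hR0; linarith)
  have h7 := (HH (1 / R) R η g h u G M hsol (fun y _ => Eventually.of_forall fun _ => rfl)
    (fun y _ i j => by
      have h8 : |h y i j| ≤ ∑ j, |h y i j| :=
        Finset.single_le_sum (f := fun j => |h y i j|) (fun _ _ => abs_nonneg _) (Finset.mem_univ j)
      have h9 : ∑ j, |h y i j| ≤ ∑ i, ∑ j, |h y i j| :=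
        Finset.single_le_sum (f := fun i => ∑ j, |h y i j|)
          (fun _ _ => Finset.sum_nonneg fun _ _ => abs_nonneg _) (Finset.mem_univ i)
      exact h8.trans h9) (1 / 2) (by norm_num)).1 (fun y hy => by
        have h8 := hK'U hy
        refine ⟨?_, h8.2.le⟩
        rw [show 1 / R / 2 = 1 / (2 * R) by field_simp]
        exact h8.1.le) (fun y hy => (hlow y (hball y hy).1.le (hball y hy).2).le) x
        (Set.mem_singleton x)
  have : 0 < c * (1 / 2) := by positivity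
  linarith

open LOCUTAux in
/-- LOCUT: location of the level sets, uniformly in `ε`. -/
theorem t_LOCUT : Stmt_LOCUT := by
  intro C ρ₁ r₁ hC hρ0 hρ1 hr₁
  obtain ⟨ρ, r, h1, h2, h3, H⟩ := t_LOCUTp C ρ₁ r₁ hC hρ0 hρ1 hr₁
  refine ⟨ρ, r, h1, h2, h3, ?_⟩
  intro ε hε hε2
  obtain ⟨R₀, hR₀, H'⟩ := H ε hε hε2
  refine ⟨R₀, ?_⟩
  intro R hR η g h u G M hη hηR hg hbar hsol hpos
  exact (H' R hR η g h u G M hη hηR hg hbar hsol).2 hpos

end Pool.Agent.PFT
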