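import Pool.Agent.PFT.StmtsL
import Pool.Agent.PFlow.E.MOD
import Pool.Agent.PFlow.E.AFD
import Pool.Agent.PFlow.E.HATA
import Pool.Agent.PFlow.E.HATB
import Pool.Agent.PFlow.E.HATC
import Pool.Agent.PFlow.E.JPROD
import Pool.Agent.PFlow.E.EETA
import Pool.Agent.PFlow.E.KAP
import Pool.Agent.PFlow.E.CUTM
import Pool.Agent.PFlow.E.CUTD
import Pool.Agent.PFlow.E.SCAL
import Pool.Agent.PFlow.E.DIVG
import Pool.Agent.PFlow.E.DIVA
import Pool.Agent.PFlow.E.BARA
import Pool.Agent.PFlow.E.BARB
import Pool.Agent.PFlow.E.HSM2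

/-!
# MODD: existence of the modified data, with a defect of compact support
-/

open MeasureTheory Filter Topology
open scoped ContDiff ENNReal

set_option autoImplicit false

namespace Pool.Agent.PFT

open Pool.Agent.PenroseSph Pool.Agent.PFlow

namespace MODDL

open Pool.Agent.PFlow.MODL in
theorem core (hAFD : Stmt_AFD) (hHATB : Stmt_HATB) (hHATC : Stmt_HATC)
    (hEETA : Stmt_EETA) (hKAP : Stmt_KAP) (hCUTM : Stmt_CUTM) (hCUTD : Stmt_CUTD)
    (hSHELL : Stmt_SHELLD) (hSCAL : Stmt_SCAL) (hDIVA : Stmt_DIVA) (hBARA : Stmt_BARA)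
    (hBARB : Stmt_BARB) (hHSM2 : Stmt_HSM2) : Stmt_MODD := by
  intro g h e₀ r hTE hPS he₀c he₀0 hr he₀s hDEF
  have hgM := hTE.metric
  have hhT := hTE.tensor
  obtain ⟨C₁, hC₁, hd1, hd2, hel1, hel2⟩ := hAFD g h hTE
  obtain ⟨C₂, hC₂, hcut⟩ := hCUTD g h C₁ hgM hd1 hel1
  obtain ⟨C₃, hC₃, hsh⟩ := hSHELL g h C₁ r hgM hhT hPS hr (fun x hx => by
    have h1 : x ≠ 0 := norm_pos_iff.mp (lt_of_lt_of_le (by linarith) hx)
    have h2 := hDEF x h1
    rw [he₀s x hx] at h2
    linarith) hd1 hel1
  obtain ⟨C₄, ρ₀, hC₄, hρ₀, hsc⟩ := hSCAL C₂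
  obtain ⟨C₅, hC₅, hba⟩ := hBARA (C₁ + C₂)
  obtain ⟨C₆, hC₆, hhs⟩ := hHSM2 g h C₁ hgM hhT hd2 hel2
  obtain ⟨C₇, hC₇, hbb⟩ := hBARB (C₁ + C₆)
  obtain ⟨kC, kb, k1, k2, -, kS, kinS⟩ := hKAP
  have hinv0 : DecayFrom C₁ 1 (inverted g) 0 := decay_zero hd2 hC₁.le
  obtain ⟨C, hCdef⟩ : ∃ C : ℝ, C = C₁ + C₂ + C₃ + C₄ + 2 * C₅ + C₆ + 2 * C₇ + 12 := ⟨_, rfl⟩
  have hC : 0 < C := by linarith
  refine ⟨C, max (max 2 ρ₀) (2 * r), hC, (le_max_left _ _).trans (le_max_left _ _),
    fun l R η hl' hR hη => ?_⟩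
  have hl : max 2 ρ₀ ≤ l := (le_max_left _ _).trans hl'
  have hlr : 2 * r ≤ l := (le_max_right _ _).trans hl'
  have hl2 : 2 ≤ l := (le_max_left _ _).trans hl
  have hlρ : ρ₀ ≤ l := (le_max_right _ _).trans hl
  have hl0 : 0 < l := by linarith
  have hR8 : 8 ≤ R := by linarith
  have hR0 : 0 < R := by linarith
  obtain ⟨hEc, hEi⟩ := hEETA g h hgM hhT
  obtain ⟨hEcη, hE0⟩ := hEc η hη
  obtain ⟨m1, m2, m3, m4, m5, m6, m7⟩ := hCUTM g h η l R hη (by linarith) hR hgM hhT hPS
  obtain ⟨dM, elM⟩ := hcut l R (by linarith) hR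
  obtain ⟨tH, -, nH, aH⟩ := hHATB g h η hη hgM hhT hPS
  -- regions
  have hinner : (1 : ℝ) / (16 * R) < 1 / (8 * R) := by
    apply one_div_lt_one_div_of_lt (by positivity)
    linarith
  have hsmallR : (1 : ℝ) / (8 * R) < 1 := by
    rw [div_lt_one (by positivity)]
    linarith
  have evG : ∀ x : E3, 1 / (16 * R) < ‖x‖ → ‖x‖ < l → modG l R g =ᶠ[𝓝 x] g := by
    intro x hx1 hx2
    have hopen : IsOpen {y : E3 | 1 / (16 * R) < ‖y‖ ∧ ‖y‖ < l} :=
      (isOpen_lt continuous_const continuous_norm).inter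
        (isOpen_lt continuous_norm continuous_const)
    filter_upwards [hopen.mem_nhds ⟨hx1, hx2⟩] with y hy
    exact m4 y hy.1 hy.2
  have evH0 : ∀ x : E3, l < ‖x‖ → modH η l R g h =ᶠ[𝓝 x] 0 := by
    intro x hx
    have hopen : IsOpen {y : E3 | l < ‖y‖} := isOpen_lt continuous_const continuous_norm
    filter_upwards [hopen.mem_nhds hx] with y hy
    exact m6 y (le_of_lt hy)
  have evG1 : ∀ x : E3, 2 * l < ‖x‖ → modG l R g =ᶠ[𝓝 x] fun _ => (1 : Bil) := by
    intro x hx
    have hopen : IsOpen {y : E3 | 2 * l < ‖y‖} := isOpen_lt continuous_const continuous_norm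
    filter_upwards [hopen.mem_nhds hx] with y hy
    exact m5 y (le_of_lt hy)
  -- the factor of the tensor
  have hfac : ∀ x : E3, 0 ≤ kap (2 * ‖x‖ / l) * kin (R / 2) x ∧
      kap (2 * ‖x‖ / l) * kin (R / 2) x ≤ 1 := by
    intro x
    have a1 := kb (2 * ‖x‖ / l)
    have a2 : 0 ≤ kin (R / 2) x ∧ kin (R / 2) x ≤ 1 := by
      have := kb (32 * (R / 2) * ‖x‖)
      unfold kin
      constructor <;> linarith
    exact ⟨mul_nonneg a1.1 a2.1, mul_le_one₀ a1.2 a2.1 a2.2⟩
  have hkin : ∀ x : E3, 0 ≤ kin (R / 2) x ∧ kin (R / 2) x ≤ 1 := by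
    intro x
    have := kb (32 * (R / 2) * ‖x‖)
    unfold kin
    constructor <;> linarith
  have hHabs : ∀ (x : E3) (i j : Fin 3), |modH η l R g h x i j| ≤ |h x i j| := by
    intro x i j
    have e1 : modH η l R g h x i j =
        (kap (2 * ‖x‖ / l) * kin (R / 2) x) * hat η g h x i j := rfl
    rw [e1, abs_mul, abs_of_nonneg (hfac x).1]
    calc kap (2 * ‖x‖ / l) * kin (R / 2) x * |hat η g h x i j|
        ≤ 1 * |hat η g h x i j| := mul_le_mul_of_nonneg_right (hfac x).2 (abs_nonneg _)
      _ ≤ |h x i j| := by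
        rw [one_mul]
        exact aH x i j
  have hHnsq : ∀ x : E3, x ≠ 0 → nsq g x (modH η l R g h x) ≤ nsq g x (h x) := by
    intro x hx
    have e1 : modH η l R g h x =
        (kap (2 * ‖x‖ / l) * kin (R / 2) x) • hat η g h x := rfl
    have n0 : 0 ≤ nsq g x (hat η g h x) :=
      (KTN_thm g x (hgM.posDef x hx) 0).2.2.2.2.2.2.1 _
    rw [e1, nsq_smul]
    have h2 : (kap (2 * ‖x‖ / l) * kin (R / 2) x) ^ 2 ≤ 1 :=
      pow_le_one₀ (hfac x).1 (hfac x).2
    calc (kap (2 * ‖x‖ / l) * kin (R / 2) x) ^ 2 * nsq g x (hat η g h x)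
        ≤ 1 * nsq g x (hat η g h x) := mul_le_mul_of_nonneg_right h2 n0
      _ ≤ nsq g x (h x) := by
        rw [one_mul]
        exact nH x hx
  have nzero : ∀ x : E3, 0 < ‖x‖ → x ≠ 0 := fun x hx => norm_pos_iff.mp hx
  have hpos8 : (0 : ℝ) < 1 / (8 * R) := by positivity
  have hpos16 : (0 : ℝ) < 1 / (16 * R) := by positivity
  have hfar : ∀ x : E3, 1 / (8 * R) ≤ ‖x‖ → kin (R / 2) x = 1 := by
    intro x hx
    apply kin_far k2
    have : (1 / (8 * R)) * (16 * R) ≤ ‖x‖ * (16 * R) :=
      mul_le_mul_of_nonneg_right hx (by positivity)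
    have e : (1 / (8 * R)) * (16 * R) = 2 := by
      field_simp
      norm_num
    rw [e] at this
    linarith
  have hsmooth : ∀ x : E3, ∀ i j, ContDiffAt ℝ ∞ (fun y => modG l R g y i j) x := fun x i j =>
    (m1.smooth i j).contDiffAt Filter.univ_mem
  -- the first factor of the modified data
  · refine ⟨m1, m2, m3, m4, m5, m6, ?_, ?_, ?_, ?_, ?_, ?_, ?_, ?_, ?_, ?_, ?_, ?_, ?_, ?_⟩
    · -- barrier
      intro ε hε hε1 x hx
      have hx0 : 0 < ‖x‖ := lt_of_lt_of_le hpos8 hx
      rcases le_total 1 ‖x‖ with h1 | h1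
      · have b1 := hba (modG l R g) (modH η l R g h) x h1 (hsmooth x)
          (m1.posDef x (Set.mem_univ _)) (m2.symm x (Set.mem_univ _))
          (ell_mono hC₂ (by linarith) (elM x h1)) (by
            intro i j
            obtain ⟨d1, d2', -, -, -⟩ := dM x h1 i j
            obtain ⟨-, -, -, d4, -⟩ := hd1 x h1 i j
            refine ⟨d1.trans ?_, fun k => (d2' k).trans ?_, ((hHabs x i j).trans d4).trans ?_⟩
            · gcongr
              linarith
            · gcongr
              linarith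
            · gcongr
              linarith) ε hε hε1
        have b2 := model_out hε hε1 h1
        have b3 : C₅ / ‖x‖ ^ 2 ≤ 2 * C₅ / (1 + ‖x‖ ^ 2) := by
          rw [div_le_div_iff₀ (by positivity) (by positivity)]
          have : 1 ≤ ‖x‖ ^ 2 := one_le_pow₀ h1
          nlinarith
        calc |barB ε (modG l R g) (modH η l R g h) x - bE ε ‖x‖|
            ≤ |barB ε (modG l R g) (modH η l R g h) x - 2 / ‖x‖| + |2 / ‖x‖ - bE ε ‖x‖| := by
              refine le_trans (le_of_eq ?_) (abs_add_le _ _)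
              congr 1
              ring
          _ ≤ 2 * C₅ / (1 + ‖x‖ ^ 2) + 4 / (1 + ‖x‖ ^ 2) := add_le_add (b1.trans b3) b2
          _ = (2 * C₅ + 4) / (1 + ‖x‖ ^ 2) := by ring
          _ ≤ C / (1 + ‖x‖ ^ 2) := by
            gcongr
            linarith
      · have hne : x ≠ 0 := nzero x hx0
        have e1 : barB ε (modG l R g) (modH η l R g h) x = barB ε g (modH η l R g h) x :=
          barB_at (evG x (lt_of_lt_of_le hinner hx) (by linarith)) ε
        have b1 := hbb g (modH η l R g h) x hne h1 hgM (m2.symm x (Set.mem_univ _))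
          (decay_mono hinv0 (by linarith))
          (fun y hy => ell_mono hC₁ (by linarith) (hel2 y hy)) (by
            have a1 := (hHnsq x hne).trans (hhs x hne h1)
            have a2 : C₆ * ‖x‖ ^ 4 ≤ (C₁ + C₆) * ‖x‖ ^ 4 := by
              gcongr
              linarith
            exact a1.trans a2) ε hε hε1
        have b2 := model_in hε hε1 hx0 h1
        rw [e1]
        have b3 : |barB ε g (modH η l R g h) x - bE ε ‖x‖| ≤ C₇ + 4 := by
          calc |barB ε g (modH η l R g h) x - bE ε ‖x‖|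
              = |(barB ε g (modH η l R g h) x + 2 * (1 - ε) / ‖x‖) -
                (bE ε ‖x‖ + 2 * (1 - ε) / ‖x‖)| := by
                congr 1
                ring
            _ ≤ |barB ε g (modH η l R g h) x + 2 * (1 - ε) / ‖x‖| +
                |bE ε ‖x‖ + 2 * (1 - ε) / ‖x‖| := abs_sub _ _
            _ ≤ C₇ + 4 := add_le_add b1 b2
        have b4 : C₇ + 4 ≤ C / (1 + ‖x‖ ^ 2) := by
          rw [le_div_iff₀ (by positivity)]
          have h3 : ‖x‖ ^ 2 ≤ 1 := pow_le_one₀ (norm_nonneg _) h1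
          nlinarith
        exact b3.trans b4
    · exact decay_mono dM (by linarith)
    · -- hsmall
      intro x hx i j
      obtain ⟨-, -, -, d4, -⟩ := hd1 x hx i j
      refine ((hHabs x i j).trans d4).trans ?_
      gcongr
      linarith
    · exact decay_mono hinv0 (by linarith)
    · -- hsmall2
      intro x hx hx1
      have hx0 : 0 < ‖x‖ := lt_of_lt_of_le hpos8 hx
      have e1 : nsq (modG l R g) x (modH η l R g h x) = nsq g x (modH η l R g h x) := by
        unfold nsq
        rw [m4 x (lt_of_lt_of_le hinner hx) (by linarith)]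
      rw [e1]
      refine ((hHnsq x (nzero x hx0)).trans (hhs x (nzero x hx0) hx1)).trans ?_
      gcongr
      linarith
    · exact fun x hx => ell_mono hC₂ (by linarith) (elM x hx)
    · -- continuity
      have hcont : Continuous (fun x => kin (R / 2) x * eEta η g h x) := by
        rw [continuous_iff_continuousAt]
        intro x
        by_cases hx : x = 0
        · subst hx
          have hopen : IsOpen {y : E3 | 16 * R * ‖y‖ < 1} :=
            isOpen_lt (continuous_const.mul continuous_norm) continuous_const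
          have h0 : (fun x => kin (R / 2) x * eEta η g h x) =ᶠ[𝓝 (0 : E3)] fun _ => (0 : ℝ) := by
            filter_upwards [hopen.mem_nhds (show (0 : E3) ∈ {y : E3 | 16 * R * ‖y‖ < 1} by simp)]
              with y hy
            rw [kin_near k1 (le_of_lt hy), zero_mul]
          exact continuousAt_const.congr h0.symm
        · exact ((kinS (R / 2) (by positivity)).continuous.continuousAt).mul
            (hEcη.continuousAt (isOpen_compl_singleton.mem_nhds hx))
      exact he₀c.add hcont
    · -- nonnegativity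
      intro x
      refine add_nonneg (he₀0 x) ?_
      by_cases hx : x = 0
      · subst hx
        rw [kin_near k1 (by simp)]
        simp
      · exact mul_nonneg (hkin x).1 (hE0 x hx)
    · -- core
      intro x hx1 hx2
      have hx0 : 0 < ‖x‖ := hpos8.trans hx1
      have hne := nzero x hx0
      have evH : modH η l R g h =ᶠ[𝓝 x] hat η g h := by
        have hopen : IsOpen {y : E3 | 1 / (8 * R) < ‖y‖ ∧ ‖y‖ < l / 2} :=
          (isOpen_lt continuous_const continuous_norm).inter
            (isOpen_lt continuous_norm continuous_const)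
        filter_upwards [hopen.mem_nhds ⟨hx1, hx2⟩] with y hy
        exact m7 y (le_of_lt hy.1) (le_of_lt hy.2)
      rw [surplus_at (evG x (hinner.trans hx1) (by linarith)) evH]
      have h1 := (hHATC g h η hη hgM hhT hPS x hne).1
      have h2 : -e₀ x ≤ surplus g h x := hDEF x hne
      rw [hfar x hx1.le, one_mul]
      linarith
    · -- shell
      intro x hx1 hx2
      have h1 := hsh η l R hη hlr hR x hx1 hx2
      have h6 := he₀0 x
      have h3 : kin (R / 2) x = 1 := hfar x (by linarith)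
      have h4 : 0 ≤ msz (h x) / l + msz (h x) ^ 2 := by
        have : 0 ≤ msz (h x) := Real.sqrt_nonneg _
        positivity
      have h5 : C₃ * (msz (h x) / l + msz (h x) ^ 2) ≤ C * (msz (h x) / l + msz (h x) ^ 2) :=
        mul_le_mul_of_nonneg_right (by linarith) h4
      rw [h3, one_mul]
      linarith
    · -- transition
      intro x hx1 hx2
      have hx0 : 0 < ‖x‖ := hl0.trans hx1
      have h1 := (hsc (modG l R g) x (hlρ.trans hx1.le)
        (Eventually.of_forall fun y => symm_of_posDef (m1.posDef y (Set.mem_univ _)))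
        (hsmooth x) (fun i j => by
          obtain ⟨d1, d2', d3, -, -⟩ := dM x (by linarith) i j
          exact ⟨d1, d2', d3⟩)).1
      rw [surplus_zero (evH0 x hx1)]
      have e1 : scalarCurvature (modG l R g) x / 2 * volDen (modG l R g) x -
          linR (modG l R g) x / 2 = (scalarCurvature (modG l R g) x * volDen (modG l R g) x -
          linR (modG l R g) x) / 2 := by ring
      rw [e1, abs_div, abs_of_pos (by norm_num : (0 : ℝ) < 2)]
      have h2 : C₄ / ‖x‖ ^ 4 ≤ C₄ / l ^ 4 := by gcongr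
      have h3 : C₄ / l ^ 4 ≤ C / l ^ 4 := by
        gcongr
        linarith
      have h4 := abs_nonneg (scalarCurvature (modG l R g) x * volDen (modG l R g) x -
          linR (modG l R g) x)
      linarith
    · intro x hx1 hx2
      have hx0 : 0 < ‖x‖ := hl0.trans hx1
      have h1 := (hsc (modG l R g) x (hlρ.trans hx1.le)
        (Eventually.of_forall fun y => symm_of_posDef (m1.posDef y (Set.mem_univ _)))
        (hsmooth x) (fun i j => by
          obtain ⟨d1, d2', d3, -, -⟩ := dM x (by linarith) i j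
          exact ⟨d1, d2', d3⟩)).2
      have h2 : C₄ / ‖x‖ ^ 3 ≤ C₄ / l ^ 3 := by gcongr
      have h3 : C₄ / l ^ 3 ≤ C / l ^ 3 := by
        gcongr
        linarith
      linarith
    · -- flat
      intro x hx
      rw [surplus_zero (evH0 x (by linarith)), scal_one (evG1 x hx), zero_div]
    · -- mass
      rw [hDIVA (modG l R g) l hl0 (fun x _ => hsmooth x) m5]
      have h1 : massIntegral (modG l R g) l = massIntegral g l := by
        refine mass_eq hpos16.le (hinner.trans (by linarith)) (fun x hx i j => ?_)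
          (fun x i j => (hsmooth x i j).of_le (by exact_mod_cast le_top)) m4
        exact (((hgM.smooth i j).contDiffAt (isOpen_compl_singleton.mem_nhds hx)).of_le
          (by exact_mod_cast le_top))
      rw [h1]

end MODDL

theorem t_MODD (hSHELLD : Stmt_SHELLD) : Stmt_MODD :=
  MODDL.core AFD (HATB HATA) (HATC HATA (HATB HATA) JPROD) EETA KAP (CUTM (HATB HATA) KAP)
    (CUTD KAP) hSHELLD SCAL (DIVA DIVG) BARA BARB HSM2

end Pool.Agent.PFT
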