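import Pool.Agent.PFT.StmtsE
import Pool.Agent.PFlow.E.MSI

/-!
# The mass inequality (i) with the coefficient 1 of the defect
-/

set_option autoImplicit false

open MeasureTheory Filter Topology
open scoped ContDiff ENNReal

namespace Pool.Agent.PFT

open Pool.Agent.PenroseSph Pool.Agent.PFlow

open Pool.Agent.PFlow.MSIaux in
theorem t_MSIT (hSETW : Stmt_SETW) (hBETA : Stmt_BETA) (hTSTA : Stmt_TSTA) (hUPH : Stmt_UPH)
    (hMATL : Stmt_MATL) : Stmt_MSIT := by
  intro P B B₃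
  by_cases hex : ∃ D : Dat, Setup P D
  swap
  · exact ⟨1, one_pos, fun D hD => absurd ⟨D, hD⟩ hex⟩
  obtain ⟨D₀, hD₀⟩ := hex
  have he0 := hD₀.eps_pos
  have he1 := hD₀.eps_le
  have hC0 := hD₀.C_pos
  have hc0 := hD₀.c_pos
  obtain ⟨β, hβ⟩ := hBETA
  obtain ⟨BU, hBU, hU⟩ := hUPH P B β hβ
  obtain ⟨BM, hBM, hM⟩ := hMATL P B
  obtain ⟨CT, hCT, hT⟩ := hTSTA P.eps he0 he1
  set V : ℝ := volume.real (Metric.ball (0 : E3) 1) with hV
  have hV0 : 0 ≤ V := measureReal_nonneg
  set C := P.C with hCdef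
  set K₀ : ℝ := P.eps ^ 2 * P.c ^ 2 * ((4 : ℝ) ^ (-pe P.eps)) ^ 2 with hK₀
  have hK₀0 : 0 < K₀ := by positivity
  -- the constant of the weight estimate
  set K : ℝ := (|B₃| + (2 * BU + 2 * |B₃| * (8 * V))) / 2 with hK
  have hK0 : 0 < K := by positivity
  set c₁ : ℝ := 12 * C + 144 * C ^ 2 with hc₁
  have hc₁0 : 0 < c₁ := by positivity
  refine ⟨CT * |B| / K₀ + CT * (1 + |B|) + 1 + BM * (|B₃| + |B₃| * (144 * C ^ 2 * V) + c₁ * K)
    + C * K + BM * BU, by positivity, ?_⟩
  intro D hS hA se lm hCut hLam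
  obtain ⟨hg, hh, -, hH2, hEq, hNI, hw, hSep, -, -, -, -, -, -, -, hsb, hsb1, hsbe, hs2, hsM, hKR,
    hlK⟩ := hSETW P D hS
  have hl := hS.l_ge
  have hgam := hS.gam_pos
  have hl0 : 0 < D.l := by linarith
  have hlm0 := hLam.nonneg
  have hlmB : lm ≤ |B₃| := hLam.le.trans (le_abs_self _)
  -- the square root of `l`
  set r := Real.sqrt D.l with hr
  have hr0 : 0 < r := Real.sqrt_pos.mpr hl0
  have hr2 : r ^ 2 = D.l := Real.sq_sqrt hl0.le
  have hr1 : 1 ≤ r := by
    rw [hr]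
    exact Real.one_le_sqrt.mpr (by linarith)
  have hrl : r ≤ D.l := by
    rw [← hr2]
    exact le_self_pow₀ hr1 (by norm_num)
  have hrp : D.l ^ (-(1 / 2 : ℝ)) = 1 / r := by
    rw [Real.rpow_neg hl0.le, ← Real.sqrt_eq_rpow, one_div]
  -- nonnegativity
  have hB0 : 0 ≤ B := by
    refine le_trans ?_ (hA.window (D.s2 P) le_rfl (by linarith))
    exact integral_nonneg fun x => mul_nonneg (pow_nonneg (hA.X_nonneg x) 3) (hA.vol_nonneg x)
  have hB20 : 0 ≤ B * D.l ^ (-(2 * pe P.eps + 1)) := by positivity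
  have hph : ∀ x, 0 ≤ D.ph P x := fun x => mul_nonneg (Real.exp_pos _).le (hA.X_nonneg x)
  have hth : 0 ≤ D.th := integral_nonneg fun x => div_nonneg (msz_nonneg _) hl0.le
  have hNd : 0 ≤ D.Nd P := integral_nonneg fun x =>
    mul_nonneg (mul_nonneg (hph x) (hS.modified.defect_nonneg x)) (hA.vol_nonneg x)
  have her : 0 ≤ D.er P se := mul_nonneg (Real.exp_pos _).le (Real.exp_pos _).le
  have hOm : MeasurableSet D.Om := hA.measOmega
  have hlt : D.sb P / 4 < D.sM P := by linarith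
  -- the test function
  obtain ⟨χ, hχc, hχ01, hχ0, hχ1, -, hχe, hmain⟩ := hT D.Om D.vol (D.w P) (D.X P) (D.Phi P)
    (D.Di P) (D.Su P) (D.sb P) (D.s2 P) (D.sM P) B (B * D.l ^ (-(2 * pe P.eps + 1))) hA hsb hsb1
    (by linarith) hB0 hB20 se (by linarith [hCut.lower]) hCut.upper
  obtain ⟨hM1, -⟩ := hM D hS hA
  have hMa := hM1 χ se hχc hχ01 hχ0 hχ1 hCut.upper hχe
  obtain ⟨-, hphI, hphB⟩ := hU D hS hA
  -- integrability of the terms with the test function
  set ψ : ℝ → ℝ := fun s => χ s * Real.exp (s / (2 - P.eps)) with hψ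
  have hψc : Continuous ψ := hχc.mul (Real.continuous_exp.comp (continuous_id.div_const _))
  have hψs : Function.support ψ ⊆ Set.Icc (D.sb P / 2) (se + 1) := by
    intro s hs
    rw [Function.mem_support] at hs
    constructor
    · by_contra hlt'
      push Not at hlt'
      exact hs (by simp only [hψ, hχ0 s hlt'.le, zero_mul])
    · by_contra hlt'
      push Not at hlt'
      exact hs (by simp only [hψ, hχe s hlt'.le, zero_mul])
  have hψt : tsupport ψ ⊆ Set.Icc (D.sb P / 2) (se + 1) := closure_minimal hψs isClosed_Icc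
  have hψk : HasCompactSupport ψ := isCompact_Icc.of_isClosed_subset (isClosed_tsupport _) hψt
  have hψI : tsupport ψ ⊆ Set.Ioo (D.sb P / 4) (D.sM P) := by
    intro s hs
    have := hψt hs
    exact ⟨by linarith [this.1], by linarith [this.2, hCut.upper]⟩
  have hiS := ABSMaux.int_mul (P := P) (D := D) hA.int_S hw hOm hlt hψc hψk hψI
  have hiD := ABSMaux.int_mul (P := P) (D := D) hA.int_D hw hOm hlt hψc hψk hψI
  have hSD : (∫ x in D.Om, χ (D.w P x) * Real.exp (D.w P x / (2 - P.eps)) * D.Su P x * D.vol x)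
      ≤ ∫ x in D.Om, χ (D.w P x) * Real.exp (D.w P x / (2 - P.eps)) * (D.Su P x + D.Di P x / 2)
        * D.vol x := by
    refine integral_mono_ae ?_ ?_ ?_
    · refine Integrable.congr hiS (Eventually.of_forall fun x => ?_)
      simp only [hψ]
      ring
    · refine (Integrable.add hiS (hiD.div_const 2)).congr (Eventually.of_forall fun x => ?_)
      simp only [hψ, Pi.add_apply]
      ring
    · filter_upwards [hA.D_nonneg] with x hx
      have h1 := (hχ01 (D.w P x)).1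
      have h2 := (Real.exp_pos (D.w P x / (2 - P.eps))).le
      have h3 := hA.vol_nonneg x
      refine mul_le_mul_of_nonneg_right (mul_le_mul_of_nonneg_left ?_ (mul_nonneg h1 h2)) h3
      linarith
  -- the error of the inner test function
  have hB2 : B * D.l ^ (-(2 * pe P.eps + 1)) / D.sb P ^ 2 = B / K₀ / D.l := by
    have e1 : D.l ^ (-(2 * pe P.eps + 1)) = (D.l ^ (-pe P.eps)) ^ 2 / D.l := by
      rw [show -(2 * pe P.eps + 1) = -pe P.eps + -pe P.eps + -1 by ring, Real.rpow_add hl0,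
        Real.rpow_add hl0, Real.rpow_neg_one]
      ring
    have e2 : D.sb P = P.eps * P.c * ((4 : ℝ) ^ (-pe P.eps) * D.l ^ (-pe P.eps)) := by
      unfold Dat.sb sbE
      rw [Real.mul_rpow (by norm_num) hl0.le]
    rw [e1, e2, hK₀]
    have e3 : 0 < D.l ^ (-pe P.eps) := Real.rpow_pos_of_pos hl0 _
    have e4 : 0 < (4 : ℝ) ^ (-pe P.eps) := by positivity
    field_simp
  -- inclusions
  have hs1 : cAnn (D.l / 2) D.l ⊆ cAnn (D.l / 2) (D.Kl P) := cAnn_mono le_rfl (by linarith)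
  have hs2' : cAnn D.l (2 * D.l) ⊆ cAnn (D.l / 2) (D.Kl P) := cAnn_mono (by linarith) (by linarith)
  have hs3 : cAnn (D.l / 2) (D.Kl P) ⊆ cAnn (D.l / 4) (D.Kl P) := cAnn_mono (by linarith) le_rfl
  -- the weight estimate for a subset
  have key : ∀ (T : Set E3) (q : E3 → ℝ) (c : ℝ), MeasurableSet T →
      T ⊆ cAnn (D.l / 2) (D.Kl P) → T ⊆ cAnn 0 (2 * D.l) →
      AEStronglyMeasurable q (volume.restrict T) →
      (∀ᵐ x ∂(volume.restrict T), |q x| ≤ c / D.l ^ 3) → 0 ≤ c →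
      |(∫ x in T, D.ph P x * q x) - lm * ∫ x in T, q x| ≤ c * K / r := by
    intro T q c hTm hT1 hT2 hq hqb hc
    have h1 : (∫ x in T, (Real.sqrt (D.ph P x) - Real.sqrt lm) ^ 2) ≤ |B₃| * D.l ^ 2 := by
      refine (setIntegral_mono_set hLam.int (Eventually.of_forall fun x => sq_nonneg _)
        (Eventually.of_forall hT1)).trans ?_
      exact hLam.close.trans (mul_le_mul_of_nonneg_right (le_abs_self _) (sq_nonneg _))
    have h2 : (∫ x in T, D.ph P x) ≤ BU * D.l ^ 3 := by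
      refine (setIntegral_mono_set hphI (Eventually.of_forall hph)
        (Eventually.of_forall (hT1.trans hs3))).trans hphB
    have h3 : volume.real T ≤ 8 * V * D.l ^ 3 := by
      refine (measureReal_mono hT2 (cAnn_lt_top _ _).ne).trans ?_
      refine (cAnn_vol 0 (by positivity)).trans (le_of_eq ?_)
      ring
    have h4 := weight_est (T := T) hr0 hph hlm0 (hphI.mono_set (hT1.trans hs3))
      (hLam.int.mono_set hT1) h1 h2 ((measure_mono hT2).trans_lt (cAnn_lt_top _ _)) h3 hq hqb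
      (by positivity)
    refine h4.trans ?_
    rw [← hr2]
    have e1 : c / (r ^ 2) ^ 3 * ((r * (|B₃| * (r ^ 2) ^ 2)
        + (2 * (BU * (r ^ 2) ^ 3) + 2 * lm * (8 * V * (r ^ 2) ^ 3)) / r) / 2)
        = c * ((|B₃| + (2 * BU + 2 * lm * (8 * V))) / 2) / r := by
      field_simp
    rw [e1]
    refine div_le_div_of_nonneg_right (mul_le_mul_of_nonneg_left ?_ hc) hr0.le
    rw [hK]
    have : 2 * lm * (8 * V) ≤ 2 * |B₃| * (8 * V) :=
      mul_le_mul_of_nonneg_right (by linarith) (by positivity)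
    linarith
  -- the transition region
  have hL := key (cAnn D.l (2 * D.l)) (linR D.g') C (cAnn_measurable _ _) hs2'
    (cAnn_mono hl0.le le_rfl) (cont_linR hS.modified.metric).aestronglyMeasurable
    (ae_interior hl0 (by positivity) hS.modified.trans_sup) hC0.le
  rw [hS.modified.mass] at hL
  -- the shell
  have hmb : ∀ x ∈ cAnn (D.l / 2) D.l, msz (D.h x) ≤ 12 * C / D.l ^ 2 := by
    intro x hx
    have hx1 : D.l / 2 ≤ ‖x‖ := hx.1
    have hx0 : 0 < ‖x‖ := by linarith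
    have h1 : ∀ i j, |D.h x i j| ≤ 4 * C / D.l ^ 2 := by
      intro i j
      exact (hS.hdecay x (by linarith) i j).trans (dec_le hl0 hx1 hC0.le)
    refine (msz_le (by positivity) h1).trans (le_of_eq ?_)
    ring
  have hcm : ContinuousOn (fun x => msz (D.h x)) (cAnn (D.l / 2) D.l) :=
    cont_msz hS.tensor0 _ (by positivity)
  have hfin : volume (cAnn (D.l / 2) D.l) < ⊤ := cAnn_lt_top _ _
  have hqm1 : AEStronglyMeasurable (fun x => msz (D.h x) / D.l)
      (volume.restrict (cAnn (D.l / 2) D.l)) :=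
    (hcm.div_const _).aestronglyMeasurable (cAnn_measurable _ _)
  have hqm2 : AEStronglyMeasurable (fun x => msz (D.h x) ^ 2)
      (volume.restrict (cAnn (D.l / 2) D.l)) :=
    (hcm.pow 2).aestronglyMeasurable (cAnn_measurable _ _)
  have hl3 : D.l ^ 3 ≤ D.l ^ 4 := pow_le_pow_right₀ (by linarith) (by norm_num)
  have hb1 : ∀ x ∈ cAnn (D.l / 2) D.l, msz (D.h x) / D.l ≤ 12 * C / D.l ^ 3 := by
    intro x hx
    have := hmb x hx
    rw [div_le_iff₀ hl0]
    refine this.trans (le_of_eq ?_)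
    field_simp
  have hb2 : ∀ x ∈ cAnn (D.l / 2) D.l, msz (D.h x) ^ 2 ≤ 144 * C ^ 2 / D.l ^ 4 := by
    intro x hx
    have h1 := hmb x hx
    have h2 := msz_nonneg (D.h x)
    refine (pow_le_pow_left₀ h2 h1 2).trans (le_of_eq ?_)
    field_simp
    norm_num
  have hb3 : 144 * C ^ 2 / D.l ^ 4 ≤ 144 * C ^ 2 / D.l ^ 3 :=
    div_le_div_of_nonneg_left (by positivity) (by positivity) hl3
  have hH := key (cAnn (D.l / 2) D.l) (fun x => msz (D.h x) / D.l + msz (D.h x) ^ 2) c₁
    (cAnn_measurable _ _) hs1 (cAnn_mono (by positivity) (by linarith)) (hqm1.add hqm2)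
    ((ae_restrict_iff' (cAnn_measurable _ _)).mpr (Eventually.of_forall fun x hx => by
      have h1 := hb1 x hx
      have h2 := (hb2 x hx).trans hb3
      have h3 := msz_nonneg (D.h x)
      rw [abs_of_nonneg (by positivity), hc₁, add_div]
      linarith)) hc₁0.le
  have hfm : IsFiniteMeasure (volume.restrict (cAnn (D.l / 2) D.l)) :=
    ⟨by rwa [Measure.restrict_apply_univ]⟩
  have hi1 : IntegrableOn (fun x => msz (D.h x) / D.l) (cAnn (D.l / 2) D.l) := by
    refine Integrable.of_bound hqm1 (12 * C / D.l ^ 3) ?_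
    refine (ae_restrict_iff' (cAnn_measurable _ _)).mpr (Eventually.of_forall fun x hx => ?_)
    rw [Real.norm_eq_abs, abs_of_nonneg (div_nonneg (msz_nonneg _) hl0.le)]
    exact hb1 x hx
  have hi2 : IntegrableOn (fun x => msz (D.h x) ^ 2) (cAnn (D.l / 2) D.l) := by
    refine Integrable.of_bound hqm2 (144 * C ^ 2 / D.l ^ 4) ?_
    refine (ae_restrict_iff' (cAnn_measurable _ _)).mpr (Eventually.of_forall fun x hx => ?_)
    rw [Real.norm_eq_abs, abs_of_nonneg (sq_nonneg _)]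
    exact hb2 x hx
  have hq : (∫ x in cAnn (D.l / 2) D.l, (msz (D.h x) / D.l + msz (D.h x) ^ 2))
      ≤ D.th + 144 * C ^ 2 * V / r := by
    rw [integral_add hi1 hi2]
    refine add_le_add le_rfl ?_
    have h1 : (∫ x in cAnn (D.l / 2) D.l, msz (D.h x) ^ 2)
        ≤ ∫ _x in cAnn (D.l / 2) D.l, 144 * C ^ 2 / D.l ^ 4 :=
      setIntegral_mono_on hi2 (integrable_const _) (cAnn_measurable _ _) hb2
    refine h1.trans ?_
    rw [integral_const]
    simp only [measureReal_restrict_apply_univ, smul_eq_mul]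
    have h2 : volume.real (cAnn (D.l / 2) D.l) ≤ D.l ^ 3 * V := cAnn_vol _ hl0.le
    have h3 : volume.real (cAnn (D.l / 2) D.l) * (144 * C ^ 2 / D.l ^ 4)
        ≤ D.l ^ 3 * V * (144 * C ^ 2 / D.l ^ 4) := mul_le_mul_of_nonneg_right h2 (by positivity)
    refine h3.trans ?_
    have h4 : D.l ^ 3 * V * (144 * C ^ 2 / D.l ^ 4) = 144 * C ^ 2 * V / D.l := by
      field_simp
    rw [h4]
    exact div_le_div_of_nonneg_left (by positivity) hr0 hrl
  -- the integral of the weight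
  have hP : (∫ x in cAnn D.l (2 * D.l), D.ph P x) ≤ BU * D.l ^ 3 :=
    (setIntegral_mono_set hphI (Eventually.of_forall hph)
      (Eventually.of_forall (hs2'.trans hs3))).trans hphB
  have hP' : BM / D.l ^ 4 * (∫ x in cAnn D.l (2 * D.l), D.ph P x) ≤ BM * BU / r := by
    have h1 : BM / D.l ^ 4 * (∫ x in cAnn D.l (2 * D.l), D.ph P x)
        ≤ BM / D.l ^ 4 * (BU * D.l ^ 3) := mul_le_mul_of_nonneg_left hP (by positivity)
    refine h1.trans ?_
    have h4 : BM / D.l ^ 4 * (BU * D.l ^ 3) = BM * BU / D.l := by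
      field_simp
    rw [h4]
    exact div_le_div_of_nonneg_left (by positivity) hr0 hrl
  -- collect
  have hB2' : CT * (B / K₀ / D.l) ≤ CT * |B| / K₀ / r := by
    rw [abs_of_nonneg hB0]
    have h1 : CT * (B / K₀ / D.l) = CT * B / K₀ / D.l := by ring
    rw [h1]
    exact div_le_div_of_nonneg_left (by positivity) hr0 hrl
  have hcol : 4 * Real.pi * (2 - P.eps) ≤ CT * (B / K₀ / D.l + (1 + B) * D.er P se)
      + (D.Nd P + BM * (∫ x in cAnn (D.l / 2) D.l,
            D.ph P x * (msz (D.h x) / D.l + msz (D.h x) ^ 2))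
          - 1 / 2 * (∫ x in cAnn D.l (2 * D.l), D.ph P x * linR D.g' x)
          + BM / D.l ^ 4 * (∫ x in cAnn D.l (2 * D.l), D.ph P x)) := by
    rw [hB2] at hmain
    have h1 : (1 + B) * Real.exp (D.s2 P / (2 - P.eps))
        * Real.exp (-((lam P.eps / 2 - 1 / (2 - P.eps)) * (se - D.s2 P)))
        = (1 + B) * D.er P se := by
      unfold Dat.er
      ring
    rw [h1] at hmain
    linarith
  have hIh : (∫ x in cAnn (D.l / 2) D.l, D.ph P x * (msz (D.h x) / D.l + msz (D.h x) ^ 2))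
      ≤ |B₃| * D.th + (|B₃| * (144 * C ^ 2 * V) + c₁ * K) / r := by
    have h1 := (abs_le.mp hH).2
    have hqn : 0 ≤ ∫ x in cAnn (D.l / 2) D.l, (msz (D.h x) / D.l + msz (D.h x) ^ 2) :=
      integral_nonneg fun x => add_nonneg (div_nonneg (msz_nonneg _) hl0.le) (sq_nonneg _)
    have h2 : lm * (∫ x in cAnn (D.l / 2) D.l, (msz (D.h x) / D.l + msz (D.h x) ^ 2))
        ≤ |B₃| * (D.th + 144 * C ^ 2 * V / r) := by
      refine mul_le_mul hlmB hq hqn (abs_nonneg _)
    have h3 : (|B₃| * (144 * C ^ 2 * V) + c₁ * K) / r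
        = |B₃| * (144 * C ^ 2 * V / r) + c₁ * K / r := by ring
    rw [h3]
    linarith
  have hIL : -(1 / 2 * (∫ x in cAnn D.l (2 * D.l), D.ph P x * linR D.g' x))
      ≤ 8 * Real.pi * massIntegral D.g D.l * lm + C * K / r := by
    have h1 := (abs_le.mp hL).1
    have h3 : 0 ≤ C * K / r := by positivity
    linarith
  have hIh' : BM * (∫ x in cAnn (D.l / 2) D.l,
      D.ph P x * (msz (D.h x) / D.l + msz (D.h x) ^ 2))
      ≤ BM * (|B₃| * D.th + (|B₃| * (144 * C ^ 2 * V) + c₁ * K) / r) :=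
    mul_le_mul_of_nonneg_left hIh hBM.le
  rw [hrp]
  have hBabs : |B| = B := abs_of_nonneg hB0
  rw [hBabs] at hB2' ⊢
  -- nonnegative pieces
  have p1 : 0 ≤ CT * B / K₀ := by positivity
  have p2 : 0 ≤ CT * (1 + B) := by positivity
  have p3 : 0 ≤ BM * |B₃| := by positivity
  have p4 : 0 ≤ BM * (|B₃| * (144 * C ^ 2 * V) + c₁ * K) := by positivity
  have p5 : 0 ≤ C * K := by positivity
  have p6 : 0 ≤ BM * BU := by positivity
  set ir := 1 / r with hir
  have hir0 : 0 ≤ ir := by positivity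
  have f1 : CT * B / K₀ / r = CT * B / K₀ * ir := by rw [hir]; ring
  have f2 : (|B₃| * (144 * C ^ 2 * V) + c₁ * K) / r
      = (|B₃| * (144 * C ^ 2 * V) + c₁ * K) * ir := by rw [hir]; ring
  have f3 : C * K / r = C * K * ir := by rw [hir]; ring
  have f4 : BM * BU / r = BM * BU * ir := by rw [hir]; ring
  rw [f1] at hB2'
  rw [f2] at hIh'
  rw [f3] at hIL
  rw [f4] at hP'
  set A₁ := CT * B / K₀
  set A₂ := CT * (1 + B)
  set A₄ := |B₃| * (144 * C ^ 2 * V) + c₁ * K
  have g1 : CT * (B / K₀ / D.l + (1 + B) * D.er P se)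
      ≤ A₁ * ir + A₂ * D.er P se := by
    have : CT * (B / K₀ / D.l + (1 + B) * D.er P se)
        = CT * (B / K₀ / D.l) + A₂ * D.er P se := by ring
    rw [this]
    linarith
  have total : 4 * Real.pi * (2 - P.eps) ≤ 8 * Real.pi * massIntegral D.g D.l * lm
      + (A₁ + BM * A₄ + C * K + BM * BU) * ir + BM * |B₃| * D.th + D.Nd P + A₂ * D.er P se := by
    linarith [hcol, hIh', hIL, hP', g1]
  have hfin2 : (A₁ + BM * A₄ + C * K + BM * BU) * ir + BM * |B₃| * D.th
      + A₂ * D.er P se ≤ (A₁ + A₂ + 1 + BM * (|B₃| + A₄) + C * K + BM * BU)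
        * (ir + D.th + D.er P se) := by
    have q1 : 0 ≤ (A₂ + 1 + BM * |B₃|) * ir := by positivity
    have q2 : 0 ≤ (A₁ + A₂ + 1 + BM * A₄ + C * K + BM * BU) * D.th := by positivity
    have q4 : 0 ≤ (A₁ + 1 + BM * (|B₃| + A₄) + C * K + BM * BU) * D.er P se := by positivity
    linarith [q1, q2, q4]
  have hform : A₁ + A₂ + 1 + BM * (|B₃| + |B₃| * (144 * C ^ 2 * V) + c₁ * K) + C * K + BM * BU
      = A₁ + A₂ + 1 + BM * (|B₃| + A₄) + C * K + BM * BU := by
    simp only [A₄]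
    ring
  rw [hform]
  linarith

end Pool.Agent.PFT
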