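import Pool.Agent.PFT.StmtsE
import Pool.Agent.PFlow.E.DEFE

/-!
# NDS: the total defect when the defect has two parts
-/

open MeasureTheory Filter Topology
open scoped ContDiff ENNReal

namespace Pool.Agent.PFT

open Pool.Agent.PenroseSph Pool.Agent.PFlow

namespace NDSm

/-- The facts about the level region below `s₂`. -/
structure Region (Q : Par) (D : Dat) (L : Set E3) : Prop where
  meas : MeasurableSet L
  vol : IntegrableOn D.vol L
  X : AEStronglyMeasurable (D.X Q) (volume.restrict L)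
  IX : IntegrableOn (fun x => D.X Q x ^ (1 + Q.eps) * D.vol x) L
  ph : AEStronglyMeasurable (D.ph Q) (volume.restrict L)
  IP : IntegrableOn (fun x => D.ph Q x ^ (1 + Q.eps) * D.vol x) L

theorem ph_pow {Q : Par} {D : Dat} (hX : ∀ x, 0 ≤ D.X Q x) (x : E3) :
    D.ph Q x ^ (1 + Q.eps) =
      Real.exp ((1 + Q.eps) * D.w Q x / (2 - Q.eps)) * D.X Q x ^ (1 + Q.eps) := by
  show (Real.exp (D.w Q x / (2 - Q.eps)) * D.X Q x) ^ (1 + Q.eps) = _
  rw [Real.mul_rpow (Real.exp_pos _).le (hX x), ← Real.exp_mul]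
  congr 2
  ring

theorem exp_le {Q : Par} {D : Dat} (hε : 0 < Q.eps) (hε2 : Q.eps ≤ 1 / 2) {x : E3}
    (hx : D.w Q x ≤ D.s2 Q) :
    Real.exp ((1 + Q.eps) * D.w Q x / (2 - Q.eps)) ≤
      Real.exp ((1 + Q.eps) * D.s2 Q / (2 - Q.eps)) := by
  apply Real.exp_le_exp.mpr
  have h2 : 0 < 2 - Q.eps := by linarith
  refine div_le_div_of_nonneg_right ?_ h2.le
  exact mul_le_mul_of_nonneg_left hx (by linarith)

theorem region {Q : Par} {D : Dat} {B : ℝ} (hD : Setup Q D) (hAbs : AbsOf Q D B)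
    (wmeas : Measurable (D.w Q)) (sb0 : 0 < D.sb Q) (hsb2 : D.sb Q < D.s2 Q)
    (h2M : D.s2 Q < D.sM Q) :
    Region Q D (D.Om ∩ {x | D.sb Q / 2 ≤ D.w Q x ∧ D.w Q x ≤ D.s2 Q}) := by
  have hε := hD.eps_pos
  have hε2 := hD.eps_le
  have hint3 := hAbs.int_X (D.sb Q / 2) (D.s2 Q) (by linarith) (by linarith) (by linarith)
  have hintv := hAbs.int_vol (D.sb Q / 2) (D.s2 Q) (by linarith) (by linarith) (by linarith)
  have hOmm := hAbs.measOmega
  set L := D.Om ∩ {x | D.sb Q / 2 ≤ D.w Q x ∧ D.w Q x ≤ D.s2 Q} with hL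
  have hLm : MeasurableSet L := by
    refine hOmm.inter ?_
    exact (measurableSet_le measurable_const wmeas).inter
      (measurableSet_le wmeas measurable_const)
  have hXm : AEStronglyMeasurable (D.X Q) (volume.restrict L) :=
    hAbs.meas_X.mono_measure (Measure.restrict_mono Set.inter_subset_left le_rfl)
  have hIX : IntegrableOn (fun x => D.X Q x ^ (1 + Q.eps) * D.vol x) L := by
    refine Integrable.mono' (hint3.add hintv)
      ((hXm.aemeasurable.pow_const _).aestronglyMeasurable.mul hintv.aestronglyMeasurable)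
      (Eventually.of_forall fun x => ?_)
    have hx0 := hAbs.X_nonneg x
    have hv0 := hAbs.vol_nonneg x
    rw [Real.norm_eq_abs, abs_of_nonneg (mul_nonneg (Real.rpow_nonneg hx0 _) hv0)]
    show D.X Q x ^ (1 + Q.eps) * D.vol x ≤ D.X Q x ^ 3 * D.vol x + D.vol x
    have := mul_le_mul_of_nonneg_right
      (EDEFE.rpow_le_cube (p := 1 + Q.eps) hx0 (by linarith) (by linarith)) hv0
    linarith
  have hph0 : ∀ x, 0 ≤ D.ph Q x := fun x => mul_nonneg (Real.exp_pos _).le (hAbs.X_nonneg x)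
  have hphm : AEStronglyMeasurable (D.ph Q) (volume.restrict L) := by
    have h1 : Measurable fun x => Real.exp (D.w Q x / (2 - Q.eps)) :=
      Real.measurable_exp.comp (wmeas.div_const _)
    exact h1.aestronglyMeasurable.mul hXm
  have hIP : IntegrableOn (fun x => D.ph Q x ^ (1 + Q.eps) * D.vol x) L := by
    refine Integrable.mono' (hIX.const_mul (Real.exp ((1 + Q.eps) * D.s2 Q / (2 - Q.eps))))
      ((hphm.aemeasurable.pow_const _).aestronglyMeasurable.mul hintv.aestronglyMeasurable) ?_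
    rw [ae_restrict_iff' hLm]
    refine Eventually.of_forall fun x hx => ?_
    have hx0 := Real.rpow_nonneg (hAbs.X_nonneg x) (1 + Q.eps)
    have hv0 := hAbs.vol_nonneg x
    rw [Real.norm_eq_abs, abs_of_nonneg (mul_nonneg (Real.rpow_nonneg (hph0 x) _) hv0),
      ph_pow hAbs.X_nonneg, mul_assoc]
    exact mul_le_mul_of_nonneg_right (exp_le hε hε2 hx.2.2) (mul_nonneg hx0 hv0)
  exact ⟨hLm, hintv, hXm, hIX, hphm, hIP⟩

/-- The second part of the defect. -/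
theorem second (hSETW : Stmt_SETW) (hUPH : Stmt_UPH) (hFLXA : Stmt_FLXA)
    (P : Par) (B : ℝ) (β : ℝ → ℝ) (g : TensorField) (l : ℝ) (hβ : IsBump β) :
    ∃ B' : ℝ, 0 < B' ∧ ∀ D : Dat, Setup P D → AbsOf P D B → D.g = g → D.l = l →
      ∀ e : E3 → ℝ, Continuous e → (∀ x, 0 ≤ e x) →
        IntegrableOn (fun x => D.ph P x * e x * D.vol x)
          (cAnn (P.kap / D.l) D.l ∩ {x | D.sb P / 2 ≤ D.w P x}) ∧
        ∫ x in cAnn (P.kap / D.l) D.l ∩ {x | D.sb P / 2 ≤ D.w P x}, D.ph P x * e x * D.vol x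
          ≤ B' * (∫ x in cAnn (P.kap / D.l) D.l, e x ^ ((1 + P.eps) / P.eps))
            ^ (P.eps / (1 + P.eps)) := by
  by_cases hex : ∃ D : Dat, Setup P D ∧ D.g = g ∧ D.l = l
  swap
  · refine ⟨1, one_pos, fun D hD _ h1 h2 => ?_⟩
    exact absurd ⟨D, hD, h1, h2⟩ hex
  obtain ⟨D₀, hD₀, hg₀, hl₀⟩ := hex
  obtain ⟨BU, hBU, hU⟩ := hUPH P B β hβ
  have hε := hD₀.eps_pos
  have hε2 := hD₀.eps_le
  have hκ := hD₀.kap_pos
  have hκ8 := hD₀.kap_le
  have hl4 : 4 ≤ l := hl₀ ▸ hD₀.l_ge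
  have hl : 0 < l := by linarith
  have hK := EDEFE.isCompact_cAnn (P.kap / l) l
  have hKne : ∀ x ∈ cAnn (P.kap / l) l, x ≠ 0 := by
    rintro x ⟨hx, _⟩ rfl
    rw [norm_zero] at hx
    have : 0 < P.kap / l := by positivity
    linarith
  -- the volume density of `g` is bounded
  obtain ⟨V, hV⟩ : ∃ V : ℝ, ∀ x ∈ cAnn (P.kap / l) l, volDen g x ≤ V := by
    have hc : ContinuousOn (volDen g) (cAnn (P.kap / l) l) := by
      have h1 : ContinuousOn (fun x => (g x).det) (cAnn (P.kap / l) l) := by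
        have h2 : ∀ i j, ContinuousOn (fun x => g x i j) (cAnn (P.kap / l) l) := by
          intro i j
          have := (hg₀ ▸ hD₀.metric0.smooth i j : ContDiffOn ℝ ∞ (fun x => g x i j) {0}ᶜ)
          exact this.continuousOn.mono fun x hx => hKne x hx
        simp only [Matrix.det_fin_three]
        fun_prop
      exact Real.continuous_sqrt.comp_continuousOn h1
    obtain ⟨V, hV⟩ := hK.bddAbove_image hc
    exact ⟨V, fun x hx => hV ⟨x, hx, rfl⟩⟩
  have hV0 : 0 ≤ V := by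
    have hx : (EuclideanSpace.single (0 : Fin 3) (l : ℝ)) ∈ cAnn (P.kap / l) l := by
      constructor
      · rw [EuclideanSpace.norm_single, Real.norm_eq_abs, abs_of_pos hl, div_le_iff₀ hl]
        nlinarith
      · rw [EuclideanSpace.norm_single, Real.norm_eq_abs, abs_of_pos hl]
    exact (Real.sqrt_nonneg _).trans (hV _ hx)
  set q := (1 + P.eps) / P.eps with hq
  have hq0 : 0 < q := by
    rw [hq]
    have : 0 < 1 + P.eps := by linarith
    positivity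
  set s₂ := s2E P.eps P.gam l with hs₂
  set A : ℝ := Real.exp ((1 + P.eps) * s₂ / (2 - P.eps)) * (BU * Real.exp s₂) with hA
  have hA0 : 0 ≤ A := by positivity
  refine ⟨A ^ (1 / (1 + P.eps)) * V ^ (P.eps / (1 + P.eps)) + 1, ?_, ?_⟩
  · have h1 := Real.rpow_nonneg hA0 (1 / (1 + P.eps))
    have h2 := Real.rpow_nonneg hV0 (P.eps / (1 + P.eps))
    have := mul_nonneg h1 h2
    linarith
  intro D hD hAbs hDg hDl e he he0
  obtain ⟨w1, w2, w3, w4, w5, w6, wmeas, w8, w9, w10, w11, w12, w13, w14, w15, sb0, sb1, sbe,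
    s21, s2M, w21, w22⟩ := hSETW P D hD
  obtain ⟨hJ, _, _⟩ := hU D hD hAbs
  have hs2D : D.s2 P = s₂ := by rw [hs₂, ← hDl]; rfl
  have hsb2 : D.sb P < D.s2 P := by linarith
  have hγ := hD.gam_pos
  obtain ⟨hJ0, hflx⟩ := hFLXA P.eps β hε hε2 hβ _ _ _ _ _ _ _ _ _ _ _ _ hAbs sb0 hsb2 (by linarith)
  -- the region
  set T := cAnn (P.kap / D.l) D.l ∩ {x | D.sb P / 2 ≤ D.w P x} with hT
  have hTm : MeasurableSet T := by
    refine MeasurableSet.inter ?_ (measurableSet_le measurable_const wmeas)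
    exact (EDEFE.isCompact_cAnn _ _).measurableSet
  have hRl : 2 * l / P.kap ≤ D.R := hDl ▸ hD.R_ge'
  have hR0 : 0 < D.R := lt_of_lt_of_le (by positivity) hRl
  have hlR : l < D.R := by
    refine lt_of_lt_of_le ?_ hRl
    rw [lt_div_iff₀ hκ]
    nlinarith
  have hinv : 1 / D.R < P.kap / l := by
    rw [div_lt_div_iff₀ hR0 hl]
    have h1 : 2 * l ≤ D.R * P.kap := by
      rwa [div_le_iff₀ hκ] at hRl
    nlinarith
  have hcOm : cAnn (P.kap / D.l) D.l ⊆ D.Om := by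
    rintro x ⟨h1, h2⟩
    rw [hDl] at h1 h2
    exact ⟨lt_of_lt_of_le hinv h1, lt_of_le_of_lt h2 hlR⟩
  have hTs : T ⊆ D.Om ∩ {x | D.sb P / 2 ≤ D.w P x ∧ D.w P x ≤ D.s2 P} := by
    rintro x ⟨h1, h2⟩
    refine ⟨hcOm h1, h2, ?_⟩
    refine (hD.located.mid x (hcOm h1) ?_).le
    have := h1.2
    rw [hDl] at this ⊢
    linarith
  have hreg := region hD hAbs wmeas sb0 hsb2 (by linarith)
  set L := D.Om ∩ {x | D.sb P / 2 ≤ D.w P x ∧ D.w P x ≤ D.s2 P} with hL
  have hph0 : ∀ x, 0 ≤ D.ph P x := fun x => mul_nonneg (Real.exp_pos _).le (hAbs.X_nonneg x)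
  have hIPle : (∫ x in T, D.ph P x ^ (1 + P.eps) * D.vol x) ≤ A := by
    have h1 : (∫ x in T, D.ph P x ^ (1 + P.eps) * D.vol x) ≤
        ∫ x in L, D.ph P x ^ (1 + P.eps) * D.vol x :=
      setIntegral_mono_set hreg.IP (Eventually.of_forall fun x =>
        mul_nonneg (Real.rpow_nonneg (hph0 x) _) (hAbs.vol_nonneg x)) (HasSubset.Subset.eventuallyLE hTs)
    have h2 : (∫ x in L, D.ph P x ^ (1 + P.eps) * D.vol x) ≤
        ∫ x in L, Real.exp ((1 + P.eps) * s₂ / (2 - P.eps)) *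
          (D.X P x ^ (1 + P.eps) * D.vol x) := by
      refine setIntegral_mono_on hreg.IP (hreg.IX.const_mul _) hreg.meas fun x hx => ?_
      rw [ph_pow hAbs.X_nonneg, mul_assoc, ← hs2D]
      exact mul_le_mul_of_nonneg_right (exp_le hε hε2 hx.2.2)
        (mul_nonneg (Real.rpow_nonneg (hAbs.X_nonneg x) _) (hAbs.vol_nonneg x))
    rw [integral_const_mul] at h2
    have h3 := hflx (D.sb P / 2) (D.s2 P) (by linarith) (by linarith) le_rfl
    have h4 : jInf P.eps β D.Om D.vol (D.w P) (D.X P) (D.s2 P) *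
        (Real.exp (D.s2 P) - Real.exp (D.sb P / 2)) ≤ BU * Real.exp s₂ := by
      rw [hs2D] at hJ0 hJ ⊢
      have h5 : Real.exp s₂ - Real.exp (D.sb P / 2) ≤ Real.exp s₂ := by
        linarith [Real.exp_pos (D.sb P / 2)]
      exact (mul_le_mul_of_nonneg_left h5 hJ0).trans
        (mul_le_mul_of_nonneg_right hJ (Real.exp_pos _).le)
    refine h1.trans (h2.trans ?_)
    exact mul_le_mul_of_nonneg_left (h3.trans h4) (Real.exp_pos _).le
  -- the defect
  obtain ⟨E, hE⟩ := (EDEFE.isCompact_cAnn (P.kap / D.l) D.l).bddAbove_image he.continuousOn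
  obtain ⟨c1, c2, c3⟩ := EDEFE.core P.eps T (D.ph P) e D.vol A E hε hTm hAbs.vol_nonneg hph0
    he0 (fun x hx => hE ⟨x, hx.1, rfl⟩) (hreg.vol.mono_set hTs) (hreg.IP.mono_set hTs)
    (hreg.ph.mono_measure (Measure.restrict_mono hTs le_rfl)) he.aestronglyMeasurable hIPle
  refine ⟨c1, ?_⟩
  -- the integral of the defect
  have hIe : IntegrableOn (fun x => e x ^ q) (cAnn (P.kap / D.l) D.l) := by
    refine ContinuousOn.integrableOn_compact (EDEFE.isCompact_cAnn _ _) ?_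
    exact (he.rpow_const fun x => Or.inr hq0.le).continuousOn
  have hvolV : ∀ᵐ x ∂(volume.restrict T), D.vol x ≤ V := by
    have hsph : volume (Metric.sphere (0 : E3) l) = 0 := Measure.addHaar_sphere _ _ _
    have h1 : ∀ᵐ x ∂(volume : Measure E3), x ∉ Metric.sphere (0 : E3) l :=
      measure_eq_zero_iff_ae_notMem.mp hsph
    rw [ae_restrict_iff' hTm]
    filter_upwards [h1] with x hx hxT
    have hx1 := hxT.1.1
    have hx2 := hxT.1.2
    rw [hDl] at hx1 hx2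
    have hx3 : ‖x‖ < l := lt_of_le_of_ne hx2 (by simpa using hx)
    have h4 : 1 / (16 * D.R) < ‖x‖ := by
      refine lt_of_lt_of_le ?_ hx1
      refine lt_trans ?_ hinv
      exact one_div_lt_one_div_of_lt hR0 (by linarith)
    have h5 := hD.modified.same x h4 (hDl.symm ▸ hx3)
    have h6 : D.vol x = volDen g x := by
      show Real.sqrt (D.g' x).det = Real.sqrt (g x).det
      rw [h5, hDg]
    rw [h6]
    exact hV x ⟨hx1, hx2⟩
  have hI2 : (∫ x in T, e x ^ q * D.vol x) ≤ V * ∫ x in cAnn (P.kap / D.l) D.l, e x ^ q := by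
    have h1 : (∫ x in T, e x ^ q * D.vol x) ≤ ∫ x in T, V * e x ^ q := by
      refine integral_mono_ae c2 ((hIe.mono_set Set.inter_subset_left).const_mul V) ?_
      filter_upwards [hvolV] with x hx
      rw [mul_comm V]
      exact mul_le_mul_of_nonneg_left hx (Real.rpow_nonneg (he0 x) _)
    rw [integral_const_mul] at h1
    refine h1.trans (mul_le_mul_of_nonneg_left ?_ hV0)
    exact setIntegral_mono_set hIe (Eventually.of_forall fun x => Real.rpow_nonneg (he0 x) _)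
      (HasSubset.Subset.eventuallyLE Set.inter_subset_left)
  have hIe0 : 0 ≤ ∫ x in cAnn (P.kap / D.l) D.l, e x ^ q :=
    integral_nonneg fun x => Real.rpow_nonneg (he0 x) _
  have hex0 : 0 ≤ P.eps / (1 + P.eps) := by
    have : 0 < 1 + P.eps := by linarith
    positivity
  have h9 : (∫ x in T, e x ^ q * D.vol x) ^ (P.eps / (1 + P.eps)) ≤
      V ^ (P.eps / (1 + P.eps)) *
        (∫ x in cAnn (P.kap / D.l) D.l, e x ^ q) ^ (P.eps / (1 + P.eps)) := by
    rw [← Real.mul_rpow hV0 hIe0]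
    refine Real.rpow_le_rpow ?_ hI2 hex0
    exact integral_nonneg fun x => mul_nonneg (Real.rpow_nonneg (he0 x) _) (hAbs.vol_nonneg x)
  have h10 := Real.rpow_nonneg hA0 (1 / (1 + P.eps))
  have h11 := Real.rpow_nonneg hIe0 (P.eps / (1 + P.eps))
  refine c3.trans ?_
  refine (mul_le_mul_of_nonneg_left h9 h10).trans ?_
  rw [← mul_assoc]
  exact mul_le_mul_of_nonneg_right (by linarith) h11

/-- The first part of the defect. -/
theorem first (hSETW : Stmt_SETW) (hFLXA : Stmt_FLXA) (hHOLA : Stmt_HOLA)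
    (Q : Par) (B : ℝ) (β : ℝ → ℝ) (hβ : IsBump β) (D : Dat) (hD : Setup Q D)
    (hAbs : AbsOf Q D B) (T Tc : Set E3) (e₀ : E3 → ℝ) (E V s J : ℝ) (hc : Continuous e₀)
    (h0 : ∀ x, 0 ≤ e₀ x ∧ e₀ x ≤ E) (hz : ∀ x, x ∉ T → e₀ x = 0) (hT : IsCompact T)
    (hTO : T ⊆ D.Om) (hTw : ∀ x ∈ T, D.sb Q / 2 ≤ D.w Q x ∧ D.w Q x ≤ s) (hs : s ≤ D.s2 Q)
    (hJ0 : 0 ≤ J) (hV0 : 0 ≤ V) (hV : (∫ x in T, D.vol x) ≤ V)
    (hJ : jInf Q.eps β D.Om D.vol (D.w Q) (D.X Q) (D.s2 Q) ≤ J) (hTc : MeasurableSet Tc) :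
    ∫ x in Tc, D.ph Q x * e₀ x * D.vol x
      ≤ E * Real.exp (s / (2 - Q.eps)) * ((J * Real.exp s) ^ (1 / (1 + Q.eps))
            * V ^ (Q.eps / (1 + Q.eps))) := by
  have hε := hD.eps_pos
  have hε2 := hD.eps_le
  have hγ := hD.gam_pos
  have hE0 : 0 ≤ E := (h0 0).1.trans (h0 0).2
  have hR0 : 0 ≤ (J * Real.exp s) ^ (1 / (1 + Q.eps)) * V ^ (Q.eps / (1 + Q.eps)) := by
    have := Real.exp_pos s
    positivity
  rcases T.eq_empty_or_nonempty with hTe | ⟨x₀, hx₀⟩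
  · have h1 : ∀ x, D.ph Q x * e₀ x * D.vol x = 0 := by
      intro x
      rw [hz x (by rw [hTe]; exact Set.notMem_empty x), mul_zero, zero_mul]
    simp only [h1, integral_zero]
    exact mul_nonneg (mul_nonneg hE0 (Real.exp_pos _).le) hR0
  have hs1 : D.sb Q / 2 ≤ s := (hTw x₀ hx₀).1.trans (hTw x₀ hx₀).2
  obtain ⟨w1, w2, w3, w4, w5, w6, wmeas, w8, w9, w10, w11, w12, w13, w14, w15, sb0, sb1, sbe,
    s21, s2M, w21, w22⟩ := hSETW Q D hD
  have hsb2 : D.sb Q < D.s2 Q := by linarith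
  obtain ⟨hj0, hflx⟩ := hFLXA Q.eps β hε hε2 hβ _ _ _ _ _ _ _ _ _ _ _ _ hAbs sb0 hsb2 (by linarith)
  have hreg := region hD hAbs wmeas sb0 hsb2 (by linarith)
  set L := D.Om ∩ {x | D.sb Q / 2 ≤ D.w Q x ∧ D.w Q x ≤ D.s2 Q} with hL
  have hTm : MeasurableSet T := hT.measurableSet
  have hTL : T ⊆ L := fun x hx => ⟨hTO hx, (hTw x hx).1, (hTw x hx).2.trans hs⟩
  have hph0 : ∀ x, 0 ≤ D.ph Q x := fun x => mul_nonneg (Real.exp_pos _).le (hAbs.X_nonneg x)
  have hf0 : ∀ x, 0 ≤ D.ph Q x * e₀ x * D.vol x := fun x =>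
    mul_nonneg (mul_nonneg (hph0 x) (h0 x).1) (hAbs.vol_nonneg x)
  -- the inequality for the flux
  set Ls := D.Om ∩ {x | D.sb Q / 2 ≤ D.w Q x ∧ D.w Q x ≤ s} with hLs
  have hLsL : Ls ⊆ L := fun x hx => ⟨hx.1, hx.2.1, hx.2.2.trans hs⟩
  have hI : (∫ x in T, D.X Q x ^ (1 + Q.eps) * D.vol x) ≤ J * Real.exp s := by
    have h1 : (∫ x in T, D.X Q x ^ (1 + Q.eps) * D.vol x) ≤
        ∫ x in Ls, D.X Q x ^ (1 + Q.eps) * D.vol x :=
      setIntegral_mono_set (hreg.IX.mono_set hLsL) (Eventually.of_forall fun x =>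
        mul_nonneg (Real.rpow_nonneg (hAbs.X_nonneg x) _) (hAbs.vol_nonneg x))
        (HasSubset.Subset.eventuallyLE fun x hx => ⟨hTO hx, hTw x hx⟩)
    have h3 := hflx (D.sb Q / 2) s (by linarith) hs1 hs
    have h5 : Real.exp s - Real.exp (D.sb Q / 2) ≤ Real.exp s := by
      linarith [Real.exp_pos (D.sb Q / 2)]
    exact h1.trans (h3.trans ((mul_le_mul_of_nonneg_left h5 hj0).trans
      (mul_le_mul_of_nonneg_right hJ (Real.exp_pos _).le)))
  obtain ⟨k1, k2⟩ := hHOLA Q.eps T D.vol (D.X Q) (J * Real.exp s) V hε (by linarith) hTm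
    hAbs.vol_nonneg hAbs.X_nonneg (hreg.vol.mono_set hTL) (hreg.IX.mono_set hTL)
    (hreg.X.mono_measure (Measure.restrict_mono hTL le_rfl)) hI hV
  -- integrability on `T`
  obtain ⟨c1, -, -⟩ := EDEFE.core Q.eps T (D.ph Q) e₀ D.vol _ E hε hTm hAbs.vol_nonneg hph0
    (fun x => (h0 x).1) (fun x _ => (h0 x).2) (hreg.vol.mono_set hTL) (hreg.IP.mono_set hTL)
    (hreg.ph.mono_measure (Measure.restrict_mono hTL le_rfl)) hc.aestronglyMeasurable le_rfl
  have e1 : ∫ x in Tc, D.ph Q x * e₀ x * D.vol x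
      = ∫ x in Tc ∩ T, D.ph Q x * e₀ x * D.vol x := by
    refine setIntegral_eq_of_subset_of_forall_diff_eq_zero hTc Set.inter_subset_left ?_
    rintro x ⟨hx, hx2⟩
    have hxT : x ∉ T := fun h => hx2 ⟨hx, h⟩
    rw [hz x hxT, mul_zero, zero_mul]
  have e2 : ∫ x in Tc ∩ T, D.ph Q x * e₀ x * D.vol x ≤ ∫ x in T, D.ph Q x * e₀ x * D.vol x :=
    setIntegral_mono_set c1 (Eventually.of_forall hf0)
      (HasSubset.Subset.eventuallyLE Set.inter_subset_right)
  have e3 : ∫ x in T, D.ph Q x * e₀ x * D.vol x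
      ≤ ∫ x in T, E * Real.exp (s / (2 - Q.eps)) * (D.X Q x * D.vol x) := by
    refine setIntegral_mono_on c1 (k1.const_mul _) hTm fun x hx => ?_
    have h1 : D.ph Q x ≤ Real.exp (s / (2 - Q.eps)) * D.X Q x := by
      show Real.exp (D.w Q x / (2 - Q.eps)) * D.X Q x ≤ _
      refine mul_le_mul_of_nonneg_right ?_ (hAbs.X_nonneg x)
      apply Real.exp_le_exp.mpr
      exact div_le_div_of_nonneg_right (hTw x hx).2 (by linarith)
    have h2 : D.ph Q x * e₀ x ≤ Real.exp (s / (2 - Q.eps)) * D.X Q x * E :=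
      mul_le_mul h1 (h0 x).2 (h0 x).1 (mul_nonneg (Real.exp_pos _).le (hAbs.X_nonneg x))
    calc D.ph Q x * e₀ x * D.vol x ≤ Real.exp (s / (2 - Q.eps)) * D.X Q x * E * D.vol x :=
          mul_le_mul_of_nonneg_right h2 (hAbs.vol_nonneg x)
      _ = _ := by ring
  rw [integral_const_mul] at e3
  rw [e1]
  exact e2.trans (e3.trans (mul_le_mul_of_nonneg_left k2
    (mul_nonneg hE0 (Real.exp_pos _).le)))

end NDSm

theorem t_NDS (hSETW : Stmt_SETW) (hUPH : Stmt_UPH) (hFLXA : Stmt_FLXA) (hHOLA : Stmt_HOLA) :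
    Stmt_NDS := by
  intro Q B β g l hβ
  obtain ⟨B', hB', h2⟩ := NDSm.second hSETW hUPH hFLXA Q B β g l hβ
  refine ⟨B', hB', ?_⟩
  intro D hD hAbs hDg hDl T e₀ e₂ E V s J he hc0 hc2 hb hz hT hTO hTw hs hJ0 hV0 hV hJ
  obtain ⟨i2, b2⟩ := h2 D hD hAbs hDg hDl e₂ hc2 fun x => (hb x).2.1
  obtain ⟨i0, -⟩ := h2 D hD hAbs hDg hDl e₀ hc0 fun x => (hb x).1
  obtain ⟨w1, w2, w3, w4, w5, w6, wmeas, -⟩ := hSETW Q D hD
  have hTcm : MeasurableSet (cAnn (Q.kap / D.l) D.l ∩ {x | D.sb Q / 2 ≤ D.w Q x}) := by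
    refine MeasurableSet.inter ?_ (measurableSet_le measurable_const wmeas)
    exact (EDEFE.isCompact_cAnn _ _).measurableSet
  have b0 := NDSm.first hSETW hFLXA hHOLA Q B β hβ D hD hAbs T
    (cAnn (Q.kap / D.l) D.l ∩ {x | D.sb Q / 2 ≤ D.w Q x}) e₀ E V s J hc0
    (fun x => ⟨(hb x).1, (hb x).2.2⟩) hz hT hTO hTw hs hJ0 hV0 hV hJ hTcm
  have e1 : D.Nd Q = (∫ x in cAnn (Q.kap / D.l) D.l ∩ {x | D.sb Q / 2 ≤ D.w Q x},
        D.ph Q x * e₀ x * D.vol x)
      + ∫ x in cAnn (Q.kap / D.l) D.l ∩ {x | D.sb Q / 2 ≤ D.w Q x},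
        D.ph Q x * e₂ x * D.vol x := by
    rw [← integral_add i0 i2]
    show (∫ x in cAnn (Q.kap / D.l) D.l ∩ {x | D.sb Q / 2 ≤ D.w Q x},
      D.ph Q x * D.e x * D.vol x) = _
    refine integral_congr_ae (Eventually.of_forall fun x => ?_)
    show D.ph Q x * D.e x * D.vol x = D.ph Q x * e₀ x * D.vol x + D.ph Q x * e₂ x * D.vol x
    rw [he]; ring
  rw [e1]
  exact add_le_add b0 b2

end Pool.Agent.PFT
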