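import Pool.Agent.PFT.StmtsCAP
import Pool.Agent.PFlow.E.BARB

/-!
# NE: the bounds of a metric and of a tensor near an end at the origin
-/

open MeasureTheory Filter Topology
open scoped ContDiff ENNReal

namespace Pool.Agent.PFT.NEAux

open Pool.Agent.PenroseSph Pool.Agent.PFlow

/-- smoothness of the inverted field at the image of a point -/
theorem inverted_contDiffAt {g : TensorField} {x : E3} (hx : x ≠ 0)
    (hg : ∀ i j, ContDiffAt ℝ ∞ (fun y => g y i j) x) (a b : Fin 3) :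
    ContDiffAt ℝ ∞ (fun y => inverted g y a b) (inversion x) := by
  have hy : inversion x ∈ ({0}ᶜ : Set E3) := HSM2.inversion_ne x hx
  have hnb : ({0}ᶜ : Set E3) ∈ 𝓝 (inversion x) := isOpen_compl_singleton.mem_nhds hy
  have hJ : ∀ a i, ContDiffAt ℝ ∞ (fun y : E3 => inversionJac y a i) (inversion x) := fun a i =>
    (AFDaux.contDiffOn_jac a i).contDiffAt hnb
  have hI : ContDiffAt ℝ ∞ inversion (inversion x) := AFDaux.contDiffOn_inversion.contDiffAt hnb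
  have hgI : ∀ i j, ContDiffAt ℝ ∞ (fun y => g (inversion y) i j) (inversion x) := by
    intro i j
    refine ContDiffAt.comp (g := fun y => g y i j) (f := inversion) (inversion x) ?_ hI
    rw [HSM2.inversion_inversion x hx]
    exact hg i j
  have e : (fun y => inverted g y a b) = fun y =>
      ∑ d, (∑ c, inversionJac y c a * g (inversion y) c d) * inversionJac y d b := by
    funext y; exact AFDaux.inverted_apply g y a b
  rw [e]
  refine ContDiffAt.sum fun d _ => ContDiffAt.mul (ContDiffAt.sum fun c _ => ?_) (hJ d b)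
  exact (hJ c a).mul (hgI c d)

/-- near a point different from the origin the field is the inverse transform -/
theorem eventually_eq (g : TensorField) {x : E3} (hx : x ≠ 0) (i j : Fin 3) :
    (fun y => g y i j) =ᶠ[𝓝 x] fun y => ∑ b, (∑ a, inversionJac y a i *
      inverted g (inversion y) a b) * inversionJac y b j := by
  filter_upwards [isOpen_compl_singleton.mem_nhds hx] with y hy
  exact BARBm.g_eq g hy i j

theorem pd_congr1 {f f' : E3 → ℝ} {x : E3} (h : f =ᶠ[𝓝 x] f') (l : Fin 3) :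
    pd l f =ᶠ[𝓝 x] pd l f' := by
  filter_upwards [h.eventuallyEq_nhds] with y hy
  exact pd_congr hy

theorem jet2_field (hJET : Stmt_JET) {C₁ C₂ s : ℝ} {e : ℤ} {g : TensorField} {x : E3} (hs : 0 < s)
    (hx : x ≠ 0) (hJ : ∀ a i, Jet2 C₁ s (-2) (fun y => inversionJac y a i) x)
    (hG : ∀ a b, Jet2 C₂ s e (fun y => inverted g (inversion y) a b) x) (i j : Fin 3) :
    |g x i j| ≤ 144 * C₁ ^ 2 * C₂ * s ^ (e - 4) ∧
    (∀ k, |pd k (fun y => g y i j) x| ≤ 144 * C₁ ^ 2 * C₂ * s ^ (e - 5)) ∧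
    (∀ k l, |pd k (pd l (fun y => g y i j)) x| ≤ 144 * C₁ ^ 2 * C₂ * s ^ (e - 6)) := by
  obtain ⟨-, h2, -, -, -, h6, -⟩ := hJET s x hs
  have k1 := h6 _ _ _ fun b => h2 _ _ _ _ _ _ (h6 _ _ _ fun a => h2 _ _ _ _ _ _ (hJ a i) (hG a b))
    (hJ b j)
  have hev := eventually_eq g hx i j
  have c : 3 * (4 * (3 * (4 * C₁ * C₂)) * C₁) = 144 * C₁ ^ 2 * C₂ := by ring
  refine ⟨?_, fun k => ?_, fun k l => ?_⟩
  · have := k1.b0
    rw [c, show (-2 + e + -2 : ℤ) = e - 4 by ring] at this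
    rw [BARBm.g_eq g hx i j]
    exact this
  · have := k1.b1 k
    rw [c, show (-2 + e + -2 - 1 : ℤ) = e - 5 by ring] at this
    rw [pd_congr hev]
    exact this
  · have := k1.b2 k l
    rw [c, show (-2 + e + -2 - 2 : ℤ) = e - 6 by ring] at this
    rw [pd_congr (pd_congr1 hev l)]
    exact this

theorem jet1_field (hJET : Stmt_JET) {C₁ C₂ s : ℝ} {e : ℤ} {g : TensorField} {x : E3} (hs : 0 < s)
    (hx : x ≠ 0) (hJ : ∀ a i, Jet2 C₁ s (-2) (fun y => inversionJac y a i) x)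
    (hG : ∀ a b, Jet1 C₂ s e (fun y => inverted g (inversion y) a b) x) (i j : Fin 3) :
    |g x i j| ≤ 144 * C₁ ^ 2 * C₂ * s ^ (e - 4) ∧
    (∀ k, |pd k (fun y => g y i j) x| ≤ 144 * C₁ ^ 2 * C₂ * s ^ (e - 5)) := by
  obtain ⟨h1, -, -, -, h5, -, h7⟩ := hJET s x hs
  have hJ1 : ∀ a i, Jet1 C₁ s (-2) (fun y => inversionJac y a i) x := fun a i => h7 _ _ _ (hJ a i)
  have k1 := h5 _ _ _ fun b => h1 _ _ _ _ _ _ (h5 _ _ _ fun a => h1 _ _ _ _ _ _ (hJ1 a i) (hG a b))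
    (hJ1 b j)
  have hev := eventually_eq g hx i j
  have c : 3 * (4 * (3 * (4 * C₁ * C₂)) * C₁) = 144 * C₁ ^ 2 * C₂ := by ring
  refine ⟨?_, fun k => ?_⟩
  · have := k1.b0
    rw [c, show (-2 + e + -2 : ℤ) = e - 4 by ring] at this
    rw [BARBm.g_eq g hx i j]
    exact this
  · have := k1.b1 k
    rw [c, show (-2 + e + -2 - 1 : ℤ) = e - 5 by ring] at this
    rw [pd_congr hev]
    exact this

/-- the quadratic form in the inverted coordinates -/
theorem ev_field (g : TensorField) {x : E3} (hx : x ≠ 0) (v : Cov) :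
    ev (g x) v v = ev (inverted g (inversion x)) ((inversionJac x).mulVec v)
      ((inversionJac x).mulVec v) := by
  unfold ev
  simp only [BARBm.g_eq g hx, Matrix.mulVec, dotProduct, Fin.sum_univ_three]
  ring

/-- the Jacobian matrix is a multiple of an isometry -/
theorem sum_jac {x : E3} (hx : x ≠ 0) (v : Cov) :
    ∑ i, ((inversionJac x).mulVec v i) ^ 2 = (∑ i, v i ^ 2) / ‖x‖ ^ 4 := by
  have hn : ‖x‖ ≠ 0 := norm_ne_zero_iff.2 hx
  have hnu := BARBm.nu_sq hx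
  have e : ∀ i, (inversionJac x).mulVec v i
      = (v i - 2 * BARBm.nu x i * (BARBm.nu x 0 * v 0 + BARBm.nu x 1 * v 1 + BARBm.nu x 2 * v 2))
        / ‖x‖ ^ 2 := by
    intro i
    simp only [Matrix.mulVec, dotProduct, BARBm.jac_eq hx, BARBm.Sr, BARBm.dl, Fin.sum_univ_three]
    fin_cases i <;> simp <;> ring
  simp only [e, Fin.sum_univ_three, div_pow]
  set n := BARBm.nu x
  set q := n 0 * v 0 + n 1 * v 1 + n 2 * v 2 with hq
  have : (v 0 - 2 * n 0 * q) ^ 2 + (v 1 - 2 * n 1 * q) ^ 2 + (v 2 - 2 * n 2 * q) ^ 2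
      = v 0 ^ 2 + v 1 ^ 2 + v 2 ^ 2 := by
    have h1 : (v 0 - 2 * n 0 * q) ^ 2 + (v 1 - 2 * n 1 * q) ^ 2 + (v 2 - 2 * n 2 * q) ^ 2
      = v 0 ^ 2 + v 1 ^ 2 + v 2 ^ 2 - 4 * q * (n 0 * v 0 + n 1 * v 1 + n 2 * v 2)
        + 4 * q ^ 2 * (n 0 ^ 2 + n 1 ^ 2 + n 2 ^ 2) := by ring
    rw [h1, hnu, ← hq]; ring
  rw [← add_div, ← add_div, this, ← pow_mul]

end Pool.Agent.PFT.NEAux

namespace Pool.Agent.PFT

open Pool.Agent.PenroseSph Pool.Agent.PFlow

theorem NE (hJET : Stmt_JET) (hJIN : Stmt_JIN) (hJCO : Stmt_JCO) : Stmt_NE := by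
  intro C₀ R₀ ρ g k hρ hsm hdec
  obtain ⟨C₁, hC₁, hJIN⟩ := hJIN
  set K : ℝ := |C₀| + 1 with hK
  have hK1 : 1 ≤ K := by have := abs_nonneg C₀; linarith
  have hCK : C₀ ≤ K := by have := le_abs_self C₀; linarith
  have hCK' : |C₀| ≤ K := by linarith
  obtain ⟨C₂, hC₂, hJ0⟩ := hJCO (1 + K) 0
  obtain ⟨C₃, hC₃, hJ2⟩ := hJCO (1 + K) 2
  set r : ℝ := min (min 1 ρ) (min (1 / (|R₀| + 1)) (1 / (6 * K))) with hr
  have hR1 : 0 < |R₀| + 1 := by positivity
  have hr0 : 0 < r := by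
    rw [hr]
    refine lt_min (lt_min one_pos hρ) (lt_min ?_ ?_) <;> positivity
  set C : ℝ := 2 + 144 * C₁ ^ 2 * C₂ + 144 * C₁ ^ 2 * C₃ with hC
  have hCpos : 0 < C := by positivity
  refine ⟨C, r, hCpos, hr0, ?_, ?_, ?_⟩
  · exact (min_le_left _ _).trans (min_le_left _ _)
  · exact (min_le_left _ _).trans (min_le_right _ _)
  intro x hx0 hxr
  have hx : x ≠ 0 := norm_pos_iff.1 hx0
  have x1 : ‖x‖ ≤ 1 := (hxr.trans_le ((min_le_left _ _).trans (min_le_left _ _))).le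
  have xρ : ‖x‖ < ρ := hxr.trans_le ((min_le_left _ _).trans (min_le_right _ _))
  have xR : ‖x‖ < 1 / (|R₀| + 1) := hxr.trans_le ((min_le_right _ _).trans (min_le_left _ _))
  have xK : ‖x‖ < 1 / (6 * K) := hxr.trans_le ((min_le_right _ _).trans (min_le_right _ _))
  have hI : ‖inversion x‖ = ‖x‖⁻¹ := HSM2.norm_inversion x hx
  have hIR : R₀ ≤ ‖inversion x‖ := by
    rw [hI]
    have h1 : |R₀| + 1 < ‖x‖⁻¹ := by
      rw [lt_inv_comm₀ hR1 hx0, ← one_div]; exact xR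
    have := le_abs_self R₀
    linarith
  have hd := hdec _ hIR
  rw [hI] at hd
  have p1 : ‖x‖ ^ (0 : ℤ) = 1 := zpow_zero _
  have e1 : C₀ / ‖x‖⁻¹ = C₀ * ‖x‖ := by rw [div_inv_eq_mul]
  have e2 : C₀ / ‖x‖⁻¹ ^ 2 = C₀ * ‖x‖ ^ 2 := by rw [inv_pow, div_inv_eq_mul]
  have e3 : C₀ / ‖x‖⁻¹ ^ 3 = C₀ * ‖x‖ ^ 3 := by rw [inv_pow, div_inv_eq_mul]
  rw [e1, e2, e3] at hd
  have hpow : ∀ n : ℕ, C₀ * ‖x‖ ^ n ≤ (1 + K) * ‖x‖ ^ n := fun n =>
    mul_le_mul_of_nonneg_right (by linarith) (by positivity)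
  have hJ := (hJIN x hx).1
  have hgs := fun i j => (hsm x hx0 xρ i j).1
  have hks := fun i j => (hsm x hx0 xρ i j).2
  -- the jets of the inverted fields
  have hG : ∀ a b, Jet2 C₂ ‖x‖ 0 (fun y => inverted g (inversion y) a b) x := by
    intro a b
    refine ((hJ0 (fun y => inverted g y a b) x hx (NEAux.inverted_contDiffAt hx hgs a b) ?_ ?_).2 ?_)
    · rw [p1, mul_one]
      have h1 := (hd a b).1
      have h2 : |(1 : Bil) a b| ≤ 1 := by
        rw [Matrix.one_apply]; split_ifs <;> simp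
      have h3 : C₀ * ‖x‖ ≤ K := by
        have : |C₀ * ‖x‖| ≤ K * 1 := by
          rw [abs_mul, abs_of_pos hx0]
          exact mul_le_mul hCK' x1 hx0.le (by linarith)
        have := le_abs_self (C₀ * ‖x‖)
        linarith
      have h4 := abs_sub_abs_le_abs_sub (inverted g (inversion x) a b) ((1 : Bil) a b)
      linarith
    · intro c
      refine ((hd a b).2.1 c).trans ?_
      have h5 : ‖x‖ ^ ((0 : ℤ) + 1) = ‖x‖ := by rw [zero_add, zpow_one]
      rw [h5]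
      refine (hpow 2).trans ?_
      refine mul_le_mul_of_nonneg_left ?_ (by linarith)
      nlinarith
    · intro c d
      refine ((hd a b).2.2.1 c d).trans ?_
      have h5 : ‖x‖ ^ ((0 : ℤ) + 2) = ‖x‖ ^ 2 := by
        rw [zero_add]; exact zpow_natCast ‖x‖ 2
      rw [h5]
      refine (hpow 3).trans ?_
      refine mul_le_mul_of_nonneg_left ?_ (by linarith)
      exact pow_le_pow_of_le_one hx0.le x1 (by norm_num)
  have hH : ∀ a b, Jet1 C₃ ‖x‖ 2 (fun y => inverted k (inversion y) a b) x := by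
    intro a b
    refine ((hJ2 (fun y => inverted k y a b) x hx (NEAux.inverted_contDiffAt hx hks a b) ?_ ?_).1)
    · refine ((hd a b).2.2.2.1).trans ?_
      have h5 : ‖x‖ ^ (2 : ℤ) = ‖x‖ ^ 2 := zpow_natCast ‖x‖ 2
      rw [h5]
      exact hpow 2
    · intro c
      refine ((hd a b).2.2.2.2 c).trans ?_
      have h5 : ‖x‖ ^ ((2 : ℤ) + 1) = ‖x‖ ^ 3 := by
        rw [show ((2 : ℤ) + 1) = ((3 : ℕ) : ℤ) by norm_num]; exact zpow_natCast ‖x‖ 3
      rw [h5]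
      exact hpow 3
  have kg := fun i j => NEAux.jet2_field hJET hx0 hx hJ hG i j
  have kk := fun i j => NEAux.jet1_field hJET hx0 hx hJ hH i j
  have z : ∀ n : ℕ, ‖x‖ ^ (-(n : ℤ)) = (‖x‖ ^ n)⁻¹ := fun n => by
    rw [zpow_neg, zpow_natCast]
  have hCg : 144 * C₁ ^ 2 * C₂ ≤ C := by
    have : 0 ≤ 144 * C₁ ^ 2 * C₃ := by positivity
    rw [hC]; linarith
  have hCk : 144 * C₁ ^ 2 * C₃ ≤ C := by
    have : 0 ≤ 144 * C₁ ^ 2 * C₂ := by positivity
    rw [hC]; linarith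
  have hC2 : 2 ≤ C := by
    have : 0 ≤ 144 * C₁ ^ 2 * C₂ := by positivity
    have : 0 ≤ 144 * C₁ ^ 2 * C₃ := by positivity
    rw [hC]; linarith
  -- ellipticity
  have hδ : C₀ * ‖x‖ ≤ 1 / 6 := by
    have h1 : K * ‖x‖ ≤ 1 / 6 := by
      have h2 : K * ‖x‖ ≤ K * (1 / (6 * K)) := mul_le_mul_of_nonneg_left xK.le (by linarith)
      have h3 : K * (1 / (6 * K)) = 1 / 6 := by field_simp
      linarith
    exact (mul_le_mul_of_nonneg_right hCK hx0.le).trans h1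
  have hell := fun v : Cov => AFDaux.ev_near_one hδ (fun i j => (hd i j).1)
    ((inversionJac x).mulVec v)
  have hx4 : 0 < ‖x‖ ^ 4 := by positivity
  refine ⟨fun v => ?_, fun v => ?_, fun i j l => ?_, fun i j l n => ?_, fun i j => ?_,
    fun i j l => ?_⟩
  · have h1 := (hell v).1
    rw [← NEAux.ev_field g hx v, NEAux.sum_jac hx v, div_le_iff₀ hx4] at h1
    have h0 : 0 ≤ ∑ i, v i ^ 2 := Finset.sum_nonneg fun i _ => sq_nonneg _
    have h3 : 0 ≤ ‖x‖ ^ 4 * ev (g x) v v := by linarith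
    calc ∑ i, v i ^ 2 ≤ 2 * (‖x‖ ^ 4 * ev (g x) v v) := by linarith
      _ ≤ C * (‖x‖ ^ 4 * ev (g x) v v) := mul_le_mul_of_nonneg_right hC2 h3
      _ = C * ‖x‖ ^ 4 * ev (g x) v v := by ring
  · have h1 := (hell v).2
    rw [← NEAux.ev_field g hx v, NEAux.sum_jac hx v] at h1
    have h0 : 0 ≤ (∑ i, v i ^ 2) / ‖x‖ ^ 4 :=
      div_nonneg (Finset.sum_nonneg fun i _ => sq_nonneg _) hx4.le
    calc ev (g x) v v ≤ 2 * ((∑ i, v i ^ 2) / ‖x‖ ^ 4) := h1
      _ ≤ C * ((∑ i, v i ^ 2) / ‖x‖ ^ 4) := mul_le_mul_of_nonneg_right hC2 h0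
      _ = C / ‖x‖ ^ 4 * ∑ i, v i ^ 2 := by ring
  · have h1 := (kg i j).2.1 l
    rw [show ((0 : ℤ) - 5) = -((5 : ℕ) : ℤ) by norm_num, z, ← div_eq_mul_inv] at h1
    exact h1.trans (div_le_div_of_nonneg_right hCg (by positivity))
  · have h1 := (kg i j).2.2 n l
    rw [show ((0 : ℤ) - 6) = -((6 : ℕ) : ℤ) by norm_num, z, ← div_eq_mul_inv] at h1
    exact h1.trans (div_le_div_of_nonneg_right hCg (by positivity))
  · have h1 := (kk i j).1
    rw [show ((2 : ℤ) - 4) = -((2 : ℕ) : ℤ) by norm_num, z, ← div_eq_mul_inv] at h1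
    exact h1.trans (div_le_div_of_nonneg_right hCk (by positivity))
  · have h1 := (kk i j).2 l
    rw [show ((2 : ℤ) - 5) = -((3 : ℕ) : ℤ) by norm_num, z, ← div_eq_mul_inv] at h1
    exact h1.trans (div_le_div_of_nonneg_right hCk (by positivity))

end Pool.Agent.PFT
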