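import Pool.Agent.PFT.StmtsCAP

/-!
# NEP: the bounds near all the ends
-/

set_option autoImplicit false

open MeasureTheory Filter Topology
open scoped ContDiff ENNReal

namespace Pool.Agent.PFT

open Pool.Agent.PenroseSph Pool.Agent.PFlow

namespace NEPAux

theorem pd_shift (p : E3) (F : E3 → ℝ) (l : Fin 3) :
    pd l (fun y => F (y + p)) = fun x => pd l F (x + p) := by
  funext x
  unfold pd
  rw [fderiv_comp_add_right]

theorem unshift {C s : ℝ} {g k : TensorField} {p x : E3}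
    (h : NearEnd C s (shift p g) (shift p k) x) : NearEnd C s g k (x + p) := by
  obtain ⟨h1, h2, h3, h4, h5, h6⟩ := h
  refine ⟨h1, h2, ?_, ?_, h5, ?_⟩
  · intro i j l
    have := h3 i j l
    unfold shift at this
    rw [pd_shift p (fun y => g y i j) l] at this
    exact this
  · intro i j l n
    have := h4 i j l n
    unfold shift at this
    rw [pd_shift p (fun y => g y i j) l] at this
    rw [pd_shift p (pd l (fun y => g y i j)) n] at this
    exact this
  · intro i j l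
    have := h6 i j l
    unfold shift at this
    rw [pd_shift p (fun y => k y i j) l] at this
    exact this

theorem mono {C C' s : ℝ} {g k : TensorField} {x : E3} (hC : 0 < C) (hs : 0 < s) (hCC : C ≤ C')
    (h : NearEnd C s g k x) : NearEnd C' s g k x := by
  obtain ⟨h1, h2, h3, h4, h5, h6⟩ := h
  refine ⟨?_, ?_, ?_, ?_, ?_, ?_⟩
  · intro v
    have hv := h1 v
    have h0 : (0 : ℝ) ≤ ∑ i, v i ^ 2 := Finset.sum_nonneg fun i _ => sq_nonneg _
    have hs4 : 0 < s ^ 4 := by positivity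
    have hev : 0 ≤ ev (g x) v v := by
      by_contra hneg
      push Not at hneg
      have : C * s ^ 4 * ev (g x) v v < 0 := mul_neg_of_pos_of_neg (by positivity) hneg
      linarith
    refine hv.trans ?_
    exact mul_le_mul_of_nonneg_right (mul_le_mul_of_nonneg_right hCC hs4.le) hev
  · intro v
    refine (h2 v).trans ?_
    have h0 : (0 : ℝ) ≤ ∑ i, v i ^ 2 := Finset.sum_nonneg fun i _ => sq_nonneg _
    exact mul_le_mul_of_nonneg_right (div_le_div_of_nonneg_right hCC (by positivity)) h0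
  · intro i j l
    exact (h3 i j l).trans (div_le_div_of_nonneg_right hCC (by positivity))
  · intro i j l n
    exact (h4 i j l n).trans (div_le_div_of_nonneg_right hCC (by positivity))
  · intro i j
    exact (h5 i j).trans (div_le_div_of_nonneg_right hCC (by positivity))
  · intro i j l
    exact (h6 i j l).trans (div_le_div_of_nonneg_right hCC (by positivity))

theorem isolate (P : Finset E3) (p : E3) :
    ∃ ρ : ℝ, 0 < ρ ∧ ∀ x : E3, 0 < ‖x‖ → ‖x‖ < ρ → x + p ∉ P := by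
  have hcl : IsClosed ((P.erase p : Finset E3) : Set E3) := (P.erase p).finite_toSet.isClosed
  have hmem : p ∈ (((P.erase p : Finset E3) : Set E3))ᶜ := by simp
  obtain ⟨ρ, hρ, hb⟩ := Metric.isOpen_iff.1 hcl.isOpen_compl p hmem
  refine ⟨ρ, hρ, fun x hx0 hx hxP => ?_⟩
  have hball : x + p ∈ Metric.ball p ρ := by
    rw [Metric.mem_ball, dist_eq_norm]
    simpa using hx
  have hne : x + p ≠ p := by
    intro h
    have : x = 0 := by simpa using h
    simp [this] at hx0
  exact hb hball (Finset.mem_coe.2 (Finset.mem_erase.2 ⟨hne, hxP⟩))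

theorem le_double (P : Finset E3) (f : E3 → E3 → ℝ) (hf : ∀ p q, 0 ≤ f p q) (p q : E3)
    (hp : p ∈ P) (hq : q ∈ P) : f p q ≤ ∑ p ∈ P, ∑ q ∈ P, f p q := by
  have h1 : f p q ≤ ∑ q ∈ P, f p q :=
    Finset.single_le_sum (f := fun q => f p q) (fun q _ => hf p q) hq
  have h2 : ∑ q ∈ P, f p q ≤ ∑ p ∈ P, ∑ q ∈ P, f p q :=
    Finset.single_le_sum (f := fun p => ∑ q ∈ P, f p q)
      (fun p _ => Finset.sum_nonneg fun q _ => hf p q) hp
  exact h1.trans h2

theorem comp_shift (p x : E3) (F : E3 → ℝ) (h : ContDiffAt ℝ ∞ F (x + p)) :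
    ContDiffAt ℝ ∞ (fun y => F (y + p)) x :=
  ContDiffAt.comp (f := fun y : E3 => y + p) (g := F) x h (contDiffAt_id.add contDiffAt_const)

end NEPAux

open NEPAux

/-- NEP: the bounds near all the ends. -/
theorem NEP (hNE : Stmt_NE) : Stmt_NEP := by
  intro P g k hE
  have hopen : IsOpen ((P : Set E3))ᶜ := P.finite_toSet.isClosed.isOpen_compl
  have key : ∀ p ∈ P, ∃ C r : ℝ, 0 < C ∧ 0 < r ∧
      ∀ x : E3, 0 < ‖x - p‖ → ‖x - p‖ < r → x ∉ P ∧ NearEnd C ‖x - p‖ g k x := by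
    intro p hp
    obtain ⟨C₀, R₀, hdec⟩ := hE.points p hp
    obtain ⟨ρ, hρ, hρP⟩ := isolate P p
    have hsm : ∀ x : E3, 0 < ‖x‖ → ‖x‖ < ρ → ∀ i j,
        ContDiffAt ℝ ∞ (fun y => shift p g y i j) x ∧
        ContDiffAt ℝ ∞ (fun y => shift p k y i j) x := by
      intro x h0 h1 i j
      have hx : x + p ∈ ((P : Set E3))ᶜ := fun h => hρP x h0 h1 (Finset.mem_coe.1 h)
      have hg : ContDiffAt ℝ ∞ (fun y => g y i j) (x + p) :=
        (hE.metric.smooth i j).contDiffAt (hopen.mem_nhds hx)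
      have hk : ContDiffAt ℝ ∞ (fun y => k y i j) (x + p) :=
        (hE.tensor.smooth i j).contDiffAt (hopen.mem_nhds hx)
      exact ⟨comp_shift p x _ hg, comp_shift p x _ hk⟩
    obtain ⟨C, r, hC, hr, -, hrρ, hN⟩ := hNE C₀ R₀ ρ (shift p g) (shift p k) hρ hsm hdec
    refine ⟨C, r, hC, hr, fun x h0 h1 => ?_⟩
    have h2 := unshift (hN (x - p) h0 h1)
    have h3 := hρP (x - p) h0 (h1.trans_le hrρ)
    rw [sub_add_cancel] at h2 h3
    exact ⟨h3, h2⟩
  choose! C r hC hr hN using key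
  set S : ℝ := ∑ p ∈ P, C p with hS
  set T : ℝ := ∑ p ∈ P, 1 / r p with hT
  set D : ℝ := ∑ p ∈ P, ∑ q ∈ P, 1 / ‖p - q‖ with hD
  have hS0 : 0 ≤ S := Finset.sum_nonneg fun p hp => (hC p hp).le
  have hT0 : 0 ≤ T := Finset.sum_nonneg fun p hp => one_div_nonneg.2 (hr p hp).le
  have hD0 : 0 ≤ D := Finset.sum_nonneg fun p _ => Finset.sum_nonneg fun q _ =>
    one_div_nonneg.2 (norm_nonneg _)
  have hCS : ∀ p ∈ P, C p ≤ S + 1 := fun p hp => by
    have := Finset.single_le_sum (f := C) (fun q hq => (hC q hq).le) hp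
    linarith
  have hrT : ∀ p ∈ P, 1 / r p ≤ T := fun p hp =>
    Finset.single_le_sum (f := fun q => 1 / r q) (fun q hq => one_div_nonneg.2 (hr q hq).le) hp
  have hnn : ∀ p q : E3, 0 ≤ 1 / ‖p - q‖ := fun p q => one_div_nonneg.2 (norm_nonneg _)
  have hDD : ∀ p ∈ P, ∀ q ∈ P, 1 / ‖p - q‖ ≤ D := fun p hp q hq =>
    le_double P (fun p q => 1 / ‖p - q‖) hnn p q hp hq
  clear_value S T D
  have hN0 : 0 < 1 + T + D := by linarith
  refine ⟨S + 1, 1 + T + D, by linarith, ⟨by linarith, ?_⟩, ?_⟩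
  · intro p hp q hq hpq
    have hpos : 0 < ‖p - q‖ := norm_pos_iff.2 (sub_ne_zero.2 hpq)
    have h1 := hDD p hp q hq
    rw [div_lt_iff₀ hN0]
    rw [div_le_iff₀ hpos] at h1
    nlinarith [mul_nonneg hT0 hpos.le]
  · intro p hp x h0 h1
    have hrp := hr p hp
    have h2 : ‖x - p‖ < r p := by
      refine h1.trans_lt ?_
      have hN4 : 0 < 4 * (1 + T + D) := by linarith
      rw [div_lt_iff₀ hN4]
      have h3 := hrT p hp
      rw [div_le_iff₀ hrp] at h3
      nlinarith [mul_nonneg hD0 hrp.le]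
    obtain ⟨h4, h5⟩ := hN p hp x h0 h2
    exact ⟨h4, mono (hC p hp) h0 (hCS p hp) h5⟩

end Pool.Agent.PFT
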