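import Pool.Agent.PFT.StmtsL
import Pool.Agent.PFlow.E.LOC

/-!
# NZ: lower bound of the solution near the end at the origin
-/

open MeasureTheory Filter Topology
open scoped ContDiff ENNReal

set_option autoImplicit false

namespace Pool.Agent.PFT

open Pool.Agent.PenroseSph Pool.Agent.PFlow

open Loc in
theorem NZ (hPHI : Stmt_PHI) (hBARR : Stmt_BARR) : Stmt_NZ := by
  intro ε C ρ₁ hε hε1 hC hρ hρ1
  have hp3 := pe_ge ε hε hε1
  set p := pe ε with hp
  set q := 2 ^ (-p) * Real.exp (-((C + 1) * Real.pi / (2 * ε))) with hq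
  set E := Real.exp ((C + 1) * Real.pi / (2 * ε)) with hE
  have hC1 : 0 ≤ C + 1 := by linarith
  have hp0 : 0 < p := by linarith
  have hq0 : 0 < q := by positivity
  have hFp : Facts p q E (phiB ε 1 (C + 1)) := facts hPHI ε (C + 1) 1 hε hε1 hC1 (Or.inl rfl)
  set Φp := phiB ε 1 (C + 1) with hΦp
  have hΦ0 : 0 < Φp 0 := hFp.pos hp0 hq0 le_rfl
  have hd : 0 < Φp (ρ₁ / 2) - Φp ρ₁ := by
    linarith [hFp.anti (ρ₁ / 2) ρ₁ (by linarith) (by linarith)]
  refine ⟨min (1 / 2) ((Φp (ρ₁ / 2) - Φp ρ₁) / (2 * Φp 0)), 2 / ρ₁ + 2,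
    lt_min (by norm_num) (by positivity), by positivity, ?_⟩
  intro R hR η g h u G M hη0 hη hg hbar sol x hx
  have h2ρ : 0 < 2 / ρ₁ := by positivity
  have hR2 : 2 ≤ R := by linarith
  have hR0 : 0 < R := by linarith
  have hRρ : 2 / ρ₁ ≤ R := by linarith
  have hR1 : 1 / R ≤ ρ₁ / 2 := by
    rw [div_le_div_iff₀ hR0 (by norm_num)]
    rw [div_le_iff₀ hρ] at hRρ
    linarith
  have hη1 : η ≤ 1 / 2 := by
    have h1 : R ^ (-p - 1) ≤ R ^ (-(1 : ℝ)) :=
      Real.rpow_le_rpow_of_exponent_le (by linarith) (by linarith)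
    rw [Real.rpow_neg_one] at h1
    have h2 : R⁻¹ ≤ 2⁻¹ := inv_anti₀ (by norm_num) hR2
    have h3 : (2 : ℝ)⁻¹ ≤ 1 / 2 := by norm_num
    linarith
  set r₀ : ℝ := 1 / R / 2 with hr₀
  have hr₀0 : 0 < r₀ := by positivity
  have hr₀ρ : r₀ < ρ₁ / 2 := by
    rw [hr₀]
    have : 0 < 1 / R := by positivity
    linarith
  by_cases hxr : ‖x‖ ≤ r₀
  · have h1 := sol.inner x hxr
    refine (min_le_left _ _).trans ?_
    linarith
  push Not at hxr
  have hD : 0 < Φp r₀ - Φp ρ₁ := by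
    linarith [hFp.anti r₀ ρ₁ hr₀0.le (by linarith)]
  set k : ℝ := (1 - η) / (Φp r₀ - Φp ρ₁) with hk
  have hk0 : 0 < k := div_pos (by linarith) hD
  have hcmp := sol.sub {x : E3 | r₀ ≤ ‖x‖ ∧ ‖x‖ ≤ ρ₁} (isCompact_shell _ _)
    (fun y hy => ⟨hy.1, hy.2.trans (by linarith)⟩)
    (fun y => k * (Φp ‖y‖ - Φp ρ₁))
    (by
      intro y hy
      have hy0 : y ≠ 0 := norm_pos_iff.mp (lt_of_lt_of_le hr₀0 hy.1)
      have h8 : 1 / (8 * R) ≤ ‖y‖ := by
        refine le_trans ?_ hy.1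
        rw [hr₀, div_div]
        exact one_div_le_one_div_of_le (by positivity) (by linarith)
      have hB := hBARR ε C g h y hε hε1 hC.le hy0 (hg.posDef y (Set.mem_univ y))
        (hbar y h8 hy.2) 1 (Or.inl rfl)
      exact contDiffAt_const.mul (hB.1.sub contDiffAt_const))
    (by
      intro y hy
      have hy0 : y ≠ 0 := norm_pos_iff.mp (lt_of_lt_of_le hr₀0 hy.1)
      have h8 : 1 / (8 * R) ≤ ‖y‖ := by
        refine le_trans ?_ hy.1
        rw [hr₀, div_div]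
        exact one_div_le_one_div_of_le (by positivity) (by linarith)
      have hB := hBARR ε C g h y hε hε1 hC.le hy0 (hg.posDef y (Set.mem_univ y))
        (hbar y h8 hy.2) 1 (Or.inl rfl)
      refine ⟨?_, hB.2.2.1 rfl k (Φp ρ₁) hk0⟩
      have h1 := grad_affine (fun y : E3 => Φp ‖y‖) y k (-(k * Φp ρ₁))
        (hB.1.differentiableAt (by norm_num)) hk0.ne' hB.2.1
      have h2 : (fun y : E3 => k * (Φp ‖y‖ - Φp ρ₁)) = fun y => k * Φp ‖y‖ + -(k * Φp ρ₁) := by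
        funext y
        ring
      rw [h2]
      exact h1)
    (by
      intro y hy
      rcases frontier_shell _ _ y hy with h1 | h1
      · rw [h1]
        have h2 := sol.inner y (by rw [h1])
        refine le_trans (le_of_eq ?_) h2
        rw [hk]
        field_simp
      · rw [h1, sub_self, mul_zero]
        exact sol.nonneg y)
    x ⟨hxr.le, by linarith⟩
  refine (min_le_right _ _).trans (le_trans ?_ hcmp)
  have h1 : Φp (ρ₁ / 2) ≤ Φp ‖x‖ := hFp.anti' (norm_nonneg _) hx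
  have h2 : Φp r₀ ≤ Φp 0 := hFp.anti' le_rfl hr₀0.le
  have h3 : 0 < Φp ρ₁ := hFp.pos hp0 hq0 hρ.le
  have h4 : 1 / (2 * Φp 0) ≤ k := by
    rw [hk, div_le_div_iff₀ (by positivity) hD]
    nlinarith
  calc (Φp (ρ₁ / 2) - Φp ρ₁) / (2 * Φp 0) = 1 / (2 * Φp 0) * (Φp (ρ₁ / 2) - Φp ρ₁) := by ring
    _ ≤ k * (Φp ‖x‖ - Φp ρ₁) := mul_le_mul h4 (by linarith) hd.le hk0.le

end Pool.Agent.PFT
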