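import Pool.Agent.PFT.StmtsA
import Pool.Agent.PFlow.E.PER

/-!
# (PERB) The minimum of several functions
-/

open MeasureTheory Filter Topology
open scoped ContDiff ENNReal

namespace Pool.Agent.PFT

open Pool.Agent.PenroseSph Pool.Agent.PFlow

namespace PERBm

/-! ### The smooth minimum -/

section lse

variable {m : ℕ} {c : ℝ}

/-- sum of exponentials -/
noncomputable def ES (c : ℝ) (v : Fin m → ℝ) : ℝ := ∑ i, Real.exp (-(c * v i))

/-- smooth minimum -/
noncomputable def Lse (c : ℝ) (v : Fin m → ℝ) : ℝ := -c⁻¹ * Real.log (ES c v)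

/-- weights -/
noncomputable def wt (c : ℝ) (v : Fin m → ℝ) (i : Fin m) : ℝ := Real.exp (-(c * v i)) / ES c v

lemma ES_pos (hm : 0 < m) (c : ℝ) (v : Fin m → ℝ) : 0 < ES c v := by
  have : Nonempty (Fin m) := ⟨⟨0, hm⟩⟩
  exact Finset.sum_pos (fun i _ => Real.exp_pos _) Finset.univ_nonempty

lemma le_ES (c : ℝ) (v : Fin m → ℝ) (i : Fin m) : Real.exp (-(c * v i)) ≤ ES c v :=
  Finset.single_le_sum (f := fun i => Real.exp (-(c * v i))) (fun _ _ => (Real.exp_pos _).le)
    (Finset.mem_univ i)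

lemma Lse_le (hc : 0 < c) (v : Fin m → ℝ) (i : Fin m) : Lse c v ≤ v i := by
  have h2 := Real.log_le_log (Real.exp_pos _) (le_ES c v i)
  rw [Real.log_exp] at h2
  have h3 := mul_le_mul_of_nonneg_left h2 (inv_pos.2 hc).le
  have h4 : c⁻¹ * -(c * v i) = -v i := by
    field_simp
  rw [h4] at h3
  unfold Lse
  linarith

lemma le_Lse (hm : 0 < m) (hc : 0 < c) (v : Fin m → ℝ) (s : ℝ) (h : ∀ i, s ≤ v i) :
    s - c⁻¹ * Real.log m ≤ Lse c v := by
  have h1 : ES c v ≤ m * Real.exp (-(c * s)) := by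
    calc ES c v ≤ ∑ _i : Fin m, Real.exp (-(c * s)) :=
          Finset.sum_le_sum fun i _ => Real.exp_le_exp.2
            (neg_le_neg (mul_le_mul_of_nonneg_left (h i) hc.le))
      _ = m * Real.exp (-(c * s)) := by simp
  have h2 := Real.log_le_log (ES_pos hm c v) h1
  have hm' : (0 : ℝ) < m := by exact_mod_cast hm
  rw [Real.log_mul hm'.ne' (Real.exp_pos _).ne', Real.log_exp] at h2
  have h3 := mul_le_mul_of_nonneg_left h2 (inv_pos.2 hc).le
  have h4 : c⁻¹ * (Real.log m + -(c * s)) = c⁻¹ * Real.log m - s := by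
    rw [mul_add, mul_neg, ← mul_assoc, inv_mul_cancel₀ hc.ne', one_mul, ← sub_eq_add_neg]
  rw [h4] at h3
  unfold Lse
  linarith

lemma wt_nonneg (hm : 0 < m) (c : ℝ) (v : Fin m → ℝ) (i : Fin m) : 0 ≤ wt c v i :=
  div_nonneg (Real.exp_pos _).le (ES_pos hm c v).le

lemma wt_le_one (hm : 0 < m) (c : ℝ) (v : Fin m → ℝ) (i : Fin m) : wt c v i ≤ 1 :=
  (div_le_one (ES_pos hm c v)).2 (le_ES c v i)

lemma wt_small (hm : 0 < m) (hc : 0 < c) (v : Fin m → ℝ) (i : Fin m) {s δ : ℝ} (h1 : s ≤ v i)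
    (h2 : Lse c v ≤ s - δ) : wt c v i ≤ Real.exp (-(c * δ)) := by
  have h3 : ES c v = Real.exp (-(c * Lse c v)) := by
    have : -(c * Lse c v) = Real.log (ES c v) := by
      unfold Lse
      field_simp
    rw [this, Real.exp_log (ES_pos hm c v)]
  unfold wt
  rw [h3, ← Real.exp_sub]
  apply Real.exp_le_exp.2
  have h4 : c * δ ≤ c * (v i - Lse c v) := mul_le_mul_of_nonneg_left (by linarith) hc.le
  linarith [mul_sub c (v i) (Lse c v)]

lemma smooth_Lse (hm : 0 < m) (c : ℝ) :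
    ContDiff ℝ ∞ (fun q : (Fin m → ℝ) × E3 => Lse c q.1) := by
  unfold Lse ES
  refine contDiff_const.mul (ContDiff.log ?_ ?_)
  · refine ContDiff.sum fun i _ => Real.contDiff_exp.comp ?_
    exact (contDiff_const.mul ((contDiff_apply ℝ ℝ i).comp contDiff_fst)).neg
  · intro q
    exact (ES_pos hm c q.1).ne'

lemma fderiv_Lse (hm : 0 < m) (hc : 0 < c) (v : Fin m → ℝ) (x : E3) (d : (Fin m → ℝ) × E3) :
    fderiv ℝ (fun q : (Fin m → ℝ) × E3 => Lse c q.1) (v, x) d = ∑ i, wt c v i * d.1 i := by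
  have h1 : ∀ i, HasFDerivAt (fun q : (Fin m → ℝ) × E3 => q.1 i)
      ((ContinuousLinearMap.proj i : (Fin m → ℝ) →L[ℝ] ℝ).comp
        (ContinuousLinearMap.fst ℝ (Fin m → ℝ) E3)) (v, x) := fun i =>
    ((ContinuousLinearMap.proj i : (Fin m → ℝ) →L[ℝ] ℝ).comp
        (ContinuousLinearMap.fst ℝ (Fin m → ℝ) E3)).hasFDerivAt
  have h2 : ∀ i, HasFDerivAt (fun q : (Fin m → ℝ) × E3 => Real.exp (-(c * q.1 i)))
      (Real.exp (-(c * v i)) • -(c • ((ContinuousLinearMap.proj i : (Fin m → ℝ) →L[ℝ] ℝ).comp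
        (ContinuousLinearMap.fst ℝ (Fin m → ℝ) E3)))) (v, x) := fun i =>
    ((h1 i).const_mul c).neg.exp
  have h3 := HasFDerivAt.fun_sum (u := Finset.univ) fun i _ => h2 i
  have h4 := (h3.log (ES_pos hm c v).ne').const_mul (-c⁻¹)
  have h5 : HasFDerivAt (fun q : (Fin m → ℝ) × E3 => Lse c q.1) _ (v, x) := h4
  rw [h5.fderiv]
  simp only [_root_.smul_apply, _root_.sum_apply, _root_.neg_apply,
    ContinuousLinearMap.comp_apply, ContinuousLinearMap.proj_apply,
    ContinuousLinearMap.coe_fst', smul_eq_mul]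
  rw [Finset.mul_sum, Finset.mul_sum]
  refine Finset.sum_congr rfl fun i _ => ?_
  unfold wt ES
  field_simp

end lse

/-! ### Lengths -/

lemma isCompact_kset (P : Finset E3) (a : E3 → ℝ) (r : ℝ) : IsCompact (kset P a r) := by
  apply Metric.isCompact_of_isClosed_isBounded
  · have : kset P a r = {x | ‖x‖ ≤ r} ∩ ⋂ p ∈ P, {x | a p ≤ ‖x - p‖} := by
      ext x
      simp [kset]
    rw [this]
    refine (isClosed_le continuous_norm continuous_const).inter ?_
    exact isClosed_biInter fun p _ => isClosed_le continuous_const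
      (continuous_norm.comp (continuous_id.sub continuous_const))
  · refine (Metric.isBounded_closedBall (x := (0 : E3)) (r := r)).subset ?_
    intro x hx
    simpa using hx.1

lemma len_smul (g : TensorField) (x : E3) {c : ℝ} (hc : 0 ≤ c) (p : Cov) :
    len g x (fun i => c * p i) = c * len g x p := by
  unfold len
  have : ev (g x)⁻¹ (fun i => c * p i) (fun i => c * p i) = c ^ 2 * ev (g x)⁻¹ p p := by
    unfold ev
    rw [Finset.mul_sum]
    refine Finset.sum_congr rfl fun i _ => ?_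
    rw [Finset.mul_sum]
    refine Finset.sum_congr rfl fun j _ => ?_
    ring
  rw [this, Real.sqrt_mul (sq_nonneg c), Real.sqrt_sq hc]

lemma len_zero (g : TensorField) (x : E3) : len g x (fun _ => 0) = 0 := by
  unfold len ev
  simp

lemma len_sum {ι : Type} (s : Finset ι) {g : TensorField} {x : E3} (hg : (g x).PosDef)
    (π : ι → ℝ) (hπ : ∀ i ∈ s, 0 ≤ π i) (q : ι → Cov) :
    len g x (fun l => ∑ i ∈ s, π i * q i l) ≤ ∑ i ∈ s, π i * len g x (q i) := by
  classical
  induction s using Finset.induction_on with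
  | empty =>
    simp only [Finset.sum_empty]
    rw [len_zero]
  | insert a s ha ih =>
    have e : (fun l => ∑ i ∈ insert a s, π i * q i l) =
        fun l => (fun l => π a * q a l) l + (fun l => ∑ i ∈ s, π i * q i l) l := by
      funext l
      exact Finset.sum_insert ha
    rw [e, Finset.sum_insert ha]
    refine (PERm.len_add_le hg _ _).trans ?_
    rw [len_smul g x (hπ a (Finset.mem_insert_self a s))]
    exact add_le_add le_rfl (ih fun i hi => hπ i (Finset.mem_insert_of_mem hi))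

/-- the density of the area is integrable on compact sets -/
lemma integrable_len {P : Finset E3} {g : TensorField} (hg : MetricOn ((P : Set E3))ᶜ g)
    {K : Set E3} (hK : IsCompact K) (hK0 : K ⊆ ((P : Set E3))ᶜ) {G : E3 → Cov}
    (hGi : ∀ i, Integrable (fun x => G x i) (volume.restrict K)) :
    Integrable (fun x => len g x (G x) * volDen g x) (volume.restrict K) := by
  have hKm : MeasurableSet K := hK.isClosed.measurableSet
  have hci : ∀ i j, ContinuousOn (fun x => (g x)⁻¹ i j) K := fun i j =>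
    (MCT.smooth_inv hg i j).continuousOn.mono hK0
  have hcv : ContinuousOn (volDen g) K := by
    unfold volDen
    exact ((MCT.smooth_det hg.smooth).continuousOn.mono hK0).sqrt
  obtain ⟨c1, h1, b1⟩ := MCT.exists_bd hK (fun (ij : Fin 3 × Fin 3) x => (g x)⁻¹ ij.1 ij.2)
    (fun ij => hci ij.1 ij.2)
  obtain ⟨c2, h2, b2⟩ := MCT.exists_bd hK (fun (_ : Unit) x => volDen g x) (fun _ => hcv)
  set c : ℝ := Real.sqrt (3 * c1) with hc
  have hc0 : 0 ≤ c := Real.sqrt_nonneg _
  have hlen : ∀ x ∈ K, ∀ p : Cov, len g x p * volDen g x ≤ c * c2 * ∑ i, |p i| := by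
    intro x hx p
    have e1 := PERm.len_le (g := g) (x := x) (by linarith : (0 : ℝ) ≤ c1)
      (fun i j => b1 x hx (i, j)) p
    have e2 := b2 x hx ()
    have e3 : 0 ≤ volDen g x := Real.sqrt_nonneg _
    rw [abs_of_nonneg e3] at e2
    have e4 : 0 ≤ ∑ i, |p i| := Finset.sum_nonneg fun _ _ => abs_nonneg _
    calc len g x p * volDen g x ≤ (c * ∑ i, |p i|) * c2 :=
          mul_le_mul e1 e2 e3 (by positivity)
      _ = _ := by ring
  refine Integrable.mono' (g := fun x => c * c2 * ∑ i, |G x i|) ?_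
    (PERm.len_aesm hK hci hcv fun i => (hGi i).aestronglyMeasurable) ?_
  · refine Integrable.const_mul ?_ _
    exact integrable_finsetSum _ fun i _ => (hGi i).abs
  · refine (ae_restrict_iff' hKm).mpr (ae_of_all _ fun x hx => ?_)
    rw [Real.norm_of_nonneg (mul_nonneg (PERm.len_nonneg g x (G x)) (PERm.volDen_nonneg g x))]
    exact hlen x hx _

/-! ### The key inequality -/

lemma key (hPERG : Stmt_PERG) (hLAC : Stmt_LAC) {P : Finset E3} {g : TensorField} {m : ℕ}
    (hm : 0 < m) (e : Fin m ≃ P) {w : E3 → E3 → ℝ} {G : E3 → E3 → Cov} {a : E3 → ℝ}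
    {r s₀ s₁ : ℝ} (hg : MetricOn ((P : Set E3))ᶜ g) (hB : Balls P a r)
    (hw : ∀ p ∈ P, L1Approx (kset P a r) (w p) (G p))
    (hout : ∀ p ∈ P, ∀ x : E3, ‖x‖ = r → s₁ < w p x)
    (hin : ∀ p ∈ P, ∀ x : E3, ‖x - p‖ = a p → w p x < s₀) {A : ℝ} (hA : 0 ≤ A)
    (hL : LowerP P P g A) {δ c : ℝ} (hδ : δ < s₁ - s₀) (hc : 0 < c)
    (hcδ : Real.log m < c * δ) :
    A * (s₁ - δ - s₀) ≤ (∑ p ∈ P, ∫ x in kset P a r ∩ {x | s₀ ≤ w p x ∧ w p x ≤ s₁},
        len g x (G p x) * volDen g x) +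
      Real.exp (-(c * δ)) * ∑ p ∈ P, ∫ x in kset P a r, len g x (G p x) * volDen g x := by
  obtain ⟨K, hK⟩ : ∃ K, K = kset P a r := ⟨_, rfl⟩
  have hKc : IsCompact K := by rw [hK]; exact isCompact_kset P a r
  have hKm : MeasurableSet K := hKc.isClosed.measurableSet
  have hK0 : K ⊆ ((P : Set E3))ᶜ := by
    intro x hx hxP
    rw [hK] at hx
    have h1 := hx.2 x hxP
    rw [sub_self, norm_zero] at h1
    exact absurd (hB.pos x hxP) (not_lt.2 h1)
  rw [← hK]
  rw [← hK] at hw
  -- the weights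
  obtain ⟨W, hW⟩ : ∃ W : E3 → ℝ, W = fun x => Lse c (fun i => w (e i) x) := ⟨_, rfl⟩
  obtain ⟨H, hH⟩ : ∃ H : E3 → Cov, H = fun x l => ∑ i, wt c (fun i => w (e i) x) i * G (e i) x l :=
    ⟨_, rfl⟩
  have hLW : L1Approx K W H := by
    have h1 := hLAC m K (fun i => w (e i)) (fun i => G (e i))
      (fun q : (Fin m → ℝ) × E3 => Lse c q.1) hKc (smooth_Lse hm c)
      (fun i => hw (e i) (e i).2)
    have e1 : (fun (x : E3) (l : Fin 3) => (∑ i, fderiv ℝ (fun q : (Fin m → ℝ) × E3 => Lse c q.1)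
        (fun i => w (e i) x, x) (Pi.single i 1, 0) * G (e i) x l)
        + fderiv ℝ (fun q : (Fin m → ℝ) × E3 => Lse c q.1) (fun i => w (e i) x, x)
          (0, EuclideanSpace.single l 1)) = H := by
      rw [hH]
      funext x l
      rw [fderiv_Lse hm hc]
      simp only [Pi.zero_apply, mul_zero, Finset.sum_const_zero, add_zero]
      refine Finset.sum_congr rfl fun i _ => ?_
      rw [fderiv_Lse hm hc]
      congr 1
      rw [Finset.sum_eq_single i]
      · show wt c _ i * (Pi.single i 1 : Fin m → ℝ) i = _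
        rw [Pi.single_eq_same, mul_one]
      · intro j _ hj
        show wt c _ j * (Pi.single i 1 : Fin m → ℝ) j = 0
        rw [Pi.single_eq_of_ne hj, mul_zero]
      · intro h
        exact absurd (Finset.mem_univ i) h
    rw [e1] at h1
    rw [hW]
    exact h1
  have hlog : c⁻¹ * Real.log m < δ := by
    rw [inv_mul_lt_iff₀ hc]
    exact hcδ
  have hP := hPERG P P g W H a (fun _ => 0) r s₀ (s₁ - δ) (Finset.Subset.refl P) hg hB
    (by linarith) (by rw [← hK]; exact hLW)
    (fun x hx => by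
      rw [hW]
      have h1 := le_Lse hm hc (fun i => w (e i) x) s₁ (fun i => (hout (e i) (e i).2 x hx).le)
      show s₁ - δ < Lse c (fun i => w (e i) x)
      linarith)
    (fun p hp x hx => by
      rw [hW]
      have h1 := Lse_le hc (fun i => w (e i) x) (e.symm ⟨p, hp⟩)
      simp only [Equiv.apply_symm_apply] at h1
      exact lt_of_le_of_lt h1 (hin p hp x hx))
    (fun p hp hp' => absurd hp hp') A hA hL
  rw [← hK] at hP
  have e0 : s₁ - δ - s₀ = s₁ - δ - s₀ := rfl
  refine hP.trans ?_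
  -- comparison
  obtain ⟨F, hF⟩ : ∃ F : Fin m → E3 → ℝ, F = fun i x => len g x (G (e i) x) * volDen g x := ⟨_, rfl⟩
  have hF0 : ∀ i x, 0 ≤ F i x := fun i x => by
    rw [hF]
    exact mul_nonneg (PERm.len_nonneg g x _) (PERm.volDen_nonneg g x)
  have hFi : ∀ i, Integrable (F i) (volume.restrict K) := fun i => by
    rw [hF]
    exact integrable_len hg hKc hK0 (fun j => (hw (e i) (e i).2).int j)
  obtain ⟨S, hS⟩ : ∃ S : Fin m → Set E3, S = fun i => K ∩ {x | s₀ ≤ w (e i) x ∧ w (e i) x ≤ s₁} :=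
    ⟨_, rfl⟩
  have hSm : ∀ i, MeasurableSet (S i) := by
    intro i
    have : S i = K ∩ w (e i) ⁻¹' Set.Icc s₀ s₁ := by rw [hS]; rfl
    rw [this]
    exact ((hw (e i) (e i).2).cont.preimage_isClosed_of_isClosed hKc.isClosed
      isClosed_Icc).measurableSet
  have hSK : ∀ i, S i ⊆ K := by
    intro i
    rw [hS]
    exact Set.inter_subset_left
  obtain ⟨T, hT⟩ : ∃ T : Set E3, T = K ∩ {x | s₀ ≤ W x ∧ W x ≤ s₁ - δ} := ⟨_, rfl⟩
  have hTm : MeasurableSet T := by
    have : T = K ∩ W ⁻¹' Set.Icc s₀ (s₁ - δ) := by rw [hT]; rfl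
    rw [this]
    exact (hLW.cont.preimage_isClosed_of_isClosed hKc.isClosed isClosed_Icc).measurableSet
  have hTK : T ⊆ K := by
    rw [hT]
    exact Set.inter_subset_left
  rw [← hT]
  obtain ⟨Q, hQ⟩ : ∃ Q : E3 → ℝ, Q = fun x => ∑ i, ((S i).indicator (F i) x +
      Real.exp (-(c * δ)) * F i x) := ⟨_, rfl⟩
  have hexp : 0 ≤ Real.exp (-(c * δ)) := (Real.exp_pos _).le
  have hQ1 : ∀ i, Integrable (fun x => (S i).indicator (F i) x) (volume.restrict K) := fun i =>
    (hFi i).indicator (hSm i)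
  have hQ2 : ∀ i, Integrable (fun x => Real.exp (-(c * δ)) * F i x) (volume.restrict K) :=
    fun i => (hFi i).const_mul _
  have hQi : Integrable Q (volume.restrict K) := by
    rw [hQ]
    exact integrable_finsetSum _ fun i _ => (hQ1 i).add (hQ2 i)
  have hQ0 : ∀ x, 0 ≤ Q x := by
    intro x
    rw [hQ]
    refine Finset.sum_nonneg fun i _ => add_nonneg ?_ (mul_nonneg hexp (hF0 i x))
    exact Set.indicator_nonneg (fun y _ => hF0 i y) x
  have step1 : ∫ x in T, len g x (H x) * volDen g x ≤ ∫ x in T, Q x := by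
    refine integral_mono_of_nonneg (ae_of_all _ fun x =>
      mul_nonneg (PERm.len_nonneg g x _) (PERm.volDen_nonneg g x))
      (hQi.mono_measure (Measure.restrict_mono hTK le_rfl)) ?_
    refine (ae_restrict_iff' hTm).mpr (ae_of_all _ fun x hx => ?_)
    have hxK := hTK hx
    have hxT : s₀ ≤ W x ∧ W x ≤ s₁ - δ := by
      rw [hT] at hx
      exact hx.2
    have e1 : len g x (H x) ≤ ∑ i, wt c (fun i => w (e i) x) i * len g x (G (e i) x) := by
      rw [hH]
      exact len_sum Finset.univ (hg.posDef x (hK0 hxK)) _ (fun i _ => wt_nonneg hm c _ i) _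
    have e2 := mul_le_mul_of_nonneg_right e1 (PERm.volDen_nonneg g x)
    refine e2.trans ?_
    rw [Finset.sum_mul, hQ]
    refine Finset.sum_le_sum fun i _ => ?_
    have e3 : wt c (fun i => w (e i) x) i * len g x (G (e i) x) * volDen g x =
        wt c (fun i => w (e i) x) i * F i x := by
      rw [hF]
      ring
    rw [e3]
    have e4 : W x ≤ w (e i) x := by
      rw [hW]
      exact Lse_le hc (fun i => w (e i) x) i
    by_cases h : w (e i) x ≤ s₁
    · have e5 : x ∈ S i := by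
        rw [hS]
        exact ⟨hxK, hxT.1.trans e4, h⟩
      rw [Set.indicator_of_mem e5]
      have e6 : wt c (fun i => w (e i) x) i * F i x ≤ 1 * F i x :=
        mul_le_mul_of_nonneg_right (wt_le_one hm c _ i) (hF0 i x)
      have e7 := mul_nonneg hexp (hF0 i x)
      linarith
    · have e5 : x ∉ S i := by
        rw [hS]
        exact fun h' => h h'.2.2
      rw [Set.indicator_of_notMem e5, zero_add]
      refine mul_le_mul_of_nonneg_right ?_ (hF0 i x)
      refine wt_small hm hc _ i (s := s₁) (not_le.1 h).le ?_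
      have := hxT.2
      rw [hW] at this
      exact this
  have step2 : ∫ x in T, Q x ≤ ∫ x in K, Q x :=
    setIntegral_mono_set hQi (ae_of_all _ hQ0) (LE.le.eventuallyLE hTK)
  have step3 : ∫ x in K, Q x = ∑ i, ((∫ x in S i, F i x) +
      Real.exp (-(c * δ)) * ∫ x in K, F i x) := by
    rw [hQ]
    refine (integral_finsetSum (f := fun i x => (S i).indicator (F i) x +
      Real.exp (-(c * δ)) * F i x) _ fun i _ => (hQ1 i).add (hQ2 i)).trans ?_
    refine Finset.sum_congr rfl fun i _ => ?_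
    rw [integral_add (hQ1 i) (hQ2 i), integral_const_mul, integral_indicator (hSm i),
      Measure.restrict_restrict (hSm i), Set.inter_eq_left.2 (hSK i)]
  have step4 : ∑ i, ((∫ x in S i, F i x) + Real.exp (-(c * δ)) * ∫ x in K, F i x) =
      (∑ p ∈ P, ∫ x in K ∩ {x | s₀ ≤ w p x ∧ w p x ≤ s₁}, len g x (G p x) * volDen g x) +
      Real.exp (-(c * δ)) * ∑ p ∈ P, ∫ x in K, len g x (G p x) * volDen g x := by
    rw [Finset.sum_add_distrib, ← Finset.mul_sum]
    congr 1
    · rw [hS, hF, ← Finset.sum_coe_sort P]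
      exact Equiv.sum_comp e (fun p : P => ∫ x in K ∩ {x | s₀ ≤ w p x ∧ w p x ≤ s₁},
        len g x (G p x) * volDen g x)
    · rw [hF, ← Finset.sum_coe_sort P]
      congr 1
      exact Equiv.sum_comp e (fun p : P => ∫ x in K, len g x (G p x) * volDen g x)
  rw [← step4, ← step3]
  exact step1.trans step2

end PERBm

open PERBm in
/-- The minimum of several functions. -/
theorem t_PERB (hPERG : Stmt_PERG) (hLAC : Stmt_LAC) : Stmt_PERB := by
  intro P g w G a r s₀ s₁ hne hg hB hs hw hout hin A hA hL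
  have hm : 0 < P.card := hne.card_pos
  obtain ⟨I, hI⟩ : ∃ I, I = ∑ p ∈ P, ∫ x in kset P a r ∩ {x | s₀ ≤ w p x ∧ w p x ≤ s₁},
    len g x (G p x) * volDen g x := ⟨_, rfl⟩
  obtain ⟨J, hJ⟩ : ∃ J, J = ∑ p ∈ P, ∫ x in kset P a r, len g x (G p x) * volDen g x := ⟨_, rfl⟩
  rw [← hI]
  refine le_of_forall_pos_le_add fun ε hε => ?_
  obtain ⟨δ, hδ⟩ : ∃ δ, δ = min ((s₁ - s₀) / 2) (ε / (2 * (A + 1))) := ⟨_, rfl⟩
  have hδ0 : 0 < δ := by
    rw [hδ]
    exact lt_min (by linarith) (by positivity)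
  have hδ1 : δ < s₁ - s₀ := by
    have : δ ≤ (s₁ - s₀) / 2 := by rw [hδ]; exact min_le_left _ _
    linarith
  have hδ2 : A * δ ≤ ε / 2 := by
    have h1 : δ ≤ ε / (2 * (A + 1)) := by rw [hδ]; exact min_le_right _ _
    rw [le_div_iff₀ (by positivity)] at h1
    nlinarith
  have hev : ∀ᶠ x : ℝ in atTop, Real.exp (-x) * J < ε / 2 ∧ Real.log P.card < x ∧ 0 < x := by
    have h1 : Tendsto (fun x : ℝ => Real.exp (-x) * J) atTop (𝓝 (0 * J)) :=
      Real.tendsto_exp_neg_atTop_nhds_zero.mul_const J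
    rw [zero_mul] at h1
    exact (h1.eventually (gt_mem_nhds (by linarith))).and
      ((eventually_gt_atTop _).and (eventually_gt_atTop 0))
  obtain ⟨x, hx1, hx2, hx3⟩ := hev.exists
  have hcx : x / δ * δ = x := div_mul_cancel₀ x hδ0.ne'
  have h := key hPERG hLAC hm P.equivFin.symm hg hB hw hout hin hA hL hδ1
    (c := x / δ) (div_pos hx3 hδ0) (by rw [hcx]; exact hx2)
  rw [hcx, ← hI, ← hJ] at h
  have h2 : A * (s₁ - s₀) = A * (s₁ - δ - s₀) + A * δ := by ring
  linarith

end Pool.Agent.PFT
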