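import Pool.Agent.PFT.StmtsA
import Pool.Agent.PFT.PERB
import Pool.Agent.PFlow.E.KAP
import Pool.Agent.PFlow.E.CUTM

/-!
# (PERC) The mean area of the level sets, cut in thin regions of the other ends
-/

open MeasureTheory Filter Topology
open scoped ContDiff ENNReal

namespace Pool.Agent.PFT

open Pool.Agent.PenroseSph Pool.Agent.PFlow

namespace PERCm

/-! ### General lemmas -/

lemma l1_mono {K K' : Set E3} {w : E3 → ℝ} {G : E3 → Cov} (hK : IsCompact K) (hK' : K' ⊆ K)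
    (h : L1Approx K w G) : L1Approx K' w G where
  cont := h.cont.mono hK'
  int i := (h.int i).mono_set hK'
  approx := by
    obtain ⟨v, hv, hu, h1⟩ := h.approx
    refine ⟨v, hv, hu.mono hK', fun i => ?_⟩
    refine squeeze_zero (fun n => integral_nonneg fun x => abs_nonneg _) (fun n => ?_) (h1 i)
    refine setIntegral_mono_set ?_ (ae_of_all _ fun x => abs_nonneg _) (LE.le.eventuallyLE hK')
    have hc : ContinuousOn (pd i (v n)) K :=
      (((hv n).continuous_fderiv (by simp)).clm_apply continuous_const).continuousOn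
    exact (Integrable.sub (hc.integrableOn_compact hK) (h.int i)).abs

lemma len_smul_abs (g : TensorField) (x : E3) (c : ℝ) (p : Cov) :
    len g x (fun i => c * p i) = |c| * len g x p := by
  rcases le_or_gt 0 c with hc | hc
  · rw [PERBm.len_smul g x hc, abs_of_nonneg hc]
  · have e : ev (g x)⁻¹ (fun i => c * p i) (fun i => c * p i)
        = ev (g x)⁻¹ (fun i => |c| * p i) (fun i => |c| * p i) := by
      unfold ev
      refine Finset.sum_congr rfl fun i _ => Finset.sum_congr rfl fun j _ => ?_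
      rw [abs_of_neg hc]
      ring
    have h2 := PERBm.len_smul g x (abs_nonneg c) p
    unfold len at h2 ⊢
    rw [e, h2]

lemma pd_cont {f : E3 → ℝ} (hf : ContDiff ℝ ∞ f) (l : Fin 3) : Continuous (pd l f) :=
  (hf.continuous_fderiv (by simp)).clm_apply continuous_const

/-- One of `M` disjoint sets carries at most `1/M` of the integral. -/
lemma pigeon {K : Set E3} {F : E3 → ℝ} (hF0 : ∀ x, 0 ≤ F x)
    (hFi : IntegrableOn F K) {M : ℕ} (hM : 1 ≤ M) {S : ℕ → Set E3}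
    (hSm : ∀ j, MeasurableSet (S j)) (hSK : ∀ j < M, S j ⊆ K)
    (hd : ∀ i < M, ∀ j < M, i ≠ j → Disjoint (S i) (S j)) :
    ∃ j < M, ∫ x in S j, F x ≤ (∫ x in K, F x) / M := by
  by_contra hcon
  push Not at hcon
  have hM' : (0 : ℝ) < M := by exact_mod_cast hM
  have h1 : ∫ x in ⋃ j ∈ Finset.range M, S j, F x = ∑ j ∈ Finset.range M, ∫ x in S j, F x := by
    refine integral_biUnion_finset _ (fun j _ => hSm j) ?_ ?_
    · intro i hi j hj hij
      exact hd i (by simpa using hi) j (by simpa using hj) hij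
    · intro j hj
      exact hFi.mono_set (hSK j (by simpa using hj))
  have h2 : ∫ x in ⋃ j ∈ Finset.range M, S j, F x ≤ ∫ x in K, F x := by
    refine setIntegral_mono_set hFi (ae_of_all _ hF0) (LE.le.eventuallyLE ?_)
    exact Set.iUnion₂_subset fun j hj => hSK j (by simpa using hj)
  have h3 : ∑ j ∈ Finset.range M, (∫ x in K, F x) / M < ∑ j ∈ Finset.range M, ∫ x in S j, F x := by
    refine Finset.sum_lt_sum_of_nonempty ⟨0, Finset.mem_range.2 (by omega)⟩ fun j hj => ?_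
    exact hcon j (by simpa using hj)
  rw [Finset.sum_const, Finset.card_range, nsmul_eq_mul, mul_div_cancel₀ _ hM'.ne', ← h1] at h3
  linarith

/-! ### The clamp -/

/-- the derivative of the clamp -/
noncomputable def bmp (s₀ s₁ η s : ℝ) : ℝ :=
  Real.smoothTransition ((s - s₀) / η) * Real.smoothTransition ((s₁ - s) / η)

/-- the clamp -/
noncomputable def clamp (s₀ s₁ η s : ℝ) : ℝ := ∫ t in s₀..s, bmp s₀ s₁ η t

lemma bmp_smooth (s₀ s₁ η : ℝ) : ContDiff ℝ ∞ (bmp s₀ s₁ η) := by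
  unfold bmp
  refine ContDiff.mul ?_ ?_
  · exact Real.smoothTransition.contDiff.comp ((contDiff_id.sub contDiff_const).div_const _)
  · exact Real.smoothTransition.contDiff.comp ((contDiff_const.sub contDiff_id).div_const _)

lemma bmp_nonneg (s₀ s₁ η s : ℝ) : 0 ≤ bmp s₀ s₁ η s :=
  mul_nonneg (Real.smoothTransition.nonneg _) (Real.smoothTransition.nonneg _)

lemma bmp_le_one (s₀ s₁ η s : ℝ) : bmp s₀ s₁ η s ≤ 1 :=
  mul_le_one₀ (Real.smoothTransition.le_one _) (Real.smoothTransition.nonneg _)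
    (Real.smoothTransition.le_one _)

lemma bmp_left {s₀ s₁ η s : ℝ} (hη : 0 < η) (hs : s ≤ s₀) : bmp s₀ s₁ η s = 0 := by
  unfold bmp
  rw [Real.smoothTransition.zero_of_nonpos, zero_mul]
  exact div_nonpos_of_nonpos_of_nonneg (by linarith) hη.le

lemma bmp_right {s₀ s₁ η s : ℝ} (hη : 0 < η) (hs : s₁ ≤ s) : bmp s₀ s₁ η s = 0 := by
  unfold bmp
  rw [Real.smoothTransition.zero_of_nonpos (x := (s₁ - s) / η), mul_zero]
  exact div_nonpos_of_nonpos_of_nonneg (by linarith) hη.le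

lemma bmp_mid {s₀ s₁ η s : ℝ} (hη : 0 < η) (h1 : s₀ + η ≤ s) (h2 : s ≤ s₁ - η) :
    bmp s₀ s₁ η s = 1 := by
  unfold bmp
  rw [Real.smoothTransition.one_of_one_le, Real.smoothTransition.one_of_one_le, mul_one]
  · rw [le_div_iff₀ hη]; linarith
  · rw [le_div_iff₀ hη]; linarith

lemma bmp_int (s₀ s₁ η a b : ℝ) : IntervalIntegrable (bmp s₀ s₁ η) volume a b :=
  (bmp_smooth s₀ s₁ η).continuous.intervalIntegrable a b

lemma clamp_deriv (s₀ s₁ η s : ℝ) : HasDerivAt (clamp s₀ s₁ η) (bmp s₀ s₁ η s) s :=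
  intervalIntegral.integral_hasDerivAt_right (bmp_int _ _ _ _ _)
    ((bmp_smooth s₀ s₁ η).continuous.stronglyMeasurableAtFilter _ _)
    (bmp_smooth s₀ s₁ η).continuous.continuousAt

lemma clamp_smooth (s₀ s₁ η : ℝ) : ContDiff ℝ ∞ (clamp s₀ s₁ η) := by
  rw [contDiff_infty_iff_deriv]
  refine ⟨fun s => (clamp_deriv s₀ s₁ η s).differentiableAt, ?_⟩
  have : deriv (clamp s₀ s₁ η) = bmp s₀ s₁ η := by
    funext s
    exact (clamp_deriv s₀ s₁ η s).deriv
  rw [this]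
  exact bmp_smooth s₀ s₁ η

lemma clamp_left {s₀ s₁ η s : ℝ} (hη : 0 < η) (hs : s ≤ s₀) : clamp s₀ s₁ η s = 0 := by
  unfold clamp
  rw [intervalIntegral.integral_symm, neg_eq_zero]
  apply intervalIntegral.integral_zero_ae
  refine ae_of_all _ fun t ht => ?_
  rw [Set.uIoc_of_le hs] at ht
  exact bmp_left hη ht.2

lemma clamp_right {s₀ s₁ η s : ℝ} (hη : 0 < η) (hs : s₁ ≤ s) :
    clamp s₀ s₁ η s = clamp s₀ s₁ η s₁ := by
  unfold clamp
  rw [← intervalIntegral.integral_add_adjacent_intervals (bmp_int s₀ s₁ η s₀ s₁)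
    (bmp_int s₀ s₁ η s₁ s)]
  have : ∫ t in s₁..s, bmp s₀ s₁ η t = 0 := by
    apply intervalIntegral.integral_zero_ae
    refine ae_of_all _ fun t ht => ?_
    rw [Set.uIoc_of_le hs] at ht
    exact bmp_right hη ht.1.le
  rw [this, add_zero]

lemma clamp_total {s₀ s₁ η : ℝ} (hη : 0 < η) (h : s₀ + η ≤ s₁ - η) :
    s₁ - s₀ - 2 * η ≤ clamp s₀ s₁ η s₁ := by
  unfold clamp
  rw [← intervalIntegral.integral_add_adjacent_intervals (bmp_int s₀ s₁ η s₀ (s₀ + η))
    (bmp_int s₀ s₁ η (s₀ + η) s₁),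
    ← intervalIntegral.integral_add_adjacent_intervals (bmp_int s₀ s₁ η (s₀ + η) (s₁ - η))
    (bmp_int s₀ s₁ η (s₁ - η) s₁)]
  have h1 : 0 ≤ ∫ t in s₀..(s₀ + η), bmp s₀ s₁ η t :=
    intervalIntegral.integral_nonneg (by linarith) fun t _ => bmp_nonneg _ _ _ t
  have h2 : 0 ≤ ∫ t in (s₁ - η)..s₁, bmp s₀ s₁ η t :=
    intervalIntegral.integral_nonneg (by linarith) fun t _ => bmp_nonneg _ _ _ t
  have h3 : ∫ t in (s₀ + η)..(s₁ - η), bmp s₀ s₁ η t = ∫ _t in (s₀ + η)..(s₁ - η), (1 : ℝ) := by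
    refine intervalIntegral.integral_congr fun t ht => ?_
    rw [Set.uIcc_of_le h] at ht
    exact bmp_mid hη ht.1 ht.2
  rw [h3, intervalIntegral.integral_const, smul_eq_mul, mul_one]
  linarith

/-! ### Compositions -/

lemma l1_comp (hLAC : Stmt_LAC) {K : Set E3} (hK : IsCompact K) {w : E3 → ℝ} {G : E3 → Cov}
    (hw : L1Approx K w G) {Ψ φ : ℝ → ℝ} (hΨ : ContDiff ℝ ∞ Ψ) (hd : ∀ s, HasDerivAt Ψ (φ s) s) :
    L1Approx K (fun x => Ψ (w x)) (fun x l => φ (w x) * G x l) := by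
  obtain ⟨Θ, hΘ⟩ : ∃ Θ : (Fin 1 → ℝ) × E3 → ℝ, Θ = fun y => Ψ (y.1 0) := ⟨_, rfl⟩
  have hsm : ContDiff ℝ ∞ Θ := by
    rw [hΘ]
    exact hΨ.comp ((contDiff_apply ℝ ℝ (0 : Fin 1)).comp contDiff_fst)
  have hfd : ∀ (s : Fin 1 → ℝ) (x : E3) (d : (Fin 1 → ℝ) × E3),
      fderiv ℝ Θ (s, x) d = φ (s 0) * d.1 0 := by
    intro s x d
    have h1 : HasFDerivAt (fun y : (Fin 1 → ℝ) × E3 => y.1 0)
        ((ContinuousLinearMap.proj (0 : Fin 1) : (Fin 1 → ℝ) →L[ℝ] ℝ).comp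
          (ContinuousLinearMap.fst ℝ (Fin 1 → ℝ) E3)) (s, x) :=
      ((ContinuousLinearMap.proj (0 : Fin 1) : (Fin 1 → ℝ) →L[ℝ] ℝ).comp
          (ContinuousLinearMap.fst ℝ (Fin 1 → ℝ) E3)).hasFDerivAt
    have h3 : HasDerivAt Ψ (φ (s 0)) ((fun y : (Fin 1 → ℝ) × E3 => y.1 0) (s, x)) := hd (s 0)
    have h2 := h3.comp_hasFDerivAt (s, x) h1
    have h5 : HasFDerivAt (fun y : (Fin 1 → ℝ) × E3 => Ψ (y.1 0)) _ (s, x) := h2
    rw [hΘ, h5.fderiv]
    simp
  have h := hLAC 1 K (fun _ => w) (fun _ => G) Θ hK hsm (fun _ => hw)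
  have e1 : (fun x => Θ (fun _ => w x, x)) = fun x => Ψ (w x) := by
    rw [hΘ]
  have e2 : (fun (x : E3) (l : Fin 3) => (∑ i : Fin 1, fderiv ℝ Θ (fun _ => w x, x)
      (Pi.single i 1, 0) * G x l) + fderiv ℝ Θ (fun _ => w x, x) (0, EuclideanSpace.single l 1))
      = fun x l => φ (w x) * G x l := by
    funext x l
    rw [hfd]
    simp [hfd]
  rw [e1, e2] at h
  exact h

lemma l1_cut (hLAC : Stmt_LAC) {K : Set E3} (hK : IsCompact K) {v : E3 → ℝ} {G : E3 → Cov}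
    (hv : L1Approx K v G) (Q : Finset E3) {ξ : E3 → E3 → ℝ} (hξ : ∀ p ∈ Q, ContDiff ℝ ∞ (ξ p))
    (c : E3 → ℝ) :
    L1Approx K (fun x => v x + ∑ p ∈ Q, (1 - ξ p x) * (c p - v x))
      (fun x l => (1 - ∑ p ∈ Q, (1 - ξ p x)) * G x l
        + ∑ p ∈ Q, -(c p - v x) * pd l (ξ p) x) := by
  obtain ⟨Θ, hΘ⟩ : ∃ Θ : (Fin 1 → ℝ) × E3 → ℝ,
      Θ = fun y => y.1 0 + ∑ p ∈ Q, (1 - ξ p y.2) * (c p - y.1 0) := ⟨_, rfl⟩
  have hp0 : ContDiff ℝ ∞ (fun y : (Fin 1 → ℝ) × E3 => y.1 0) :=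
    (contDiff_apply ℝ ℝ (0 : Fin 1)).comp contDiff_fst
  have hsm : ContDiff ℝ ∞ Θ := by
    rw [hΘ]
    refine hp0.add (ContDiff.sum fun p hp => ?_)
    exact (contDiff_const.sub ((hξ p hp).comp contDiff_snd)).mul (contDiff_const.sub hp0)
  have hfd : ∀ (s : Fin 1 → ℝ) (x : E3) (d : (Fin 1 → ℝ) × E3),
      fderiv ℝ Θ (s, x) d = d.1 0 + ∑ p ∈ Q, ((1 - ξ p x) * (-(d.1 0))
        + (c p - s 0) * (-(fderiv ℝ (ξ p) x d.2))) := by
    intro s x d
    have h1 : HasFDerivAt (fun y : (Fin 1 → ℝ) × E3 => y.1 0)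
        ((ContinuousLinearMap.proj (0 : Fin 1) : (Fin 1 → ℝ) →L[ℝ] ℝ).comp
          (ContinuousLinearMap.fst ℝ (Fin 1 → ℝ) E3)) (s, x) :=
      ((ContinuousLinearMap.proj (0 : Fin 1) : (Fin 1 → ℝ) →L[ℝ] ℝ).comp
          (ContinuousLinearMap.fst ℝ (Fin 1 → ℝ) E3)).hasFDerivAt
    have h2 : ∀ p ∈ Q, HasFDerivAt (fun y : (Fin 1 → ℝ) × E3 => ξ p y.2)
        ((fderiv ℝ (ξ p) x).comp (ContinuousLinearMap.snd ℝ (Fin 1 → ℝ) E3)) (s, x) := by
      intro p hp
      have e : HasFDerivAt (ξ p) (fderiv ℝ (ξ p) x) ((s, x) : (Fin 1 → ℝ) × E3).2 :=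
        ((hξ p hp).differentiable (by simp) x).hasFDerivAt
      exact e.comp (s, x) hasFDerivAt_snd
    have h4 := h1.add (HasFDerivAt.fun_sum (u := Q) fun p hp =>
      ((h2 p hp).const_sub 1).mul (h1.const_sub (c p)))
    have h5 : HasFDerivAt (fun y : (Fin 1 → ℝ) × E3 => y.1 0 +
      ∑ p ∈ Q, (1 - ξ p y.2) * (c p - y.1 0)) _ (s, x) := h4
    rw [hΘ, h5.fderiv]
    simp [smul_eq_mul]
  have h := hLAC 1 K (fun _ => v) (fun _ => G) Θ hK hsm (fun _ => hv)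
  have e1 : (fun x => Θ (fun _ => v x, x)) =
      fun x => v x + ∑ p ∈ Q, (1 - ξ p x) * (c p - v x) := by
    rw [hΘ]
  have e2 : (fun (x : E3) (l : Fin 3) => (∑ i : Fin 1, fderiv ℝ Θ (fun _ => v x, x)
      (Pi.single i 1, 0) * G x l) + fderiv ℝ Θ (fun _ => v x, x) (0, EuclideanSpace.single l 1))
      = fun x l => (1 - ∑ p ∈ Q, (1 - ξ p x)) * G x l + ∑ p ∈ Q, -(c p - v x) * pd l (ξ p) x := by
    funext x l
    rw [hfd]
    simp only [Finset.univ_unique, Finset.sum_singleton, hfd]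
    simp only [Fin.default_eq_zero, Pi.single_eq_same, map_zero, neg_zero, mul_zero, add_zero,
      Pi.zero_apply, zero_add]
    have e3 : ∑ p ∈ Q, (1 - ξ p x) * -1 = -∑ p ∈ Q, (1 - ξ p x) := by
      rw [← Finset.sum_mul]
      ring
    have e4 : ∑ p ∈ Q, (c p - v x) * -(fderiv ℝ (ξ p) x) (EuclideanSpace.single l 1)
        = ∑ p ∈ Q, -(c p - v x) * pd l (ξ p) x :=
      Finset.sum_congr rfl fun p _ => by
        unfold pd
        ring
    rw [e3, e4]
    ring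
  rw [e1, e2] at h
  exact h

/-! ### The cut-off -/

/-- the cut-off: `0` for `|x - p| ≤ t`, `1` for `2 t ≤ |x - p|` -/
noncomputable def xi (t : ℝ) (p x : E3) : ℝ := kin (1 / (32 * t)) (x - p)

lemma xi_smooth {t : ℝ} (ht : 0 < t) (p : E3) : ContDiff ℝ ∞ (xi t p) :=
  (KAP.2.2.2.2.2.2 _ (by positivity)).comp (contDiff_id.sub contDiff_const)

lemma xi_nonneg (t : ℝ) (p x : E3) : 0 ≤ xi t p x := PFlow.CUTM.kin_nonneg KAP _ _

lemma xi_le_one (t : ℝ) (p x : E3) : xi t p x ≤ 1 := PFlow.CUTM.kin_le_one KAP _ _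

lemma xi_in {t : ℝ} (ht : 0 < t) {p x : E3} (h : ‖x - p‖ ≤ t) : xi t p x = 0 := by
  refine PFlow.CUTM.kin_zero KAP (by positivity) ?_
  have : 1 / (32 * (1 / (32 * t))) = t := by field_simp
  rw [this]
  exact h

lemma xi_out {t : ℝ} (ht : 0 < t) {p x : E3} (h : 2 * t ≤ ‖x - p‖) : xi t p x = 1 := by
  refine PFlow.CUTM.kin_one KAP (by positivity) ?_
  have : 1 / (16 * (1 / (32 * t))) = 2 * t := by field_simp; norm_num
  rw [this]
  exact h

lemma pd_shift (F : E3 → ℝ) (p : E3) (k : Fin 3) :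
    pd k (fun y => F (y - p)) = fun x => pd k F (x - p) := by
  funext x
  unfold pd
  rw [fderiv_comp_sub]

lemma xi_pd : ∃ D : ℝ, 0 < D ∧ ∀ t : ℝ, 0 < t → ∀ (p x : E3) (l : Fin 3),
    |pd l (xi t p) x| ≤ D / t := by
  obtain ⟨_, h01, _, _, ⟨D, hD, hb⟩, hsm, hkin⟩ := KAP
  refine ⟨D, hD, fun t ht p x k => ?_⟩
  have e : kin (1 / (32 * t)) = fun y => -kap (‖y‖ / t) + 1 := by
    funext y
    unfold kin
    have : 32 * (1 / (32 * t)) * ‖y‖ = ‖y‖ / t := by field_simp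
    rw [this]
    ring
  have pdneg : ∀ (f : E3 → ℝ) (k : Fin 3), pd k (fun y => -f y) = fun y => -pd k f y := by
    intro f k
    funext y
    unfold pd
    rw [fderiv_fun_neg]
    rfl
  have pdc : ∀ (f : E3 → ℝ) (K : ℝ) (i : Fin 3), pd i (fun y => f y + K) = pd i f := by
    intro f K i
    funext x
    unfold pd
    rw [fderiv_add_const]
  have e1 : pd k (kin (1 / (32 * t))) = fun y => -pd k (fun y => kap (‖y‖ / t)) y := by
    rw [e, pdc, pdneg]
  have e2 : xi t p = fun y => kin (1 / (32 * t)) (y - p) := rfl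
  rw [e2, pd_shift, e1]
  show |-pd k (fun y => kap (‖y‖ / t)) (x - p)| ≤ D / t
  rw [abs_neg]
  exact (hb _ ht (x - p)).1 k

lemma xi_grad {t : ℝ} (ht : 0 < t) {p x : E3} (h : ‖x - p‖ < t ∨ 2 * t < ‖x - p‖) (l : Fin 3) :
    pd l (xi t p) x = 0 := by
  have hc : Continuous fun y : E3 => ‖y - p‖ := by fun_prop
  unfold pd
  rcases h with h | h
  · have h1 : xi t p =ᶠ[𝓝 x] fun _ => 0 := by
      filter_upwards [hc.continuousAt.eventually (gt_mem_nhds h)] with y hy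
      exact xi_in ht hy.le
    rw [h1.fderiv_eq]
    simp
  · have h1 : xi t p =ᶠ[𝓝 x] fun _ => 1 := by
      filter_upwards [hc.continuousAt.eventually (lt_mem_nhds h)] with y hy
      exact xi_out ht hy.le
    rw [h1.fderiv_eq]
    simp

/-! ### The parameters -/

lemma small {a : ℝ} (ha : 0 < a) : ∀ᶠ e in 𝓝[>] (0 : ℝ), e < a :=
  eventually_nhdsWithin_of_eventually_nhds (gt_mem_nhds ha)

lemma exists_eps {P : Finset E3} {q : E3} {ρ r : ℝ}
    (hsep : ∀ p ∈ P, p ≠ q → ρ < ‖p - q‖) (hr : ∀ p ∈ P, ‖p‖ < r) :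
    ∃ ε : ℝ, 0 < ε ∧ (∀ p ∈ P, ‖p‖ + ε < r) ∧ (∀ p ∈ P, p ≠ q → ρ + ε < ‖p - q‖) ∧
      ∀ p ∈ P, ∀ p' ∈ P, p ≠ p' → 2 * ε < ‖p - p'‖ := by
  have h1 : ∀ᶠ e in 𝓝[>] (0 : ℝ), ∀ p ∈ P, ‖p‖ + e < r := by
    rw [Filter.eventually_all_finset]
    intro p hp
    filter_upwards [small (sub_pos.2 (hr p hp))] with e he
    linarith
  have h2 : ∀ᶠ e in 𝓝[>] (0 : ℝ), ∀ p ∈ P, p ≠ q → ρ + e < ‖p - q‖ := by
    rw [Filter.eventually_all_finset]
    intro p hp
    by_cases h : p = q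
    · exact Filter.Eventually.of_forall fun e h' => absurd h h'
    · filter_upwards [small (sub_pos.2 (hsep p hp h))] with e he _
      linarith
  have h3 : ∀ᶠ e in 𝓝[>] (0 : ℝ), ∀ p ∈ P, ∀ p' ∈ P, p ≠ p' → 2 * e < ‖p - p'‖ := by
    rw [Filter.eventually_all_finset]
    intro p hp
    rw [Filter.eventually_all_finset]
    intro p' hp'
    by_cases h : p = p'
    · exact Filter.Eventually.of_forall fun e h' => absurd h h'
    · have h4 : 0 < ‖p - p'‖ := norm_pos_iff.2 (sub_ne_zero.2 h)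
      filter_upwards [small (half_pos h4)] with e he _
      linarith
  obtain ⟨ε, ⟨⟨h5, h6⟩, h7⟩, h8⟩ := (((h1.and h2).and h3).and self_mem_nhdsWithin).exists
  exact ⟨ε, h8, h5, h6, h7⟩

lemma balls {P : Finset E3} {q : E3} {ρ r ε : ℝ} (hρ : 0 < ρ) (hqr : ‖q‖ + ρ < r)
    (e1 : ∀ p ∈ P, ‖p‖ + ε < r) (e2 : ∀ p ∈ P, p ≠ q → ρ + ε < ‖p - q‖)
    (e3 : ∀ p ∈ P, ∀ p' ∈ P, p ≠ p' → 2 * ε < ‖p - p'‖) {a : E3 → ℝ} (haq : a q = ρ)
    (ha : ∀ p ∈ P, p ≠ q → 0 < a p ∧ a p ≤ ε) : Balls P a r where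
  pos p hp := by
    by_cases h : p = q
    · rw [h, haq]; exact hρ
    · exact (ha p hp h).1
  inside p hp := by
    by_cases h : p = q
    · rw [h, haq]; exact hqr
    · have h1 := (ha p hp h).2
      have h2 := e1 p hp
      linarith
  disj p hp p' hp' hne := by
    by_cases h : p = q
    · have h' : p' ≠ q := fun h' => hne (h.trans h'.symm)
      have h1 := (ha p' hp' h').2
      have h2 := e2 p' hp' h'
      rw [h, haq, norm_sub_rev]
      linarith
    · have h1 := (ha p hp h).2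
      by_cases h' : p' = q
      · have h2 := e2 p hp h
        rw [h', haq]
        linarith
      · have h3 := (ha p' hp' h').2
        have h4 := e3 p hp p' hp' hne
        linarith

lemma ann_sub {P : Finset E3} {q : E3} {ρ r ε : ℝ}
    (e1 : ∀ p ∈ P, ‖p‖ + ε < r) (e2 : ∀ p ∈ P, p ≠ q → ρ + ε < ‖p - q‖)
    (e3 : ∀ p ∈ P, ∀ p' ∈ P, p ≠ p' → 2 * ε < ‖p - p'‖) {a : E3 → ℝ} (haq : a q = ρ)
    (ha : ∀ p ∈ P, p ≠ q → a p ≤ ε) {p : E3} (hp : p ∈ P) (hpq : p ≠ q) {s u : ℝ}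
    (hs : a p ≤ s) (hu : u ≤ ε) : {x : E3 | s ≤ ‖x - p‖ ∧ ‖x - p‖ ≤ u} ⊆ kset P a r := by
  rintro x ⟨hx1, hx2⟩
  refine ⟨?_, fun p' hp' => ?_⟩
  · have h1 := e1 p hp
    have h2 : ‖x‖ ≤ ‖x - p‖ + ‖p‖ := by
      have := norm_add_le (x - p) p
      simpa using this
    linarith
  · have tri : ‖p - p'‖ ≤ ‖x - p‖ + ‖x - p'‖ := by
      have h3 : p - p' = (x - p') - (x - p) := by abel
      rw [h3]
      have := norm_sub_le (x - p') (x - p)
      linarith
    by_cases h : p' = q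
    · rw [h, haq]
      rw [h] at tri
      have := e2 p hp hpq
      linarith
    · by_cases h' : p' = p
      · rw [h']
        linarith
      · have h4 := e3 p hp p' hp' (fun e => h' e.symm)
        have h5 := ha p' hp' h
        linarith

lemma isMeas_ann (p : E3) (s u : ℝ) : MeasurableSet {x : E3 | s ≤ ‖x - p‖ ∧ ‖x - p‖ ≤ u} := by
  have : {x : E3 | s ≤ ‖x - p‖ ∧ ‖x - p‖ ≤ u} = (fun x : E3 => ‖x - p‖) ⁻¹' Set.Icc s u := rfl
  rw [this]
  exact (isClosed_Icc.preimage (by fun_prop)).measurableSet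

/-! ### The key inequality -/

lemma key (hPERG : Stmt_PERG) (hLAC : Stmt_LAC) {P : Finset E3} {g : TensorField} {q : E3}
    {ρ r ε τ δ D : ℝ} {M : ℕ} {C : E3 → ℝ} {T : ℕ → ℝ}
    (hqP : q ∈ P) (hg : MetricOn ((P : Set E3))ᶜ g) (hρ : 0 < ρ) (hqr : ‖q‖ + ρ < r)
    (e1 : ∀ p ∈ P, ‖p‖ + ε < r) (e2 : ∀ p ∈ P, p ≠ q → ρ + ε < ‖p - q‖)
    (e3 : ∀ p ∈ P, ∀ p' ∈ P, p ≠ p' → 2 * ε < ‖p - p'‖) (hτε : τ ≤ ε) (hδ : 0 < δ)
    (hC : ∀ p, 0 < C p)
    (hD : ∀ t : ℝ, 0 < t → ∀ (p x : E3) (l : Fin 3), |pd l (xi t p) x| ≤ D / t)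
    (hcut : ∀ p ∈ P, p ≠ q → ∀ (t : ℝ) (w : E3 → ℝ) (G : E3 → Cov) (ξ : E3 → ℝ),
      0 < t → 2 * t ≤ τ → L1Approx {x : E3 | t / 2 ≤ ‖x - p‖ ∧ ‖x - p‖ ≤ 2 * t} w G →
      ContDiff ℝ ∞ ξ → (∀ x l, |pd l ξ x| ≤ D / t) →
      ∃ c : ℝ, ∫ x in {x : E3 | t ≤ ‖x - p‖ ∧ ‖x - p‖ ≤ 2 * t},
            |w x - c| * (len g x (grad ξ x) * volDen g x)
          ≤ C p * ∫ x in {x : E3 | t / 2 ≤ ‖x - p‖ ∧ ‖x - p‖ ≤ 2 * t},
              len g x (G x) * volDen g x)
    (hM : 1 ≤ M) (hT : ∀ j, 0 < T j) (hTτ : ∀ j < M, 2 * T j ≤ τ) (hTδ : ∀ j < M, δ ≤ T j / 2)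
    (hTd : ∀ i < M, ∀ j < M, i < j → 2 * T j < T i / 2)
    {w : E3 → ℝ} {G : E3 → Cov} {s₀ s₁ η : ℝ}
    (hw : L1Approx (kset P (aDel q ρ δ) r) w G) (hout : ∀ x : E3, ‖x‖ = r → s₁ < w x)
    (hin : ∀ x : E3, ‖x - q‖ = ρ → w x < s₀) {A : ℝ} (hA : 0 ≤ A) (hL : LowerP P {q} g A)
    (hη : 0 < η) (hη4 : 4 * η < s₁ - s₀) :
    A * (s₁ - s₀ - 4 * η) ≤ (1 + (∑ p ∈ P.erase q, C p) / M) *
      ∫ x in kset P (aDel q ρ δ) r ∩ {x | s₀ ≤ w x ∧ w x ≤ s₁}, len g x (G x) * volDen g x := by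
  classical
  have hM' : (0 : ℝ) < M := by exact_mod_cast hM
  obtain ⟨K, hK⟩ : ∃ K, K = kset P (aDel q ρ δ) r := ⟨_, rfl⟩
  have hδε : δ ≤ ε := by
    have h1 := hTδ 0 (by omega)
    have h2 := hTτ 0 (by omega)
    have h3 := hT 0
    linarith
  have haq : aDel q ρ δ q = ρ := by simp [aDel]
  have hane : ∀ p, p ≠ q → aDel q ρ δ p = δ := fun p hp => by simp [aDel, hp]
  have hB : Balls P (aDel q ρ δ) r := balls hρ hqr e1 e2 e3 haq
    (fun p _ hpq => by rw [hane p hpq]; exact ⟨hδ, hδε⟩)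
  have hKc : IsCompact K := by rw [hK]; exact PERBm.isCompact_kset _ _ _
  have hKm : MeasurableSet K := hKc.isClosed.measurableSet
  have hK0 : K ⊆ ((P : Set E3))ᶜ := by
    intro x hx hxP
    rw [hK] at hx
    have h1 := hx.2 x hxP
    rw [sub_self, norm_zero] at h1
    exact absurd (hB.pos x hxP) (not_lt.2 h1)
  have hannK : ∀ p ∈ P, p ≠ q → ∀ t : ℝ, δ ≤ t / 2 → 2 * t ≤ τ →
      {x : E3 | t / 2 ≤ ‖x - p‖ ∧ ‖x - p‖ ≤ 2 * t} ⊆ K := by
    intro p hp hpq t ht1 ht2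
    rw [hK]
    refine ann_sub e1 e2 e3 haq (fun p' _ hpq' => by rw [hane p' hpq']; exact hδε) hp hpq ?_ ?_
    · rw [hane p hpq]; exact ht1
    · exact ht2.trans hτε
  rw [← hK] at hw ⊢
  -- the clamped function
  obtain ⟨φ, hφ⟩ : ∃ φ, φ = bmp s₀ s₁ η := ⟨_, rfl⟩
  obtain ⟨Ψ, hΨ⟩ : ∃ Ψ, Ψ = clamp s₀ s₁ η := ⟨_, rfl⟩
  obtain ⟨v, hv⟩ : ∃ v : E3 → ℝ, v = fun x => Ψ (w x) := ⟨_, rfl⟩
  obtain ⟨H, hH⟩ : ∃ H : E3 → Cov, H = fun x l => φ (w x) * G x l := ⟨_, rfl⟩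
  have hvL : L1Approx K v H := by
    rw [hv, hH]
    exact l1_comp hLAC hKc hw (by rw [hΨ]; exact clamp_smooth _ _ _)
      (fun s => by rw [hΨ, hφ]; exact clamp_deriv _ _ _ _)
  obtain ⟨Λ, hΛ⟩ : ∃ Λ, Λ = clamp s₀ s₁ η s₁ := ⟨_, rfl⟩
  have hΛ1 : s₁ - s₀ - 2 * η ≤ Λ := by rw [hΛ]; exact clamp_total hη (by linarith)
  -- the density
  obtain ⟨F, hF⟩ : ∃ F : E3 → ℝ, F = fun x => len g x (H x) * volDen g x := ⟨_, rfl⟩
  have hF0 : ∀ x, 0 ≤ F x := fun x => by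
    rw [hF]
    exact mul_nonneg (PERm.len_nonneg g x _) (PERm.volDen_nonneg g x)
  have hFi : IntegrableOn F K := by
    rw [hF]
    exact PERBm.integrable_len hg hKc hK0 hvL.int
  obtain ⟨I, hI⟩ : ∃ I, I = ∫ x in K, F x := ⟨_, rfl⟩
  have hI0 : 0 ≤ I := by
    rw [hI]
    exact integral_nonneg hF0
  -- comparison with the integral of the statement
  have hII : I ≤ ∫ x in K ∩ {x | s₀ ≤ w x ∧ w x ≤ s₁}, len g x (G x) * volDen g x := by
    have hSm : MeasurableSet (K ∩ {x | s₀ ≤ w x ∧ w x ≤ s₁}) := by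
      have : K ∩ {x | s₀ ≤ w x ∧ w x ≤ s₁} = K ∩ w ⁻¹' Set.Icc s₀ s₁ := rfl
      rw [this]
      exact (hw.cont.preimage_isClosed_of_isClosed hKc.isClosed isClosed_Icc).measurableSet
    have hlen : ∀ x, F x = φ (w x) * (len g x (G x) * volDen g x) := by
      intro x
      have h0 : 0 ≤ φ (w x) := by rw [hφ]; exact bmp_nonneg _ _ _ _
      rw [hF, hH]
      show len g x (fun l => φ (w x) * G x l) * volDen g x = _
      rw [PERBm.len_smul g x h0]
      ring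
    rw [hI, setIntegral_eq_of_subset_of_forall_sdiff_eq_zero hKm
      (Set.inter_subset_left (s := K) (t := {x | s₀ ≤ w x ∧ w x ≤ s₁})) ?_]
    · refine setIntegral_mono_on (hFi.mono_set Set.inter_subset_left) ?_ hSm fun x _ => ?_
      · exact IntegrableOn.mono_set (PERBm.integrable_len hg hKc hK0 hw.int)
          Set.inter_subset_left
      · rw [hlen]
        have h1 : φ (w x) ≤ 1 := by rw [hφ]; exact bmp_le_one _ _ _ _
        have h2 : 0 ≤ len g x (G x) * volDen g x :=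
          mul_nonneg (PERm.len_nonneg g x _) (PERm.volDen_nonneg g x)
        nlinarith
    · rintro x ⟨hxK, hx⟩
      have h1 : φ (w x) = 0 := by
        rw [hφ]
        by_cases h : s₀ ≤ w x
        · have h2 : s₁ < w x := by
            by_contra h3
            exact hx ⟨hxK, h, not_lt.1 h3⟩
          exact bmp_right hη h2.le
        · exact bmp_left hη (not_le.1 h).le
      rw [hlen, h1, zero_mul]
  -- the choice of the annuli
  have hex : ∀ p : E3, ∃ t c : ℝ, 0 < t ∧ (p ∈ P → p ≠ q → 2 * t ≤ τ ∧ δ ≤ t / 2 ∧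
      ∫ x in {x : E3 | t ≤ ‖x - p‖ ∧ ‖x - p‖ ≤ 2 * t},
        |v x - c| * (len g x (grad (xi t p) x) * volDen g x) ≤ C p * (I / M)) := by
    intro p
    by_cases hp : p ∈ P
    · by_cases hpq : p ≠ q
      · obtain ⟨j, hj, hj1⟩ := pigeon hF0 hFi hM
          (S := fun j => {x : E3 | T j / 2 ≤ ‖x - p‖ ∧ ‖x - p‖ ≤ 2 * T j})
          (fun j => isMeas_ann p _ _)
          (fun j hj => hannK p hp hpq (T j) (hTδ j hj) (hTτ j hj))
          (fun i hi j hj hij => by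
            rw [Set.disjoint_left]
            rintro x ⟨h1, h2⟩ ⟨h3, h4⟩
            rcases lt_or_gt_of_ne hij with h | h
            · have := hTd i hi j hj h
              linarith
            · have := hTd j hj i hi h
              linarith)
        obtain ⟨c, hc⟩ := hcut p hp hpq (T j) v H (xi (T j) p) (hT j) (hTτ j hj)
          (l1_mono hKc (hannK p hp hpq (T j) (hTδ j hj) (hTτ j hj)) hvL) (xi_smooth (hT j) p)
          (fun x l => hD (T j) (hT j) p x l)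
        refine ⟨T j, c, hT j, fun _ _ => ⟨hTτ j hj, hTδ j hj, hc.trans ?_⟩⟩
        refine mul_le_mul_of_nonneg_left ?_ (hC p).le
        rw [hI]
        rw [hF] at hj1 ⊢
        exact hj1
      · exact ⟨1, 0, one_pos, fun _ h => absurd h hpq⟩
    · exact ⟨1, 0, one_pos, fun h => absurd h hp⟩
  choose t c ht htc using hex
  obtain ⟨Q, hQ⟩ : ∃ Q, Q = P.erase q := ⟨_, rfl⟩
  have hQ1 : ∀ p ∈ Q, p ∈ P ∧ p ≠ q := fun p hp => by
    rw [hQ] at hp
    exact ⟨Finset.mem_of_mem_erase hp, Finset.ne_of_mem_erase hp⟩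
  have htε : ∀ p ∈ Q, 2 * t p ≤ ε := fun p hp =>
    (htc p (hQ1 p hp).1 (hQ1 p hp).2).1.trans hτε
  obtain ⟨a, ha⟩ : ∃ a : E3 → ℝ, a = fun p => if p = q then ρ else t p := ⟨_, rfl⟩
  have haq' : a q = ρ := by rw [ha]; simp
  have hane' : ∀ p, p ≠ q → a p = t p := fun p hp => by rw [ha]; simp [hp]
  have haε : ∀ p ∈ P, p ≠ q → 0 < a p ∧ a p ≤ ε := by
    intro p hp hpq
    rw [hane' p hpq]
    have h1 := (htc p hp hpq).1
    have h2 := ht p
    exact ⟨h2, by linarith⟩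
  have hB' : Balls P a r := balls hρ hqr e1 e2 e3 haq' haε
  obtain ⟨K', hK'⟩ : ∃ K', K' = kset P a r := ⟨_, rfl⟩
  have hK'K : K' ⊆ K := by
    intro x hx
    rw [hK'] at hx
    rw [hK]
    refine ⟨hx.1, fun p hp => ?_⟩
    have h1 := hx.2 p hp
    by_cases hpq : p = q
    · rw [hpq] at h1 ⊢
      rw [haq'] at h1
      rw [haq]
      exact h1
    · rw [hane' p hpq] at h1
      rw [hane p hpq]
      have h2 := (htc p hp hpq).2.1
      have h3 := ht p
      linarith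
  have hK'c : IsCompact K' := by rw [hK']; exact PERBm.isCompact_kset _ _ _
  have hK'm : MeasurableSet K' := hK'c.isClosed.measurableSet
  have hK'0 : K' ⊆ ((P : Set E3))ᶜ := hK'K.trans hK0
  -- the new function
  obtain ⟨ξ, hξ⟩ : ∃ ξ : E3 → E3 → ℝ, ξ = fun p x => xi (t p) p x := ⟨_, rfl⟩
  have hξs : ∀ p ∈ Q, ContDiff ℝ ∞ (ξ p) := fun p _ => by
    rw [hξ]
    exact xi_smooth (ht p) p
  have hvL' : L1Approx K' v H := l1_mono hKc hK'K hvL
  obtain ⟨W, hW⟩ : ∃ W : E3 → ℝ, W = fun x => v x + ∑ p ∈ Q, (1 - ξ p x) * (c p - v x) :=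
    ⟨_, rfl⟩
  obtain ⟨H', hH'⟩ : ∃ H' : E3 → Cov, H' = fun x l => (1 - ∑ p ∈ Q, (1 - ξ p x)) * H x l
        + ∑ p ∈ Q, -(c p - v x) * pd l (ξ p) x := ⟨_, rfl⟩
  have hWL : L1Approx K' W H' := by
    rw [hW, hH']
    exact l1_cut hLAC hK'c hvL' Q hξs c
  have hfar : ∀ x : E3, (∀ p ∈ Q, 2 * t p ≤ ‖x - p‖) → W x = v x := by
    intro x hx
    rw [hW]
    have : ∑ p ∈ Q, (1 - ξ p x) * (c p - v x) = 0 := by
      refine Finset.sum_eq_zero fun p hp => ?_
      rw [hξ]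
      simp only
      rw [xi_out (ht p) (hx p hp), sub_self, zero_mul]
    simp only
    rw [this, add_zero]
  have hPG := hPERG P {q} g W H' a c r η (Λ - η) (Finset.singleton_subset_iff.2 hqP) hg hB'
    (by linarith) (by rw [← hK']; exact hWL)
    (fun x hx => by
      have h1 : W x = v x := hfar x fun p hp => by
        have h2 := e1 p (hQ1 p hp).1
        have h3 := htε p hp
        have h4 := norm_sub_norm_le x p
        linarith
      rw [h1, hv, hΨ]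
      simp only
      rw [clamp_right hη (hout x hx).le, ← hΛ]
      linarith)
    (fun p hp x hx => by
      rw [Finset.mem_singleton] at hp
      rw [hp, haq'] at hx
      have h1 : W x = v x := hfar x fun p hp => by
        have h2 := e2 p (hQ1 p hp).1 (hQ1 p hp).2
        have h3 := htε p hp
        have h4 : ‖p - q‖ ≤ ‖x - p‖ + ‖x - q‖ := by
          have h5 : p - q = (x - q) - (x - p) := by abel
          rw [h5]
          have := norm_sub_le (x - q) (x - p)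
          linarith
        linarith
      rw [h1, hv, hΨ]
      simp only
      rw [clamp_left hη (hin x hx).le]
      exact hη)
    (fun p hp hpq x hx => by
      rw [Finset.mem_singleton] at hpq
      rw [hane' p hpq] at hx
      have hpQ : p ∈ Q := by rw [hQ]; exact Finset.mem_erase.2 ⟨hpq, hp⟩
      rw [hW]
      simp only
      rw [Finset.sum_eq_single_of_mem p hpQ]
      · have h1 : ξ p x = 0 := by
          rw [hξ]
          exact xi_in (ht p) hx.le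
        rw [h1]
        ring
      · intro p' hp' hne
        have h1 : ξ p' x = 1 := by
          rw [hξ]
          refine xi_out (ht p') ?_
          have h2 := e3 p hp p' (hQ1 p' hp').1 hne.symm
          have h3 := htε p' hp'
          have h4 := htε p hpQ
          have h6 := ht p
          have h7 : ‖p - p'‖ ≤ ‖x - p‖ + ‖x - p'‖ := by
            have h5 : p - p' = (x - p') - (x - p) := by abel
            rw [h5]
            have := norm_sub_le (x - p') (x - p)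
            linarith
          linarith
        rw [h1, sub_self, zero_mul]) A hA hL
  rw [← hK'] at hPG
  -- the sum of the cut-offs
  have hS : ∀ x : E3, 0 ≤ 1 - ∑ p ∈ Q, (1 - ξ p x) ∧ 1 - ∑ p ∈ Q, (1 - ξ p x) ≤ 1 := by
    intro x
    have h0 : ∀ p, 0 ≤ 1 - ξ p x ∧ 1 - ξ p x ≤ 1 := fun p => by
      rw [hξ]
      have h1 := xi_nonneg (t p) p x
      have h2 := xi_le_one (t p) p x
      constructor <;> simp only <;> linarith
    have h1 : 0 ≤ ∑ p ∈ Q, (1 - ξ p x) := Finset.sum_nonneg fun p _ => (h0 p).1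
    refine ⟨?_, by linarith⟩
    by_cases h : ∃ p ∈ Q, ‖x - p‖ < 2 * t p
    · obtain ⟨p, hp, hxp⟩ := h
      have h2 : ∑ p ∈ Q, (1 - ξ p x) = 1 - ξ p x := by
        refine Finset.sum_eq_single_of_mem p hp fun p' hp' hne => ?_
        have h3 : ξ p' x = 1 := by
          rw [hξ]
          refine xi_out (ht p') ?_
          have h2 := e3 p (hQ1 p hp).1 p' (hQ1 p' hp').1 hne.symm
          have h3 := htε p' hp'
          have h4 := htε p hp
          have h7 : ‖p - p'‖ ≤ ‖x - p‖ + ‖x - p'‖ := by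
            have h5 : p - p' = (x - p') - (x - p) := by abel
            rw [h5]
            have := norm_sub_le (x - p') (x - p)
            linarith
          linarith
        rw [h3, sub_self]
      rw [h2]
      linarith [(h0 p).2]
    · push Not at h
      have h2 : ∑ p ∈ Q, (1 - ξ p x) = 0 := by
        refine Finset.sum_eq_zero fun p hp => ?_
        have h3 : ξ p x = 1 := by
          rw [hξ]
          exact xi_out (ht p) (h p hp)
        rw [h3, sub_self]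
      rw [h2]
      norm_num
  -- the error terms
  obtain ⟨E, hE⟩ : ∃ E : E3 → E3 → ℝ,
      E = fun p x => |v x - c p| * (len g x (grad (ξ p) x) * volDen g x) := ⟨_, rfl⟩
  have hE0 : ∀ p x, 0 ≤ E p x := fun p x => by
    rw [hE]
    exact mul_nonneg (abs_nonneg _) (mul_nonneg (PERm.len_nonneg g x _) (PERm.volDen_nonneg g x))
  have hEi : ∀ p ∈ Q, Integrable (E p) (volume.restrict K') := by
    intro p hp
    have h1 : E p = fun x => len g x (fun l => (v x - c p) * grad (ξ p) x l) * volDen g x := by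
      rw [hE]
      funext x
      rw [len_smul_abs]
      ring
    rw [h1]
    refine PERBm.integrable_len hg hK'c hK'0 fun l => ?_
    have h2 : ContinuousOn (fun x => (v x - c p) * grad (ξ p) x l) K' :=
      (hvL'.cont.sub continuousOn_const).mul (pd_cont (hξs p hp) l).continuousOn
    exact h2.integrableOn_compact hK'c
  have hEb : ∀ p ∈ Q, ∫ x in K', E p x ≤ C p * (I / M) := by
    intro p hp
    have h1 := htc p (hQ1 p hp).1 (hQ1 p hp).2
    refine le_trans (le_of_eq ?_) h1.2.2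
    have hsub : {x : E3 | t p ≤ ‖x - p‖ ∧ ‖x - p‖ ≤ 2 * t p} ⊆ K' := by
      rw [hK']
      refine ann_sub e1 e2 e3 haq' (fun p' hp' hpq' => (haε p' hp' hpq').2) (hQ1 p hp).1
        (hQ1 p hp).2 ?_ (htε p hp)
      rw [hane' p (hQ1 p hp).2]
    rw [setIntegral_eq_of_subset_of_forall_sdiff_eq_zero hK'm hsub ?_, hE, hξ]
    rintro x ⟨_, hx⟩
    have h2 : ‖x - p‖ < t p ∨ 2 * t p < ‖x - p‖ := by
      by_contra h3
      push Not at h3
      exact hx ⟨h3.1, h3.2⟩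
    have h3 : grad (ξ p) x = fun _ => 0 := by
      funext l
      rw [hξ]
      exact xi_grad (ht p) h2 l
    rw [hE]
    simp only
    rw [h3, PERBm.len_zero]
    ring
  have hTot : ∫ x in K', len g x (H' x) * volDen g x ≤ I + ∑ p ∈ Q, C p * (I / M) := by
    have h1 : ∫ x in K', len g x (H' x) * volDen g x ≤ ∫ x in K', (F x + ∑ p ∈ Q, E p x) := by
      refine setIntegral_mono_on (PERBm.integrable_len hg hK'c hK'0 hWL.int)
        ((hFi.mono_set hK'K).add (integrable_finsetSum _ hEi)) hK'm fun x hx => ?_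
      have hpd := hg.posDef x (hK'0 hx)
      have h2 : len g x (H' x) ≤ len g x (fun l => (1 - ∑ p ∈ Q, (1 - ξ p x)) * H x l)
          + len g x (fun l => ∑ p ∈ Q, -(c p - v x) * pd l (ξ p) x) := by
        rw [hH']
        exact PERm.len_add_le hpd _ _
      have h3 : len g x (fun l => (1 - ∑ p ∈ Q, (1 - ξ p x)) * H x l) ≤ len g x (H x) := by
        rw [PERBm.len_smul g x (hS x).1]
        have h4 := PERm.len_nonneg g x (H x)
        nlinarith [(hS x).2]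
      have h4 : len g x (fun l => ∑ p ∈ Q, -(c p - v x) * pd l (ξ p) x) ≤
          ∑ p ∈ Q, |v x - c p| * len g x (grad (ξ p) x) := by
        have h5 := PERBm.len_sum Q hpd (fun _ => 1) (fun _ _ => zero_le_one)
          (fun p l => (v x - c p) * grad (ξ p) x l)
        have h6 : (fun l => ∑ p ∈ Q, (1 : ℝ) * ((v x - c p) * grad (ξ p) x l)) =
            fun l => ∑ p ∈ Q, -(c p - v x) * pd l (ξ p) x := by
          funext l
          refine Finset.sum_congr rfl fun p _ => ?_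
          unfold grad
          ring
        rw [h6] at h5
        refine h5.trans (le_of_eq (Finset.sum_congr rfl fun p _ => ?_))
        rw [len_smul_abs, one_mul]
      have h5 := mul_le_mul_of_nonneg_right (h2.trans (add_le_add h3 h4))
        (PERm.volDen_nonneg g x)
      refine h5.trans (le_of_eq ?_)
      rw [add_mul, Finset.sum_mul, hF, hE]
      congr 1
      exact Finset.sum_congr rfl fun p _ => by ring
    rw [integral_add (hFi.mono_set hK'K) (integrable_finsetSum _ hEi),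
      integral_finsetSum _ hEi] at h1
    have h2 : ∫ x in K', F x ≤ I := by
      rw [hI]
      exact setIntegral_mono_set hFi (ae_of_all _ hF0) (LE.le.eventuallyLE hK'K)
    have h3 := Finset.sum_le_sum hEb
    linarith
  have hfin : A * (Λ - η - η) ≤ I + ∑ p ∈ Q, C p * (I / M) := by
    refine hPG.trans (le_trans ?_ hTot)
    refine setIntegral_mono_set (PERBm.integrable_len hg hK'c hK'0 hWL.int) ?_
      (LE.le.eventuallyLE Set.inter_subset_left)
    exact ae_of_all _ fun x => mul_nonneg (PERm.len_nonneg g x _) (PERm.volDen_nonneg g x)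
  have h1 : I + ∑ p ∈ Q, C p * (I / M) = (1 + (∑ p ∈ Q, C p) / M) * I := by
    rw [← Finset.sum_mul]
    ring
  rw [h1] at hfin
  rw [← hQ]
  have h2 : 0 ≤ 1 + (∑ p ∈ Q, C p) / M := by
    have h3 : 0 ≤ ∑ p ∈ Q, C p := Finset.sum_nonneg fun p _ => (hC p).le
    positivity
  have h3 := mul_le_mul_of_nonneg_left hII h2
  have h4 : A * (s₁ - s₀ - 4 * η) ≤ A * (Λ - η - η) :=
    mul_le_mul_of_nonneg_left (by linarith) hA
  linarith

end PERCm

open PERCm in
theorem t_PERC (hPERG : Stmt_PERG) (hLAC : Stmt_LAC) (hCUT : Stmt_CUT) : Stmt_PERC := by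
  intro P g q ρ r hqP hg hE hρ hqr hsep hr
  obtain ⟨D, hD, hDb⟩ := xi_pd
  obtain ⟨ε, hε, e1, e2, e3⟩ := exists_eps hsep hr
  have hmet : ∀ p ∈ P, p ≠ q → MetricOn {x : E3 | 0 < ‖x - p‖ ∧ ‖x - p‖ < ε} g := by
    intro p hp hpq
    have hsub : {x : E3 | 0 < ‖x - p‖ ∧ ‖x - p‖ < ε} ⊆ ((P : Set E3))ᶜ := by
      rintro x ⟨hx1, hx2⟩ hxP
      by_cases h : x = p
      · rw [h, sub_self, norm_zero] at hx1
        exact lt_irrefl _ hx1
      · have := e3 x hxP p hp h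
        linarith
    exact ⟨fun i j => (hg.smooth i j).mono hsub, fun x hx => hg.posDef x (hsub hx)⟩
  have hcut : ∀ p : E3, ∃ C s : ℝ, 0 < C ∧ 0 < s ∧ (p ∈ P → p ≠ q →
      ∀ (t : ℝ) (w : E3 → ℝ) (G : E3 → Cov) (ξ : E3 → ℝ),
      0 < t → 2 * t ≤ s → L1Approx {x : E3 | t / 2 ≤ ‖x - p‖ ∧ ‖x - p‖ ≤ 2 * t} w G →
      ContDiff ℝ ∞ ξ → (∀ x l, |pd l ξ x| ≤ D / t) →
      ∃ c : ℝ, ∫ x in {x : E3 | t ≤ ‖x - p‖ ∧ ‖x - p‖ ≤ 2 * t},
            |w x - c| * (len g x (grad ξ x) * volDen g x)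
          ≤ C * ∫ x in {x : E3 | t / 2 ≤ ‖x - p‖ ∧ ‖x - p‖ ≤ 2 * t},
              len g x (G x) * volDen g x) := by
    intro p
    by_cases hp : p ∈ P
    · by_cases hpq : p ≠ q
      · obtain ⟨C, s, h1, h2, h3⟩ := hCUT g p ε D hε hD.le (hmet p hp hpq) (hE p hp)
        exact ⟨C, s, h1, h2, fun _ _ => h3⟩
      · exact ⟨1, 1, one_pos, one_pos, fun _ h => absurd h hpq⟩
    · exact ⟨1, 1, one_pos, one_pos, fun h => absurd h hp⟩
  choose C s hC hs hcut' using hcut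
  obtain ⟨τ, ⟨hτε, hτs⟩, hτ⟩ : ∃ τ : ℝ, (τ < ε ∧ ∀ p ∈ P, τ < s p) ∧ 0 < τ := by
    have h1 : ∀ᶠ e in 𝓝[>] (0 : ℝ), ∀ p ∈ P, e < s p := by
      rw [Filter.eventually_all_finset]
      exact fun p _ => small (hs p)
    exact (((small hε).and h1).and self_mem_nhdsWithin).exists
  have hsum : 0 ≤ ∑ p ∈ P.erase q, C p := Finset.sum_nonneg fun p _ => (hC p).le
  refine ⟨(∑ p ∈ P.erase q, C p) + 1, by linarith, fun M hM => ?_⟩
  have hM' : (0 : ℝ) < M := by exact_mod_cast hM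
  obtain ⟨T, hTdef⟩ : ∃ T : ℕ → ℝ, T = fun j => τ / 2 * (1 / 8) ^ j := ⟨_, rfl⟩
  obtain ⟨δ, hδdef⟩ : ∃ δ : ℝ, δ = τ / 4 * (1 / 8) ^ M := ⟨_, rfl⟩
  have hT : ∀ j, 0 < T j := fun j => by rw [hTdef]; positivity
  have hδ : 0 < δ := by rw [hδdef]; positivity
  have hpow : ∀ j, ((1 : ℝ) / 8) ^ j ≤ 1 := fun j => pow_le_one₀ (by norm_num) (by norm_num)
  have hTτ : ∀ j < M, 2 * T j ≤ τ := fun j _ => by
    rw [hTdef]
    have := hpow j
    simp only
    nlinarith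
  have hTδ : ∀ j < M, δ ≤ T j / 2 := fun j hj => by
    have h1 : ((1 : ℝ) / 8) ^ M ≤ (1 / 8) ^ j :=
      pow_le_pow_of_le_one (by norm_num) (by norm_num) hj.le
    rw [hTdef, hδdef]
    simp only
    nlinarith
  have hTd : ∀ i < M, ∀ j < M, i < j → 2 * T j < T i / 2 := fun i _ j _ hij => by
    have h1 : ((1 : ℝ) / 8) ^ j ≤ (1 / 8) ^ (i + 1) :=
      pow_le_pow_of_le_one (by norm_num) (by norm_num) hij
    have h2 : (0 : ℝ) < (1 / 8) ^ i := by positivity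
    rw [pow_succ] at h1
    rw [hTdef]
    simp only
    nlinarith
  have hδε : δ ≤ ε := by
    rw [hδdef]
    have := hpow M
    nlinarith
  refine ⟨δ, hδ, ?_, ?_⟩
  · refine balls hρ hqr e1 e2 e3 (by simp [aDel]) fun p _ hpq => ?_
    have : aDel q ρ δ p = δ := by simp [aDel, hpq]
    rw [this]
    exact ⟨hδ, hδε⟩
  · intro w G s₀ s₁ hss hw hout hin A hA hL
    obtain ⟨J, hJ⟩ : ∃ J, J = ∫ x in kset P (aDel q ρ δ) r ∩ {x | s₀ ≤ w x ∧ w x ≤ s₁},
      len g x (G x) * volDen g x := ⟨_, rfl⟩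
    have hJ0 : 0 ≤ J := by
      rw [hJ]
      exact integral_nonneg fun x =>
        mul_nonneg (PERm.len_nonneg g x _) (PERm.volDen_nonneg g x)
    have hkey : ∀ η : ℝ, 0 < η → 4 * η < s₁ - s₀ →
        A * (s₁ - s₀ - 4 * η) ≤ (1 + (∑ p ∈ P.erase q, C p) / M) * J := by
      intro η hη hη4
      rw [hJ]
      exact key hPERG hLAC hqP hg hρ hqr e1 e2 e3 hτε.le hδ hC hDb
        (fun p hp hpq t w G ξ h1 h2 => hcut' p hp hpq t w G ξ h1 (h2.trans (hτs p hp).le))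
        hM hT hTτ hTδ hTd hw hout hin hA hL hη hη4
    rw [← hJ]
    have h1 : (1 + (∑ p ∈ P.erase q, C p) / M) * J ≤
        (1 + ((∑ p ∈ P.erase q, C p) + 1) / M) * J := by
      refine mul_le_mul_of_nonneg_right ?_ hJ0
      have : (∑ p ∈ P.erase q, C p) / M ≤ ((∑ p ∈ P.erase q, C p) + 1) / M :=
        div_le_div_of_nonneg_right (by linarith) hM'.le
      linarith
    refine le_trans ?_ h1
    refine le_of_forall_pos_le_add fun e he => ?_
    obtain ⟨η, ⟨h2, h3⟩, h4⟩ : ∃ η : ℝ, (η < (s₁ - s₀) / 4 ∧ η < e / (4 * (A + 1))) ∧ 0 < η :=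
      (((small (by linarith)).and (small (by positivity))).and self_mem_nhdsWithin).exists
    have h5 := hkey η h4 (by linarith)
    rw [lt_div_iff₀ (by positivity)] at h3
    have h6 : A * (s₁ - s₀) = A * (s₁ - s₀ - 4 * η) + 4 * (A * η) := by ring
    have h7 : 4 * (A * η) ≤ η * (4 * (A + 1)) := by nlinarith
    linarith

end Pool.Agent.PFT
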