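import Pool.Agent.PFT.StmtsA
import Pool.Agent.PFlow.E.PERA

set_option autoImplicit false

/-!
# PERS: perimeter of the sublevel sets of a smooth function, several ends
-/

open MeasureTheory Filter Topology
open scoped ContDiff ENNReal

namespace Pool.Agent.PFT

open Pool.Agent.PenroseSph Pool.Agent.PFlow

namespace PERSAux

open Pool.Agent.PFlow.PERAaux (abs_le_len cd_det cont_pd prim prim_deriv prim_ge prim_le prim_nonneg
  prim_anti trap trap_cont trap_prim ar ar_nonneg)

/-! ### Smoothness -/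

section Smooth

variable {P : Finset E3} {g : TensorField}

theorem nhds_P {x : E3} (hx : x ∉ P) : ((P : Set E3))ᶜ ∈ 𝓝 x :=
  P.finite_toSet.isClosed.isOpen_compl.mem_nhds (by simpa using hx)

theorem cd_g (hg : MetricOn ((P : Set E3))ᶜ g) {x : E3} (hx : x ∉ P) (i j : Fin 3) :
    ContDiffAt ℝ ∞ (fun y => g y i j) x := (hg.smooth i j).contDiffAt (nhds_P hx)

theorem cd_vol (hg : MetricOn ((P : Set E3))ᶜ g) {x : E3} (hx : x ∉ P) :
    ContDiffAt ℝ ∞ (volDen g) x :=
  (cd_det (cd_g hg hx)).sqrt (hg.posDef x (by simpa using hx)).det_pos.ne'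

theorem cd_inv (hg : MetricOn ((P : Set E3))ᶜ g) {x : E3} (hx : x ∉ P) (k l : Fin 3) :
    ContDiffAt ℝ ∞ (fun y => (g y)⁻¹ k l) x := by
  have h1 := cd_g hg hx
  have hd := cd_det h1
  have ha : ContDiffAt ℝ ∞ (fun y => (g y).adjugate k l) x := by
    simp only [Matrix.adjugate_fin_three]
    fin_cases k <;> fin_cases l <;>
      simp <;> fun_prop
  have h2 : (fun y => (g y)⁻¹ k l) = fun y => ((g y).det)⁻¹ * (g y).adjugate k l := by
    funext y
    rw [Matrix.inv_def, Ring.inverse_eq_inv', Matrix.smul_apply, smul_eq_mul]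
  rw [h2]
  exact (hd.inv (hg.posDef x (by simpa using hx)).det_pos.ne').mul ha

theorem cont_len (hg : MetricOn ((P : Set E3))ᶜ g) {W : E3 → ℝ} (hW : ContDiff ℝ ∞ W)
    {x : E3} (hx : x ∉ P) : ContinuousAt (fun y => len g y (grad W y) * volDen g y) x := by
  refine ContinuousAt.mul ?_ (cd_vol hg hx).continuousAt
  unfold len
  refine ContinuousAt.sqrt ?_
  unfold ev
  refine tendsto_finsetSum _ fun i _ => tendsto_finsetSum _ fun j _ => ?_
  exact (((cd_inv hg hx i j).continuousAt).mul (cont_pd hW i).continuousAt).mul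
    (cont_pd hW j).continuousAt

variable {X : E3 → Cov}

theorem Y_smooth (hg : MetricOn ((P : Set E3))ᶜ g) (hX : TestFieldP P g X) (i : Fin 3) :
    ContDiff ℝ ∞ (fun y => volDen g y * X y i) := by
  rw [contDiff_iff_contDiffAt]
  intro x
  by_cases hx : x ∈ tsupport X
  · have hx0 : x ∉ P := fun h => hX.avoids x h hx
    exact (cd_vol hg hx0).mul (hX.smooth i).contDiffAt
  · have h1 : X =ᶠ[𝓝 x] 0 := by
      rwa [← notMem_tsupport_iff_eventuallyEq]
    have h2 : (fun y => volDen g y * X y i) =ᶠ[𝓝 x] fun _ => 0 := by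
      filter_upwards [h1] with y hy
      rw [hy]
      simp
    exact contDiffAt_const.congr_of_eventuallyEq h2

theorem Y_supp (hX : TestFieldP P g X) (i : Fin 3) :
    HasCompactSupport (fun y => volDen g y * X y i) := by
  refine hX.compact.mono ?_
  intro x hx
  rw [Function.mem_support] at hx ⊢
  intro h
  apply hx
  rw [h]
  simp

theorem pdY_supp (hX : TestFieldP P g X) (i : Fin 3) :
    HasCompactSupport (pd i (fun y => volDen g y * X y i)) := by
  have h := (Y_supp hX i).fderiv (𝕜 := ℝ)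
  refine h.mono ?_
  intro x hx
  rw [Function.mem_support] at hx ⊢
  intro h0
  apply hx
  unfold pd
  rw [h0]
  simp

theorem D_cont (hg : MetricOn ((P : Set E3))ᶜ g) (hX : TestFieldP P g X) :
    Continuous (fun x => ∑ i, pd i (fun y => volDen g y * X y i) x) :=
  continuous_finsetSum _ fun i _ => cont_pd (Y_smooth hg hX i) i

theorem pdY_int (hg : MetricOn ((P : Set E3))ᶜ g) (hX : TestFieldP P g X) (i : Fin 3) :
    Integrable (pd i (fun y => volDen g y * X y i)) :=
  (cont_pd (Y_smooth hg hX i) i).integrable_of_hasCompactSupport (pdY_supp hX i)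

theorem D_int (hg : MetricOn ((P : Set E3))ᶜ g) (hX : TestFieldP P g X) :
    Integrable (fun x => ∑ i, pd i (fun y => volDen g y * X y i) x) :=
  integrable_finsetSum _ fun i _ => pdY_int hg hX i

theorem D_supp (hX : TestFieldP P g X) :
    HasCompactSupport (fun x => ∑ i, pd i (fun y => volDen g y * X y i) x) := by
  have h3 : (fun x => ∑ i, pd i (fun y => volDen g y * X y i) x)
      = fun x => pd 0 (fun y => volDen g y * X y 0) x
      + pd 1 (fun y => volDen g y * X y 1) x + pd 2 (fun y => volDen g y * X y 2) x := by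
    funext x
    simp only [Fin.sum_univ_three]
  rw [h3]
  exact ((pdY_supp hX 0).add (pdY_supp hX 1)).add (pdY_supp hX 2)

end Smooth

/-! ### The decomposition -/

/-- The decomposition of the space in the open set `B`, the compact set `K` and the rest. -/
structure Geo (P : Finset E3) (B K : Set E3) : Prop where
  oB : IsOpen B
  cK : IsCompact K
  disj : ∀ x ∈ B, x ∉ K
  cl : IsClosed (B ∪ K)
  noP : ∀ p ∈ P, p ∉ K
  bd : ∃ b : ℝ, ∀ x ∈ B, ‖x‖ < b

/-- The sublevel set. -/
def Us (P : Finset E3) (W : E3 → ℝ) (B K : Set E3) (s : ℝ) : Set E3 :=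
  {x | x ∉ P ∧ (x ∈ B ∨ (x ∈ K ∧ W x < s))}

section Sub

variable {P : Finset E3} {W : E3 → ℝ} {B K : Set E3}

theorem Us_mono {s t : ℝ} (h : s ≤ t) : Us P W B K s ⊆ Us P W B K t := fun _ hx =>
  ⟨hx.1, hx.2.imp id fun h' => ⟨h'.1, h'.2.trans_le h⟩⟩

theorem meas_Us (hG : Geo P B K) (hW : Continuous W) (s : ℝ) : MeasurableSet (Us P W B K s) := by
  have h1 : Us P W B K s = ((P : Set E3))ᶜ ∩ (B ∪ (K ∩ {x | W x < s})) := by
    ext x
    simp [Us]
  rw [h1]
  exact P.finite_toSet.isClosed.isOpen_compl.measurableSet.inter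
    (hG.oB.measurableSet.union (hG.cK.measurableSet.inter (isOpen_lt hW continuous_const).measurableSet))

theorem open_Us (hG : Geo P B K) (hW : Continuous W) {s : ℝ}
    (h1 : ∀ x ∈ K, x ∈ closure (B ∪ K)ᶜ → s < W x) : IsOpen (Us P W B K s) := by
  rw [isOpen_iff_mem_nhds]
  intro x hx
  rcases hx.2 with h | h
  · filter_upwards [nhds_P hx.1, hG.oB.mem_nhds h] with y hy1 hy2
    exact ⟨by simpa using hy1, Or.inl hy2⟩
  · have hcO : x ∉ closure (B ∪ K)ᶜ := fun h' => absurd (h1 x h.1 h') (not_lt.2 h.2.le)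
    filter_upwards [nhds_P hx.1, isClosed_closure.isOpen_compl.mem_nhds hcO,
      (isOpen_lt hW continuous_const).mem_nhds h.2] with y hy1 hy2 hy3
    have hy4 : y ∈ B ∪ K := by
      by_contra h'
      exact hy2 (subset_closure h')
    exact ⟨by simpa using hy1, hy4.imp id fun h' => ⟨h', hy3⟩⟩

theorem region (hG : Geo P B K) (hW : ContDiff ℝ ∞ W) {s : ℝ}
    (h0 : ∀ x ∈ K, x ∈ closure B → W x < s)
    (h1 : ∀ x ∈ K, x ∈ closure (B ∪ K)ᶜ → s < W x)
    (hreg : ∀ x ∈ K, W x = s → fderiv ℝ W x ≠ 0) : RegionP P (Us P W B K s) where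
  isOpen := open_Us hG hW.continuous h1
  points := by
    intro p hp
    refine ⟨fun h => h.1 hp, ?_⟩
    have hF : IsClosed (((P.erase p : Finset E3) : Set E3)) := (P.erase p).finite_toSet.isClosed
    by_cases hpB : p ∈ B
    · have hU : (B ∩ (((P.erase p : Finset E3) : Set E3))ᶜ) ∈ 𝓝 p :=
        (hG.oB.inter hF.isOpen_compl).mem_nhds ⟨hpB, by simp⟩
      obtain ⟨ε, hε, hb⟩ := Metric.mem_nhds_iff.1 hU
      refine ⟨ε, hε, Or.inl fun x hx hx' => ?_⟩
      have h2 := hb (show x ∈ Metric.ball p ε by rwa [Metric.mem_ball, dist_eq_norm])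
      refine ⟨fun h => ?_, Or.inl h2.1⟩
      refine h2.2 ?_
      have hne : x ≠ p := by
        rintro rfl
        simp at hx
      simp [h, hne]
    · have hpO : p ∈ (B ∪ K)ᶜ := fun h => h.elim hpB (hG.noP p hp)
      obtain ⟨ε, hε, hb⟩ := Metric.mem_nhds_iff.1 (hG.cl.isOpen_compl.mem_nhds hpO)
      refine ⟨ε, hε, Or.inr fun x hx h => ?_⟩
      have h2 := hb (show x ∈ Metric.ball p ε by rwa [Metric.mem_ball, dist_eq_norm])
      exact h2 (h.2.imp id fun h' => h'.1)
  bounded := by
    obtain ⟨b, hb⟩ := hG.bd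
    obtain ⟨c, hc⟩ := hG.cK.isBounded.exists_norm_le
    refine ⟨max b (c + 1), fun x hx => ?_⟩
    rcases hx.2 with h | h
    · exact (hb x h).trans_le (le_max_left _ _)
    · exact lt_of_lt_of_le (by linarith [hc x h.1]) (le_max_right b (c + 1))
  smooth := by
    intro x hx hxP
    have hcl : x ∈ closure (Us P W B K s) := frontier_subset_closure hx
    have hnU : x ∉ Us P W B K s := by
      intro h
      rw [frontier, (open_Us hG hW.continuous h1).interior_eq] at hx
      exact hx.2 h
    have hxBK : x ∈ B ∪ K := by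
      refine closure_minimal ?_ hG.cl hcl
      intro y hy
      exact hy.2.imp id fun h => h.1
    have hxB : x ∉ B := fun h => hnU ⟨hxP, Or.inl h⟩
    have hxK : x ∈ K := hxBK.resolve_left hxB
    have hWge : s ≤ W x := by
      by_contra h
      exact hnU ⟨hxP, Or.inr ⟨hxK, not_le.1 h⟩⟩
    have hcB : x ∉ closure B := fun h => absurd (h0 x hxK h) (not_lt.2 hWge)
    have hWle : W x ≤ s := by
      by_contra h
      rw [not_le] at h
      have hU : (closure B)ᶜ ∩ {y | s < W y} ∈ 𝓝 x :=
        (isClosed_closure.isOpen_compl.inter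
          (isOpen_lt continuous_const hW.continuous)).mem_nhds ⟨hcB, h⟩
      obtain ⟨y, hy1, hy2⟩ := mem_closure_iff_nhds.1 hcl _ hU
      rcases hy2.2 with h' | h'
      · exact hy1.1 (subset_closure h')
      · exact absurd h'.2 (not_lt.2 (le_of_lt hy1.2))
    have hWs : W x = s := le_antisymm hWle hWge
    have hcO : x ∉ closure (B ∪ K)ᶜ := fun h => absurd (h1 x hxK h) (not_lt.2 hWle)
    refine ⟨fun y => W y - s, (hW.sub contDiff_const).contDiffAt, ?_, ?_⟩
    · rw [fderiv_sub_const]
      exact hreg x hxK hWs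
    · filter_upwards [nhds_P hxP, isClosed_closure.isOpen_compl.mem_nhds hcB,
        isClosed_closure.isOpen_compl.mem_nhds hcO] with y hy1 hy2 hy3
      have hyB : y ∉ B := fun h => hy2 (subset_closure h)
      have hyK : y ∈ K := by
        by_contra h
        exact hy3 (subset_closure fun h' => h'.elim hyB h)
      constructor
      · intro hy
        rcases hy.2 with h | h
        · exact absurd h hyB
        · linarith [h.2]
      · intro hy
        refine ⟨by simpa using hy1, Or.inr ⟨hyK, ?_⟩⟩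
        linarith

theorem contains (hG : Geo P B K) {p : E3} (hp : p ∈ B) (s : ℝ) :
    ContainsEnd p (Us P W B K s) := by
  have hF : IsClosed (((P.erase p : Finset E3) : Set E3)) := (P.erase p).finite_toSet.isClosed
  have hU : (B ∩ (((P.erase p : Finset E3) : Set E3))ᶜ) ∈ 𝓝 p :=
    (hG.oB.inter hF.isOpen_compl).mem_nhds ⟨hp, by simp⟩
  obtain ⟨ε, hε, hb⟩ := Metric.mem_nhds_iff.1 hU
  refine ⟨ε, hε, fun x hx hx' => ?_⟩
  have h2 := hb (show x ∈ Metric.ball p ε by rwa [Metric.mem_ball, dist_eq_norm])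
  refine ⟨fun h => ?_, Or.inl h2.1⟩
  refine h2.2 ?_
  have hne : x ≠ p := by
    rintro rfl
    simp at hx
  simp [h, hne]

end Sub

/-! ### The cut-off -/

open Classical in
/-- The cut-off function on `E3`. -/
noncomputable def zt (W : E3 → ℝ) (φ : ℝ → ℝ) (B K : Set E3) (a b : ℝ) (x : E3) : ℝ :=
  if x ∈ B then prim φ b a else if x ∈ K then prim φ b (W x) else 0

section Cut

variable {P : Finset E3} {W : E3 → ℝ} {B K : Set E3} {φ : ℝ → ℝ} {a b : ℝ}

open Classical in
theorem zt_deriv (hG : Geo P B K) (hW : ContDiff ℝ ∞ W) (hφ : Continuous φ)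
    (hza : ∀ t, t ≤ a → φ t = 0) (hzb : ∀ t, b ≤ t → φ t = 0) (hab : a ≤ b)
    (h0 : ∀ x ∈ K, x ∈ closure B → W x < a)
    (h1 : ∀ x ∈ K, x ∈ closure (B ∪ K)ᶜ → b < W x) (x : E3) :
    HasFDerivAt (zt W φ B K a b)
      (if x ∈ K then (-φ (W x)) • fderiv ℝ W x else 0) x := by
  have hWd : HasFDerivAt W (fderiv ℝ W x) x :=
    (hW.differentiable (by simp)).differentiableAt.hasFDerivAt
  have hcomp : HasFDerivAt (fun y => prim φ b (W y)) ((-φ (W x)) • fderiv ℝ W x) x :=
    (prim_deriv hφ (W x)).comp_hasFDerivAt x hWd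
  have e : (-(0:ℝ)) • fderiv ℝ W x = 0 := by simp
  by_cases hxB : x ∈ B
  · rw [if_neg (hG.disj x hxB)]
    refine (hasFDerivAt_const (prim φ b a) x).congr_of_eventuallyEq ?_
    filter_upwards [hG.oB.mem_nhds hxB] with y hy
    unfold zt
    rw [if_pos hy]
  by_cases hxK : x ∈ K
  · rw [if_pos hxK]
    by_cases hcB : x ∈ closure B
    · have hWa := h0 x hxK hcB
      have hcO : x ∉ closure (B ∪ K)ᶜ := fun h => by linarith [h1 x hxK h]
      rw [hza _ hWa.le, e]
      refine (hasFDerivAt_const (prim φ b a) x).congr_of_eventuallyEq ?_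
      filter_upwards [(isOpen_lt hW.continuous continuous_const).mem_nhds hWa,
        isClosed_closure.isOpen_compl.mem_nhds hcO] with y hy1 hy2
      have hy1' : W y < a := hy1
      have hy2' : y ∈ B ∪ K := by
        by_contra h
        exact hy2 (subset_closure h)
      unfold zt
      split_ifs with c1 c2
      · rfl
      · exact prim_le hφ hza hy1'.le
      · exact absurd hy2' (fun h => h.elim c1 c2)
    by_cases hcO : x ∈ closure (B ∪ K)ᶜ
    · have hWb := h1 x hxK hcO
      rw [hzb _ hWb.le, e]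
      refine (hasFDerivAt_const (0:ℝ) x).congr_of_eventuallyEq ?_
      filter_upwards [(isOpen_lt continuous_const hW.continuous).mem_nhds hWb,
        isClosed_closure.isOpen_compl.mem_nhds hcB] with y hy1 hy2
      have hy1' : b < W y := hy1
      have hy2' : y ∉ B := fun h => hy2 (subset_closure h)
      unfold zt
      rw [if_neg hy2']
      split_ifs
      · exact prim_ge hzb hy1'.le
      · rfl
    · refine hcomp.congr_of_eventuallyEq ?_
      filter_upwards [isClosed_closure.isOpen_compl.mem_nhds hcB,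
        isClosed_closure.isOpen_compl.mem_nhds hcO] with y hy1 hy2
      have hy1' : y ∉ B := fun h => hy1 (subset_closure h)
      have hy2' : y ∈ K := by
        by_contra h
        exact hy2 (subset_closure (fun h' => h'.elim hy1' h))
      unfold zt
      rw [if_neg hy1', if_pos hy2']
  · rw [if_neg hxK]
    refine (hasFDerivAt_const (0:ℝ) x).congr_of_eventuallyEq ?_
    filter_upwards [hG.cl.isOpen_compl.mem_nhds
      (show x ∈ (B ∪ K)ᶜ from fun h => h.elim hxB hxK)] with y hy
    have hy1 : y ∉ B := fun h => hy (Or.inl h)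
    have hy2 : y ∉ K := fun h => hy (Or.inr h)
    unfold zt
    rw [if_neg hy1, if_neg hy2]

theorem ar_int {g : TensorField} (hg : MetricOn ((P : Set E3))ᶜ g) (hG : Geo P B K)
    (hW : ContDiff ℝ ∞ W) : IntegrableOn (ar g W) K := by
  refine ContinuousOn.integrableOn_compact hG.cK (fun x hx => ?_)
  exact (cont_len hg hW (fun h => hG.noP x h hx)).continuousWithinAt

/-- The main estimate: the flux of the test field. -/
theorem flux_le {g : TensorField} (hg : MetricOn ((P : Set E3))ᶜ g) (hG : Geo P B K)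
    (hW : ContDiff ℝ ∞ W) {X : E3 → Cov} (hX : TestFieldP P g X)
    (hφ : Continuous φ) (hφ0 : ∀ t, 0 ≤ φ t) (hφ1 : ∀ t, φ t ≤ 1)
    (hza : ∀ t, t ≤ a → φ t = 0) (hzb : ∀ t, b ≤ t → φ t = 0) (hab : a ≤ b)
    (h0 : ∀ x ∈ K, x ∈ closure B → W x < a)
    (h1 : ∀ x ∈ K, x ∈ closure (B ∪ K)ᶜ → b < W x) :
    ∫ x, zt W φ B K a b x * ∑ i, pd i (fun y => volDen g y * X y i) x
      ≤ ∫ x in K ∩ {x | a ≤ W x ∧ W x < b}, ar g W x := by
  classical
  have hAm : MeasurableSet K := hG.cK.measurableSet
  have hzd := fun x => zt_deriv hG hW hφ hza hzb hab h0 h1 x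
  have hzdiff : ∀ x, DifferentiableAt ℝ (zt W φ B K a b) x := fun x => (hzd x).differentiableAt
  have hzc : Continuous (zt W φ B K a b) := by
    rw [continuous_iff_continuousAt]
    exact fun x => (hzdiff x).continuousAt
  have hpd : ∀ i x, fderiv ℝ (zt W φ B K a b) x (EuclideanSpace.single i 1)
      = K.indicator (fun x => -(φ (W x) * pd i W x)) x := by
    intro i x
    rw [(hzd x).fderiv]
    by_cases hx : x ∈ K
    · rw [if_pos hx, Set.indicator_of_mem hx]
      simp [pd]
    · rw [if_neg hx, Set.indicator_of_notMem hx]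
      simp
  have hYc : ∀ i, Continuous (fun y => volDen g y * X y i) := fun i => (Y_smooth hg hX i).continuous
  -- integration by parts
  have hibp : ∀ i, ∫ x, zt W φ B K a b x * pd i (fun y => volDen g y * X y i) x
      = ∫ x in K, φ (W x) * pd i W x * (volDen g x * X x i) := by
    intro i
    have i1 : Integrable (fun x => fderiv ℝ (zt W φ B K a b) x (EuclideanSpace.single i 1)
        * (volDen g x * X x i)) := by
      have h2 : (fun x => fderiv ℝ (zt W φ B K a b) x (EuclideanSpace.single i 1)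
          * (volDen g x * X x i)) = K.indicator
            (fun x => -(φ (W x) * pd i W x) * (volDen g x * X x i)) := by
        funext x
        rw [hpd i x]
        by_cases hx : x ∈ K
        · rw [Set.indicator_of_mem hx, Set.indicator_of_mem hx]
        · rw [Set.indicator_of_notMem hx, Set.indicator_of_notMem hx, zero_mul]
      rw [h2]
      refine Integrable.indicator ?_ hAm
      refine Continuous.integrable_of_hasCompactSupport ?_ (Y_supp hX i).mul_left
      exact (((hφ.comp hW.continuous).mul (cont_pd hW i)).neg).mul (hYc i)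
    have i2 : Integrable (fun x => zt W φ B K a b x
        * fderiv ℝ (fun y => volDen g y * X y i) x (EuclideanSpace.single i 1)) := by
      refine Continuous.integrable_of_hasCompactSupport ?_ ?_
      · exact hzc.mul (cont_pd (Y_smooth hg hX i) i)
      · exact HasCompactSupport.mul_left (pdY_supp hX i)
    have i3 : Integrable (fun x => zt W φ B K a b x * (volDen g x * X x i)) :=
      Continuous.integrable_of_hasCompactSupport (hzc.mul (hYc i)) (Y_supp hX i).mul_left
    have h3 := integral_mul_fderiv_eq_neg_fderiv_mul_of_integrable i1 i2 i3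
      (fun x _ => hzdiff x)
      (fun x _ => ((Y_smooth hg hX i).differentiable (by simp)).differentiableAt)
    have h4 : ∫ x, zt W φ B K a b x * pd i (fun y => volDen g y * X y i) x
        = -∫ x, fderiv ℝ (zt W φ B K a b) x (EuclideanSpace.single i 1)
        * (volDen g x * X x i) := h3
    rw [h4, ← integral_neg, ← integral_indicator hAm]
    refine integral_congr_ae (Eventually.of_forall fun x => ?_)
    simp only
    rw [hpd i x]
    by_cases hx : x ∈ K
    · rw [Set.indicator_of_mem hx, Set.indicator_of_mem hx]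
      ring
    · rw [Set.indicator_of_notMem hx, Set.indicator_of_notMem hx]
      ring
  have hint : ∀ i, Integrable (fun x => zt W φ B K a b x
      * pd i (fun y => volDen g y * X y i) x) := fun i =>
    Continuous.integrable_of_hasCompactSupport (hzc.mul (cont_pd (Y_smooth hg hX i) i))
      (HasCompactSupport.mul_left (pdY_supp hX i))
  have hint2 : ∀ i, IntegrableOn (fun x => φ (W x) * pd i W x * (volDen g x * X x i)) K := by
    intro i
    exact (((hφ.comp hW.continuous).mul (cont_pd hW i)).mul (hYc i)).continuousOn.integrableOn_compact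
      hG.cK
  have hsum : ∫ x, zt W φ B K a b x * ∑ i, pd i (fun y => volDen g y * X y i) x
      = ∫ x in K, ∑ i, φ (W x) * pd i W x * (volDen g x * X x i) := by
    rw [integral_finsetSum _ (fun i _ => hint2 i)]
    rw [← Finset.sum_congr rfl (fun i _ => hibp i), ← integral_finsetSum _ (fun i _ => hint i)]
    refine integral_congr_ae (Eventually.of_forall fun x => ?_)
    simp only
    rw [Finset.mul_sum]
  rw [hsum]
  have hBm : MeasurableSet {x | a ≤ W x ∧ W x < b} :=
    (measurableSet_le measurable_const hW.continuous.measurable).inter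
      (measurableSet_lt hW.continuous.measurable measurable_const)
  have e2 : ∫ x in K ∩ {x | a ≤ W x ∧ W x < b}, ar g W x
      = ∫ x in K, {x | a ≤ W x ∧ W x < b}.indicator (ar g W) x := by
    rw [setIntegral_indicator hBm]
  rw [e2]
  refine setIntegral_mono_on (integrable_finsetSum _ fun i _ => hint2 i)
    ((ar_int hg hG hW).indicator hBm) hAm fun x hx => ?_
  have hx0 : x ∉ P := fun h => hG.noP x h hx
  have e3 : ∑ i, φ (W x) * pd i W x * (volDen g x * X x i)
      = φ (W x) * volDen g x * ∑ i, grad W x i * X x i := by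
    rw [Finset.mul_sum]
    refine Finset.sum_congr rfl fun i _ => ?_
    unfold grad
    ring
  rw [e3]
  have hv : 0 ≤ volDen g x := Real.sqrt_nonneg _
  by_cases hab' : a ≤ W x ∧ W x < b
  · rw [Set.indicator_of_mem (show x ∈ {x | a ≤ W x ∧ W x < b} from hab')]
    have h5 : ∑ i, grad W x i * X x i ≤ len g x (grad W x) :=
      (le_abs_self _).trans (abs_le_len (hg.posDef x (by simpa using hx0)) _ _ (hX.short x hx0))
    have h6 : 0 ≤ len g x (grad W x) := Real.sqrt_nonneg _
    calc φ (W x) * volDen g x * ∑ i, grad W x i * X x i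
        ≤ φ (W x) * volDen g x * len g x (grad W x) :=
          mul_le_mul_of_nonneg_left h5 (mul_nonneg (hφ0 _) hv)
      _ ≤ 1 * volDen g x * len g x (grad W x) := by
          refine mul_le_mul_of_nonneg_right (mul_le_mul_of_nonneg_right (hφ1 _) hv) h6
      _ = ar g W x := by unfold ar; ring
  · rw [Set.indicator_of_notMem (show x ∉ {x | a ≤ W x ∧ W x < b} from hab')]
    have h7 : φ (W x) = 0 := by
      rcases lt_or_ge (W x) a with h | h
      · exact hza _ h.le
      · exact hzb _ (not_lt.1 fun h' => hab' ⟨h, h'⟩)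
    rw [h7]
    simp

end Cut

/-- The area of the part `a ≤ W < b`. -/
noncomputable def jj (g : TensorField) (W : E3 → ℝ) (K : Set E3) (a b : ℝ) : ℝ :=
  ∫ x in K ∩ {x | a ≤ W x ∧ W x < b}, ar g W x

theorem jj_nonneg (g : TensorField) (W : E3 → ℝ) (K : Set E3) (a b : ℝ) : 0 ≤ jj g W K a b :=
  integral_nonneg fun x => ar_nonneg g W x

section Loc

variable {P : Finset E3} {W : E3 → ℝ} {B K : Set E3}

/-- The local estimate. -/
theorem local_left {g : TensorField} (hg : MetricOn ((P : Set E3))ᶜ g) (hG : Geo P B K)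
    (hW : ContDiff ℝ ∞ W) {X : E3 → Cov} (hX : TestFieldP P g X) {t₀ s A' : ℝ}
    (h0 : ∀ x ∈ K, x ∈ closure B → W x < t₀)
    (h1 : ∀ x ∈ K, x ∈ closure (B ∪ K)ᶜ → s < W x) (hs0 : t₀ < s) (hA0 : 0 ≤ A')
    (hA : A' < ∫ x in Us P W B K s, ∑ i, pd i (fun y => volDen g y * X y i) x) :
    ∃ t, t₀ ≤ t ∧ t < s ∧ A' * (s - t) ≤ jj g W K t s := by
  have hDc := D_cont hg hX
  have hDi := D_int hg hX
  have hDcs := D_supp hX
  set D : E3 → ℝ := fun x => ∑ i, pd i (fun y => volDen g y * X y i) x with hD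
  have hUm : ∀ t, MeasurableSet (Us P W B K t) := fun t => meas_Us hG hW.continuous t
  -- the sets shrink to the empty set
  set T : ℕ → Set E3 := fun n => Us P W B K s \ Us P W B K (s - 1 / ((n : ℝ) + 1)) with hT
  have hTm : ∀ n, MeasurableSet (T n) := fun n => (hUm _).diff (hUm _)
  have hTa : Antitone T := by
    intro m n hmn
    refine Set.sdiff_subset_sdiff_right (Us_mono ?_)
    have h2 : 1 / ((n : ℝ) + 1) ≤ 1 / ((m : ℝ) + 1) :=
      one_div_le_one_div_of_le (by positivity) (by exact_mod_cast Nat.succ_le_succ hmn)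
    linarith
  have hTi : ⋂ n, T n = ∅ := by
    rw [Set.eq_empty_iff_forall_notMem]
    intro x hx
    rw [Set.mem_iInter] at hx
    have hx0 := hx 0
    rcases hx0.1.2 with h | h
    · exact hx0.2 ⟨hx0.1.1, Or.inl h⟩
    · obtain ⟨n, hn⟩ := exists_nat_one_div_lt (sub_pos.2 h.2)
      refine (hx n).2 ⟨hx0.1.1, Or.inr ⟨h.1, ?_⟩⟩
      linarith
  have hlim := tendsto_setIntegral_of_antitone (μ := volume) hTm hTa
    ⟨0, (hDi.norm.integrableOn (s := T 0))⟩
  rw [hTi, Measure.restrict_empty, integral_zero_measure] at hlim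
  have hgap : 0 < (∫ x in Us P W B K s, D x) - A' := sub_pos.2 hA
  obtain ⟨n, hn⟩ := (hlim.eventually (gt_mem_nhds hgap)).exists
  have hnp : (0 : ℝ) < 1 / ((n : ℝ) + 1) := by positivity
  refine ⟨max t₀ (s - 1 / ((n : ℝ) + 1)), le_max_left _ _, max_lt hs0 (by linarith), ?_⟩
  obtain ⟨a, ha⟩ : ∃ a, a = max t₀ (s - 1 / ((n : ℝ) + 1)) := ⟨_, rfl⟩
  rw [← ha]
  have has : a < s := by rw [ha]; exact max_lt hs0 (by linarith)
  have ha0 : t₀ ≤ a := by rw [ha]; exact le_max_left _ _
  have han : s - 1 / ((n : ℝ) + 1) ≤ a := by rw [ha]; exact le_max_right _ _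
  have h0a : ∀ x ∈ K, x ∈ closure B → W x < a := fun x hx hx' => (h0 x hx hx').trans_le ha0
  refine le_of_forall_pos_le_add fun ε hε => ?_
  set κ : ℝ := min ((s - a) / 4) (ε / (2 * (A' + 1))) with hκ
  have hκ0 : 0 < κ := lt_min (by linarith) (by positivity)
  have hκ1 : κ ≤ (s - a) / 4 := min_le_left _ _
  have hκ2 : κ ≤ ε / (2 * (A' + 1)) := min_le_right _ _
  have hφ0 : ∀ t, 0 ≤ trap a s κ t := fun t => le_max_left _ _
  have hφ1 : ∀ t, trap a s κ t ≤ 1 := fun t => max_le zero_le_one (min_le_left _ _)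
  have hza : ∀ t, t ≤ a → trap a s κ t = 0 := by
    intro t ht
    unfold trap
    refine max_eq_left ((min_le_right _ _).trans ((min_le_left _ _).trans ?_))
    exact div_nonpos_of_nonpos_of_nonneg (by linarith) hκ0.le
  have hzb : ∀ t, s ≤ t → trap a s κ t = 0 := by
    intro t ht
    unfold trap
    refine max_eq_left ((min_le_right _ _).trans ((min_le_right _ _).trans ?_))
    exact div_nonpos_of_nonpos_of_nonneg (by linarith) hκ0.le
  have hc := trap_cont a s κ
  have hfl := flux_le hg hG hW hX hc hφ0 hφ1 hza hzb has.le h0a h1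
  set I : ℝ := prim (trap a s κ) s a with hI
  have hI0 : 0 ≤ I := prim_nonneg hφ0 hzb a
  have hI1 : s - a - 2 * κ ≤ I := trap_prim hκ0 (by linarith)
  -- lower bound of the integral
  have hlow : I * A' ≤ ∫ x, zt W (trap a s κ) B K a s x * D x := by
    have b1 : I * A' ≤ I * ((∫ x in Us P W B K s, D x) - ∫ x in T n, ‖D x‖) := by
      refine mul_le_mul_of_nonneg_left ?_ hI0
      linarith
    have b2 : I * ((∫ x in Us P W B K s, D x) - ∫ x in T n, ‖D x‖)
        = ∫ x, (I * (Us P W B K s).indicator D x - I * (T n).indicator (fun x => ‖D x‖) x) := by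
      rw [integral_sub ((hDi.indicator (hUm s)).const_mul I)
        ((hDi.norm.indicator (hTm n)).const_mul I), integral_const_mul, integral_const_mul,
        integral_indicator (hUm s), integral_indicator (hTm n)]
      ring
    rw [b2] at b1
    refine b1.trans ?_
    have hzd := fun x => zt_deriv hG hW hc hza hzb has.le h0a h1 x
    have hzc : Continuous (zt W (trap a s κ) B K a s) := by
      classical
      rw [continuous_iff_continuousAt]
      exact fun x => (hzd x).differentiableAt.continuousAt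
    refine integral_mono_ae (((hDi.indicator (hUm s)).const_mul I).sub
      ((hDi.norm.indicator (hTm n)).const_mul I))
      ((hzc.mul hDc).integrable_of_hasCompactSupport hDcs.mul_left) ?_
    have hne : ∀ᵐ x : E3 ∂volume, x ∉ P := by
      have := P.finite_toSet.measure_zero (volume : Measure E3)
      rw [ae_iff]
      simpa using this
    filter_upwards [hne] with x hx
    have hzz : 0 ≤ zt W (trap a s κ) B K a s x ∧ zt W (trap a s κ) B K a s x ≤ I := by
      unfold zt
      split_ifs with c1 c2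
      · exact ⟨hI0, le_rfl⟩
      · refine ⟨prim_nonneg hφ0 hzb _, ?_⟩
        rcases le_total (W x) a with h | h
        · rw [prim_le hc hza h]
        · exact prim_anti hc hφ0 h
      · exact ⟨le_rfl, hI0⟩
    by_cases hxs : x ∈ Us P W B K s
    · rw [Set.indicator_of_mem hxs]
      by_cases hxa : x ∈ Us P W B K a
      · have e : zt W (trap a s κ) B K a s x = I := by
          unfold zt
          rcases hxa.2 with h | h
          · rw [if_pos h]
          · split_ifs with c1 c2
            · rfl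
            · exact prim_le hc hza h.2.le
            · exact absurd h.1 c2
        rw [e]
        have h2 : 0 ≤ I * (T n).indicator (fun x => ‖D x‖) x :=
          mul_nonneg hI0 (Set.indicator_nonneg (fun _ _ => norm_nonneg _) _)
        linarith
      · have hxT : x ∈ T n := ⟨hxs, fun h => hxa (Us_mono han h)⟩
        rw [Set.indicator_of_mem hxT]
        have h2 : -|D x| ≤ D x := neg_abs_le _
        have h3 : D x ≤ |D x| := le_abs_self _
        have h4 : I * D x - I * ‖D x‖ ≤ zt W (trap a s κ) B K a s x * D x := by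
          rw [Real.norm_eq_abs]
          rcases le_total 0 (D x) with h | h
          · rw [abs_of_nonneg h]
            have := mul_nonneg hzz.1 h
            linarith
          · rw [abs_of_nonpos h]
            nlinarith [mul_le_mul_of_nonpos_right hzz.2 h, mul_nonneg hI0 (neg_nonneg.2 h)]
        exact h4
    · rw [Set.indicator_of_notMem hxs]
      have hxT : x ∉ T n := fun h => hxs h.1
      rw [Set.indicator_of_notMem hxT]
      have e : zt W (trap a s κ) B K a s x = 0 := by
        unfold zt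
        split_ifs with c1 c2
        · exact absurd ⟨hx, Or.inl c1⟩ hxs
        · refine prim_ge hzb ?_
          by_contra h
          exact hxs ⟨hx, Or.inr ⟨c2, not_le.1 h⟩⟩
        · rfl
      rw [e]
      simp
  have hJ : I * A' ≤ jj g W K a s := hlow.trans hfl
  have hA1 : (s - a - 2 * κ) * A' ≤ I * A' := mul_le_mul_of_nonneg_right hI1 hA0
  have hA2 : 2 * κ * A' ≤ ε := by
    have h2 : 2 * κ * A' ≤ 2 * (ε / (2 * (A' + 1))) * A' := by
      refine mul_le_mul_of_nonneg_right ?_ hA0
      linarith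
    have h3 : 2 * (ε / (2 * (A' + 1))) * A' = ε * (A' / (A' + 1)) := by
      field_simp
    have h4 : A' / (A' + 1) ≤ 1 := by
      rw [div_le_one (by linarith)]
      linarith
    have h5 : ε * (A' / (A' + 1)) ≤ ε * 1 := mul_le_mul_of_nonneg_left h4 hε.le
    linarith
  nlinarith

theorem jj_add {g : TensorField} (hg : MetricOn ((P : Set E3))ᶜ g) (hG : Geo P B K)
    (hW : ContDiff ℝ ∞ W) {a b c : ℝ} (hab : a ≤ b) (hbc : b ≤ c) :
    jj g W K a c = jj g W K a b + jj g W K b c := by
  have hAm : MeasurableSet K := hG.cK.measurableSet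
  have hBm : ∀ a b : ℝ, MeasurableSet {x | a ≤ W x ∧ W x < b} := fun a b =>
    (measurableSet_le measurable_const hW.continuous.measurable).inter
      (measurableSet_lt hW.continuous.measurable measurable_const)
  unfold jj
  have h1 : K ∩ {x | a ≤ W x ∧ W x < c}
      = (K ∩ {x | a ≤ W x ∧ W x < b}) ∪ (K ∩ {x | b ≤ W x ∧ W x < c}) := by
    ext x
    constructor
    · rintro ⟨h2, h3, h4⟩
      rcases lt_or_ge (W x) b with h | h
      · exact Or.inl ⟨h2, h3, h⟩
      · exact Or.inr ⟨h2, h, h4⟩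
    · rintro (⟨h2, h3, h4⟩ | ⟨h2, h3, h4⟩)
      · exact ⟨h2, h3, h4.trans_le hbc⟩
      · exact ⟨h2, hab.trans h3, h4⟩
  rw [h1]
  refine setIntegral_union ?_ (hAm.inter (hBm b c)) ((ar_int hg hG hW).mono_set
    Set.inter_subset_left) ((ar_int hg hG hW).mono_set Set.inter_subset_left)
  rw [Set.disjoint_left]
  intro x hx hx'
  exact absurd hx'.2.1 (not_le.2 hx.2.2)

end Loc

/-- The length of the part of `(σ - d, σ + d)` on the right of `t`. -/
noncomputable def ell (d σ t : ℝ) : ℝ := min (2 * d) (max 0 (σ + d - t))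

theorem ell_nonneg {d : ℝ} (hd : 0 < d) (σ t : ℝ) : 0 ≤ ell d σ t :=
  le_min (by linarith) (le_max_left _ _)

theorem ell_le (d σ t : ℝ) : ell d σ t ≤ 2 * d := min_le_left _ _

theorem ell_anti (d σ : ℝ) {t t' : ℝ} (h : t ≤ t') : ell d σ t' ≤ ell d σ t :=
  min_le_min le_rfl (max_le_max le_rfl (by linarith))

theorem ell_step {d σ t t' : ℝ} (h : t ≤ t') (h1 : σ - d ≤ t) (h2 : t' ≤ σ + d) :
    ell d σ t' + (t' - t) ≤ ell d σ t := by
  unfold ell
  rw [max_eq_right (by linarith), max_eq_right (by linarith), min_eq_right (by linarith),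
    min_eq_right (by linarith)]
  linarith

/-- The chain argument. -/
theorem chain {J : ℝ → ℝ → ℝ} {s₀ s₁ A' d : ℝ} (hs : s₀ ≤ s₁) (hA0 : 0 ≤ A') (hd : 0 < d)
    (hJ0 : ∀ a b, 0 ≤ J a b) (hJ : ∀ a b c, a ≤ b → b ≤ c → J a c = J a b + J b c)
    {C : Set ℝ} (hC : C.Finite) (P : Finset E3) (σ : E3 → ℝ)
    (hloc : ∀ s, s₀ < s → s ≤ s₁ → s ∉ C → (∀ p ∈ P, d ≤ |s - σ p|) →
      ∃ t, s₀ ≤ t ∧ t < s ∧ A' * (s - t) ≤ J t s) :
    A' * (s₁ - s₀ - 2 * d * P.card) ≤ J s₀ s₁ := by
  classical
  set F : Finset ℝ := hC.toFinset with hF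
  set N : ℝ → ℝ := fun t => ((F.filter fun c => t < c).card : ℝ) with hN
  set L : ℝ → ℝ := fun t => ∑ p ∈ P, ell d (σ p) t with hL
  have hLanti : ∀ t t', t ≤ t' → L t' ≤ L t := fun t t' h =>
    Finset.sum_le_sum fun p _ => ell_anti d (σ p) h
  have hL0 : ∀ t, 0 ≤ L t := fun t => Finset.sum_nonneg fun p _ => ell_nonneg hd (σ p) t
  have hLle : ∀ t, L t ≤ 2 * d * P.card := by
    intro t
    have h1 : L t ≤ ∑ _p ∈ P, 2 * d := Finset.sum_le_sum fun p _ => ell_le d (σ p) t
    rw [Finset.sum_const, nsmul_eq_mul] at h1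
    linarith
  have hLstep : ∀ t t', t ≤ t' → ∀ p ∈ P, σ p - d ≤ t → t' ≤ σ p + d → L t' + (t' - t) ≤ L t := by
    intro t t' htt p hp h1 h2
    have e1 := Finset.sum_erase_add P (fun p => ell d (σ p) t) hp
    have e2 := Finset.sum_erase_add P (fun p => ell d (σ p) t') hp
    have e3 : ∑ q ∈ P.erase p, ell d (σ q) t' ≤ ∑ q ∈ P.erase p, ell d (σ q) t :=
      Finset.sum_le_sum fun q _ => ell_anti d (σ q) htt
    have e4 := ell_step htt h1 h2
    simp only [hL]
    linarith
  have hNanti : ∀ t t', t ≤ t' → N t' ≤ N t := by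
    intro t t' htt
    rw [hN]
    simp only
    exact_mod_cast Finset.card_le_card
      (Finset.monotone_filter_right F fun c _ hc => htt.trans_lt hc)
  have hNstep : ∀ t T, t < T → T ∈ C → N T + 1 ≤ N t := by
    intro t T htT hTC
    rw [hN]
    simp only
    have h1 : (F.filter fun c => T < c) ⊂ (F.filter fun c => t < c) := by
      rw [Finset.ssubset_iff_of_subset
        (Finset.monotone_filter_right F fun c _ hc => htT.trans hc)]
      refine ⟨T, Finset.mem_filter.2 ⟨hC.mem_toFinset.2 hTC, htT⟩, ?_⟩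
      rw [Finset.mem_filter]
      exact fun h => lt_irrefl _ h.2
    have h2 := Finset.card_lt_card h1
    exact_mod_cast h2
  have hN0 : ∀ t, 0 ≤ N t := fun t => Nat.cast_nonneg _
  have key : ∀ ε : ℝ, 0 < ε → A' * (s₁ - s₀) ≤ J s₀ s₁ + ε * N s₀ + A' * L s₀ := by
    intro ε hε
    set S : Set ℝ := {t | s₀ ≤ t ∧ t ≤ s₁ ∧ A' * (s₁ - t) ≤ J t s₁ + ε * N t + A' * L t} with hS
    have hS1 : s₁ ∈ S := by
      refine ⟨hs, le_rfl, ?_⟩
      have := hJ0 s₁ s₁
      have := mul_nonneg hε.le (hN0 s₁)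
      have := mul_nonneg hA0 (hL0 s₁)
      simp only [sub_self, mul_zero]
      linarith
    have hbdd : BddBelow S := ⟨s₀, fun t ht => ht.1⟩
    set T : ℝ := sInf S with hT
    have hT0 : s₀ ≤ T := le_csInf ⟨s₁, hS1⟩ fun t ht => ht.1
    have hT1 : T ≤ s₁ := csInf_le hbdd hS1
    have hTS : A' * (s₁ - T) ≤ J T s₁ + ε * N T + A' * L T := by
      refine le_of_forall_pos_le_add fun δ hδ => ?_
      obtain ⟨t, ht, htT⟩ := exists_lt_of_csInf_lt ⟨s₁, hS1⟩
        (show sInf S < T + δ / (A' + 1) by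
          have : 0 < δ / (A' + 1) := by positivity
          linarith)
      have hTt : T ≤ t := csInf_le hbdd ht
      have h1 := ht.2.2
      have h2 := hJ T t s₁ hTt ht.2.1
      have h3 := hJ0 T t
      have h4 : ε * N t ≤ ε * N T := mul_le_mul_of_nonneg_left (hNanti T t hTt) hε.le
      have h4' : A' * L t ≤ A' * L T := mul_le_mul_of_nonneg_left (hLanti T t hTt) hA0
      have h5 : A' * (t - T) ≤ δ := by
        have h6 : A' * (t - T) ≤ A' * (δ / (A' + 1)) :=
          mul_le_mul_of_nonneg_left (by linarith) hA0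
        have h7 : A' * (δ / (A' + 1)) = δ * (A' / (A' + 1)) := by ring
        have h8 : A' / (A' + 1) ≤ 1 := by
          rw [div_le_one (by linarith)]
          linarith
        have h9 : δ * (A' / (A' + 1)) ≤ δ * 1 := mul_le_mul_of_nonneg_left h8 hδ.le
        linarith
      nlinarith
    rcases eq_or_lt_of_le hT0 with h | h
    · rw [h]
      exact hTS
    · exfalso
      by_cases hTC : T ∈ C
      · set t : ℝ := max s₀ (T - ε / (A' + 1)) with ht
        have hp : 0 < ε / (A' + 1) := by positivity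
        have ht0 : s₀ ≤ t := le_max_left _ _
        have htT : t < T := max_lt h (by linarith)
        have ht2 : T - t ≤ ε / (A' + 1) := by
          have := le_max_right s₀ (T - ε / (A' + 1))
          linarith
        have h5 : A' * (T - t) ≤ ε := by
          have h6 : A' * (T - t) ≤ A' * (ε / (A' + 1)) := mul_le_mul_of_nonneg_left ht2 hA0
          have h7 : A' * (ε / (A' + 1)) = ε * (A' / (A' + 1)) := by ring
          have h8 : A' / (A' + 1) ≤ 1 := by
            rw [div_le_one (by linarith)]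
            linarith
          have h9 : ε * (A' / (A' + 1)) ≤ ε * 1 := mul_le_mul_of_nonneg_left h8 hε.le
          linarith
        have h10 : t ∈ S := by
          refine ⟨ht0, htT.le.trans hT1, ?_⟩
          have h1 := hJ t T s₁ htT.le hT1
          have h2 := hJ0 t T
          have h3 := mul_le_mul_of_nonneg_left (hNstep t T htT hTC) hε.le
          have h4 := mul_le_mul_of_nonneg_left (hLanti t T htT.le) hA0
          nlinarith
        exact absurd (csInf_le hbdd h10) (not_le.2 htT)
      by_cases hp : ∀ p ∈ P, d ≤ |T - σ p|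
      · obtain ⟨t, ht0, htT, ht2⟩ := hloc T h hT1 hTC hp
        have h10 : t ∈ S := by
          refine ⟨ht0, htT.le.trans hT1, ?_⟩
          have h1 := hJ t T s₁ htT.le hT1
          have h3 := mul_le_mul_of_nonneg_left (hNanti t T htT.le) hε.le
          have h4 := mul_le_mul_of_nonneg_left (hLanti t T htT.le) hA0
          nlinarith
        exact absurd (csInf_le hbdd h10) (not_le.2 htT)
      · push Not at hp
        obtain ⟨p, hpP, hp⟩ := hp
        rw [abs_lt] at hp
        set t : ℝ := max s₀ (σ p - d) with ht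
        have ht0 : s₀ ≤ t := le_max_left _ _
        have htT : t < T := max_lt h (by linarith)
        have ht2 : σ p - d ≤ t := le_max_right _ _
        have h10 : t ∈ S := by
          refine ⟨ht0, htT.le.trans hT1, ?_⟩
          have h1 := hJ t T s₁ htT.le hT1
          have h2 := hJ0 t T
          have h3 := mul_le_mul_of_nonneg_left (hNanti t T htT.le) hε.le
          have h4 := mul_le_mul_of_nonneg_left
            (hLstep t T htT.le p hpP ht2 (by linarith)) hA0
          nlinarith
        exact absurd (csInf_le hbdd h10) (not_le.2 htT)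
  have h6 : A' * L s₀ ≤ A' * (2 * d * P.card) := mul_le_mul_of_nonneg_left (hLle s₀) hA0
  have h7 : A' * (s₁ - s₀) ≤ J s₀ s₁ + A' * (2 * d * P.card) := by
    refine le_of_forall_pos_le_add fun δ hδ => ?_
    have h1 := key (δ / (N s₀ + 1)) (div_pos hδ (by linarith [hN0 s₀]))
    have h2 : δ / (N s₀ + 1) * N s₀ ≤ δ := by
      have h3 : δ / (N s₀ + 1) * N s₀ = δ * (N s₀ / (N s₀ + 1)) := by ring
      have h4 : N s₀ / (N s₀ + 1) ≤ 1 := by
        rw [div_le_one (by linarith [hN0 s₀])]
        linarith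
      have h5 : δ * (N s₀ / (N s₀ + 1)) ≤ δ * 1 := mul_le_mul_of_nonneg_left h4 hδ.le
      linarith
    linarith
  have h8 : A' * (s₁ - s₀ - 2 * d * P.card) = A' * (s₁ - s₀) - A' * (2 * d * P.card) := by ring
  rw [h8]
  linarith

theorem exists_lt {S : Set E3} {W : E3 → ℝ} {s₀ s : ℝ} (hS : IsCompact S) (hW : Continuous W)
    (h : ∀ x ∈ S, W x < s) (hs : s₀ < s) : ∃ t, s₀ ≤ t ∧ t < s ∧ ∀ x ∈ S, W x < t := by
  rcases S.eq_empty_or_nonempty with he | hne
  · exact ⟨s₀, le_rfl, hs, fun x hx => by simp [he] at hx⟩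
  · obtain ⟨y, hy, hmax⟩ := hS.exists_isMaxOn hne hW.continuousOn
    have hy' := h y hy
    refine ⟨max s₀ ((W y + s) / 2), le_max_left _ _, max_lt hs (by linarith), fun x hx => ?_⟩
    have hx' : W x ≤ W y := hmax hx
    exact lt_of_lt_of_le (by linarith) (le_max_right s₀ ((W y + s) / 2))

/-! ### The balls -/

section Ball

variable {P Q : Finset E3} {a : E3 → ℝ} {r : ℝ}

theorem isCompact_kset (P : Finset E3) (a : E3 → ℝ) (r : ℝ) : IsCompact (kset P a r) := by
  have h1 : kset P a r = Metric.closedBall (0 : E3) r ∩ ⋂ p ∈ P, {x : E3 | a p ≤ ‖x - p‖} := by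
    ext x
    simp [kset]
  rw [h1]
  refine (isCompact_closedBall _ _).inter_right ?_
  exact isClosed_biInter fun p _ =>
    isClosed_le continuous_const (continuous_id.sub continuous_const).norm

/-- The union of the balls about the points of `Q`. -/
def BB (Q : Finset E3) (a : E3 → ℝ) : Set E3 := ⋃ p ∈ Q, Metric.ball p (a p)

theorem mem_BB {x : E3} : x ∈ BB Q a ↔ ∃ p ∈ Q, ‖x - p‖ < a p := by
  simp [BB, dist_eq_norm]

theorem compl_eq (hB : Balls P a r) (hQ : Q ⊆ P) :
    (BB Q a ∪ kset P a r)ᶜ = {x | r < ‖x‖} ∪ ⋃ p ∈ P.filter (fun p => p ∉ Q), Metric.ball p (a p) := by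
  classical
  ext x
  have hmem : x ∈ (⋃ p ∈ P.filter (fun p => p ∉ Q), Metric.ball p (a p))
      ↔ ∃ p ∈ P, p ∉ Q ∧ ‖x - p‖ < a p := by
    simp [dist_eq_norm]
    tauto
  rw [Set.mem_union, hmem]
  constructor
  · intro h
    have h1 : x ∉ BB Q a := fun h' => h (Or.inl h')
    have h2 : x ∉ kset P a r := fun h' => h (Or.inr h')
    by_contra hcon
    push Not at hcon
    refine h2 ⟨not_lt.1 hcon.1, fun p hp => ?_⟩
    by_cases hpQ : p ∈ Q
    · exact not_lt.1 fun h' => h1 (mem_BB.2 ⟨p, hpQ, h'⟩)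
    · exact hcon.2 p hp hpQ
  · rintro (h | ⟨p, hp, hpQ, h⟩) h'
    · have h2 : r < ‖x‖ := h
      rcases h' with h' | h'
      · obtain ⟨p, hp, h3⟩ := mem_BB.1 h'
        have h4 := hB.inside p (hQ hp)
        have h5 := norm_sub_norm_le x p
        linarith
      · exact absurd h'.1 (not_le.2 h2)
    · rcases h' with h' | h'
      · obtain ⟨q, hq, h3⟩ := mem_BB.1 h'
        have hne : p ≠ q := by
          rintro rfl
          exact hpQ hq
        have h4 := hB.disj p hp q (hQ hq) hne
        have h5 : ‖p - q‖ ≤ ‖x - p‖ + ‖x - q‖ := by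
          have : p - q = (x - q) - (x - p) := by abel
          rw [this]
          have := norm_sub_le (x - q) (x - p)
          linarith
        linarith
      · exact absurd (h'.2 p hp) (not_le.2 h)

theorem geo (hB : Balls P a r) (hQ : Q ⊆ P) : Geo P (BB Q a) (kset P a r) where
  oB := isOpen_biUnion fun _ _ => Metric.isOpen_ball
  cK := isCompact_kset P a r
  disj := by
    intro x hx h
    obtain ⟨p, hp, h3⟩ := mem_BB.1 hx
    exact absurd (h.2 p (hQ hp)) (not_le.2 h3)
  cl := by
    rw [← isOpen_compl_iff, compl_eq hB hQ]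
    exact (isOpen_lt continuous_const continuous_norm).union
      (isOpen_biUnion fun _ _ => Metric.isOpen_ball)
  noP := by
    intro p hp h
    have h1 := h.2 p hp
    rw [sub_self, norm_zero] at h1
    exact absurd h1 (not_le.2 (hB.pos p hp))
  bd := by
    refine ⟨r, fun x hx => ?_⟩
    obtain ⟨p, hp, h3⟩ := mem_BB.1 hx
    have h4 := hB.inside p (hQ hp)
    have h5 := norm_sub_norm_le x p
    linarith

theorem clB {x : E3} (hQ : Q ⊆ P) (hx : x ∈ kset P a r) (hx' : x ∈ closure (BB Q a)) :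
    ∃ p ∈ Q, ‖x - p‖ = a p := by
  have h1 : closure (BB Q a) ⊆ ⋃ p ∈ Q, Metric.closedBall p (a p) := by
    refine closure_minimal ?_ ?_
    · exact Set.iUnion₂_mono fun p _ => Metric.ball_subset_closedBall
    · exact Set.Finite.isClosed_biUnion Q.finite_toSet fun p _ => Metric.isClosed_closedBall
  have h2 := h1 hx'
  simp only [Set.mem_iUnion, Metric.mem_closedBall, dist_eq_norm, exists_prop] at h2
  obtain ⟨p, hp, h3⟩ := h2
  exact ⟨p, hp, le_antisymm h3 (hx.2 p (hQ hp))⟩

theorem clO {x : E3} (hB : Balls P a r) (hQ : Q ⊆ P) (hx : x ∈ kset P a r)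
    (hx' : x ∈ closure (BB Q a ∪ kset P a r)ᶜ) :
    ‖x‖ = r ∨ ∃ p ∈ P, p ∉ Q ∧ ‖x - p‖ = a p := by
  classical
  rw [compl_eq hB hQ] at hx'
  have h1 : closure ({x : E3 | r < ‖x‖} ∪ ⋃ p ∈ P.filter (fun p => p ∉ Q), Metric.ball p (a p))
      ⊆ {x : E3 | r ≤ ‖x‖} ∪ ⋃ p ∈ P.filter (fun p => p ∉ Q), Metric.closedBall p (a p) := by
    refine closure_minimal ?_ ?_
    · refine Set.union_subset_union
        (fun x hx => (show r ≤ ‖x‖ from le_of_lt (show r < ‖x‖ from hx))) ?_
      exact Set.iUnion₂_mono fun p _ => Metric.ball_subset_closedBall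
    · refine (isClosed_le continuous_const continuous_norm).union ?_
      exact Set.Finite.isClosed_biUnion (P.filter (fun p => p ∉ Q)).finite_toSet
        fun p _ => Metric.isClosed_closedBall
  rcases h1 hx' with h2 | h2
  · exact Or.inl (le_antisymm hx.1 h2)
  · simp only [Set.mem_iUnion, Metric.mem_closedBall, dist_eq_norm, exists_prop,
      Finset.mem_filter] at h2
    obtain ⟨p, ⟨hp, hpQ⟩, h3⟩ := h2
    exact Or.inr ⟨p, hp, hpQ, le_antisymm h3 (hx.2 p hp)⟩

end Ball

end PERSAux

open PERSAux in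
/-- PERS: perimeter of the sublevel sets of a smooth function. -/
theorem t_PERS : Stmt_PERS := by
  classical
  intro P I g W a σ r d s₀ s₁ hI hg hB hd hs hW hr hin hout hfin A hA hL
  have hG0 : Geo P (BB I a) (kset P a r) := geo hB hI
  have hRHS : 0 ≤ ∫ x in kset P a r ∩ {x | s₀ ≤ W x ∧ W x ≤ s₁}, len g x (grad W x) * volDen g x :=
    integral_nonneg fun x => Pool.Agent.PFlow.PERAaux.ar_nonneg g W x
  have hJR : jj g W (kset P a r) s₀ s₁
      ≤ ∫ x in kset P a r ∩ {x | s₀ ≤ W x ∧ W x ≤ s₁}, len g x (grad W x) * volDen g x := by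
    unfold jj
    refine setIntegral_mono_set ((ar_int hg hG0 hW).mono_set Set.inter_subset_left)
      (Eventually.of_forall fun x => Pool.Agent.PFlow.PERAaux.ar_nonneg g W x) ?_
    refine (LE.le.eventuallyLE ?_)
    exact Set.inter_subset_inter_right _ fun x hx => ⟨hx.1, hx.2.le⟩
  set Δ : ℝ := s₁ - s₀ - 2 * d * P.card with hΔ
  rcases le_or_gt Δ 0 with hΔ0 | hΔ0
  · have : A * Δ ≤ 0 := mul_nonpos_of_nonneg_of_nonpos hA hΔ0
    linarith
  by_contra hcon
  rw [not_le] at hcon
  set R : ℝ := ∫ x in kset P a r ∩ {x | s₀ ≤ W x ∧ W x ≤ s₁}, len g x (grad W x) * volDen g x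
    with hR
  set A' : ℝ := (A + R / Δ) / 2 with hA'
  have hq : R / Δ < A := by
    rw [div_lt_iff₀ hΔ0]
    exact hcon
  have hq0 : 0 ≤ R / Δ := div_nonneg hRHS hΔ0.le
  have hA'0 : 0 ≤ A' := by
    rw [hA']
    linarith
  have hA'A : A' < A := by
    rw [hA']
    linarith
  have hch : A' * (s₁ - s₀ - 2 * d * (P.filter (fun p => p ∉ I)).card)
      ≤ jj g W (kset P a r) s₀ s₁ := by
    refine chain hs.le hA'0 hd (fun a b => jj_nonneg g W _ a b)
      (fun a b c hab hbc => jj_add hg hG0 hW hab hbc) hfin _ σ ?_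
    intro s hs0 hs1 hsC hsσ
    -- the balls in the region
    set Q : Finset E3 := P.filter (fun p => p ∈ I ∨ σ p < s) with hQ
    have hQP : Q ⊆ P := Finset.filter_subset _ _
    have hIQ : ∀ p ∈ I, p ∈ Q := fun p hp => Finset.mem_filter.2 ⟨hI hp, Or.inl hp⟩
    have hG : Geo P (BB Q a) (kset P a r) := geo hB hQP
    have hreg : ∀ x ∈ kset P a r, W x = s → fderiv ℝ W x ≠ 0 := fun x hx hxs hd0 =>
      hsC ⟨hs0.le, hs1, x, hx, hxs, hd0⟩
    have hσ : ∀ p ∈ P, p ∉ I → d ≤ |s - σ p| := fun p hp hpI =>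
      hsσ p (Finset.mem_filter.2 ⟨hp, hpI⟩)
    have h0 : ∀ x ∈ kset P a r, x ∈ closure (BB Q a) → W x < s := by
      intro x hx hx'
      obtain ⟨p, hp, h2⟩ := clB hQP hx hx'
      by_cases hpI : p ∈ I
      · exact (hin p hpI x h2).trans hs0
      · have h3 : σ p < s := (Finset.mem_filter.1 hp).2.resolve_left hpI
        have h4 := hσ p (hQP hp) hpI
        rw [abs_of_pos (sub_pos.2 h3)] at h4
        have h5 := (abs_lt.1 (hout p (hQP hp) hpI x h2)).2
        linarith
    have h1 : ∀ x ∈ kset P a r, x ∈ closure (BB Q a ∪ kset P a r)ᶜ → s < W x := by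
      intro x hx hx'
      rcases clO hB hQP hx hx' with h2 | ⟨p, hp, hpQ, h2⟩
      · exact lt_of_le_of_lt hs1 (hr x h2)
      · have hpI : p ∉ I := fun h => hpQ (hIQ p h)
        have h3 : s ≤ σ p := not_lt.1 fun h => hpQ (Finset.mem_filter.2 ⟨hp, Or.inr h⟩)
        have h4 := hσ p hp hpI
        rw [abs_of_nonpos (by linarith)] at h4
        have h5 := (abs_lt.1 (hout p hp hpI x h2)).1
        linarith
    have hU := region hG hW h0 h1 hreg
    have hlt : ENNReal.ofReal A' < perimeterP P g (Us P W (BB Q a) (kset P a r) s) := by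
      refine lt_of_lt_of_le ((ENNReal.ofReal_lt_ofReal_iff_of_nonneg hA'0).2 hA'A) (hL _ hU ?_)
      intro p hp
      refine contains hG ?_ s
      exact mem_BB.2 ⟨p, hIQ p hp, by rw [sub_self, norm_zero]; exact hB.pos p (hI hp)⟩
    unfold perimeterP at hlt
    rw [lt_iSup_iff] at hlt
    obtain ⟨X, hlt⟩ := hlt
    rw [lt_iSup_iff] at hlt
    obtain ⟨hX, hlt⟩ := hlt
    rw [ENNReal.ofReal_lt_ofReal_iff_of_nonneg hA'0] at hlt
    obtain ⟨t₀, ht0, hts0, ht⟩ := exists_lt
      (S := kset P a r ∩ closure (BB Q a)) (W := W) (s₀ := s₀) (s := s)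
      (hG.cK.inter_right isClosed_closure) hW.continuous (fun x hx => h0 x hx.1 hx.2) hs0
    obtain ⟨t, ht1, hts, ht2⟩ := local_left hg hG hW hX (fun x hx hx' => ht x ⟨hx, hx'⟩) h1
      hts0 hA'0 hlt
    exact ⟨t, ht0.trans ht1, hts, ht2⟩
  have hcard : ((P.filter (fun p => p ∉ I)).card : ℝ) ≤ (P.card : ℝ) := by
    exact_mod_cast Finset.card_filter_le P _
  have h4 : A' * Δ ≤ A' * (s₁ - s₀ - 2 * d * (P.filter (fun p => p ∉ I)).card) := by
    refine mul_le_mul_of_nonneg_left ?_ hA'0
    rw [hΔ]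
    nlinarith
  have h5 : A' * Δ = (A * Δ + R) / 2 := by
    rw [hA']
    field_simp
  linarith

end Pool.Agent.PFT
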