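import Pool.Agent.PFT.StmtsA
import Pool.Agent.PFlow.E.POI

/-!
# POI1: the Poincaré inequality in `L¹` on annuli

Two points `x`, `y` of the annulus `a ≤ |x| ≤ b` are joined through the points `z` of a ball about a
point orthogonal to both (as in `PFlow/E/POI.lean`, the geometry is reused).
-/

open MeasureTheory Filter Topology
open scoped ContDiff ENNReal

namespace Pool.Agent.PFT

open Pool.Agent.PenroseSph Pool.Agent.PFlow

namespace POI1Aux

open Pool.Agent.PFlow.Poi

/-- The length of the derivative on the larger annulus. -/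
noncomputable def g1 (f : E3 → ℝ) (a b : ℝ) : E3 → ℝ≥0∞ :=
  (cAnn (a / 2) b).indicator (fun y => ENNReal.ofReal ‖fderiv ℝ f y‖)

variable {f : E3 → ℝ} {a b : ℝ}

lemma g1_meas (hf : ∀ x ∈ cAnn (a / 2) b, ContDiffAt ℝ 1 f x) : Measurable (g1 f a b) := by
  classical
  unfold g1
  rw [← Set.piecewise_eq_indicator]
  refine ContinuousOn.measurable_piecewise (fun x hx => ?_) continuousOn_const
    (isClosed_cAnn _ _).measurableSet
  exact (ENNReal.continuous_ofReal.continuousAt.comp
    (cont_fderiv hf hx).norm).continuousWithinAt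

/-- The difference of the values at the ends of a segment. -/
lemma seg1 (hf : ∀ x ∈ cAnn (a / 2) b, ContDiffAt ℝ 1 f x) {x z : E3} (hx : ‖x‖ ≤ b)
    (hz : ‖z‖ ≤ b) (hs : ∀ t : ℝ, 0 ≤ t → t ≤ 1 → z + t • (x - z) ∈ cAnn (a / 2) b) :
    ENNReal.ofReal |f x - f z| ≤
      ENNReal.ofReal (2 * b) * ∫⁻ t in Set.Ioc (0 : ℝ) 1, g1 f a b (z + t • (x - z)) := by
  have hu : Set.uIcc (0 : ℝ) 1 = Set.Icc 0 1 := Set.uIcc_of_le zero_le_one
  have hγ : Continuous (fun t : ℝ => z + t • (x - z)) := by fun_prop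
  have hb : 0 ≤ b := (norm_nonneg x).trans hx
  have hk : ContinuousOn (fun t : ℝ => fderiv ℝ f (z + t • (x - z)) (x - z)) (Set.Icc 0 1) := by
    intro t ht
    have h1 : ContinuousAt (fderiv ℝ f) (z + t • (x - z)) := cont_fderiv hf (hs t ht.1 ht.2)
    have h2 : ContinuousAt (fun t : ℝ => fderiv ℝ f (z + t • (x - z))) t :=
      ContinuousAt.comp (f := fun t : ℝ => z + t • (x - z)) h1 hγ.continuousAt
    exact (h2.clm_apply continuousAt_const).continuousWithinAt
  have hG : ContinuousOn (fun t : ℝ => 2 * b * ‖fderiv ℝ f (z + t • (x - z))‖)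
      (Set.Icc 0 1) := by
    intro t ht
    have h1 : ContinuousAt (fderiv ℝ f) (z + t • (x - z)) := cont_fderiv hf (hs t ht.1 ht.2)
    have h2 : ContinuousAt (fun t : ℝ => fderiv ℝ f (z + t • (x - z))) t :=
      ContinuousAt.comp (f := fun t : ℝ => z + t • (x - z)) h1 hγ.continuousAt
    exact (continuousAt_const.mul h2.norm).continuousWithinAt
  have h1 : ∫ t in (0 : ℝ)..1, fderiv ℝ f (z + t • (x - z)) (x - z) = f x - f z := by
    have h2 : ∀ t ∈ Set.uIcc (0 : ℝ) 1, HasDerivAt (fun t : ℝ => f (z + t • (x - z)))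
        (fderiv ℝ f (z + t • (x - z)) (x - z)) t := by
      intro t ht
      rw [hu] at ht
      have h3 : HasFDerivAt f (fderiv ℝ f (z + t • (x - z))) (z + t • (x - z)) :=
        ((hf _ (hs t ht.1 ht.2)).differentiableAt one_ne_zero).hasFDerivAt
      have h4 : HasDerivAt (fun t : ℝ => z + t • (x - z)) (x - z) t := by
        have := ((hasDerivAt_id t).smul_const (x - z)).const_add z
        simpa using this
      exact h3.comp_hasDerivAt t h4
    rw [intervalIntegral.integral_eq_sub_of_hasDerivAt h2 (hu ▸ hk).intervalIntegrable]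
    simp
  have h2 : |f x - f z| ≤ ∫ t in (0 : ℝ)..1, 2 * b * ‖fderiv ℝ f (z + t • (x - z))‖ := by
    rw [← h1, ← Real.norm_eq_abs]
    refine (intervalIntegral.norm_integral_le_integral_norm zero_le_one).trans ?_
    refine intervalIntegral.integral_mono_on zero_le_one (hu ▸ hk.norm).intervalIntegrable
      (hu ▸ hG).intervalIntegrable fun t _ => ?_
    have h3 : ‖fderiv ℝ f (z + t • (x - z)) (x - z)‖ ≤
        ‖fderiv ℝ f (z + t • (x - z))‖ * ‖x - z‖ :=
      (fderiv ℝ f (z + t • (x - z))).le_opNorm (x - z)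
    have h4 : ‖x - z‖ ≤ 2 * b := (norm_sub_le x z).trans (by linarith)
    calc ‖fderiv ℝ f (z + t • (x - z)) (x - z)‖
        ≤ ‖fderiv ℝ f (z + t • (x - z))‖ * ‖x - z‖ := h3
      _ ≤ ‖fderiv ℝ f (z + t • (x - z))‖ * (2 * b) :=
          mul_le_mul_of_nonneg_left h4 (norm_nonneg _)
      _ = 2 * b * ‖fderiv ℝ f (z + t • (x - z))‖ := mul_comm _ _
  rw [intervalIntegral.integral_of_le zero_le_one] at h2
  refine (ENNReal.ofReal_le_ofReal h2).trans ?_
  rw [ofReal_integral_eq_lintegral_ofReal]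
  · rw [← lintegral_const_mul' _ _ ENNReal.ofReal_ne_top]
    refine setLIntegral_mono' measurableSet_Ioc fun t ht => ?_
    have h3 : z + t • (x - z) ∈ cAnn (a / 2) b := hs t ht.1.le ht.2
    rw [g1, Set.indicator_of_mem h3, ENNReal.ofReal_mul (by positivity)]
  · exact (hG.integrableOn_Icc).mono_set Set.Ioc_subset_Icc_self
  · exact Eventually.of_forall fun t => by positivity

/-- The energy of the pencils of segments ending at `x`. -/
noncomputable def e1 (f : E3 → ℝ) (a b : ℝ) (x : E3) : ℝ≥0∞ :=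
  ∫⁻ z in cAnn a b, ENNReal.ofReal (2 * b) *
    ∫⁻ t in Set.Ioc (0 : ℝ) 1, g1 f a b (z + t • (x - z))

lemma e1_meas (hf : ∀ x ∈ cAnn (a / 2) b, ContDiffAt ℝ 1 f x) : Measurable (e1 f a b) := by
  have hm3 : Measurable
      (fun p : (E3 × E3) × ℝ => g1 f a b (p.1.2 + p.2 • (p.1.1 - p.1.2))) :=
    (g1_meas hf).comp (Continuous.measurable (by fun_prop))
  have h1 : Measurable (fun p : E3 × E3 => ENNReal.ofReal (2 * b) *
      ∫⁻ t in Set.Ioc (0 : ℝ) 1, g1 f a b (p.2 + t • (p.1 - p.2))) :=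
    (Measurable.lintegral_prod_right' (ν := volume.restrict (Set.Ioc (0 : ℝ) 1)) hm3).const_mul _
  exact Measurable.lintegral_prod_right' (ν := volume.restrict (cAnn a b)) h1

lemma e1_total (hf : ∀ x ∈ cAnn (a / 2) b, ContDiffAt ℝ 1 f x) :
    ∫⁻ x in cAnn a b, e1 f a b x ≤
      ENNReal.ofReal (2 * b) * (8 * volume (cAnn a b) * ∫⁻ x, g1 f a b x) := by
  unfold e1
  have h1 : ∀ x : E3, ∫⁻ z in cAnn a b, ENNReal.ofReal (2 * b) *
      ∫⁻ t in Set.Ioc (0 : ℝ) 1, g1 f a b (z + t • (x - z)) =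
      ENNReal.ofReal (2 * b) * ∫⁻ z in cAnn a b,
        ∫⁻ t in Set.Ioc (0 : ℝ) 1, g1 f a b (z + t • (x - z)) := fun x =>
    lintegral_const_mul' _ _ ENNReal.ofReal_ne_top
  simp only [h1]
  rw [lintegral_const_mul' _ _ ENNReal.ofReal_ne_top]
  exact mul_le_mul_right (triple (g1_meas hf) _) _

/-- The three point inequality. -/
lemma three1 (ha : 0 < a) (hab : a < b) (hf : ∀ x ∈ cAnn (a / 2) b, ContDiffAt ℝ 1 f x)
    {x y : E3} (hx : x ∈ cAnn a b) (hy : y ∈ cAnn a b) :
    volume (Metric.ball (0 : E3) (rr a b)) * ENNReal.ofReal |f x - f y| ≤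
      e1 f a b x + e1 f a b y := by
  obtain ⟨z₀, hsub, hz₀⟩ := exists_ball ha hab (x := x) (y := y)
  have hvol : volume (Metric.ball (0 : E3) (rr a b)) = volume (Metric.ball z₀ (rr a b)) := by
    rw [Measure.addHaar_ball volume (0 : E3) (rr_pos ha hab).le,
      Measure.addHaar_ball volume z₀ (rr_pos ha hab).le]
  have hseg : ∀ w ∈ cAnn a b, (∀ z ∈ Metric.ball z₀ (rr a b),
      -(‖w‖ * ‖z‖ / 2) ≤ inner ℝ w z) → ∀ z ∈ Metric.ball z₀ (rr a b),
      ENNReal.ofReal |f w - f z| ≤ ENNReal.ofReal (2 * b) *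
        ∫⁻ t in Set.Ioc (0 : ℝ) 1, g1 f a b (z + t • (w - z)) := by
    intro w hw hin z hz
    have hzA := hsub hz
    exact seg1 hf hw.2 hzA.2 fun t h0 h1 =>
      ⟨seg_low ha hw.1 hzA.1 (hin z hz) h0 h1, seg_up hw.2 hzA.2 h0 h1⟩
  have hmt : ∀ w : E3, Measurable (fun z : E3 => ENNReal.ofReal (2 * b) *
      ∫⁻ t in Set.Ioc (0 : ℝ) 1, g1 f a b (z + t • (w - z))) := fun w => by
    have hm3 : Measurable
        (fun p : E3 × ℝ => g1 f a b (p.1 + p.2 • (w - p.1))) :=
      (g1_meas hf).comp (Continuous.measurable (by fun_prop))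
    exact (Measurable.lintegral_prod_right'
      (ν := volume.restrict (Set.Ioc (0 : ℝ) 1)) hm3).const_mul _
  calc volume (Metric.ball (0 : E3) (rr a b)) * ENNReal.ofReal |f x - f y|
      = ∫⁻ _z in Metric.ball z₀ (rr a b), ENNReal.ofReal |f x - f y| := by
        rw [setLIntegral_const, hvol, mul_comm]
    _ ≤ ∫⁻ z in Metric.ball z₀ (rr a b), ((ENNReal.ofReal (2 * b) *
          ∫⁻ t in Set.Ioc (0 : ℝ) 1, g1 f a b (z + t • (x - z))) +
          (ENNReal.ofReal (2 * b) *
          ∫⁻ t in Set.Ioc (0 : ℝ) 1, g1 f a b (z + t • (y - z)))) := by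
        refine setLIntegral_mono' Metric.isOpen_ball.measurableSet fun z hz => ?_
        have h1 := hseg x hx (fun z hz => (hz₀ z hz).1) z hz
        have h2 := hseg y hy (fun z hz => (hz₀ z hz).2) z hz
        refine le_trans ?_ (add_le_add h1 h2)
        rw [← ENNReal.ofReal_add (abs_nonneg _) (abs_nonneg _)]
        refine ENNReal.ofReal_le_ofReal ?_
        have h3 := abs_sub_le (f x) (f z) (f y)
        rwa [abs_sub_comm (f z) (f y)] at h3
    _ ≤ ∫⁻ z in cAnn a b, ((ENNReal.ofReal (2 * b) *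
          ∫⁻ t in Set.Ioc (0 : ℝ) 1, g1 f a b (z + t • (x - z))) +
          (ENNReal.ofReal (2 * b) *
          ∫⁻ t in Set.Ioc (0 : ℝ) 1, g1 f a b (z + t • (y - z)))) := lintegral_mono_set hsub
    _ = e1 f a b x + e1 f a b y := by
        rw [lintegral_add_left (hmt x)]
        rfl

/-- The inequality without scaling. -/
lemma core1 (ha : 0 < a) (hab : a < b) (hf : ∀ x ∈ cAnn (a / 2) b, ContDiffAt ℝ 1 f x) :
    ∫ x in cAnn a b, |f x - ⨍ y in cAnn a b, f y| ≤
      32 * b * (b / rr a b) ^ 3 * ∫ x in cAnn (a / 2) b, ‖fderiv ℝ f x‖ := by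
  have hb : 0 < b := ha.trans hab
  have hr : 0 < rr a b := rr_pos ha hab
  have hsubA : cAnn a b ⊆ cAnn (a / 2) b := fun x hx => ⟨by linarith [hx.1], hx.2⟩
  have hmA : MeasurableSet (cAnn a b) := (isClosed_cAnn a b).measurableSet
  have hcf : ContinuousOn f (cAnn a b) := fun x hx =>
    (hf x (hsubA hx)).continuousAt.continuousWithinAt
  have hcK := isCompact_cAnn a b
  have hfin : volume (cAnn a b) ≠ ⊤ := hcK.measure_lt_top.ne
  have : IsFiniteMeasure (volume.restrict (cAnn a b)) := ⟨by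
    rw [Measure.restrict_apply_univ]
    exact hcK.measure_lt_top⟩
  set v := volume (Metric.ball (0 : E3) (rr a b)) with hv
  have hv0 : v ≠ 0 := (Metric.measure_ball_pos volume (0 : E3) hr).ne'
  have hvt : v ≠ ⊤ := measure_ball_lt_top.ne
  have hA0 : volume (cAnn a b) ≠ 0 := by
    obtain ⟨z₀, hsub, -⟩ := exists_ball ha hab (x := 0) (y := 0)
    exact ((Metric.measure_ball_pos volume z₀ hr).trans_le (measure_mono hsub)).ne'
  have hAr : 0 < volume.real (cAnn a b) := ENNReal.toReal_pos hA0 hfin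
  have hfi : IntegrableOn f (cAnn a b) := hcf.integrableOn_compact hcK
  -- the distance to the mean is at most the mean of the distances
  have hmean : ∀ x : E3, volume (cAnn a b) * ENNReal.ofReal |f x - ⨍ y in cAnn a b, f y| ≤
      ∫⁻ y in cAnn a b, ENNReal.ofReal |f x - f y| := by
    intro x
    have h1 : volume.real (cAnn a b) * (f x - ⨍ y in cAnn a b, f y) =
        ∫ y in cAnn a b, (f x - f y) := by
      rw [integral_sub (integrable_const _) hfi, setIntegral_const, mul_sub, smul_eq_mul]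
      have h2 : volume.real (cAnn a b) * (⨍ y in cAnn a b, f y) = ∫ y in cAnn a b, f y := by
        rw [setAverage_eq, smul_eq_mul, ← mul_assoc, mul_inv_cancel₀ hAr.ne', one_mul]
      rw [h2]
    have h2 : volume.real (cAnn a b) * |f x - ⨍ y in cAnn a b, f y| ≤
        ∫ y in cAnn a b, |f x - f y| := by
      calc volume.real (cAnn a b) * |f x - ⨍ y in cAnn a b, f y|
          = |volume.real (cAnn a b) * (f x - ⨍ y in cAnn a b, f y)| := by
            rw [abs_mul, abs_of_pos hAr]
        _ = |∫ y in cAnn a b, (f x - f y)| := by rw [h1]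
        _ ≤ ∫ y in cAnn a b, |f x - f y| := abs_integral_le_integral_abs
    have h3 : volume (cAnn a b) = ENNReal.ofReal (volume.real (cAnn a b)) :=
      (ENNReal.ofReal_toReal hfin).symm
    rw [h3, ← ENNReal.ofReal_mul hAr.le, ← ofReal_integral_eq_lintegral_ofReal]
    · exact ENNReal.ofReal_le_ofReal h2
    · exact ((integrable_const _).sub hfi).abs
    · exact Eventually.of_forall fun y => abs_nonneg _
  set Var := ∫ x in cAnn a b, |f x - ⨍ y in cAnn a b, f y| with hVar
  have hV : ENNReal.ofReal Var = ∫⁻ x in cAnn a b, ENNReal.ofReal |f x - ⨍ y in cAnn a b, f y| := by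
    rw [hVar, ofReal_integral_eq_lintegral_ofReal]
    · exact (hfi.sub (integrable_const _)).abs
    · exact Eventually.of_forall fun x => abs_nonneg _
  have h2 : v * (volume (cAnn a b) * ENNReal.ofReal Var) ≤
      volume (cAnn a b) * (ENNReal.ofReal (2 * b) *
        (16 * volume (cAnn a b) * ∫⁻ x, g1 f a b x)) := by
    calc v * (volume (cAnn a b) * ENNReal.ofReal Var)
        = v * ∫⁻ x in cAnn a b, volume (cAnn a b) *
            ENNReal.ofReal |f x - ⨍ y in cAnn a b, f y| := by
          rw [lintegral_const_mul' _ _ hfin, hV]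
      _ ≤ v * ∫⁻ x in cAnn a b, ∫⁻ y in cAnn a b, ENNReal.ofReal |f x - f y| :=
          mul_le_mul_right (lintegral_mono fun x => hmean x) v
      _ = ∫⁻ x in cAnn a b, ∫⁻ y in cAnn a b, v * ENNReal.ofReal |f x - f y| := by
          rw [← lintegral_const_mul' _ _ hvt]
          refine lintegral_congr fun x => ?_
          rw [lintegral_const_mul' _ _ hvt]
      _ ≤ ∫⁻ x in cAnn a b, ∫⁻ y in cAnn a b, (e1 f a b x + e1 f a b y) := by
          refine setLIntegral_mono' hmA fun x hx => setLIntegral_mono' hmA fun y hy => ?_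
          exact three1 ha hab hf hx hy
      _ = ∫⁻ x in cAnn a b, (e1 f a b x * volume (cAnn a b) +
            ∫⁻ y in cAnn a b, e1 f a b y) := by
          refine lintegral_congr fun x => ?_
          rw [lintegral_add_left measurable_const, setLIntegral_const]
      _ = 2 * volume (cAnn a b) * ∫⁻ x in cAnn a b, e1 f a b x := by
          rw [lintegral_add_right _ measurable_const, setLIntegral_const,
            lintegral_mul_const' _ _ hfin]
          ring
      _ ≤ 2 * volume (cAnn a b) * (ENNReal.ofReal (2 * b) *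
            (8 * volume (cAnn a b) * ∫⁻ x, g1 f a b x)) := mul_le_mul_right (e1_total hf) _
      _ = _ := by ring
  have h3 : v * ENNReal.ofReal Var ≤ ENNReal.ofReal (2 * b) *
        (16 * volume (cAnn a b) * ∫⁻ x, g1 f a b x) := by
    have e : v * (volume (cAnn a b) * ENNReal.ofReal Var) =
        volume (cAnn a b) * (v * ENNReal.ofReal Var) := by ring
    rw [e] at h2
    exact (ENNReal.mul_le_mul_iff_right hA0 hfin).1 h2
  -- the volume of the annulus
  have h4 : volume (cAnn a b) ≤ ENNReal.ofReal ((b / rr a b) ^ 3) * v := by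
    have e3 : Module.finrank ℝ E3 = 3 := by simp [E3]
    refine (measure_mono (cAnn_subset_ball a b)).trans ?_
    rw [Measure.addHaar_closedBall volume (0 : E3) hb.le, hv,
      Measure.addHaar_ball volume (0 : E3) hr.le, e3, ← mul_assoc,
      ← ENNReal.ofReal_mul (by positivity)]
    have : (b / rr a b) ^ 3 * rr a b ^ 3 = b ^ 3 := by
      rw [← mul_pow, div_mul_cancel₀ _ hr.ne']
    rw [this]
  have h5 : v * ENNReal.ofReal Var ≤
      v * (ENNReal.ofReal (32 * b * (b / rr a b) ^ 3) * ∫⁻ x, g1 f a b x) := by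
    refine h3.trans ?_
    calc ENNReal.ofReal (2 * b) * (16 * volume (cAnn a b) * ∫⁻ x, g1 f a b x)
        ≤ ENNReal.ofReal (2 * b) *
          (16 * (ENNReal.ofReal ((b / rr a b) ^ 3) * v) * ∫⁻ x, g1 f a b x) :=
          mul_le_mul_right (mul_le_mul_left (mul_le_mul_right h4 _) _) _
      _ = v * (ENNReal.ofReal (2 * b) * 16 * ENNReal.ofReal ((b / rr a b) ^ 3) *
          ∫⁻ x, g1 f a b x) := by ring
      _ = v * (ENNReal.ofReal (32 * b * (b / rr a b) ^ 3) * ∫⁻ x, g1 f a b x) := by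
          congr 2
          rw [show (16 : ℝ≥0∞) = ENNReal.ofReal 16 by norm_num,
            ← ENNReal.ofReal_mul (by positivity), ← ENNReal.ofReal_mul (by positivity)]
          congr 1
          ring
  have h6 := (ENNReal.mul_le_mul_iff_right hv0 hvt).1 h5
  have h7 : ∫⁻ x, g1 f a b x = ENNReal.ofReal (∫ x in cAnn (a / 2) b, ‖fderiv ℝ f x‖) := by
    unfold g1
    rw [lintegral_indicator (isClosed_cAnn _ _).measurableSet,
      ofReal_integral_eq_lintegral_ofReal]
    · refine ContinuousOn.integrableOn_compact (isCompact_cAnn _ _) fun x hx => ?_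
      exact (cont_fderiv hf hx).norm.continuousWithinAt
    · exact Eventually.of_forall fun x => norm_nonneg _
  have hI : 0 ≤ ∫ x in cAnn (a / 2) b, ‖fderiv ℝ f x‖ := integral_nonneg fun x => norm_nonneg _
  rw [h7, ← ENNReal.ofReal_mul (by positivity)] at h6
  exact (ENNReal.ofReal_le_ofReal_iff (by positivity)).1 h6

end POI1Aux

open Pool.Agent.PFlow.Poi POI1Aux in
/-- The Poincaré inequality in `L¹` on annuli. -/
theorem t_POI1 : Stmt_POI1 := by
  intro a b ha hab
  have hr : 0 < rr a b := rr_pos ha hab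
  have hb : 0 < b := ha.trans hab
  refine ⟨32 * b * (b / rr a b) ^ 3, by positivity, fun ρ f hρ hf => ?_⟩
  have h1 := core1 (mul_pos ha hρ) (mul_lt_mul_of_pos_right hab hρ) hf
  have h2 : rr (a * ρ) (b * ρ) = rr a b * ρ := by
    unfold rr
    rw [min_mul_of_nonneg _ _ hρ.le]
    congr 1 <;> ring
  refine h1.trans (le_of_eq ?_)
  rw [h2, mul_div_mul_right _ _ hρ.ne']
  ring

end Pool.Agent.PFT
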