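import Pool.Agent.PFT.StmtsF
import Pool.Agent.PFlow.X.XJINT
import Pool.Agent.PFlow.E.DIVG

/-!
# The momentum density is integrable far out (module RJINT)
-/

open MeasureTheory Filter Topology
open scoped ContDiff ENNReal

namespace Pool.Agent.PFT

open Pool.Agent.PenroseSph Pool.Agent.PFlow

namespace RJINTAux

open MJINT (isClosed_cAnn isCompact_cAnn jlen_nonneg int_inv4)

/-- Boundary terms. -/
theorem bdry {g : TensorField} {C a : ℝ} (ha : 0 < a)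
    (hb : ∀ x : E3, a ≤ ‖x‖ → ∀ i j k, |pd k (fun y => g y i j) x| ≤ C / ‖x‖ ^ 2) {b : ℝ}
    (hb1 : a ≤ b) :
    |∫ θ : Metric.sphere (0 : E3) 1, (∑ i, MDIVA.VV g (b • (θ : E3)) i * (θ : E3) i) * b ^ 2
      ∂((volume : Measure E3).toSphere)| ≤
      18 * C * ((volume : Measure E3).toSphere).real Set.univ := by
  have hb0 : 0 < b := by linarith
  rw [← Real.norm_eq_abs]
  refine norm_integral_le_of_norm_le_const (Eventually.of_forall fun θ => ?_)
  have hn : ‖b • (θ : E3)‖ = b := by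
    rw [norm_smul, norm_eq_of_mem_sphere, mul_one, Real.norm_eq_abs, abs_of_pos hb0]
  have hθ : ∀ i, |(θ : E3) i| ≤ 1 := by
    intro i
    have h1 := EuclideanSpace.norm_eq (θ : E3)
    rw [norm_eq_of_mem_sphere] at h1
    have h2 : (θ : E3) i ^ 2 ≤ ∑ j, ‖(θ : E3) j‖ ^ 2 := by
      have h3 := Finset.single_le_sum (f := fun j => ‖(θ : E3) j‖ ^ 2)
        (fun j _ => sq_nonneg _) (Finset.mem_univ i)
      simpa [Real.norm_eq_abs, sq_abs] using h3
    have h4 : ∑ j, ‖(θ : E3) j‖ ^ 2 = 1 := by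
      have h5 : 0 ≤ ∑ j, ‖(θ : E3) j‖ ^ 2 := Finset.sum_nonneg fun _ _ => sq_nonneg _
      rw [← Real.sq_sqrt h5, ← h1]
      norm_num
    rw [h4] at h2
    exact (sq_le_one_iff_abs_le_one _).1 h2
  have hV : ∀ j, |MDIVA.VV g (b • (θ : E3)) j| ≤ 3 * (C / b ^ 2 + C / b ^ 2) := by
    intro j
    unfold MDIVA.VV
    refine ESCAL.s3 fun i => ESCAL.m2 ?_ ?_
    · have := hb (b • (θ : E3)) (by rw [hn]; exact hb1) i j i
      rwa [hn] at this
    · have := hb (b • (θ : E3)) (by rw [hn]; exact hb1) i i j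
      rwa [hn] at this
  have h6 : |∑ i, MDIVA.VV g (b • (θ : E3)) i * (θ : E3) i| ≤
      3 * (3 * (C / b ^ 2 + C / b ^ 2) * 1) :=
    ESCAL.s3 fun i => ESCAL.p2 (hV i) (hθ i)
  rw [Real.norm_eq_abs, abs_mul, abs_of_nonneg (sq_nonneg b)]
  calc |∑ i, MDIVA.VV g (b • (θ : E3)) i * (θ : E3) i| * b ^ 2
      ≤ 3 * (3 * (C / b ^ 2 + C / b ^ 2) * 1) * b ^ 2 :=
        mul_le_mul_of_nonneg_right h6 (sq_nonneg b)
    _ = 18 * C := by
        field_simp
        ring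

/-- The decay bounds with a positive constant. -/
theorem decay_pos {C R : ℝ} {g h : TensorField} (D : DecayFrom C R g h) :
    DecayFrom (max C 1) R g h := by
  intro x hx i j
  obtain ⟨d1, d2, d3, d4, d5⟩ := D x hx i j
  have hle : C ≤ max C 1 := le_max_left _ _
  have hn := norm_nonneg x
  refine ⟨d1.trans (div_le_div_of_nonneg_right hle hn), fun k => (d2 k).trans ?_,
    fun k l => (d3 k l).trans ?_, d4.trans ?_, fun k => (d5 k).trans ?_⟩ <;>
  exact div_le_div_of_nonneg_right hle (by positivity)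

end RJINTAux

open MJINT (isClosed_cAnn isCompact_cAnn jlen_nonneg int_inv4) in
/-- RJINT: the momentum density is integrable far out. -/
theorem t_RJINT : Stmt_RJINT := by
  intro g h r₀ hr₀ hg hh hdecay hdec
  obtain ⟨C₀, R₀, hD₀⟩ := hdecay
  have hD := RJINTAux.decay_pos hD₀
  set C := max C₀ 1 with hCdef
  have hC : 0 < C := lt_of_lt_of_le one_pos (le_max_right _ _)
  obtain ⟨C', s₀, hC', hs₀, hS⟩ := SCAL C
  set U : Set E3 := {x : E3 | r₀ < ‖x‖} with hUdef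
  have hU : IsOpen U := isOpen_lt continuous_const continuous_norm
  set r₁ := max (max s₀ (100 * C)) (max (max R₀ (r₀ + 1)) 2) with hr₁
  have hr₁2 : 2 ≤ r₁ := le_trans (le_max_right _ _) (le_max_right _ _)
  have hr₁1 : 1 ≤ r₁ := by linarith
  have hr₁a : s₀ ≤ r₁ := le_trans (le_max_left _ _) (le_max_left _ _)
  have hr₁b : 100 * C ≤ r₁ := le_trans (le_max_right _ _) (le_max_left _ _)
  have hr₁c : R₀ ≤ r₁ :=
    le_trans (le_max_left _ _) (le_trans (le_max_left _ _) (le_max_right _ _))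
  have hr₁d : r₀ + 1 ≤ r₁ :=
    le_trans (le_max_right _ _) (le_trans (le_max_left _ _) (le_max_right _ _))
  have hr₁0 : 0 < r₁ := by linarith
  have hmem : ∀ x : E3, r₁ ≤ ‖x‖ → x ∈ U := fun x hx => by
    change r₀ < ‖x‖
    linarith
  have hsubU : ∀ a b : ℝ, r₁ ≤ a → cAnn a b ⊆ U := fun a b ha x hx =>
    hmem x (le_trans ha hx.1)
  have hjint : ∀ a b : ℝ, r₁ ≤ a → IntegrableOn (jlen g h) (cAnn a b) := fun a b ha =>
    ((MXJINT.jlen_cont hU hg hh).mono (hsubU a b ha)).integrableOn_compact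
      (isCompact_cAnn a b)
  have hlint : ∀ a b : ℝ, r₁ ≤ a → IntegrableOn (linR g) (cAnn a b) := fun a b ha =>
    ((MXJINT.linR_cont hU hg).mono (hsubU a b ha)).integrableOn_compact
      (isCompact_cAnn a b)
  have hd1 : ∀ x : E3, r₁ ≤ ‖x‖ → ∀ i j,
      |g x i j - (1 : Bil) i j| ≤ C / ‖x‖ ∧
      (∀ k, |pd k (fun y => g y i j) x| ≤ C / ‖x‖ ^ 2) ∧
      (∀ k l, |pd k (pd l (fun y => g y i j)) x| ≤ C / ‖x‖ ^ 3) ∧
      |h x i j| ≤ C / ‖x‖ ^ 2 := fun x hx i j =>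
    ⟨(hD x (hr₁c.trans hx) i j).1, (hD x (hr₁c.trans hx) i j).2.1,
      (hD x (hr₁c.trans hx) i j).2.2.1, (hD x (hr₁c.trans hx) i j).2.2.2.1⟩
  have hpt : ∀ x : E3, r₁ ≤ ‖x‖ →
      jlen g h x ≤ linR g x + (C' + 700 * C ^ 2) * (1 / ‖x‖ ^ 4) := by
    intro x hx
    have hx1 : 1 ≤ ‖x‖ := le_trans hr₁1 hx
    have hx0 : x ∈ U := hmem x hx
    have hs := hS g x (le_trans hr₁a hx)
      (by
        filter_upwards [hU.mem_nhds hx0] with y hy
        have h1 := (hg.posDef y hy).1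
        exact Matrix.isHermitian_iff_isSymm.1 h1)
      (fun i j => MCF.g_smooth hU hg hx0 i j)
      (fun i j => ⟨(hd1 x hx i j).1, (hd1 x hx i j).2.1, (hd1 x hx i j).2.2.1⟩)
    have h7 : jlen g h x ≤ energyDensity g h x := by
      have h8 := hdec x hx0
      unfold surplus at h8
      linarith
    exact MXJINT.point hC h7 (by linarith) (le_trans hr₁b hx) hs.1
      (hg.posDef x hx0).det_pos (fun i j => ⟨(hd1 x hx i j).1, (hd1 x hx i j).2.2.2⟩)
  have hpd : ∀ x : E3, r₁ ≤ ‖x‖ → ∀ i j k, |pd k (fun y => g y i j) x| ≤ C / ‖x‖ ^ 2 :=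
    fun x hx i j k => (hd1 x hx i j).2.1 k
  set σ := ((volume : Measure E3).toSphere).real Set.univ with hσ
  set J := ∫ x in {x : E3 | 1 ≤ ‖x‖}, 1 / ‖x‖ ^ 4 with hJ
  refine ⟨36 * C * σ + (C' + 700 * C ^ 2) * J, r₁, by linarith, hr₁1, ?_⟩
  intro b hb
  have hsub : cAnn r₁ b ⊆ {x : E3 | 1 ≤ ‖x‖} := fun x hx => le_trans hr₁1 hx.1
  have hin : ∀ x ∈ cAnn r₁ b, x ∈ U := fun x hx => hsubU r₁ b le_rfl hx
  have h4 : IntegrableOn (fun x : E3 => 1 / ‖x‖ ^ 4) (cAnn r₁ b) := int_inv4.mono_set hsub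
  have h1 : ∫ x in cAnn r₁ b, jlen g h x ≤
      ∫ x in cAnn r₁ b, (linR g x + (C' + 700 * C ^ 2) * (1 / ‖x‖ ^ 4)) :=
    setIntegral_mono_on (hjint r₁ b le_rfl) ((hlint r₁ b le_rfl).add (h4.const_mul _))
      (isClosed_cAnn r₁ b).measurableSet fun x hx => hpt x hx.1
  have h2 : ∫ x in cAnn r₁ b, (linR g x + (C' + 700 * C ^ 2) * (1 / ‖x‖ ^ 4)) =
      (∫ x in cAnn r₁ b, linR g x) + (C' + 700 * C ^ 2) * ∫ x in cAnn r₁ b, 1 / ‖x‖ ^ 4 := by
    rw [integral_add (hlint r₁ b le_rfl) (h4.const_mul _), integral_const_mul]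
  have h3 : ∫ x in cAnn r₁ b, 1 / ‖x‖ ^ 4 ≤ J :=
    setIntegral_mono_set int_inv4 (Eventually.of_forall fun x => by positivity)
      (LE.le.eventuallyLE hsub)
  have h5 : ∫ x in cAnn r₁ b, linR g x =
      ∫ x in cAnn r₁ b, ∑ i, pd i (fun y => MDIVA.VV g y i) x := by
    refine setIntegral_congr_fun (isClosed_cAnn r₁ b).measurableSet fun x hx => ?_
    exact (MDIVA.div_VV fun i j => MCF.g_smooth hU hg (hin x hx) i j).symm
  have h6 := DIVG (MDIVA.VV g) r₁ b hr₁0 hb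
    (fun x hx i => MDIVA.contDiffAt_VV
      (fun i j => MCF.g_smooth hU hg (hin x hx) i j) i)
  have h7 := abs_le.1 (RJINTAux.bdry hr₁0 hpd hb)
  have h8 := abs_le.1 (RJINTAux.bdry hr₁0 hpd le_rfl)
  have h9 : ∫ x in cAnn r₁ b, linR g x ≤ 36 * C * σ := by
    rw [h5, h6]
    linarith [h7.2, h8.1]
  have h10 : (C' + 700 * C ^ 2) * (∫ x in cAnn r₁ b, 1 / ‖x‖ ^ 4) ≤ (C' + 700 * C ^ 2) * J :=
    mul_le_mul_of_nonneg_left h3 (by positivity)
  rw [h2] at h1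
  linarith

end Pool.Agent.PFT
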