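import Pool.Agent.PFT.StmtsF
import Pool.Agent.PFlow.X.XTINT
import Pool.Agent.PFlow.E.HATA
import Pool.Agent.PFlow.E.DIVG
import Pool.Agent.PFlow.E.AFD

/-!
# RTINT: the trace divided by the radius is integrable, from a large radius on
-/

open MeasureTheory Filter Topology
open scoped ContDiff ENNReal

namespace Pool.Agent.PFT

open Pool.Agent.PenroseSph Pool.Agent.PFlow

namespace RTINTm

/-- The domain of the data. -/
theorem isOpen_far (r₀ : ℝ) : IsOpen {x : E3 | r₀ < ‖x‖} := isOpen_lt continuous_const continuous_norm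

theorem integrable_cAnn {a b : ℝ} {F : E3 → ℝ}
    (hF : ∀ x : E3, a ≤ ‖x‖ → ContinuousAt F x) : IntegrableOn F (cAnn a b) :=
  ContinuousOn.integrableOn_compact (EEtaAux.isCompact_cAnn a b)
    fun _ hx => (hF _ hx.1).continuousWithinAt

end RTINTm

open Pool.Agent.PFlow.TINTm (Hy abs_le_hat four int5 far VV) in
open Pool.Agent.PFlow.XTINTm (cd_tr cont_len cont_eEta VV_smooth cont_jlen ne_zero_of_one nsq_le) in
open RTINTm in
/-- RTINT: the trace divided by the radius is integrable from a large radius on. -/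
theorem t_RTINT (hRJINT : Stmt_RJINT) : Stmt_RTINT := by
  intro g h r₀ hr₀ hg hh hDec hsur hPS hFS
  obtain ⟨C₀, R₀, hdec⟩ := hDec
  obtain ⟨CJ, rJ, hrJ, hrJ1, hCJ⟩ := hRJINT g h r₀ hr₀ hg hh ⟨C₀, R₀, hdec⟩ hsur
  obtain ⟨K₄, hK₄0, hK₄⟩ := four
  obtain ⟨δ₀, R, hδ₀, hfar⟩ := hFS
  set C := max C₀ 2 with hC
  have hC2 : 2 ≤ C := le_max_right _ _
  have hC1 : 1 ≤ C := by linarith
  have hCC : C₀ ≤ C := le_max_left _ _
  set δ := min δ₀ 1 with hδ
  have hδ0 : 0 < δ := lt_min hδ₀ one_pos
  have hδ1 : δ ≤ 1 := min_le_right _ _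
  have hδδ : δ ≤ δ₀ := min_le_left _ _
  set a := max (max R R₀) (max rJ (6 * C)) with ha
  have haR : R ≤ a := (le_max_left _ _).trans (le_max_left _ _)
  have haR₀ : R₀ ≤ a := (le_max_right _ _).trans (le_max_left _ _)
  have haJ : rJ ≤ a := (le_max_left _ _).trans (le_max_right _ _)
  have ha6 : 6 * C ≤ a := (le_max_right _ _).trans (le_max_right _ _)
  have ha1 : 1 ≤ a := hrJ1.trans haJ
  have har : r₀ < a := hrJ.trans_le haJ
  have ha0 : 0 < a := by linarith
  have ho : IsOpen {x : E3 | r₀ < ‖x‖} := isOpen_far r₀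
  have mem_out : ∀ {x : E3}, a ≤ ‖x‖ → x ∈ {x : E3 | r₀ < ‖x‖} := fun {x} hx => har.trans_le hx
  have hell : ∀ x : E3, a ≤ ‖x‖ → ∀ v : Cov,
      (∑ i, v i ^ 2) ≤ C * ev (g x) v v ∧ ev (g x) v v ≤ C * ∑ i, v i ^ 2 := by
    intro x hx v
    have hn : 0 < ‖x‖ := by linarith
    have hle : C₀ / ‖x‖ ≤ 1 / 6 := by
      rw [div_le_iff₀ hn]
      linarith
    obtain ⟨h1, h2⟩ := AFDaux.ev_near_one hle (fun i j => (hdec x (haR₀.trans hx) i j).1) v
    have h3 : 0 ≤ ∑ i, v i ^ 2 := Finset.sum_nonneg fun i _ => sq_nonneg _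
    have h4 : 0 ≤ ev (g x) v v := by linarith
    constructor
    · nlinarith
    · nlinarith
  -- the bounds at a point
  have hHy : ∀ x : E3, a ≤ ‖x‖ → Hy C (1 / ‖x‖) g h x := by
    intro x hxa
    have hx : 1 ≤ ‖x‖ := ha1.trans hxa
    have hx0 : x ≠ 0 := by
      rintro rfl
      rw [norm_zero] at hx
      linarith
    have hn : 0 < ‖x‖ := by linarith
    have hx' : x ∈ {x : E3 | r₀ < ‖x‖} := mem_out hxa
    have hd := hdec x (haR₀.trans hxa)
    refine ⟨hC1, by positivity, ?_, MJD.pt_of ho hg hx', fun i j =>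
      ((hh.smooth i j).contDiffAt (ho.mem_nhds hx')).differentiableAt (by norm_num), ?_, ?_, ?_,
      ?_, ?_⟩
    · rw [div_le_one hn]; exact hx
    · intro i j
      refine (hd i j).1.trans ?_
      rw [mul_one_div]
      exact div_le_div_of_nonneg_right hCC hn.le
    · intro k i j
      refine ((hd i j).2.1 k).trans ?_
      rw [div_pow, one_pow, mul_one_div]
      exact div_le_div_of_nonneg_right hCC (by positivity)
    · intro i j
      refine ((hd i j).2.2.2.1).trans ?_
      rw [div_pow, one_pow, mul_one_div]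
      exact div_le_div_of_nonneg_right hCC (by positivity)
    · intro k i j
      refine ((hd i j).2.2.2.2 k).trans ?_
      rw [div_pow, one_pow, mul_one_div]
      exact div_le_div_of_nonneg_right hCC (by positivity)
    · intro i j
      exact (EShell.inv_entry (hg.posDef x hx') (fun v => (hell x hxa v).1) i j)
  -- the pointwise inequality
  have hpt : ∀ η : ℝ, 0 < η → ∀ x : E3, a ≤ ‖x‖ →
      δ * (hatF η (trg g x (h x)) * trg g x (h x) * (1 / ‖x‖)) ≤
        18 * C * jlen g h x + 351 * C ^ 2 * eEta η g h x + 3699 * C ^ 5 * (1 / ‖x‖) ^ 4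
          - ∑ i, pd i (fun y => VV η g h y i) x := by
    intro η hη x hx
    have hx1 : 1 ≤ ‖x‖ := ha1.trans hx
    have hx0 : x ≠ 0 := by
      rintro rfl
      rw [norm_zero] at hx1
      linarith
    have hx' : x ∈ {x : E3 | r₀ < ‖x‖} := mem_out hx
    have hH := hHy x hx
    obtain ⟨hf1, hf2⟩ := hfar x (haR.trans hx)
    have hev : 0 ≤ ev (g x) (fun i => x i) (fun i => x i) := by
      have h1 := (hell x hx (fun i => x i)).1
      have h2 : 0 ≤ ∑ i, (x i) ^ 2 := Finset.sum_nonneg fun i _ => sq_nonneg _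
      by_contra hc
      rw [not_le] at hc
      nlinarith
    have := hH.point (hg.posDef x hx') hx0 (nsq_le HATA hg hh hx' (hPS x hx')) hη hδ0.le hδ1 rfl
      (far hx0 hη hδδ hev hf1 hf2)
    linarith
  -- the area of the unit sphere
  set A := ((volume : Measure E3).toSphere).real Set.univ with hA
  have hA0 : 0 ≤ A := measureReal_nonneg
  -- boundary terms
  have hbd : ∀ η : ℝ, 0 < η → ∀ b : ℝ, a ≤ b →
      |∫ θ : Metric.sphere (0 : E3) 1, (∑ i, VV η g h (b • (θ : E3)) i * (θ : E3) i) * b ^ 2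
        ∂((volume : Measure E3).toSphere)| ≤ 171 * C ^ 3 * A := by
    intro η hη b hb
    rw [← Real.norm_eq_abs]
    refine norm_integral_le_of_norm_le_const (Eventually.of_forall fun θ => ?_)
    have hb0 : 0 < b := by linarith
    have hθ : ‖(θ : E3)‖ = 1 := mem_sphere_zero_iff_norm.1 θ.2
    have hθ0 : (θ : E3) ≠ 0 := by
      intro hc
      rw [hc, norm_zero] at hθ
      linarith
    have hnb : ‖b • (θ : E3)‖ = b := by
      rw [norm_smul, hθ, mul_one, Real.norm_of_nonneg hb0.le]
    have hne : b • (θ : E3) ≠ 0 := smul_ne_zero hb0.ne' hθ0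
    have hH := hHy (b • (θ : E3)) (by rw [hnb]; exact hb)
    rw [hnb] at hH
    have hθi : ∀ i, |(θ : E3) i| ≤ 1 := by
      intro i
      have := BARBm.n_le (BARBm.nu_sq hθ0) i
      unfold BARBm.nu at this
      rwa [hθ, div_one] at this
    rw [Real.norm_eq_abs]
    refine (BARBm.mul_le (BARBm.sum1_le fun i => BARBm.mul_le (hH.VV_le hne hη i) (hθi i))
      (le_refl |b ^ 2|)).trans (le_of_eq ?_)
    rw [abs_of_nonneg (by positivity : 0 ≤ b ^ 2)]
    field_simp
    norm_num
  -- the constant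
  set K := 18 * C * |CJ| + 3699 * C ^ 5 * K₄ + 342 * C ^ 3 * A with hK
  -- the integral inequality for fixed `η`
  have hint : ∀ b : ℝ, a ≤ b → ∀ η : ℝ, 0 < η →
      δ * ∫ x in cAnn a b, |trg g x (h x)| / ‖x‖ ≤
        K + 351 * C ^ 2 * (∫ x in cAnn a b, eEta η g h x) + η * (volume (cAnn a b)).toReal := by
    intro b hab η hη
    have hKc := EEtaAux.isCompact_cAnn a b
    have hms := hKc.measurableSet
    have hVc : ∀ i, ∀ x : E3, a ≤ ‖x‖ → ContinuousAt (pd i (fun y => VV η g h y i)) x :=
      fun i x hx => EEtaAux.cont_pd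
        (VV_smooth ho hg hh (mem_out hx) (ne_zero_of_one (ha1.trans hx)) hη i) i
    have i1 : IntegrableOn (fun x => jlen g h x) (cAnn a b) :=
      integrable_cAnn fun x hx => cont_jlen ho hg hh (mem_out hx)
    have i2 : IntegrableOn (fun x => eEta η g h x) (cAnn a b) :=
      integrable_cAnn fun x hx => cont_eEta ho hg hh hη (mem_out hx)
    have i3 : IntegrableOn (fun x : E3 => (1 / ‖x‖) ^ 4) (cAnn a b) :=
      integrable_cAnn fun x hx =>
        ((continuousAt_const.div continuousAt_id.norm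
          (norm_ne_zero_iff.2 (ne_zero_of_one (ha1.trans hx)))).pow 4)
    have i4 : IntegrableOn (fun x => ∑ i, pd i (fun y => VV η g h y i) x) (cAnn a b) :=
      integrable_cAnn fun x hx => tendsto_finsetSum _ fun i _ => hVc i x hx
    have i5 : IntegrableOn (fun x => |trg g x (h x)| / ‖x‖) (cAnn a b) :=
      integrable_cAnn fun x hx => (cd_tr ho hg hh (mem_out hx)).continuousAt.abs.div
        continuousAt_id.norm (norm_ne_zero_iff.2 (ne_zero_of_one (ha1.trans hx)))
    have i6 : IntegrableOn (fun _ : E3 => η) (cAnn a b) := by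
      exact integrableOn_const hKc.measure_lt_top.ne
    have h1 : ∫ x in cAnn a b, δ * (|trg g x (h x)| / ‖x‖) ≤
        ∫ x in cAnn a b, (18 * C * jlen g h x + 351 * C ^ 2 * eEta η g h x
          + 3699 * C ^ 5 * (1 / ‖x‖) ^ 4 - ∑ i, pd i (fun y => VV η g h y i) x + η) := by
      refine setIntegral_mono_on (i5.const_mul δ) (((((i1.const_mul _).add (i2.const_mul _)).add
        (i3.const_mul _)).sub i4).add i6) hms fun x hx => ?_
      have h2 := hpt η hη x hx.1
      have h3 := abs_le_hat hη (trg g x (h x))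
      have hx1 : 1 ≤ ‖x‖ := ha1.trans hx.1
      have h4 : |trg g x (h x)| / ‖x‖ ≤
          hatF η (trg g x (h x)) * trg g x (h x) * (1 / ‖x‖) + η := by
        have h5 : |trg g x (h x)| / ‖x‖ ≤ (hatF η (trg g x (h x)) * trg g x (h x) + η) / ‖x‖ :=
          div_le_div_of_nonneg_right h3 (by positivity)
        have h6 : η / ‖x‖ ≤ η := div_le_self hη.le hx1
        have h7 : (hatF η (trg g x (h x)) * trg g x (h x) + η) / ‖x‖ =
          hatF η (trg g x (h x)) * trg g x (h x) * (1 / ‖x‖) + η / ‖x‖ := by ring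
        linarith
      have h8 := mul_le_mul_of_nonneg_left h4 hδ0.le
      have h9 : δ * η ≤ η := by nlinarith
      have h10 : δ * (hatF η (trg g x (h x)) * trg g x (h x) * (1 / ‖x‖) + η) =
        δ * (hatF η (trg g x (h x)) * trg g x (h x) * (1 / ‖x‖)) + δ * η := by ring
      linarith
    have e1 : ∫ x in cAnn a b, (18 * C * jlen g h x + 351 * C ^ 2 * eEta η g h x
          + 3699 * C ^ 5 * (1 / ‖x‖) ^ 4 - ∑ i, pd i (fun y => VV η g h y i) x + η) =
        18 * C * (∫ x in cAnn a b, jlen g h x) + 351 * C ^ 2 * (∫ x in cAnn a b, eEta η g h x)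
          + 3699 * C ^ 5 * (∫ x in cAnn a b, (1 / ‖x‖) ^ 4)
          - (∫ x in cAnn a b, ∑ i, pd i (fun y => VV η g h y i) x)
          + η * (volume (cAnn a b)).toReal := by
      rw [int5 _ _ _ η i1 i2 i3 i4 i6, setIntegral_const, smul_eq_mul, mul_comm _ η]
      rfl
    rw [integral_const_mul, e1] at h1
    -- the divergence
    have h2 := DIVG (VV η g h) a b ha0 hab fun x hx i =>
      (VV_smooth ho hg hh (mem_out hx.1) (ne_zero_of_one (ha1.trans hx.1)) hη
        i).of_le (by norm_num)
    have h3 := abs_le.1 (hbd η hη b hab)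
    have h4 := abs_le.1 (hbd η hη a le_rfl)
    have h5 : -(∫ x in cAnn a b, ∑ i, pd i (fun y => VV η g h y i) x) ≤ 342 * C ^ 3 * A := by
      rw [h2]
      linarith [h3.1, h4.2]
    -- the momentum density
    have h6 : ∫ x in cAnn a b, jlen g h x ≤ |CJ| := by
      refine le_trans ?_ ((hCJ b (haJ.trans hab)).trans (le_abs_self _))
      refine setIntegral_mono_set ?_ ?_ ?_
      · exact integrable_cAnn fun x hx => cont_jlen ho hg hh
          (show x ∈ {x : E3 | r₀ < ‖x‖} from hrJ.trans_le hx)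
      · exact Eventually.of_forall fun x => Real.sqrt_nonneg _
      · exact LE.le.eventuallyLE fun x hx => ⟨haJ.trans hx.1, hx.2⟩
    have h7 := hK₄ b a ha1
    have h8 := mul_le_mul_of_nonneg_left h6 (by positivity : 0 ≤ 18 * C)
    have h9 := mul_le_mul_of_nonneg_left h7 (by positivity : 0 ≤ 3699 * C ^ 5)
    rw [hK]
    linarith
  -- the limit `η → 0`
  have hbnd : ∀ b : ℝ, a ≤ b → ∫ x in cAnn a b, |trg g x (h x)| / ‖x‖ ≤ K / δ := by
    intro b hab
    have hKc := EEtaAux.isCompact_cAnn a b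
    have hcont : ContinuousOn (fun y => len g y (grad (fun z => trg g z (h z)) y)) (cAnn a b) :=
      fun x hx => (cont_len ho hg hh (mem_out hx.1)).continuousWithinAt
    obtain ⟨B, hB⟩ := hKc.exists_bound_of_continuousOn hcont
    have hlim : Tendsto (fun n : ℕ => ∫ x in cAnn a b, eEta (1 / ((n : ℝ) + 1)) g h x)
        atTop (𝓝 (∫ x in cAnn a b, (0 : ℝ))) := by
      refine tendsto_integral_of_dominated_convergence (fun _ => (1 / 2 + 2 * |B|)) ?_ ?_ ?_ ?_
      · intro n
        have h1 : (0 : ℝ) < 1 / ((n : ℝ) + 1) := by positivity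
        exact (integrable_cAnn fun x hx =>
          cont_eEta ho hg hh h1 (mem_out hx)).aestronglyMeasurable
      · have : IntegrableOn (fun _ : E3 => (1 / 2 + 2 * |B|)) (cAnn a b) volume :=
          integrableOn_const hKc.measure_lt_top.ne
        exact this
      · intro n
        rw [ae_restrict_iff' hKc.measurableSet]
        refine Eventually.of_forall fun x hx => ?_
        have h1 : (0 : ℝ) < 1 / ((n : ℝ) + 1) := by positivity
        have h2 : 1 / ((n : ℝ) + 1) ≤ 1 := by
          rw [div_le_one (by positivity)]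
          have : (0 : ℝ) ≤ n := Nat.cast_nonneg n
          linarith
        have h3 := EEtaAux.eEta_le (g := g) (h := h) h1 h2 x
        have h4 := hB x hx
        rw [Real.norm_eq_abs] at h4
        rw [Real.norm_eq_abs, abs_of_nonneg (EEtaAux.eEta_nonneg _ x)]
        have h5 := (le_abs_self _).trans (h4.trans (le_abs_self B))
        linarith
      · exact Eventually.of_forall fun x => EEtaAux.tendsto_eEta x
    rw [integral_zero] at hlim
    have h0 : Tendsto (fun n : ℕ => 1 / ((n : ℝ) + 1)) atTop (𝓝 0) :=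
      tendsto_one_div_add_atTop_nhds_zero_nat
    have hlim2 : Tendsto (fun n : ℕ => K
        + 351 * C ^ 2 * (∫ x in cAnn a b, eEta (1 / ((n : ℝ) + 1)) g h x)
        + 1 / ((n : ℝ) + 1) * (volume (cAnn a b)).toReal) atTop
        (𝓝 (K + 351 * C ^ 2 * 0 + 0 * (volume (cAnn a b)).toReal)) :=
      (tendsto_const_nhds.add (hlim.const_mul _)).add (h0.mul_const _)
    have h1 := ge_of_tendsto' hlim2 fun n => hint b hab _ (by positivity)
    rw [le_div_iff₀ hδ0]
    linarith
  -- integrability
  have hcont : ∀ x : E3, a ≤ ‖x‖ → ContinuousAt (fun x => |trg g x (h x)| / ‖x‖) x :=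
    fun x hx => (cd_tr ho hg hh (mem_out hx)).continuousAt.abs.div
        continuousAt_id.norm (norm_ne_zero_iff.2 (ne_zero_of_one (ha1.trans hx)))
  have hI : IntegrableOn (fun x => |trg g x (h x)| / ‖x‖) {x : E3 | a ≤ ‖x‖} := by
    have hcov : AECover (volume.restrict {x : E3 | a ≤ ‖x‖}) atTop
        (fun n : ℕ => Metric.closedBall (0 : E3) (n : ℝ)) :=
      aecover_closedBall tendsto_natCast_atTop_atTop
    have hset : ∀ n : ℕ, Metric.closedBall (0 : E3) (n : ℝ) ∩ {x : E3 | a ≤ ‖x‖} =
        cAnn a n := by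
      intro n
      ext x
      simp only [cAnn, Set.mem_inter_iff, Metric.mem_closedBall, dist_zero_right]
      exact and_comm
    have hres : ∀ n : ℕ, (volume.restrict {x : E3 | a ≤ ‖x‖}).restrict
        (Metric.closedBall (0 : E3) (n : ℝ)) = volume.restrict (cAnn a n) := by
      intro n
      rw [Measure.restrict_restrict Metric.isClosed_closedBall.measurableSet, hset]
    refine hcov.integrable_of_integral_bounded_of_nonneg_ae (K / δ) ?_ ?_ ?_
    · intro n
      unfold IntegrableOn
      rw [hres]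
      exact integrable_cAnn hcont
    · exact Eventually.of_forall fun x => by positivity
    · filter_upwards [eventually_ge_atTop ⌈a⌉₊] with n hn
      rw [hres]
      exact hbnd n ((Nat.le_ceil a).trans (by exact_mod_cast hn))
  exact ⟨a, har, ha1, hI⟩

end Pool.Agent.PFT
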