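import Pool.Agent.PFT.StmtsF
import Pool.Agent.PFlow.E.TRD

/-!
# RTRD: competitors in the trace-dominated case
-/

open MeasureTheory Filter Topology
open scoped ContDiff ENNReal

namespace Pool.Agent.PFT

open Pool.Agent.PenroseSph Pool.Agent.PFlow

namespace RTRD

open TRDm

open BARBm in
/-- The decay of `(tr h / 3) g`, for data on an open set containing `|x| ≥ R`. -/
theorem decay_loc {g h : TensorField} {C R : ℝ} {U : Set E3} (hU : IsOpen U)
    (hsub : ∀ x : E3, R ≤ ‖x‖ → x ∈ U) (hR : 1 ≤ R) (hg : MetricOn U g) (hh : TensorOn U h)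
    (hC : 0 < C) (hd : DecayFrom C R g h)
    (he : ∀ x : E3, R ≤ ‖x‖ → ∀ v : Cov, (∑ i, v i ^ 2) ≤ C * ev (g x) v v) :
    ∃ C' : ℝ, DecayFrom C' R g (traceTensor g h) := by
  refine ⟨C + 3 * C ^ 2 * (1 + C) + 3 * C * (C + 27 * C ^ 3) * (1 + C) + 3 * C ^ 3, ?_⟩
  set K : ℝ := C + 3 * C ^ 2 * (1 + C) + 3 * C * (C + 27 * C ^ 3) * (1 + C) + 3 * C ^ 3 with hK
  have hKC : C ≤ K := by
    have : 0 ≤ 3 * C ^ 2 * (1 + C) + 3 * C * (C + 27 * C ^ 3) * (1 + C) + 3 * C ^ 3 := by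
      positivity
    linarith
  intro x hx i j
  have hxU : x ∈ U := hsub x hx
  have hU' : U ∈ 𝓝 x := hU.mem_nhds hxU
  have hp : MJD.Pt g x := MJD.pt_of hU hg hxU
  have hr : 0 < ‖x‖ := by linarith
  obtain ⟨a, ha⟩ : ∃ a : ℝ, a = ‖x‖⁻¹ := ⟨_, rfl⟩
  have ha0 : 0 < a := by rw [ha]; positivity
  have ha1 : a ≤ 1 := by rw [ha]; exact inv_le_one_of_one_le₀ (hR.trans hx)
  have hd' := fun i j => hd x hx i j
  have e1 : ∀ M : ℝ, M / ‖x‖ = M * a := fun M => by rw [ha, div_eq_mul_inv]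
  have e2 : ∀ M : ℝ, M / ‖x‖ ^ 2 = M * a ^ 2 := fun M => by rw [ha, div_eq_mul_inv, inv_pow]
  have e3 : ∀ M : ℝ, M / ‖x‖ ^ 3 = M * a ^ 3 := fun M => by rw [ha, div_eq_mul_inv, inv_pow]
  simp only [e1, e2, e3] at hd' ⊢
  have hinv : ∀ i j, |(g x)⁻¹ i j| ≤ C := fun i j =>
    EShell.inv_entry (hg.posDef x hxU) (he x hx) i j
  have hgb : ∀ i j, |g x i j| ≤ 1 + C := by
    intro i j
    have h1 := (hd' i j).1
    have h2 : |(1 : Bil) i j| ≤ 1 := by
      rw [Matrix.one_apply]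
      split_ifs <;> simp
    have h3 : g x i j = (1 : Bil) i j + (g x i j - (1 : Bil) i j) := by ring
    rw [h3]
    refine (add_le h2 h1).trans ?_
    have : C * a ≤ C * 1 := mul_le_mul_of_nonneg_left ha1 hC.le
    linarith
  have hdg : ∀ k i j, |pd k (fun y => g y i j) x| ≤ C * a ^ 2 := fun k i j => (hd' i j).2.1 k
  have hhb : ∀ i j, |h x i j| ≤ C * a ^ 2 := fun i j => (hd' i j).2.2.2.1
  have hdh : ∀ k i j, |pd k (fun y => h y i j) x| ≤ C * a ^ 3 := fun k i j => (hd' i j).2.2.2.2 k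
  have hhd : ∀ i j, DifferentiableAt ℝ (fun y => h y i j) x := fun i j =>
    ((hh.smooth i j).contDiffAt hU').differentiableAt (by simp)
  have htd : DifferentiableAt ℝ (fun y => trg g y (h y)) x := MJD.diffTr hp h hhd
  have ht : |trg g x (h x)| ≤ 9 * (C * (C * a ^ 2)) :=
    sum2_le fun i j => mul_le (hinv i j) (hhb i j)
  have ha4 : a ^ 4 ≤ a ^ 3 := by
    calc a ^ 4 = a ^ 3 * a := by ring
      _ ≤ a ^ 3 * 1 := mul_le_mul_of_nonneg_left ha1 (by positivity)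
      _ = a ^ 3 := by ring
  have hdt : ∀ k, |pd k (fun y => trg g y (h y)) x| ≤ 9 * C * (C + 27 * C ^ 3) * a ^ 3 := by
    intro k
    refine (pd_tr_le hp hhd hinv hdg hhb hdh k).trans ?_
    have h1 : 27 * C ^ 3 * a ^ 4 ≤ 27 * C ^ 3 * a ^ 3 :=
      mul_le_mul_of_nonneg_left ha4 (by positivity)
    calc 9 * (C * (C * a ^ 3 + 27 * (C * (C * a ^ 2) * (C * a ^ 2))))
        = 9 * C * (C * a ^ 3 + 27 * C ^ 3 * a ^ 4) := by ring
      _ ≤ 9 * C * (C * a ^ 3 + 27 * C ^ 3 * a ^ 3) := by gcongr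
      _ = 9 * C * (C + 27 * C ^ 3) * a ^ 3 := by ring
  refine ⟨(hd' i j).1.trans (by gcongr), fun k => ((hd' i j).2.1 k).trans (by gcongr),
    fun k l => ((hd' i j).2.2.1 k l).trans (by gcongr), ?_, fun k => ?_⟩
  · rw [tt_apply]
    have h1 : |trg g x (h x) / 3| ≤ 3 * C ^ 2 * a ^ 2 := by
      rw [abs_div, abs_of_pos (by norm_num : (0 : ℝ) < 3), div_le_iff₀ (by norm_num)]
      refine ht.trans (le_of_eq ?_)
      ring
    refine (mul_le h1 (hgb i j)).trans ?_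
    have h2 : 3 * C ^ 2 * (1 + C) ≤ K := by
      have : 0 ≤ C + 3 * C * (C + 27 * C ^ 3) * (1 + C) + 3 * C ^ 3 := by positivity
      linarith
    calc 3 * C ^ 2 * a ^ 2 * (1 + C) = 3 * C ^ 2 * (1 + C) * a ^ 2 := by ring
      _ ≤ K * a ^ 2 := by gcongr
  · rw [pd_tt hp.diff htd]
    have h1 : |trg g x (h x) / 3| ≤ 3 * C ^ 2 * a ^ 2 := by
      rw [abs_div, abs_of_pos (by norm_num : (0 : ℝ) < 3), div_le_iff₀ (by norm_num)]
      refine ht.trans (le_of_eq ?_)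
      ring
    have h2 : |pd k (fun y => trg g y (h y)) x / 3| ≤ 3 * C * (C + 27 * C ^ 3) * a ^ 3 := by
      rw [abs_div, abs_of_pos (by norm_num : (0 : ℝ) < 3), div_le_iff₀ (by norm_num)]
      refine (hdt k).trans (le_of_eq ?_)
      ring
    refine (add_le (mul_le h1 (hdg k i j)) (mul_le h2 (hgb i j))).trans ?_
    have h3 : 3 * C ^ 3 * a ^ 4 ≤ 3 * C ^ 3 * a ^ 3 :=
      mul_le_mul_of_nonneg_left ha4 (by positivity)
    have h4 : 3 * C ^ 3 + 3 * C * (C + 27 * C ^ 3) * (1 + C) ≤ K := by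
      have : 0 ≤ C + 3 * C ^ 2 * (1 + C) := by positivity
      linarith
    calc 3 * C ^ 2 * a ^ 2 * (C * a ^ 2) + 3 * C * (C + 27 * C ^ 3) * a ^ 3 * (1 + C)
        = 3 * C ^ 3 * a ^ 4 + 3 * C * (C + 27 * C ^ 3) * (1 + C) * a ^ 3 := by ring
      _ ≤ 3 * C ^ 3 * a ^ 3 + 3 * C * (C + 27 * C ^ 3) * (1 + C) * a ^ 3 := by linarith
      _ = (3 * C ^ 3 + 3 * C * (C + 27 * C ^ 3) * (1 + C)) * a ^ 3 := by ring
      _ ≤ K * a ^ 3 := by gcongr

/-- The decay of `(tr h / 3) g` at an end. -/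
theorem far_tt {g h : TensorField} {R₀ : ℝ} {U : Set E3} (hU : IsOpen U)
    (hsub : ∀ x : E3, R₀ ≤ ‖x‖ → x ∈ U) (hg : MetricOn U g) (hh : TensorOn U h)
    (hd : ∃ C R : ℝ, DecayFrom C R g h) :
    ∃ C R : ℝ, R₀ ≤ R ∧ DecayFrom C R g (traceTensor g h) := by
  obtain ⟨C, R, hd⟩ := hd
  obtain ⟨C₁, hC₁⟩ : ∃ C₁ : ℝ, C₁ = |C| + 2 := ⟨_, rfl⟩
  obtain ⟨R₁, hR₁⟩ : ∃ R₁ : ℝ, R₁ = max R (max R₀ (max 1 (6 * C₁))) := ⟨_, rfl⟩
  have hR1 : R ≤ R₁ := by rw [hR₁]; exact le_max_left _ _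
  have hR0 : R₀ ≤ R₁ := by
    rw [hR₁]; exact (le_max_left _ _).trans (le_max_right _ _)
  have hR2 : 1 ≤ R₁ := by
    rw [hR₁]
    exact (le_max_left _ _).trans ((le_max_right _ _).trans (le_max_right _ _))
  have hR6 : 6 * C₁ ≤ R₁ := by
    rw [hR₁]
    exact (le_max_right _ _).trans ((le_max_right _ _).trans (le_max_right _ _))
  have hCC : C ≤ C₁ := by
    rw [hC₁]
    linarith [le_abs_self C]
  have hCp : 2 ≤ C₁ := by
    rw [hC₁]
    linarith [abs_nonneg C]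
  have hd1 : DecayFrom C R₁ g h := fun x hx => hd x (hR1.trans hx)
  have hd2 : DecayFrom C₁ R₁ g h := AFDaux.decay_mono hd1 (by linarith) hCC
  have he : ∀ x : E3, R₁ ≤ ‖x‖ → ∀ v : Cov, (∑ i, v i ^ 2) ≤ C₁ * ev (g x) v v := by
    intro x hx v
    have hxp : 0 < ‖x‖ := by linarith
    have hδ : C₁ / ‖x‖ ≤ 1 / 6 := by
      rw [div_le_iff₀ hxp]
      linarith
    obtain ⟨h1, -⟩ := AFDaux.ev_near_one hδ (fun i j => (hd2 x hx i j).1) v
    have hn : 0 ≤ ∑ i, v i ^ 2 := Finset.sum_nonneg fun i _ => sq_nonneg _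
    have hev : 0 ≤ ev (g x) v v := by linarith
    nlinarith
  obtain ⟨C', hC'⟩ := decay_loc hU (fun x hx => hsub x (hR0.trans hx)) hR2 hg hh
    (by linarith) hd2 he
  exact ⟨C', R₁, hR0, hC'⟩

/-- The other points of `P` are at a positive distance. -/
theorem sep (P : Finset E3) (p : E3) :
    ∃ a : ℝ, 0 < a ∧ ∀ z : E3, z ≠ 0 → ‖z‖ < a → z + p ∉ P := by
  have hfin : ((P.erase p : Finset E3) : Set E3).Finite := (P.erase p).finite_toSet
  have hp : p ∈ ((((P.erase p : Finset E3) : Set E3))ᶜ : Set E3) := by simp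
  obtain ⟨a, ha, hball⟩ := Metric.isOpen_iff.1 hfin.isClosed.isOpen_compl p hp
  refine ⟨a, ha, fun z hz hza hmem => ?_⟩
  have h1 : z + p ∈ Metric.ball p a := by
    rw [Metric.mem_ball, dist_eq_norm]
    simpa using hza
  have h2 := hball h1
  apply h2
  have h3 : z + p ≠ p := by simpa using hz
  simp [h3, hmem]

/-- `P` is bounded. -/
theorem bdd (P : Finset E3) : ∃ b : ℝ, 1 ≤ b ∧ ∀ x : E3, b ≤ ‖x‖ → x ∉ P := by
  refine ⟨1 + ∑ q ∈ P, ‖q‖, ?_, fun x hx hmem => ?_⟩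
  · have : 0 ≤ ∑ q ∈ P, ‖q‖ := Finset.sum_nonneg fun q _ => norm_nonneg q
    linarith
  · have : ‖x‖ ≤ ∑ q ∈ P, ‖q‖ :=
      Finset.single_le_sum (f := fun q : E3 => ‖q‖) (fun q _ => norm_nonneg q) hmem
    linarith

theorem far_ne {a : ℝ} {y : E3} (ha : 0 < a) (hy : a⁻¹ < ‖y‖) :
    y ≠ 0 ∧ inversion y ≠ 0 ∧ ‖inversion y‖ < a := by
  have h0 : 0 < ‖y‖ := (inv_pos.2 ha).trans hy
  have hy0 : y ≠ 0 := norm_pos_iff.1 h0
  refine ⟨hy0, HSM2.inversion_ne y hy0, ?_⟩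
  rw [HSM2.norm_inversion y hy0]
  exact inv_lt_of_inv_lt₀ ha hy

theorem open_far (r : ℝ) : IsOpen {y : E3 | r < ‖y‖} := isOpen_lt continuous_const continuous_norm

/-- Smoothness of the inverted shifted field. -/
theorem inv_smooth {P : Finset E3} {p : E3} {a : ℝ} (ha : 0 < a)
    (hP : ∀ z : E3, z ≠ 0 → ‖z‖ < a → z + p ∉ P) {g : TensorField}
    (hg : ∀ i j, ContDiffOn ℝ ∞ (fun x => g x i j) ((P : Set E3))ᶜ) (i j : Fin 3) :
    ContDiffOn ℝ ∞ (fun x => inverted (shift p g) x i j) {y : E3 | a⁻¹ < ‖y‖} := by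
  have hsub : {y : E3 | a⁻¹ < ‖y‖} ⊆ ({0}ᶜ : Set E3) := by
    intro y hy
    exact (far_ne ha hy).1
  have h : (fun x => inverted (shift p g) x i j) = fun y =>
      ∑ b, (∑ a, inversionJac y a i * shift p g (inversion y) a b) * inversionJac y b j := by
    funext y; exact AFDaux.inverted_apply (shift p g) y i j
  rw [h]
  refine ContDiffOn.sum fun b _ => ContDiffOn.mul (ContDiffOn.sum fun c _ => ?_)
    ((AFDaux.contDiffOn_jac b j).mono hsub)
  refine ((AFDaux.contDiffOn_jac c i).mono hsub).mul ?_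
  have hI : ContDiffOn ℝ ∞ (fun y => inversion y + p) {y : E3 | a⁻¹ < ‖y‖} :=
    (AFDaux.contDiffOn_inversion.mono hsub).add contDiffOn_const
  refine (hg c b).comp hI ?_
  intro y hy
  obtain ⟨-, h2, h3⟩ := far_ne ha hy
  exact hP _ h2 h3

theorem inv_metric {P : Finset E3} {p : E3} {a : ℝ} (ha : 0 < a)
    (hP : ∀ z : E3, z ≠ 0 → ‖z‖ < a → z + p ∉ P) {g : TensorField}
    (hg : MetricOn ((P : Set E3))ᶜ g) : MetricOn {y : E3 | a⁻¹ < ‖y‖} (inverted (shift p g)) where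
  smooth := inv_smooth ha hP hg.smooth
  posDef := by
    intro y hy
    obtain ⟨h1, h2, h3⟩ := far_ne ha hy
    exact AFDaux.inverted_posDef h1 (hg.posDef _ (hP _ h2 h3))

theorem inv_tensor {P : Finset E3} {p : E3} {a : ℝ} (ha : 0 < a)
    (hP : ∀ z : E3, z ≠ 0 → ‖z‖ < a → z + p ∉ P) {h : TensorField}
    (hh : TensorOn ((P : Set E3))ᶜ h) :
    TensorOn {y : E3 | a⁻¹ < ‖y‖} (inverted (shift p h)) where
  smooth := inv_smooth ha hP hh.smooth
  symm := by
    intro y hy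
    obtain ⟨h1, h2, h3⟩ := far_ne ha hy
    have h4 : (shift p h (inversion y)).IsSymm := hh.symm _ (hP _ h2 h3)
    unfold Matrix.IsSymm at h4 ⊢
    simp only [inverted, Matrix.transpose_mul, Matrix.transpose_transpose, h4, Matrix.mul_assoc]

theorem cd_tr {U : Set E3} (hU : IsOpen U) {g h : TensorField} {x : E3} (hg : MetricOn U g)
    (hh : TensorOn U h) (hx : x ∈ U) : ContDiffAt ℝ ∞ (fun y => trg g y (h y)) x := by
  unfold trg
  refine ContDiffAt.sum fun i _ => ContDiffAt.sum fun j _ => ?_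
  refine (EEtaAux.contDiffAt_inv (fun i j => (hg.smooth i j).contDiffAt (hU.mem_nhds hx))
    (hg.posDef x hx).det_pos.ne' i j).mul ?_
  exact (hh.smooth i j).contDiffAt (hU.mem_nhds hx)

theorem decay_congr {g h h' : TensorField} {C R : ℝ} (hR : 0 < R) (hd : DecayFrom C R g h)
    (he : ∀ x : E3, x ≠ 0 → h' x = h x) : DecayFrom C R g h' := by
  intro x hx i j
  have hx0 : x ≠ 0 := by
    rintro rfl
    rw [norm_zero] at hx
    linarith
  obtain ⟨h1, h2, h3, h4, h5⟩ := hd x hx i j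
  refine ⟨h1, h2, h3, ?_, ?_⟩
  · rw [he x hx0]
    exact h4
  · intro k
    have h6 : (fun y => h' y i j) =ᶠ[𝓝 x] fun y => h y i j := by
      filter_upwards [isOpen_compl_singleton.mem_nhds hx0] with y hy
      rw [he y hy]
    unfold pd
    rw [h6.fderiv_eq]
    exact h5 k

end RTRD

open TRDm RTRD in
theorem t_RTRD : Stmt_RTRD := by
  intro P g h hS hdom
  have hU : IsOpen (((P : Set E3))ᶜ : Set E3) := P.finite_toSet.isClosed.isOpen_compl
  have hg := hS.metric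
  have hh := hS.tensor
  have hpt : ∀ x : E3, x ∉ P → MJD.Pt g x := fun x hx => MJD.pt_of hU hg hx
  have hev : ∀ x : E3, x ∉ P → ∀ v : Cov, 0 ≤ ev (g x) v v := by
    intro x hx v
    by_cases hv : v = 0
    · subst hv
      simp [ev]
    · exact (AFDaux.ev_posDef (hg.posDef x hx) hv).le
  obtain ⟨b, hb1, hb⟩ := bdd P
  constructor
  · constructor
    · intro i j
      have h1 : (fun x => traceTensor g h x i j) = fun x => trg g x (h x) / 3 * g x i j := by
        funext x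
        exact tt_apply g h x i j
      rw [h1]
      intro x hx
      have h2 : ContDiffAt ℝ ∞ (fun y => trg g y (h y)) x := RTRD.cd_tr hU hg hh hx
      exact ((h2.div_const (3 : ℝ)).contDiffWithinAt).mul (hg.smooth i j x hx)
    · intro x hx
      have h1 : (g x).IsSymm := (hpt x hx).symm.self_of_nhds
      unfold traceTensor
      exact h1.smul _
  · obtain ⟨C', R', -, hC'⟩ := far_tt hU (R₀ := b) (fun x hx => hb x hx) hg hh hS.infinity
    exact ⟨C', R', hC'⟩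
  · intro p hp
    obtain ⟨a, ha, hPa⟩ := sep P p
    obtain ⟨C', R', hR', hC'⟩ := far_tt (open_far a⁻¹) (R₀ := a⁻¹ + 1)
      (fun x hx => by
        show a⁻¹ < ‖x‖
        linarith) (inv_metric ha hPa hg) (inv_tensor ha hPa hh) (hS.points p hp)
    refine ⟨C', R', RTRD.decay_congr ?_ hC' fun x hx => ?_⟩
    · have := inv_pos.2 ha
      linarith
    · have h1 : shift p (traceTensor g h) = traceTensor (shift p g) (shift p h) := rfl
      rw [h1]
      exact inverted_tt (shift p g) (shift p h) hx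
  · intro x hx
    rw [trg_tt h (hpt x hx)]
    rcases le_total 0 (trg g x (h x)) with h0 | h0
    · left
      intro v hv
      rw [ev_tt, hv]
      linarith
    · right
      intro v hv
      rw [ev_tt, hv]
      linarith
  · left
    refine ⟨2 / 3, b, by norm_num, ?_⟩
    intro x hx
    have hx0 : x ∉ P := hb x hx
    rw [trg_tt h (hpt x hx0), ev_tt]
    have hE := hev x hx0 (fun i => x i)
    constructor
    · intro h0
      have := mul_nonneg h0 hE
      nlinarith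
    · intro h0
      have := mul_nonneg (neg_nonneg.2 h0) hE
      nlinarith
  · intro x hx
    have hp := hpt x hx
    have htd : DifferentiableAt ℝ (fun y => trg g y (h y)) x :=
      (RTRD.cd_tr hU hg hh hx).differentiableAt (by simp)
    have hev' : ∀ᶠ y in 𝓝 x, MJD.Pt g y := by
      filter_upwards [hU.mem_nhds hx] with y hy
      exact hpt y hy
    unfold required
    rw [nsq_tt h hp, trg_tt h hp, jlen_tt hp hev' htd]
    have h1 := hdom x hx
    linarith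

end Pool.Agent.PFT
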