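import Pool.Agent.PFT.StmtsCAP
import Pool.Agent.PFlow.E.SHELL
import Pool.Agent.PFlow.E.SCAL

/-!
# SB: the energy surplus near an end
-/

open MeasureTheory Filter Topology
open scoped ContDiff ENNReal

namespace Pool.Agent.PFT

open Pool.Agent.PenroseSph Pool.Agent.PFlow

namespace SBAux

open Pool.Agent.PFlow.MJD (Pt)
open Pool.Agent.PenroseConvex (CovR.contDiffAt_pd)
open Pool.Agent.PFlow.ESCAL (s3 p2 a2 m2 half D2 T T' chr_eq ricci_eq scal_eq)
open Pool.Agent.PFlow.EShell (inv_entry trg_le nsq_le ev_single ev_add)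

/-- The hypotheses on the metric at a point. -/
structure Hyp (g : TensorField) (x : E3) (a d e : ℝ) : Prop where
  pt : Pt g x
  smooth : ∀ i j, ContDiffAt ℝ ∞ (fun y => g y i j) x
  bA : ∀ i j, |(g x)⁻¹ i j| ≤ a
  b1 : ∀ k i j, |pd k (fun y => g y i j) x| ≤ d
  b2 : ∀ k l i j, |D2 g x k l i j| ≤ e

section

variable {g : TensorField} {x : E3} {a d e : ℝ} (h : Hyp g x a d e)

include h

lemma Hyp.diffPd (k i j : Fin 3) : DifferentiableAt ℝ (pd k fun y => g y i j) x :=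
  (CovR.contDiffAt_pd (n := 1) (h.smooth i j) (by norm_cast)
    k).differentiableAt (by norm_num)

lemma Hyp.diffT (i j l : Fin 3) : DifferentiableAt ℝ (T g i j l) x :=
  ((h.diffPd i j l).add (h.diffPd j i l)).sub (h.diffPd l i j)

lemma Hyp.pdT (m i j l : Fin 3) : pd m (T g i j l) x = T' g x m i j l := by
  have e : T g i j l = fun y => (pd i (fun y => g y j l) y + pd j (fun y => g y i l) y) -
      pd l (fun y => g y i j) y := rfl
  have h1 : DifferentiableAt ℝ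
      (fun y => pd i (fun y => g y j l) y + pd j (fun y => g y i l) y) x :=
    (h.diffPd i j l).add (h.diffPd j i l)
  rw [e, pd_sub h1 (h.diffPd l i j), pd_add (h.diffPd i j l) (h.diffPd j i l)]
  rfl

lemma Hyp.bT (i j l : Fin 3) : |T g i j l x| ≤ 3 * d := by
  have := m2 (a2 (h.b1 i j l) (h.b1 j i l)) (h.b1 l i j)
  unfold T
  linarith

lemma Hyp.bT' (m i j l : Fin 3) : |T' g x m i j l| ≤ 3 * e := by
  have := m2 (a2 (h.b2 m i j l) (h.b2 m j i l)) (h.b2 m l i j)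
  unfold T'
  linarith

lemma Hyp.bG (k i j : Fin 3) : |christoffel g k i j x| ≤ 9 / 2 * (a * d) := by
  rw [chr_eq]
  have h1 : ∀ l, |(g x)⁻¹ k l * T g i j l x| ≤ a * (3 * d) := fun l =>
    p2 (h.bA k l) (h.bT i j l)
  have := half (s3 h1)
  linarith

lemma Hyp.bA' (m k l : Fin 3) : |pd m (fun y => (g y)⁻¹ k l) x| ≤ 27 * (a ^ 2 * d) := by
  rw [h.pt.pd_inv, abs_neg]
  have h1 : ∀ b, |christoffel g k m b x * (g x)⁻¹ b l + christoffel g l m b x * (g x)⁻¹ k b| ≤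
      9 / 2 * (a * d) * a + 9 / 2 * (a * d) * a := fun b =>
    a2 (p2 (h.bG _ _ _) (h.bA _ _)) (p2 (h.bG _ _ _) (h.bA _ _))
  refine (s3 h1).trans (le_of_eq ?_)
  ring

lemma Hyp.pdG (m k i j : Fin 3) : pd m (christoffel g k i j) x =
    1 / 2 * ∑ l, ((g x)⁻¹ k l * T' g x m i j l + T g i j l x * pd m (fun y => (g y)⁻¹ k l) x) := by
  have e : christoffel g k i j = fun y => 1 / 2 * ∑ l, (g y)⁻¹ k l * T g i j l y := by
    funext y
    exact chr_eq k i j y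
  have hd : ∀ l, DifferentiableAt ℝ (fun y => (g y)⁻¹ k l * T g i j l y) x := fun l =>
    (h.pt.diffInv k l).mul (h.diffT i j l)
  rw [e, pd_const_mul _ (DifferentiableAt.fun_sum fun l _ => hd l), pd_sum _ _ fun l _ => hd l]
  congr 1
  refine Finset.sum_congr rfl fun l _ => ?_
  rw [pd_mul (h.pt.diffInv k l) (h.diffT i j l), h.pdT]

lemma Hyp.bG' (m k i j : Fin 3) : |pd m (christoffel g k i j) x| ≤
    9 / 2 * (a * e) + 243 / 2 * (a * d) ^ 2 := by
  rw [h.pdG]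
  have h1 : ∀ l, |(g x)⁻¹ k l * T' g x m i j l + T g i j l x * pd m (fun y => (g y)⁻¹ k l) x| ≤
      a * (3 * e) + 3 * d * (27 * (a ^ 2 * d)) := fun l =>
    a2 (p2 (h.bA _ _) (h.bT' _ _ _ _)) (p2 (h.bT _ _ _) (h.bA' _ _ _))
  refine (half (s3 h1)).trans (le_of_eq ?_)
  ring

lemma Hyp.bRic (i j : Fin 3) : |ricci g i j x| ≤ 27 * (a * e) + 1094 * (a * d) ^ 2 := by
  rw [ricci_eq]
  have h1 : ∀ k : Fin 3, |(pd k (christoffel g k i j) x - pd j (christoffel g k i k) x) +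
      ∑ l, (christoffel g k k l x * christoffel g l i j x
      - christoffel g k j l x * christoffel g l i k x)| ≤
      ((9 / 2 * (a * e) + 243 / 2 * (a * d) ^ 2) + (9 / 2 * (a * e) + 243 / 2 * (a * d) ^ 2)) +
        3 * (9 / 2 * (a * d) * (9 / 2 * (a * d)) + 9 / 2 * (a * d) * (9 / 2 * (a * d))) := fun k =>
    a2 (m2 (h.bG' _ _ _ _) (h.bG' _ _ _ _)) (s3 fun l =>
      m2 (p2 (h.bG _ _ _) (h.bG _ _ _)) (p2 (h.bG _ _ _) (h.bG _ _ _)))
  refine (s3 h1).trans ?_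
  have := sq_nonneg (a * d)
  nlinarith

lemma Hyp.bScal : |scalarCurvature g x| ≤ 9 * (a * (27 * (a * e) + 1094 * (a * d) ^ 2)) := by
  rw [scal_eq]
  have h1 : ∀ i, |∑ j, (g x)⁻¹ i j * ricci g i j x| ≤
      3 * (a * (27 * (a * e) + 1094 * (a * d) ^ 2)) := fun i =>
    s3 fun j => p2 (h.bA _ _) (h.bRic _ _)
  refine (s3 h1).trans (le_of_eq ?_)
  ring

/-! ### The divergence -/

lemma Hyp.bDiv (S : TensorField) {σ0 σ1 : ℝ} (h0 : ∀ i j, |S x i j| ≤ σ0)
    (h1 : ∀ k i j, |pd k (fun y => S y i j) x| ≤ σ1) (j : Fin 3) :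
    |divergence g S j x| ≤ 9 * (a * (σ1 + 27 * (a * d * σ0))) := by
  have hc : ∀ k i j, |covDeriv g S k i j x| ≤ σ1 + 27 * (a * d * σ0) := by
    intro k i j
    have h2 : ∀ l, |christoffel g l k i x * S x l j + christoffel g l k j x * S x i l| ≤
        9 / 2 * (a * d) * σ0 + 9 / 2 * (a * d) * σ0 := fun l =>
      a2 (p2 (h.bG _ _ _) (h0 _ _)) (p2 (h.bG _ _ _) (h0 _ _))
    refine (m2 (h1 k i j) (s3 h2)).trans (le_of_eq ?_)
    ring
  have h3 : ∀ i, |∑ k, (g x)⁻¹ i k * covDeriv g S k i j x| ≤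
      3 * (a * (σ1 + 27 * (a * d * σ0))) := fun i => s3 fun k => p2 (h.bA _ _) (hc _ _ _)
  unfold divergence
  refine (s3 h3).trans (le_of_eq ?_)
  ring

/-- The trace and its derivative. -/
lemma Hyp.trace (k : TensorField) (hk : ∀ i j, DifferentiableAt ℝ (fun y => k y i j) x)
    {κ0 κ1 : ℝ} (h0 : ∀ i j, |k x i j| ≤ κ0) (h1 : ∀ l i j, |pd l (fun y => k y i j) x| ≤ κ1) :
    DifferentiableAt ℝ (fun y => traceWith g k y) x ∧
    |traceWith g k x| ≤ 9 * (a * κ0) ∧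
    ∀ l, |pd l (fun y => traceWith g k y) x| ≤ 9 * (a * κ1 + κ0 * (27 * (a ^ 2 * d))) := by
  have hd : ∀ i j, DifferentiableAt ℝ (fun y => (g y)⁻¹ i j * k y i j) x := fun i j =>
    (h.pt.diffInv i j).mul (hk i j)
  have hd2 : ∀ i, DifferentiableAt ℝ (fun y => ∑ j, (g y)⁻¹ i j * k y i j) x := fun i =>
    DifferentiableAt.fun_sum fun j _ => hd i j
  refine ⟨DifferentiableAt.fun_sum fun i _ => hd2 i, trg_le (k x) h.bA h0, fun l => ?_⟩
  have e : pd l (fun y => traceWith g k y) x = ∑ i, ∑ j, ((g x)⁻¹ i j * pd l (fun y => k y i j) x +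
      k x i j * pd l (fun y => (g y)⁻¹ i j) x) := by
    unfold traceWith
    rw [pd_sum _ _ fun i _ => hd2 i]
    refine Finset.sum_congr rfl fun i _ => ?_
    rw [pd_sum _ _ fun j _ => hd i j]
    refine Finset.sum_congr rfl fun j _ => ?_
    rw [pd_mul (h.pt.diffInv i j) (hk i j)]
  rw [e]
  have h2 : ∀ i, |∑ j, ((g x)⁻¹ i j * pd l (fun y => k y i j) x +
      k x i j * pd l (fun y => (g y)⁻¹ i j) x)| ≤ 3 * (a * κ1 + κ0 * (27 * (a ^ 2 * d))) := fun i =>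
    s3 fun j => a2 (p2 (h.bA _ _) (h1 _ _ _)) (p2 (h0 _ _) (h.bA' _ _ _))
  refine (s3 h2).trans (le_of_eq ?_)
  ring

lemma Hyp.bMom (k : TensorField) (hk : ∀ i j, DifferentiableAt ℝ (fun y => k y i j) x)
    {κ0 κ1 γ : ℝ} (hγ : ∀ i j, |g x i j| ≤ γ) (h0 : ∀ i j, |k x i j| ≤ κ0)
    (h1 : ∀ l i j, |pd l (fun y => k y i j) x| ≤ κ1) (j : Fin 3) :
    |momentumDensity g k j x| ≤ 9 * (a * ((κ1 + (9 * (a * κ0) * d +
      γ * (9 * (a * κ1 + κ0 * (27 * (a ^ 2 * d)))))) +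
      27 * (a * d * (κ0 + 9 * (a * κ0) * γ)))) := by
  obtain ⟨t1, t2, t3⟩ := h.trace k hk h0 h1
  unfold momentumDensity
  refine h.bDiv _ ?_ ?_ j
  · intro i j
    have e : (k x - traceWith g k x • g x) i j = k x i j - traceWith g k x * g x i j := rfl
    show |(k x - traceWith g k x • g x) i j| ≤ _
    rw [e]
    exact m2 (h0 _ _) (p2 t2 (hγ _ _))
  · intro l i j
    have e : (fun y => (k y - traceWith g k y • g y) i j) = fun y =>
        k y i j - traceWith g k y * g y i j := rfl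
    show |pd l (fun y => (k y - traceWith g k y • g y) i j) x| ≤ _
    rw [e, pd_sub (hk i j) (t1.fun_mul (h.pt.diff i j)), pd_mul t1 (h.pt.diff i j)]
    exact m2 (h1 _ _ _) (a2 (p2 t2 (h.b1 _ _ _)) (p2 (hγ _ _) (t3 _)))

omit h in
lemma jlen_le {k : TensorField} {M : ℝ} (ha : ∀ i j, |(g x)⁻¹ i j| ≤ a)
    (hM : ∀ j, |momentumDensity g k j x| ≤ M) : 0 ≤ jlen g k x ∧ jlen g k x ^ 2 ≤ 9 * (a * M ^ 2) := by
  have ha0 : 0 ≤ a := (abs_nonneg _).trans (ha 0 0)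
  have h1 : |ev (g x)⁻¹ (fun i => momentumDensity g k i x) (fun i => momentumDensity g k i x)| ≤
      9 * (a * M ^ 2) := by
    unfold ev
    have h2 : ∀ i, |∑ j, (g x)⁻¹ i j * momentumDensity g k i x * momentumDensity g k j x| ≤
        3 * (a * M * M) := fun i => s3 fun j => p2 (p2 (ha _ _) (hM _)) (hM _)
    refine (s3 h2).trans (le_of_eq ?_)
    ring
  refine ⟨Real.sqrt_nonneg _, ?_⟩
  unfold jlen
  rcases le_total 0 (ev (g x)⁻¹ (fun i => momentumDensity g k i x)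
    (fun i => momentumDensity g k i x)) with h2 | h2
  · rw [Real.sq_sqrt h2]
    exact (le_abs_self _).trans h1
  · rw [Real.sqrt_eq_zero_of_nonpos h2]
    have : 0 ≤ 9 * (a * M ^ 2) := by positivity
    simpa using this

omit h in
/-- The entries of a positive definite matrix. -/
lemma entry_le {P : Bil} (hP : P.PosDef) {C : ℝ}
    (hC : ∀ v : Cov, ev P v v ≤ C * ∑ i, v i ^ 2) (i j : Fin 3) : |P i j| ≤ C := by
  have hsymm : P.IsSymm := by
    have h1 := hP.isHermitian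
    rw [Matrix.IsHermitian, Matrix.conjTranspose_eq_transpose_of_trivial] at h1
    exact h1
  have hnn : ∀ v : Cov, 0 ≤ ev P v v := by
    intro v
    have h1 := hP.posSemidef.dotProduct_mulVec_nonneg v
    have e : ev P v v = dotProduct v (P.mulVec v) := by
      simp only [ev, dotProduct, Matrix.mulVec, Finset.mul_sum]
      refine Finset.sum_congr rfl fun i _ => Finset.sum_congr rfl fun j _ => ?_
      ring
    rw [e]
    simpa using h1
  have hs : ∀ k : Fin 3, ∀ a : ℝ, ∑ l, (Pi.single k a : Cov) l ^ 2 = a ^ 2 := by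
    intro k a
    rw [Finset.sum_eq_single k]
    · simp
    · intro l _ hl; simp [hl]
    · simp
  have hd : ∀ k : Fin 3, P k k ≤ C := by
    intro k
    have := hC (Pi.single k 1)
    rw [ev_single, hs] at this
    linarith
  have h1 := hnn (Pi.single i 1 + Pi.single j 1)
  have h2 := hnn (Pi.single i 1 + Pi.single j (-1))
  rw [ev_add, ev_single, ev_single, ev_single, ev_single] at h1 h2
  have h3 : P j i = P i j := hsymm.apply i j
  rw [h3] at h1 h2
  rw [abs_le]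
  constructor <;> linarith [hd i, hd j]

end

end SBAux

open Pool.Agent.PFlow.EShell (inv_entry trg_le nsq_le)
theorem SB : Stmt_SB := by
  intro C hC
  set m : ℝ := 9 * C * (C + 45 * C ^ 3 + 486 * C ^ 5) with hm
  have hm0 : 0 < m := by positivity
  refine ⟨9 * C * (27 * C ^ 2 + 1094 * C ^ 4) + 81 * C ^ 4 + 3 * (1 + C) * m, by positivity, ?_⟩
  intro s g k x hs hs1 hpos hg hk hN
  have hPD : (g x).PosDef := hpos.self_of_nhds
  have bA : ∀ i j, |(g x)⁻¹ i j| ≤ C * s ^ 4 := inv_entry hPD hN.low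
  have H : SBAux.Hyp g x (C * s ^ 4) (C / s ^ 5) (C / s ^ 6) :=
    { pt := ⟨fun i j => (hg i j).differentiableAt (by simp), by
        filter_upwards [hpos] with y hy
        have h := hy.isHermitian
        rw [Matrix.IsHermitian, Matrix.conjTranspose_eq_transpose_of_trivial] at h
        exact h, by
        filter_upwards [hpos] with y hy
        exact hy.det_pos⟩
      smooth := hg
      bA := bA
      b1 := fun k i j => hN.d1 i j k
      b2 := fun k l i j => hN.d2 i j l k }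
  have hkd : ∀ i j, DifferentiableAt ℝ (fun y => k y i j) x := fun i j =>
    (hk i j).differentiableAt (by simp)
  have hγ : ∀ i j, |g x i j| ≤ C / s ^ 4 := SBAux.entry_le hPD hN.up
  have hscal := H.bScal
  have htr := (H.trace k hkd hN.k0 (fun l i j => hN.k1 i j l)).2.1
  have hnsq : |nsq g x (k x)| ≤ 81 * (C * s ^ 4 * (C / s ^ 2)) ^ 2 := nsq_le (k x) bA hN.k0
  have hmom := H.bMom k hkd hγ hN.k0 (fun l i j => hN.k1 i j l)
  have e1 : 9 * (C * s ^ 4 * (27 * (C * s ^ 4 * (C / s ^ 6)) +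
      1094 * (C * s ^ 4 * (C / s ^ 5)) ^ 2)) = 9 * C * (27 * C ^ 2 + 1094 * C ^ 4) * s ^ 2 := by
    field_simp
  have e2 : 9 * (C * s ^ 4 * (C / s ^ 2)) = 9 * C ^ 2 * s ^ 2 := by
    field_simp
  have e3 : 81 * (C * s ^ 4 * (C / s ^ 2)) ^ 2 = 81 * C ^ 4 * s ^ 4 := by
    field_simp
  have e4 : 9 * (C * s ^ 4 * ((C / s ^ 3 + (9 * (C * s ^ 4 * (C / s ^ 2)) * (C / s ^ 5) +
      C / s ^ 4 * (9 * (C * s ^ 4 * (C / s ^ 3) +
      C / s ^ 2 * (27 * ((C * s ^ 4) ^ 2 * (C / s ^ 5))))))) +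
      27 * (C * s ^ 4 * (C / s ^ 5) * (C / s ^ 2 + 9 * (C * s ^ 4 * (C / s ^ 2)) *
      (C / s ^ 4))))) = m * s := by
    rw [hm]
    field_simp
    ring
  rw [e1] at hscal
  rw [e2] at htr
  rw [e3] at hnsq
  simp only [e4] at hmom
  obtain ⟨j0, j1⟩ := SBAux.jlen_le bA hmom
  have hs2 : 0 < s ^ 2 := by positivity
  have hs42 : s ^ 4 ≤ s ^ 2 := by
    have : s ^ 2 ≤ 1 := by nlinarith
    nlinarith
  have j2 : jlen g k x ≤ 3 * (1 + C) * m * s ^ 2 := by
    have h1 : jlen g k x ^ 2 ≤ (3 * (1 + C) * m * s ^ 2) ^ 2 := by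
      refine j1.trans ?_
      have e5 : 9 * (C * s ^ 4 * (m * s) ^ 2) = (9 * m ^ 2 * s ^ 4) * (C * s ^ 2) := by ring
      have e6 : (3 * (1 + C) * m * s ^ 2) ^ 2 = (9 * m ^ 2 * s ^ 4) * (1 + C) ^ 2 := by ring
      rw [e5, e6]
      refine mul_le_mul_of_nonneg_left ?_ (by positivity)
      have : s ^ 2 ≤ 1 := by nlinarith
      nlinarith
    exact le_of_sq_le_sq h1 (by positivity)
  have ht2 : traceWith g k x ^ 2 ≤ 81 * C ^ 4 * s ^ 4 := by
    rw [← sq_abs]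
    calc |traceWith g k x| ^ 2 ≤ (9 * C ^ 2 * s ^ 2) ^ 2 := by gcongr
      _ = 81 * C ^ 4 * s ^ 4 := by ring
  have hn : normSqWith g k x = nsq g x (k x) := rfl
  rw [← hn] at hnsq
  obtain ⟨a1, a2⟩ := abs_le.mp hscal
  obtain ⟨b1, b2⟩ := abs_le.mp hnsq
  have ht0 : 0 ≤ traceWith g k x ^ 2 := sq_nonneg _
  have hC4 : C ^ 4 * s ^ 4 ≤ C ^ 4 * s ^ 2 := mul_le_mul_of_nonneg_left hs42 (by positivity)
  have hC0 : 0 ≤ 9 * C * (27 * C ^ 2 + 1094 * C ^ 4) * s ^ 2 := by positivity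
  have hC5 : 0 ≤ C ^ 4 * s ^ 4 := by positivity
  have eC : (9 * C * (27 * C ^ 2 + 1094 * C ^ 4) + 81 * C ^ 4 + 3 * (1 + C) * m) * s ^ 2 =
      9 * C * (27 * C ^ 2 + 1094 * C ^ 4) * s ^ 2 + 81 * (C ^ 4 * s ^ 2) +
      3 * (1 + C) * m * s ^ 2 := by ring
  have eD : 81 * C ^ 4 * s ^ 4 = 81 * (C ^ 4 * s ^ 4) := by ring
  rw [eD] at b1 b2 ht2
  unfold surplus energyDensity
  rw [eC]
  generalize 9 * C * (27 * C ^ 2 + 1094 * C ^ 4) * s ^ 2 = X1 at *
  generalize 3 * (1 + C) * m * s ^ 2 = X2 at *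
  generalize C ^ 4 * s ^ 2 = X3 at *
  generalize C ^ 4 * s ^ 4 = X4 at *
  generalize traceWith g k x ^ 2 = X5 at *
  rw [abs_le]
  constructor
  · linarith
  · linarith

end Pool.Agent.PFT
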