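import Pool.Agent.PFT.StmtsL
import Pool.Agent.PFlow.E.HATA
import Pool.Agent.PFlow.E.HATB
import Pool.Agent.PFlow.E.HATC
import Pool.Agent.PFlow.E.JPROD
import Pool.Agent.PFlow.E.KAP
import Pool.Agent.PFlow.E.CUTM
import Pool.Agent.PFlow.E.SHELL

/-!
# Module SHELLD: the surplus in the region where the tensor is cut off, several ends
-/

open MeasureTheory Filter Topology
open scoped ContDiff

namespace Pool.Agent.PFT

open Pool.Agent.PenroseSph Pool.Agent.PFlow

namespace SHELLD

open EShell in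
theorem core (hHATC : Stmt_HATC) (hJPROD : Stmt_JPROD) (hKAP : Stmt_KAP)
    (hCUTM : Stmt_CUTM) : Stmt_SHELLD := by
  intro g h C r hg hh hPS hr hDEC _hdec hell
  obtain ⟨_, hk01, hk1, hk2, ⟨K, hK0, hK⟩, hksm, _⟩ := hKAP
  have hCpos : 0 ≤ C := by
    have hx : (EuclideanSpace.single 0 1 : E3) ∈ ({0}ᶜ : Set E3) := by
      intro h0
      have := congrArg (fun y : E3 => ‖y‖) h0
      simp at this
    have h1 := inv_entry (hg.posDef _ hx) (C := C)
      (fun v => ((hell (EuclideanSpace.single 0 1) (by simp) v).1)) 0 0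
    exact (abs_nonneg _).trans h1
  refine ⟨122 * C ^ 2 + 108 * (C * (1 + C)) * K + 1, by positivity, ?_⟩
  intro η l R hη hlr hR x hx1 hx2
  have hl : 2 ≤ l := by linarith
  have hl0 : 0 < l := by linarith
  have hx0 : x ≠ 0 := by
    rintro rfl
    rw [norm_zero] at hx1
    linarith
  have hxn : 1 ≤ ‖x‖ := by linarith
  have hgx := hg.posDef x hx0
  obtain ⟨hmg, hmh, _, hsame, _, _, _⟩ := hCUTM g h η l R hη (by linarith) hR hg hh hPS
  set f : E3 → ℝ := fun y => kap (‖y‖ / (l / 2)) with hf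
  -- the open shell
  set U : Set E3 := {y : E3 | l / 2 < ‖y‖ ∧ ‖y‖ < l} with hU
  have hUo : IsOpen U := by
    have : U = (fun y : E3 => ‖y‖) ⁻¹' Set.Ioo (l / 2) l := rfl
    rw [this]
    exact isOpen_Ioo.preimage continuous_norm
  have hxU : x ∈ U := ⟨hx1, hx2⟩
  have hRpos : 0 < R := by linarith
  have hGU : ∀ y ∈ U, modG l R g y = g y := by
    intro y hy
    apply hsame y _ hy.2
    have h1 : 1 / (16 * R) < 1 := by
      rw [div_lt_one (by positivity)]
      linarith
    have := hy.1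
    linarith
  have hHU : ∀ y ∈ U, modH η l R g h y = f y • hat η g h y := by
    intro y hy
    unfold modH kin
    have h1 : kap (32 * (R / 2) * ‖y‖) = 0 := by
      apply hk2
      have h2 : 1 ≤ ‖y‖ := by linarith [hy.1]
      nlinarith
    have h2 : 2 * ‖y‖ / l = ‖y‖ / (l / 2) := by field_simp
    rw [h1, h2, sub_zero, mul_one]
  have hUsub : U ⊆ ({0}ᶜ : Set E3) := by
    intro y hy h0
    rw [Set.mem_singleton_iff] at h0
    have := hy.1
    rw [h0, norm_zero] at this
    linarith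
  have hfpos : ∀ y ∈ U, 0 < f y := by
    intro y hy
    apply kap_pos
    rw [div_lt_iff₀ (by positivity)]
    linarith [hy.2]
  have hfsm : ContDiff ℝ ∞ f := hksm (l / 2) (by positivity)
  have hhatU : TensorOn U (hat η g h) := by
    constructor
    · intro i j
      have h1 : ContDiffOn ℝ ∞ (fun y => (f y)⁻¹ * modH η l R g h y i j) U := by
        apply ContDiffOn.mul
        · exact hfsm.contDiffOn.inv fun y hy => (hfpos y hy).ne'
        · exact (hmh.smooth i j).mono (Set.subset_univ _)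
      refine h1.congr ?_
      intro y hy
      rw [hHU y hy, Matrix.smul_apply, smul_eq_mul, ← mul_assoc,
        inv_mul_cancel₀ (hfpos y hy).ne', one_mul]
    · intro y hy
      unfold hat
      exact (hh.symm y (hUsub hy)).smul _
  have hgU : MetricOn U g := ⟨fun i j => (hg.smooth i j).mono hUsub, fun y hy =>
    hg.posDef y (hUsub hy)⟩
  have hnear : ∀ᶠ y in 𝓝 x, y ∈ U := hUo.mem_nhds hxU
  have e1 : modG l R g =ᶠ[𝓝 x] g := hnear.mono hGU
  have e2 : modH η l R g h =ᶠ[𝓝 x] fun y => f y • hat η g h y := hnear.mono hHU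
  rw [surplus_congr e1 e2]
  -- the ingredients
  have hJ := (hJPROD U g (hat η g h) f hUo hgU hhatU hfsm.contDiffOn x hxU).2
  have hC' := (hHATC g h η hη hg hh hPS x hx0).2
  have hD : jlen g h x ≤ energyDensity g h x := by
    have h1 := hDEC x (by linarith)
    unfold surplus at h1
    linarith
  have hinv : ∀ i j, |(g x)⁻¹ i j| ≤ C := inv_entry hgx fun v => (hell x hxn v).1
  have hM : ∀ i j, |h x i j| ≤ msz (h x) := abs_entry_le_msz _
  have hm0 : 0 ≤ msz (h x) := msz_nonneg _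
  have ht := trg_le (h x) hinv hM
  have hn := nsq_le (h x) hinv hM
  have hlen : len g x (grad f x) ≤ 3 * (1 + C) * (K / (l / 2)) :=
    len_le _ hinv fun i => (hK (l / 2) (by positivity) x).1 i
  set t := trg g x (h x) with ht'
  set N := nsq g x (h x) with hN'
  set m := msz (h x) with hm'
  have hf0 : 0 ≤ f x := (hk01 _).1
  have hf1 : f x ≤ 1 := (hk01 _).2
  set F := hatF η t with hF'
  have hF2 : F ^ 2 ≤ 1 := hatF_sq_le η t hη
  have hF0 : 0 ≤ F ^ 2 := sq_nonneg _
  have hhat : hat η g h x = F • h x := rfl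
  have hnh : nsq g x (hat η g h x) = F ^ 2 * N := by rw [hhat, nsq_smul]
  have hth : trg g x (hat η g h x) = F * t := by rw [hhat, trg_smul]
  have ht2 : t ^ 2 ≤ 81 * (C * m) ^ 2 := by
    have h1 : t ^ 2 = |t| ^ 2 := (sq_abs t).symm
    rw [h1]
    have h2 : |t| ^ 2 ≤ (9 * (C * m)) ^ 2 := by gcongr
    linarith [h2, (by ring : (9 * (C * m)) ^ 2 = 81 * (C * m) ^ 2)]
  have hNabs := abs_le.mp hn
  -- the energy density
  have hE : energyDensity g (fun y => f y • hat η g h y) x
      = (1 / 2) * (scalarCurvature g x - f x ^ 2 * (F ^ 2 * N) + (f x * (F * t)) ^ 2) := by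
    have h1 : normSqWith g (fun y => f y • hat η g h y) x = f x ^ 2 * (F ^ 2 * N) := by
      have : normSqWith g (fun y => f y • hat η g h y) x = nsq g x (f x • hat η g h x) := rfl
      rw [this, nsq_smul, hnh]
    have h2 : traceWith g (fun y => f y • hat η g h y) x = f x * (F * t) := by
      have : traceWith g (fun y => f y • hat η g h y) x = trg g x (f x • hat η g h x) := rfl
      rw [this, trg_smul, hth]
    unfold energyDensity
    rw [h1, h2]
  have hE0 : energyDensity g h x = (1 / 2) * (scalarCurvature g x - N + t ^ 2) := rfl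
  have hc : f x ^ 2 * F ^ 2 ≤ 1 := by
    have : f x ^ 2 ≤ 1 := by nlinarith
    nlinarith [sq_nonneg (f x)]
  have hc0 : 0 ≤ f x ^ 2 * F ^ 2 := by positivity
  have hA0 : 0 ≤ 81 * (C * m) ^ 2 := by positivity
  have hfN : f x ^ 2 * (F ^ 2 * N) ≤ 81 * (C * m) ^ 2 := by
    have : f x ^ 2 * (F ^ 2 * N) = (f x ^ 2 * F ^ 2) * N := by ring
    rw [this]
    nlinarith [hNabs.2]
  have hsq : Real.sqrt (nsq g x (hat η g h x) + trg g x (hat η g h x) ^ 2) ≤ 18 * (C * m) := by
    rw [hnh, hth]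
    apply Real.sqrt_le_iff.mpr
    refine ⟨by positivity, ?_⟩
    have h1 : F ^ 2 * N ≤ 81 * (C * m) ^ 2 := by nlinarith [hNabs.2]
    have h2 : (F * t) ^ 2 ≤ 81 * (C * m) ^ 2 := by
      rw [mul_pow]
      nlinarith [sq_nonneg t]
    nlinarith
  have hsl : Real.sqrt (nsq g x (hat η g h x) + trg g x (hat η g h x) ^ 2) * len g x (grad f x)
      ≤ (18 * (C * m)) * (3 * (1 + C) * (K / (l / 2))) :=
    mul_le_mul hsq hlen (Real.sqrt_nonneg _) (by positivity)
  have hj0 : 0 ≤ jlen g (hat η g h) x := Real.sqrt_nonneg _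
  have hfj : |f x| * jlen g (hat η g h) x ≤ jlen g (hat η g h) x := by
    rw [abs_of_nonneg hf0]
    nlinarith
  have hfin : (18 * (C * m)) * (3 * (1 + C) * (K / (l / 2))) = 108 * (C * (1 + C)) * K * (m / l) := by
    field_simp
    ring
  rw [hfin] at hsl
  have hexp : (122 * C ^ 2 + 108 * (C * (1 + C)) * K + 1) * (m / l + m ^ 2)
      ≥ 122 * C ^ 2 * m ^ 2 + 108 * (C * (1 + C)) * K * (m / l) := by
    have h1 : 0 ≤ m / l := by positivity
    have h2 : 0 ≤ C ^ 2 * (m / l) := by positivity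
    have h3 : 0 ≤ (C * (1 + C)) * K * m ^ 2 := by positivity
    have h4 : 0 ≤ m ^ 2 := by positivity
    nlinarith
  unfold surplus
  rw [hE]
  rw [hE0] at hD
  have hpos : 0 ≤ (f x * (F * t)) ^ 2 := sq_nonneg _
  nlinarith [hNabs.1, hNabs.2]

end SHELLD

theorem t_SHELLD : Stmt_SHELLD :=
  SHELLD.core (HATC HATA (HATB HATA) JPROD) JPROD KAP (CUTM (HATB HATA) KAP)

end Pool.Agent.PFT
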