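import Pool.Agent.PFT.StmtsF

/-!
# TFA: the inequality for one end

The flow from the end `p` (EPSP), the perimeter (PERC), the limit (LIMN) with `n = 1` and
`c = 1 + C/M`, and then `M → ∞`.
-/

set_option autoImplicit false

open MeasureTheory Filter Topology
open scoped ContDiff ENNReal

namespace Pool.Agent.PFT

open Pool.Agent.PenroseSph Pool.Agent.PFlow

namespace TFAAux

lemma isCompact_kset (P : Finset E3) (a : E3 → ℝ) (r : ℝ) : IsCompact (kset P a r) := by
  have h1 : kset P a r ⊆ Metric.closedBall 0 r := fun x hx => by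
    rw [Metric.mem_closedBall, dist_zero_right]
    exact hx.1
  refine (isCompact_closedBall (0 : E3) r).of_isClosed_subset ?_ h1
  have h2 : kset P a r = {x : E3 | ‖x‖ ≤ r} ∩ ⋂ p ∈ P, {x : E3 | a p ≤ ‖x - p‖} := by
    ext x
    simp [kset]
  rw [h2]
  refine (isClosed_le continuous_norm continuous_const).inter ?_
  refine isClosed_biInter fun p _ => ?_
  exact isClosed_le continuous_const (by fun_prop)

lemma volDen_nonneg (g : TensorField) (x : E3) : 0 ≤ volDen g x := Real.sqrt_nonneg _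

/-- The bound of all the numbers `A` gives the theorem. -/
lemma conclude {P : Finset E3} {g : TensorField} {m : ℝ} {p : E3}
    (h : ∀ A : ℝ, 0 ≤ A → LowerP P {p} g A → 0 < m ∧ A ≤ 16 * Real.pi * m ^ 2) :
    minAreaAt P g p ≠ ⊤ ∧ Real.sqrt ((minAreaAt P g p).toReal / (16 * Real.pi)) ≤ m := by
  have hlow : ∀ A : ℝ, ENNReal.ofReal A ≤ minAreaAt P g p → LowerP P {p} g A := by
    intro A hA U hU hc
    exact hA.trans (iInf₂_le U ⟨hU, hc p (Finset.mem_singleton_self p)⟩)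
  have hpos : 0 ≤ 16 * Real.pi * m ^ 2 := by positivity
  have hne : minAreaAt P g p ≠ ⊤ := by
    intro htop
    have h1 := (h (16 * Real.pi * m ^ 2 + 1) (by linarith)
      (hlow _ (by rw [htop]; exact le_top))).2
    linarith
  have h2 := h (minAreaAt P g p).toReal ENNReal.toReal_nonneg
    (hlow _ (by rw [ENNReal.ofReal_toReal hne]))
  refine ⟨hne, ?_⟩
  rw [Real.sqrt_le_left h2.1.le, div_le_iff₀ (by positivity)]
  refine h2.2.trans (le_of_eq ?_)
  ring

/-- `A ≤ (1 + C/M) B` for all `M ≥ 1` implies `A ≤ B`. -/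
lemma limit {A B C : ℝ} (h : ∀ M : ℕ, 1 ≤ M → A ≤ (1 + C / M) * B) : A ≤ B := by
  have h1 : Tendsto (fun M : ℕ => (1 + C / (M : ℝ)) * B) atTop (𝓝 ((1 + 0) * B)) :=
    ((tendsto_const_nhds.add (tendsto_const_div_atTop_nhds_zero_nat C)).mul tendsto_const_nhds)
  rw [add_zero, one_mul] at h1
  refine ge_of_tendsto h1 ?_
  filter_upwards [eventually_ge_atTop 1] with M hM
  exact h M hM

end TFAAux

open TFAAux in
theorem t_TFA (hEPSP : Stmt_EPSP) (hPERC : Stmt_PERC) (hLIMN : Stmt_LIMN) (hELL : Stmt_ELL) :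
    Stmt_TFA := by
  intro P g k m p hp hSE hsur hpl hfar hm
  classical
  obtain ⟨ρ, r₀, hρ, hr0, hρq, hr0q, H⟩ := hEPSP P g k m p hp hSE hsur hpl hfar hm
  have hp0 := norm_nonneg p
  set r : ℝ := r₀ + 2 * ‖p‖ + ρ with hr
  have hrr : r₀ ≤ r := by linarith
  obtain ⟨C, hC, HM⟩ := hPERC P g p ρ (3 * r / 2) hp hSE.metric (hELL P g k hSE) hρ
    (by linarith) (fun q hq hqp => by have := hρq q hq hqp; linarith)
    (fun q hq => by
      have h1 := hr0q q hq
      have h2 := norm_sub_norm_le q p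
      linarith)
  have hout : ∀ x : E3, ‖x‖ = 3 * r / 2 → r ≤ ‖x - p‖ ∧ ‖x - p‖ ≤ 2 * r := by
    intro x hx
    have h5 := norm_sub_le x p
    have h6 := norm_sub_norm_le x p
    rw [hx] at h5 h6
    constructor <;> linarith
  -- the bound for fixed `M`
  have hM : ∀ A : ℝ, 0 ≤ A → LowerP P {p} g A → ∀ M : ℕ, 1 ≤ M →
      0 < m ∧ A ≤ (1 + C / M) * (16 * Real.pi * m ^ 2) := by
    intro A hA hAL M hM1
    obtain ⟨δ, hδ, hB, hmain⟩ := HM M hM1
    set K := kset P (aDel p ρ δ) (3 * r / 2) with hK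
    have hKc : IsCompact K := isCompact_kset _ _ _
    have hKp : ∀ x ∈ K, ρ / 2 ≤ ‖x - p‖ ∧ ‖x - p‖ ≤ 2 * r ∧
        ∀ q ∈ P, q ≠ p → δ ≤ ‖x - q‖ := by
      intro x hx
      have h4 := hx.2 p hp
      rw [aDel, if_pos rfl] at h4
      refine ⟨by linarith, ?_, fun q hq hqp => ?_⟩
      · have h5 := norm_sub_le x p
        have h6 := hx.1
        linarith
      · have h7 := hx.2 q hq
        rwa [aDel, if_neg hqp] at h7
    set I := ∫ x in K, volDen g x with hI
    have hI0 : 0 ≤ I := integral_nonneg fun x => volDen_nonneg g x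
    have hc0 : 0 ≤ 1 + C / (M : ℝ) := by positivity
    have key := hLIMN m A (1 + C / M) (I + 1) 1 (by linarith) hA le_rfl hc0 ?_
    · rwa [Nat.cast_one, one_mul] at key
    intro ε τ s₀ s₁ hε hε2 hτ hεs hs hs1
    obtain ⟨lm, J, w, G, hlm, hJ, h1, h2, hF⟩ := H r ε τ δ hrr hε hε2 hτ hδ
    refine ⟨fun _ => lm, fun _ => J, fun _ => ⟨hlm, hJ, h1, h2⟩, ?_⟩
    have hexp : 0 ≤ Real.exp s₁ - Real.exp s₀ := sub_nonneg.2 (Real.exp_le_exp.2 hs.le)
    have h3 := hmain w G s₀ s₁ hs (hF.approx K hKc hKp)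
      (fun x hx => hs1.trans_lt (hF.outer x (hout x hx).1 (hout x hx).2))
      (fun x hx => (hF.inner x (by rw [hx]; linarith) hx.le).trans_le hεs) A hA hAL
    refine h3.trans (mul_le_mul_of_nonneg_left ?_ hc0)
    rw [Fin.sum_univ_one]
    refine (hF.bound K hKc hKp s₀ s₁ hεs hs hs1).trans ?_
    refine mul_le_mul_of_nonneg_left ?_ (Real.rpow_nonneg (mul_nonneg hJ hexp) _)
    exact Real.rpow_le_rpow hI0 (by linarith) (by positivity)
  refine conclude fun A hA hAL => ⟨(hM A hA hAL 1 le_rfl).1, ?_⟩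
  exact limit fun M hM1 => (hM A hA hAL M hM1).2

end Pool.Agent.PFT
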