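import Pool.Agent.PFT.StmtsF

/-!
# TFB: the inequality for all the ends

The flows from all the ends, the minimum of the functions (PERB), the limit (LIMN).
-/

set_option autoImplicit false

open MeasureTheory Filter Topology
open scoped ContDiff ENNReal

namespace Pool.Agent.PFT

open Pool.Agent.PenroseSph Pool.Agent.PFlow

namespace TFBAux

lemma isCompact_kset (P : Finset E3) (a : E3 → ℝ) (r : ℝ) : IsCompact (kset P a r) := by
  have h1 : kset P a r ⊆ Metric.closedBall 0 r := fun x hx => by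
    rw [Metric.mem_closedBall, dist_zero_right]
    exact hx.1
  refine (isCompact_closedBall (0 : E3) r).of_isClosed_subset ?_ h1
  have h2 : kset P a r = {x : E3 | ‖x‖ ≤ r} ∩ ⋂ p ∈ P, {x : E3 | a p ≤ ‖x - p‖} := by
    ext x
    simp [kset]
  rw [h2]
  refine (isClosed_le continuous_norm continuous_const).inter ?_
  refine isClosed_biInter fun p _ => ?_
  exact isClosed_le continuous_const (by fun_prop)

lemma volDen_nonneg (g : TensorField) (x : E3) : 0 ≤ volDen g x := Real.sqrt_nonneg _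

/-- The bound of all the numbers `A` gives the theorem. -/
lemma conclude {P : Finset E3} {g : TensorField} {m : ℝ} (hP : P.Nonempty)
    (h : ∀ A : ℝ, 0 ≤ A → LowerP P P g A → 0 < m ∧ A ≤ P.card * (16 * Real.pi * m ^ 2)) :
    minAreaAll P g ≠ ⊤ ∧ Real.sqrt ((minAreaAll P g).toReal / (16 * Real.pi * P.card)) ≤ m := by
  have hlow : ∀ A : ℝ, ENNReal.ofReal A ≤ minAreaAll P g → LowerP P P g A := by
    intro A hA U hU hc
    exact hA.trans (iInf₂_le U ⟨hU, hc⟩)
  have hn : (0 : ℝ) < P.card := by exact_mod_cast hP.card_pos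
  have hpos : 0 ≤ (P.card : ℝ) * (16 * Real.pi * m ^ 2) := by positivity
  have hne : minAreaAll P g ≠ ⊤ := by
    intro htop
    have h1 := (h ((P.card : ℝ) * (16 * Real.pi * m ^ 2) + 1) (by linarith)
      (hlow _ (by rw [htop]; exact le_top))).2
    linarith
  have h2 := h (minAreaAll P g).toReal ENNReal.toReal_nonneg
    (hlow _ (by rw [ENNReal.ofReal_toReal hne]))
  refine ⟨hne, ?_⟩
  rw [Real.sqrt_le_left h2.1.le, div_le_iff₀ (by positivity)]
  refine h2.2.trans (le_of_eq ?_)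
  ring

end TFBAux

open TFBAux in
theorem t_TFB (hEPSP : Stmt_EPSP) (hPERB : Stmt_PERB) (hLIMN : Stmt_LIMN) : Stmt_TFB := by
  intro P g k m hP hSE hsur hpl hfar hm
  classical
  have h0 := fun p (hp : p ∈ P) => hEPSP P g k m p hp hSE hsur hpl hfar hm
  choose! ρ r₀ hρ hr0 hρq hr0q H using h0
  obtain ⟨p₀, hp₀, hδ⟩ := P.exists_min_image ρ hP
  have hδ0 : 0 < ρ p₀ := hρ p₀ hp₀
  obtain ⟨r, hr⟩ : ∃ r : ℝ, ∀ p ∈ P, r₀ p + 2 * ‖p‖ + ρ p ≤ r := by
    refine ⟨∑ p ∈ P, (r₀ p + 2 * ‖p‖ + ρ p), fun p hp => ?_⟩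
    refine Finset.single_le_sum (f := fun p => r₀ p + 2 * ‖p‖ + ρ p) (fun q hq => ?_) hp
    have h1 := hρ q hq
    have h2 := hr0 q hq
    have h3 := norm_nonneg q
    show 0 ≤ r₀ q + 2 * ‖q‖ + ρ q
    linarith
  set K := kset P ρ (3 * r / 2) with hK
  have hKc : IsCompact K := isCompact_kset _ _ _
  have hB : Balls P ρ (3 * r / 2) := by
    refine ⟨hρ, fun p hp => ?_, fun p hp q hq hpq => ?_⟩
    · have h1 := hr p hp
      have h2 := hr0 p hp
      have h3 := norm_nonneg p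
      have h4 := hρ p hp
      linarith
    · have h1 := hρq p hp q hq hpq.symm
      have h2 := hρq q hq p hp hpq
      rw [norm_sub_rev] at h1
      linarith
  have hKp : ∀ p ∈ P, ∀ x ∈ K, ρ p / 2 ≤ ‖x - p‖ ∧ ‖x - p‖ ≤ 2 * r ∧
      ∀ q ∈ P, q ≠ p → ρ p₀ ≤ ‖x - q‖ := by
    intro p hp x hx
    have h1 := hr p hp
    have h2 := hr0 p hp
    have h3 := hρ p hp
    have h4 := hx.2 p hp
    refine ⟨by linarith, ?_, fun q hq _ => (hδ q hq).trans (hx.2 q hq)⟩
    have h5 := norm_sub_le x p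
    have h6 := hx.1
    linarith
  have hout : ∀ p ∈ P, ∀ x : E3, ‖x‖ = 3 * r / 2 → r ≤ ‖x - p‖ ∧ ‖x - p‖ ≤ 2 * r := by
    intro p hp x hx
    have h1 := hr p hp
    have h2 := hr0 p hp
    have h3 := hρ p hp
    have h5 := norm_sub_le x p
    have h6 := norm_sub_norm_le x p
    rw [hx] at h5 h6
    constructor <;> linarith
  set I := ∫ x in K, volDen g x with hI
  have hI0 : 0 ≤ I := integral_nonneg fun x => volDen_nonneg g x
  refine conclude hP fun A hA hAL => ?_
  have hcard : 1 ≤ P.card := hP.card_pos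
  have key := hLIMN m A 1 (I + 1) P.card (by linarith) hA hcard zero_le_one ?_
  · rw [one_mul] at key
    exact key
  intro ε τ s₀ s₁ hε hε2 hτ hεs hs hs1
  have hr0r : ∀ p ∈ P, r₀ p ≤ r := fun p hp => by
    have h1 := hr p hp
    have h3 := norm_nonneg p
    have h4 := hρ p hp
    linarith
  have H' := fun p (hp : p ∈ P) => H p hp r ε τ (ρ p₀) (hr0r p hp) hε hε2 hτ hδ0
  choose! lm J w G hlm hJ h1 h2 hF using H'
  have hmain := hPERB P g w G ρ (3 * r / 2) s₀ s₁ hP hSE.metric hB hs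
    (fun p hp => (hF p hp).approx K hKc (hKp p hp))
    (fun p hp x hx => hs1.trans_lt ((hF p hp).outer x (hout p hp x hx).1 (hout p hp x hx).2))
    (fun p hp x hx => ((hF p hp).inner x (by have := hρ p hp; rw [hx]; linarith) hx.le).trans_le hεs)
    A hA hAL
  have hexp : 0 ≤ Real.exp s₁ - Real.exp s₀ := sub_nonneg.2 (Real.exp_le_exp.2 hs.le)
  have hle : A * (s₁ - s₀) ≤ ∑ p ∈ P, (J p * (Real.exp s₁ - Real.exp s₀)) ^ (1 / (1 + ε))
      * (I + 1) ^ (ε / (1 + ε)) := by
    refine hmain.trans (Finset.sum_le_sum fun p hp => ?_)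
    refine ((hF p hp).bound K hKc (hKp p hp) s₀ s₁ hεs hs hs1).trans ?_
    refine mul_le_mul_of_nonneg_left ?_ (Real.rpow_nonneg (mul_nonneg (hJ p hp) hexp) _)
    exact Real.rpow_le_rpow hI0 (by linarith) (by positivity)
  let e := P.equivFin
  refine ⟨fun i => lm (e.symm i), fun i => J (e.symm i), fun i => ?_, ?_⟩
  · have hp := (e.symm i).2
    exact ⟨hlm _ hp, hJ _ hp, h1 _ hp, h2 _ hp⟩
  · rw [one_mul]
    refine hle.trans (le_of_eq ?_)
    rw [← Finset.sum_coe_sort P]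
    exact (Equiv.sum_comp e.symm (fun p : P => (J p * (Real.exp s₁ - Real.exp s₀)) ^ (1 / (1 + ε))
      * (I + 1) ^ (ε / (1 + ε)))).symm

end Pool.Agent.PFT
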