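import Pool.Agent.PFT.StmtsF

/-!
# TMAIN: the main theorem from TFA, TFB and RLIMK
-/

open MeasureTheory Filter Topology
open scoped ContDiff ENNReal

namespace Pool.Agent.PFT

open Pool.Agent.PenroseSph Pool.Agent.PFlow

namespace TMAIN

theorem surplus_eq_required (g h : TensorField) (x : E3) :
    2 * surplus g h x = scalarCurvature g x - required g h x := by
  have h1 : traceWith g h x = trg g x (h x) := rfl
  have h2 : normSqWith g h x = nsq g x (h x) := rfl
  unfold surplus energyDensity required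
  rw [h1, h2]
  ring

end TMAIN

open TMAIN

/-- TMAIN: the main theorem. -/
theorem t_TMAIN (hTFA : Stmt_TFA) (hTFB : Stmt_TFB) (hRLIMK : Stmt_RLIMK) : Stmt_TMAIN := by
  rintro P g h m hP H hE ⟨k, hk⟩ hm
  have hk' : SeveralEnds P g k := ⟨H.metric, hk.tensor, hk.infinity, hk.points⟩
  have hs : ∀ x : E3, x ∉ P → 0 ≤ surplus g k x := by
    intro x hx
    have h1 : 0 ≤ surplus g h x := sub_nonneg.2 (hE x hx)
    have h2 := hk.energy x hx
    have h3 := surplus_eq_required g h x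
    have h4 := surplus_eq_required g k x
    linarith
  have hr : ∀ x : E3, 1 + ∑ q ∈ P, ‖q‖ < ‖x‖ → x ∉ P := by
    intro x hx hxP
    have h1 : ‖x‖ ≤ ∑ q ∈ P, ‖q‖ :=
      Finset.single_le_sum (f := fun q : E3 => ‖q‖) (fun _ _ => norm_nonneg _) hxP
    linarith
  have h0 : 0 < 1 + ∑ q ∈ P, ‖q‖ := by
    have : 0 ≤ ∑ q ∈ P, ‖q‖ := Finset.sum_nonneg fun _ _ => norm_nonneg _
    linarith
  have hsub : {x : E3 | 1 + ∑ q ∈ P, ‖q‖ < ‖x‖} ⊆ ((P : Set E3))ᶜ := fun x hx => by
    simpa using hr x hx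
  have hF : FarSmall k := hRLIMK g k (1 + ∑ q ∈ P, ‖q‖) h0
    ⟨fun i j => (H.metric.smooth i j).mono hsub, fun x hx => H.metric.posDef x (hsub hx)⟩
    ⟨fun i j => (hk.tensor.smooth i j).mono hsub, fun x hx => hk.tensor.symm x (hsub hx)⟩
    hk.infinity (fun x hx => hs x (hr x hx)) (fun x hx => hk.plane x (hr x hx)) hk.far
  exact ⟨fun p hp => hTFA P g k m p hp hk' hs hk.plane hF hm,
    hTFB P g k m hP hk' hs hk.plane hF hm⟩

end Pool.Agent.PFT
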