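import Pool.Agent.PFT.StmtsF

/-!
# TRM: translation at infinity
-/

open MeasureTheory Filter Topology
open scoped ContDiff ENNReal

namespace Pool.Agent.PFT

open Pool.Agent.PenroseSph Pool.Agent.PFlow

namespace TRM

theorem pdS (F : E3 → ℝ) (p : E3) (k : Fin 3) (x : E3) :
    pd k (fun y => F (y + p)) x = pd k F (x + p) := by
  unfold pd
  rw [fderiv_comp_add_right]

theorem cda {f : E3 → ℝ} {x : E3} (hf : ContDiffAt ℝ ∞ f x) (i : Fin 3) :
    ContDiffAt ℝ ∞ (pd i f) x := by
  have h1 : ContDiffAt ℝ ∞ (fderiv ℝ f) x := hf.fderiv_right (by simp)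
  exact h1.clm_apply contDiffAt_const

theorem norm_fderiv_le {f : E3 → ℝ} {x : E3} {c : ℝ} (h : ∀ k, |pd k f x| ≤ c) :
    ‖fderiv ℝ f x‖ ≤ 3 * c := by
  have hc : 0 ≤ c := (abs_nonneg _).trans (h 0)
  refine ContinuousLinearMap.opNorm_le_bound _ (by positivity) fun v => ?_
  have h2 : fderiv ℝ f x v = ∑ k, v k * pd k f x := by
    conv_lhs => rw [← (EuclideanSpace.basisFun (Fin 3) ℝ).sum_repr v]
    rw [map_sum]
    refine Finset.sum_congr rfl fun k _ => ?_
    rw [map_smul, EuclideanSpace.basisFun_repr, EuclideanSpace.basisFun_apply, smul_eq_mul]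
    rfl
  rw [h2, Real.norm_eq_abs]
  have h3 : ∀ k : Fin 3, |v k * pd k f x| ≤ ‖v‖ * c := by
    intro k
    rw [abs_mul]
    exact mul_le_mul (PiLp.norm_apply_le v k) (h k) (abs_nonneg _) (norm_nonneg _)
  calc |∑ k, v k * pd k f x| ≤ ∑ k : Fin 3, |v k * pd k f x| := Finset.abs_sum_le_sum_abs _ _
    _ ≤ ∑ _k : Fin 3, ‖v‖ * c := Finset.sum_le_sum fun k _ => h3 k
    _ = 3 * c * ‖v‖ := by
      rw [Finset.sum_const, Finset.card_univ, Fintype.card_fin, nsmul_eq_mul]
      push_cast
      ring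

/-- a radius that bounds the points of `P` and the radius of decay -/
theorem radius (P : Finset E3) (R : ℝ) : ∃ r₀ : ℝ, 1 ≤ r₀ ∧ R ≤ r₀ ∧ ∀ x : E3, r₀ ≤ ‖x‖ → x ∉ P := by
  refine ⟨1 + |R| + ∑ q ∈ P, ‖q‖, ?_, ?_, ?_⟩
  · have : 0 ≤ ∑ q ∈ P, ‖q‖ := Finset.sum_nonneg fun _ _ => norm_nonneg _
    have := abs_nonneg R
    linarith
  · have : 0 ≤ ∑ q ∈ P, ‖q‖ := Finset.sum_nonneg fun _ _ => norm_nonneg _
    have := le_abs_self R
    linarith
  · intro x hx hxP
    have h1 : ‖x‖ ≤ ∑ q ∈ P, ‖q‖ :=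
      Finset.single_le_sum (f := fun q : E3 => ‖q‖) (fun _ _ => norm_nonneg _) hxP
    have := abs_nonneg R
    linarith

theorem isOpenP (P : Finset E3) : IsOpen ((P : Set E3))ᶜ := P.finite_toSet.isClosed.isOpen_compl

/-- the derivatives of the metric at `x + p` and `x` -/
theorem diff_le {g : TensorField} {C r₀ : ℝ} (p : E3) (hC : 0 ≤ C) (hr : 0 < r₀)
    (hs : ∀ x : E3, r₀ ≤ ‖x‖ → ∀ i j, ContDiffAt ℝ ∞ (fun y => g y i j) x)
    (hd : ∀ x : E3, r₀ ≤ ‖x‖ → ∀ i j k l, |pd k (pd l (fun y => g y i j)) x| ≤ C / ‖x‖ ^ 3)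
    {x : E3} (hx : 2 * (r₀ + ‖p‖) ≤ ‖x‖) (i j l : Fin 3) :
    |pd l (fun y => shift p g y i j) x - pd l (fun y => g y i j) x|
      ≤ 24 * C * ‖p‖ / ‖x‖ ^ 3 := by
  have hp := norm_nonneg p
  have hx0 : 0 < ‖x‖ := by linarith
  have hball : ∀ z ∈ Metric.closedBall x ‖p‖, ‖x‖ / 2 ≤ ‖z‖ := by
    intro z hz
    rw [Metric.mem_closedBall, dist_eq_norm] at hz
    have := norm_sub_norm_le x z
    rw [norm_sub_rev] at hz
    linarith
  have hb1 : ∀ z ∈ Metric.closedBall x ‖p‖, r₀ ≤ ‖z‖ := by
    intro z hz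
    have := hball z hz
    linarith
  have e : pd l (fun y => shift p g y i j) x = pd l (fun y => g y i j) (x + p) :=
    pdS (fun y => g y i j) p l x
  rw [e]
  have h1 := Convex.norm_image_sub_le_of_norm_fderiv_le (𝕜 := ℝ) (f := pd l (fun y => g y i j))
    (C := 3 * (8 * C / ‖x‖ ^ 3)) (s := Metric.closedBall x ‖p‖) (x := x) (y := x + p)
    (fun z hz => (cda (hs z (hb1 z hz) i j) l).differentiableAt (by simp))
    (fun z hz => ?_) (convex_closedBall x ‖p‖) (Metric.mem_closedBall_self hp)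
    (by rw [Metric.mem_closedBall, dist_eq_norm]; simp)
  · rw [Real.norm_eq_abs, add_sub_cancel_left] at h1
    refine h1.trans (le_of_eq ?_)
    ring
  · refine norm_fderiv_le fun k => (hd z (hb1 z hz) i j k l).trans ?_
    have h2 := hball z hz
    have h3 : 0 < ‖z‖ := by linarith
    rw [div_le_div_iff₀ (by positivity) (by positivity)]
    have h4 : ‖x‖ ^ 3 ≤ (2 * ‖z‖) ^ 3 := pow_le_pow_left₀ hx0.le (by linarith) 3
    calc C * ‖x‖ ^ 3 ≤ C * (2 * ‖z‖) ^ 3 := mul_le_mul_of_nonneg_left h4 hC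
      _ = 8 * C * ‖z‖ ^ 3 := by ring

/-- the integrand of the mass integral -/
noncomputable def mi (g : TensorField) (ρ : ℝ) (θ : E3) : ℝ :=
  (∑ i, ∑ j, (pd i (fun y => g y i j) (ρ • θ) - pd j (fun y => g y i i) (ρ • θ)) * θ j) * ρ ^ 2

theorem massIntegral_eq (g : TensorField) (ρ : ℝ) : massIntegral g ρ = 1 / (16 * Real.pi) *
    ∫ θ : Metric.sphere (0 : E3) 1, mi g ρ (θ : E3) ∂((volume : Measure E3).toSphere) := rfl

theorem mi_int {g : TensorField} {ρ : ℝ} (hρ : 0 < ρ)
    (hs : ∀ x : E3, ‖x‖ = ρ → ∀ i j, ContDiffAt ℝ ∞ (fun y => g y i j) x) :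
    Integrable (fun θ : Metric.sphere (0 : E3) 1 => mi g ρ (θ : E3))
      ((volume : Measure E3).toSphere) := by
  have hc : ∀ i a b, Continuous (fun θ : Metric.sphere (0 : E3) 1 =>
      pd i (fun y => g y a b) (ρ • (θ : E3))) := by
    intro i a b
    rw [continuous_iff_continuousAt]
    intro θ
    have hn : ‖ρ • (θ : E3)‖ = ρ := by
      rw [norm_smul, norm_eq_of_mem_sphere, mul_one, Real.norm_eq_abs, abs_of_pos hρ]
    have h1 : ContinuousAt (pd i (fun y => g y a b)) (ρ • (θ : E3)) :=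
      (cda (hs _ hn a b) i).continuousAt
    have h2 : ContinuousAt (fun θ : Metric.sphere (0 : E3) 1 => ρ • (θ : E3)) θ :=
      (continuous_subtype_val.const_smul ρ).continuousAt
    exact ContinuousAt.comp (f := fun θ : Metric.sphere (0 : E3) 1 => ρ • (θ : E3)) h1 h2
  have hco : ∀ j : Fin 3, Continuous (fun θ : Metric.sphere (0 : E3) 1 => (θ : E3) j) := by
    intro j
    exact (EuclideanSpace.proj j : E3 →L[ℝ] ℝ).continuous.comp continuous_subtype_val
  have hcont : Continuous (fun θ : Metric.sphere (0 : E3) 1 => mi g ρ (θ : E3)) := by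
    unfold mi
    refine Continuous.mul ?_ continuous_const
    refine continuous_finsetSum _ fun i _ => continuous_finsetSum _ fun j _ => ?_
    exact ((hc i i j).sub (hc j i i)).mul (hco j)
  exact hcont.integrable_of_hasCompactSupport (HasCompactSupport.of_compactSpace _)

theorem mass_diff {g : TensorField} {C r₀ : ℝ} (p : E3) (hC : 0 ≤ C) (hr : 0 < r₀)
    (hs : ∀ x : E3, r₀ ≤ ‖x‖ → ∀ i j, ContDiffAt ℝ ∞ (fun y => g y i j) x)
    (hd : ∀ x : E3, r₀ ≤ ‖x‖ → ∀ i j k l, |pd k (pd l (fun y => g y i j)) x| ≤ C / ‖x‖ ^ 3) :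
    ∃ K : ℝ, ∀ ρ : ℝ, 2 * (r₀ + ‖p‖) ≤ ρ →
      |massIntegral (shift p g) ρ - massIntegral g ρ| ≤ K / ρ := by
  have hp := norm_nonneg p
  set μ : Measure (Metric.sphere (0 : E3) 1) := (volume : Measure E3).toSphere with hμ
  refine ⟨1 / (16 * Real.pi) * (18 * (24 * C * ‖p‖) * μ.real Set.univ), fun ρ hρ => ?_⟩
  have hρ0 : 0 < ρ := by linarith
  have hs1 : ∀ x : E3, ‖x‖ = ρ → ∀ i j, ContDiffAt ℝ ∞ (fun y => g y i j) x := by
    intro x hx i j
    exact hs x (by rw [hx]; linarith) i j
  have hs2 : ∀ x : E3, ‖x‖ = ρ → ∀ i j, ContDiffAt ℝ ∞ (fun y => shift p g y i j) x := by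
    intro x hx i j
    have h1 : r₀ ≤ ‖x + p‖ := by
      have := norm_sub_le (x + p) p
      rw [add_sub_cancel_right] at this
      linarith
    have h2 : ContDiffAt ℝ ∞ (fun y : E3 => y + p) x := contDiffAt_id.add contDiffAt_const
    exact ContDiffAt.comp (g := fun y => g y i j) (f := fun y : E3 => y + p) x (hs (x + p) h1 i j) h2
  have i1 := mi_int (g := g) hρ0 hs1
  have i2 := mi_int (g := shift p g) hρ0 hs2
  rw [massIntegral_eq, massIntegral_eq, ← mul_sub, ← integral_sub i2 i1, abs_mul]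
  have hpi : 0 < 1 / (16 * Real.pi) := by positivity
  rw [abs_of_pos hpi, mul_div_assoc]
  refine mul_le_mul_of_nonneg_left ?_ hpi.le
  have hb : ∀ θ : Metric.sphere (0 : E3) 1,
      ‖mi (shift p g) ρ (θ : E3) - mi g ρ (θ : E3)‖ ≤ 18 * (24 * C * ‖p‖) / ρ := by
    intro θ
    have hn : ‖ρ • (θ : E3)‖ = ρ := by
      rw [norm_smul, norm_eq_of_mem_sphere, mul_one, Real.norm_eq_abs, abs_of_pos hρ0]
    have hθ : ∀ j, |(θ : E3) j| ≤ 1 := by
      intro j
      have h1 := PiLp.norm_apply_le (θ : E3) j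
      rw [norm_eq_of_mem_sphere] at h1
      exact h1
    set c : ℝ := 24 * C * ‖p‖ / ρ ^ 3 with hc
    have hc0 : 0 ≤ c := by positivity
    have hk : ∀ l a b, |pd l (fun y => shift p g y a b) (ρ • (θ : E3))
        - pd l (fun y => g y a b) (ρ • (θ : E3))| ≤ c := by
      intro l a b
      have := diff_le p hC hr hs hd (x := ρ • (θ : E3)) (by rw [hn]; exact hρ) a b l
      rwa [hn] at this
    have e1 : mi (shift p g) ρ (θ : E3) - mi g ρ (θ : E3) = (∑ i, ∑ j,
        ((pd i (fun y => shift p g y i j) (ρ • (θ : E3)) - pd i (fun y => g y i j) (ρ • (θ : E3)))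
        - (pd j (fun y => shift p g y i i) (ρ • (θ : E3)) - pd j (fun y => g y i i) (ρ • (θ : E3))))
        * (θ : E3) j) * ρ ^ 2 := by
      unfold mi
      rw [← sub_mul, ← Finset.sum_sub_distrib]
      congr 1
      refine Finset.sum_congr rfl fun i _ => ?_
      rw [← Finset.sum_sub_distrib]
      refine Finset.sum_congr rfl fun j _ => ?_
      ring
    rw [e1, Real.norm_eq_abs, abs_mul, abs_of_pos (by positivity : (0 : ℝ) < ρ ^ 2)]
    have h2 : |∑ i, ∑ j,
        ((pd i (fun y => shift p g y i j) (ρ • (θ : E3)) - pd i (fun y => g y i j) (ρ • (θ : E3)))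
        - (pd j (fun y => shift p g y i i) (ρ • (θ : E3)) - pd j (fun y => g y i i) (ρ • (θ : E3))))
        * (θ : E3) j| ≤ 18 * c := by
      refine (Finset.abs_sum_le_sum_abs _ _).trans ?_
      have h3 : ∀ i : Fin 3, |∑ j,
        ((pd i (fun y => shift p g y i j) (ρ • (θ : E3)) - pd i (fun y => g y i j) (ρ • (θ : E3)))
        - (pd j (fun y => shift p g y i i) (ρ • (θ : E3)) - pd j (fun y => g y i i) (ρ • (θ : E3))))
        * (θ : E3) j| ≤ 6 * c := by
        intro i
        refine (Finset.abs_sum_le_sum_abs _ _).trans ?_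
        have h4 : ∀ j : Fin 3, |((pd i (fun y => shift p g y i j) (ρ • (θ : E3))
            - pd i (fun y => g y i j) (ρ • (θ : E3)))
            - (pd j (fun y => shift p g y i i) (ρ • (θ : E3))
            - pd j (fun y => g y i i) (ρ • (θ : E3)))) * (θ : E3) j| ≤ 2 * c := by
          intro j
          rw [abs_mul]
          have a1 := hk i i j
          have a2 := hk j i i
          have a3 := abs_sub (pd i (fun y => shift p g y i j) (ρ • (θ : E3))
            - pd i (fun y => g y i j) (ρ • (θ : E3)))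
            (pd j (fun y => shift p g y i i) (ρ • (θ : E3))
            - pd j (fun y => g y i i) (ρ • (θ : E3)))
          calc _ ≤ (2 * c) * 1 := mul_le_mul (by linarith) (hθ j) (abs_nonneg _) (by linarith)
            _ = 2 * c := mul_one _
        calc _ ≤ ∑ _j : Fin 3, 2 * c := Finset.sum_le_sum fun j _ => h4 j
          _ = 6 * c := by
            rw [Finset.sum_const, Finset.card_univ, Fintype.card_fin, nsmul_eq_mul]
            push_cast
            ring
      calc _ ≤ ∑ _i : Fin 3, 6 * c := Finset.sum_le_sum fun i _ => h3 i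
        _ = 18 * c := by
          rw [Finset.sum_const, Finset.card_univ, Fintype.card_fin, nsmul_eq_mul]
          push_cast
          ring
    calc _ ≤ 18 * c * ρ ^ 2 := mul_le_mul_of_nonneg_right h2 (by positivity)
      _ = 18 * (24 * C * ‖p‖) / ρ := by
        rw [hc]
        field_simp
  have h5 := norm_integral_le_of_norm_le_const (μ := μ) (Eventually.of_forall hb)
  rw [Real.norm_eq_abs] at h5
  refine h5.trans (le_of_eq ?_)
  ring

/-! ### The shells -/

theorem msz_nonneg (B : Bil) : 0 ≤ msz B := Real.sqrt_nonneg _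

theorem isCompact_cAnn (a b : ℝ) : IsCompact (cAnn a b) := by
  refine (isCompact_closedBall (0 : E3) b).of_isClosed_subset ?_ ?_
  · exact (isClosed_le continuous_const continuous_norm).inter
      (isClosed_le continuous_norm continuous_const)
  · intro x hx
    rw [Metric.mem_closedBall, dist_zero_right]
    exact hx.2

theorem meas_cAnn (a b : ℝ) : MeasurableSet (cAnn a b) :=
  (isCompact_cAnn a b).isClosed.measurableSet

theorem msz_int {k : TensorField} {r₀ a b : ℝ} (ha : r₀ ≤ a)
    (hs : ∀ x : E3, r₀ ≤ ‖x‖ → ∀ i j, ContDiffAt ℝ ∞ (fun y => k y i j) x) :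
    IntegrableOn (fun x => msz (k x)) (cAnn a b) := by
  refine ContinuousOn.integrableOn_compact (isCompact_cAnn a b) ?_
  intro x hx
  have h1 : ∀ i j, ContinuousAt (fun y => k y i j) x := fun i j =>
    (hs x (ha.trans hx.1) i j).continuousAt
  refine ContinuousAt.continuousWithinAt ?_
  unfold msz
  refine Real.continuous_sqrt.continuousAt.comp ?_
  exact tendsto_finsetSum _ fun i _ => tendsto_finsetSum _ fun j _ => (h1 i j).pow 2

theorem shift_int (f : E3 → ℝ) (p : E3) {A : Set E3} (hA : MeasurableSet A) :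
    ∫ x in A, f (x + p) = ∫ y in {y : E3 | y - p ∈ A}, f y := by
  have hA' : MeasurableSet {y : E3 | y - p ∈ A} := (measurable_sub_const p) hA
  rw [← integral_indicator hA, ← integral_indicator hA',
    ← integral_add_right_eq_self (fun y => Set.indicator {y : E3 | y - p ∈ A} f y) p]
  congr 1
  funext x
  by_cases hx : x ∈ A
  · rw [Set.indicator_of_mem hx, Set.indicator_of_mem (by simpa using hx)]
  · rw [Set.indicator_of_notMem hx, Set.indicator_of_notMem (by simpa using hx)]

end TRM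

open TRM

/-- TRM. -/
theorem t_TRM : Stmt_TRM := by
  intro P g k p H
  obtain ⟨C, R, hd⟩ := H.infinity
  obtain ⟨r₀, hr1, hrR, hrP⟩ := radius P R
  have hr0 : 0 < r₀ := by linarith
  have hp := norm_nonneg p
  have hC : 0 ≤ C := by
    let e : E3 := EuclideanSpace.single 0 r₀
    have hn : ‖e‖ = r₀ := by
      simp only [e, EuclideanSpace.norm_single, Real.norm_eq_abs]
      exact abs_of_pos hr0
    have h1 := (hd e (by rw [hn]; exact hrR) 0 0).1
    have h2 : 0 ≤ C / ‖e‖ := (abs_nonneg _).trans h1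
    rw [hn] at h2
    by_contra hcon
    push Not at hcon
    have := div_neg_of_neg_of_pos hcon hr0
    linarith
  have hg : ∀ x : E3, r₀ ≤ ‖x‖ → ∀ i j, ContDiffAt ℝ ∞ (fun y => g y i j) x := by
    intro x hx i j
    exact (H.metric.smooth i j).contDiffAt ((isOpenP P).mem_nhds (by simpa using hrP x hx))
  have hk : ∀ x : E3, r₀ ≤ ‖x‖ → ∀ i j, ContDiffAt ℝ ∞ (fun y => k y i j) x := by
    intro x hx i j
    exact (H.tensor.smooth i j).contDiffAt ((isOpenP P).mem_nhds (by simpa using hrP x hx))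
  constructor
  · intro m hm
    obtain ⟨K, hK⟩ := mass_diff p hC hr0 hg
      (fun x hx i j a b => (hd x (hrR.trans hx) i j).2.2.1 a b)
    have key : Tendsto (fun ρ => massIntegral (shift p g) ρ - massIntegral g ρ) atTop (𝓝 0) := by
      refine squeeze_zero_norm' ?_ (tendsto_const_nhds.div_atTop tendsto_id : Tendsto
        (fun ρ : ℝ => K / ρ) atTop (𝓝 0))
      filter_upwards [eventually_ge_atTop (2 * (r₀ + ‖p‖))] with ρ hρ
      rw [Real.norm_eq_abs]
      exact hK ρ hρ
    have h1 := key.add hm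
    rw [zero_add] at h1
    refine h1.congr fun ρ => ?_
    ring
  · intro hF
    unfold FarSmall at hF ⊢
    have t1 : Tendsto (fun l : ℝ => 1 / 2 * ∫ x in cAnn ((l / 2) / 2) (l / 2), msz (k x) / (l / 2))
        atTop (𝓝 (1 / 2 * 0)) :=
      (hF.comp (tendsto_id.atTop_div_const (by norm_num : (0 : ℝ) < 2))).const_mul _
    have t2 : Tendsto (fun l : ℝ => 2 * ∫ x in cAnn ((2 * l) / 2) (2 * l), msz (k x) / (2 * l))
        atTop (𝓝 (2 * 0)) :=
      (hF.comp (tendsto_id.const_mul_atTop (by norm_num : (0 : ℝ) < 2))).const_mul _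
    have t3 := (t1.add hF).add t2
    simp only [mul_zero, add_zero] at t3
    refine squeeze_zero' ?_ ?_ t3
    · filter_upwards [eventually_gt_atTop 0] with l hl
      exact integral_nonneg fun x => div_nonneg (msz_nonneg _) hl.le
    · filter_upwards [eventually_ge_atTop (4 * (r₀ + ‖p‖))] with l hl
      have hl0 : 0 < l := by linarith
      have e1 : ∫ x in cAnn (l / 2) l, msz (shift p k x) / l
          = ∫ y in {y : E3 | y - p ∈ cAnn (l / 2) l}, msz (k y) / l :=
        shift_int (fun y => msz (k y) / l) p (meas_cAnn _ _)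
      rw [e1]
      have hsub : {y : E3 | y - p ∈ cAnn (l / 2) l}
          ⊆ (cAnn (l / 2 / 2) (l / 2) ∪ cAnn (l / 2) l) ∪ cAnn (2 * l / 2) (2 * l) := by
        intro y hy
        obtain ⟨h1, h2⟩ := hy
        have h3 := norm_sub_le y p
        have h4 := norm_sub_norm_le y p
        rcases le_total ‖y‖ (l / 2) with h5 | h5
        · left; left
          exact ⟨by linarith, h5⟩
        · rcases le_total ‖y‖ l with h6 | h6
          · left; right
            exact ⟨h5, h6⟩
          · right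
            exact ⟨by linarith, by linarith⟩
      have hint : ∀ a b : ℝ, r₀ ≤ a → IntegrableOn (fun x => msz (k x) / l) (cAnn a b) :=
        fun a b ha => (msz_int ha hk).div_const l
      have I1 := hint (l / 2 / 2) (l / 2) (by linarith)
      have I2 := hint (l / 2) l (by linarith)
      have I3 := hint (2 * l / 2) (2 * l) (by linarith)
      have hnn : ∀ x, 0 ≤ msz (k x) / l := fun x => div_nonneg (msz_nonneg _) hl0.le
      have s1 : ∫ y in {y : E3 | y - p ∈ cAnn (l / 2) l}, msz (k y) / l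
          ≤ ∫ y in (cAnn (l / 2 / 2) (l / 2) ∪ cAnn (l / 2) l) ∪ cAnn (2 * l / 2) (2 * l),
            msz (k y) / l :=
        setIntegral_mono_set ((I1.union I2).union I3) (Eventually.of_forall hnn)
          (Eventually.of_forall hsub)
      have u1 : ∀ {A B : Set E3}, MeasurableSet B → IntegrableOn (fun x => msz (k x) / l) A →
          IntegrableOn (fun x => msz (k x) / l) B →
          ∫ y in A ∪ B, msz (k y) / l ≤ (∫ y in A, msz (k y) / l) + ∫ y in B, msz (k y) / l := by
        intro A B hB hiA hiB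
        rw [← Set.sdiff_union_self, setIntegral_union Set.disjoint_sdiff_left hB
          (hiA.mono_set Set.sdiff_subset) hiB]
        exact add_le_add (setIntegral_mono_set hiA (Eventually.of_forall hnn)
          (Eventually.of_forall Set.sdiff_subset)) le_rfl
      have s2 := u1 (meas_cAnn (2 * l / 2) (2 * l)) (I1.union I2) I3
      have s3 := u1 (meas_cAnn (l / 2) l) I1 I2
      have e2 : 1 / 2 * ∫ x in cAnn (l / 2 / 2) (l / 2), msz (k x) / (l / 2)
          = ∫ x in cAnn (l / 2 / 2) (l / 2), msz (k x) / l := by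
        rw [← integral_const_mul]
        congr 1
        funext x
        field_simp
      have e3 : 2 * ∫ x in cAnn (2 * l / 2) (2 * l), msz (k x) / (2 * l)
          = ∫ x in cAnn (2 * l / 2) (2 * l), msz (k x) / l := by
        rw [← integral_const_mul]
        congr 1
        funext x
        field_simp
      rw [e2, e3]
      linarith

end Pool.Agent.PFT
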