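import Pool.Agent.PFT.StmtsF

/-!
# TRN: translation of data with several ends
-/

open MeasureTheory Filter Topology
open scoped ContDiff ENNReal

namespace Pool.Agent.PFT

open Pool.Agent.PenroseSph Pool.Agent.PFlow

namespace TRN

theorem pdS (F : E3 → ℝ) (p : E3) (k : Fin 3) (x : E3) :
    pd k (fun y => F (y + p)) x = pd k F (x + p) := by
  unfold pd
  rw [fderiv_comp_add_right]

theorem pdS' (F : E3 → ℝ) (p : E3) (k : Fin 3) :
    pd k (fun y => F (y + p)) = fun x => pd k F (x + p) := by
  funext x
  exact pdS F p k x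

theorem christoffelS (g : TensorField) (p : E3) (k i j : Fin 3) (x : E3) :
    christoffel (shift p g) k i j x = christoffel g k i j (x + p) := by
  unfold christoffel shift
  congr 1
  refine Finset.sum_congr rfl fun l _ => ?_
  rw [pdS (fun y => g y j l), pdS (fun y => g y i l), pdS (fun y => g y i j)]

theorem christoffelS' (g : TensorField) (p : E3) (k i j : Fin 3) :
    christoffel (shift p g) k i j = fun x => christoffel g k i j (x + p) := by
  funext x
  exact christoffelS g p k i j x

theorem ricciS (g : TensorField) (p : E3) (i j : Fin 3) (x : E3) :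
    ricci (shift p g) i j x = ricci g i j (x + p) := by
  unfold ricci
  refine Finset.sum_congr rfl fun k _ => ?_
  rw [christoffelS', christoffelS', pdS (christoffel g k i j), pdS (christoffel g k i k)]
  congr 1
  refine Finset.sum_congr rfl fun l _ => ?_
  rw [christoffelS, christoffelS, christoffelS, christoffelS]

theorem scalarS (g : TensorField) (p : E3) (x : E3) :
    scalarCurvature (shift p g) x = scalarCurvature g (x + p) := by
  unfold scalarCurvature
  refine Finset.sum_congr rfl fun i _ => Finset.sum_congr rfl fun j _ => ?_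
  rw [ricciS]
  rfl

theorem energyS (g h : TensorField) (p : E3) (x : E3) :
    energyDensity (shift p g) (shift p h) x = energyDensity g h (x + p) := by
  unfold energyDensity
  rw [scalarS]
  rfl

theorem covS (g T : TensorField) (p : E3) (k i j : Fin 3) (x : E3) :
    covDeriv (shift p g) (shift p T) k i j x = covDeriv g T k i j (x + p) := by
  unfold covDeriv
  congr 1
  · exact pdS (fun y => T y i j) p k x
  · refine Finset.sum_congr rfl fun l _ => ?_
    rw [christoffelS, christoffelS]
    rfl

theorem divS (g T : TensorField) (p : E3) (j : Fin 3) (x : E3) :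
    divergence (shift p g) (shift p T) j x = divergence g T j (x + p) := by
  unfold divergence
  refine Finset.sum_congr rfl fun i _ => Finset.sum_congr rfl fun k _ => ?_
  rw [covS]
  rfl

theorem momS (g h : TensorField) (p : E3) (j : Fin 3) (x : E3) :
    momentumDensity (shift p g) (shift p h) j x = momentumDensity g h j (x + p) := by
  unfold momentumDensity
  exact divS g (fun y => h y - traceWith g h y • g y) p j x

theorem surplusS (g h : TensorField) (p : E3) (x : E3) :
    surplus (shift p g) (shift p h) x = surplus g h (x + p) := by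
  unfold surplus
  rw [energyS]
  congr 1
  unfold jlen
  simp only [momS]
  rfl

theorem mem_trans {P : Finset E3} {p x : E3} : x ∈ trans P p ↔ x + p ∈ P := by
  unfold trans
  rw [Finset.mem_map]
  constructor
  · rintro ⟨q, hq, rfl⟩
    simpa using hq
  · intro h
    exact ⟨x + p, h, by simp⟩

theorem smoothS {f : E3 → ℝ} {P : Finset E3} (p : E3)
    (h : ContDiffOn ℝ ∞ f ((P : Set E3))ᶜ) :
    ContDiffOn ℝ ∞ (fun x => f (x + p)) ((trans P p : Set E3))ᶜ := by
  refine h.comp (contDiff_id.add contDiff_const).contDiffOn ?_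
  intro x hx
  simp only [Set.mem_compl_iff, Finset.mem_coe] at hx ⊢
  rw [mem_trans] at hx
  exact hx

theorem decS {g h : TensorField} (p : E3) (H : ∃ C R : ℝ, DecayFrom C R g h) :
    ∃ C R : ℝ, DecayFrom C R (shift p g) (shift p h) := by
  obtain ⟨C, R, hd⟩ := H
  -- the constant is nonnegative
  have hC : 0 ≤ C := by
    let e : E3 := EuclideanSpace.single 0 (|R| + 1)
    have hpos : 0 < |R| + 1 := by positivity
    have hn : ‖e‖ = |R| + 1 := by
      simp only [e, EuclideanSpace.norm_single, Real.norm_eq_abs]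
      exact abs_of_pos hpos
    have h1 := (hd e (by rw [hn]; linarith [le_abs_self R]) 0 0).1
    have h2 : 0 ≤ C / ‖e‖ := (abs_nonneg _).trans h1
    rw [hn] at h2
    by_contra hcon
    push Not at hcon
    have := div_neg_of_neg_of_pos hcon hpos
    linarith
  refine ⟨8 * C, 2 * ‖p‖ + |R| + |R| + 1, fun x hx => ?_⟩
  have hx0 : 0 < ‖x‖ := by
    have := norm_nonneg p
    have := abs_nonneg R
    linarith
  have hxp : ‖x‖ ≤ ‖x + p‖ + ‖p‖ := by
    have := norm_sub_le (x + p) p
    rwa [add_sub_cancel_right] at this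
  have hhalf : ‖x‖ / 2 ≤ ‖x + p‖ := by
    have := abs_nonneg R
    linarith
  have hR : R ≤ ‖x + p‖ := by
    have := le_abs_self R
    have := abs_nonneg R
    linarith
  have hxp0 : 0 < ‖x + p‖ := lt_of_lt_of_le (by linarith) hhalf
  have b1 : C / ‖x + p‖ ≤ 8 * C / ‖x‖ := by
    rw [div_le_div_iff₀ hxp0 hx0]
    nlinarith [mul_nonneg hC hx0.le, mul_nonneg hC hxp0.le]
  have b2 : C / ‖x + p‖ ^ 2 ≤ 8 * C / ‖x‖ ^ 2 := by
    rw [div_le_div_iff₀ (by positivity) (by positivity)]
    have h1 : ‖x‖ ^ 2 ≤ 4 * ‖x + p‖ ^ 2 := by nlinarith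
    nlinarith [mul_le_mul_of_nonneg_left h1 hC, mul_nonneg hC (sq_nonneg ‖x + p‖)]
  have b3 : C / ‖x + p‖ ^ 3 ≤ 8 * C / ‖x‖ ^ 3 := by
    rw [div_le_div_iff₀ (by positivity) (by positivity)]
    have h1 : ‖x‖ ^ 3 ≤ (2 * ‖x + p‖) ^ 3 := pow_le_pow_left₀ hx0.le (by linarith) 3
    have h2 : C * ‖x‖ ^ 3 ≤ C * (2 * ‖x + p‖) ^ 3 := mul_le_mul_of_nonneg_left h1 hC
    calc C * ‖x‖ ^ 3 ≤ C * (2 * ‖x + p‖) ^ 3 := h2
      _ = 8 * C * ‖x + p‖ ^ 3 := by ring
  intro i j
  obtain ⟨h1, h2, h3, h4, h5⟩ := hd (x + p) hR i j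
  refine ⟨h1.trans b1, fun k => ?_, fun k l => ?_, h4.trans b2, fun k => ?_⟩
  · have e : pd k (fun y => shift p g y i j) x = pd k (fun y => g y i j) (x + p) :=
      pdS (fun y => g y i j) p k x
    rw [e]
    exact (h2 k).trans b2
  · have e : pd k (pd l (fun y => shift p g y i j)) x
        = pd k (pd l (fun y => g y i j)) (x + p) := by
      have e1 : pd l (fun y => shift p g y i j) = fun x => pd l (fun y => g y i j) (x + p) :=
        pdS' (fun y => g y i j) p l
      rw [e1]
      exact pdS (pd l (fun y => g y i j)) p k x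
    rw [e]
    exact (h3 k l).trans b3
  · have e : pd k (fun y => shift p h y i j) x = pd k (fun y => h y i j) (x + p) :=
      pdS (fun y => h y i j) p k x
    rw [e]
    exact (h5 k).trans b3

theorem shift_shift (g : TensorField) (p q : E3) : shift q (shift p g) = shift (q + p) g := by
  funext x
  unfold shift
  rw [add_assoc]

end TRN

open TRN

/-- TRN. -/
theorem t_TRN : Stmt_TRN := by
  intro P g k p H
  refine ⟨⟨⟨fun i j => ?_, fun x hx => ?_⟩, ⟨fun i j => ?_, fun x hx => ?_⟩, ?_, ?_⟩, ?_, ?_⟩
  · exact smoothS p (H.metric.smooth i j)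
  · have hx' : x + p ∈ ((P : Set E3))ᶜ := by
      simp only [Set.mem_compl_iff, Finset.mem_coe] at hx ⊢
      rwa [mem_trans] at hx
    exact H.metric.posDef _ hx'
  · exact smoothS p (H.tensor.smooth i j)
  · have hx' : x + p ∈ ((P : Set E3))ᶜ := by
      simp only [Set.mem_compl_iff, Finset.mem_coe] at hx ⊢
      rwa [mem_trans] at hx
    exact H.tensor.symm _ hx'
  · exact decS p H.infinity
  · intro q hq
    rw [mem_trans] at hq
    rw [shift_shift, shift_shift]
    exact H.points _ hq
  · intro hs x hx
    rw [surplusS]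
    exact hs _ (fun h => hx (mem_trans.2 h))
  · intro hs x hx
    exact hs (x + p) (fun h => hx (mem_trans.2 h))

end Pool.Agent.PFT
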