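import Pool.Agent.PFT.StmtsL

/-!
# Module UBAR: the barriers near zero and far out do not depend on the depth of the caps
-/

open MeasureTheory Filter Topology
open scoped ContDiff ENNReal

namespace Pool.Agent.PFT

open Pool.Agent.PenroseSph Pool.Agent.PFlow

namespace UBARm

/-- The barrier quotient depends only on the germ of the metric and on the value of the tensor. -/
lemma barB_congr {ε : ℝ} {g g' h h' : TensorField} {x : E3} (hg : g =ᶠ[𝓝 x] g')
    (hh : h x = h' x) : barB ε g h x = barB ε g' h' x := by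
  have hgx : g x = g' x := hg.eq_of_nhds
  have hpd : ∀ l i j, pd l (fun y => g y i j) x = pd l (fun y => g' y i j) x := by
    intro l i j
    have h1 : (fun y => g y i j) =ᶠ[𝓝 x] fun y => g' y i j :=
      hg.mono fun y hy => by simp only [hy]
    simp only [pd, h1.fderiv_eq]
  have hch : ∀ k i j, christoffel g k i j x = christoffel g' k i j x := by
    intro k i j
    simp only [christoffel, hgx, hpd]
  have hcH : ∀ p M, cHess g x p M = cHess g' x p M := by
    intro p M
    simp only [cHess, hch]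
  have hnr : ∀ p, nrm g x p = nrm g' x p := by
    intro p
    funext i
    simp only [nrm, raise, len, hgx]
  simp only [barB, hcH, hh, beps, trg, bnn, hnr, len, hgx]

/-- Far away from the caps the capped metric is the given one. -/
lemma same_nhds {P : Finset E3} {g k g₁ k₁ : TensorField} {C N : ℝ} {e : E3 → ℝ}
    (hc : Capped P g k C N g₁ k₁ e) {x : E3}
    (hx : ∀ p ∈ P, p ≠ 0 → 1 / (16 * N) < ‖x - p‖) : g₁ =ᶠ[𝓝 x] g := by
  have h1 : ∀ᶠ y in 𝓝 x, ∀ p ∈ P, p ≠ 0 → 1 / (16 * N) < ‖y - p‖ := by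
    refine (Finset.eventually_all P).2 fun p hp => ?_
    by_cases h0 : p = 0
    · exact Eventually.of_forall fun y h => absurd h0 h
    · have h2 : ∀ᶠ y in 𝓝 x, 1 / (16 * N) < ‖y - p‖ :=
        (isOpen_lt continuous_const (by fun_prop)).mem_nhds (hx p hp h0)
      exact h2.mono fun y hy _ => hy
  exact h1.mono fun y hy => hc.same y hy

end UBARm

open UBARm in
/-- **(UBAR)** Near zero and far out the barrier constant does not depend on the depth. -/
theorem t_UBAR : Stmt_UBAR := by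
  intro P g k C₁ C₂ l₀ N₀ N ρ₁ r₁ g₀ k₀ g₁ k₁ e₀ e₁ hc0 hc1 hN0 hN hP hmod l R η ε hl hR hη hε hε1 x
    hx1 hx
  have hN0' : 0 < N₀ := by linarith
  have hN' : 0 < N := by linarith
  -- the distance from the caps
  have hd : ∀ p ∈ P, p ≠ 0 → 1 / (4 * N₀) < ‖x - p‖ := by
    intro p hp h0
    obtain ⟨h1, h2⟩ := hP p hp h0
    rcases hx with h3 | h3
    · have h4 : ‖p‖ - ‖x‖ ≤ ‖p - x‖ := norm_sub_norm_le p x
      rw [norm_sub_rev] at h4
      linarith
    · have h4 : ‖x‖ - ‖p‖ ≤ ‖x - p‖ := norm_sub_norm_le x p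
      linarith
  have hle : ∀ a b M : ℝ, N₀ ≤ M → 0 < a → a ≤ b → 1 / (b * M) ≤ 1 / (a * N₀) := by
    intro a b M hM ha hab
    apply one_div_le_one_div_of_le (by positivity)
    exact mul_le_mul hab hM hN0'.le (by linarith)
  have hg0 : g₀ =ᶠ[𝓝 x] g := same_nhds hc0 fun p hp h0 =>
    lt_of_le_of_lt (hle 4 16 N₀ le_rfl (by norm_num) (by norm_num)) (hd p hp h0)
  have hg1 : g₁ =ᶠ[𝓝 x] g := same_nhds hc1 fun p hp h0 =>
    lt_of_le_of_lt (hle 4 16 N hN (by norm_num) (by norm_num)) (hd p hp h0)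
  have hk0 : k₀ x = k x := hc0.sameK x fun p hp h0 =>
    lt_of_le_of_lt (hle 4 8 N₀ le_rfl (by norm_num) (by norm_num)) (hd p hp h0)
  have hk1 : k₁ x = k x := hc1.sameK x fun p hp h0 =>
    lt_of_le_of_lt (hle 4 8 N hN (by norm_num) (by norm_num)) (hd p hp h0)
  have hgg : g₁ =ᶠ[𝓝 x] g₀ := hg1.trans hg0.symm
  have hgx : g₁ x = g₀ x := hgg.eq_of_nhds
  have hkx : k₁ x = k₀ x := hk1.trans hk0.symm
  have hG : modG l R g₁ =ᶠ[𝓝 x] modG l R g₀ := hgg.mono fun y hy => by
    simp only [modG, hy]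
  have hH : modH η l R g₁ k₁ x = modH η l R g₀ k₀ x := by
    simp only [modH, hat, trg, hgx, hkx]
  unfold BarAt
  rw [barB_congr hG hH]
  exact (hmod l R η hl hR hη).barrier ε hε hε1 x hx1

end Pool.Agent.PFT
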