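import Pool.Agent.PFT.StmtsL
import Pool.Agent.PFT.Har
import Pool.Agent.PFlow.E.LOC

/-!
# ULB: uniform lower bound of the solution
-/

open MeasureTheory Filter Topology
open scoped ContDiff ENNReal

set_option autoImplicit false

namespace Pool.Agent.PFT

open Pool.Agent.PenroseSph Pool.Agent.PFlow

namespace ULBAux

lemma exists_norm_eq (r : ℝ) (hr : 0 ≤ r) : ∃ z : E3, ‖z‖ = r := by
  refine ⟨EuclideanSpace.single 0 r, ?_⟩
  rw [PiLp.norm_single, Real.norm_eq_abs, abs_of_nonneg hr]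

lemma frontier_ann (a b : ℝ) (x : E3) (hx : x ∈ frontier {x : E3 | a < ‖x‖ ∧ ‖x‖ < b}) :
    ‖x‖ = a ∨ ‖x‖ = b := by
  have hop : IsOpen {x : E3 | a < ‖x‖ ∧ ‖x‖ < b} :=
    (isOpen_lt continuous_const continuous_norm).inter
      (isOpen_lt continuous_norm continuous_const)
  have hcl : IsClosed {x : E3 | a ≤ ‖x‖ ∧ ‖x‖ ≤ b} :=
    (isClosed_le continuous_const continuous_norm).inter
      (isClosed_le continuous_norm continuous_const)
  rw [hop.frontier_eq] at hx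
  have hsub : {x : E3 | a < ‖x‖ ∧ ‖x‖ < b} ⊆ {x : E3 | a ≤ ‖x‖ ∧ ‖x‖ ≤ b} :=
    fun y hy => ⟨le_of_lt hy.1, le_of_lt hy.2⟩
  have h1 : x ∈ {x : E3 | a ≤ ‖x‖ ∧ ‖x‖ ≤ b} := closure_minimal hsub hcl hx.1
  by_contra hcon
  push Not at hcon
  exact hx.2 ⟨lt_of_le_of_ne h1.1 (Ne.symm hcon.1), lt_of_le_of_ne h1.2 hcon.2⟩

end ULBAux

open ULBAux Loc in
theorem ULB (hNZ : Stmt_NZ) : Stmt_ULB := by
  intro P g k h0P hSE ε C ρ₁ r₁ hε hε1 hC hρ hρ1 hPρ hPr hr₁
  obtain ⟨c₀, R₀, hc₀, hR₀, hnz⟩ := hNZ ε C ρ₁ hε hε1 hC hρ hρ1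
  set U : Set E3 := ((P : Set E3))ᶜ with hU
  obtain ⟨hUo, hUc⟩ := CONC (P : Set E3) P.finite_toSet
  -- the bound of `k`
  set H : E3 → ℝ := fun x => ∑ i, ∑ j, |k x i j| with hH
  have hHc : ContinuousOn H U := by
    rw [hH]
    exact continuousOn_finsetSum _ fun i _ => continuousOn_finsetSum _ fun j _ =>
      ((hSE.tensor.smooth i j).continuousOn).abs
  have hkH : ∀ x i j, |k x i j| ≤ H x := by
    intro x i j
    exact (Finset.single_le_sum (f := fun j => |k x i j|) (fun j _ => abs_nonneg _)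
      (Finset.mem_univ j)).trans (Finset.single_le_sum (f := fun i => ∑ j, |k x i j|)
        (fun i _ => Finset.sum_nonneg fun j _ => abs_nonneg _) (Finset.mem_univ i))
  -- the small ball
  obtain ⟨z₀, hz₀⟩ := exists_norm_eq (ρ₁ / 3) (by linarith)
  have hball : ∀ x ∈ Metric.closedBall z₀ (ρ₁ / 12), ρ₁ / 4 ≤ ‖x‖ ∧ ‖x‖ ≤ ρ₁ / 2 := by
    intro x hx
    rw [Metric.mem_closedBall, dist_eq_norm] at hx
    have h1 : ‖x‖ ≤ ‖x - z₀‖ + ‖z₀‖ := by
      have := norm_add_le (x - z₀) z₀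
      rwa [sub_add_cancel] at this
    have h2 : ‖z₀‖ ≤ ‖x - z₀‖ + ‖x‖ := by
      have := norm_sub_le x (x - z₀)
      rw [sub_sub_cancel] at this
      linarith
    constructor <;> linarith
  have hballU : Metric.closedBall z₀ (ρ₁ / 12) ⊆ U := by
    intro x hx hxP
    obtain ⟨h1, h2⟩ := hball x hx
    have hx0 : x ≠ 0 := by
      intro h
      rw [h, norm_zero] at h1
      linarith
    have := hPρ x hxP hx0
    linarith
  -- the sphere
  have hKc : IsCompact (Metric.sphere (0 : E3) r₁) := isCompact_sphere _ _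
  have hKU : Metric.sphere (0 : E3) r₁ ⊆ U := by
    intro x hx hxP
    rw [mem_sphere_zero_iff_norm] at hx
    have := hPr x hxP
    linarith
  obtain ⟨K', c₁, hK'c, hK'U, hc₁, hhar⟩ := HAR ε H U g hε (by linarith) hHc hUo hUc hSE.metric z₀
    (ρ₁ / 12) (Metric.sphere (0 : E3) r₁) (by linarith) hballU hKc hKU
  -- the constants
  obtain ⟨δ, hδ, hδK⟩ : ∃ δ : ℝ, 0 < δ ∧ ∀ x ∈ K', ∀ p ∈ P, δ ≤ ‖x - p‖ := by
    rcases K'.eq_empty_or_nonempty with he | hne
    · exact ⟨1, one_pos, fun x hx => by rw [he] at hx; exact absurd hx (Set.notMem_empty x)⟩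
    · have hPne : ((P : Set E3)).Nonempty := ⟨0, h0P⟩
      have hdisj : Disjoint K' (P : Set E3) := Set.disjoint_left.mpr fun x hx hxP => hK'U hx hxP
      obtain ⟨δ, hδ, h⟩ := Metric.exists_pos_forall_lt_edist hK'c P.finite_toSet.isClosed hdisj
      refine ⟨δ, by exact_mod_cast hδ, fun x hx p hp => ?_⟩
      have h2 := (h x hx p hp).le
      rw [edist_dist, dist_eq_norm] at h2
      have h3 := (ENNReal.ofReal_le_ofReal_iff (norm_nonneg (x - p))).mp
        (by simpa using h2 : ENNReal.ofReal (δ : ℝ) ≤ ENNReal.ofReal ‖x - p‖)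
      exact h3
  obtain ⟨B, hB⟩ : ∃ B : ℝ, ∀ x ∈ K', ‖x‖ ≤ B := by
    obtain ⟨B, hB⟩ := hK'c.isBounded.exists_norm_le
    exact ⟨B, hB⟩
  refine ⟨min c₀ (c₁ * c₀), 1 / δ, R₀ + 1 / δ + |B| + 8 / ρ₁ + 2 * r₁, |B|,
    lt_min hc₀ (mul_pos hc₁ hc₀), by positivity, by positivity, ?_⟩
  intro N R hN hR η g' h' u G M hη0 hη hg' hsame hbar sol x hx hxr
  have hδi : 0 < 1 / δ := by positivity
  have hρi : 0 < 8 / ρ₁ := by positivity
  have hB0 : 0 ≤ |B| := abs_nonneg B
  have hN0 : 0 < N := by linarith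
  have hR0 : 0 < R := by linarith
  have hRδ : 1 / δ ≤ R := by linarith
  have hRρ : 8 / ρ₁ ≤ R := by linarith
  have hRB : |B| ≤ R := by linarith
  have hRr : r₁ < R := by linarith
  have hiR : 1 / R ≤ ρ₁ / 8 := by
    rw [div_le_div_iff₀ hR0 (by norm_num)]
    rw [div_le_iff₀ hρ] at hRρ
    linarith
  have hiRδ : 1 / R ≤ δ := by
    rw [div_le_iff₀ hδ] at hRδ
    rw [div_le_iff₀ hR0]
    linarith
  have hiNδ : 1 / N ≤ δ := by
    rw [div_le_iff₀ hδ] at hN
    rw [div_le_iff₀ hN0]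
    linarith
  have hlow := hnz R (by linarith) η g' h' u G M hη0 hη hg' hbar sol
  -- `K'` lies in the region where the data are the given ones
  have hK's : ∀ y ∈ K', (g' =ᶠ[𝓝 y] g) ∧ ∃ t : ℝ, |t| ≤ 1 ∧ h' y = t • k y := by
    intro y hy
    refine hsame y ?_ ((hB y hy).trans (le_abs_self B)) ?_
    · have h1 := hδK y hy 0 h0P
      rw [sub_zero] at h1
      refine le_trans ?_ h1
      refine le_trans ?_ hiRδ
      exact one_div_le_one_div_of_le hR0 (by linarith)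
    · intro p hp _
      refine lt_of_lt_of_le ?_ (hδK y hy p hp)
      refine lt_of_lt_of_le ?_ hiNδ
      exact one_div_lt_one_div_of_lt hN0 (by linarith)
  have hsph : ∀ y : E3, ‖y‖ = r₁ → c₁ * c₀ ≤ u y := by
    intro y hy
    refine (hhar (1 / R) R η g' h' u G M sol (fun y hy => (hK's y hy).1) ?_ c₀ hc₀.le).1 ?_ ?_ y
      (by rw [mem_sphere_zero_iff_norm]; exact hy)
    · intro y hy i j
      obtain ⟨-, t, ht, hty⟩ := hK's y hy
      rw [hty, Matrix.smul_apply, smul_eq_mul, abs_mul]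
      exact (mul_le_of_le_one_left (abs_nonneg _) ht).trans (hkH y i j)
    · intro y hy
      constructor
      · have h1 := hδK y hy 0 h0P
        rw [sub_zero] at h1
        have : 0 < 1 / R := by positivity
        linarith
      · exact ((hB y hy).trans (le_abs_self B)).trans hRB
    · intro y hy
      exact hlow y (hball y hy).2
  by_cases hxρ : ‖x‖ ≤ ρ₁ / 2
  · exact (min_le_left _ _).trans (hlow x hxρ)
  push Not at hxρ
  rcases hxr.eq_or_lt with h | h
  · exact (min_le_right _ _).trans (hsph x h)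
  -- no islands
  set D : Set E3 := {y : E3 | ρ₁ / 4 < ‖y‖ ∧ ‖y‖ < r₁} with hD
  have hDo : IsOpen D := (isOpen_lt continuous_const continuous_norm).inter
    (isOpen_lt continuous_norm continuous_const)
  have hDcl : closure D ⊆ {y : E3 | ρ₁ / 4 ≤ ‖y‖ ∧ ‖y‖ ≤ r₁} :=
    closure_minimal (fun y hy => ⟨hy.1.le, hy.2.le⟩) (isCompact_shell _ _).isClosed
  have hDc : IsCompact (closure D) := (isCompact_shell (ρ₁ / 4) r₁).of_isClosed_subset isClosed_closure hDcl
  have hDA : closure D ⊆ Ann (1 / R) R := by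
    intro y hy
    obtain ⟨h1, h2⟩ := hDcl hy
    exact ⟨by linarith, by linarith⟩
  obtain ⟨y, hy, hyx⟩ := (sol.noIsland D hDo hDc hDA x ⟨by linarith, h⟩).2
  rcases frontier_ann _ _ y hy with h1 | h1
  · exact (min_le_left _ _).trans ((hlow y (by linarith)).trans hyx)
  · exact (min_le_right _ _).trans ((hsph y h1).trans hyx)

end Pool.Agent.PFT
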