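import Pool.Agent.PFT.StmtsL

/-!
# USAM: the modified capped data agree with the given data outside the caps
-/

open MeasureTheory Filter Topology
open scoped ContDiff ENNReal

namespace Pool.Agent.PFT

open Pool.Agent.PenroseSph Pool.Agent.PFlow

namespace USAM

theorem kap_one {s : ℝ} (hs : s ≤ 1) : kap s = 1 :=
  Real.smoothTransition.one_of_one_le (by linarith)

theorem kap_zero {s : ℝ} (hs : 2 ≤ s) : kap s = 0 :=
  Real.smoothTransition.zero_of_nonpos (by linarith)

theorem kin_one {R : ℝ} (hR : 0 < R) {x : E3} (hx : 1 / (16 * R) ≤ ‖x‖) : kin R x = 1 := by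
  have h1 : 2 ≤ 32 * R * ‖x‖ := by
    rw [div_le_iff₀ (by positivity)] at hx
    nlinarith
  rw [kin, kap_zero h1, sub_zero]

theorem abs_hatF_le (η t : ℝ) : |hatF η t| ≤ 1 := by
  unfold hatF
  rw [abs_div, abs_of_nonneg (Real.sqrt_nonneg _)]
  apply div_le_one_of_le₀ _ (Real.sqrt_nonneg _)
  apply Real.abs_le_sqrt
  nlinarith [sq_nonneg η]

end USAM

theorem t_USAM : Stmt_USAM := by
  intro P g k C₁ N g₁ k₁ e₁ _ _ hc hN l R η r₂ hl hlR _ hr x hx1 hx2 hx3
  have hR : 0 < R := by linarith
  have hN0 : 0 < N := by linarith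
  have hxl : ‖x‖ < l / 2 := by linarith
  refine ⟨?_, hatF η (trg g₁ x (k₁ x)), USAM.abs_hatF_le _ _, ?_⟩
  · have e1 : ∀ᶠ y : E3 in 𝓝 x, ‖y‖ < l := by
      apply (continuous_norm.tendsto x).eventually_lt_const
      linarith
    have e2 : ∀ᶠ y : E3 in 𝓝 x, 1 / (16 * R) < ‖y‖ := by
      apply (continuous_norm.tendsto x).eventually_const_lt
      refine lt_of_lt_of_le ?_ hx1
      apply one_div_lt_one_div_of_lt (by positivity)
      linarith
    have e3 : ∀ᶠ y : E3 in 𝓝 x, ∀ p ∈ P, p ≠ 0 → 1 / (16 * N) < ‖y - p‖ := by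
      rw [Filter.eventually_all_finset]
      intro p hp
      by_cases hp0 : p = 0
      · exact Filter.Eventually.of_forall (fun y h => absurd hp0 h)
      · have h1 : 1 / (16 * N) < ‖x - p‖ := by
          refine lt_trans ?_ (hx3 p hp hp0)
          apply one_div_lt_one_div_of_lt (by positivity)
          linarith
        have h2 : Continuous fun y : E3 => ‖y - p‖ := by fun_prop
        filter_upwards [(h2.tendsto x).eventually_const_lt h1] with y hy _
        exact hy
    filter_upwards [e1, e2, e3] with y h1 h2 h3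
    have h4 : kap (‖y‖ / l) = 1 := by
      apply USAM.kap_one
      rw [div_le_one (by linarith)]
      exact h1.le
    rw [modG, h4, USAM.kin_one hR h2.le, one_mul, one_smul, add_sub_cancel, hc.same y h3]
  · have h4 : kap (2 * ‖x‖ / l) = 1 := by
      apply USAM.kap_one
      rw [div_le_one (by linarith)]
      linarith
    have h5 : kin (R / 2) x = 1 := by
      apply USAM.kin_one (by positivity)
      have : 16 * (R / 2) = 8 * R := by ring
      rw [this]
      exact hx1
    rw [modH, h4, h5, one_mul, one_smul, hat, hc.sameK x hx3]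

end Pool.Agent.PFT
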