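import Pool.Agent.PFT.StmtsE
import Pool.Agent.PFlow.E.XWO

/-!
# Module XWOU: the cubic integral over the outer windows, constant depending on `ε` and `γ` only
-/

open MeasureTheory Filter Topology
open scoped ContDiff ENNReal

namespace Pool.Agent.PFT

open Pool.Agent.PenroseSph Pool.Agent.PFlow

open XWOm in
/-- **(XWOU)** The cubic integral over the outer windows. -/
theorem t_XWOU (hSETW : Stmt_SETW) (hLE : Stmt_LE) : Stmt_XWOU := by
  intro ε γ hε hε2 hγ
  have h2ε : 0 < 2 - ε := by linarith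
  set a := Real.exp (-γ / (2 - ε)) with ha
  set b := Real.exp ((1 + γ) / (2 - ε)) with hb
  have ha0 : 0 < a := Real.exp_pos _
  have hb0 : 0 < b := Real.exp_pos _
  have hab : a < b := by
    apply Real.exp_lt_exp.mpr
    exact (div_lt_div_iff_of_pos_right h2ε).mpr (by linarith)
  obtain ⟨C, hC, hLE'⟩ := hLE ε 0 (a / 2) a b (2 * b) hε (by linarith) le_rfl
    (by linarith) (by linarith) hab (by linarith)
  refine ⟨ε ^ 3 * C * Real.exp ((1 + 2 * γ + (2 - ε) * Real.log 2) / ε) ^ 3,
    by positivity, ?_⟩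
  intro P D hPe hPg S s hs hs1
  subst hPe
  subst hPg
  obtain ⟨-, -, -, -, -, -, hmeas, -, -, hR2, h4l, -⟩ := hSETW P D S
  have hl : 4 ≤ D.l := S.l_ge
  have hR : 16 * D.l ≤ D.R := by
    have h1 := S.R_ge'
    have h2 : 16 * D.l ≤ 2 * D.l / P.kap := by
      rw [le_div_iff₀ S.kap_pos]
      nlinarith [S.kap_le]
    linarith
  have hR0 : 0 < D.R := by linarith
  have hRi : 1 / D.R ≤ 1 := by
    rw [div_le_one hR0]
    linarith
  set ρ := Real.exp (s / (2 - P.eps)) with hρ
  have hρ0 : 0 < ρ := Real.exp_pos _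
  have haρ : a * ρ = Real.exp ((s - P.gam) / (2 - P.eps)) := by
    rw [ha, hρ, ← Real.exp_add]
    congr 1
    ring
  have hbρ : b * ρ = Real.exp ((s + 1 + P.gam) / (2 - P.eps)) := by
    rw [hb, hρ, ← Real.exp_add]
    congr 1
    ring
  have h4 : 4 * D.l ≤ a * ρ := by
    rw [haρ, ← Real.log_le_iff_le_exp (by linarith), le_div_iff₀ h2ε]
    have h1 : D.s2 P = (2 - P.eps) * Real.log (4 * D.l) + P.gam := rfl
    rw [h1] at hs
    linarith
  have hbR : b * ρ ≤ D.R / 2 := by
    rw [hbρ, ← Real.le_log_iff_exp_le (by linarith), div_le_iff₀ h2ε]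
    have h1 : D.sM P = (2 - P.eps) * Real.log (D.R / 2) - P.gam := rfl
    rw [h1] at hs1
    linarith
  -- the big annulus
  have hbig : ∀ x ∈ Ann (a / 2 * ρ) (2 * b * ρ), 2 * D.l < ‖x‖ ∧ ‖x‖ < D.R := by
    intro x hx
    constructor
    · have h1 := hx.1
      nlinarith
    · have h1 := hx.2
      nlinarith
  have hsub : Ann (a / 2 * ρ) (2 * b * ρ) ⊆ Ann (1 / D.R) D.R := by
    intro x hx
    obtain ⟨h1, h2⟩ := hbig x hx
    exact ⟨by linarith, h2⟩
  have hflat : ∀ x : E3, 2 * D.l < ‖x‖ → ∀ᶠ y in 𝓝 x, D.g' y = 1 := by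
    intro x hx
    filter_upwards [(isOpen_lt continuous_const continuous_norm).mem_nhds hx] with y hy
    exact S.modified.flat y (le_of_lt hy)
  have hh0 : ∀ x : E3, 2 * D.l < ‖x‖ → D.h' x = 0 := by
    intro x hx
    exact S.modified.supp x (by linarith)
  have hsol := S.sol
  have hloc := S.located
  -- the bound for `u`
  set T := Real.exp ((2 * P.gam + (2 - P.eps) * Real.log 2 - s) / P.eps) with hT
  have hT0 : 0 < T := Real.exp_pos _
  have hub : ∀ x ∈ Ann (a / 2 * ρ) (2 * b * ρ), |D.u x| ≤ T := by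
    intro x hx
    obtain ⟨h1, h2⟩ := hbig x hx
    have hu : 0 < D.u x := hloc.pos x (hsub hx)
    rw [abs_of_pos hu, hT, ← Real.log_le_iff_le_exp hu, le_div_iff₀ hε]
    have h3 := hloc.outer_low x (by linarith) h2
    have h5 : wOf P.eps D.u x = -P.eps * Real.log (D.u x) := rfl
    rw [h5] at h3
    have hx0 : 0 < ‖x‖ := by linarith
    have h6 : (s - P.gam) / (2 - P.eps) - Real.log 2 ≤ Real.log ‖x‖ := by
      rw [Real.le_log_iff_exp_le hx0, Real.exp_sub, Real.exp_log two_pos, ← haρ]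
      have h7 := hx.1
      linarith
    have h7 : (2 - P.eps) * ((s - P.gam) / (2 - P.eps) - Real.log 2)
        = s - P.gam - (2 - P.eps) * Real.log 2 := by
      field_simp
    have h8 := mul_le_mul_of_nonneg_left h6 h2ε.le
    rw [h7] at h8
    linarith
  -- the equation in the flat region
  have heq : ∀ᵐ x ∂(volume.restrict (Ann (a / 2 * ρ) (2 * b * ρ))),
      |∑ i, D.M x i i| ≤ (1 - P.eps) * msz (D.M x) + 0 / ρ * vsz (D.G x) := by
    have h1 : ∀ᵐ x ∂(volume.restrict (Ann (a / 2 * ρ) (2 * b * ρ))), _ :=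
      ae_restrict_of_ae_restrict_of_subset hsub hsol.eq
    filter_upwards [h1, ae_restrict_mem (isOpen_Ann _ _).measurableSet] with x hx hxA
    obtain ⟨h2, -⟩ := hbig x hxA
    have hg := hflat x h2
    have hg1 : D.g' x = 1 := hg.self_of_nhds
    rw [zero_div, zero_mul, add_zero]
    by_cases hG : D.G x = 0
    · rw [hx.2 hG]
      simp only [Matrix.zero_apply, Finset.sum_const_zero, abs_zero]
      exact mul_nonneg (by linarith) (msz_nonneg _)
    · have h3 := hx.1 hG
      rw [cHess_flat hg, hh0 x h2] at h3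
      have h5 : beps P.eps D.g' x (D.G x) (0 : Bil) = 0 := by
        simp [beps, trg, bnn, ev]
      rw [h5, mul_zero, add_zero, beps, trg_flat hg1] at h3
      have h6 : ∑ i, D.M x i i = (1 - P.eps) * bnn D.g' x (D.G x) (D.M x) := by linarith
      rw [h6, abs_mul, abs_of_nonneg (by linarith : (0 : ℝ) ≤ 1 - P.eps)]
      exact mul_le_mul_of_nonneg_left (bnn_flat hg1 hG _) (by linarith)
  obtain ⟨hint, hle⟩ := hLE' ρ T D.u D.G D.M hρ0 hT0.le (H2On_mono hsol.h2 hsub) hub heq
  -- the window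
  set Wn : Set E3 := D.Om ∩ {x | s < D.w P x ∧ D.w P x < s + 1} with hWn
  have hWm : MeasurableSet Wn := by
    refine (isOpen_Ann _ _).measurableSet.inter ?_
    exact (measurableSet_lt measurable_const hmeas).inter (measurableSet_lt hmeas measurable_const)
  have hWsub : Wn ⊆ cAnn (a * ρ) (b * ρ) := by
    rintro x ⟨hxO, hx1, hx2⟩
    have h1 := hR2 x hxO (by linarith)
    have h2 := h4l x hxO (by linarith)
    have h3 := abs_le.mp (hloc.outer x (by linarith) h1.le)
    have h5 : D.w P x = wOf P.eps D.u x := rfl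
    rw [← h5] at h3
    have hx0 : 0 < ‖x‖ := by linarith
    constructor
    · rw [haρ, ← Real.le_log_iff_exp_le hx0, div_le_iff₀ h2ε]
      linarith [h3.2]
    · rw [hbρ, ← Real.log_le_iff_le_exp hx0, le_div_iff₀ h2ε]
      linarith [h3.1]
  set k := P.eps * Real.exp ((s + 1) / P.eps) with hk
  have hk0 : 0 < k := by positivity
  have hpt : ∀ x ∈ Wn, D.X P x ^ 3 * D.vol x ≤ k ^ 3 * vsz (D.G x) ^ 3 := by
    intro x hxW
    obtain ⟨hxO, hx1, hx2⟩ := id hxW
    have h2 := h4l x hxO (by linarith)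
    have hg1 : D.g' x = 1 := (hflat x (by linarith)).self_of_nhds
    have hu : 0 < D.u x := hloc.pos x hxO
    have h3 : D.vol x = 1 := volDen_flat hg1
    have h5 : D.X P x = P.eps / D.u x * vsz (D.G x) := by
      have h6 : D.X P x = vsz (D.Gw P x) := len_flat hg1 _
      have h7 : D.Gw P x = fun i => -(P.eps / D.u x) * D.G x i := by
        funext i
        change -P.eps * (D.G x i / D.u x) = _
        ring
      rw [h6, h7, vsz_smul, abs_neg, abs_of_pos (by positivity)]
    have h6 : P.eps / D.u x ≤ k := by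
      rw [hk, div_eq_mul_inv]
      refine mul_le_mul_of_nonneg_left ?_ hε.le
      have h7 : Real.exp (-((s + 1) / P.eps)) ≤ D.u x := by
        rw [← Real.le_log_iff_exp_le hu]
        have h8 : D.w P x = -P.eps * Real.log (D.u x) := rfl
        rw [h8] at hx2
        have h9 : -((s + 1) / P.eps) * P.eps = -(s + 1) := by
          field_simp
        have h10 : -((s + 1) / P.eps) * P.eps ≤ Real.log (D.u x) * P.eps := by
          rw [h9]
          linarith
        exact le_of_mul_le_mul_right h10 hε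
      have h8 := inv_anti₀ (Real.exp_pos _) h7
      rwa [Real.exp_neg, inv_inv] at h8
    rw [h3, mul_one, ← mul_pow, h5]
    refine pow_le_pow_left₀ (mul_nonneg (by positivity) (vsz_nonneg _)) ?_ 3
    exact mul_le_mul_of_nonneg_right h6 (vsz_nonneg _)
  have hnn : ∀ x ∈ Wn, 0 ≤ D.X P x ^ 3 * D.vol x := by
    intro x _
    have h1 : 0 ≤ D.X P x := Real.sqrt_nonneg _
    have h2 : 0 ≤ D.vol x := Real.sqrt_nonneg _
    positivity
  have hI : IntegrableOn (fun x => k ^ 3 * vsz (D.G x) ^ 3) (cAnn (a * ρ) (b * ρ)) :=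
    hint.const_mul _
  have h1 : ∫ x in Wn, D.X P x ^ 3 * D.vol x ≤ ∫ x in Wn, k ^ 3 * vsz (D.G x) ^ 3 := by
    refine integral_mono_of_nonneg ?_ (hI.mono_set hWsub) ?_
    · exact ae_restrict_of_forall_mem hWm hnn
    · exact ae_restrict_of_forall_mem hWm hpt
  have h2 : ∫ x in Wn, k ^ 3 * vsz (D.G x) ^ 3
      ≤ ∫ x in cAnn (a * ρ) (b * ρ), k ^ 3 * vsz (D.G x) ^ 3 := by
    refine setIntegral_mono_set hI ?_ (HasSubset.Subset.eventuallyLE hWsub)
    refine Filter.Eventually.of_forall fun x => ?_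
    have h3 := vsz_nonneg (D.G x)
    change 0 ≤ k ^ 3 * vsz (D.G x) ^ 3
    positivity
  refine h1.trans (h2.trans ?_)
  rw [integral_const_mul]
  refine (mul_le_mul_of_nonneg_left hle (by positivity)).trans (le_of_eq ?_)
  have h3 : Real.exp ((1 + 2 * P.gam + (2 - P.eps) * Real.log 2) / P.eps)
      = Real.exp ((s + 1) / P.eps) * T := by
    rw [hT, ← Real.exp_add]
    congr 1
    ring
  rw [h3, hk]
  ring

end Pool.Agent.PFT
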