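import Pool.Agent.PFlow.E.Asm
import Pool.Agent.PFT.CAP
import Pool.Agent.PFT.CCO
import Pool.Agent.PFT.CEN
import Pool.Agent.PFT.CHI
import Pool.Agent.PFT.CNE
import Pool.Agent.PFT.CUT
import Pool.Agent.PFT.CVO
import Pool.Agent.PFT.ELL
import Pool.Agent.PFT.EPSP
import Pool.Agent.PFT.EPST
import Pool.Agent.PFT.EXT
import Pool.Agent.PFT.GAM
import Pool.Agent.PFT.H2L
import Pool.Agent.PFT.HOLK
import Pool.Agent.PFT.JCO
import Pool.Agent.PFT.JET
import Pool.Agent.PFT.JIN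
import Pool.Agent.PFT.JUU
import Pool.Agent.PFT.LAC
import Pool.Agent.PFT.LIMN
import Pool.Agent.PFT.LOCUT
import Pool.Agent.PFT.MODD
import Pool.Agent.PFT.MSIT
import Pool.Agent.PFT.NDS
import Pool.Agent.PFT.NE
import Pool.Agent.PFT.NEP
import Pool.Agent.PFT.NZ
import Pool.Agent.PFT.PERB
import Pool.Agent.PFT.PERC
import Pool.Agent.PFT.PERG
import Pool.Agent.PFT.PERS
import Pool.Agent.PFT.POI1
import Pool.Agent.PFT.RJINT
import Pool.Agent.PFT.RLIMK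
import Pool.Agent.PFT.RTFD
import Pool.Agent.PFT.RTINT
import Pool.Agent.PFT.RTRD
import Pool.Agent.PFT.SB
import Pool.Agent.PFT.SHELLD
import Pool.Agent.PFT.TFA
import Pool.Agent.PFT.TFB
import Pool.Agent.PFT.TMAIN
import Pool.Agent.PFT.TRM
import Pool.Agent.PFT.TRN
import Pool.Agent.PFT.UBAR
import Pool.Agent.PFT.ULB
import Pool.Agent.PFT.USAM
import Pool.Agent.PFT.XWOU

/-!
# Assembly of the theorem for several ends
-/

set_option autoImplicit false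

open MeasureTheory Filter Topology
open scoped ContDiff ENNReal

namespace Pool.Agent.PFT

open Pool.Agent.PenroseSph Pool.Agent.PFlow

theorem fPERS : Stmt_PERS := t_PERS

theorem fLAC : Stmt_LAC := t_LAC

theorem fPOI1 : Stmt_POI1 := t_POI1

theorem fPERG : Stmt_PERG := t_PERG fPERS

theorem fPERB : Stmt_PERB := t_PERB fPERG fLAC

theorem fCUT : Stmt_CUT := t_CUT fPOI1

theorem fPERC : Stmt_PERC := t_PERC fPERG fLAC fCUT

theorem fJET : Stmt_JET := JET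

theorem fJIN : Stmt_JIN := JIN fJET

theorem fJCO : Stmt_JCO := JCO fJIN

theorem fNE : Stmt_NE := NE fJET fJIN fJCO

theorem fNEP : Stmt_NEP := NEP fNE

theorem fSB : Stmt_SB := SB

theorem fCNE : Stmt_CNE := CNE

theorem fCVO : Stmt_CVO := CVO

theorem fCHI : Stmt_CHI := CHI

theorem fCEN : Stmt_CEN := CEN fCHI

theorem fCAP : Stmt_CAP := CAP fNEP fSB fCNE fCVO fCEN

theorem fSHELLD : Stmt_SHELLD := t_SHELLD

theorem fMODD : Stmt_MODD := t_MODD fSHELLD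

theorem fNZ : Stmt_NZ := NZ ePHI eBARR

theorem fULB : Stmt_ULB := ULB fNZ

theorem fLOCUT : Stmt_LOCUT := t_LOCUT

theorem fGAM : Stmt_GAM := t_GAM

theorem fUBAR : Stmt_UBAR := t_UBAR

theorem fUSAM : Stmt_USAM := t_USAM

theorem fXWOU : Stmt_XWOU := t_XWOU eSETW eLE

theorem fJUU : Stmt_JUU := t_JUU fXWOU eSETW eJUP eFLXA

theorem fNDS : Stmt_NDS := t_NDS eSETW eUPH eFLXA eHOLA

theorem fMSIT : Stmt_MSIT := t_MSIT eSETW eBETA eTSTA eUPH eMATL

theorem fHOLK : Stmt_HOLK := t_HOLK eSETW eFLXA eHOLA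

theorem fH2L : Stmt_H2L := t_H2L

theorem fCCO : Stmt_CCO := t_CCO

theorem fEXT : Stmt_EXT := t_EXT fCAP fMODD fLOCUT fGAM fULB fUBAR fUSAM fJUU fNDS fCCO eLOC eABS eMODM eEETA P eAFD eBETA

theorem fEPST : Stmt_EPST := t_EPST fEXT fMSIT fHOLK fH2L eWGTE eMSII eBETA eSETW

theorem fTRN : Stmt_TRN := t_TRN

theorem fTRM : Stmt_TRM := t_TRM

theorem fEPSP : Stmt_EPSP := t_EPSP fEPST fTRN fTRM

theorem fLIMN : Stmt_LIMN := t_LIMN

theorem fELL : Stmt_ELL := t_ELL fNEP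

theorem fTFA : Stmt_TFA := t_TFA fEPSP fPERC fLIMN fELL

theorem fTFB : Stmt_TFB := t_TFB fEPSP fPERB fLIMN

theorem fRJINT : Stmt_RJINT := t_RJINT

theorem fRTINT : Stmt_RTINT := t_RTINT fRJINT

theorem fRLIMK : Stmt_RLIMK := t_RLIMK fRTINT

theorem fRTRD : Stmt_RTRD := t_RTRD

theorem fRTFD : Stmt_RTFD := t_RTFD

theorem fTMAIN : Stmt_TMAIN := t_TMAIN fTFA fTFB fRLIMK

end Pool.Agent.PFT
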