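import Pool.Agent.PFlow.StmtsE5

/-!
# Initial data with several ends: definitions

The manifold is `ℝ³` minus a finite set `P` of points: `|P| + 1` ends, the special end at infinity
and one end at every point of `P`.
-/

open MeasureTheory Filter Topology
open scoped ContDiff ENNReal

namespace Pool.Agent.PFT

open Pool.Agent.PenroseSph Pool.Agent.PFlow

/-! ### The theorem -/

/-- The tensor field in the coordinates `x - p`. -/
def shift (p : E3) (g : TensorField) : TensorField := fun x => g (x + p)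

/-- Smooth initial data on `ℝ³` minus the finite set `P`, asymptotically flat at infinity and, in
the coordinates `y = (x - p) / |x - p|²`, at every point `p` of `P`. -/
structure SeveralEnds (P : Finset E3) (g h : TensorField) : Prop where
  metric : MetricOn ((P : Set E3))ᶜ g
  tensor : TensorOn ((P : Set E3))ᶜ h
  infinity : ∃ C R : ℝ, DecayFrom C R g h
  points : ∀ p ∈ P, ∃ C R : ℝ, DecayFrom C R (inverted (shift p g)) (inverted (shift p h))

/-- The dominant energy condition `|J| ≤ μ`. -/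
def EnergyCondition (P : Finset E3) (g h : TensorField) : Prop :=
  ∀ x : E3, x ∉ P → jlen g h x ≤ energyDensity g h x

/-- At every point the traces of `h` over the planes of the tangent space are all nonnegative, or
all nonpositive. -/
def PlaneSignP (P : Finset E3) (g h : TensorField) : Prop :=
  ∀ x : E3, x ∉ P →
    (∀ v : Cov, ev (g x) v v = 1 → ev (h x) v v ≤ trg g x (h x)) ∨
    (∀ v : Cov, ev (g x) v v = 1 → trg g x (h x) ≤ ev (h x) v v)

/-- The vector fields admitted in the definition of the perimeter: smooth, compactly supported in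
`ℝ³` minus `P`, of `g`-length at most `1`. -/
structure TestFieldP (P : Finset E3) (g : TensorField) (X : E3 → Cov) : Prop where
  smooth : ∀ i, ContDiff ℝ ∞ (fun x => X x i)
  compact : HasCompactSupport X
  avoids : ∀ p ∈ P, p ∉ tsupport X
  short : ∀ x, x ∉ P → ev (g x) (X x) (X x) ≤ 1

/-- The perimeter of an open set with respect to `g`: the supremum of `∫_U div_g X dV_g` over the
test fields. For an open set with smooth boundary it is the `g`-area of its boundary. -/
noncomputable def perimeterP (P : Finset E3) (g : TensorField) (U : Set E3) : ℝ≥0∞ :=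
  ⨆ (X : E3 → Cov) (_ : TestFieldP P g X),
    ENNReal.ofReal (∫ x in U, ∑ i, pd i (fun y => volDen g y * X y i) x)

/-- `U` is a bounded open subset of `ℝ³` minus `P` with smooth boundary (the end at infinity is not
contained in it); every end `p ∈ P` is contained in `U` or is far away from `U`. -/
structure RegionP (P : Finset E3) (U : Set E3) : Prop where
  isOpen : IsOpen U
  points : ∀ p ∈ P, p ∉ U ∧ ∃ a : ℝ, 0 < a ∧ ((∀ x : E3, 0 < ‖x - p‖ → ‖x - p‖ < a → x ∈ U) ∨
    (∀ x : E3, ‖x - p‖ < a → x ∉ U))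
  bounded : ∃ b : ℝ, ∀ x ∈ U, ‖x‖ < b
  smooth : ∀ x ∈ frontier U, x ∉ P → ∃ f : E3 → ℝ, ContDiffAt ℝ ∞ f x ∧ fderiv ℝ f x ≠ 0 ∧
    ∀ᶠ y in 𝓝 x, (y ∈ U ↔ f y < 0)

/-- `U` contains the end `p`: it contains a punctured ball about `p`. -/
def ContainsEnd (p : E3) (U : Set E3) : Prop :=
  ∃ a : ℝ, 0 < a ∧ ∀ x : E3, 0 < ‖x - p‖ → ‖x - p‖ < a → x ∈ U

/-- The infimum of the areas of the surfaces that separate the end `p` from the end at infinity
(the other ends may lie on either side). -/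
noncomputable def minAreaAt (P : Finset E3) (g : TensorField) (p : E3) : ℝ≥0∞ :=
  ⨅ (U : Set E3) (_ : RegionP P U ∧ ContainsEnd p U), perimeterP P g U

/-- The infimum of the areas of the surfaces that separate all the ends `p ∈ P` from the end at
infinity. -/
noncomputable def minAreaAll (P : Finset E3) (g : TensorField) : ℝ≥0∞ :=
  ⨅ (U : Set E3) (_ : RegionP P U ∧ ∀ p ∈ P, ContainsEnd p U), perimeterP P g U

/-- `k` is a plane-signed asymptotically flat tensor which requires at most as much scalar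
curvature as `h`. -/
structure CompetitorP (P : Finset E3) (g h k : TensorField) : Prop where
  tensor : TensorOn ((P : Set E3))ᶜ k
  infinity : ∃ C R : ℝ, DecayFrom C R g k
  points : ∀ p ∈ P, ∃ C R : ℝ, DecayFrom C R (inverted (shift p g)) (inverted (shift p k))
  plane : PlaneSignP P g k
  far : FarCondition g k
  energy : ∀ x : E3, x ∉ P → required g k x ≤ required g h x

/-- The gradient of `tr h` is dominated by the momentum density and the trace-free part:
`(4/3)|d tr h| ≤ |h|² - (tr h)²/3 + 2|J|`. -/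
def TraceDominatedP (P : Finset E3) (g h : TensorField) : Prop :=
  ∀ x : E3, x ∉ P → 4 / 3 * len g x (grad (fun y => trg g y (h y)) x)
    ≤ nsq g x (h x) - trg g x (h x) ^ 2 / 3 + 2 * jlen g h x

/-- **The main theorem.** -/
def Stmt_TMAIN : Prop :=
  ∀ (P : Finset E3) (g h : TensorField) (m : ℝ), P.Nonempty → SeveralEnds P g h →
    EnergyCondition P g h → (∃ k : TensorField, CompetitorP P g h k) → IsTotalMass g m →
    (∀ p ∈ P, minAreaAt P g p ≠ ⊤ ∧
      Real.sqrt ((minAreaAt P g p).toReal / (16 * Real.pi)) ≤ m) ∧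
    minAreaAll P g ≠ ⊤ ∧
      Real.sqrt ((minAreaAll P g).toReal / (16 * Real.pi * P.card)) ≤ m

/-! ### The caps -/

/-- The product of the inner cut-offs at the points of `Q`: `0` for `|x - p| ≤ 1/(32N)`, `1` if
`|x - p| ≥ 1/(16N)` for all `p ∈ Q`. -/
noncomputable def chiN (Q : Finset E3) (N : ℝ) (x : E3) : ℝ := ∏ p ∈ Q, kin N (x - p)

/-- The metric with the ends at the points of `Q` capped at depth `N`: close to `p ∈ Q` it is
`N⁴ δ`. -/
noncomputable def capG (Q : Finset E3) (N : ℝ) (g : TensorField) : TensorField := fun x =>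
  chiN Q N x • g x + ((∑ p ∈ Q, (1 - kin N (x - p))) * N ^ 4) • (1 : Bil)

/-- The tensor cut off where the metric is capped: it is zero for `|x - p| ≤ 1/(16N)`. -/
noncomputable def capK (Q : Finset E3) (N : ℝ) (k : TensorField) : TensorField := fun x =>
  chiN Q (N / 2) x • k x

/-- The capped data: `C` does not depend on `N`. -/
structure Capped (P : Finset E3) (g k : TensorField) (C N : ℝ) (g' k' : TensorField)
    (e : E3 → ℝ) : Prop where
  two : TwoEnded g' k'
  plane : PlaneSign g' k'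
  same : ∀ x : E3, (∀ p ∈ P, p ≠ 0 → 1 / (16 * N) < ‖x - p‖) → g' x = g x
  sameK : ∀ x : E3, (∀ p ∈ P, p ≠ 0 → 1 / (8 * N) < ‖x - p‖) → k' x = k x
  small : ∀ x : E3, x ∉ P → ∀ i j, |k' x i j| ≤ |k x i j|
  defect_cont : Continuous e
  defect_nonneg : ∀ x, 0 ≤ e x
  defect_le : ∀ x, e x ≤ C / N ^ 2
  defect_supp : ∀ x : E3, (∀ p ∈ P, p ≠ 0 → 1 / (4 * N) ≤ ‖x - p‖) → e x = 0
  energy : ∀ x : E3, x ≠ 0 → -e x ≤ surplus g' k' x
  volume : ∀ p ∈ P, p ≠ 0 → ∫ x in Metric.closedBall p (1 / (4 * N)), volDen g' x ≤ C * N ^ 3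

/-- The bounds of a metric and a tensor at a point at distance `s` from an end at the origin, in
the coordinates `x`. -/
structure NearEnd (C s : ℝ) (g k : TensorField) (x : E3) : Prop where
  low : ∀ v : Cov, (∑ i, v i ^ 2) ≤ C * s ^ 4 * ev (g x) v v
  up : ∀ v : Cov, ev (g x) v v ≤ C / s ^ 4 * ∑ i, v i ^ 2
  d1 : ∀ i j l, |pd l (fun y => g y i j) x| ≤ C / s ^ 5
  d2 : ∀ i j l n, |pd n (pd l (fun y => g y i j)) x| ≤ C / s ^ 6
  k0 : ∀ i j, |k x i j| ≤ C / s ^ 2
  k1 : ∀ i j l, |pd l (fun y => k y i j) x| ≤ C / s ^ 3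

/-! ### Uniform location of the levels -/

/-- `(g', h')` agrees with the given data in `1/(8R) ≤ |x| ≤ r` outside the caps of depth `N`: the
metrics agree and `h'` is a small multiple of `k`. -/
def SameOn (P : Finset E3) (g k : TensorField) (R N r : ℝ) (g' h' : TensorField) : Prop :=
  ∀ x : E3, 1 / (8 * R) ≤ ‖x‖ → ‖x‖ ≤ r → (∀ p ∈ P, p ≠ 0 → 1 / (8 * N) < ‖x - p‖) →
    g' =ᶠ[𝓝 x] g ∧ ∃ t : ℝ, |t| ≤ 1 ∧ h' x = t • k x

/-! ### Functions of class `W^{1,1}` -/

/-- On the compact set `K` the continuous function `w` is the uniform limit of smooth functions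
whose gradients converge to `G` in `L¹`. -/
structure L1Approx (K : Set E3) (w : E3 → ℝ) (G : E3 → Cov) : Prop where
  cont : ContinuousOn w K
  int : ∀ i, IntegrableOn (fun x => G x i) K
  approx : ∃ v : ℕ → E3 → ℝ, (∀ n, ContDiff ℝ ∞ (v n)) ∧ TendstoUniformlyOn v w atTop K ∧
    ∀ i, Tendsto (fun n => ∫ x in K, |pd i (v n) x - G x i|) atTop (𝓝 0)

/-- The closed ball of radius `r` about `0` minus the open balls of radius `a p` about the points
`p` of `P`. -/
def kset (P : Finset E3) (a : E3 → ℝ) (r : ℝ) : Set E3 :=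
  {x : E3 | ‖x‖ ≤ r ∧ ∀ p ∈ P, a p ≤ ‖x - p‖}

/-- The balls of radius `a p` about the points `p` of `P` are disjoint and contained in the ball of
radius `r` about `0`. -/
structure Balls (P : Finset E3) (a : E3 → ℝ) (r : ℝ) : Prop where
  pos : ∀ p ∈ P, 0 < a p
  inside : ∀ p ∈ P, ‖p‖ + a p < r
  disj : ∀ p ∈ P, ∀ q ∈ P, p ≠ q → a p + a q < ‖p - q‖

/-- What the flow from the end at the origin delivers for fixed `ε`: the function `w` with gradient
`G` on `ρ/2 ≤ |x| ≤ 2r`, `|x - p| ≥ δ`, whose levels between `ε` and `1` lie in `ρ < |x| < r`,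
together with the bound of the area integral. -/
structure FlowOn (P : Finset E3) (g : TensorField) (ε J ρ r δ : ℝ) (w : E3 → ℝ) (G : E3 → Cov) :
    Prop where
  approx : ∀ K : Set E3, IsCompact K →
    (∀ x ∈ K, ρ / 2 ≤ ‖x‖ ∧ ‖x‖ ≤ 2 * r ∧ ∀ p ∈ P, p ≠ 0 → δ ≤ ‖x - p‖) → L1Approx K w G
  inner : ∀ x : E3, ρ / 2 ≤ ‖x‖ → ‖x‖ ≤ ρ → w x < ε
  outer : ∀ x : E3, r ≤ ‖x‖ → ‖x‖ ≤ 2 * r → 1 < w x
  bound : ∀ K : Set E3, IsCompact K →
    (∀ x ∈ K, ρ / 2 ≤ ‖x‖ ∧ ‖x‖ ≤ 2 * r ∧ ∀ p ∈ P, p ≠ 0 → δ ≤ ‖x - p‖) →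
    ∀ s₀ s₁ : ℝ, ε ≤ s₀ → s₀ < s₁ → s₁ ≤ 1 →
      ∫ x in K ∩ {x | s₀ ≤ w x ∧ w x ≤ s₁}, len g x (G x) * volDen g x
        ≤ (J * (Real.exp s₁ - Real.exp s₀)) ^ (1 / (1 + ε))
          * (∫ x in K, volDen g x) ^ (ε / (1 + ε))

end Pool.Agent.PFT
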