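import Pool.Agent.PFT.StmtsCAP
import Pool.Agent.PFlow.E.BARB
import Pool.Agent.PFlow.E.AFD

/-!
# Module JIN: jets of the inversion and of its Jacobian
-/

open MeasureTheory Filter Topology
open scoped ContDiff ENNReal

namespace Pool.Agent.PFT

open Pool.Agent.PenroseSph Pool.Agent.PFlow

namespace JINAux

open Pool.Agent.PFlow.BARBm Pool.Agent.PFlow.AFDaux

theorem jet_congr {C s : ℝ} {a b : ℤ} {f f' : E3 → ℝ} {x : E3} (h : Jet2 C s a f x)
    (hf : f = f') (hab : a = b) : Jet2 C s b f' x := by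
  subst hf; subst hab; exact h

theorem jet_mono {C C' s : ℝ} {a : ℤ} {f : E3 → ℝ} {x : E3} (h : Jet2 C s a f x)
    (hs : 0 < s) (hC : C ≤ C') : Jet2 C' s a f x where
  smooth := h.smooth
  b0 := h.b0.trans (mul_le_mul_of_nonneg_right hC (zpow_pos hs _).le)
  b1 := fun k => (h.b1 k).trans (mul_le_mul_of_nonneg_right hC (zpow_pos hs _).le)
  b2 := fun k l => (h.b2 k l).trans (mul_le_mul_of_nonneg_right hC (zpow_pos hs _).le)

theorem jet_const {K s : ℝ} (c : ℝ) (x : E3) (hs : 0 < s) (hc : |c| ≤ K) :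
    Jet2 K s 0 (fun _ => c) x where
  smooth := contDiffAt_const
  b0 := by rw [zpow_zero, mul_one]; exact hc
  b1 := fun k => by
    rw [pd_const, abs_zero]
    exact mul_nonneg ((abs_nonneg _).trans hc) (zpow_pos hs _).le
  b2 := fun k l => by
    have h : pd l (fun _ : E3 => c) = fun _ => (0 : ℝ) := by
      funext y; exact pd_const c
    rw [h, pd_const, abs_zero]
    exact mul_nonneg ((abs_nonneg _).trans hc) (zpow_pos hs _).le

theorem coord_le (x : E3) (i : Fin 3) : |x i| ≤ ‖x‖ := by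
  have := PiLp.norm_apply_le x i
  rwa [Real.norm_eq_abs] at this

theorem jet_coord {x : E3} (hx : x ≠ 0) (c : Fin 3) : Jet2 1 ‖x‖ 1 (fun y => y c) x where
  smooth := (contDiffOn_coord c).contDiffAt (isOpen_compl_zero.mem_nhds hx)
  b0 := by rw [zpow_one, one_mul]; exact coord_le x c
  b1 := fun k => by
    rw [pd_coord, sub_self, zpow_zero, mul_one]
    split_ifs <;> simp
  b2 := fun k l => by
    have h : pd l (fun y : E3 => y c) = fun _ => (if l = c then (1 : ℝ) else 0) := by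
      funext y; exact pd_coord
    rw [h, pd_const, abs_zero]
    exact mul_nonneg zero_le_one (zpow_pos (norm_pos_iff.2 hx) _).le

theorem nu_le {x : E3} (hx : x ≠ 0) (i : Fin 3) : |nu x i| ≤ 1 := by
  have hn : 0 < ‖x‖ := norm_pos_iff.2 hx
  unfold nu
  rw [abs_div, abs_of_pos hn, div_le_one hn]
  exact coord_le x i

theorem jet_q {x : E3} (hx : x ≠ 0) : Jet2 10 ‖x‖ (-2) (fun y => (‖y‖ ^ 2)⁻¹) x where
  smooth := contDiffOn_normSq_inv.contDiffAt (isOpen_compl_zero.mem_nhds hx)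
  b0 := by
    have hn : 0 < ‖x‖ := norm_pos_iff.2 hx
    have e : ‖x‖ ^ (-2 : ℤ) = (‖x‖ ^ 2)⁻¹ := by
      rw [zpow_neg]; norm_cast
    rw [e, abs_of_pos (by positivity)]
    have : (0 : ℝ) < (‖x‖ ^ 2)⁻¹ := by positivity
    linarith
  b1 := fun k => by
    have hn : 0 < ‖x‖ := norm_pos_iff.2 hx
    have e : ‖x‖ ^ ((-2 : ℤ) - 1) = (‖x‖ ^ 3)⁻¹ := by
      have : ((-2 : ℤ) - 1) = -3 := by norm_num
      rw [this, zpow_neg]; norm_cast
    rw [e, pd_nsq hx, abs_mul, abs_neg, abs_of_pos (show 0 < 2 / ‖x‖ ^ 3 by positivity)]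
    have h1 := nu_le hx k
    have h2 : (0 : ℝ) < (‖x‖ ^ 3)⁻¹ := by positivity
    calc 2 / ‖x‖ ^ 3 * |nu x k| ≤ 2 / ‖x‖ ^ 3 * 1 :=
          mul_le_mul_of_nonneg_left h1 (by positivity)
      _ = 2 * (‖x‖ ^ 3)⁻¹ := by rw [mul_one, div_eq_mul_inv]
      _ ≤ 10 * (‖x‖ ^ 3)⁻¹ := by linarith
  b2 := fun k l => by
    have hn : 0 < ‖x‖ := norm_pos_iff.2 hx
    have e : ‖x‖ ^ ((-2 : ℤ) - 2) = (‖x‖ ^ 4)⁻¹ := by
      have : ((-2 : ℤ) - 2) = -4 := by norm_num
      rw [this, zpow_neg]; norm_cast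
    have h1 : pd l (fun y : E3 => (‖y‖ ^ 2)⁻¹) =ᶠ[𝓝 x]
        fun y => -2 * (y l * ((‖y‖ ^ 2)⁻¹ * (‖y‖ ^ 2)⁻¹)) := by
      filter_upwards [isOpen_compl_zero.mem_nhds hx] with y hy
      have hy' : ‖y‖ ≠ 0 := norm_ne_zero_iff.2 hy
      rw [pd_nsq hy]
      unfold nu
      field_simp
    have hd := diff_nsq hx
    have hc := differentiableAt_coord (x := x) l
    rw [e, pd_congr h1, pd_const_mul _ (hc.fun_mul (hd.fun_mul hd)), pd_mul hc (hd.fun_mul hd),
      pd_mul hd hd, pd_nsq hx, pd_coord]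
    have hl : x l = ‖x‖ * nu x l := by unfold nu; field_simp
    have e2 : -2 * (x l * ((‖x‖ ^ 2)⁻¹ * (-(2 / ‖x‖ ^ 3) * nu x k) +
        (‖x‖ ^ 2)⁻¹ * (-(2 / ‖x‖ ^ 3) * nu x k)) +
        (‖x‖ ^ 2)⁻¹ * (‖x‖ ^ 2)⁻¹ * if k = l then 1 else 0) =
        (8 * (nu x l * nu x k) - 2 * dl k l) * (‖x‖ ^ 4)⁻¹ := by
      rw [hl]
      have e1 : (if k = l then (1 : ℝ) else 0) = dl k l := rfl
      rw [e1]
      field_simp
      ring
    rw [e2, abs_mul, abs_of_pos (show 0 < (‖x‖ ^ 4)⁻¹ by positivity)]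
    refine mul_le_mul_of_nonneg_right ?_ (by positivity)
    have h3 : |nu x l * nu x k| ≤ 1 := by
      rw [abs_mul]
      exact mul_le_one₀ (nu_le hx l) (abs_nonneg _) (nu_le hx k)
    have h4 := dl_le k l
    rw [abs_le] at *
    constructor <;> linarith [h3.1, h3.2, h4.1, h4.2]

end JINAux

open JINAux Pool.Agent.PFlow.BARBm in
theorem JIN (hJET : Stmt_JET) : Stmt_JIN := by
  refine ⟨60000, by norm_num, fun x hx => ?_⟩
  have hs : 0 < ‖x‖ := norm_pos_iff.2 hx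
  obtain ⟨-, hmul, -, hadd, -, -, -⟩ := hJET ‖x‖ x hs
  have hq := jet_q hx
  refine ⟨fun a i => ?_, fun c => ?_⟩
  · have hqq := hmul _ _ _ _ _ _ hq hq
    have hyy := hmul _ _ _ _ _ _ (jet_coord hx a) (jet_coord hx i)
    have h4 := hmul _ _ _ _ _ _ hyy hqq
    have h5 := hmul _ _ _ _ _ _ (jet_const (K := 2) (-2) x hs (by norm_num)) h4
    have h6 := hmul _ _ _ _ _ _ (jet_const (K := 1) (dl a i) x hs (dl_le a i)) hq
    have h5' := jet_congr h5 rfl (show (0 : ℤ) + (1 + 1 + (-2 + -2)) = -2 by norm_num)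
    have h6' := jet_congr h6 rfl (show (0 : ℤ) + -2 = -2 by norm_num)
    have h7 := hadd _ _ _ _ _ h6' h5'
    refine jet_mono (jet_congr h7 ?_ rfl) hs (by norm_num)
    rw [jac_fun]
    funext y
    ring
  · have h1 := hmul _ _ _ _ _ _ hq (jet_coord hx c)
    refine jet_mono (jet_congr h1 ?_ (by norm_num)) hs (by norm_num)
    rw [inversion_fun]

end Pool.Agent.PFT
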