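import Pool.Agent.PFT.StmtsF
import Pool.Agent.PFlow.E.LIMK2
import Pool.Agent.PFlow.E.HATA

/-!
# Several ends: the mean of `|k|` over large shells (RLIMK)
-/

open MeasureTheory Filter Topology
open scoped ContDiff ENNReal

namespace Pool.Agent.PFT

open Pool.Agent.PenroseSph Pool.Agent.PFlow

namespace RLIMK

/-- the upper ellipticity bound far out -/
theorem ev_upper {A : Bil} (hA : ∀ i j, |A i j - (1 : Bil) i j| ≤ 1) (v : Cov) :
    ev A v v ≤ 4 * ∑ i, v i ^ 2 := by
  have key : ∀ i j, A i j * v i * v j ≤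
      (1 : Bil) i j * v i * v j + (v i ^ 2 + v j ^ 2) / 2 := by
    intro i j
    have h1 : (A i j - (1 : Bil) i j) * (v i * v j) ≤ |v i * v j| := by
      calc (A i j - (1 : Bil) i j) * (v i * v j) ≤ |(A i j - (1 : Bil) i j) * (v i * v j)| :=
            le_abs_self _
        _ = |A i j - (1 : Bil) i j| * |v i * v j| := abs_mul _ _
        _ ≤ 1 * |v i * v j| := mul_le_mul_of_nonneg_right (hA i j) (abs_nonneg _)
        _ = _ := one_mul _
    have h2 : |v i * v j| ≤ (v i ^ 2 + v j ^ 2) / 2 := by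
      rw [abs_le]
      constructor
      · nlinarith [sq_nonneg (v i + v j)]
      · nlinarith [sq_nonneg (v i - v j)]
    nlinarith
  have h0 : ev A v v ≤ ∑ i, ∑ j, ((1 : Bil) i j * v i * v j + (v i ^ 2 + v j ^ 2) / 2) := by
    unfold ev
    exact Finset.sum_le_sum fun i _ => Finset.sum_le_sum fun j _ => key i j
  refine h0.trans (le_of_eq ?_)
  have e02 : ¬ ((0 : Fin 3) = 2) := by decide
  have e12 : ¬ ((1 : Fin 3) = 2) := by decide
  have e20 : ¬ ((2 : Fin 3) = 0) := by decide
  have e21 : ¬ ((2 : Fin 3) = 1) := by decide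
  have e01 : ¬ ((0 : Fin 3) = 1) := by decide
  have e10 : ¬ ((1 : Fin 3) = 0) := by decide
  simp only [Fin.sum_univ_three, Matrix.one_apply, e02, e12, e20, e21, e01, e10, if_true, if_false]
  ring

theorem nsq_k {g k : TensorField} {x : E3} (hg : (g x).PosDef) (hs : (k x).IsSymm)
    (hS : (∀ v : Cov, ev (g x) v v = 1 → ev (k x) v v ≤ trg g x (k x)) ∨
      (∀ v : Cov, ev (g x) v v = 1 → trg g x (k x) ≤ ev (k x) v v)) :
    nsq g x (k x) ≤ 3 * trg g x (k x) ^ 2 := by
  rcases hS with h1 | h1
  · exact (HATA g x (k x) hg hs h1).2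
  · have h2 := (HATA g x (-k x) hg hs.neg fun v hv => by
      rw [LK.ev_neg, LK.trg_neg]
      exact neg_le_neg (h1 v hv)).2
    rw [LK.nsq_neg, LK.trg_neg, neg_sq] at h2
    exact h2

/-- the tail of an integrable function over shells -/
theorem shell_tendsto {F : E3 → ℝ} {r : ℝ} (hF : IntegrableOn F {x : E3 | r ≤ ‖x‖}) :
    Tendsto (fun l : ℝ => ∫ x in cAnn (l / 2) l, F x) atTop (𝓝 0) := by
  have hS : MeasurableSet {x : E3 | r ≤ ‖x‖} := measurableSet_le measurable_const measurable_norm
  have hA : ∀ l : ℝ, MeasurableSet (cAnn (l / 2) l) := fun l =>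
    (measurableSet_le measurable_const measurable_norm).inter
      (measurableSet_le measurable_norm measurable_const)
  have hFi : Integrable (Set.indicator {x : E3 | r ≤ ‖x‖} F) := (integrable_indicator_iff hS).mpr hF
  have e : ∀ᶠ l : ℝ in atTop, ∫ x, Set.indicator (cAnn (l / 2) l)
      (Set.indicator {x : E3 | r ≤ ‖x‖} F) x = ∫ x in cAnn (l / 2) l, F x := by
    filter_upwards [eventually_ge_atTop (2 * r)] with l hl
    rw [integral_indicator (hA l)]
    refine setIntegral_congr_fun (hA l) fun x hx => ?_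
    have : x ∈ {x : E3 | r ≤ ‖x‖} := by
      have h1 : l / 2 ≤ ‖x‖ := hx.1
      show r ≤ ‖x‖
      linarith
    simp only [Set.indicator_of_mem this]
  refine Tendsto.congr' e ?_
  have h0 : (0 : ℝ) = ∫ _ : E3, (0 : ℝ) := by simp
  rw [h0]
  refine tendsto_integral_filter_of_dominated_convergence
    (fun x => ‖Set.indicator {x : E3 | r ≤ ‖x‖} F x‖) ?_ ?_ hFi.norm ?_
  · exact Eventually.of_forall fun l => hFi.aestronglyMeasurable.indicator (hA l)
  · exact Eventually.of_forall fun l => Eventually.of_forall fun x =>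
      norm_indicator_le_norm_self _ x
  · refine Eventually.of_forall fun x => ?_
    refine tendsto_const_nhds.congr' ?_
    filter_upwards [eventually_gt_atTop (2 * ‖x‖)] with l hl
    rw [Set.indicator_of_notMem]
    intro hx
    have h1 : l / 2 ≤ ‖x‖ := hx.1
    linarith

end RLIMK

/-- RLIMK: the mean of `|k|` over large shells. -/
theorem t_RLIMK (hRTINT : Stmt_RTINT) : Stmt_RLIMK := by
  intro g k r₀ hr₀ hg hk hdec hD hS hF
  rcases hF with hF | hF
  swap
  · exact hF
  obtain ⟨r₁, hr₁, hr₁1, hI⟩ := hRTINT g k r₀ hr₀ hg hk hdec hD hS hF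
  obtain ⟨C, R, hCR⟩ := hdec
  obtain ⟨r₂, hr₂1, hr₂⟩ : ∃ r₂ : ℝ, r₁ ≤ r₂ ∧ R ≤ r₂ ∧ C ≤ r₂ :=
    ⟨max r₁ (max R C), le_max_left _ _, (le_max_left _ _).trans (le_max_right _ _),
      (le_max_right _ _).trans (le_max_right _ _)⟩
  have hpt : ∀ x : E3, r₂ ≤ ‖x‖ → msz (k x) ≤ 8 * |trg g x (k x)| := by
    intro x hx
    have hx0 : 0 < ‖x‖ := by linarith
    have hxr : x ∈ {x : E3 | r₀ < ‖x‖} := by
      show r₀ < ‖x‖
      linarith
    have hA : ∀ i j, |g x i j - (1 : Bil) i j| ≤ 1 := by
      intro i j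
      refine (hCR x (by linarith [hr₂.1]) i j).1.trans ?_
      rw [div_le_one hx0]
      linarith [hr₂.2]
    have h1 := LK.msq_le (by norm_num : (0 : ℝ) < 4) (hg.posDef x hxr)
      (fun v => RLIMK.ev_upper hA v) (k x)
    have h2 := RLIMK.nsq_k (hg.posDef x hxr) (hk.symm x hxr) (hS x hxr)
    unfold msz
    rw [Real.sqrt_le_left (by positivity)]
    have h3 := sq_abs (trg g x (k x))
    nlinarith [sq_nonneg (trg g x (k x))]
  have hlim := (RLIMK.shell_tendsto hI).const_mul 8
  rw [mul_zero] at hlim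
  unfold FarSmall
  refine squeeze_zero' ?_ ?_ hlim
  · filter_upwards [eventually_gt_atTop (0 : ℝ)] with l hl
    refine integral_nonneg fun x => ?_
    unfold msz
    positivity
  · filter_upwards [eventually_ge_atTop (2 * r₂)] with l hl
    have hA : MeasurableSet (cAnn (l / 2) l) :=
      (measurableSet_le measurable_const measurable_norm).inter
        (measurableSet_le measurable_norm measurable_const)
    have hl0 : 0 < l := by linarith
    rw [← integral_const_mul]
    refine integral_mono_of_nonneg ?_ ?_ ?_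
    · refine Eventually.of_forall fun x => ?_
      simp only [Pi.zero_apply]
      unfold msz
      positivity
    · refine Integrable.const_mul ?_ _
      refine hI.mono_set fun x hx => ?_
      have h1 : l / 2 ≤ ‖x‖ := hx.1
      show r₁ ≤ ‖x‖
      linarith
    · refine (ae_restrict_mem hA).mono fun x hx => ?_
      have h1 : l / 2 ≤ ‖x‖ := hx.1
      have h2 : ‖x‖ ≤ l := hx.2
      have h3 : 0 < ‖x‖ := by linarith
      simp only
      calc msz (k x) / l ≤ (8 * |trg g x (k x)|) / l := by
            gcongr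
            exact hpt x (by linarith)
        _ ≤ (8 * |trg g x (k x)|) / ‖x‖ := by gcongr
        _ = _ := by ring

end Pool.Agent.PFT
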