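import Pool.Agent.PFT.Defs

/-!
# Several ends, part A: the area of the level sets
-/

open MeasureTheory Filter Topology
open scoped ContDiff ENNReal

namespace Pool.Agent.PFT

open Pool.Agent.PenroseSph Pool.Agent.PFlow

/-- `A` is at most the perimeter of every region which contains the ends of `I`. -/
def LowerP (P I : Finset E3) (g : TensorField) (A : ℝ) : Prop :=
  ∀ U : Set E3, RegionP P U → (∀ p ∈ I, ContainsEnd p U) → ENNReal.ofReal A ≤ perimeterP P g U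

/-- The ellipticity of `g` at the end `p`: `g ~ |x - p|⁻⁴ δ`. -/
def EllAt (g : TensorField) (p : E3) : Prop :=
  ∃ C s₀ : ℝ, 0 < C ∧ 0 < s₀ ∧ ∀ x : E3, 0 < ‖x - p‖ → ‖x - p‖ ≤ s₀ → ∀ v : Cov,
    (∑ i, v i ^ 2) ≤ C * ‖x - p‖ ^ 4 * ev (g x) v v ∧
    ev (g x) v v ≤ C / ‖x - p‖ ^ 4 * ∑ i, v i ^ 2

/-- POI1 [copy of PFlow/E/POI.lean with `L¹` instead of `L²`]: the Poincaré inequality in `L¹` on
annuli. -/
def Stmt_POI1 : Prop :=
  ∀ a b : ℝ, 0 < a → a < b → ∃ C : ℝ, 0 < C ∧ ∀ (ρ : ℝ) (f : E3 → ℝ), 0 < ρ →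
    (∀ x ∈ cAnn (a * ρ / 2) (b * ρ), ContDiffAt ℝ 1 f x) →
    ∫ x in cAnn (a * ρ) (b * ρ), |f x - ⨍ y in cAnn (a * ρ) (b * ρ), f y|
      ≤ C * ρ * ∫ x in cAnn (a * ρ / 2) (b * ρ), ‖fderiv ℝ f x‖

/-- LAC: smooth functions of functions of class `W^{1,1}`. If `v n` approximates `w`, then
`Θ (v n x, x)` approximates `Θ (w x, x)`: the derivatives of `Θ` converge uniformly on the compact
sets in question, and `pd (v n) → G` in `L¹`. -/
def Stmt_LAC : Prop :=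
  ∀ (m : ℕ) (K : Set E3) (w : Fin m → E3 → ℝ) (G : Fin m → E3 → Cov)
    (Θ : (Fin m → ℝ) × E3 → ℝ), IsCompact K → ContDiff ℝ ∞ Θ → (∀ i, L1Approx K (w i) (G i)) →
    L1Approx K (fun x => Θ (fun i => w i x, x))
      (fun x l => (∑ i, fderiv ℝ Θ (fun i => w i x, x) (Pi.single i 1, 0) * G i x l)
        + fderiv ℝ Θ (fun i => w i x, x) (0, EuclideanSpace.single l 1))

/-- PERS [PFlow/E/PERA.lean]: perimeter of the sublevel sets of a smooth function. For a regular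
value `s` of `W` in `kset P a r` with `|s - σ p| ≥ d` (`p ∉ I`) the set `{W < s}` in the interior of
`kset P a r`, together with the punctured balls `0 < |x - p| ≤ a p` for `p ∈ I` and for those
`p ∉ I` with `σ p < s`, is an admissible region, so `A` is at most the lower derivative of
`s ↦ ∫_{s₀ ≤ W ≤ s} |∇W|`. The exceptional values have measure at most `2 d |P|`. -/
def Stmt_PERS : Prop :=
  ∀ (P I : Finset E3) (g : TensorField) (W : E3 → ℝ) (a σ : E3 → ℝ) (r d s₀ s₁ : ℝ),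
    I ⊆ P → MetricOn ((P : Set E3))ᶜ g → Balls P a r → 0 < d → s₀ < s₁ → ContDiff ℝ ∞ W →
    (∀ x : E3, ‖x‖ = r → s₁ < W x) →
    (∀ p ∈ I, ∀ x : E3, ‖x - p‖ = a p → W x < s₀) →
    (∀ p ∈ P, p ∉ I → ∀ x : E3, ‖x - p‖ = a p → |W x - σ p| < d) →
    Set.Finite {s : ℝ | s₀ ≤ s ∧ s ≤ s₁ ∧ ∃ x ∈ kset P a r, W x = s ∧ fderiv ℝ W x = 0} →
    ∀ A : ℝ, 0 ≤ A → LowerP P I g A →
      A * (s₁ - s₀ - 2 * d * P.card) ≤ ∫ x in kset P a r ∩ {x | s₀ ≤ W x ∧ W x ≤ s₁},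
        len g x (grad W x) * volDen g x

/-- PERG [PFlow/E/PER.lean, with `L1Approx` instead of `H2On`; inputs PERS, `Stmt_MO`]: the same for
functions of class `W^{1,1}` which are constant on the spheres about the points `p ∉ I`. -/
def Stmt_PERG : Prop :=
  ∀ (P I : Finset E3) (g : TensorField) (w : E3 → ℝ) (G : E3 → Cov) (a σ : E3 → ℝ)
    (r s₀ s₁ : ℝ), I ⊆ P → MetricOn ((P : Set E3))ᶜ g → Balls P a r → s₀ < s₁ →
    L1Approx (kset P a r) w G →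
    (∀ x : E3, ‖x‖ = r → s₁ < w x) →
    (∀ p ∈ I, ∀ x : E3, ‖x - p‖ = a p → w x < s₀) →
    (∀ p ∈ P, p ∉ I → ∀ x : E3, ‖x - p‖ = a p → w x = σ p) →
    ∀ A : ℝ, 0 ≤ A → LowerP P I g A →
      A * (s₁ - s₀) ≤ ∫ x in kset P a r ∩ {x | s₀ ≤ w x ∧ w x ≤ s₁},
        len g x (G x) * volDen g x

/-- PERB [inputs PERG, LAC]: the minimum of several functions. With a smooth clamp `Ψ` (`Ψ' ≥ 0`,
`Ψ' ≤ 1 + η`, `Ψ(s) = s` for `s ≤ s₁ - η`, `Ψ` constant for `s ≥ s₁`) and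
`W = -η log ∑_p exp(-Ψ(w p)/η)`, `|∇W| ≤ (1 + η) ∑_p |∇ w p|` where only the `p` with
`s₀ ≤ w p ≤ s₁` contribute on `{s₀ ≤ W}`; `{W < s}` contains a neighbourhood of every sphere
`|x - p| = a p`. -/
def Stmt_PERB : Prop :=
  ∀ (P : Finset E3) (g : TensorField) (w : E3 → E3 → ℝ) (G : E3 → E3 → Cov) (a : E3 → ℝ)
    (r s₀ s₁ : ℝ), P.Nonempty → MetricOn ((P : Set E3))ᶜ g → Balls P a r → s₀ < s₁ →
    (∀ p ∈ P, L1Approx (kset P a r) (w p) (G p)) →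
    (∀ p ∈ P, ∀ x : E3, ‖x‖ = r → s₁ < w p x) →
    (∀ p ∈ P, ∀ x : E3, ‖x - p‖ = a p → w p x < s₀) →
    ∀ A : ℝ, 0 ≤ A → LowerP P P g A →
      A * (s₁ - s₀) ≤ ∑ p ∈ P, ∫ x in kset P a r ∩ {x | s₀ ≤ w p x ∧ w p x ≤ s₁},
        len g x (G p x) * volDen g x

/-- CUT [inputs POI1]: the cut of a function near an end. On the annulus `t/2 ≤ |x - p| ≤ 2t` the
metric is uniformly equivalent to the constant metric `t⁻⁴ δ`, so `|dξ|_g dV_g ~ t⁻⁴ |dξ| dx` and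
`|df|_g dV_g ~ t⁻⁴ |df| dx` with constants independent of `t`; with the mean `c` of `w` over
`t ≤ |x - p| ≤ 2t` the inequality is POI1 (for smooth functions, then for `w` by approximation). -/
def Stmt_CUT : Prop :=
  ∀ (g : TensorField) (p : E3) (s₁ D : ℝ), 0 < s₁ → 0 ≤ D →
    MetricOn {x : E3 | 0 < ‖x - p‖ ∧ ‖x - p‖ < s₁} g → EllAt g p →
    ∃ C s₀ : ℝ, 0 < C ∧ 0 < s₀ ∧ ∀ (t : ℝ) (w : E3 → ℝ) (G : E3 → Cov) (ξ : E3 → ℝ),
      0 < t → 2 * t ≤ s₀ → L1Approx {x : E3 | t / 2 ≤ ‖x - p‖ ∧ ‖x - p‖ ≤ 2 * t} w G →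
      ContDiff ℝ ∞ ξ → (∀ x l, |pd l ξ x| ≤ D / t) →
      ∃ c : ℝ, ∫ x in {x : E3 | t ≤ ‖x - p‖ ∧ ‖x - p‖ ≤ 2 * t},
            |w x - c| * (len g x (grad ξ x) * volDen g x)
          ≤ C * ∫ x in {x : E3 | t / 2 ≤ ‖x - p‖ ∧ ‖x - p‖ ≤ 2 * t},
              len g x (G x) * volDen g x

/-- The radii of the balls: `ρ` about `q` and `δ` about the other points. -/
noncomputable def aDel (q : E3) (ρ δ : ℝ) (p : E3) : ℝ := open Classical in if p = q then ρ else δ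

/-- PERC [inputs PERG, LAC, CUT]: the infimum of the areas of the surfaces that separate the end `q`
from infinity is at most the mean area of the level sets, if these are cut in thin regions of the
other ends. Let `Ψ` be a smooth clamp with `0 ≤ Ψ' ≤ 1 + η`, `Ψ' = 0` outside `[s₀,s₁]`, `Ψ(s) = s`
on `[s₀+η, s₁-η]`. For every `p ≠ q` one of `M` disjoint annuli about `p` carries at most `1/M` of
`∫ |Ψ'(w) G|`; there `Ψ(w)` is replaced by `ξ Ψ(w) + (1-ξ) c`. Then PERG with `a p` the inner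
radius of this annulus, `σ p = c`, and `η → 0`. -/
def Stmt_PERC : Prop :=
  ∀ (P : Finset E3) (g : TensorField) (q : E3) (ρ r : ℝ), q ∈ P → MetricOn ((P : Set E3))ᶜ g →
    (∀ p ∈ P, EllAt g p) → 0 < ρ → ‖q‖ + ρ < r → (∀ p ∈ P, p ≠ q → ρ < ‖p - q‖) →
    (∀ p ∈ P, ‖p‖ < r) →
    ∃ C : ℝ, 0 < C ∧ ∀ M : ℕ, 1 ≤ M → ∃ δ : ℝ, 0 < δ ∧ Balls P (aDel q ρ δ) r ∧
      ∀ (w : E3 → ℝ) (G : E3 → Cov) (s₀ s₁ : ℝ), s₀ < s₁ →
        L1Approx (kset P (aDel q ρ δ) r) w G →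
        (∀ x : E3, ‖x‖ = r → s₁ < w x) → (∀ x : E3, ‖x - q‖ = ρ → w x < s₀) →
        ∀ A : ℝ, 0 ≤ A → LowerP P {q} g A →
          A * (s₁ - s₀) ≤ (1 + C / M) *
            ∫ x in kset P (aDel q ρ δ) r ∩ {x | s₀ ≤ w x ∧ w x ≤ s₁}, len g x (G x) * volDen g x

end Pool.Agent.PFT
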