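import Pool.Agent.PFT.Defs

/-!
# Block CAP of the several ends theorem: capping the other ends (helper76)

Goal `Stmt_CAP` (in StmtsL.lean; assembled in CAP.lean). Near an end `p ≠ 0`, `s = |x - p|`, the metric is of size `s⁻⁴` with derivatives of
size `s⁻⁵`, `s⁻⁶`, the tensor of size `s⁻²` with derivatives of size `s⁻³` (`NearEnd`), so
`|μ|, |J| ≤ C s²`. The cut-offs at depth `N`, `1/(32N) ≤ s ≤ 1/(8N)`, preserve such bounds, with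
`s ~ 1/N`. Inside `s ≤ 1/(32N)` the capped metric is the constant `N⁴ δ` and the tensor is `0`.

All modules are independent of each other; the imports are `Pool.Agent.PFT.StmtsCAP` and, if wanted,
files `Pool.Agent.PFlow.E.*` (see the doc-strings), no other files of `Pool/Agent/PFT`.
-/

open MeasureTheory Filter Topology
open scoped ContDiff ENNReal

namespace Pool.Agent.PFT

open Pool.Agent.PenroseSph Pool.Agent.PFlow

/-! ### Jets -/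

/-- Bounds of order `s^a` of a function and of its first derivatives at `x`. -/
structure Jet1 (C s : ℝ) (a : ℤ) (f : E3 → ℝ) (x : E3) : Prop where
  smooth : ContDiffAt ℝ ∞ f x
  b0 : |f x| ≤ C * s ^ a
  b1 : ∀ k, |pd k f x| ≤ C * s ^ (a - 1)

/-- Bounds of order `s^a` of a function and of its derivatives up to the second order at `x`. -/
structure Jet2 (C s : ℝ) (a : ℤ) (f : E3 → ℝ) (x : E3) : Prop where
  smooth : ContDiffAt ℝ ∞ f x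
  b0 : |f x| ≤ C * s ^ a
  b1 : ∀ k, |pd k f x| ≤ C * s ^ (a - 1)
  b2 : ∀ k l, |pd k (pd l f) x| ≤ C * s ^ (a - 2)

/-- **JET.** The algebra of jets. Paper: product rule (`pd k (f f') = f pd k f' + pd k f f'` holds in a
neighbourhood of `x`, so it may be differentiated again); `C, C' ≥ 0` follows from `b0` and `0 < s`; the powers by `zpow_add₀`. -/
def Stmt_JET : Prop := ∀ (s : ℝ) (x : E3), 0 < s →
  (∀ (C C' : ℝ) (a b : ℤ) (f f' : E3 → ℝ), Jet1 C s a f x → Jet1 C' s b f' x →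
    Jet1 (4 * C * C') s (a + b) (fun y => f y * f' y) x) ∧
  (∀ (C C' : ℝ) (a b : ℤ) (f f' : E3 → ℝ), Jet2 C s a f x → Jet2 C' s b f' x →
    Jet2 (4 * C * C') s (a + b) (fun y => f y * f' y) x) ∧
  (∀ (C C' : ℝ) (a : ℤ) (f f' : E3 → ℝ), Jet1 C s a f x → Jet1 C' s a f' x →
    Jet1 (C + C') s a (fun y => f y + f' y) x) ∧
  (∀ (C C' : ℝ) (a : ℤ) (f f' : E3 → ℝ), Jet2 C s a f x → Jet2 C' s a f' x →
    Jet2 (C + C') s a (fun y => f y + f' y) x) ∧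
  (∀ (C : ℝ) (a : ℤ) (f : Fin 3 → E3 → ℝ), (∀ i, Jet1 C s a (f i) x) →
    Jet1 (3 * C) s a (fun y => ∑ i, f i y) x) ∧
  (∀ (C : ℝ) (a : ℤ) (f : Fin 3 → E3 → ℝ), (∀ i, Jet2 C s a (f i) x) →
    Jet2 (3 * C) s a (fun y => ∑ i, f i y) x) ∧
  (∀ (C : ℝ) (a : ℤ) (f : E3 → ℝ), Jet2 C s a f x → Jet1 C s a f x)

/-- **JIN.** The jets of the inversion and of its Jacobian matrix. Paper: explicit derivatives
(`pd_jac`, `pd_inversion`, `hess_rad`, `pd_nsq` in `Pool/Agent/PFlow/E/BARB.lean` and `Pool/Agent/PFlow/E/AFD.lean` have the first ones), or: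
`y_c` is a `Jet2 1 ‖x‖ 1`, `‖y‖^2` a `Jet2 6 ‖x‖ 2`, `(‖y‖²)⁻¹` a `Jet2 C ‖x‖ (-2)`, and products. -/
def Stmt_JIN : Prop := ∃ C : ℝ, 0 < C ∧ ∀ x : E3, x ≠ 0 →
  (∀ a i, Jet2 C ‖x‖ (-2) (fun y => inversionJac y a i) x) ∧
  (∀ c, Jet2 C ‖x‖ (-1) (fun y => inversion y c) x)

/-- **JCO.** Composition with the inversion. Paper: near `x`, `∂_k (F ∘ I) = Σ_c (∂_c F ∘ I) ∂_k I^c`,
`∂_k ∂_l (F ∘ I) = Σ_c Σ_d (∂_d ∂_c F ∘ I) ∂_k I^d ∂_l I^c + Σ_c (∂_c F ∘ I) ∂_k ∂_l I^c`, `|∂I| ≤ C ‖x‖⁻²`,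
`|∂²I| ≤ C ‖x‖⁻³` from `JIN`. -/
def Stmt_JCO : Prop := ∀ (C : ℝ) (a : ℤ), ∃ C' : ℝ, 0 < C' ∧ ∀ (F : E3 → ℝ) (x : E3), x ≠ 0 →
  ContDiffAt ℝ ∞ F (inversion x) →
  |F (inversion x)| ≤ C * ‖x‖ ^ a → (∀ k, |pd k F (inversion x)| ≤ C * ‖x‖ ^ (a + 1)) →
  Jet1 C' ‖x‖ a (fun y => F (inversion y)) x ∧
  ((∀ k l, |pd k (pd l F) (inversion x)| ≤ C * ‖x‖ ^ (a + 2)) →
    Jet2 C' ‖x‖ a (fun y => F (inversion y)) x)

/-- **NE.** The bounds near an end at the origin. Paper: `g x = Jᵀ ĝ(I x) J` for `x ≠ 0`, `ĝ = inverted g`, `J = inversionJac x`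
(`inversionJac (I x) = (inversionJac x)⁻¹` up to the usual identities, cf. `g_eq` in `Pool/Agent/PFlow/E/BARB.lean`, `jac_sq`, `norm_inversion`,
`inversion_inversion` in `Pool/Agent/PFlow/E/HSM2.lean`); this holds near `x`, so `JET`, `JIN`, `JCO` (with `a = 0` for `ĝ`, `a = 2` for `k̂`) give `d1, d2, k0, k1` if `‖x‖ ≤ 1` and
`1/‖x‖ ≥ R₀`. `low`, `up`: `|J v|² = |v|²/‖x‖⁴` and `ĝ` is close to `δ` (`ev_near_one` in `Pool/Agent/PFlow/E/AFD.lean`) if `C₀‖x‖ ≤ 1/6`. -/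
def Stmt_NE : Prop := ∀ (C₀ R₀ ρ : ℝ) (g k : TensorField), 0 < ρ →
  (∀ x : E3, 0 < ‖x‖ → ‖x‖ < ρ → ∀ i j, ContDiffAt ℝ ∞ (fun y => g y i j) x ∧
    ContDiffAt ℝ ∞ (fun y => k y i j) x) →
  DecayFrom C₀ R₀ (inverted g) (inverted k) →
  ∃ C r : ℝ, 0 < C ∧ 0 < r ∧ r ≤ 1 ∧ r ≤ ρ ∧ ∀ x : E3, 0 < ‖x‖ → ‖x‖ < r → NearEnd C ‖x‖ g k x

/-- **SB.** The energy surplus near an end is `O(s²)`. Paper: `g ≥ C⁻¹ s⁻⁴`, so `|g⁻¹_ij| ≤ C s⁴` (`inv_entry` in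
`Pool/Agent/PFlow/E/SHELL.lean`), `|g_ij| ≤ C s⁻⁴`; `|Γ| ≤ C s⁻¹`, `|∂ g⁻¹| ≤ C s³`, `|∂Γ| ≤ C s⁻²`, `|R| ≤ C s²`, `|k|² , (tr k)² ≤ C s⁴`,
`|∂ tr k| ≤ C s`, `|J_j| ≤ C s`, `|J| ≤ C s³`. The formulas are as in `Pool/Agent/PFlow/E/SCAL.lean` (there with `g` close to `δ`; copy and adapt the `Hyp`
lemmas). -/
def Stmt_SB : Prop := ∀ C : ℝ, 0 < C → ∃ C' : ℝ, 0 < C' ∧
  ∀ (s : ℝ) (g k : TensorField) (x : E3), 0 < s → s ≤ 1 → (∀ᶠ y in 𝓝 x, (g y).PosDef) →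
    (∀ i j, ContDiffAt ℝ ∞ (fun y => g y i j) x) → (∀ i j, ContDiffAt ℝ ∞ (fun y => k y i j) x) →
    NearEnd C s g k x → |surplus g k x| ≤ C' * s ^ 2

/-! ### One cap -/

/-- The metric capped at `p` at depth `N`. -/
noncomputable def cap1 (N : ℝ) (p : E3) (g : TensorField) : TensorField := fun x =>
  kin N (x - p) • g x + ((1 - kin N (x - p)) * N ^ 4) • (1 : Bil)

/-- The tensor cut off at `p` at depth `N / 2`. -/
noncomputable def cut1 (N : ℝ) (p : E3) (k : TensorField) : TensorField := fun x =>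
  kin (N / 2) (x - p) • k x

/-- **CNE.** The capped data satisfy the same bounds. Paper: on `1/(32N) ≤ s ≤ 1/(4N)` one has `1/(32 s) ≤ N ≤ 1/(4s)`; the cut-offs
`c = kin N (· - p)` satisfy `0 ≤ c ≤ 1`, `|∂c| ≤ C N`, `|∂²c| ≤ C N²` (`KAP` in `Pool/Agent/PFlow/E/KAP.lean` with `l = 1/(32N)`), `|g_ij| ≤ C s⁻⁴` by `up`; product rule;
`low` and `up` by convexity. -/
def Stmt_CNE : Prop := ∀ C : ℝ, 0 < C → ∃ C' : ℝ, 0 < C' ∧
  ∀ (N : ℝ) (p x : E3) (g k : TensorField), 1 ≤ N → 1 / (32 * N) ≤ ‖x - p‖ →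
    ‖x - p‖ ≤ 1 / (4 * N) → (g x).PosDef → (∀ i j, ContDiffAt ℝ ∞ (fun y => g y i j) x) →
    (∀ i j, ContDiffAt ℝ ∞ (fun y => k y i j) x) → NearEnd C ‖x - p‖ g k x →
    NearEnd C' ‖x - p‖ (cap1 N p g) (cut1 N p k) x

/-- **CVO.** The volume of a cap. Paper: on `s ≤ 1/(32N)` the metric is `N⁴ δ`, `√det = N⁶`; on `1/(32N) ≤ s ≤ 1/(4N)` the entries of `cap1 N p g` are
at most `C s⁻⁴ + N⁴ ≤ C' N⁴` (polarisation of `up`, positive definite), so `√det ≤ C' N⁶`; the volume of the ball is `C N⁻³`; `norm_setIntegral_le_of_norm_le_const`. -/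
def Stmt_CVO : Prop := ∀ C : ℝ, 0 < C → ∃ C' : ℝ, 0 < C' ∧
  ∀ (N : ℝ) (p : E3) (g k : TensorField), 1 ≤ N →
    (∀ x : E3, 0 < ‖x - p‖ → ‖x - p‖ ≤ 1 / (4 * N) → (g x).PosDef ∧ NearEnd C ‖x - p‖ g k x) →
    ∫ x in Metric.closedBall p (1 / (4 * N)), volDen (cap1 N p g) x ≤ C' * N ^ 3

/-! ### Several caps -/

/-- The points of `P` have mutual distance larger than `1 / N`. -/
def SepN (P : Finset E3) (N : ℝ) : Prop :=
  1 ≤ N ∧ ∀ p ∈ P, ∀ q ∈ P, p ≠ q → 1 / N < ‖p - q‖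

/-- **CHI.** Properties of the cut-offs (helper76). -/
def Stmt_CHI : Prop := ∀ (P : Finset E3) (N : ℝ), SepN P N →
  ContDiff ℝ ∞ (chiN (P.erase 0) N) ∧ ContDiff ℝ ∞ (chiN (P.erase 0) (N / 2)) ∧
  ContDiff ℝ ∞ (fun x : E3 => ∑ p ∈ P.erase 0, (1 - kin N (x - p))) ∧
  (∀ x, (0 ≤ chiN (P.erase 0) N x ∧ chiN (P.erase 0) N x ≤ 1) ∧
    (0 ≤ chiN (P.erase 0) (N / 2) x ∧ chiN (P.erase 0) (N / 2) x ≤ 1)) ∧
  (∀ x, (∀ p ∈ P, p ≠ 0 → 1 / (16 * N) ≤ ‖x - p‖) →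
    chiN (P.erase 0) N x = 1 ∧ ∑ p ∈ P.erase 0, (1 - kin N (x - p)) = 0) ∧
  (∀ x, (∀ p ∈ P, p ≠ 0 → 1 / (8 * N) ≤ ‖x - p‖) → chiN (P.erase 0) (N / 2) x = 1) ∧
  (∀ p ∈ P, p ≠ 0 → ∀ x, ‖x - p‖ < 1 / (2 * N) →
    chiN (P.erase 0) N x = kin N (x - p) ∧
    ∑ q ∈ P.erase 0, (1 - kin N (x - q)) = 1 - kin N (x - p) ∧
    chiN (P.erase 0) (N / 2) x = kin (N / 2) (x - p))

/-- **CEN.** The capped data have the same ends at infinity and at the origin. Paper: the data agree (by `CHI`, a hypothesis of the module) for `‖x‖ > max_p ‖p‖ + 1` and for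
`‖x‖ < 1/(2N)`; the derivatives at `x` depend only on a neighbourhood of `x`; `inverted g y` depends only on `g (inversion y)`, `‖inversion y‖ = 1/‖y‖`; `shift 0 g = g`. -/
def Stmt_CEN : Prop := ∀ (P : Finset E3) (N : ℝ) (g k : TensorField), (0 : E3) ∈ P →
  SeveralEnds P g k → SepN P N →
  (∃ C R : ℝ, DecayFrom C R (capG (P.erase 0) N g) (capK (P.erase 0) N k)) ∧
  (∃ C R : ℝ, DecayFrom C R (inverted (capG (P.erase 0) N g)) (inverted (capK (P.erase 0) N k)))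

/-- **NEP.** The bounds near all the ends `p ≠ 0`. Paper: `NE` for `shift p g`, `shift p k` and translation (`pd k (fun y => F (y - p)) x = pd k F (x - p)`), for each of the finitely many `p`; take the largest constant
(`NearEnd` is monotone in `C`, all bounds are nonnegative) and the smallest radius. -/
def Stmt_NEP : Prop := ∀ (P : Finset E3) (g k : TensorField), SeveralEnds P g k →
  ∃ C N₀ : ℝ, 0 < C ∧ SepN P N₀ ∧ ∀ p ∈ P, ∀ x : E3, 0 < ‖x - p‖ → ‖x - p‖ ≤ 1 / (4 * N₀) →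
    x ∉ P ∧ NearEnd C ‖x - p‖ g k x

end Pool.Agent.PFT
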