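import Pool.Agent.PFT.StmtsL
import Pool.Agent.PFT.StmtsA

/-!
# Several ends, part E: the energy block and the flow from the end at the origin
-/

open MeasureTheory Filter Topology
open scoped ContDiff ENNReal

namespace Pool.Agent.PFT

open Pool.Agent.PenroseSph Pool.Agent.PFlow

/-- XWOU [PFlow/E/XWO.lean: the constant there depends on `P.eps` and `P.gam` only]: the cubic
integral over the outer windows. -/
def Stmt_XWOU : Prop :=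
  ∀ ε γ : ℝ, 0 < ε → ε ≤ 1 / 2 → 0 < γ → ∃ B : ℝ, 0 < B ∧ ∀ (Q : Par) (D : Dat), Q.eps = ε →
    Q.gam = γ → Setup Q D → ∀ s, D.s2 Q ≤ s → s + 1 ≤ D.sM Q →
      ∫ x in D.Om ∩ {x | s < D.w Q x ∧ D.w Q x < s + 1}, D.X Q x ^ 3 * D.vol x ≤ B

/-- JUU [PFlow/E/UPH.lean, first part; inputs XWOU, `Stmt_JUP` = `eJUP`, `Stmt_SETW` = `eSETW`]: the
upper bound for the flux depends on `ε` and `γ` only. Replace the constant `B` in the field `window`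
of `AbsOf Q D B` by the constant of XWOU; the window `{s₂ < w < s₂ + 1}` lies in
`{2ℓ ≤ |x| ≤ Kℓ}`, where the metric is flat, so its volume is at most `C ℓ³`, `C = C(ε, γ)`, and
`exp(-s₂) (C ℓ³)^((2-ε)/3)` is bounded. -/
def Stmt_JUU : Prop :=
  ∀ (ε γ : ℝ) (β : ℝ → ℝ), 0 < ε → ε ≤ 1 / 2 → 0 < γ → IsBump β → ∃ B' : ℝ, 0 < B' ∧
    ∀ (Q : Par) (D : Dat) (B : ℝ), Q.eps = ε → Q.gam = γ → Setup Q D → AbsOf Q D B →
      0 ≤ jInf Q.eps β D.Om D.vol (D.w Q) (D.X Q) (D.s2 Q) ∧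
      jInf Q.eps β D.Om D.vol (D.w Q) (D.X Q) (D.s2 Q) ≤ B'

/-- NDS [PFlow/E/DEFE.lean; FLXA = `eFLXA`, HOLA = `eHOLA`]: the total defect when the defect has
two parts. The first part `e₀ ≤ E` is supported in the set `T`, where `w ≤ s`:
`∫_T φ e₀ dV ≤ E e^{s/(2-ε)} ∫_T |∇w| dV`, and FLXA, HOLA with `σ₁ = s_b/2`, `σ₂ = s`. The second
part is treated as in DEFE. -/
def Stmt_NDS : Prop :=
  ∀ (Q : Par) (B : ℝ) (β : ℝ → ℝ) (g : TensorField) (l : ℝ), IsBump β → ∃ B' : ℝ, 0 < B' ∧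
    ∀ D : Dat, Setup Q D → AbsOf Q D B → D.g = g → D.l = l →
      ∀ (T : Set E3) (e₀ e₂ : E3 → ℝ) (E V s J : ℝ), (∀ x, D.e x = e₀ x + e₂ x) →
        Continuous e₀ → Continuous e₂ → (∀ x, 0 ≤ e₀ x ∧ 0 ≤ e₂ x ∧ e₀ x ≤ E) →
        (∀ x, x ∉ T → e₀ x = 0) → IsCompact T → T ⊆ D.Om →
        (∀ x ∈ T, D.sb Q / 2 ≤ D.w Q x ∧ D.w Q x ≤ s) → s ≤ D.s2 Q → 0 ≤ J → 0 ≤ V →
        (∫ x in T, D.vol x) ≤ V → jInf Q.eps β D.Om D.vol (D.w Q) (D.X Q) (D.s2 Q) ≤ J →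
        D.Nd Q ≤ E * Real.exp (s / (2 - Q.eps)) * ((J * Real.exp s) ^ (1 / (1 + Q.eps))
            * V ^ (Q.eps / (1 + Q.eps)))
          + B' * (∫ x in cAnn (Q.kap / D.l) D.l, e₂ x ^ ((1 + Q.eps) / Q.eps))
            ^ (Q.eps / (1 + Q.eps))

/-- MSIT [PFlow/E/MSI.lean, keeping the coefficient `1` of `Nd` which MATL has]: the mass
inequality (i). -/
def Stmt_MSIT : Prop :=
  ∀ (Q : Par) (B B₃ : ℝ), ∃ B' : ℝ, 0 < B' ∧ ∀ D : Dat, Setup Q D → AbsOf Q D B →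
    ∀ se lm : ℝ, Cut Q D se → Lam Q D B₃ lm →
      4 * Real.pi * (2 - Q.eps) ≤ 8 * Real.pi * massIntegral D.g D.l * lm + D.Nd Q
        + B' * (D.l ^ (-(1 / 2 : ℝ)) + D.th + D.er Q se)

/-- HOLK [PFlow/E/MSIII.lean; FLXA, HOLA]: the area integral over a compact set. -/
def Stmt_HOLK : Prop :=
  ∀ (Q : Par) (B : ℝ) (β : ℝ → ℝ), IsBump β → ∀ D : Dat, Setup Q D → AbsOf Q D B →
    0 ≤ jInf Q.eps β D.Om D.vol (D.w Q) (D.X Q) (D.s2 Q) ∧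
    ∀ K : Set E3, IsCompact K → K ⊆ D.Om → ∀ s₀ s₁ : ℝ, D.sb Q / 4 < s₀ → s₀ < s₁ →
      s₁ ≤ D.s2 Q →
      ∫ x in K ∩ {x | s₀ ≤ D.w Q x ∧ D.w Q x ≤ s₁}, D.X Q x * D.vol x
        ≤ (jInf Q.eps β D.Om D.vol (D.w Q) (D.X Q) (D.s2 Q) * (Real.exp s₁ - Real.exp s₀))
              ^ (1 / (1 + Q.eps))
            * (∫ x in K, D.vol x) ^ (Q.eps / (1 + Q.eps))

/-- H2L: functions of class `H²` are of class `W^{1,1}` on compact sets. -/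
def Stmt_H2L : Prop :=
  ∀ (U K : Set E3) (w : E3 → ℝ) (G : E3 → Cov) (M : E3 → Bil), H2On U w G M → IsCompact K →
    K ⊆ U → L1Approx K w G

/-- CCO: the cost of the caps tends to zero: for `E = C/N²`, `V = C N³` and fixed `s`, `J`. -/
def Stmt_CCO : Prop :=
  ∀ ε C s J τ N₀ : ℝ, 0 < ε → ε ≤ 1 / 2 → 0 < C → 0 ≤ J → 0 < τ → ∃ N : ℝ, N₀ ≤ N ∧ 1 ≤ N ∧
    C / N ^ 2 * Real.exp (s / (2 - ε)) * ((J * Real.exp s) ^ (1 / (1 + ε))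
      * (C * N ^ 3) ^ (ε / (1 + ε))) ≤ τ

/-- EXT [PFlow/E/EXI1.lean; inputs CAP, MODD, LOCUT, GAM, ULB, UBAR, USAM, JUU, NDS, CCO; `eLOC`,
`eABS`, `eMODM`, `eEETA`, `P`, `eAFD`, `eSETW` of PFlow]: existence of the setup.
Order of the choices: `C₁, N₀` from CAP (increase `N₀` such that the balls `|x-p| ≤ 1/(4N₀)` lie in
`2ρ₁ < |x| < r₁`); the capped data of depth `N₀` and MODD give `C₂, l₀`, the uniform barrier
constant for all `N ≥ N₀` by UBAR; LOCUT gives `ρ, r`. Given `ε, τ, δ`: ULB (with USAM) gives `c`,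
GAM gives `γ`, JUU gives the bound `J`, CCO gives `N` with `1/(8N) < δ/2` for which the cost of the
caps is at most `min(τ, 1/2)` (`s = -ε log c`, `E = C₁/N²`, `V = |P| C₁ N³`, `T` the union of the
closed balls `|x - p| ≤ 1/(4N)`, `p ≠ 0`, which lie in `1/(4l) < |x| < r₁`, so `s_b < w ≤ s` there).
For this `N` the capped data, MODD, AFD, `eLOC` (whose constant `γ` is replaced by the one of GAM in
the fields `outer`, `outer_low`, `mid` of `Located`) and `eABS` as in EXI1. -/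
def Stmt_EXT : Prop :=
  ∀ (P : Finset E3) (g k : TensorField), (0 : E3) ∈ P → SeveralEnds P g k →
    (∀ x : E3, x ∉ P → 0 ≤ surplus g k x) → PlaneSignP P g k →
    ∃ ρ r : ℝ, 0 < ρ ∧ 1 ≤ r ∧ (∀ p ∈ P, p ≠ 0 → 2 * ρ < ‖p‖) ∧ (∀ p ∈ P, ‖p‖ < r) ∧
      ∀ ε τ δ : ℝ, 0 < ε → ε ≤ 1 / 2 → 0 < τ → 0 < δ →
        ∃ (Q : Par) (B l₀ : ℝ) (g₁ k₁ : TensorField), Q.eps = ε ∧ 0 < B ∧ 4 ≤ l₀ ∧
          (∀ x : E3, (∀ p ∈ P, p ≠ 0 → δ / 2 < ‖x - p‖) → g₁ x = g x ∧ k₁ x = k x) ∧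
          ∀ l τ' L : ℝ, l₀ ≤ l → 0 < τ' → 1 ≤ L →
            ∃ (D : Dat) (se : ℝ), D.g = g₁ ∧ D.h = k₁ ∧ D.l = l ∧ Setup Q D ∧ AbsOf Q D B ∧
              Cut Q D se ∧ D.Nd Q ≤ τ + τ' ∧ D.er Q se ≤ τ' ∧ D.s2 Q + L + 1 < D.sM Q ∧
              1 / D.R < ρ / 2 ∧
              ∀ x ∈ D.Om, (‖x‖ ≤ ρ → D.w Q x < Q.eps) ∧ (r ≤ ‖x‖ → 1 < D.w Q x)

/-- EPST [PFlow/E/EPS.lean; inputs EXT, MSIT, HOLK, H2L and `eWGTE`, `eMSII`, `eBETA`, `eSETW`]: the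
flow from the end at the origin. For `ε, τ, δ` use EXT with `τ/2`; then `L`, `l` (also `l > 2r`) and
`τ'` as in EPS. For `x` in `K` the metrics `D.g'`, `D.g = g₁` and `g` agree at `x`. -/
def Stmt_EPST : Prop :=
  ∀ (P : Finset E3) (g k : TensorField) (m : ℝ), (0 : E3) ∈ P → SeveralEnds P g k →
    (∀ x : E3, x ∉ P → 0 ≤ surplus g k x) → PlaneSignP P g k →
    Tendsto (fun l : ℝ => ∫ x in cAnn (l / 2) l, msz (k x) / l) atTop (𝓝 0) →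
    IsTotalMass g m →
    ∃ ρ r₀ : ℝ, 0 < ρ ∧ 1 ≤ r₀ ∧ (∀ p ∈ P, p ≠ 0 → 2 * ρ < ‖p‖) ∧ (∀ p ∈ P, ‖p‖ < r₀) ∧
      ∀ r ε τ δ : ℝ, r₀ ≤ r → 0 < ε → ε ≤ 1 / 2 → 0 < τ → 0 < δ →
        ∃ (lm J : ℝ) (w : E3 → ℝ) (G : E3 → Cov), 0 < lm ∧ 0 ≤ J ∧
          4 * Real.pi * (2 - ε) - τ ≤ 8 * Real.pi * m * lm ∧
          J * lm ^ (2 - ε) ≤ 4 * Real.pi * (2 - ε) ^ 2 + τ ∧ FlowOn P g ε J ρ r δ w G

end Pool.Agent.PFT
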