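import Pool.Agent.PFT.StmtsE
import Pool.Agent.PFT.StmtsCAP

/-!
# Several ends, part F: translations, the flow from every end, the limit
-/

open MeasureTheory Filter Topology
open scoped ContDiff ENNReal

namespace Pool.Agent.PFT

open Pool.Agent.PenroseSph Pool.Agent.PFlow

/-- The points `q - p`, `q ∈ P`. -/
noncomputable def trans (P : Finset E3) (p : E3) : Finset E3 := P.map (Equiv.subRight p).toEmbedding

/-- The mean of `|k|` over large shells is `o(l⁻²)`. -/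
def FarSmall (k : TensorField) : Prop :=
  Tendsto (fun l : ℝ => ∫ x in cAnn (l / 2) l, msz (k x) / l) atTop (𝓝 0)

/-- ELL [input NEP of StmtsCAP]: the ellipticity at the ends. -/
def Stmt_ELL : Prop :=
  ∀ (P : Finset E3) (g k : TensorField), SeveralEnds P g k → ∀ p ∈ P, EllAt g p

/-- RJINT [PFlow/E/JINT.lean, PFlow/X/XJINT.lean, with the radius `r₀` instead of `1`]: the momentum
density is integrable. -/
def Stmt_RJINT : Prop :=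
  ∀ (g k : TensorField) (r₀ : ℝ), 0 < r₀ → MetricOn {x : E3 | r₀ < ‖x‖} g →
    TensorOn {x : E3 | r₀ < ‖x‖} k → (∃ C R : ℝ, DecayFrom C R g k) →
    (∀ x : E3, r₀ < ‖x‖ → 0 ≤ surplus g k x) →
    ∃ C r₁ : ℝ, r₀ < r₁ ∧ 1 ≤ r₁ ∧ ∀ R : ℝ, r₁ ≤ R → ∫ x in cAnn r₁ R, jlen g k x ≤ C

/-- RTINT [PFlow/E/TINT.lean, PFlow/X/XTINT.lean; input RJINT]: the trace divided by the radius is
integrable. -/
def Stmt_RTINT : Prop :=
  ∀ (g k : TensorField) (r₀ : ℝ), 0 < r₀ → MetricOn {x : E3 | r₀ < ‖x‖} g →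
    TensorOn {x : E3 | r₀ < ‖x‖} k → (∃ C R : ℝ, DecayFrom C R g k) →
    (∀ x : E3, r₀ < ‖x‖ → 0 ≤ surplus g k x) →
    (∀ x : E3, r₀ < ‖x‖ → (∀ v : Cov, ev (g x) v v = 1 → ev (k x) v v ≤ trg g x (k x)) ∨
      (∀ v : Cov, ev (g x) v v = 1 → trg g x (k x) ≤ ev (k x) v v)) →
    FarStrict g k →
    ∃ r₁ : ℝ, r₀ < r₁ ∧ 1 ≤ r₁ ∧
      IntegrableOn (fun x => |trg g x (k x)| / ‖x‖) {x : E3 | r₁ ≤ ‖x‖}

/-- RLIMK [PFlow/E/LIMK2.lean, PFlow/X/XLIMK.lean; input RTINT]: the mean of `|k|` over large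
shells. -/
def Stmt_RLIMK : Prop :=
  ∀ (g k : TensorField) (r₀ : ℝ), 0 < r₀ → MetricOn {x : E3 | r₀ < ‖x‖} g →
    TensorOn {x : E3 | r₀ < ‖x‖} k → (∃ C R : ℝ, DecayFrom C R g k) →
    (∀ x : E3, r₀ < ‖x‖ → 0 ≤ surplus g k x) →
    (∀ x : E3, r₀ < ‖x‖ → (∀ v : Cov, ev (g x) v v = 1 → ev (k x) v v ≤ trg g x (k x)) ∨
      (∀ v : Cov, ev (g x) v v = 1 → trg g x (k x) ≤ ev (k x) v v)) →
    FarCondition g k → FarSmall k

/-- TRN: translation of the data. -/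
def Stmt_TRN : Prop :=
  ∀ (P : Finset E3) (g k : TensorField) (p : E3), SeveralEnds P g k →
    SeveralEnds (trans P p) (shift p g) (shift p k) ∧
    ((∀ x : E3, x ∉ P → 0 ≤ surplus g k x) →
      ∀ x : E3, x ∉ trans P p → 0 ≤ surplus (shift p g) (shift p k) x) ∧
    (PlaneSignP P g k → PlaneSignP (trans P p) (shift p g) (shift p k))

/-- TRM: translation at infinity: `|∂g(x+p) - ∂g(x)| = O(|x|⁻³)`, so the mass does not change; the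
shell `l/2 ≤ |x| ≤ l` is contained in the union of three shells about the other centre. -/
def Stmt_TRM : Prop :=
  ∀ (P : Finset E3) (g k : TensorField) (p : E3), SeveralEnds P g k →
    (∀ m : ℝ, IsTotalMass g m → IsTotalMass (shift p g) m) ∧
    (FarSmall k → FarSmall (shift p k))

/-- What the flow from the end `p` delivers for fixed `ε` (`FlowOn` for a general end). -/
structure FlowAt (P : Finset E3) (g : TensorField) (p : E3) (ε J ρ r δ : ℝ) (w : E3 → ℝ)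
    (G : E3 → Cov) : Prop where
  approx : ∀ K : Set E3, IsCompact K →
    (∀ x ∈ K, ρ / 2 ≤ ‖x - p‖ ∧ ‖x - p‖ ≤ 2 * r ∧ ∀ q ∈ P, q ≠ p → δ ≤ ‖x - q‖) →
    L1Approx K w G
  inner : ∀ x : E3, ρ / 2 ≤ ‖x - p‖ → ‖x - p‖ ≤ ρ → w x < ε
  outer : ∀ x : E3, r ≤ ‖x - p‖ → ‖x - p‖ ≤ 2 * r → 1 < w x
  bound : ∀ K : Set E3, IsCompact K →
    (∀ x ∈ K, ρ / 2 ≤ ‖x - p‖ ∧ ‖x - p‖ ≤ 2 * r ∧ ∀ q ∈ P, q ≠ p → δ ≤ ‖x - q‖) →
    ∀ s₀ s₁ : ℝ, ε ≤ s₀ → s₀ < s₁ → s₁ ≤ 1 →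
      ∫ x in K ∩ {x | s₀ ≤ w x ∧ w x ≤ s₁}, len g x (G x) * volDen g x
        ≤ (J * (Real.exp s₁ - Real.exp s₀)) ^ (1 / (1 + ε))
          * (∫ x in K, volDen g x) ^ (ε / (1 + ε))

/-- EPSP [inputs EPST, TRN, TRM]: the flow from every end, by translation of EPST (for
`trans P p`, `shift p g`, `shift p k`): `w x = w' (x - p)`, `G x = G' (x - p)`. -/
def Stmt_EPSP : Prop :=
  ∀ (P : Finset E3) (g k : TensorField) (m : ℝ) (p : E3), p ∈ P → SeveralEnds P g k →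
    (∀ x : E3, x ∉ P → 0 ≤ surplus g k x) → PlaneSignP P g k → FarSmall k → IsTotalMass g m →
    ∃ ρ r₀ : ℝ, 0 < ρ ∧ 1 ≤ r₀ ∧ (∀ q ∈ P, q ≠ p → 2 * ρ < ‖q - p‖) ∧
      (∀ q ∈ P, ‖q - p‖ < r₀) ∧
      ∀ r ε τ δ : ℝ, r₀ ≤ r → 0 < ε → ε ≤ 1 / 2 → 0 < τ → 0 < δ →
        ∃ (lm J : ℝ) (w : E3 → ℝ) (G : E3 → Cov), 0 < lm ∧ 0 ≤ J ∧
          4 * Real.pi * (2 - ε) - τ ≤ 8 * Real.pi * m * lm ∧
          J * lm ^ (2 - ε) ≤ 4 * Real.pi * (2 - ε) ^ 2 + τ ∧ FlowAt P g p ε J ρ r δ w G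

/-- LIMN [PFlow/E/LIM.lean]: the limit `τ → 0`, `ε → 0`, then `s₀, s₁ → 0`. -/
def Stmt_LIMN : Prop :=
  ∀ (m A c V : ℝ) (n : ℕ), 0 < V → 0 ≤ A → 1 ≤ n → 0 ≤ c →
    (∀ ε τ s₀ s₁ : ℝ, 0 < ε → ε ≤ 1 / 2 → 0 < τ → ε ≤ s₀ → s₀ < s₁ → s₁ ≤ 1 →
      ∃ lm J : Fin n → ℝ, (∀ i, 0 < lm i ∧ 0 ≤ J i ∧
          4 * Real.pi * (2 - ε) - τ ≤ 8 * Real.pi * m * lm i ∧
          J i * lm i ^ (2 - ε) ≤ 4 * Real.pi * (2 - ε) ^ 2 + τ) ∧
        A * (s₁ - s₀) ≤ c * ∑ i, (J i * (Real.exp s₁ - Real.exp s₀)) ^ (1 / (1 + ε))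
          * V ^ (ε / (1 + ε))) →
    0 < m ∧ A ≤ c * (n * (16 * Real.pi * m ^ 2))

/-- TFA [inputs EPSP, PERC, LIMN, ELL]: the inequality for one end. PERC (with the sphere
`|x| = 3r/2`, `r ≥ 2|p|`, `r ≥ r₀`) and the field `bound` for `K = kset P (aDel p ρ δ) (3r/2)` (whose
volume `V` does not depend on `ε, τ`); LIMN with `n = 1`, `c = 1 + C/M` gives
`A ≤ (1 + C/M) 16 π m²` for every `M` and every `A ≥ 0` with `LowerP P {p} g A`. -/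
def Stmt_TFA : Prop :=
  ∀ (P : Finset E3) (g k : TensorField) (m : ℝ) (p : E3), p ∈ P → SeveralEnds P g k →
    (∀ x : E3, x ∉ P → 0 ≤ surplus g k x) → PlaneSignP P g k → FarSmall k → IsTotalMass g m →
    minAreaAt P g p ≠ ⊤ ∧ Real.sqrt ((minAreaAt P g p).toReal / (16 * Real.pi)) ≤ m

/-- TFB [inputs EPSP, PERB, LIMN]: the inequality for all the ends. With `ρ p` from EPSP for every
`p ∈ P`, `a p = ρ p`, `δ` the smallest `ρ p`, `r` larger than all `r₀` and `2|p|`, the sphere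
`|x| = 3r/2` and `K = kset P a (3r/2)`; LIMN with `n = |P|`, `c = 1`. -/
def Stmt_TFB : Prop :=
  ∀ (P : Finset E3) (g k : TensorField) (m : ℝ), P.Nonempty → SeveralEnds P g k →
    (∀ x : E3, x ∉ P → 0 ≤ surplus g k x) → PlaneSignP P g k → FarSmall k → IsTotalMass g m →
    minAreaAll P g ≠ ⊤ ∧
      Real.sqrt ((minAreaAll P g).toReal / (16 * Real.pi * P.card)) ≤ m

/-- RTRD [PFlow/E/TRD.lean]: competitors in the trace-dominated case. -/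
def Stmt_RTRD : Prop :=
  ∀ (P : Finset E3) (g h : TensorField), SeveralEnds P g h → TraceDominatedP P g h →
    CompetitorP P g h (traceTensor g h)

/-- RTFD [PFlow/E/TFD.lean]: if the trace-free part of `h` is divergence-free then `h` is
trace-dominated. -/
def Stmt_RTFD : Prop :=
  ∀ (P : Finset E3) (g h : TensorField), MetricOn ((P : Set E3))ᶜ g →
    TensorOn ((P : Set E3))ᶜ h →
    (∀ x : E3, x ∉ P → ∀ j, divergence g (fun y => h y - traceTensor g h y) j x = 0) →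
    TraceDominatedP P g h

end Pool.Agent.PFT
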