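import Pool.Agent.PFT.Defs

/-!
# Several ends, part L: modified data and location of the levels
-/

open MeasureTheory Filter Topology
open scoped ContDiff ENNReal

namespace Pool.Agent.PFT

open Pool.Agent.PenroseSph Pool.Agent.PFlow

/-- CAP: the capped data (block of helper76). -/
def Stmt_CAP : Prop :=
  ∀ (P : Finset E3) (g k : TensorField), (0 : E3) ∈ P → SeveralEnds P g k →
    (∀ x : E3, x ∉ P → 0 ≤ surplus g k x) → PlaneSignP P g k →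
    ∃ C N₀ : ℝ, 0 < C ∧ 1 ≤ N₀ ∧ (∀ p ∈ P, ∀ q ∈ P, p ≠ q → 1 / N₀ < ‖p - q‖) ∧
      ∀ N : ℝ, N₀ ≤ N → ∃ (g' k' : TensorField) (e : E3 → ℝ), Capped P g k C N g' k' e

/-- SHELLD [PFlow/E/SHELL.lean with the energy condition far out only]: the surplus in the region
`ℓ/2 ≤ |x| ≤ ℓ` where the tensor is cut off. -/
def Stmt_SHELLD : Prop :=
  ∀ (g h : TensorField) (C r : ℝ), MetricOn {0}ᶜ g → TensorOn {0}ᶜ h → PlaneSign g h →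
    1 ≤ r → (∀ x : E3, r ≤ ‖x‖ → 0 ≤ surplus g h x) → DecayFrom C 1 g h →
    (∀ x : E3, 1 ≤ ‖x‖ → ∀ v : Cov,
      (∑ i, v i ^ 2) ≤ C * ev (g x) v v ∧ ev (g x) v v ≤ C * ∑ i, v i ^ 2) →
    ∃ C' : ℝ, 0 < C' ∧ ∀ η l R : ℝ, 0 < η → 2 * r ≤ l → 4 * l ≤ R →
      ∀ x : E3, l / 2 < ‖x‖ → ‖x‖ < l →
        -eEta η g h x - C' * (msz (h x) / l + msz (h x) ^ 2)
          ≤ surplus (modG l R g) (modH η l R g h) x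

/-- MODD [PFlow/E/MOD.lean with a defect `e₀` of compact support; input SHELLD and the modules
`eHATA`, ... of PFlow/E/Asm.lean]: the modified data. -/
def Stmt_MODD : Prop :=
  ∀ (g h : TensorField) (e₀ : E3 → ℝ) (r : ℝ), TwoEnded g h → PlaneSign g h → Continuous e₀ →
    (∀ x, 0 ≤ e₀ x) → 1 ≤ r → (∀ x : E3, r ≤ ‖x‖ → e₀ x = 0) →
    (∀ x : E3, x ≠ 0 → -e₀ x ≤ surplus g h x) →
    ∃ C l₀ : ℝ, 0 < C ∧ 2 ≤ l₀ ∧ ∀ l R η : ℝ, l₀ ≤ l → 4 * l ≤ R → 0 < η →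
      Modified g h C l R (modG l R g) (modH η l R g h)
        (fun x => e₀ x + kin (R / 2) x * eEta η g h x)

/-- The radial barrier estimate at the point `x`. -/
def BarAt (ε C : ℝ) (g h : TensorField) (x : E3) : Prop :=
  |barB ε g h x - bE ε ‖x‖| ≤ C / (1 + ‖x‖ ^ 2)

/-- NZ [PFlow/E/LOC.lean, LOCU.lean]: lower bound of the solution near the end at the origin, using
the barrier for `|x| ≤ ρ₁` only. On `K = {1/(2R) ≤ |x| ≤ ρ₁}` compare `u` with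
`k (Φ₊(|x|) - Φ₊(ρ₁))`, `k = (1-η)/(Φ₊(1/(2R)) - Φ₊(ρ₁))` (`Solution.sub`, `Solution.inner`). -/
def Stmt_NZ : Prop :=
  ∀ ε C ρ₁ : ℝ, 0 < ε → ε ≤ 1 / 2 → 0 < C → 0 < ρ₁ → ρ₁ ≤ 1 →
    ∃ c R₀ : ℝ, 0 < c ∧ 0 < R₀ ∧ ∀ R : ℝ, R₀ ≤ R →
      ∀ (η : ℝ) (g h : TensorField) (u : E3 → ℝ) (G : E3 → Cov) (M : E3 → Bil),
        0 < η → η ≤ R ^ (-pe ε - 1) → MetricOn Set.univ g →
        (∀ x : E3, 1 / (8 * R) ≤ ‖x‖ → ‖x‖ ≤ ρ₁ → BarAt ε C g h x) →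
        Solution ε (1 / R) R η g h u G M → ∀ x : E3, ‖x‖ ≤ ρ₁ / 2 → c ≤ u x

/-- LOCUT [PFlow/E/LOCU.lean]: location of the level sets, uniformly in `ε`, using the barriers for
`|x| ≤ ρ₁` (with `u ≥ 0` on `|x| = ρ₁`) and for `|x| ≥ r₁` (with `u ≤ 1` on `|x| = r₁`) only. -/
def Stmt_LOCUT : Prop :=
  ∀ C ρ₁ r₁ : ℝ, 0 < C → 0 < ρ₁ → ρ₁ ≤ 1 → 1 ≤ r₁ → ∃ ρ r : ℝ, 0 < ρ ∧ ρ < ρ₁ ∧ r₁ < r ∧
    ∀ ε : ℝ, 0 < ε → ε ≤ 1 / 2 → ∃ R₀ : ℝ, ∀ R : ℝ, R₀ ≤ R →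
      ∀ (η : ℝ) (g h : TensorField) (u : E3 → ℝ) (G : E3 → Cov) (M : E3 → Bil),
        0 < η → η ≤ R ^ (-pe ε - 1) → MetricOn Set.univ g →
        (∀ x : E3, 1 / (8 * R) ≤ ‖x‖ → (‖x‖ ≤ ρ₁ ∨ r₁ ≤ ‖x‖) → BarAt ε C g h x) →
        Solution ε (1 / R) R η g h u G M → (∀ x ∈ Ann (1 / R) R, 0 < u x) →
        ∀ x ∈ Ann (1 / R) R, (‖x‖ ≤ ρ → wOf ε u x < ε) ∧ (r ≤ ‖x‖ → 1 < wOf ε u x)

/-- GAM [PFlow/E/LOC.lean]: the location of the outer levels with a constant `γ` which depends only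
on `ε`, on the barrier for `|x| ≥ r₁` and on the lower bound `c ≤ u` for `|x| ≤ r₁`. -/
def Stmt_GAM : Prop :=
  ∀ ε C r₁ c : ℝ, 0 < ε → ε ≤ 1 / 2 → 0 < C → 1 ≤ r₁ → 0 < c → ∃ γ : ℝ, 0 < γ ∧
    ∀ l : ℝ, r₁ ≤ l → ∃ R₀ : ℝ, 16 * l ≤ R₀ ∧ ∀ R : ℝ, R₀ ≤ R →
      ∀ (η : ℝ) (g h : TensorField) (u : E3 → ℝ) (G : E3 → Cov) (M : E3 → Bil),
        0 < η → η ≤ R ^ (-pe ε - 1) → MetricOn Set.univ g →
        (∀ x : E3, r₁ ≤ ‖x‖ → BarAt ε C g h x) →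
        Solution ε (1 / R) R η g h u G M →
        (∀ x ∈ Ann (1 / R) R, ‖x‖ ≤ r₁ → c ≤ u x) →
        (∀ x : E3, 1 ≤ ‖x‖ → ‖x‖ ≤ R / 2 → |wOf ε u x - (2 - ε) * Real.log ‖x‖| ≤ γ) ∧
        (∀ x : E3, 1 ≤ ‖x‖ → ‖x‖ < R → (2 - ε) * Real.log ‖x‖ - γ ≤ wOf ε u x) ∧
        (∀ x ∈ Ann (1 / R) R, ‖x‖ < 4 * l → wOf ε u x < s2E ε γ l)

/-- ULB [inputs NZ; HAR and CONC of PFT/Har.lean]: lower bound of the solution on `|x| ≤ r₁`,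
uniformly in the depth `N` of the caps: NZ gives a bound on a closed ball in `|x| ≤ ρ₁/2`; HAR with
`U = ℝ³` minus `P` carries it to the sphere `|x| = r₁` (the compact set `K'` of HAR has a positive
distance from `P`, so it lies outside the caps for large `N`, and in `|x| ≤ r₂`); in
`ρ₁/4 < |x| < r₁` the infimum is attained on the boundary (`Solution.noIsland`). -/
def Stmt_ULB : Prop :=
  ∀ (P : Finset E3) (g k : TensorField), (0 : E3) ∈ P → SeveralEnds P g k →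
    ∀ ε C ρ₁ r₁ : ℝ, 0 < ε → ε ≤ 1 / 2 → 0 < C → 0 < ρ₁ → ρ₁ ≤ 1 →
      (∀ p ∈ P, p ≠ 0 → ρ₁ < ‖p‖) → (∀ p ∈ P, ‖p‖ < r₁) → 1 ≤ r₁ →
      ∃ c N₁ R₁ r₂ : ℝ, 0 < c ∧ 0 < N₁ ∧ 0 < R₁ ∧ ∀ N R : ℝ, N₁ ≤ N → R₁ ≤ R →
        ∀ (η : ℝ) (g' h' : TensorField) (u : E3 → ℝ) (G : E3 → Cov) (M : E3 → Bil),
          0 < η → η ≤ R ^ (-pe ε - 1) → MetricOn Set.univ g' → SameOn P g k R N r₂ g' h' →
          (∀ x : E3, 1 / (8 * R) ≤ ‖x‖ → ‖x‖ ≤ ρ₁ → BarAt ε C g' h' x) →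
          Solution ε (1 / R) R η g' h' u G M →
          ∀ x ∈ Ann (1 / R) R, ‖x‖ ≤ r₁ → c ≤ u x

/-- UBAR [inputs MODD; the barriers are local]: near zero and far out the barrier constant of the
modified data does not depend on the depth `N` of the caps, because there the capped data of depth
`N` and `N₀` agree (`Capped.same`, `Capped.sameK`). -/
def Stmt_UBAR : Prop :=
  ∀ (P : Finset E3) (g k : TensorField) (C₁ C₂ l₀ N₀ N ρ₁ r₁ : ℝ)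
    (g₀ k₀ g₁ k₁ : TensorField) (e₀ e₁ : E3 → ℝ),
    Capped P g k C₁ N₀ g₀ k₀ e₀ → Capped P g k C₁ N g₁ k₁ e₁ → 1 ≤ N₀ → N₀ ≤ N →
    (∀ p ∈ P, p ≠ 0 → ρ₁ + 1 / (4 * N₀) < ‖p‖ ∧ ‖p‖ + 1 / (4 * N₀) < r₁) →
    (∀ l R η : ℝ, l₀ ≤ l → 4 * l ≤ R → 0 < η →
      Modified g₀ k₀ C₂ l R (modG l R g₀) (modH η l R g₀ k₀)
        (fun x => e₀ x + kin (R / 2) x * eEta η g₀ k₀ x)) →
    ∀ l R η ε : ℝ, l₀ ≤ l → 4 * l ≤ R → 0 < η → 0 < ε → ε ≤ 1 → ∀ x : E3, 1 / (8 * R) ≤ ‖x‖ →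
      (‖x‖ ≤ ρ₁ ∨ r₁ ≤ ‖x‖) → BarAt ε C₂ (modG l R g₁) (modH η l R g₁ k₁) x

/-- USAM: the modified capped data agree with the given data outside the caps. -/
def Stmt_USAM : Prop :=
  ∀ (P : Finset E3) (g k : TensorField) (C₁ N : ℝ) (g₁ k₁ : TensorField) (e₁ : E3 → ℝ),
    (0 : E3) ∈ P → SeveralEnds P g k → Capped P g k C₁ N g₁ k₁ e₁ → 1 ≤ N →
    ∀ l R η r₂ : ℝ, 2 ≤ l → 4 * l ≤ R → 0 < η → 2 * r₂ < l →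
      SameOn P g k R N r₂ (modG l R g₁) (modH η l R g₁ k₁)

end Pool.Agent.PFT
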